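import Pool.Agent.H82.IC.Defs

/-!
# MP_c4c051_pr, project IC: the lattice, the problem's finite volume measures and events

`{0,1}^𝔼` is `Ed d → Bool` with `Ed d = ℤ^d × Fin d`; the edge `(x, i)` has ends `x` and `x + e_i`.
-/

set_option autoImplicit false

open Finset Filter MeasureTheory Topology

namespace H82.IC

abbrev Vx (d : ℕ) := Fin d → ℤ
abbrev Ed (d : ℕ) := (Fin d → ℤ) × Fin d
abbrev Cf (d : ℕ) := Ed d → Bool

/-- the lattice `ℤ^d`. -/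
def Zl (d : ℕ) : Gr (Vx d) (Ed d) where
  s e := e.1
  r e := e.1 + Pi.single e.2 1

/-- nearest neighbours. -/
def Zadj {d : ℕ} (x y : Vx d) : Prop := ∃ i : Fin d, y = x + Pi.single i 1 ∨ x = y + Pi.single i 1

/-- `Λ_n = [-n,n]^d ∩ ℤ^d`. -/
noncomputable def bx (d n : ℕ) : Finset (Vx d) := Fintype.piFinset (fun _ => Finset.Icc (-(n : ℤ)) n)

/-- the edges with both ends in `Λ_n`. -/
noncomputable def bE (d n : ℕ) : Finset (Ed d) :=
  ((bx d n) ×ˢ univ).filter (fun e => e.1 + Pi.single e.2 1 ∈ bx d n)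

/-- `∂Λ_n = {x ∈ Λ_n : ∃ y ∉ Λ_n, x ∼ y}`. -/
noncomputable def bdry (d n : ℕ) : Finset (Vx d) :=
  open Classical in (bx d n).filter (fun x => ∃ y, y ∉ bx d n ∧ Zadj x y)

/-- open edges of a configuration. -/
def opn {d : ℕ} (ω : Cf d) : Set (Ed d) := {e | ω e = true}

/-- configuration equal to `ω` on the finite edge set `Λ` and to `ξ` off `Λ`. -/
noncomputable def glue {d : ℕ} (Λ : Finset (Ed d)) (ξ : Cf d) (ω : Finset (Ed d)) : Cf d :=
  fun e => if e ∈ Λ then decide (e ∈ ω) else ξ e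

/-- number of connected components of `(ℤ^d, ω)` meeting `W`. -/
noncomputable def kx {d : ℕ} (W : Finset (Vx d)) (ω : Cf d) : ℕ :=
  Set.ncard {C : Set (Vx d) | ∃ v ∈ W, C = (Zl d).cl (opn ω) v}

/-- the FK-Ising weight `2^{k^ξ(ω)} ∏_{e ∈ Λ} (e^{2β}-1)^{ω(e)}`, `ω ⊆ Λ` the open edges. -/
noncomputable def fkw {d : ℕ} (β : ℝ) (W : Finset (Vx d)) (Λ : Finset (Ed d)) (ξ : Cf d)
    (ω : Finset (Ed d)) : ℝ :=
  2 ^ kx W (glue Λ ξ ω) * (Real.exp (2 * β) - 1) ^ ω.card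

/-- the FK-Ising measure `φ^ξ_{G,β}`, `G = (W, Λ)`, of the event `X`. -/
noncomputable def phiG {d : ℕ} (β : ℝ) (W : Finset (Vx d)) (Λ : Finset (Ed d)) (ξ : Cf d)
    (X : Set (Cf d)) : ℝ :=
  (∑ ω ∈ Λ.powerset, fkw β W Λ ξ ω * ind (glue Λ ξ ω ∈ X)) / ∑ ω ∈ Λ.powerset, fkw β W Λ ξ ω

/-- free (`b = false`) and wired (`b = true`) measures in `Λ_n`. -/
noncomputable def phiB {d : ℕ} (β : ℝ) (n : ℕ) (b : Bool) (X : Set (Cf d)) : ℝ :=
  phiG β (bx d n) (bE d n) (fun _ => b) X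

/-- cylinder events. -/
def Lcl {d : ℕ} (X : Set (Cf d)) : Prop :=
  ∃ F : Finset (Ed d), ∀ ω ω' : Cf d, (∀ e ∈ F, ω e = ω' e) → (ω ∈ X ↔ ω' ∈ X)

/-- increasing events. -/
def Inc {d : ℕ} (X : Set (Cf d)) : Prop :=
  ∀ ω ω' : Cf d, (∀ e, ω e = true → ω' e = true) → ω ∈ X → ω' ∈ X

/-- `{x ↔ y}`. -/
def cn {d : ℕ} (x y : Vx d) : Set (Cf d) := {ω | (Zl d).Conn (opn ω) x y}

/-- `{x ↔ y in Λ_n}`. -/
def cnB {d : ℕ} (n : ℕ) (x y : Vx d) : Set (Cf d) := {ω | (Zl d).Conn (opn ω ∩ bE d n) x y}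

/-- `{u ↔ ∂Λ_n}`. -/
def arm {d : ℕ} (n : ℕ) (u : Vx d) : Set (Cf d) := {ω | ∃ y ∈ bdry d n, (Zl d).Conn (opn ω) u y}

/-- `{0 ↔ ∞}`. -/
def perc (d : ℕ) : Set (Cf d) := {ω | ((Zl d).cl (opn ω) 0).Infinite}

/-- all edges of `S` are open. -/
def up {d : ℕ} (S : Finset (Ed d)) : Set (Cf d) := {ω | ∀ e ∈ S, ω e = true}

/-- all edges of `S` are closed. -/
def dw {d : ℕ} (S : Finset (Ed d)) : Set (Cf d) := {ω | ∀ e ∈ S, ω e = false}

/-- `μ` is the weak limit of the measures in `Λ_n` with free (`b = false`) / wired (`b = true`) boundary condition. -/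
def IsLim {d : ℕ} (β : ℝ) (b : Bool) (μ : Measure (Cf d)) : Prop :=
  IsProbabilityMeasure μ ∧
    ∀ X : Set (Cf d), Lcl X → Tendsto (fun n => phiB β n b X) atTop (𝓝 (μ.real X))

/-- restriction of a graph to a finite set of edges. -/
def Gr.rs {V E : Type*} (Γ : Gr V E) (Λ : Finset E) : Gr V ↥Λ where
  s e := Γ.s e
  r e := Γ.r e

/-- sup norm. -/
noncomputable def nm {d : ℕ} (x : Vx d) : ℕ := univ.sup (fun i => (x i).natAbs)

/-- the box `Λ_N` as an abstract finite graph. -/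
noncomputable def GN (d N : ℕ) : Gr (Vx d) ↥(bE d N) := (Zl d).rs (bE d N)

/-- edges of `Λ_N` not in `Λ_m`. -/
noncomputable def E1 (d m N : ℕ) : Finset ↥(bE d N) := univ.filter (fun e => e.1 ∉ bE d m)

/-- edges of the box as edges of the lattice. -/
noncomputable def vl {E : Type*} {Λ : Finset E} (ω : Finset ↥Λ) : Finset E :=
  ω.map ⟨Subtype.val, Subtype.val_injective⟩

/-- the configuration of `ℤ^d` equal to `ω` in `Λ_m` and to `b` outside `Λ_m`; `ω` a configuration in `Λ_N`. -/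
noncomputable def ext {d : ℕ} (b : Bool) (m N : ℕ) (ω : Finset ↥(bE d N)) : Cf d :=
  glue (bE d m) (fun _ => b) (vl ω)

/-- `F` as a set of edges of `Λ_N`. -/
noncomputable def toN (d N : ℕ) (F : Finset (Ed d)) : Finset ↥(bE d N) :=
  univ.filter (fun e => e.1 ∈ F)

end H82.IC
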