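import Pool.Agent.H82.IC.KA
import Pool.Agent.H82.IC.LDefs

/-!
# KC: counting clusters

`kG Γ W ω` = number of distinct clusters of `ω` (any set of edges of any graph) meeting the finite set `W`.
* `kG_insert`: for an edge `e` with both ends in `W`: if `s e ↔ r e` in `ω`, the connectivity relations of `insert e ω` and `ω` agree (`conn_insert`), so nothing changes and
  `2 - ind = 1`.  Otherwise the clusters `C_s ≠ C_r` of the two ends (both meet `W`) are merged (`conn_insert`: the cluster of `x` in `insert e ω` is the cluster of `x` in `ω` if it contains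
  neither end, and `C_s ∪ C_r` otherwise) so the number drops by one, and `2 - ind = 2`:
  the set of clusters for `insert e ω` is `(clusters of ω minus {C_s, C_r}) ∪ {C_s ∪ C_r}`, all these sets are finite (images of `W`).
* `kG_bridge`: `Λ ⊆ Λ'` finite, `η ⊆ Λ' \ Λ`, `ξ` any set of edges such that for all `ω ⊆ Λ`, `e ∈ Λ`:
  `s e ↔ r e` in `ω ∪ ξ` iff in `ω ∪ η`.  Then `2^{kG W (ω ∪ ξ)} 2^{|ω|} / kap (ω ∪ η)` does not depend on `ω ⊆ Λ`: induction on `ω` (insert `e ∉ ω`): by `kG_insert` the numerator is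
  multiplied by `2 / (2 - ind)`, which is `1 + ind` for `ind ∈ {0,1}`, as the denominator by `kap_insert` (in the graph `Γ.rs Λ'` whose connectivity is that of `Γ`, `conn_rs`); if `e ∈ ξ`
  is excluded as `ξ` is disjoint from `Λ`.  `c` = the value at `ω = ∅`.
* `conn_rs`: connectivity in `Γ.rs Λ'` of a configuration `ω'` is connectivity in `Γ` of `vl ω'` (induction on the paths).
-/

set_option autoImplicit false

open Finset

namespace H82.IC

variable {V E : Type*}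

noncomputable def kG (Γ : Gr V E) (W : Finset V) (ω : Set E) : ℕ :=
  Set.ncard {C : Set V | ∃ v ∈ W, C = Γ.cl ω v}

theorem KC_cl_eq (Γ : Gr V E) (ω : Set E) {x y : V} (h : Γ.Conn ω x y) :
    Γ.cl ω x = Γ.cl ω y := by
  ext z
  exact ⟨fun hz => conn_trans Γ (conn_symm Γ h) hz, fun hz => conn_trans Γ h hz⟩

theorem KC_of_cl (Γ : Gr V E) (ω : Set E) {x y : V} (h : Γ.cl ω x = Γ.cl ω y) :
    Γ.Conn ω x y := by
  have h1 : y ∈ Γ.cl ω x := by
    rw [h]
    exact mem_cl_self Γ ω y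
  exact h1

theorem KC_fin (Γ : Gr V E) (W : Finset V) (ω : Set E) :
    {C : Set V | ∃ v ∈ W, C = Γ.cl ω v}.Finite := by
  refine (W.finite_toSet.image (fun v => Γ.cl ω v)).subset ?_
  rintro C ⟨v, hv, rfl⟩
  exact ⟨v, hv, rfl⟩

theorem kG_insert (Γ : Gr V E) (W : Finset V) (ω : Set E) (e : E) (hs : Γ.s e ∈ W)
    (hr : Γ.r e ∈ W) :
    (2 : ℝ) ^ kG Γ W ω = 2 ^ kG Γ W (insert e ω) * (2 - ind (Γ.Conn ω (Γ.s e) (Γ.r e))) := by
  by_cases hc : Γ.Conn ω (Γ.s e) (Γ.r e)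
  · have h1 : ∀ x, Γ.cl (insert e ω) x = Γ.cl ω x := by
      intro x
      ext y
      show Γ.Conn (insert e ω) x y ↔ Γ.Conn ω x y
      rw [conn_insert]
      constructor
      · rintro (h | ⟨h1, h2⟩ | ⟨h1, h2⟩)
        · exact h
        · exact conn_trans Γ h1 (conn_trans Γ hc h2)
        · exact conn_trans Γ h1 (conn_trans Γ (conn_symm Γ hc) h2)
      · exact Or.inl
    have h2 : kG Γ W (insert e ω) = kG Γ W ω := by
      unfold kG
      simp only [h1]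
    rw [h2, ind_true hc]
    ring
  · have hcl : ∀ x, (Γ.Conn ω x (Γ.s e) ∨ Γ.Conn ω x (Γ.r e) →
        Γ.cl (insert e ω) x = Γ.cl ω (Γ.s e) ∪ Γ.cl ω (Γ.r e)) ∧
        (¬ (Γ.Conn ω x (Γ.s e) ∨ Γ.Conn ω x (Γ.r e)) → Γ.cl (insert e ω) x = Γ.cl ω x) := by
      intro x
      constructor
      · intro hx
        ext y
        show Γ.Conn (insert e ω) x y ↔ Γ.Conn ω (Γ.s e) y ∨ Γ.Conn ω (Γ.r e) y
        rw [conn_insert]
        rcases hx with hx | hx
        · constructor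
          · rintro (h | ⟨h1, h2⟩ | ⟨h1, h2⟩)
            · exact Or.inl (conn_trans Γ (conn_symm Γ hx) h)
            · exact Or.inr h2
            · exact Or.inl h2
          · rintro (h | h)
            · exact Or.inl (conn_trans Γ hx h)
            · exact Or.inr (Or.inl ⟨hx, h⟩)
        · constructor
          · rintro (h | ⟨h1, h2⟩ | ⟨h1, h2⟩)
            · exact Or.inr (conn_trans Γ (conn_symm Γ hx) h)
            · exact Or.inr h2
            · exact Or.inl h2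
          · rintro (h | h)
            · exact Or.inr (Or.inr ⟨hx, h⟩)
            · exact Or.inl (conn_trans Γ hx h)
      · intro hx
        ext y
        show Γ.Conn (insert e ω) x y ↔ Γ.Conn ω x y
        rw [conn_insert]
        constructor
        · rintro (h | ⟨h1, h2⟩ | ⟨h1, h2⟩)
          · exact h
          · exact absurd (Or.inl h1) hx
          · exact absurd (Or.inr h1) hx
        · exact Or.inl
    obtain ⟨S0, hS0⟩ : ∃ S0 : Set (Set V), S0 = {C : Set V | ∃ v ∈ W, C = Γ.cl ω v} := ⟨_, rfl⟩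
    have hS0f : S0.Finite := by
      rw [hS0]
      exact KC_fin Γ W ω
    have ha0 : Γ.cl ω (Γ.s e) ∈ S0 := by
      rw [hS0]
      exact ⟨_, hs, rfl⟩
    have hb0 : Γ.cl ω (Γ.r e) ∈ S0 := by
      rw [hS0]
      exact ⟨_, hr, rfl⟩
    have hab : Γ.cl ω (Γ.r e) ≠ Γ.cl ω (Γ.s e) := fun h => hc (conn_symm Γ (KC_of_cl Γ ω h))
    have hS1 : {C : Set V | ∃ v ∈ W, C = Γ.cl (insert e ω) v} =
        insert (Γ.cl ω (Γ.s e) ∪ Γ.cl ω (Γ.r e))
          ((S0 \ {Γ.cl ω (Γ.s e)}) \ {Γ.cl ω (Γ.r e)}) := by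
      ext C
      constructor
      · rintro ⟨x, hx, rfl⟩
        by_cases h : Γ.Conn ω x (Γ.s e) ∨ Γ.Conn ω x (Γ.r e)
        · rw [(hcl x).1 h]
          exact Set.mem_insert _ _
        · rw [(hcl x).2 h]
          refine Set.mem_insert_of_mem _ ⟨⟨?_, ?_⟩, ?_⟩
          · rw [hS0]
            exact ⟨x, hx, rfl⟩
          · intro h1
            exact h (Or.inl (KC_of_cl Γ ω h1))
          · intro h1
            exact h (Or.inr (KC_of_cl Γ ω h1))
      · intro h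
        rcases Set.mem_insert_iff.1 h with h | ⟨⟨h1, h2⟩, h3⟩
        · exact ⟨Γ.s e, hs, by rw [h, (hcl _).1 (Or.inl (conn_refl Γ ω _))]⟩
        · rw [hS0] at h1
          obtain ⟨x, hx, rfl⟩ := h1
          refine ⟨x, hx, ?_⟩
          rw [(hcl x).2]
          rintro (h4 | h4)
          · exact h2 (KC_cl_eq Γ ω h4)
          · exact h3 (KC_cl_eq Γ ω h4)
    have hnot : Γ.cl ω (Γ.s e) ∪ Γ.cl ω (Γ.r e) ∉
        (S0 \ {Γ.cl ω (Γ.s e)}) \ {Γ.cl ω (Γ.r e)} := by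
      rintro ⟨⟨h1, _⟩, _⟩
      rw [hS0] at h1
      obtain ⟨x, _, hx⟩ := h1
      have h2 : Γ.s e ∈ Γ.cl ω x := by
        rw [← hx]
        exact Or.inl (mem_cl_self Γ ω _)
      have h3 : Γ.r e ∈ Γ.cl ω x := by
        rw [← hx]
        exact Or.inr (mem_cl_self Γ ω _)
      exact hc (conn_trans Γ (conn_symm Γ h2) h3)
    have hk : kG Γ W ω = kG Γ W (insert e ω) + 1 := by
      unfold kG
      rw [hS1, ← hS0, Set.ncard_insert_of_notMem hnot ((hS0f.sdiff).sdiff),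
        Set.ncard_sdiff_singleton_add_one (show Γ.cl ω (Γ.r e) ∈ S0 \ {Γ.cl ω (Γ.s e)} from
          ⟨hb0, hab⟩) (hS0f.sdiff),
        Set.ncard_sdiff_singleton_add_one ha0 hS0f]
    rw [hk, ind_false hc, pow_succ]
    ring

theorem conn_rs (Γ : Gr V E) (Λ' : Finset E) (ω : Finset ↥Λ') (x y : V) :
    (Γ.rs Λ').Conn (ω : Set ↥Λ') x y ↔ Γ.Conn (vl ω : Set E) x y := by
  have h1 : (Γ.rs Λ').Adj (ω : Set ↥Λ') = Γ.Adj (vl ω : Set E) := by
    funext a b
    apply propext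
    constructor
    · rintro ⟨e, he, h⟩
      refine ⟨e.1, ?_, h⟩
      rw [Finset.mem_coe, vl, Finset.mem_map]
      exact ⟨e, he, rfl⟩
    · rintro ⟨e, he, h⟩
      rw [Finset.mem_coe, vl, Finset.mem_map] at he
      obtain ⟨e', he', rfl⟩ := he
      exact ⟨e', he', h⟩
  unfold Gr.Conn
  rw [h1]

/-- a finite set of edges as a set of edges of the restricted graph. -/
noncomputable def sb {E : Type*} (Λ' F : Finset E) : Finset ↥Λ' :=
  open Classical in univ.filter (fun e => e.1 ∈ F)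

theorem KC_mem_sb {E : Type*} (Λ' F : Finset E) (e : ↥Λ') : e ∈ sb Λ' F ↔ e.1 ∈ F := by
  classical
  unfold sb
  rw [Finset.mem_filter]
  exact ⟨fun h => h.2, fun h => ⟨Finset.mem_univ _, h⟩⟩

theorem vl_sb [DecidableEq E] (Λ' F : Finset E) : vl (sb Λ' F) = F ∩ Λ' := by
  ext e
  rw [vl, Finset.mem_map, Finset.mem_inter]
  constructor
  · rintro ⟨e', he', rfl⟩
    exact ⟨(KC_mem_sb Λ' F e').1 he', e'.2⟩
  · rintro ⟨h1, h2⟩
    exact ⟨⟨e, h2⟩, (KC_mem_sb Λ' F ⟨e, h2⟩).2 h1, rfl⟩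

theorem kG_bridge [DecidableEq E] (Γ : Gr V E) (Λ Λ' : Finset E) (hΛ : Λ ⊆ Λ') (W : Finset V)
    (hW : ∀ e ∈ Λ, Γ.s e ∈ W ∧ Γ.r e ∈ W) (ξ : Set E) (hξ : ∀ e ∈ ξ, e ∉ Λ) (η : Finset E)
    (hη : η ⊆ Λ' \ Λ)
    (hc : ∀ ω : Finset E, ω ⊆ Λ → ∀ e ∈ Λ,
      (Γ.Conn ((ω : Set E) ∪ ξ) (Γ.s e) (Γ.r e) ↔ Γ.Conn ((ω : Set E) ∪ η) (Γ.s e) (Γ.r e))) :
    ∃ c : ℝ, 0 < c ∧ ∀ ω : Finset E, ω ⊆ Λ →
      (2 : ℝ) ^ kG Γ W ((ω : Set E) ∪ ξ) * 2 ^ ω.card = c * (Γ.rs Λ').kap (sb Λ' (ω ∪ η)) := by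
  have hkpos : ∀ F : Finset ↥Λ', 0 < (Γ.rs Λ').kap F := fun F =>
    lt_of_lt_of_le one_pos (one_le_kap (Γ.rs Λ') F)
  refine ⟨2 ^ kG Γ W (((∅ : Finset E) : Set E) ∪ ξ) / (Γ.rs Λ').kap (sb Λ' (∅ ∪ η)),
    div_pos (by positivity) (hkpos _), fun ω => ?_⟩
  obtain ⟨c, hcdef⟩ : ∃ c : ℝ, c = 2 ^ kG Γ W (((∅ : Finset E) : Set E) ∪ ξ) /
    (Γ.rs Λ').kap (sb Λ' (∅ ∪ η)) := ⟨_, rfl⟩
  rw [← hcdef]
  induction ω using Finset.induction_on with
  | empty =>
    intro _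
    rw [hcdef, Finset.card_empty, pow_zero, mul_one, div_mul_cancel₀ _ (hkpos _).ne']
  | insert e ω he ih =>
    intro hsub
    have heΛ : e ∈ Λ := hsub (Finset.mem_insert_self _ _)
    have hωΛ : ω ⊆ Λ := fun x hx => hsub (Finset.mem_insert_of_mem hx)
    have ih' := ih hωΛ
    have e1 : (((insert e ω : Finset E) : Set E) ∪ ξ) = insert e ((ω : Set E) ∪ ξ) := by
      rw [Finset.coe_insert, Set.insert_union]
    have hk := kG_insert Γ W ((ω : Set E) ∪ ξ) e (hW e heΛ).1 (hW e heΛ).2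
    have e2 : sb Λ' (insert e ω ∪ η) = insert (⟨e, hΛ heΛ⟩ : ↥Λ') (sb Λ' (ω ∪ η)) := by
      ext x
      rw [Finset.mem_insert, KC_mem_sb, KC_mem_sb, Finset.insert_union, Finset.mem_insert]
      constructor
      · rintro (h | h)
        · exact Or.inl (Subtype.ext h)
        · exact Or.inr h
      · rintro (h | h)
        · exact Or.inl (congrArg Subtype.val h)
        · exact Or.inr h
    have hnot : (⟨e, hΛ heΛ⟩ : ↥Λ') ∉ sb Λ' (ω ∪ η) := by
      rw [KC_mem_sb]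
      intro h
      rcases Finset.mem_union.1 h with h | h
      · exact he h
      · exact (Finset.mem_sdiff.1 (hη h)).2 heΛ
    have hkap := kap_insert (Γ.rs Λ') hnot
    have hsub' : ω ∪ η ⊆ Λ' := by
      intro x hx
      rcases Finset.mem_union.1 hx with h | h
      · exact hΛ (hωΛ h)
      · exact (Finset.mem_sdiff.1 (hη h)).1
    have e3 : (Γ.rs Λ').Conn ((sb Λ' (ω ∪ η) : Finset ↥Λ') : Set ↥Λ')
        ((Γ.rs Λ').s ⟨e, hΛ heΛ⟩) ((Γ.rs Λ').r ⟨e, hΛ heΛ⟩) ↔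
        Γ.Conn ((ω : Set E) ∪ ξ) (Γ.s e) (Γ.r e) := by
      rw [conn_rs, vl_sb, Finset.inter_eq_left.2 hsub', hc ω hωΛ e heΛ, Finset.coe_union]
      exact Iff.rfl
    have e4 := KA_congr e3
    rw [e4] at hkap
    rw [e1, e2, hkap, Finset.card_insert_of_notMem he, pow_succ]
    obtain ⟨i, hi⟩ : ∃ i : ℝ, i = ind (Γ.Conn ((ω : Set E) ∪ ξ) (Γ.s e) (Γ.r e)) := ⟨_, rfl⟩
    have hii : i * i = i := by rw [hi]; exact ind_mul_self _
    rw [← hi] at hk ⊢
    have h2 : (2 - i) * (1 + i) = 2 := by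
      have : (2 - i) * (1 + i) = 2 + i - i * i := by ring
      rw [this, hii]
      ring
    calc (2 : ℝ) ^ kG Γ W (insert e ((ω : Set E) ∪ ξ)) * (2 ^ ω.card * 2)
        = 2 ^ kG Γ W (insert e ((ω : Set E) ∪ ξ)) * 2 ^ ω.card * ((2 - i) * (1 + i)) := by
          rw [h2]
          ring
      _ = (2 ^ kG Γ W (insert e ((ω : Set E) ∪ ξ)) * (2 - i)) * 2 ^ ω.card * (1 + i) := by ring
      _ = c * ((Γ.rs Λ').kap (sb Λ' (ω ∪ η)) * (1 + i)) := by
          rw [← hk, ih']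
          ring

end H82.IC
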