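import Pool.Agent.H82.IC.Defs

/-!
# CN: connectivity basics

`Γ.Conn ω x y` is the reflexive transitive closure of the symmetric relation `Γ.Adj ω` (all for `ω : Set E`).
All proofs: induction on `Relation.ReflTransGen` (or `Relation.ReflTransGen.mono`, `.symmetric`).

* `conn_symm`: `Γ.Adj ω` is symmetric.
* `conn_insert` (→): induction on the path from `x`; the case of the last step using the new edge `e`:
  combine.  (←): mono + the step through `e` (in either direction) + transitivity.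
* `cl_end`: an open edge connects its two ends.
* `cl_agree`: if `ω` and `ω'` agree on all edges touching `C = cl ω o` then `cl ω' o = C`:  (⊆) by induction a path of
  `ω'` from `o` stays in `C` (the edge used touches `C`, so it is in `ω`, so its other end is in `C`);
  (⊇) by induction a path of `ω` from `o` only uses edges touching `C`.
* `conn_off`: if every edge of `ω` has both or no end in `C` and `u ∉ C`, then the vertices reached from `u` are not in `C` and the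
  edges used do not touch `C`.
* `conn_split`: walk along the path from `u` to `v` until the first edge that lies in `K`; if there is none then `u`, `v` are
  connected in `ω \ K`.  (Induction on the path with the statement: `Conn (ω \ K) u x ∨ ∃ e ∈ ω ∩ K, ...`.)
* `conn_exit`: walk along the path from `u ∈ D` to `v ∉ D` until the first vertex outside `D`: all edges before have both ends in `D`.
-/

set_option autoImplicit false

namespace H82.IC

variable {V E : Type*}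

theorem CN_adj_symm (Γ : Gr V E) {ω : Set E} {x y : V} (h : Γ.Adj ω x y) : Γ.Adj ω y x := by
  obtain ⟨e, he, h1 | h1⟩ := h
  · exact ⟨e, he, Or.inr h1⟩
  · exact ⟨e, he, Or.inl h1⟩

theorem conn_refl (Γ : Gr V E) (ω : Set E) (x : V) : Γ.Conn ω x x :=
  Relation.ReflTransGen.refl

theorem conn_symm (Γ : Gr V E) {ω : Set E} {x y : V} (h : Γ.Conn ω x y) : Γ.Conn ω y x := by
  induction h with
  | refl => exact Relation.ReflTransGen.refl
  | tail _ h2 ih => exact Relation.ReflTransGen.head (CN_adj_symm Γ h2) ih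

theorem conn_comm (Γ : Gr V E) (ω : Set E) (x y : V) : Γ.Conn ω x y ↔ Γ.Conn ω y x :=
  ⟨conn_symm Γ, conn_symm Γ⟩

theorem conn_trans (Γ : Gr V E) {ω : Set E} {x y z : V} (h : Γ.Conn ω x y) (h' : Γ.Conn ω y z) :
    Γ.Conn ω x z :=
  Relation.ReflTransGen.trans h h'

theorem conn_mono (Γ : Gr V E) {ω ω' : Set E} (hω : ω ⊆ ω') {x y : V} (h : Γ.Conn ω x y) :
    Γ.Conn ω' x y := by
  induction h with
  | refl => exact Relation.ReflTransGen.refl
  | tail _ h2 ih =>
    obtain ⟨e, he, h1⟩ := h2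
    exact Relation.ReflTransGen.tail ih ⟨e, hω he, h1⟩

theorem conn_edge (Γ : Gr V E) {ω : Set E} {e : E} (he : e ∈ ω) : Γ.Conn ω (Γ.s e) (Γ.r e) :=
  Relation.ReflTransGen.single ⟨e, he, Or.inl ⟨rfl, rfl⟩⟩

theorem conn_insert (Γ : Gr V E) (ω : Set E) (e : E) (x y : V) :
    Γ.Conn (insert e ω) x y ↔ Γ.Conn ω x y ∨ (Γ.Conn ω x (Γ.s e) ∧ Γ.Conn ω (Γ.r e) y) ∨
      (Γ.Conn ω x (Γ.r e) ∧ Γ.Conn ω (Γ.s e) y) := by
  constructor
  · intro h
    induction h with
    | refl => exact Or.inl Relation.ReflTransGen.refl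
    | @tail b c _ h2 ih =>
      obtain ⟨e', he', h1⟩ := h2
      rcases Set.mem_insert_iff.mp he' with rfl | he'
      · rcases h1 with ⟨rfl, rfl⟩ | ⟨rfl, rfl⟩
        · rcases ih with ih | ⟨ih1, ih2⟩ | ⟨ih1, ih2⟩
          · exact Or.inr (Or.inl ⟨ih, conn_refl Γ ω _⟩)
          · exact Or.inr (Or.inl ⟨ih1, conn_refl Γ ω _⟩)
          · exact Or.inl ih1
        · rcases ih with ih | ⟨ih1, ih2⟩ | ⟨ih1, ih2⟩
          · exact Or.inr (Or.inr ⟨ih, conn_refl Γ ω _⟩)
          · exact Or.inl ih1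
          · exact Or.inr (Or.inr ⟨ih1, conn_refl Γ ω _⟩)
      · have hs : Γ.Adj ω b c := ⟨e', he', h1⟩
        rcases ih with ih | ⟨ih1, ih2⟩ | ⟨ih1, ih2⟩
        · exact Or.inl (ih.tail hs)
        · exact Or.inr (Or.inl ⟨ih1, ih2.tail hs⟩)
        · exact Or.inr (Or.inr ⟨ih1, ih2.tail hs⟩)
  · have hsub : ω ⊆ insert e ω := Set.subset_insert e ω
    have hedge : Γ.Conn (insert e ω) (Γ.s e) (Γ.r e) := conn_edge Γ (Set.mem_insert e ω)
    rintro (h | ⟨h1, h2⟩ | ⟨h1, h2⟩)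
    · exact conn_mono Γ hsub h
    · exact conn_trans Γ (conn_mono Γ hsub h1) (conn_trans Γ hedge (conn_mono Γ hsub h2))
    · exact conn_trans Γ (conn_mono Γ hsub h1)
        (conn_trans Γ (conn_symm Γ hedge) (conn_mono Γ hsub h2))

theorem mem_cl_self (Γ : Gr V E) (ω : Set E) (o : V) : o ∈ Γ.cl ω o :=
  conn_refl Γ ω o

theorem cl_end (Γ : Gr V E) {ω : Set E} {e : E} (he : e ∈ ω) (o : V) :
    Γ.s e ∈ Γ.cl ω o ↔ Γ.r e ∈ Γ.cl ω o :=
  ⟨fun h => conn_trans Γ h (conn_edge Γ he), fun h => conn_trans Γ h (conn_symm Γ (conn_edge Γ he))⟩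

theorem cl_agree (Γ : Gr V E) {ω ω' : Set E} {o : V}
    (h : ∀ e ∈ Γ.tch (Γ.cl ω o), (e ∈ ω ↔ e ∈ ω')) : Γ.cl ω' o = Γ.cl ω o := by
  apply Set.Subset.antisymm
  · intro v hv
    have hv' : Γ.Conn ω' o v := hv
    induction hv' with
    | refl => exact mem_cl_self Γ ω o
    | @tail b c hb h2 ih =>
      have ihb : Γ.Conn ω o b := ih hb
      obtain ⟨e, he, h1⟩ := h2
      have hbe : e ∈ Γ.tch (Γ.cl ω o) := by
        rcases h1 with ⟨rfl, rfl⟩ | ⟨rfl, rfl⟩
        · exact Or.inl ihb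
        · exact Or.inr ihb
      have heω : e ∈ ω := (h e hbe).mpr he
      exact Relation.ReflTransGen.tail ihb ⟨e, heω, h1⟩
  · intro v hv
    have hv' : Γ.Conn ω o v := hv
    induction hv' with
    | refl => exact mem_cl_self Γ ω' o
    | @tail b c hb h2 ih =>
      have ihb : Γ.Conn ω' o b := ih hb
      obtain ⟨e, he, h1⟩ := h2
      have hbe : e ∈ Γ.tch (Γ.cl ω o) := by
        rcases h1 with ⟨rfl, rfl⟩ | ⟨rfl, rfl⟩
        · exact Or.inl hb
        · exact Or.inr hb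
      have heω : e ∈ ω' := (h e hbe).mp he
      exact Relation.ReflTransGen.tail ihb ⟨e, heω, h1⟩

theorem conn_off (Γ : Gr V E) {ω : Set E} {C : Set V} (hC : ∀ e ∈ ω, (Γ.s e ∈ C ↔ Γ.r e ∈ C))
    {u : V} (hu : u ∉ C) (v : V) :
    Γ.Conn ω u v ↔ Γ.Conn (ω \ Γ.tch C) u v := by
  constructor
  · intro h
    have key : Γ.Conn (ω \ Γ.tch C) u v ∧ v ∉ C := by
      induction h with
      | refl => exact ⟨conn_refl Γ _ _, hu⟩
      | @tail b c _ h2 ih =>
        obtain ⟨ih1, ih2⟩ := ih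
        obtain ⟨e, he, h1⟩ := h2
        have hee := hC e he
        rcases h1 with ⟨rfl, rfl⟩ | ⟨rfl, rfl⟩
        · have hr : Γ.r e ∉ C := fun h => ih2 (hee.mpr h)
          have ht : e ∉ Γ.tch C := by
            rintro (h | h)
            · exact ih2 h
            · exact hr h
          exact ⟨ih1.tail ⟨e, ⟨he, ht⟩, Or.inl ⟨rfl, rfl⟩⟩, hr⟩
        · have hr : Γ.s e ∉ C := fun h => ih2 (hee.mp h)
          have ht : e ∉ Γ.tch C := by
            rintro (h | h)
            · exact hr h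
            · exact ih2 h
          exact ⟨ih1.tail ⟨e, ⟨he, ht⟩, Or.inr ⟨rfl, rfl⟩⟩, hr⟩
    exact key.1
  · exact conn_mono Γ Set.sdiff_subset

theorem conn_off_notMem (Γ : Gr V E) {ω : Set E} {C : Set V} (hC : ∀ e ∈ ω, (Γ.s e ∈ C ↔ Γ.r e ∈ C))
    {u v : V} (h : Γ.Conn ω u v) : u ∈ C ↔ v ∈ C := by
  induction h with
  | refl => exact Iff.rfl
  | tail _ h2 ih =>
    obtain ⟨e, he, h1⟩ := h2
    rcases h1 with ⟨rfl, rfl⟩ | ⟨rfl, rfl⟩
    · exact ih.trans (hC e he)
    · exact ih.trans (hC e he).symm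

theorem conn_split (Γ : Gr V E) {ω K : Set E} {u v : V} (h : Γ.Conn ω u v)
    (h' : ¬ Γ.Conn (ω \ K) u v) :
    ∃ e ∈ ω ∩ K, Γ.Conn (ω \ K) u (Γ.s e) ∨ Γ.Conn (ω \ K) u (Γ.r e) := by
  by_contra hcon
  push Not at hcon
  apply h'
  clear h'
  induction h with
  | refl => exact conn_refl Γ _ _
  | @tail b c _ h2 ih =>
    obtain ⟨e, he, h1⟩ := h2
    by_cases hK : e ∈ K
    · exfalso
      obtain ⟨n1, n2⟩ := hcon e ⟨he, hK⟩
      rcases h1 with ⟨rfl, rfl⟩ | ⟨rfl, rfl⟩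
      · exact n1 ih
      · exact n2 ih
    · exact ih.tail ⟨e, ⟨he, hK⟩, h1⟩

theorem conn_exit (Γ : Gr V E) {ω : Set E} {D : Set V} {u v : V} (h : Γ.Conn ω u v)
    (hu : u ∈ D) (hv : v ∉ D) :
    ∃ x ∈ D, ∃ y, y ∉ D ∧ Γ.Adj ω x y ∧ Γ.Conn (ω ∩ Γ.ins D) u x := by
  by_contra hcon
  push Not at hcon
  have key : Γ.Conn (ω ∩ Γ.ins D) u v ∧ v ∈ D := by
    clear hv
    induction h with
    | refl => exact ⟨conn_refl Γ _ _, hu⟩
    | @tail b c _ h2 ih =>
      obtain ⟨ih1, ih2⟩ := ih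
      by_cases hc : c ∈ D
      · obtain ⟨e, he, h1⟩ := h2
        refine ⟨ih1.tail ⟨e, ⟨he, ?_⟩, h1⟩, hc⟩
        rcases h1 with ⟨rfl, rfl⟩ | ⟨rfl, rfl⟩
        · exact ⟨ih2, hc⟩
        · exact ⟨hc, ih2⟩
      · exact absurd ih1 (hcon b ih2 c hc h2)
  exact hv key.2

end H82.IC
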