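import Pool.Agent.H82.IC.LDefs
import Pool.Agent.H82.IC.CN

/-!
# G1: geometry of the boxes

`nm x = max |x i|` (as a natural number, `0` if `d = 0`), `x ∈ bx d n ↔ nm x ≤ n`.
* `mem_bdry`: (`1 ≤ d`): if `nm x = n` then some `|x i| = n` and `x ± e_i` is outside; conversely a neighbour `y` of `x` has `nm y ≤ nm x + 1`, so `nm x ≥ n`.
* `exit_box`: a path from `u ∈ Λ_n` to `y` with `nm y ≥ n`: take the first vertex `b` with `nm b = n` (if `nm u = n` it is `u`); all the edges before have both ends of norm `≤ n`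
  (norms change by at most one at each step).  (If `nm y > n` use `conn_exit` with `D = bx n`: the exit vertex `x` has a neighbour outside, so `nm x = n`; if all vertices stay in
  the box, the path itself is in `bE n` and `nm y = n`.  Or direct induction on the path: for every vertex `x` of it, either `(∃ b ∈ bdry, Conn (ω ∩ bE n) u b)` or
  (`nm x < n` and `Conn (ω ∩ bE n) u x`).)
* `box_conn`: change the coordinates one by one: `Conn (bE d n) x (Function.update x i a)` for `|a| ≤ n` (induction on the distance), then induction over the finset of coordinates.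
* `exists_bE`: `F ⊆ bE n` for `n` large (`n = sup of nm of the ends`).
-/

set_option autoImplicit false

open Finset

namespace H82.IC

variable {d : ℕ}

theorem G1_nm_le {n : ℕ} {x : Vx d} : nm x ≤ n ↔ ∀ i, (x i).natAbs ≤ n := by
  unfold nm
  rw [Finset.sup_le_iff]
  exact ⟨fun h i => h i (mem_univ i), fun h i _ => h i⟩

theorem G1_le_nm (x : Vx d) (i : Fin d) : (x i).natAbs ≤ nm x := G1_nm_le.1 le_rfl i

theorem mem_bx {n : ℕ} {x : Vx d} : x ∈ bx d n ↔ nm x ≤ n := by
  unfold bx
  rw [Fintype.mem_piFinset, G1_nm_le]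
  refine forall_congr' fun i => ?_
  rw [Finset.mem_Icc]
  omega

theorem mem_bx_abs {n : ℕ} {x : Vx d} : x ∈ bx d n ↔ ∀ i, |x i| ≤ (n : ℤ) := by
  rw [mem_bx, G1_nm_le]
  refine forall_congr' fun i => ?_
  rw [Int.abs_eq_natAbs, Nat.cast_le]

theorem mem_bE {n : ℕ} {e : Ed d} :
    e ∈ bE d n ↔ nm ((Zl d).s e) ≤ n ∧ nm ((Zl d).r e) ≤ n := by
  unfold bE
  rw [Finset.mem_filter, Finset.mem_product, mem_bx, mem_bx]
  exact ⟨fun h => ⟨h.1.1, h.2⟩, fun h => ⟨⟨h.1, mem_univ _⟩, h.2⟩⟩

theorem bE_mono {n m : ℕ} (h : n ≤ m) : bE d n ⊆ bE d m := by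
  intro e he
  rw [mem_bE] at he ⊢
  exact ⟨he.1.trans h, he.2.trans h⟩

theorem bx_mono {n m : ℕ} (h : n ≤ m) : bx d n ⊆ bx d m := by
  intro x hx
  rw [mem_bx] at hx ⊢
  exact hx.trans h

theorem card_bx (n : ℕ) : (bx d n).card = (2 * n + 1) ^ d := by
  unfold bx
  rw [Fintype.card_piFinset]
  simp only [Int.card_Icc, Finset.prod_const, Finset.card_univ, Fintype.card_fin]
  congr 1
  omega

theorem exists_bE (F : Finset (Ed d)) : ∃ n, F ⊆ bE d n := by
  refine ⟨F.sup (fun e => max (nm ((Zl d).s e)) (nm ((Zl d).r e))), fun e he => ?_⟩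
  have h1 : max (nm ((Zl d).s e)) (nm ((Zl d).r e)) ≤
      F.sup (fun e => max (nm ((Zl d).s e)) (nm ((Zl d).r e))) :=
    Finset.le_sup (f := fun e => max (nm ((Zl d).s e)) (nm ((Zl d).r e))) he
  rw [mem_bE]
  exact ⟨(le_max_left _ _).trans h1, (le_max_right _ _).trans h1⟩

theorem nm_zero : nm (0 : Vx d) = 0 := by
  have h : nm (0 : Vx d) ≤ 0 := G1_nm_le.2 fun i => by simp
  omega

theorem nm_eq_zero {x : Vx d} : nm x = 0 ↔ x = 0 := by
  constructor
  · intro h
    funext i
    have h1 := G1_le_nm x i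
    rw [h] at h1
    exact Int.natAbs_eq_zero.1 (Nat.le_zero.1 h1)
  · intro h
    rw [h, nm_zero]

theorem nm_neg (x : Vx d) : nm (-x) = nm x := by
  unfold nm
  simp only [Pi.neg_apply, Int.natAbs_neg]

theorem nm_add (x y : Vx d) : nm (x + y) ≤ nm x + nm y := by
  rw [G1_nm_le]
  intro i
  rw [Pi.add_apply]
  exact (Int.natAbs_add_le _ _).trans (add_le_add (G1_le_nm x i) (G1_le_nm y i))

theorem nm_sub (x y : Vx d) : nm (x - y) ≤ nm x + nm y := by
  rw [sub_eq_add_neg, ← nm_neg y]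
  exact nm_add x (-y)

theorem G1_single (i : Fin d) : nm (Pi.single i 1 : Vx d) ≤ 1 := by
  rw [G1_nm_le]
  intro j
  by_cases h : j = i
  · rw [h, Pi.single_eq_same]; simp
  · rw [Pi.single_eq_of_ne h]; simp

theorem G1_zadj {x y : Vx d} (h : Zadj x y) : nm y ≤ nm x + 1 := by
  obtain ⟨i, h | h⟩ := h
  · rw [h]
    exact (nm_add _ _).trans (Nat.add_le_add_left (G1_single i) _)
  · have h1 : y = x - Pi.single i 1 := by rw [h, add_sub_cancel_right]
    rw [h1]
    exact (nm_sub _ _).trans (Nat.add_le_add_left (G1_single i) _)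

theorem G1_adj {x y : Vx d} {ω : Set (Ed d)} (h : (Zl d).Adj ω x y) : Zadj x y := by
  obtain ⟨e, _, h | h⟩ := h
  · exact ⟨e.2, Or.inl (by rw [← h.1, ← h.2]; rfl)⟩
  · exact ⟨e.2, Or.inr (by rw [← h.1, ← h.2]; rfl)⟩

theorem nm_step {x y : Vx d} {ω : Set (Ed d)} (h : (Zl d).Adj ω x y) : nm y ≤ nm x + 1 :=
  G1_zadj (G1_adj h)

theorem mem_bdry (hd : 1 ≤ d) {n : ℕ} {x : Vx d} : x ∈ bdry d n ↔ nm x = n := by
  classical
  unfold bdry
  rw [Finset.mem_filter]
  constructor
  · rintro ⟨h1, y, h2, h3⟩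
    rw [mem_bx] at h1 h2
    have := G1_zadj h3
    omega
  · intro h
    refine ⟨mem_bx.2 h.le, ?_⟩
    have hne : (univ : Finset (Fin d)).Nonempty := ⟨⟨0, hd⟩, mem_univ _⟩
    obtain ⟨i, _, hi⟩ := Finset.exists_mem_eq_sup univ hne (fun i => (x i).natAbs)
    have hi' : (x i).natAbs = n := by
      rw [← h]
      exact hi.symm
    rcases le_or_gt 0 (x i) with h0 | h0
    · refine ⟨x + Pi.single i 1, ?_, i, Or.inl rfl⟩
      rw [mem_bx, G1_nm_le]
      intro h4
      have h5 := h4 i
      rw [Pi.add_apply, Pi.single_eq_same] at h5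
      omega
    · refine ⟨x - Pi.single i 1, ?_, i, Or.inr (by rw [sub_add_cancel])⟩
      rw [mem_bx, G1_nm_le]
      intro h4
      have h5 := h4 i
      rw [Pi.sub_apply, Pi.single_eq_same] at h5
      omega

theorem G1_poe (hd : 1 ≤ d) {n : ℕ} {ω : Set (Ed d)} {u y : Vx d} (hu : nm u ≤ n)
    (h : (Zl d).Conn ω u y) :
    ((Zl d).Conn (ω ∩ bE d n) u y ∧ nm y ≤ n) ∨
      ∃ b ∈ bdry d n, (Zl d).Conn (ω ∩ bE d n) u b := by
  induction h with
  | refl => exact Or.inl ⟨conn_refl _ _ _, hu⟩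
  | @tail y z _ hyz ih =>
    rcases ih with ⟨h1, h2⟩ | h1
    · rcases le_or_gt (nm z) n with h3 | h3
      · left
        refine ⟨Relation.ReflTransGen.tail h1 ?_, h3⟩
        obtain ⟨e, he, hor⟩ := hyz
        refine ⟨e, ⟨he, ?_⟩, hor⟩
        rw [Finset.mem_coe, mem_bE]
        rcases hor with h4 | h4
        · rw [h4.1, h4.2]; exact ⟨h2, h3⟩
        · rw [h4.1, h4.2]; exact ⟨h3, h2⟩
      · right
        have h4 := nm_step hyz
        exact ⟨y, (mem_bdry hd).2 (by omega), h1⟩
    · exact Or.inr h1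

theorem exit_box (hd : 1 ≤ d) {n : ℕ} {ω : Set (Ed d)} {u y : Vx d} (hu : nm u ≤ n) (hy : n ≤ nm y)
    (h : (Zl d).Conn ω u y) : ∃ b ∈ bdry d n, (Zl d).Conn (ω ∩ bE d n) u b := by
  rcases G1_poe hd hu h with ⟨h1, h2⟩ | h1
  · exact ⟨y, (mem_bdry hd).2 (le_antisymm h2 hy), h1⟩
  · exact h1

/-- a path inside `Λ_n`, or an exit. -/
theorem path_or_exit (hd : 1 ≤ d) {n : ℕ} {ω : Set (Ed d)} {u y : Vx d} (hu : nm u ≤ n)
    (h : (Zl d).Conn ω u y) :
    (Zl d).Conn (ω ∩ bE d n) u y ∨ ∃ b ∈ bdry d n, (Zl d).Conn (ω ∩ bE d n) u b := by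
  rcases G1_poe hd hu h with ⟨h1, _⟩ | h1
  · exact Or.inl h1
  · exact Or.inr h1

theorem G1_conn_zero {n : ℕ} : ∀ (k : ℕ) (u : Vx d), ∑ i, (u i).natAbs = k → nm u ≤ n →
    (Zl d).Conn (bE d n : Set (Ed d)) u 0 := by
  intro k
  induction k with
  | zero =>
    intro u hu _
    have h1 : u = 0 := by
      funext i
      have h2 := (Finset.sum_eq_zero_iff.1 hu) i (mem_univ i)
      exact Int.natAbs_eq_zero.1 h2
    rw [h1]
    exact conn_refl _ _ _
  | succ k ih =>
    intro u hu hn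
    have h1 : ∃ i, u i ≠ 0 := by
      by_contra hcon
      rw [not_exists] at hcon
      have h2 : ∑ i, (u i).natAbs = 0 := by
        refine Finset.sum_eq_zero fun i _ => ?_
        rw [Int.natAbs_eq_zero]
        exact not_not.1 (hcon i)
      omega
    obtain ⟨i, hi⟩ := h1
    have hs := Finset.add_sum_erase univ (fun j => (u j).natAbs) (mem_univ i)
    rcases lt_or_gt_of_ne hi with h0 | h0
    · -- u i < 0
      have hs' := Finset.add_sum_erase univ (fun j => ((u + Pi.single i 1 : Vx d) j).natAbs) (mem_univ i)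
      have he : ∑ j ∈ univ.erase i, ((u + Pi.single i 1 : Vx d) j).natAbs =
          ∑ j ∈ univ.erase i, (u j).natAbs := by
        refine Finset.sum_congr rfl fun j hj => ?_
        rw [Pi.add_apply, Pi.single_eq_of_ne (Finset.ne_of_mem_erase hj), add_zero]
      have hi1 : ((u + Pi.single i 1 : Vx d) i).natAbs + 1 = (u i).natAbs := by
        rw [Pi.add_apply, Pi.single_eq_same]; omega
      have hn' : nm (u + Pi.single i 1) ≤ n := by
        rw [G1_nm_le]
        intro j
        have h2 := (G1_le_nm u j).trans hn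
        by_cases hj : j = i
        · rw [hj]
          have h3 := (G1_le_nm u i).trans hn
          omega
        · rw [Pi.add_apply, Pi.single_eq_of_ne hj, add_zero]; exact h2
      have h3 := ih (u + Pi.single i 1) (by omega) hn'
      have h4 : ((u, i) : Ed d) ∈ (bE d n : Set (Ed d)) := by
        rw [Finset.mem_coe, mem_bE]
        exact ⟨hn, hn'⟩
      exact conn_trans _ (conn_edge (Zl d) h4) h3
    · have hs' := Finset.add_sum_erase univ (fun j => ((u - Pi.single i 1 : Vx d) j).natAbs) (mem_univ i)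
      have he : ∑ j ∈ univ.erase i, ((u - Pi.single i 1 : Vx d) j).natAbs =
          ∑ j ∈ univ.erase i, (u j).natAbs := by
        refine Finset.sum_congr rfl fun j hj => ?_
        rw [Pi.sub_apply, Pi.single_eq_of_ne (Finset.ne_of_mem_erase hj), sub_zero]
      have hi1 : ((u - Pi.single i 1 : Vx d) i).natAbs + 1 = (u i).natAbs := by
        rw [Pi.sub_apply, Pi.single_eq_same]; omega
      have hn' : nm (u - Pi.single i 1) ≤ n := by
        rw [G1_nm_le]
        intro j
        have h2 := (G1_le_nm u j).trans hn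
        by_cases hj : j = i
        · rw [hj]
          have h3 := (G1_le_nm u i).trans hn
          omega
        · rw [Pi.sub_apply, Pi.single_eq_of_ne hj, sub_zero]; exact h2
      have h3 := ih (u - Pi.single i 1) (by omega) hn'
      have hr : (Zl d).r (u - Pi.single i 1, i) = u := by
        change u - Pi.single i 1 + Pi.single i 1 = u
        rw [sub_add_cancel]
      have h4 : ((u - Pi.single i 1, i) : Ed d) ∈ (bE d n : Set (Ed d)) := by
        rw [Finset.mem_coe, mem_bE]
        exact ⟨hn', by rw [hr]; exact hn⟩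
      have h5 := conn_edge (Zl d) h4
      rw [hr] at h5
      exact conn_trans _ (conn_symm _ h5) h3

theorem box_conn {n : ℕ} {u v : Vx d} (hu : nm u ≤ n) (hv : nm v ≤ n) :
    (Zl d).Conn (bE d n : Set (Ed d)) u v :=
  conn_trans _ (G1_conn_zero _ u rfl hu) (conn_symm _ (G1_conn_zero _ v rfl hv))

/-- every path is contained in some box. -/
theorem conn_in_box {ω : Set (Ed d)} {u v : Vx d} (h : (Zl d).Conn ω u v) :
    ∃ n, (Zl d).Conn (ω ∩ bE d n) u v := by
  induction h with
  | refl => exact ⟨0, conn_refl _ _ _⟩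
  | @tail y z _ hyz ih =>
    obtain ⟨n, hn⟩ := ih
    obtain ⟨e, he, hor⟩ := hyz
    obtain ⟨m, hm⟩ := exists_bE ({e} : Finset (Ed d))
    have hem : e ∈ bE d m := hm (Finset.mem_singleton_self e)
    refine ⟨max n m, Relation.ReflTransGen.tail (b := y) ?_ ?_⟩
    · refine conn_mono _ ?_ hn
      exact Set.inter_subset_inter_right _ (Finset.coe_subset.2 (bE_mono (le_max_left n m)))
    · exact ⟨e, ⟨he, Finset.mem_coe.2 (bE_mono (le_max_right n m) hem)⟩, hor⟩

end H82.IC
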