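import Pool.Agent.H82.IC.G1

/-!
# IV1: measurability, locality, measures determined by the increasing cylinders

* `lcl_measurable`: a cylinder event depends on finitely many coordinates: it is the preimage under the measurable map `ω ↦ ω restricted to F` (finite discrete space) of a set, hence measurable.
* `measure_ext_up`: the sets `up S` form a π-system (`up S ∩ up T = up (S ∪ T)`) generating the product σ-algebra (the coordinate sets `{ω | ω e = true} = up {e}`;
  `MeasurableSpace.pi` generated by the coordinates, each coordinate map into `Bool` is measurable iff the preimage of `{true}` is), `MeasureTheory.ext_of_generate_finite`.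
* `cn x y = ⋃ n, cnB n x y` (increasing in `n`, `conn_in_box`), `cnB` is local (depends on `bE n`), `cn` measurable.
* `arm n u` for `nm u ≤ n`: by `exit_box` equal to `{ω | ∃ b ∈ bdry n, Conn (opn ω ∩ bE n) u b}`, local.
* `perc`: for `1 ≤ d` `perc d = ⋂ n, arm n 0`: an infinite cluster leaves every box; conversely points of every norm in the cluster.
* all of `cn`, `cnB`, `arm`, `up`, `perc` are increasing (`conn_mono`); `dw` decreasing.
* `lcl` is stable under intersection, union, complement, preimage by `act`-like maps.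
-/

set_option autoImplicit false

open Finset MeasureTheory

namespace H82.IC

variable {d : ℕ}

theorem IV1_opn_inter {F : Finset (Ed d)} {ω ω' : Cf d} (h : ∀ e ∈ F, ω e = ω' e) :
    opn ω ∩ (F : Set (Ed d)) = opn ω' ∩ (F : Set (Ed d)) := by
  ext e
  constructor
  · rintro ⟨h1, h2⟩
    refine ⟨?_, h2⟩
    have h3 : ω e = true := h1
    show ω' e = true
    rw [← h e h2]
    exact h3
  · rintro ⟨h1, h2⟩
    refine ⟨?_, h2⟩
    have h3 : ω' e = true := h1
    show ω e = true
    rw [h e h2]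
    exact h3

theorem IV1_opn_mono {ω ω' : Cf d} (h : ∀ e, ω e = true → ω' e = true) : opn ω ⊆ opn ω' :=
  fun e he => h e he

theorem lcl_measurable {X : Set (Cf d)} (h : Lcl X) : MeasurableSet X := by
  obtain ⟨F, hF⟩ := h
  have hm : Measurable (fun (ω : Cf d) (e : F) => ω e) :=
    measurable_pi_lambda _ fun e => measurable_pi_apply _
  have hX : X = (fun (ω : Cf d) (e : F) => ω e) ⁻¹' ((fun (ω : Cf d) (e : F) => ω e) '' X) := by
    ext ω
    constructor
    · intro hω
      exact ⟨ω, hω, rfl⟩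
    · rintro ⟨ω', hω', h1⟩
      refine (hF ω' ω fun e he => ?_).mp hω'
      exact congrFun h1 ⟨e, he⟩
  rw [hX]
  exact hm (Set.toFinite _).measurableSet

theorem IV1_up (S : Finset (Ed d)) : Lcl (up S) := by
  refine ⟨S, fun ω ω' h => ?_⟩
  constructor
  · intro h1 e he
    rw [← h e he]
    exact h1 e he
  · intro h1 e he
    rw [h e he]
    exact h1 e he

theorem measure_ext_up (μ ν : Measure (Cf d)) [IsProbabilityMeasure μ] [IsProbabilityMeasure ν]
    (h : ∀ S : Finset (Ed d), μ.real (up S) = ν.real (up S)) : μ = ν := by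
  classical
  refine MeasureTheory.ext_of_generate_finite (Set.range (up : Finset (Ed d) → Set (Cf d))) ?_ ?_ ?_
    (by rw [measure_univ, measure_univ])
  · apply le_antisymm
    · refine iSup_le fun e => ?_
      have hme : @Measurable (Cf d) Bool (MeasurableSpace.generateFrom (Set.range up)) ⊤
          (fun ω => ω e) := by
        refine @measurable_to_bool (Cf d) (MeasurableSpace.generateFrom (Set.range up)) _ ?_
        apply MeasurableSpace.measurableSet_generateFrom
        refine ⟨{e}, ?_⟩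
        ext ω
        simp [up]
      exact hme.comap_le
    · refine MeasurableSpace.generateFrom_le ?_
      rintro _ ⟨S, rfl⟩
      exact lcl_measurable (IV1_up S)
  · rintro _ ⟨S, rfl⟩ _ ⟨T, rfl⟩ -
    refine ⟨S ∪ T, ?_⟩
    ext ω
    simp only [up, Set.mem_ofPred_eq, Set.mem_inter_iff, Finset.mem_union]
    constructor
    · intro h1
      exact ⟨fun e he => h1 e (Or.inl he), fun e he => h1 e (Or.inr he)⟩
    · rintro ⟨h1, h2⟩ e (he | he)
      · exact h1 e he
      · exact h2 e he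
  · rintro _ ⟨S, rfl⟩
    have h1 := h S
    rw [measureReal_def, measureReal_def] at h1
    exact (ENNReal.toReal_eq_toReal_iff' (measure_ne_top _ _) (measure_ne_top _ _)).mp h1

theorem lcl_inter {X Y : Set (Cf d)} (h : Lcl X) (h' : Lcl Y) : Lcl (X ∩ Y) := by
  classical
  obtain ⟨F, hF⟩ := h
  obtain ⟨G, hG⟩ := h'
  refine ⟨F ∪ G, fun ω ω' h => ?_⟩
  have h1 := hF ω ω' fun e he => h e (Finset.mem_union_left _ he)
  have h2 := hG ω ω' fun e he => h e (Finset.mem_union_right _ he)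
  exact and_congr h1 h2

theorem lcl_union {X Y : Set (Cf d)} (h : Lcl X) (h' : Lcl Y) : Lcl (X ∪ Y) := by
  classical
  obtain ⟨F, hF⟩ := h
  obtain ⟨G, hG⟩ := h'
  refine ⟨F ∪ G, fun ω ω' h => ?_⟩
  have h1 := hF ω ω' fun e he => h e (Finset.mem_union_left _ he)
  have h2 := hG ω ω' fun e he => h e (Finset.mem_union_right _ he)
  exact or_congr h1 h2

theorem lcl_compl {X : Set (Cf d)} (h : Lcl X) : Lcl Xᶜ := by
  obtain ⟨F, hF⟩ := h
  exact ⟨F, fun ω ω' h => not_congr (hF ω ω' h)⟩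

theorem lcl_up (S : Finset (Ed d)) : Lcl (up S) := IV1_up S

theorem lcl_dw (S : Finset (Ed d)) : Lcl (dw S) := by
  refine ⟨S, fun ω ω' h => ?_⟩
  constructor
  · intro h1 e he
    rw [← h e he]
    exact h1 e he
  · intro h1 e he
    rw [h e he]
    exact h1 e he

theorem lcl_cnB (n : ℕ) (x y : Vx d) : Lcl (cnB n x y) := by
  refine ⟨bE d n, fun ω ω' h => ?_⟩
  show (Zl d).Conn (opn ω ∩ bE d n) x y ↔ (Zl d).Conn (opn ω' ∩ bE d n) x y
  rw [IV1_opn_inter h]

theorem arm_eq (hd : 1 ≤ d) {n : ℕ} {u : Vx d} (hu : nm u ≤ n) :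
    (arm n u : Set (Cf d)) = {ω | ∃ b ∈ bdry d n, (Zl d).Conn (opn ω ∩ bE d n) u b} := by
  ext ω
  constructor
  · rintro ⟨y, hy, h⟩
    exact exit_box hd hu ((mem_bdry hd).mp hy).ge h
  · rintro ⟨b, hb, h⟩
    exact ⟨b, hb, conn_mono _ Set.inter_subset_left h⟩

theorem lcl_arm (hd : 1 ≤ d) {n : ℕ} {u : Vx d} (hu : nm u ≤ n) : Lcl (arm n u) := by
  refine ⟨bE d n, fun ω ω' h => ?_⟩
  rw [arm_eq hd hu]
  show (∃ b ∈ bdry d n, (Zl d).Conn (opn ω ∩ bE d n) u b) ↔
    (∃ b ∈ bdry d n, (Zl d).Conn (opn ω' ∩ bE d n) u b)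
  rw [IV1_opn_inter h]

theorem inc_up (S : Finset (Ed d)) : Inc (up S) :=
  fun _ _ h h1 e he => h e (h1 e he)

theorem inc_cn (x y : Vx d) : Inc (cn x y) :=
  fun _ _ h h1 => conn_mono _ (IV1_opn_mono h) h1

theorem inc_cnB (n : ℕ) (x y : Vx d) : Inc (cnB n x y) :=
  fun _ _ h h1 => conn_mono _ (Set.inter_subset_inter_left _ (IV1_opn_mono h)) h1

theorem inc_arm (n : ℕ) (u : Vx d) : Inc (arm n u) := by
  rintro ω ω' h ⟨y, hy, h1⟩
  exact ⟨y, hy, conn_mono _ (IV1_opn_mono h) h1⟩

theorem inc_inter {X Y : Set (Cf d)} (h : Inc X) (h' : Inc Y) : Inc (X ∩ Y) :=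
  fun ω ω' h1 h2 => ⟨h ω ω' h1 h2.1, h' ω ω' h1 h2.2⟩

theorem cnB_mono {m n : ℕ} (h : m ≤ n) (x y : Vx d) : (cnB m x y : Set (Cf d)) ⊆ cnB n x y := by
  intro ω hω
  refine conn_mono _ (Set.inter_subset_inter_right _ ?_) hω
  exact_mod_cast bE_mono h

theorem cn_eq (x y : Vx d) : (cn x y : Set (Cf d)) = ⋃ n, cnB n x y := by
  ext ω
  rw [Set.mem_iUnion]
  constructor
  · intro h
    exact conn_in_box h
  · rintro ⟨n, h⟩
    exact conn_mono _ Set.inter_subset_left h

theorem meas_cn (x y : Vx d) : MeasurableSet (cn x y : Set (Cf d)) := by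
  rw [cn_eq]
  exact MeasurableSet.iUnion fun n => lcl_measurable (lcl_cnB n x y)

theorem meas_arm (n : ℕ) (u : Vx d) : MeasurableSet (arm n u : Set (Cf d)) := by
  have h : (arm n u : Set (Cf d)) = ⋃ y ∈ bdry d n, cn u y := by
    ext ω
    simp only [Set.mem_iUnion, exists_prop]
    rfl
  rw [h]
  exact Finset.measurableSet_biUnion _ fun y _ => meas_cn u y

theorem perc_eq (hd : 1 ≤ d) : perc d = ⋂ n, arm n (0 : Vx d) := by
  ext ω
  rw [Set.mem_iInter]
  constructor
  · intro h n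
    have hinf : ((Zl d).cl (opn ω) 0).Infinite := h
    obtain ⟨v, hv, hvn⟩ := hinf.exists_notMem_finset (bx d n)
    rw [mem_bx, not_le] at hvn
    obtain ⟨b, hb, hb'⟩ := exit_box hd (n := n) (by rw [nm_zero]; exact Nat.zero_le n) hvn.le hv
    exact ⟨b, hb, conn_mono _ Set.inter_subset_left hb'⟩
  · intro h
    show ((Zl d).cl (opn ω) 0).Infinite
    intro hfin
    obtain ⟨y, hy, hc⟩ := h (hfin.toFinset.sup nm + 1)
    have h1 := (mem_bdry hd).mp hy
    have h2 : nm y ≤ hfin.toFinset.sup nm :=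
      Finset.le_sup (f := nm) (hfin.mem_toFinset.mpr hc)
    omega

theorem meas_perc (hd : 1 ≤ d) : MeasurableSet (perc d) := by
  rw [perc_eq hd]
  exact MeasurableSet.iInter fun n => meas_arm n 0

theorem arm_anti (hd : 1 ≤ d) {m n : ℕ} (h : m ≤ n) {u : Vx d} (hu : nm u ≤ m) :
    (arm n u : Set (Cf d)) ⊆ arm m u := by
  rintro ω ⟨y, hy, hc⟩
  obtain ⟨b, hb, hb'⟩ := exit_box hd hu (h.trans ((mem_bdry hd).mp hy).ge) hc
  exact ⟨b, hb, conn_mono _ Set.inter_subset_left hb'⟩

/-- `{0 ↔ x} ⊆ {0 ↔ ∂Λ_{|x|}}`. -/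
theorem cn_sub_arm (hd : 1 ≤ d) {n : ℕ} {u x : Vx d} (hu : nm u ≤ n) (hx : n ≤ nm x) :
    (cn u x : Set (Cf d)) ⊆ arm n u := by
  intro ω hc
  obtain ⟨b, hb, hb'⟩ := exit_box hd hu hx hc
  exact ⟨b, hb, conn_mono _ Set.inter_subset_left hb'⟩

/-- a connection outside `Λ_n` from the origin implies the arm event. -/
theorem cn_sub_union (hd : 1 ≤ d) {n : ℕ} {u x : Vx d} (hu : nm u ≤ n) :
    (cn u x : Set (Cf d)) ⊆ cnB n u x ∪ arm n u := by
  intro ω hc
  rcases path_or_exit hd hu hc with h | ⟨b, hb, h⟩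
  · exact Or.inl h
  · exact Or.inr ⟨b, hb, conn_mono _ Set.inter_subset_left h⟩

end H82.IC
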