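import Pool.Agent.H82.IC.BKB
import Pool.Agent.H82.IC.IV1

/-!
# BKC: no trifurcation boxes

`shf a ω e = ω (e.1 + a, e.2)`, `opE e ω = Function.update ω e true`.
`TI ν`: `ν` is invariant under all `shf a`; `INS ν C`: `ν {opE e ω ∈ X} ≤ C ν X` for all `e` and measurable `X`.
* measurability of `{ω | Tri (opn ω) r x}`: finite union over `v1 v2 v3`; `ω ↦ opn ω \ K` is the configuration obtained by closing the edges of `K` (a measurable map `Cf d → Cf d`);
  `{cluster of v infinite}` = `⋂_n {∃ b, nm (b - v) = n, v ↔ b}` (countable), `meas_cn`.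
* suppose `p0 = ν {Tri (opn ω) r 0} > 0`.  The edges of `ins (til r 0) = bE r` are finitely many `e_1..e_k`; `Tri` does not depend on them.  With `X_j = {Tri} ∩ {e_1..e_j open}`:
  `X_{j-1} ⊆ {opE e_j ω ∈ X_j}`, so `ν X_{j-1} ≤ C ν X_j`; hence `p = ν (X_k) > 0` (`C > 0`).
* for `K : ℕ`, `n = (2r+1) K + r + 1`, grid `{(2r+1) k : nm k ≤ K}`: tiles are disjoint (`nm` of the difference of two centres is a positive multiple of `2r+1`), `nm x + r + 1 ≤ n`.  For every `ω` the number of grid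
  points `x` with `Tri (opn ω) r x` and all edges of `ins (til r x)` open is `≤ |bdry d n|` (`bk_box`).  Integrate: by `TI` each grid point has probability `p`, so
  `(2K+1)^d p ≤ |bdry d n| = (2n+1)^d - (2n-1)^d ≤ 2d (2n+1)^(d-1)` for `n ≥ 1` and `2n + 1 ≤ (4r+4)(2K+1)`-type bounds: contradiction as `K → ∞`.
-/

set_option autoImplicit false

open Finset MeasureTheory Filter Topology

namespace H82.IC

variable {d : ℕ}

/-- shift of a configuration. -/
def shf {d : ℕ} (a : Vx d) (ω : Cf d) : Cf d := fun e => ω (e.1 + a, e.2)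

/-- open the edge `e`. -/
noncomputable def opE {d : ℕ} (e : Ed d) (ω : Cf d) : Cf d := Function.update ω e true

def TI {d : ℕ} (ν : Measure (Cf d)) : Prop :=
  ∀ (a : Vx d) (X : Set (Cf d)), MeasurableSet X → ν.real {ω | shf a ω ∈ X} = ν.real X

def INS {d : ℕ} (ν : Measure (Cf d)) (C : ℝ) : Prop :=
  ∀ (e : Ed d) (X : Set (Cf d)), MeasurableSet X → ν.real {ω | opE e ω ∈ X} ≤ C * ν.real X

theorem BKC_inf {S : Set (Ed d)} {v : Vx d} :
    ((Zl d).cl S v).Infinite ↔ ∀ n : ℕ, ∃ b : Vx d, n ≤ nm b ∧ (Zl d).Conn S v b := by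
  constructor
  · intro h n
    obtain ⟨b, hb, hbn⟩ := h.exists_notMem_finset (bx d n)
    rw [mem_bx, not_le] at hbn
    exact ⟨b, hbn.le, hb⟩
  · intro h hfin
    obtain ⟨b, hb, hc⟩ := h (hfin.toFinset.sup nm + 1)
    have h2 : nm b ≤ hfin.toFinset.sup nm :=
      Finset.le_sup (f := nm) (hfin.mem_toFinset.mpr hc)
    omega

/-- close the edges of `K`. -/
noncomputable def BKC_cls {d : ℕ} (K : Set (Ed d)) (ω : Cf d) : Cf d :=
  open Classical in fun e => if e ∈ K then false else ω e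

theorem BKC_cls_meas (K : Set (Ed d)) : Measurable (BKC_cls K) := by
  classical
  refine measurable_pi_lambda _ fun e => ?_
  by_cases h : e ∈ K
  · have h1 : (fun ω : Cf d => BKC_cls K ω e) = fun _ => false := by
      funext ω
      unfold BKC_cls
      rw [if_pos h]
    rw [h1]
    exact measurable_const
  · have h1 : (fun ω : Cf d => BKC_cls K ω e) = fun ω => ω e := by
      funext ω
      unfold BKC_cls
      rw [if_neg h]
    rw [h1]
    exact measurable_pi_apply e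

theorem BKC_opn (K : Set (Ed d)) (ω : Cf d) : opn (BKC_cls K ω) = opn ω \ K := by
  classical
  ext e
  show (if e ∈ K then false else ω e) = true ↔ ω e = true ∧ e ∉ K
  by_cases h : e ∈ K
  · rw [if_pos h]
    exact ⟨fun h1 => absurd h1 (by decide), fun h1 => absurd h h1.2⟩
  · rw [if_neg h]
    exact ⟨fun h1 => ⟨h1, h⟩, fun h1 => h1.1⟩

theorem BKC_meas_conn (K : Set (Ed d)) (v w : Vx d) :
    MeasurableSet {ω : Cf d | (Zl d).Conn (opn ω \ K) v w} := by
  have e : {ω : Cf d | (Zl d).Conn (opn ω \ K) v w} = BKC_cls K ⁻¹' cn v w := by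
    ext ω
    show (Zl d).Conn (opn ω \ K) v w ↔ (Zl d).Conn (opn (BKC_cls K ω)) v w
    rw [BKC_opn]
  rw [e]
  exact BKC_cls_meas K (meas_cn v w)

theorem BKC_meas_inf (K : Set (Ed d)) (v : Vx d) :
    MeasurableSet {ω : Cf d | ((Zl d).cl (opn ω \ K) v).Infinite} := by
  have e : {ω : Cf d | ((Zl d).cl (opn ω \ K) v).Infinite} =
      ⋂ n : ℕ, ⋃ b : Vx d, ({ω : Cf d | n ≤ nm b} ∩ {ω | (Zl d).Conn (opn ω \ K) v b}) := by
    ext ω
    rw [Set.mem_iInter]
    show ((Zl d).cl (opn ω \ K) v).Infinite ↔ _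
    rw [BKC_inf]
    refine forall_congr' fun n => ?_
    rw [Set.mem_iUnion]
    exact Iff.rfl
  rw [e]
  exact MeasurableSet.iInter fun n => MeasurableSet.iUnion fun b =>
    (MeasurableSet.const _).inter (BKC_meas_conn K v b)

theorem meas_Tri (r : ℕ) (x : Vx d) : MeasurableSet {ω : Cf d | Tri (opn ω) r x} := by
  set K := (Zl d).ins (til r x) with hK
  have e : {ω : Cf d | Tri (opn ω) r x} = ⋃ v1 : Vx d, ⋃ v2 : Vx d, ⋃ v3 : Vx d,
      ({ω : Cf d | v1 ∈ til r x ∧ v2 ∈ til r x ∧ v3 ∈ til r x} ∩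
        ({ω | ((Zl d).cl (opn ω \ K) v1).Infinite} ∩ ({ω | ((Zl d).cl (opn ω \ K) v2).Infinite} ∩
        ({ω | ((Zl d).cl (opn ω \ K) v3).Infinite} ∩ ({ω | (Zl d).Conn (opn ω \ K) v1 v2}ᶜ ∩
        ({ω | (Zl d).Conn (opn ω \ K) v1 v3}ᶜ ∩ {ω | (Zl d).Conn (opn ω \ K) v2 v3}ᶜ)))))) := by
    ext ω
    simp only [Set.mem_iUnion]
    constructor
    · rintro ⟨v1, h1, v2, h2, v3, h3, a1, a2, a3, b1, b2, b3⟩
      exact ⟨v1, v2, v3, ⟨h1, h2, h3⟩, a1, a2, a3, b1, b2, b3⟩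
    · rintro ⟨v1, v2, v3, ⟨h1, h2, h3⟩, a1, a2, a3, b1, b2, b3⟩
      exact ⟨v1, h1, v2, h2, v3, h3, a1, a2, a3, b1, b2, b3⟩
  rw [e]
  exact MeasurableSet.iUnion fun v1 => MeasurableSet.iUnion fun v2 => MeasurableSet.iUnion fun v3 =>
    (MeasurableSet.const _).inter ((BKC_meas_inf K v1).inter ((BKC_meas_inf K v2).inter
      ((BKC_meas_inf K v3).inter ((BKC_meas_conn K v1 v2).compl.inter
        ((BKC_meas_conn K v1 v3).compl.inter (BKC_meas_conn K v2 v3).compl)))))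

/-! ### opening the edges of a tile -/

theorem BKC_Tri_congr {S S' : Set (Ed d)} {r : ℕ} {x : Vx d}
    (h : S \ (Zl d).ins (til r x) = S' \ (Zl d).ins (til r x)) (hT : Tri S r x) : Tri S' r x := by
  unfold Tri at hT ⊢
  rwa [h] at hT

theorem BKC_bE {r : ℕ} {x : Vx d} {e : Ed d} :
    e ∈ (Zl d).ins (til r x) ↔ ((e.1 - x, e.2) : Ed d) ∈ bE d r := by
  rw [mem_bE]
  show (nm (e.1 - x) ≤ r ∧ nm (e.1 + Pi.single e.2 1 - x) ≤ r) ↔
    (nm (e.1 - x) ≤ r ∧ nm (e.1 - x + Pi.single e.2 1) ≤ r)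
  have h : e.1 + Pi.single e.2 1 - x = e.1 - x + Pi.single e.2 1 := by abel
  rw [h]

theorem BKC_bE0 {r : ℕ} {e : Ed d} : e ∈ (Zl d).ins (til r (0 : Vx d)) ↔ e ∈ bE d r := by
  rw [BKC_bE]
  have h : ((e.1 - 0, e.2) : Ed d) = e := by rw [sub_zero]
  rw [h]

theorem BKC_pos (ν : Measure (Cf d)) [IsProbabilityMeasure ν] (C : ℝ) (hC : 0 < C)
    (hI : INS ν C) (r : ℕ) (h0 : 0 < ν.real {ω : Cf d | Tri (opn ω) r 0}) (F : Finset (Ed d)) :
    F ⊆ bE d r → 0 < ν.real ({ω : Cf d | Tri (opn ω) r 0} ∩ up F) := by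
  classical
  induction F using Finset.induction_on with
  | empty =>
    intro _
    have h : ({ω : Cf d | Tri (opn ω) r 0} ∩ up ∅) = {ω : Cf d | Tri (opn ω) r 0} := by
      ext ω
      refine ⟨fun h => h.1, fun h => ⟨h, fun e he => absurd he (Finset.notMem_empty e)⟩⟩
    rw [h]
    exact h0
  | insert e F _ ih =>
    intro hF
    have h1 := ih ((Finset.subset_insert e F).trans hF)
    have he : e ∈ (Zl d).ins (til r (0 : Vx d)) := BKC_bE0.2 (hF (Finset.mem_insert_self e F))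
    have hsub : ({ω : Cf d | Tri (opn ω) r 0} ∩ up F) ⊆
        {ω | opE e ω ∈ ({ω : Cf d | Tri (opn ω) r 0} ∩ up (insert e F))} := by
      rintro ω ⟨h2, h3⟩
      constructor
      · refine BKC_Tri_congr (S := opn ω) ?_ h2
        ext e'
        constructor
        · rintro ⟨h4, h5⟩
          refine ⟨?_, h5⟩
          show opE e ω e' = true
          unfold opE
          rw [Function.update_of_ne (fun h => h5 (by rw [h]; exact he))]
          exact h4
        · rintro ⟨h4, h5⟩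
          refine ⟨?_, h5⟩
          have h6 : opE e ω e' = true := h4
          unfold opE at h6
          rwa [Function.update_of_ne (fun h => h5 (by rw [h]; exact he))] at h6
      · intro e' he'
        unfold opE
        by_cases h : e' = e
        · rw [h, Function.update_self]
        · rw [Function.update_of_ne h]
          rcases Finset.mem_insert.1 he' with h5 | h5
          · exact absurd h5 h
          · exact h3 e' h5
    have hm : MeasurableSet ({ω : Cf d | Tri (opn ω) r 0} ∩ up (insert e F)) :=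
      (meas_Tri r 0).inter (lcl_measurable (lcl_up _))
    have h4 := hI e _ hm
    have h5 : ν.real ({ω : Cf d | Tri (opn ω) r 0} ∩ up F) ≤
        ν.real {ω | opE e ω ∈ ({ω : Cf d | Tri (opn ω) r 0} ∩ up (insert e F))} :=
      measureReal_mono hsub
    have h6 : 0 < C * ν.real ({ω : Cf d | Tri (opn ω) r 0} ∩ up (insert e F)) := by linarith
    exact (pos_iff_pos_of_mul_pos h6).1 hC

/-! ### translations -/

theorem BKC_conn (a : Vx d) (S : Set (Ed d)) {u v : Vx d}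
    (h : (Zl d).Conn {e | ((e.1 + a, e.2) : Ed d) ∈ S} u v) : (Zl d).Conn S (u + a) (v + a) := by
  induction h with
  | refl => exact conn_refl _ _ _
  | tail _ h2 ih =>
    refine Relation.ReflTransGen.tail ih ?_
    obtain ⟨e, he, h3⟩ := h2
    refine ⟨(e.1 + a, e.2), he, ?_⟩
    have e1 : (Zl d).s ((e.1 + a, e.2) : Ed d) = (Zl d).s e + a := rfl
    have e2 : (Zl d).r ((e.1 + a, e.2) : Ed d) = (Zl d).r e + a := by
      show e.1 + a + Pi.single e.2 1 = e.1 + Pi.single e.2 1 + a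
      abel
    rw [e1, e2]
    rcases h3 with ⟨h3, h4⟩ | ⟨h3, h4⟩
    · exact Or.inl ⟨by rw [h3], by rw [h4]⟩
    · exact Or.inr ⟨by rw [h3], by rw [h4]⟩

theorem BKC_conn_iff (a : Vx d) (S : Set (Ed d)) (u v : Vx d) :
    (Zl d).Conn {e | ((e.1 + a, e.2) : Ed d) ∈ S} u v ↔ (Zl d).Conn S (u + a) (v + a) := by
  refine ⟨BKC_conn a S, fun h => ?_⟩
  have e : S = {e | ((e.1 + -a, e.2) : Ed d) ∈ {e | ((e.1 + a, e.2) : Ed d) ∈ S}} := by
    ext e
    show e ∈ S ↔ ((e.1 + -a + a, e.2) : Ed d) ∈ S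
    have h1 : ((e.1 + -a + a, e.2) : Ed d) = e := by rw [neg_add_cancel_right]
    rw [h1]
  rw [e] at h
  have h2 := BKC_conn (-a) _ h
  rw [add_neg_cancel_right, add_neg_cancel_right] at h2
  exact h2

/-- the event at `x` -/
def BKC_A {d : ℕ} (r : ℕ) (x : Vx d) : Set (Cf d) :=
  {ω | Tri (opn ω) r x} ∩ ⋂ e : Ed d, {ω | e ∈ (Zl d).ins (til r x) → ω e = true}

theorem BKC_A_meas (r : ℕ) (x : Vx d) : MeasurableSet (BKC_A r x) := by
  refine (meas_Tri r x).inter (MeasurableSet.iInter fun e => ?_)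
  by_cases h : e ∈ (Zl d).ins (til r x)
  · have h1 : {ω : Cf d | e ∈ (Zl d).ins (til r x) → ω e = true} = (fun ω => ω e) ⁻¹' {true} := by
      ext ω
      exact ⟨fun h2 => h2 h, fun h2 _ => h2⟩
    rw [h1]
    exact measurable_pi_apply e (MeasurableSet.singleton _)
  · have h1 : {ω : Cf d | e ∈ (Zl d).ins (til r x) → ω e = true} = Set.univ := by
      ext ω
      exact ⟨fun _ => trivial, fun _ h2 => absurd h2 h⟩
    rw [h1]
    exact MeasurableSet.univ

theorem BKC_shift (r : ℕ) (x : Vx d) :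
    {ω : Cf d | shf x ω ∈ ({ω : Cf d | Tri (opn ω) r 0} ∩ up (bE d r))} ⊆ BKC_A r x := by
  rintro ω ⟨h1, h2⟩
  have hset : {e : Ed d | ((e.1 + x, e.2) : Ed d) ∈ opn ω \ (Zl d).ins (til r x)} =
      opn (shf x ω) \ (Zl d).ins (til r 0) := by
    ext e
    show (ω (e.1 + x, e.2) = true ∧ ((e.1 + x, e.2) : Ed d) ∉ (Zl d).ins (til r x)) ↔
      (ω (e.1 + x, e.2) = true ∧ e ∉ (Zl d).ins (til r 0))
    rw [BKC_bE, BKC_bE0]
    have h3 : (((e.1 + x, e.2) : Ed d).1 - x, ((e.1 + x, e.2) : Ed d).2) = e := by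
      show (e.1 + x - x, e.2) = e
      rw [add_sub_cancel_right]
    rw [h3]
  have hc : ∀ u v, (Zl d).Conn (opn (shf x ω) \ (Zl d).ins (til r 0)) u v ↔
      (Zl d).Conn (opn ω \ (Zl d).ins (til r x)) (u + x) (v + x) := by
    intro u v
    rw [← hset]
    exact BKC_conn_iff x _ u v
  have hi : ∀ v, ((Zl d).cl (opn (shf x ω) \ (Zl d).ins (til r 0)) v).Infinite →
      ((Zl d).cl (opn ω \ (Zl d).ins (til r x)) (v + x)).Infinite := by
    intro v hv
    refine (hv.image (add_left_injective x).injOn).mono ?_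
    rintro _ ⟨w, hw, rfl⟩
    exact (hc v w).1 hw
  have ht : ∀ v, v ∈ til r (0 : Vx d) → v + x ∈ til r x := by
    intro v hv
    have h3 : nm (v - 0) ≤ r := hv
    show nm (v + x - x) ≤ r
    rwa [add_sub_cancel_right, ← sub_zero v]
  refine ⟨?_, ?_⟩
  · obtain ⟨v1, m1, v2, m2, v3, m3, a1, a2, a3, b1, b2, b3⟩ := h1
    exact ⟨v1 + x, ht _ m1, v2 + x, ht _ m2, v3 + x, ht _ m3, hi _ a1, hi _ a2, hi _ a3,
      fun h => b1 ((hc _ _).2 h), fun h => b2 ((hc _ _).2 h), fun h => b3 ((hc _ _).2 h)⟩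
  · rw [Set.mem_iInter]
    intro e he
    have h3 := h2 _ (BKC_bE.1 he)
    have h4 : ω ((e.1 - x) + x, e.2) = true := h3
    rwa [sub_add_cancel] at h4

/-! ### counting -/

/-- grid -/
def BKC_g {d : ℕ} (r : ℕ) (k : Vx d) : Vx d := fun i => (2 * (r : ℤ) + 1) * k i

theorem BKC_g_inj (r : ℕ) : Function.Injective (BKC_g r : Vx d → Vx d) := by
  intro k k' h
  funext i
  have h1 := congrFun h i
  have h2 : (2 * (r : ℤ) + 1) ≠ 0 := by positivity
  exact mul_left_cancel₀ h2 h1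

theorem BKC_g_nm {r K : ℕ} {k : Vx d} (hk : nm k ≤ K) : nm (BKC_g r k) ≤ (2 * r + 1) * K := by
  rw [G1_nm_le]
  intro i
  have h1 := G1_nm_le.1 hk i
  show ((2 * (r : ℤ) + 1) * k i).natAbs ≤ _
  rw [Int.natAbs_mul]
  have h2 : (2 * (r : ℤ) + 1).natAbs = 2 * r + 1 := by omega
  rw [h2]
  exact Nat.mul_le_mul_left _ h1

theorem BKC_g_disj {r : ℕ} {k k' : Vx d} (h : k ≠ k') :
    Disjoint (til r (BKC_g r k)) (til r (BKC_g r k')) := by
  rw [Set.disjoint_left]
  intro z hz hz'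
  apply h
  funext i
  have h1 := G1_nm_le.1 hz i
  have h2 := G1_nm_le.1 hz' i
  rw [Pi.sub_apply] at h1 h2
  have e1 : BKC_g r k i = (2 * (r : ℤ) + 1) * k i := rfl
  have e2 : BKC_g r k' i = (2 * (r : ℤ) + 1) * k' i := rfl
  rw [e1] at h1
  rw [e2] at h2
  have h3 : |(2 * (r : ℤ) + 1) * (k i - k' i)| ≤ 2 * r := by
    rw [abs_le]
    have h4 : (2 * (r : ℤ) + 1) * (k i - k' i) =
        (z i - (2 * (r : ℤ) + 1) * k' i) - (z i - (2 * (r : ℤ) + 1) * k i) := by ring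
    omega
  by_contra hne
  have h5 : 1 ≤ |k i - k' i| := Int.one_le_abs (sub_ne_zero.2 hne)
  rw [abs_mul, abs_of_pos (by positivity)] at h3
  nlinarith

theorem BKC_count (hd : 1 ≤ d) (r K : ℕ) (ω : Cf d) :
    ∑ k ∈ bx d K, (BKC_A r (BKC_g r k)).indicator (fun _ => (1 : ℝ)) ω ≤
      ((bdry d ((2 * r + 1) * K + r + 1)).card : ℝ) := by
  classical
  set X : Finset (Vx d) := ((bx d K).filter (fun k => ω ∈ BKC_A r (BKC_g r k))).image (BKC_g r)
    with hX
  have h1 : ∑ k ∈ bx d K, (BKC_A r (BKC_g r k)).indicator (fun _ => (1 : ℝ)) ω = (X.card : ℝ) := by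
    rw [hX, Finset.card_image_of_injective _ (BKC_g_inj r), Finset.card_filter, Nat.cast_sum]
    refine Finset.sum_congr rfl fun k _ => ?_
    by_cases h : ω ∈ BKC_A r (BKC_g r k)
    · rw [Set.indicator_of_mem h, if_pos h, Nat.cast_one]
    · rw [Set.indicator_of_notMem h, if_neg h, Nat.cast_zero]
  rw [h1]
  have hmem : ∀ x ∈ X, ∃ k, nm k ≤ K ∧ ω ∈ BKC_A r (BKC_g r k) ∧ BKC_g r k = x := by
    intro x hx
    obtain ⟨k, hk, hkx⟩ := Finset.mem_image.1 hx
    obtain ⟨h2, h3⟩ := Finset.mem_filter.1 hk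
    exact ⟨k, mem_bx.1 h2, h3, hkx⟩
  have h2 := bk_box hd (opn ω) r ((2 * r + 1) * K + r + 1) X ?_ ?_ ?_ ?_
  · exact_mod_cast h2
  · intro x hx
    obtain ⟨k, hk, -, rfl⟩ := hmem x hx
    have := BKC_g_nm (r := r) hk
    omega
  · intro x hx y hy hxy
    obtain ⟨k, -, -, rfl⟩ := hmem x hx
    obtain ⟨k', -, -, rfl⟩ := hmem y hy
    exact BKC_g_disj (fun h => hxy (by rw [h]))
  · intro x hx e he
    obtain ⟨k, -, h3, rfl⟩ := hmem x hx
    exact Set.mem_iInter.1 h3.2 e he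
  · intro x hx
    obtain ⟨k, -, h3, rfl⟩ := hmem x hx
    exact h3.1

theorem BKC_int (hd : 1 ≤ d) (ν : Measure (Cf d)) [IsProbabilityMeasure ν] (r K : ℕ) :
    ∑ k ∈ bx d K, ν.real (BKC_A r (BKC_g r k)) ≤
      ((bdry d ((2 * r + 1) * K + r + 1)).card : ℝ) := by
  have hi : ∀ k ∈ bx d K, Integrable
      (fun ω => (BKC_A r (BKC_g r k)).indicator (fun _ => (1 : ℝ)) ω) ν := by
    intro k _
    exact (integrable_const (1 : ℝ)).indicator (BKC_A_meas r _)
  have h1 : ∑ k ∈ bx d K, ν.real (BKC_A r (BKC_g r k)) =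
      ∫ ω, ∑ k ∈ bx d K, (BKC_A r (BKC_g r k)).indicator (fun _ => (1 : ℝ)) ω ∂ν := by
    rw [integral_finsetSum _ hi]
    refine Finset.sum_congr rfl fun k _ => ?_
    rw [integral_indicator_const _ (BKC_A_meas r _), smul_eq_mul, mul_one]
  rw [h1]
  have h2 : ∫ ω, ∑ k ∈ bx d K, (BKC_A r (BKC_g r k)).indicator (fun _ => (1 : ℝ)) ω ∂ν ≤
      ∫ _ω, ((bdry d ((2 * r + 1) * K + r + 1)).card : ℝ) ∂ν :=
    integral_mono (integrable_finsetSum _ hi) (integrable_const _)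
      (fun ω => BKC_count hd r K ω)
  rwa [integral_const, probReal_univ, one_smul] at h2

theorem BKC_bdry (hd : 1 ≤ d) {n : ℕ} (hn : 1 ≤ n) :
    ((bdry d n).card : ℝ) ≤ 2 * d * (2 * n + 1) ^ (d - 1) := by
  have h1 : (bdry d n).card + (bx d (n - 1)).card = (bx d n).card := by
    have h2 : bx d n = bdry d n ∪ bx d (n - 1) := by
      ext x
      rw [Finset.mem_union, mem_bx, mem_bx, mem_bdry hd]
      omega
    rw [h2, Finset.card_union_of_disjoint]
    rw [Finset.disjoint_left]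
    intro x hx hx'
    rw [mem_bdry hd] at hx
    rw [mem_bx] at hx'
    omega
  rw [card_bx, card_bx] at h1
  have h3 : ((bdry d n).card : ℝ) = (2 * n + 1) ^ d - (2 * n - 1) ^ d := by
    have h4 : (((bdry d n).card + (2 * (n - 1) + 1) ^ d : ℕ) : ℝ) = (((2 * n + 1) ^ d : ℕ) : ℝ) := by
      exact_mod_cast h1
    push_cast [Nat.cast_sub hn] at h4
    have h5 : (2 * ((n : ℝ) - 1) + 1) = 2 * n - 1 := by ring
    rw [h5] at h4
    linarith
  rw [h3]
  have hn' : (1 : ℝ) ≤ n := by exact_mod_cast hn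
  have hpos : (0 : ℝ) < 2 * n + 1 := by positivity
  have hb := one_add_mul_le_pow (a := -(2 / (2 * (n : ℝ) + 1))) (by
    rw [neg_le_neg_iff, div_le_iff₀ hpos]
    linarith) d
  have h6 : 1 + -(2 / (2 * (n : ℝ) + 1)) = (2 * n - 1) / (2 * n + 1) := by
    field_simp
    ring
  rw [h6, div_pow, le_div_iff₀ (by positivity)] at hb
  have h7 : (2 * (n : ℝ) + 1) ^ d = (2 * n + 1) ^ (d - 1) * (2 * n + 1) := by
    rw [← pow_succ]
    congr 1
    omega
  have h8 : (1 + (d : ℝ) * -(2 / (2 * (n : ℝ) + 1))) * (2 * n + 1) ^ d =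
      (2 * n + 1) ^ d - 2 * d * (2 * n + 1) ^ (d - 1) := by
    rw [h7]
    field_simp
    ring
  rw [h8] at hb
  linarith

theorem no_tri (hd : 1 ≤ d) (ν : Measure (Cf d)) [IsProbabilityMeasure ν] (hT : TI ν) (C : ℝ)
    (hC : 0 < C) (hI : INS ν C) (r : ℕ) : ν.real {ω : Cf d | Tri (opn ω) r 0} = 0 := by
  by_contra hne
  have h0 : 0 < ν.real {ω : Cf d | Tri (opn ω) r 0} := lt_of_le_of_ne measureReal_nonneg (Ne.symm hne)
  have hp := BKC_pos ν C hC hI r h0 (bE d r) (Finset.Subset.refl _)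
  set p := ν.real ({ω : Cf d | Tri (opn ω) r 0} ∩ up (bE d r)) with hpd
  have hA : ∀ x, p ≤ ν.real (BKC_A r x) := by
    intro x
    rw [hpd, ← hT x _ ((meas_Tri r 0).inter (lcl_measurable (lcl_up _)))]
    exact measureReal_mono (BKC_shift r x)
  have key : ∀ K : ℕ, (2 * (K : ℝ) + 1) * p ≤ 2 * d * (2 * r + 3) ^ (d - 1) := by
    intro K
    have h1 := BKC_int hd ν r K
    have h2 : ((2 * (K : ℝ) + 1) ^ d) * p ≤ ∑ k ∈ bx d K, ν.real (BKC_A r (BKC_g r k)) := by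
      have h3 : ∑ _k ∈ bx d K, p ≤ ∑ k ∈ bx d K, ν.real (BKC_A r (BKC_g r k)) :=
        Finset.sum_le_sum fun k _ => hA _
      rw [Finset.sum_const, card_bx, nsmul_eq_mul] at h3
      push_cast at h3
      exact h3
    have h4 := BKC_bdry hd (n := (2 * r + 1) * K + r + 1) (by omega)
    have h5 : (2 * (((2 * r + 1) * K + r + 1 : ℕ) : ℝ) + 1) ≤ (2 * r + 3) * (2 * K + 1) := by
      push_cast
      have : (0 : ℝ) ≤ K := Nat.cast_nonneg K
      nlinarith
    have h6 : (2 * (((2 * r + 1) * K + r + 1 : ℕ) : ℝ) + 1) ^ (d - 1) ≤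
        ((2 * (r : ℝ) + 3) * (2 * K + 1)) ^ (d - 1) :=
      pow_le_pow_left₀ (by positivity) h5 _
    have h7 : ((2 * (K : ℝ) + 1) ^ d) * p ≤ 2 * d * ((2 * (r : ℝ) + 3) * (2 * K + 1)) ^ (d - 1) :=
      (h2.trans h1).trans (h4.trans (mul_le_mul_of_nonneg_left h6 (by positivity)))
    have h8 : (2 * (K : ℝ) + 1) ^ d = (2 * K + 1) ^ (d - 1) * (2 * K + 1) := by
      rw [← pow_succ]
      congr 1
      omega
    rw [h8, mul_pow] at h7
    have h9 : (0 : ℝ) < (2 * K + 1) ^ (d - 1) := by positivity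
    refine le_of_mul_le_mul_left ?_ h9
    linarith
  obtain ⟨K, hK⟩ := exists_nat_gt (2 * d * (2 * (r : ℝ) + 3) ^ (d - 1) / p)
  rw [div_lt_iff₀ hp] at hK
  have h1 := key K
  have : (0 : ℝ) ≤ K := Nat.cast_nonneg K
  nlinarith

end H82.IC
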