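import Pool.Agent.H82.IC.G1

/-!
# AU: automorphisms of the lattice

`LAut d`: a permutation `gV` of the vertices and `gE` of the edges with `{s (gE e), r (gE e)} = {gV (s e), gV (r e)}`.
* `conn_aut`: `x ↔ y` in `{e | gE e ∈ S}` iff `gV x ↔ gV y` in `S`: (→) induction on the path, each step through `e` with `gE e ∈ S`.  (←): the inverse permutation: a step from `gV x` to `z` through an
  edge `f = gE e`, so `{gV (s e), gV (r e)} = {gV x, z}`.
* `trA a` (translation by `a`), `ngA` (`x ↦ -x`; the edge `(x,i)` goes to `(-x - e_i, i)`), `pmA π` (permutation of the coordinates `x ↦ x ∘ π⁻¹`, edge `(x,i) ↦ (x ∘ π⁻¹, π i)`,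
  `Pi.single i 1 ∘ π⁻¹ = Pi.single (π i) 1`).
* `nm` is invariant under `ngA`, `pmA π`, so `bx`, `bE` are (`gE e ∈ bE n ↔ e ∈ bE n`); for `trA a`: `nm (x + a) ≤ nm x + nm a`.
* `act g ω = fun e => ω (g.gE e)`; preimages of the events: `act g ω ∈ cn x y ↔ ω ∈ cn (gV x) (gV y)` etc.
-/

set_option autoImplicit false

open Finset MeasureTheory

namespace H82.IC

variable {d : ℕ}

/-- automorphisms of the lattice. -/
structure LAut (d : ℕ) where
  gV : Equiv.Perm (Vx d)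
  gE : Equiv.Perm (Ed d)
  ok : ∀ e, ((Zl d).s (gE e) = gV ((Zl d).s e) ∧ (Zl d).r (gE e) = gV ((Zl d).r e)) ∨
    ((Zl d).s (gE e) = gV ((Zl d).r e) ∧ (Zl d).r (gE e) = gV ((Zl d).s e))

/-- action on configurations. -/
def act (g : LAut d) (ω : Cf d) : Cf d := fun e => ω (g.gE e)

theorem AU_adj (g : LAut d) {S : Set (Ed d)} {x y : Vx d}
    (h : (Zl d).Adj {e | g.gE e ∈ S} x y) : (Zl d).Adj S (g.gV x) (g.gV y) := by
  obtain ⟨e, he, hxy⟩ := h
  refine ⟨g.gE e, he, ?_⟩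
  rcases g.ok e with ⟨h1, h2⟩ | ⟨h1, h2⟩ <;> rcases hxy with ⟨h3, h4⟩ | ⟨h3, h4⟩
  · left; rw [h1, h2, h3, h4]; exact ⟨rfl, rfl⟩
  · right; rw [h1, h2, h3, h4]; exact ⟨rfl, rfl⟩
  · right; rw [h1, h2, h3, h4]; exact ⟨rfl, rfl⟩
  · left; rw [h1, h2, h3, h4]; exact ⟨rfl, rfl⟩

theorem AU_adj_inv (g : LAut d) {S : Set (Ed d)} {x z : Vx d}
    (h : (Zl d).Adj S (g.gV x) z) : ∃ y, g.gV y = z ∧ (Zl d).Adj {e | g.gE e ∈ S} x y := by
  obtain ⟨f, hf, hxy⟩ := h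
  obtain ⟨e, rfl⟩ := g.gE.surjective f
  rcases g.ok e with ⟨h1, h2⟩ | ⟨h1, h2⟩ <;> rcases hxy with ⟨h3, h4⟩ | ⟨h3, h4⟩ <;>
    rw [h1] at h3 <;> rw [h2] at h4
  · exact ⟨(Zl d).r e, h4, e, hf, Or.inl ⟨g.gV.injective h3, rfl⟩⟩
  · exact ⟨(Zl d).s e, h3, e, hf, Or.inr ⟨rfl, g.gV.injective h4⟩⟩
  · exact ⟨(Zl d).s e, h4, e, hf, Or.inr ⟨rfl, g.gV.injective h3⟩⟩
  · exact ⟨(Zl d).r e, h3, e, hf, Or.inl ⟨g.gV.injective h4, rfl⟩⟩

theorem AU_conn (g : LAut d) {S : Set (Ed d)} {x z : Vx d}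
    (h : (Zl d).Conn S (g.gV x) z) : ∃ y, g.gV y = z ∧ (Zl d).Conn {e | g.gE e ∈ S} x y := by
  induction h with
  | refl => exact ⟨x, rfl, conn_refl _ _ _⟩
  | tail _ hab ih =>
    obtain ⟨y, hy, hc⟩ := ih
    rw [← hy] at hab
    obtain ⟨y', hy', hc'⟩ := AU_adj_inv g hab
    exact ⟨y', hy', hc.tail hc'⟩

theorem conn_aut (g : LAut d) (S : Set (Ed d)) (x y : Vx d) :
    (Zl d).Conn {e | g.gE e ∈ S} x y ↔ (Zl d).Conn S (g.gV x) (g.gV y) := by
  constructor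
  · intro h
    induction h with
    | refl => exact conn_refl _ _ _
    | tail _ hab ih => exact ih.tail (AU_adj g hab)
  · intro h
    obtain ⟨y', hy', hc⟩ := AU_conn g h
    rw [g.gV.injective hy'] at hc
    exact hc

theorem act_cn (g : LAut d) (ω : Cf d) (x y : Vx d) : act g ω ∈ cn x y ↔ ω ∈ cn (g.gV x) (g.gV y) := by
  exact conn_aut g (opn ω) x y

theorem act_up (g : LAut d) (ω : Cf d) (S : Finset (Ed d)) :
    act g ω ∈ up S ↔ ω ∈ up (S.map g.gE.toEmbedding) := by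
  constructor
  · intro h f hf
    obtain ⟨e, he, rfl⟩ := Finset.mem_map.1 hf
    exact h e he
  · intro h e he
    exact h _ (Finset.mem_map.2 ⟨e, he, rfl⟩)

theorem act_measurable (g : LAut d) : Measurable (act g) := by
  exact measurable_pi_lambda _ (fun e => measurable_pi_apply (g.gE e))

theorem exists_trA (a : Vx d) : ∃ g : LAut d, (∀ x, g.gV x = x + a) ∧
    ∀ e, g.gE e = (e.1 + a, e.2) := by
  refine ⟨⟨Equiv.addRight a, Equiv.prodCongr (Equiv.addRight a) (Equiv.refl _), ?_⟩,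
    fun x => rfl, fun e => rfl⟩
  intro e
  left
  refine ⟨rfl, ?_⟩
  show (e.1 + a) + Pi.single e.2 1 = (e.1 + Pi.single e.2 1) + a
  abel

theorem exists_ngA : ∃ g : LAut d, ∀ x, g.gV x = -x := by
  have hinv : Function.Involutive
      (fun e : Ed d => ((-e.1 - (Pi.single e.2 1 : Vx d), e.2) : Ed d)) := by
    intro e
    refine Prod.ext ?_ rfl
    show -(-e.1 - (Pi.single e.2 1 : Vx d)) - (Pi.single e.2 1 : Vx d) = e.1
    abel
  refine ⟨⟨Equiv.neg _, hinv.toPerm, ?_⟩, fun x => rfl⟩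
  intro e
  right
  constructor
  · show -e.1 - Pi.single e.2 1 = -(e.1 + Pi.single e.2 1)
    abel
  · show -e.1 - Pi.single e.2 1 + Pi.single e.2 1 = -e.1
    abel

theorem exists_pmA (π : Equiv.Perm (Fin d)) : ∃ g : LAut d, ∀ x i, g.gV x (π i) = x i := by
  have hc : ∀ (x : Vx d) (j : Fin d),
      (Equiv.arrowCongr π (Equiv.refl ℤ)) x j = x (π.symm j) := fun x j => rfl
  refine ⟨⟨Equiv.arrowCongr π (Equiv.refl ℤ),
    Equiv.prodCongr (Equiv.arrowCongr π (Equiv.refl ℤ)) π, ?_⟩, fun x i => ?_⟩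
  · intro e
    left
    refine ⟨rfl, ?_⟩
    funext j
    show (Equiv.arrowCongr π (Equiv.refl ℤ)) e.1 j + (Pi.single (π e.2) 1 : Vx d) j =
      (Equiv.arrowCongr π (Equiv.refl ℤ)) (e.1 + Pi.single e.2 1) j
    rw [hc, hc, Pi.add_apply, Pi.single_apply, Pi.single_apply]
    by_cases h : j = π e.2
    · rw [if_pos h, if_pos (by rw [h, Equiv.symm_apply_apply])]
    · rw [if_neg h, if_neg (fun h' => h (by rw [← h', Equiv.apply_symm_apply]))]
  · show (Equiv.arrowCongr π (Equiv.refl ℤ)) x (π i) = x i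
    rw [hc, Equiv.symm_apply_apply]

theorem nm_perm (π : Equiv.Perm (Fin d)) (x y : Vx d) (h : ∀ i, y (π i) = x i) : nm y = nm x := by
  unfold nm
  apply le_antisymm
  · refine Finset.sup_le fun j _ => ?_
    have h1 : y j = x (π.symm j) := by rw [← h, Equiv.apply_symm_apply]
    rw [h1]
    exact Finset.le_sup (f := fun i => (x i).natAbs) (Finset.mem_univ _)
  · refine Finset.sup_le fun j _ => ?_
    rw [← h j]
    exact Finset.le_sup (f := fun i => (y i).natAbs) (Finset.mem_univ _)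

/-- an automorphism preserving `nm` preserves the boxes. -/
theorem aut_bE (g : LAut d) (hg : ∀ x, nm (g.gV x) = nm x) (n : ℕ) (e : Ed d) :
    g.gE e ∈ bE d n ↔ e ∈ bE d n := by
  rw [mem_bE, mem_bE]
  rcases g.ok e with ⟨h1, h2⟩ | ⟨h1, h2⟩
  · rw [h1, h2, hg, hg]
  · rw [h1, h2, hg, hg]
    exact And.comm

theorem aut_bE_le (g : LAut d) (k : ℕ) (hg : ∀ x, nm (g.gV x) ≤ nm x + k) (n : ℕ) {e : Ed d}
    (he : e ∈ bE d n) : g.gE e ∈ bE d (n + k) := by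
  rw [mem_bE] at he ⊢
  have h3 := hg ((Zl d).s e)
  have h4 := hg ((Zl d).r e)
  rcases g.ok e with ⟨h1, h2⟩ | ⟨h1, h2⟩
  · rw [h1, h2]
    omega
  · rw [h1, h2]
    omega

end H82.IC
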