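import Pool.Agent.H82.IC.BKC
import Pool.Agent.H82.IC.AU

/-!
# BKD: no percolation if the two point function has vanishing box averages

* `two_clusters`: if `¬ Tri S r 0` for all `r`, then among any three vertices with infinite clusters in `S` two are connected in `S`: take `r` with the three vertices `v_i` in `bx r`.  For each `i` the cluster of
  `v_i` in `S` is the union of the clusters in `S \ bE r` (`ins (til r 0) = bE r`) of those points of `bx r` that are connected to `v_i` in `S` (a cluster of `S \ bE r` contained in the cluster of `v_i` and not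
  meeting `bx r` would be closed under `S`): finite union, so some `w_i ∈ bx r`, `w_i ↔ v_i` in `S`, has an infinite cluster in `S \ bE r`.  If no two `v_i` are connected in `S`, the `w_i` are pairwise not connected
  in `S \ bE r`: `Tri S r 0`.
* `bk_main`: `ρ = ν (perc d)`.  For a finset `Q`, `I ω` = number of `x ∈ Q` with infinite cluster.  Almost surely (`no_tri` for all `r`) the infinite clusters split the `I` points into at most two classes `a + b = I`,
  so `∑_{x,y ∈ Q} 1[x ↔ y] ≥ a² + b² ≥ I²/2`.  Integrate: `∑_{x,y} ν (cn x y) ≥ E[I²]/2 ≥ (E I)²/2 = ρ² |Q|²/2` (Jensen / Cauchy-Schwarz; `TI`: `ν {x infinite} = ρ`; `shf a ω ∈ cn x y ↔ ω ∈ cn (x+a) (y+a)`).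
  With the hypothesis: `ρ²/2 ≤ ε` for all `ε > 0`, so `ρ = 0`.
-/

set_option autoImplicit false

open Finset MeasureTheory Filter Topology

namespace H82.IC

variable {d : ℕ}

theorem shf_cn (a x y : Vx d) (ω : Cf d) : shf a ω ∈ cn x y ↔ ω ∈ cn (x + a) (y + a) := by
  obtain ⟨g, hg, hgE⟩ := exists_trA a
  have h : act g ω = shf a ω := by
    funext e
    change ω (g.gE e) = ω (e.1 + a, e.2)
    rw [hgE]
  have h2 := act_cn g ω x y
  rw [h, hg, hg] at h2
  exact h2

/-- a vertex of the box, connected to `v`, with infinite cluster outside the box. -/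
theorem BKD_branch (S : Set (Ed d)) (r : ℕ) (v : Vx d) (hv : nm v ≤ r)
    (h : ((Zl d).cl S v).Infinite) :
    ∃ w ∈ til r (0 : Vx d), (Zl d).Conn S v w ∧
      ((Zl d).cl (S \ (Zl d).ins (til r (0 : Vx d))) w).Infinite := by
  by_contra hcon
  push Not at hcon
  apply h
  have hsub : (Zl d).cl S v ⊆ ⋃ w ∈ {w : Vx d | w ∈ til r (0 : Vx d) ∧ (Zl d).Conn S v w},
      (Zl d).cl (S \ (Zl d).ins (til r (0 : Vx d))) w := by
    intro z hz
    have hz' : (Zl d).Conn S v z := hz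
    simp only [Set.mem_iUnion]
    induction hz' with
    | refl =>
      refine ⟨v, ⟨?_, conn_refl _ _ _⟩, mem_cl_self _ _ _⟩
      change nm (v - 0) ≤ r
      rwa [sub_zero]
    | @tail b c hb h2 ih =>
      obtain ⟨w, ⟨hw1, hw2⟩, hw3⟩ := ih hb
      obtain ⟨e, he, h1⟩ := h2
      by_cases hK : e ∈ (Zl d).ins (til r (0 : Vx d))
      · have hc : c ∈ til r (0 : Vx d) := by
          rcases h1 with ⟨_, rfl⟩ | ⟨rfl, _⟩
          · exact hK.2
          · exact hK.1
        refine ⟨c, ⟨hc, ?_⟩, mem_cl_self _ _ _⟩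
        exact Relation.ReflTransGen.tail hb ⟨e, he, h1⟩
      · refine ⟨w, ⟨hw1, hw2⟩, ?_⟩
        exact Relation.ReflTransGen.tail hw3 ⟨e, ⟨he, hK⟩, h1⟩
  apply Set.Finite.subset _ hsub
  have hfin : {w : Vx d | w ∈ til r (0 : Vx d) ∧ (Zl d).Conn S v w}.Finite := by
    apply (bx d r).finite_toSet.subset
    rintro w ⟨hw, _⟩
    have hw' : nm (w - 0) ≤ r := hw
    rw [sub_zero] at hw'
    exact Finset.mem_coe.mpr (mem_bx.mpr hw')
  apply hfin.biUnion
  rintro w ⟨hw1, hw2⟩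
  exact hcon w hw1 hw2

theorem two_clusters (hd : 1 ≤ d) (S : Set (Ed d)) (h : ∀ r, ¬ Tri S r 0) (v1 v2 v3 : Vx d)
    (h1 : ((Zl d).cl S v1).Infinite) (h2 : ((Zl d).cl S v2).Infinite)
    (h3 : ((Zl d).cl S v3).Infinite) :
    (Zl d).Conn S v1 v2 ∨ (Zl d).Conn S v1 v3 ∨ (Zl d).Conn S v2 v3 := by
  by_contra hcon
  push Not at hcon
  obtain ⟨n12, n13, n23⟩ := hcon
  obtain ⟨r, hr⟩ : ∃ r : ℕ, r = nm v1 + nm v2 + nm v3 := ⟨_, rfl⟩
  obtain ⟨w1, m1, c1, i1⟩ := BKD_branch S r v1 (by omega) h1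
  obtain ⟨w2, m2, c2, i2⟩ := BKD_branch S r v2 (by omega) h2
  obtain ⟨w3, m3, c3, i3⟩ := BKD_branch S r v3 (by omega) h3
  apply h r
  refine ⟨w1, m1, w2, m2, w3, m3, i1, i2, i3, ?_, ?_, ?_⟩
  · intro hc
    exact n12 (conn_trans _ c1 (conn_trans _ (conn_mono _ Set.sdiff_subset hc) (conn_symm _ c2)))
  · intro hc
    exact n13 (conn_trans _ c1 (conn_trans _ (conn_mono _ Set.sdiff_subset hc) (conn_symm _ c3)))
  · intro hc
    exact n23 (conn_trans _ c2 (conn_trans _ (conn_mono _ Set.sdiff_subset hc) (conn_symm _ c3)))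

theorem BKD_meas_shf (a : Vx d) : Measurable (shf a : Cf d → Cf d) := by
  rw [measurable_pi_iff]
  intro e
  exact measurable_pi_apply (e.1 + a, e.2)

theorem BKD_inf (a : Vx d) (ω : Cf d) :
    shf a ω ∈ perc d ↔ ((Zl d).cl (opn ω) a).Infinite := by
  have h : (fun y => y + a) '' ((Zl d).cl (opn (shf a ω)) 0) = (Zl d).cl (opn ω) a := by
    ext z
    constructor
    · rintro ⟨y, hy, rfl⟩
      have := (shf_cn a 0 y ω).mp hy
      rwa [zero_add] at this
    · intro hz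
      refine ⟨z - a, ?_, sub_add_cancel z a⟩
      apply (shf_cn a 0 (z - a) ω).mpr
      rwa [zero_add, sub_add_cancel]
  rw [← h]
  exact (Set.infinite_image_iff ((add_left_injective a).injOn)).symm

/-- two classes: finite counting. -/
theorem BKD_count (S : Set (Ed d)) (h3 : ∀ v1 v2 v3 : Vx d, ((Zl d).cl S v1).Infinite →
    ((Zl d).cl S v2).Infinite → ((Zl d).cl S v3).Infinite →
    (Zl d).Conn S v1 v2 ∨ (Zl d).Conn S v1 v3 ∨ (Zl d).Conn S v2 v3) (Q : Finset (Vx d)) :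
    (∑ x ∈ Q, ind ((Zl d).cl S x).Infinite) ^ 2 ≤
      2 * ∑ x ∈ Q, ∑ y ∈ Q, ind ((Zl d).Conn S x y) := by
  classical
  have hA : ∑ x ∈ Q, ind ((Zl d).cl S x).Infinite
      = ((Q.filter (fun x => ((Zl d).cl S x).Infinite)).card : ℝ) := by
    rw [Finset.card_filter]
    push_cast
    apply Finset.sum_congr rfl
    intro x _
    unfold ind
    split_ifs <;> rfl
  have hB : ∑ x ∈ Q, ∑ y ∈ Q, ind ((Zl d).Conn S x y)
      = (((Q ×ˢ Q).filter (fun p => (Zl d).Conn S p.1 p.2)).card : ℝ) := by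
    rw [Finset.card_filter, Finset.sum_product]
    push_cast
    apply Finset.sum_congr rfl
    intro x _
    apply Finset.sum_congr rfl
    intro y _
    unfold ind
    split_ifs <;> rfl
  rw [hA, hB]
  obtain ⟨A, hAd⟩ : ∃ A : Finset (Vx d), A = Q.filter (fun x => ((Zl d).cl S x).Infinite) :=
    ⟨_, rfl⟩
  rw [← hAd]
  rcases A.eq_empty_or_nonempty with h0 | ⟨x0, hx0⟩
  · rw [h0]
    simp
  obtain ⟨A1, hA1⟩ : ∃ A1 : Finset (Vx d), A1 = A.filter (fun x => (Zl d).Conn S x0 x) :=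
    ⟨_, rfl⟩
  obtain ⟨A2, hA2⟩ : ∃ A2 : Finset (Vx d), A2 = A.filter (fun x => ¬ (Zl d).Conn S x0 x) :=
    ⟨_, rfl⟩
  have hcard : A.card = A1.card + A2.card := by
    rw [hA1, hA2, Finset.card_filter_add_card_filter_not]
  have hAmem : ∀ x ∈ A, x ∈ Q ∧ ((Zl d).cl S x).Infinite := by
    intro x hx
    rw [hAd, Finset.mem_filter] at hx
    exact hx
  have hm1 : ∀ x ∈ A1, x ∈ A ∧ (Zl d).Conn S x0 x := by
    intro x hx
    rw [hA1, Finset.mem_filter] at hx
    exact hx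
  have hm2 : ∀ x ∈ A2, x ∈ A ∧ ¬ (Zl d).Conn S x0 x := by
    intro x hx
    rw [hA2, Finset.mem_filter] at hx
    exact hx
  have hsub : (A1 ×ˢ A1) ∪ (A2 ×ˢ A2) ⊆ (Q ×ˢ Q).filter (fun p => (Zl d).Conn S p.1 p.2) := by
    rintro ⟨x, y⟩ hxy
    rw [Finset.mem_filter, Finset.mem_product]
    rw [Finset.mem_union, Finset.mem_product, Finset.mem_product] at hxy
    rcases hxy with ⟨hx, hy⟩ | ⟨hx, hy⟩
    · obtain ⟨a1, a2⟩ := hm1 x hx
      obtain ⟨b1, b2⟩ := hm1 y hy
      exact ⟨⟨(hAmem x a1).1, (hAmem y b1).1⟩, conn_trans _ (conn_symm _ a2) b2⟩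
    · obtain ⟨a1, a2⟩ := hm2 x hx
      obtain ⟨b1, b2⟩ := hm2 y hy
      refine ⟨⟨(hAmem x a1).1, (hAmem y b1).1⟩, ?_⟩
      rcases h3 x0 x y (hAmem x0 hx0).2 (hAmem x a1).2 (hAmem y b1).2 with h | h | h
      · exact absurd h a2
      · exact absurd h b2
      · exact h
  have hdisj : Disjoint (A1 ×ˢ A1) (A2 ×ˢ A2) := by
    rw [Finset.disjoint_left]
    rintro ⟨x, y⟩ hx hx'
    rw [Finset.mem_product] at hx hx'
    exact (hm2 x hx'.1).2 (hm1 x hx.1).2
  have hle := Finset.card_le_card hsub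
  rw [Finset.card_union_of_disjoint hdisj, Finset.card_product, Finset.card_product] at hle
  have hle' : (A1.card : ℝ) * A1.card + (A2.card : ℝ) * A2.card ≤
      (((Q ×ˢ Q).filter (fun p => (Zl d).Conn S p.1 p.2)).card : ℝ) := by exact_mod_cast hle
  rw [hcard]
  push_cast
  nlinarith [sq_nonneg ((A1.card : ℝ) - A2.card)]

theorem BKD_ind_int {ν : Measure (Cf d)} [IsProbabilityMeasure ν] {X : Set (Cf d)}
    (hX : MeasurableSet X) : Integrable (fun ω => ind (ω ∈ X)) ν ∧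
      ∫ ω, ind (ω ∈ X) ∂ν = ν.real X := by
  classical
  have h : (fun ω => ind (ω ∈ X)) = X.indicator (1 : Cf d → ℝ) := by
    funext ω
    unfold ind
    by_cases h : ω ∈ X
    · rw [if_pos h, Set.indicator_of_mem h]
      rfl
    · rw [if_neg h, Set.indicator_of_notMem h]
  rw [h]
  refine ⟨?_, integral_indicator_one hX⟩
  exact (integrable_const (1 : ℝ)).indicator hX

theorem bk_main (hd : 1 ≤ d) (ν : Measure (Cf d)) [IsProbabilityMeasure ν] (hT : TI ν) (C : ℝ)
    (hC : 0 < C) (hI : INS ν C)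
    (hA : ∀ ε : ℝ, 0 < ε → ∃ Q : Finset (Vx d), Q.Nonempty ∧
      ∑ x ∈ Q, ∑ y ∈ Q, ν.real (cn x y) ≤ ε * (Q.card : ℝ) ^ 2) :
    ν.real (perc d) = 0 := by
  obtain ⟨ρ, hρ⟩ : ∃ ρ : ℝ, ρ = ν.real (perc d) := ⟨_, rfl⟩
  have hρ0 : 0 ≤ ρ := by rw [hρ]; exact measureReal_nonneg
  have hInf : ∀ x : Vx d, ν.real {ω : Cf d | shf x ω ∈ perc d} = ρ := by
    intro x
    rw [hT x _ (meas_perc hd), hρ]
  have hmInf : ∀ x : Vx d, MeasurableSet {ω : Cf d | shf x ω ∈ perc d} := fun x =>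
    BKD_meas_shf x (meas_perc hd)
  have hnull : ∀ᵐ ω ∂ν, ∀ r, ¬ Tri (opn ω) r (0 : Vx d) := by
    rw [ae_all_iff]
    intro r
    have h0 := no_tri hd ν hT C hC hI r
    rw [measureReal_eq_zero_iff] at h0
    have h1 : ν {ω | ¬ ¬ Tri (opn ω) r (0 : Vx d)} = 0 := by
      simpa only [not_not] using h0
    exact h1
  have key : ∀ Q : Finset (Vx d), (ρ * Q.card) ^ 2 ≤
      2 * ∑ x ∈ Q, ∑ y ∈ Q, ν.real (cn x y) := by
    intro Q
    obtain ⟨t, ht⟩ : ∃ t : ℝ, t = ρ * Q.card := ⟨_, rfl⟩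
    have hf_int : Integrable (fun ω : Cf d =>
        2 * t * (∑ x ∈ Q, ind (ω ∈ {ω : Cf d | shf x ω ∈ perc d})) - t ^ 2) ν := by
      apply Integrable.sub _ (integrable_const _)
      apply Integrable.const_mul
      exact integrable_finsetSum _ (fun x _ => (BKD_ind_int (hmInf x)).1)
    have hg_int : Integrable (fun ω : Cf d =>
        2 * (∑ x ∈ Q, ∑ y ∈ Q, ind (ω ∈ (cn x y : Set (Cf d))))) ν := by
      apply Integrable.const_mul
      exact integrable_finsetSum _ (fun x _ => integrable_finsetSum _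
        (fun y _ => (BKD_ind_int (meas_cn x y)).1))
    have hmono : ∫ ω : Cf d,
        (2 * t * (∑ x ∈ Q, ind (ω ∈ {ω : Cf d | shf x ω ∈ perc d})) - t ^ 2) ∂ν ≤
        ∫ ω : Cf d, (2 * (∑ x ∈ Q, ∑ y ∈ Q, ind (ω ∈ (cn x y : Set (Cf d))))) ∂ν := by
      apply integral_mono_ae hf_int hg_int
      filter_upwards [hnull] with ω hω
      have hc := BKD_count (opn ω) (two_clusters hd (opn ω) hω) Q
      have he : ∑ x ∈ Q, ind (shf x ω ∈ perc d)
          = ∑ x ∈ Q, ind ((Zl d).cl (opn ω) x).Infinite := by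
        apply Finset.sum_congr rfl
        intro x _
        rw [propext (BKD_inf x ω)]
      rw [he]
      have hsq := sq_nonneg ((∑ x ∈ Q, ind ((Zl d).cl (opn ω) x).Infinite) - t)
      have hc' : (∑ x ∈ Q, ind ((Zl d).cl (opn ω) x).Infinite) ^ 2 ≤
        2 * ∑ x ∈ Q, ∑ y ∈ Q, ind (ω ∈ (cn x y : Set (Cf d))) := hc
      linarith
    rw [integral_sub _ (integrable_const _), integral_const_mul, integral_const_mul,
      integral_finsetSum _ (fun x _ => (BKD_ind_int (hmInf x)).1),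
      integral_finsetSum _ (fun x _ => integrable_finsetSum _
        (fun y _ => (BKD_ind_int (meas_cn x y)).1))] at hmono
    · have e1 : ∑ x ∈ Q, ∫ ω : Cf d, ind (ω ∈ {ω : Cf d | shf x ω ∈ perc d}) ∂ν = t := by
        rw [Finset.sum_congr rfl (fun x _ => (BKD_ind_int (ν := ν) (hmInf x)).2),
          Finset.sum_congr rfl (fun x _ => hInf x), Finset.sum_const, nsmul_eq_mul, ht, mul_comm]
      have e2 : ∑ x ∈ Q, ∫ ω : Cf d, ∑ y ∈ Q, ind (ω ∈ (cn x y : Set (Cf d))) ∂ν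
          = ∑ x ∈ Q, ∑ y ∈ Q, ν.real (cn x y) := by
        apply Finset.sum_congr rfl
        intro x _
        rw [integral_finsetSum _ (fun y _ => (BKD_ind_int (meas_cn x y)).1)]
        apply Finset.sum_congr rfl
        intro y _
        exact (BKD_ind_int (meas_cn x y)).2
      rw [e1, e2] at hmono
      simp only [integral_const, probReal_univ, one_smul] at hmono
      rw [← ht]
      nlinarith
    · apply Integrable.const_mul
      exact integrable_finsetSum _ (fun x _ => (BKD_ind_int (hmInf x)).1)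
  have hsmall : ∀ ε : ℝ, 0 < ε → ρ ^ 2 ≤ 2 * ε := by
    intro ε hε
    obtain ⟨Q, hQ, hQe⟩ := hA ε hε
    have h1 := key Q
    have hq : (0 : ℝ) < Q.card := by exact_mod_cast hQ.card_pos
    have h2 : ρ ^ 2 * (Q.card : ℝ) ^ 2 ≤ 2 * ε * (Q.card : ℝ) ^ 2 := by
      rw [mul_pow] at h1
      linarith
    exact le_of_mul_le_mul_right h2 (by positivity)
  have hρ2 : ρ ^ 2 ≤ 0 := by
    by_contra hcon
    push Not at hcon
    have := hsmall (ρ ^ 2 / 4) (by linarith)
    linarith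
  rw [← hρ]
  nlinarith [sq_nonneg ρ]

end H82.IC
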