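import Pool.Agent.H82.IC.CN

/-!
# BD: boundaries of flows

* `bd_add` etc: `Γ.bd` is additive (`Finset.sum_add_distrib`, `ite` splitting).
* `bd_single`: the boundary of the flow with value `1` on `e` and `0` elsewhere is `src (s e) (r e)`.
* `bd_pr`: componentwise.
* `exists_flow`: induction on the path (`ReflTransGen`): start with the zero flow; a step through `e ∈ ω` adds the
  flow `1_e` (in `ZMod 2`, `src u x + src x y = src u y`, a loop `e` gives `src x x = 0`).
* `bd_cut`: pointwise: if `x ∈ C`, only edges with an end equal to `x` count, and for those with `η e ≠ 0` both ends are in `C`;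
  if `x ∉ C`, the edges with `η e ≠ 0` and an end equal to `x` have no end in `C`.
* `bd_ne_single`: the sum over a finite set `W` containing all ends and `a` of `Γ.bd η x` is
  `∑ e, (η e + η e) = 0` in `ZMod 2`, while the sum of `1_{x=a}` is `1`.
* `conn_of_flow`: apply `bd_cut` with `C = Γ.cl ω u` (every edge of `ω` has both or no ends in `C`, `cl_end`); if `v ∉ C` then the
  boundary of the cut flow is `1_{x=u}` (as `u ≠ v`), contradiction with `bd_ne_single`.
* `conn4_of_flow`: for `S = src a b + src c d` and any `C` closed under `ω`, the number of members of the list `a,b,c,d` in `C` is even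
  (sum over a finite set of the boundary of the cut flow).  Take `C = cl ω a`: `b`, `c` or `d` is in `C`.
  If `b ∈ C`: if `c ∈ C` then `d ∈ C` and all four are connected; if `c ∉ C` then `d ∉ C`, and `C' = cl ω c` contains none of `a, b`, so it contains `d`.
  The other cases are similar.
-/

set_option autoImplicit false

open Finset

namespace H82.IC

section General
variable {V E : Type*} [Fintype E] {A : Type*} [AddCommGroup A]

theorem bd_add (Γ : Gr V E) (η η' : E → A) : Γ.bd (η + η') = Γ.bd η + Γ.bd η' := by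
  funext x
  simp only [Gr.bd, Pi.add_apply]
  rw [← sum_add_distrib]
  refine sum_congr rfl fun e _ => ?_
  split_ifs <;> abel

theorem bd_zero (Γ : Gr V E) : Γ.bd (0 : E → A) = 0 := by
  funext x
  simp [Gr.bd]

theorem bd_cut (Γ : Gr V E) (C : Set V) (η : E → A)
    (h : ∀ e, η e ≠ 0 → (Γ.s e ∈ C ↔ Γ.r e ∈ C)) :
    Γ.bd ((Γ.tch C).indicator η) = C.indicator (Γ.bd η) := by
  funext x
  by_cases hx : x ∈ C
  · rw [Set.indicator_of_mem hx]
    simp only [Gr.bd]
    refine sum_congr rfl fun e _ => ?_
    congr 1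
    · by_cases h1 : Γ.s e = x
      · have h2 : e ∈ Γ.tch C := Or.inl (h1 ▸ hx)
        rw [Set.indicator_of_mem h2]
      · rw [if_neg h1, if_neg h1]
    · by_cases h1 : Γ.r e = x
      · have h2 : e ∈ Γ.tch C := Or.inr (h1 ▸ hx)
        rw [Set.indicator_of_mem h2]
      · rw [if_neg h1, if_neg h1]
  · rw [Set.indicator_of_notMem hx]
    simp only [Gr.bd]
    refine sum_eq_zero fun e _ => ?_
    have h0 : Γ.s e = x ∨ Γ.r e = x → (Γ.tch C).indicator η e = 0 := by
      intro h1
      by_cases h2 : e ∈ Γ.tch C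
      · rw [Set.indicator_of_mem h2]
        by_contra h3
        have h4 := h e h3
        rcases h2 with h2 | h2
        · have h5 := h4.1 h2
          rcases h1 with h1 | h1
          · exact hx (h1 ▸ h2)
          · exact hx (h1 ▸ h5)
        · have h5 := h4.2 h2
          rcases h1 with h1 | h1
          · exact hx (h1 ▸ h5)
          · exact hx (h1 ▸ h2)
      · rw [Set.indicator_of_notMem h2]
    by_cases h1 : Γ.s e = x
    · rw [h0 (Or.inl h1)]
      simp
    · by_cases h2 : Γ.r e = x
      · rw [h0 (Or.inr h2)]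
        simp
      · rw [if_neg h1, if_neg h2, add_zero]

end General

variable {V E : Type*} [Fintype E]

theorem src_self (u : V) : src u u = 0 := by
  funext x
  simp only [src, Pi.zero_apply]
  exact CharTwo.add_self_eq_zero _

theorem src_comm (u v : V) : src u v = src v u := by
  funext x
  simp only [src]
  exact add_comm _ _

theorem src_add (u v w : V) : src u v + src v w = src u w := by
  funext x
  simp only [src, Pi.add_apply]
  have h : ∀ a b c : ZMod 2, a + b + (b + c) = a + c := by decide
  exact h _ _ _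

theorem src_add_self (u v : V) : src u v + src u v = 0 := by
  funext x
  simp only [Pi.add_apply, Pi.zero_apply]
  exact CharTwo.add_self_eq_zero _

theorem bd_pr (Γ : Gr V E) (η : E → ZMod 2 × ZMod 2) :
    Γ.bd η = pr (Γ.bd (fun e => (η e).1)) (Γ.bd (fun e => (η e).2)) := by
  funext x
  simp only [pr, Gr.bd]
  refine Prod.ext ?_ ?_
  · rw [Prod.fst_sum]
    refine sum_congr rfl fun e _ => ?_
    split_ifs <;> simp
  · rw [Prod.snd_sum]
    refine sum_congr rfl fun e _ => ?_
    split_ifs <;> simp

theorem pr_inj (S T S' T' : V → ZMod 2) : pr S T = pr S' T' ↔ S = S' ∧ T = T' := by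
  constructor
  · intro h
    refine ⟨funext fun x => ?_, funext fun x => ?_⟩
    · exact congrArg Prod.fst (congrFun h x)
    · exact congrArg Prod.snd (congrFun h x)
  · rintro ⟨rfl, rfl⟩
    rfl

theorem pr_add (S T S' T' : V → ZMod 2) : pr S T + pr S' T' = pr (S + S') (T + T') := rfl

theorem pr_indicator (C : Set V) (S T : V → ZMod 2) :
    C.indicator (pr S T) = pr (C.indicator S) (C.indicator T) := by
  funext x
  show C.indicator (pr S T) x = (C.indicator S x, C.indicator T x)
  by_cases hx : x ∈ C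
  · rw [Set.indicator_of_mem hx, Set.indicator_of_mem hx, Set.indicator_of_mem hx]
    rfl
  · rw [Set.indicator_of_notMem hx, Set.indicator_of_notMem hx, Set.indicator_of_notMem hx]
    rfl

/-- the flow with value one on a single edge -/
noncomputable def BD_one (e : E) : E → ZMod 2 := open Classical in fun e' => if e' = e then 1 else 0

omit [Fintype E] in
theorem BD_one_ne {e e' : E} (h : BD_one e e' ≠ 0) : e' = e := by
  by_contra h1
  apply h
  unfold BD_one
  rw [if_neg h1]

theorem BD_bd_one (Γ : Gr V E) (e : E) : Γ.bd (BD_one e) = src (Γ.s e) (Γ.r e) := by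
  funext x
  simp only [Gr.bd, src]
  rw [Finset.sum_eq_single e]
  · have h1 : BD_one e e = 1 := by
      unfold BD_one
      rw [if_pos rfl]
    rw [h1]
    congr 1
    · by_cases h : Γ.s e = x
      · rw [if_pos h, if_pos h.symm]
      · rw [if_neg h, if_neg (Ne.symm h)]
    · by_cases h : Γ.r e = x
      · rw [if_pos h, if_pos h.symm]
      · rw [if_neg h, if_neg (Ne.symm h)]
  · intro e' _ he'
    have h1 : BD_one e e' = 0 := by
      unfold BD_one
      rw [if_neg he']
    rw [h1]
    simp
  · intro h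
    exact absurd (mem_univ e) h

theorem exists_flow (Γ : Gr V E) {ω : Set E} {u v : V} (h : Γ.Conn ω u v) :
    ∃ c : E → ZMod 2, Γ.bd c = src u v ∧ ∀ e, c e ≠ 0 → e ∈ ω := by
  induction h with
  | refl => exact ⟨0, by rw [bd_zero, src_self], fun e he => absurd rfl he⟩
  | @tail b' c' _ hstep ih =>
    obtain ⟨c, hc, hcω⟩ := ih
    obtain ⟨e, he, hends⟩ := hstep
    refine ⟨c + BD_one e, ?_, fun e' he' => ?_⟩
    · rw [bd_add, hc, BD_bd_one]
      rcases hends with ⟨h1, h2⟩ | ⟨h1, h2⟩
      · rw [h1, h2, src_add]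
      · rw [h1, h2, src_comm c' b', src_add]
    · by_cases h1 : c e' = 0
      · rw [Pi.add_apply, h1, zero_add] at he'
        rw [BD_one_ne he']
        exact he
      · exact hcω e' h1

theorem BD_par (Γ : Gr V E) (η : E → ZMod 2) (W : Finset V) (h1 : ∀ e, Γ.s e ∈ W)
    (h2 : ∀ e, Γ.r e ∈ W) : ∑ x ∈ W, Γ.bd η x = 0 := by
  classical
  have h3 : ∀ x, Γ.bd η x = ∑ e, ((if Γ.s e = x then η e else 0) + (if Γ.r e = x then η e else 0)) := by
    intro x
    simp only [Gr.bd]
  simp only [h3]
  rw [sum_comm]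
  refine sum_eq_zero fun e _ => ?_
  rw [sum_add_distrib, Finset.sum_ite_eq, Finset.sum_ite_eq, if_pos (h1 e), if_pos (h2 e)]
  exact CharTwo.add_self_eq_zero _

theorem bd_ne_single (Γ : Gr V E) (η : E → ZMod 2) (a : V) :
    Γ.bd η ≠ ({a} : Set V).indicator 1 := by
  classical
  intro h
  set W : Finset V := (univ.image Γ.s ∪ univ.image Γ.r) ∪ {a} with hW
  have h1 := BD_par Γ η W (fun e => by simp [hW]) (fun e => by simp [hW])
  rw [h] at h1
  have h2 : ∑ x ∈ W, ({a} : Set V).indicator (1 : V → ZMod 2) x = 1 := by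
    rw [Finset.sum_eq_single a]
    · simp
    · intro b _ hb
      simp [hb]
    · intro ha
      exact absurd (by simp [hW]) ha
  rw [h2] at h1
  exact absurd h1 (by decide)

theorem BD_par4 (Γ : Gr V E) {C : Set V} {ω : Set E} (hC : ∀ e ∈ ω, (Γ.s e ∈ C ↔ Γ.r e ∈ C))
    {a b c d : V} {η : E → ZMod 2}
    (hη : Γ.bd η = src a b + src c d) (hs : ∀ e, η e ≠ 0 → e ∈ ω) :
    C.indicator (1 : V → ZMod 2) a + C.indicator (1 : V → ZMod 2) b +
      (C.indicator (1 : V → ZMod 2) c + C.indicator (1 : V → ZMod 2) d) = 0 := by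
  classical
  have h1 := bd_cut Γ C η (fun e he => hC e (hs e he))
  rw [hη] at h1
  set W : Finset V := (univ.image Γ.s ∪ univ.image Γ.r) ∪ {a, b, c, d} with hW
  have h2 := BD_par Γ ((Γ.tch C).indicator η) W (fun e => by simp [hW]) (fun e => by simp [hW])
  rw [h1] at h2
  have h3 : ∀ x, C.indicator (src a b + src c d) x =
      (if x = a then C.indicator (1 : V → ZMod 2) a else 0) +
      (if x = b then C.indicator (1 : V → ZMod 2) b else 0) +
      ((if x = c then C.indicator (1 : V → ZMod 2) c else 0) +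
      (if x = d then C.indicator (1 : V → ZMod 2) d else 0)) := by
    intro x
    have h4 : ∀ u : V, (if x = u then C.indicator (1 : V → ZMod 2) u else 0) =
        if x = u then C.indicator (1 : V → ZMod 2) x else 0 := by
      intro u
      by_cases h : x = u
      · rw [if_pos h, if_pos h, h]
      · rw [if_neg h, if_neg h]
    rw [h4, h4, h4, h4]
    by_cases hx : x ∈ C
    · rw [Set.indicator_of_mem hx, Set.indicator_of_mem hx]
      simp only [src, Pi.add_apply, Pi.one_apply]
    · rw [Set.indicator_of_notMem hx, Set.indicator_of_notMem hx]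
      simp
  simp only [h3] at h2
  rw [sum_add_distrib, sum_add_distrib, sum_add_distrib, Finset.sum_ite_eq', Finset.sum_ite_eq',
    Finset.sum_ite_eq', Finset.sum_ite_eq', if_pos (by simp [hW]), if_pos (by simp [hW]),
    if_pos (by simp [hW]), if_pos (by simp [hW])] at h2
  exact h2

theorem conn_of_flow (Γ : Gr V E) {ω : Set E} {u v : V} {η : E → ZMod 2}
    (hη : Γ.bd η = src u v) (hs : ∀ e, η e ≠ 0 → e ∈ ω) : Γ.Conn ω u v := by
  classical
  by_contra hv
  have h1 := bd_cut Γ (Γ.cl ω u) η (fun e he => cl_end Γ (hs e he) u)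
  rw [hη] at h1
  refine bd_ne_single Γ _ u (h1.trans ?_)
  have hu : u ∈ Γ.cl ω u := mem_cl_self Γ ω u
  have hv' : v ∉ Γ.cl ω u := hv
  funext x
  by_cases hx : x ∈ Γ.cl ω u
  · rw [Set.indicator_of_mem hx]
    have hxv : x ≠ v := fun h => hv' (h ▸ hx)
    simp only [src]
    rw [if_neg hxv, add_zero]
    by_cases hxu : x = u
    · rw [if_pos hxu, Set.indicator_of_mem (show x ∈ ({u} : Set V) from hxu), Pi.one_apply]
    · rw [if_neg hxu, Set.indicator_of_notMem (show x ∉ ({u} : Set V) from hxu)]
  · rw [Set.indicator_of_notMem hx]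
    have hxu : x ∉ ({u} : Set V) := fun h => hx (by rw [Set.mem_singleton_iff] at h; rwa [h])
    rw [Set.indicator_of_notMem hxu]

theorem conn4_of_flow (Γ : Gr V E) {ω : Set E} {a b c d : V} {η : E → ZMod 2}
    (hη : Γ.bd η = src a b + src c d) (hs : ∀ e, η e ≠ 0 → e ∈ ω) :
    (Γ.Conn ω a b ∧ Γ.Conn ω c d) ∨ (Γ.Conn ω a c ∧ Γ.Conn ω b d) ∨
      (Γ.Conn ω a d ∧ Γ.Conn ω b c) := by
  have key : ∀ o : V, (Γ.cl ω o).indicator (1 : V → ZMod 2) a +
      (Γ.cl ω o).indicator (1 : V → ZMod 2) b +
      ((Γ.cl ω o).indicator (1 : V → ZMod 2) c + (Γ.cl ω o).indicator (1 : V → ZMod 2) d) = 0 :=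
    fun o => BD_par4 Γ (fun e he => cl_end Γ he o) hη hs
  have i1 : ∀ {o x : V}, Γ.Conn ω o x → (Γ.cl ω o).indicator (1 : V → ZMod 2) x = 1 :=
    fun {o x} h => Set.indicator_of_mem (show x ∈ Γ.cl ω o from h) _
  have i0 : ∀ {o x : V}, ¬ Γ.Conn ω o x → (Γ.cl ω o).indicator (1 : V → ZMod 2) x = 0 :=
    fun {o x} h => Set.indicator_of_notMem (show x ∉ Γ.cl ω o from h) _
  have hr : ∀ x, Γ.Conn ω x x := fun x => conn_refl Γ ω x
  have hs' : ∀ {x y}, Γ.Conn ω x y → Γ.Conn ω y x := fun h => conn_symm Γ h
  have ht : ∀ {x y z}, Γ.Conn ω x y → Γ.Conn ω y z → Γ.Conn ω x z := fun h h' => conn_trans Γ h h'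
  have ka := key a
  rw [i1 (hr a)] at ka
  by_cases hab : Γ.Conn ω a b
  · left
    refine ⟨hab, ?_⟩
    rw [i1 hab] at ka
    by_cases hac : Γ.Conn ω a c
    · by_cases had : Γ.Conn ω a d
      · exact ht (hs' hac) had
      · rw [i1 hac, i0 had] at ka
        exact absurd ka (by decide)
    · by_contra hcd
      have kc := key c
      rw [i1 (hr c), i0 hcd, i0 (fun h => hac (hs' h)),
        i0 (fun h => hac (ht hab (hs' h)))] at kc
      exact absurd kc (by decide)
  · rw [i0 hab] at ka
    right
    by_cases hac : Γ.Conn ω a c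
    · left
      refine ⟨hac, ?_⟩
      by_contra hbd
      have kb := key b
      rw [i1 (hr b), i0 hbd, i0 (fun h => hab (hs' h)),
        i0 (fun h => hab (ht hac (hs' h)))] at kb
      exact absurd kb (by decide)
    · rw [i0 hac] at ka
      by_cases had : Γ.Conn ω a d
      · right
        refine ⟨had, ?_⟩
        by_contra hbc
        have kb := key b
        rw [i1 (hr b), i0 hbc, i0 (fun h => hab (hs' h)),
          i0 (fun h => hab (ht had (hs' h)))] at kb
        exact absurd kb (by decide)
      · rw [i0 had] at ka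
        exact absurd ka (by decide)

end H82.IC
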