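import Pool.Agent.H82.IC.KC

/-!
# BKA: Burton-Keane, the finite combinatorial lemma

Choose a finset `F ⊆ ω` of minimal cardinality such that for all `x, y ∈ S`: `x ↔ y` in `ω` implies `x ↔ y` in `F`.
(1) `kap F = 1` (no nonzero even subgraph).  Otherwise there is `η ≠ 0` with `bd η = 0` supported in `F` and `e` with `η e ≠ 0`; `η - 1_e` is a flow supported in `F \ {e}` with boundary
    `src (s e) (r e)`, so `s e ↔ r e` in `F.erase e` (`conn_of_flow`), hence connectivity in `F.erase e` and `F` agree (`conn_insert`), contradiction to minimality.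
    In particular `F` has no loop (`s e = r e`).
(2) For all finite `W` containing the ends of `F`: `2^{kG Γ W F} 2^{|F|} = 2^{|W|} kap F` (induction on `F` with `kG_insert`, `kap_insert`; `kG Γ W ∅ = |W|`).  With `kap F = 1`: `kG + |F| = |W|`, and
    `kG ≥ 1` if `W` is nonempty, so `|F| + 1 ≤ |W|`.
(3) Let `deg v = #{e ∈ F : s e = v} + #{e ∈ F : r e = v}`; `W` = the set of `v` with `deg v ≥ 1`; `∑_{v ∈ W} deg v = 2|F|`.
(4) If `deg v = 1` then `v ∈ S`: otherwise the only edge `e` of `F` at `v` could be removed: for `x, y ∈ S` (so `x, y ≠ v`) connected in `F` they are connected in `F.erase e` (`conn_insert`; `v` is connected in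
    `F.erase e` only to itself).
(5) If `c ∈ D` then `deg c ≥ 3` : `s1, s2, s3` are connected to `c`, hence to each other in `ω`, hence in `F`; they are different from `c` (`c ∉ S`) and pairwise not connected in
    `F \ tch {c} ⊆ ω \ tch {c}`.  Since `s_i` is connected in `F` to `s_j` but not in `F \ tch {c}`, by `conn_split` there is an edge `e_i ∈ F ∩ tch {c}` with `s_i` connected in `F \ tch {c}` to an end of `e_i`; if that
    end is `c` then ... (no edge of `F \ tch {c}` has an end at `c`, so a vertex `≠ c` is not connected to `c` in `F \ tch {c}`; so the end is the other end of `e_i`, and `e_i` is not a loop).  If `e_i = e_j` for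
    `i ≠ j` then `s_i`, `s_j` would both be connected in `F \ tch {c}` to the other end of `e_i`, contradiction.  So there are 3 distinct edges at `c`.
(6) If `D` is empty, done.  Otherwise `F` is nonempty, `∑_{v ∈ W} (deg v - 2) = 2|F| - 2|W| ≤ -2`; the terms with `deg v = 1` are `≥ -|S|` in total, the terms with `deg v = 2` vanish, those with
    `deg v ≥ 3` are `≥ 1` each and `D ⊆ {deg ≥ 3}`: `|D| ≤ |S| - 2`.
-/

set_option autoImplicit false

open Finset

namespace H82.IC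

variable {V E : Type*} [Fintype E] [DecidableEq E]

theorem BKA_min (Γ : Gr V E) (ω : Finset E) (S : Finset V) :
    ∃ F : Finset E, F ⊆ ω ∧
      (∀ x ∈ S, ∀ y ∈ S, Γ.Conn (ω : Set E) x y → Γ.Conn (F : Set E) x y) ∧
      (∀ e ∈ F, ¬ (∀ x ∈ S, ∀ y ∈ S, Γ.Conn (ω : Set E) x y →
        Γ.Conn ((F.erase e : Finset E) : Set E) x y)) := by
  classical
  let Q : Finset (Finset E) := ω.powerset.filter
    (fun F => ∀ x ∈ S, ∀ y ∈ S, Γ.Conn (ω : Set E) x y → Γ.Conn (F : Set E) x y)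
  have hQ : Q.Nonempty := by
    refine ⟨ω, ?_⟩
    rw [Finset.mem_filter]
    exact ⟨Finset.mem_powerset.2 (Finset.Subset.refl ω), fun x _ y _ h => h⟩
  obtain ⟨F, hF, hmin⟩ := Finset.exists_min_image Q Finset.card hQ
  rw [Finset.mem_filter] at hF
  refine ⟨F, Finset.mem_powerset.1 hF.1, hF.2, ?_⟩
  intro e he hcon
  have h1 : F.erase e ∈ Q := by
    rw [Finset.mem_filter]
    exact ⟨Finset.mem_powerset.2 ((Finset.erase_subset e F).trans (Finset.mem_powerset.1 hF.1)),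
      hcon⟩
  have h2 := hmin _ h1
  have h3 := Finset.card_erase_lt_of_mem he
  omega

theorem BKA_ins {F : Finset E} {e : E} (he : e ∈ F) :
    (F : Set E) = insert e ((F.erase e : Finset E) : Set E) := by
  rw [← Finset.coe_insert, Finset.insert_erase he]

theorem BKA_end (Γ : Gr V E) {ω : Set E} {x v : V} (h : Γ.Conn ω x v) :
    x = v ∨ ∃ e ∈ ω, Γ.s e = v ∨ Γ.r e = v := by
  rcases Relation.ReflTransGen.cases_tail h with h1 | ⟨b, _, e, he, h2 | h2⟩
  · exact Or.inl h1.symm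
  · exact Or.inr ⟨e, he, Or.inr h2.2⟩
  · exact Or.inr ⟨e, he, Or.inl h2.1⟩

theorem BKA_acyc (Γ : Gr V E) (ω F : Finset E) (S : Finset V)
    (h1 : ∀ x ∈ S, ∀ y ∈ S, Γ.Conn (ω : Set E) x y → Γ.Conn (F : Set E) x y)
    (h2 : ∀ e ∈ F, ¬ (∀ x ∈ S, ∀ y ∈ S, Γ.Conn (ω : Set E) x y →
        Γ.Conn ((F.erase e : Finset E) : Set E) x y)) :
    ∀ e ∈ F, ¬ Γ.Conn ((F.erase e : Finset E) : Set E) (Γ.s e) (Γ.r e) := by
  intro e he hcon
  apply h2 e he
  intro x hx y hy hxy
  have h3 := h1 x hx y hy hxy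
  rw [BKA_ins he, conn_insert] at h3
  rcases h3 with h3 | ⟨h3, h4⟩ | ⟨h3, h4⟩
  · exact h3
  · exact conn_trans Γ (conn_trans Γ h3 hcon) h4
  · exact conn_trans Γ (conn_trans Γ h3 (conn_symm Γ hcon)) h4

theorem BKA_kG_empty (Γ : Gr V E) (W : Finset V) : kG Γ W (∅ : Set E) = W.card := by
  have hcl : ∀ x : V, Γ.cl (∅ : Set E) x = {x} := by
    intro x
    ext y
    constructor
    · intro hy
      rcases BKA_end Γ (show Γ.Conn (∅ : Set E) x y from hy) with h | ⟨e, he, _⟩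
      · exact h.symm
      · exact absurd he (Set.notMem_empty e)
    · intro hy
      rw [Set.mem_singleton_iff] at hy
      rw [hy]
      exact mem_cl_self Γ _ x
  have h1 : {C : Set V | ∃ v ∈ W, C = Γ.cl (∅ : Set E) v} = (fun v : V => ({v} : Set V)) '' (W : Set V) := by
    ext C
    constructor
    · rintro ⟨v, hv, rfl⟩
      exact ⟨v, hv, (hcl v).symm⟩
    · rintro ⟨v, hv, rfl⟩
      exact ⟨v, hv, (hcl v).symm⟩
  unfold kG
  rw [h1, Set.ncard_image_of_injective _ Set.singleton_injective, Set.ncard_coe_finset]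

theorem BKA_count (Γ : Gr V E) (F : Finset E) (W : Finset V)
    (hW : ∀ e ∈ F, Γ.s e ∈ W ∧ Γ.r e ∈ W)
    (hac : ∀ e ∈ F, ¬ Γ.Conn ((F.erase e : Finset E) : Set E) (Γ.s e) (Γ.r e)) :
    ∀ G : Finset E, G ⊆ F → kG Γ W (G : Set E) + G.card = W.card := by
  intro G
  induction G using Finset.induction_on with
  | empty =>
    intro _
    rw [Finset.coe_empty, BKA_kG_empty, Finset.card_empty, add_zero]
  | @insert e G he ih =>
    intro hG
    have heF : e ∈ F := hG (Finset.mem_insert_self e G)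
    have hGF : G ⊆ F := fun x hx => hG (Finset.mem_insert_of_mem hx)
    have h1 := ih hGF
    have h2 : ¬ Γ.Conn (G : Set E) (Γ.s e) (Γ.r e) := by
      intro hc
      refine hac e heF (conn_mono Γ ?_ hc)
      intro x hx
      have hx' : x ∈ G := hx
      refine Finset.mem_coe.2 (Finset.mem_erase.2 ⟨?_, hGF hx'⟩)
      rintro rfl
      exact he hx'
    have h3 := kG_insert Γ W (G : Set E) e (hW e heF).1 (hW e heF).2
    have h4 : ind (Γ.Conn (G : Set E) (Γ.s e) (Γ.r e)) = 0 := by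
      unfold ind
      exact if_neg h2
    rw [h4, sub_zero, ← pow_succ] at h3
    have h5 : kG Γ W (G : Set E) = kG Γ W (insert e (G : Set E)) + 1 :=
      (pow_right_injective₀ (by norm_num : (0 : ℝ) < 2) (by norm_num : (2 : ℝ) ≠ 1)) h3
    rw [Finset.coe_insert, Finset.card_insert_of_notMem he]
    omega

theorem BKA_kG_pos (Γ : Gr V E) (W : Finset V) (hW : W.Nonempty) (ω : Set E) :
    1 ≤ kG Γ W ω := by
  unfold kG
  rw [Nat.one_le_iff_ne_zero, Ne, Set.ncard_eq_zero (KC_fin Γ W ω)]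
  intro h
  obtain ⟨v, hv⟩ := hW
  have h1 : Γ.cl ω v ∈ {C : Set V | ∃ v ∈ W, C = Γ.cl ω v} := ⟨v, hv, rfl⟩
  rw [h] at h1
  exact h1

theorem BKA_edge (Γ : Gr V E) (F : Finset E) (c a b : V) (hac : a ≠ c)
    (h : Γ.Conn (F : Set E) a b) (h' : ¬ Γ.Conn ((F : Set E) \ Γ.tch {c}) a b) :
    ∃ e ∈ F, (Γ.s e = c ∧ Γ.r e ≠ c ∧ Γ.Conn ((F : Set E) \ Γ.tch {c}) a (Γ.r e)) ∨
      (Γ.r e = c ∧ Γ.s e ≠ c ∧ Γ.Conn ((F : Set E) \ Γ.tch {c}) a (Γ.s e)) := by
  have hnc : ¬ Γ.Conn ((F : Set E) \ Γ.tch {c}) a c := by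
    intro hc
    rcases BKA_end Γ hc with h1 | ⟨e, he, h1⟩
    · exact hac h1
    · exact he.2 h1
  obtain ⟨e, he, h1⟩ := conn_split Γ h h'
  have heK : Γ.s e = c ∨ Γ.r e = c := he.2
  refine ⟨e, he.1, ?_⟩
  rcases h1 with h1 | h1
  · have h2 : Γ.s e ≠ c := by
      intro h3
      rw [h3] at h1
      exact hnc h1
    exact Or.inr ⟨heK.resolve_left h2, h2, h1⟩
  · have h2 : Γ.r e ≠ c := by
      intro h3
      rw [h3] at h1
      exact hnc h1
    exact Or.inl ⟨heK.resolve_right h2, h2, h1⟩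

theorem BKA_ne (Γ : Gr V E) (ω : Set E) (c a b : V) (e e' : E)
    (h : (Γ.s e = c ∧ Γ.r e ≠ c ∧ Γ.Conn ω a (Γ.r e)) ∨
      (Γ.r e = c ∧ Γ.s e ≠ c ∧ Γ.Conn ω a (Γ.s e)))
    (h' : (Γ.s e' = c ∧ Γ.r e' ≠ c ∧ Γ.Conn ω b (Γ.r e')) ∨
      (Γ.r e' = c ∧ Γ.s e' ≠ c ∧ Γ.Conn ω b (Γ.s e')))
    (hab : ¬ Γ.Conn ω a b) : e ≠ e' := by
  rintro rfl
  rcases h with h | h <;> rcases h' with h' | h'
  · exact hab (conn_trans Γ h.2.2 (conn_symm Γ h'.2.2))
  · exact h.2.1 h'.1
  · exact h.2.1 h'.1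
  · exact hab (conn_trans Γ h.2.2 (conn_symm Γ h'.2.2))

theorem BKA_three [DecidableEq V] (Γ : Gr V E) (F : Finset E) (c s1 s2 s3 : V)
    (h1 : s1 ≠ c) (h2 : s2 ≠ c) (h3 : s3 ≠ c)
    (h12 : Γ.Conn (F : Set E) s1 s2) (h23 : Γ.Conn (F : Set E) s2 s3)
    (h31 : Γ.Conn (F : Set E) s3 s1)
    (n12 : ¬ Γ.Conn ((F : Set E) \ Γ.tch {c}) s1 s2)
    (n13 : ¬ Γ.Conn ((F : Set E) \ Γ.tch {c}) s1 s3)
    (n23 : ¬ Γ.Conn ((F : Set E) \ Γ.tch {c}) s2 s3) :
    3 ≤ (F.filter (fun e => Γ.s e = c)).card + (F.filter (fun e => Γ.r e = c)).card := by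
  obtain ⟨e1, he1, p1⟩ := BKA_edge Γ F c s1 s2 h1 h12 n12
  obtain ⟨e2, he2, p2⟩ := BKA_edge Γ F c s2 s3 h2 h23 n23
  obtain ⟨e3, he3, p3⟩ := BKA_edge Γ F c s3 s1 h3 h31 (fun h => n13 (conn_symm Γ h))
  have d12 := BKA_ne Γ _ c s1 s2 e1 e2 p1 p2 n12
  have d13 := BKA_ne Γ _ c s1 s3 e1 e3 p1 p3 n13
  have d23 := BKA_ne Γ _ c s2 s3 e2 e3 p2 p3 n23
  have hc : ({e1, e2, e3} : Finset E).card = 3 := Finset.card_eq_three.2
    ⟨e1, e2, e3, d12, d13, d23, rfl⟩
  rw [← hc]
  refine le_trans (Finset.card_le_card ?_) (Finset.card_union_le _ _)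
  intro e he
  rw [Finset.mem_insert, Finset.mem_insert, Finset.mem_singleton] at he
  rw [Finset.mem_union, Finset.mem_filter, Finset.mem_filter]
  rcases he with rfl | rfl | rfl
  · rcases p1 with p | p
    · exact Or.inl ⟨he1, p.1⟩
    · exact Or.inr ⟨he1, p.1⟩
  · rcases p2 with p | p
    · exact Or.inl ⟨he2, p.1⟩
    · exact Or.inr ⟨he2, p.1⟩
  · rcases p3 with p | p
    · exact Or.inl ⟨he3, p.1⟩
    · exact Or.inr ⟨he3, p.1⟩

theorem BKA_leaf_aux (Γ : Gr V E) (ω F : Finset E) (S : Finset V)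
    (h1 : ∀ x ∈ S, ∀ y ∈ S, Γ.Conn (ω : Set E) x y → Γ.Conn (F : Set E) x y)
    (h2 : ∀ e ∈ F, ¬ (∀ x ∈ S, ∀ y ∈ S, Γ.Conn (ω : Set E) x y →
        Γ.Conn ((F.erase e : Finset E) : Set E) x y)) (v : V) (e : E) (he : e ∈ F)
    (hev : Γ.s e = v ∨ Γ.r e = v)
    (hun : ∀ e' ∈ F, e' ≠ e → Γ.s e' ≠ v ∧ Γ.r e' ≠ v) : v ∈ S := by
  by_contra hv
  apply h2 e he
  intro x hx y hy hxy
  have h3 := h1 x hx y hy hxy
  have hn : ∀ z ∈ S, ¬ Γ.Conn ((F.erase e : Finset E) : Set E) z v := by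
    intro z hz hc
    rcases BKA_end Γ hc with h4 | ⟨e', he', h4⟩
    · rw [h4] at hz
      exact hv hz
    · have h5 : e' ∈ F.erase e := he'
      rw [Finset.mem_erase] at h5
      have h6 := hun e' h5.2 h5.1
      rcases h4 with h4 | h4
      · exact h6.1 h4
      · exact h6.2 h4
  rw [BKA_ins he, conn_insert] at h3
  rcases h3 with h3 | ⟨h3, h4⟩ | ⟨h3, h4⟩
  · exact h3
  · exfalso
    rcases hev with hev | hev
    · rw [hev] at h3
      exact hn x hx h3
    · rw [hev] at h4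
      exact hn y hy (conn_symm Γ h4)
  · exfalso
    rcases hev with hev | hev
    · rw [hev] at h4
      exact hn y hy (conn_symm Γ h4)
    · rw [hev] at h3
      exact hn x hx h3

theorem BKA_leaf [DecidableEq V] (Γ : Gr V E) (ω F : Finset E) (S : Finset V)
    (h1 : ∀ x ∈ S, ∀ y ∈ S, Γ.Conn (ω : Set E) x y → Γ.Conn (F : Set E) x y)
    (h2 : ∀ e ∈ F, ¬ (∀ x ∈ S, ∀ y ∈ S, Γ.Conn (ω : Set E) x y →
        Γ.Conn ((F.erase e : Finset E) : Set E) x y)) (v : V)
    (hd : (F.filter (fun e => Γ.s e = v)).card + (F.filter (fun e => Γ.r e = v)).card = 1) :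
    v ∈ S := by
  have hcase : ((F.filter (fun e => Γ.s e = v)).card = 1 ∧
      (F.filter (fun e => Γ.r e = v)).card = 0) ∨
      ((F.filter (fun e => Γ.s e = v)).card = 0 ∧ (F.filter (fun e => Γ.r e = v)).card = 1) := by
    omega
  rcases hcase with ⟨ha, hb⟩ | ⟨hb, ha⟩
  · obtain ⟨e, he⟩ := Finset.card_eq_one.1 ha
    rw [Finset.card_eq_zero] at hb
    have he1 : e ∈ F.filter (fun e => Γ.s e = v) := by
      rw [he]
      exact Finset.mem_singleton_self e
    rw [Finset.mem_filter] at he1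
    refine BKA_leaf_aux Γ ω F S h1 h2 v e he1.1 (Or.inl he1.2) ?_
    intro e' he' hne
    constructor
    · intro h3
      have h4 : e' ∈ F.filter (fun e => Γ.s e = v) := Finset.mem_filter.2 ⟨he', h3⟩
      rw [he, Finset.mem_singleton] at h4
      exact hne h4
    · intro h3
      have h4 : e' ∈ F.filter (fun e => Γ.r e = v) := Finset.mem_filter.2 ⟨he', h3⟩
      rw [hb] at h4
      exact absurd h4 (Finset.notMem_empty e')
  · obtain ⟨e, he⟩ := Finset.card_eq_one.1 ha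
    rw [Finset.card_eq_zero] at hb
    have he1 : e ∈ F.filter (fun e => Γ.r e = v) := by
      rw [he]
      exact Finset.mem_singleton_self e
    rw [Finset.mem_filter] at he1
    refine BKA_leaf_aux Γ ω F S h1 h2 v e he1.1 (Or.inr he1.2) ?_
    intro e' he' hne
    constructor
    · intro h3
      have h4 : e' ∈ F.filter (fun e => Γ.s e = v) := Finset.mem_filter.2 ⟨he', h3⟩
      rw [hb] at h4
      exact absurd h4 (Finset.notMem_empty e')
    · intro h3
      have h4 : e' ∈ F.filter (fun e => Γ.r e = v) := Finset.mem_filter.2 ⟨he', h3⟩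
      rw [he, Finset.mem_singleton] at h4
      exact hne h4

theorem BKA_final [DecidableEq V] (W S D : Finset V) (deg : V → ℕ) (n : ℕ)
    (hsum : ∑ v ∈ W, deg v = 2 * n) (hn : W.Nonempty → n + 1 ≤ W.card)
    (hpos : ∀ v ∈ W, 1 ≤ deg v) (hleaf : ∀ v ∈ W, deg v = 1 → v ∈ S)
    (hD : ∀ c ∈ D, 3 ≤ deg c) (hDW : D ⊆ W) (hSD : ∀ c ∈ D, c ∉ S) : D.card ≤ S.card := by
  by_cases hW : W.Nonempty
  · have h1 : ∀ v ∈ W, (if v ∈ D then (1 : ℤ) else 0) - (if v ∈ S then (1 : ℤ) else 0) ≤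
        (deg v : ℤ) - 2 := by
      intro v hv
      by_cases hvD : v ∈ D
      · rw [if_pos hvD, if_neg (hSD v hvD)]
        have := hD v hvD
        omega
      · rw [if_neg hvD]
        by_cases hvS : v ∈ S
        · rw [if_pos hvS]
          have := hpos v hv
          omega
        · rw [if_neg hvS]
          have h2 := hpos v hv
          have h3 : deg v ≠ 1 := fun h => hvS (hleaf v hv h)
          omega
    have h2 := Finset.sum_le_sum h1
    rw [Finset.sum_sub_distrib, Finset.sum_sub_distrib, Finset.sum_const, nsmul_eq_mul,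
      ← Finset.sum_filter, ← Finset.sum_filter, Finset.sum_const, Finset.sum_const,
      nsmul_eq_mul, nsmul_eq_mul, ← Nat.cast_sum, hsum] at h2
    have h3 : W.filter (fun v => v ∈ D) = D := by
      ext v
      rw [Finset.mem_filter]
      exact ⟨fun h => h.2, fun h => ⟨hDW h, h⟩⟩
    have h4 : (W.filter (fun v => v ∈ S)).card ≤ S.card := by
      refine Finset.card_le_card ?_
      intro v hv
      exact (Finset.mem_filter.1 hv).2
    rw [h3] at h2
    have h5 := hn hW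
    push_cast at h2
    have h6 : ((W.filter (fun v => v ∈ S)).card : ℤ) ≤ (S.card : ℤ) := by exact_mod_cast h4
    have h7 : (n : ℤ) + 1 ≤ (W.card : ℤ) := by exact_mod_cast h5
    have h8 : (D.card : ℤ) ≤ (S.card : ℤ) := by linarith
    exact_mod_cast h8
  · rw [Finset.not_nonempty_iff_eq_empty] at hW
    rw [hW, Finset.subset_empty] at hDW
    rw [hDW, Finset.card_empty]
    exact Nat.zero_le _

theorem bk_finite (Γ : Gr V E) (ω : Finset E) (S D : Finset V) (hSD : ∀ c ∈ D, c ∉ S)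
    (h : ∀ c ∈ D, ∃ s1 ∈ S, ∃ s2 ∈ S, ∃ s3 ∈ S, Γ.Conn (ω : Set E) c s1 ∧
      Γ.Conn (ω : Set E) c s2 ∧ Γ.Conn (ω : Set E) c s3 ∧
      ¬ Γ.Conn ((ω : Set E) \ Γ.tch {c}) s1 s2 ∧ ¬ Γ.Conn ((ω : Set E) \ Γ.tch {c}) s1 s3 ∧
      ¬ Γ.Conn ((ω : Set E) \ Γ.tch {c}) s2 s3) : D.card ≤ S.card := by
  classical
  obtain ⟨F, hFω, hF1, hF2⟩ := BKA_min Γ ω S
  have hac := BKA_acyc Γ ω F S hF1 hF2
  let W : Finset V := F.image Γ.s ∪ F.image Γ.r
  have hWe : ∀ e ∈ F, Γ.s e ∈ W ∧ Γ.r e ∈ W := fun e he =>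
    ⟨Finset.mem_union_left _ (Finset.mem_image_of_mem _ he),
      Finset.mem_union_right _ (Finset.mem_image_of_mem _ he)⟩
  have hcount := BKA_count Γ F W hWe hac F (Finset.Subset.refl F)
  let deg : V → ℕ := fun v => (F.filter (fun e => Γ.s e = v)).card +
    (F.filter (fun e => Γ.r e = v)).card
  have hsum : ∑ v ∈ W, deg v = 2 * F.card := by
    show ∑ v ∈ W, ((F.filter (fun e => Γ.s e = v)).card +
      (F.filter (fun e => Γ.r e = v)).card) = 2 * F.card
    rw [Finset.sum_add_distrib,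
      ← Finset.card_eq_sum_card_fiberwise (f := Γ.s) (s := F) (t := W) (fun e he => (hWe e he).1),
      ← Finset.card_eq_sum_card_fiberwise (f := Γ.r) (s := F) (t := W) (fun e he => (hWe e he).2)]
    ring
  have hmemW : ∀ v, 1 ≤ deg v → v ∈ W := by
    intro v hv
    have h1 : 0 < (F.filter (fun e => Γ.s e = v)).card ∨
        0 < (F.filter (fun e => Γ.r e = v)).card := by
      have h2 : 1 ≤ (F.filter (fun e => Γ.s e = v)).card +
        (F.filter (fun e => Γ.r e = v)).card := hv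
      omega
    rcases h1 with h1 | h1
    · obtain ⟨e, he⟩ := Finset.card_pos.1 h1
      rw [Finset.mem_filter] at he
      rw [← he.2]
      exact (hWe e he.1).1
    · obtain ⟨e, he⟩ := Finset.card_pos.1 h1
      rw [Finset.mem_filter] at he
      rw [← he.2]
      exact (hWe e he.1).2
  have hposW : ∀ v ∈ W, 1 ≤ deg v := by
    intro v hv
    show 1 ≤ (F.filter (fun e => Γ.s e = v)).card + (F.filter (fun e => Γ.r e = v)).card
    rcases Finset.mem_union.1 hv with hv | hv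
    · obtain ⟨e, he, hev⟩ := Finset.mem_image.1 hv
      have h1 : 0 < (F.filter (fun e => Γ.s e = v)).card :=
        Finset.card_pos.2 ⟨e, Finset.mem_filter.2 ⟨he, hev⟩⟩
      omega
    · obtain ⟨e, he, hev⟩ := Finset.mem_image.1 hv
      have h1 : 0 < (F.filter (fun e => Γ.r e = v)).card :=
        Finset.card_pos.2 ⟨e, Finset.mem_filter.2 ⟨he, hev⟩⟩
      omega
  have hD3 : ∀ c ∈ D, 3 ≤ deg c := by
    intro c hc
    obtain ⟨s1, hs1, s2, hs2, s3, hs3, c1, c2, c3, n12, n13, n23⟩ := h c hc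
    have hne : ∀ s ∈ S, s ≠ c := by
      rintro s hs rfl
      exact hSD s hc hs
    have hm : ∀ x y : V, ¬ Γ.Conn ((ω : Set E) \ Γ.tch {c}) x y →
        ¬ Γ.Conn ((F : Set E) \ Γ.tch {c}) x y := by
      intro x y hxy hxy'
      refine hxy (conn_mono Γ ?_ hxy')
      intro e he
      exact ⟨hFω he.1, he.2⟩
    exact BKA_three Γ F c s1 s2 s3 (hne s1 hs1) (hne s2 hs2) (hne s3 hs3)
      (hF1 s1 hs1 s2 hs2 (conn_trans Γ (conn_symm Γ c1) c2))
      (hF1 s2 hs2 s3 hs3 (conn_trans Γ (conn_symm Γ c2) c3))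
      (hF1 s3 hs3 s1 hs1 (conn_trans Γ (conn_symm Γ c3) c1))
      (hm _ _ n12) (hm _ _ n13) (hm _ _ n23)
  refine BKA_final W S D deg F.card hsum ?_ hposW ?_ hD3 ?_ hSD
  · intro hW
    have h1 := BKA_kG_pos Γ W hW (F : Set E)
    omega
  · intro v _ hv
    exact BKA_leaf Γ ω F S hF1 hF2 v hv
  · intro c hc
    refine hmemW c ?_
    have := hD3 c hc
    omega

end H82.IC
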