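import Pool.Agent.H82.IC.FK1

/-!
# FE: finite energy

Write `W ω = kap ω (∏_{ω} t) (∏_{ωᶜ} (1-t))` (`fkS_eq`).
* closing: `kap (ω \ F) ≥ 2^{-|F|} kap ω` (`kap_le` with `ω ⊆ (ω \ F) ∪ F` and `kap_mono`), product factor: for `e ∈ ω ∩ F` we replace `t e ≤ 1` by `1 - t e`:
  `W (ω \ F) ≥ (∏_{e ∈ F} (1 - t e) / 2) W ω`.  Each `ω''` disjoint from `F` is `ω \ F` for `2^|F|` configurations `ω`, so for `f ≥ 0`
  `∑_ω f(ω \ F) W ω ≤ (∏ 2/(1-t e)) ∑_ω f(ω \ F) W(ω \ F) = (∏ 2/(1-t e)) 2^|F| ∑_{ω'' disjoint F} f(ω'') W(ω'')`.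
  Stated without division: `(∏_{e∈F} (1 - t e)/4) * fkE t (fun ω => f (ω \ F)) ≤ fkE t (fun ω => ind (Disjoint ω F) * f ω)`.
* opening: `kap (ω ∪ F) ≥ kap ω`, product factor: for `e ∈ F \ ω` replace `1 - t e ≤ 1` by `t e`: `W (ω ∪ F) ≥ (∏_{e ∈ F} t e) W ω`; each `ω'' ⊇ F` has `2^|F|`
  preimages: `(∏_{e∈F} t e / 2) * fkE t (fun ω => f (ω ∪ F)) ≤ fkE t (fun ω => ind (F ⊆ ω) * f ω)`.
* `tp_lower`: if `u`, `v` are connected inside `F` then `tp t u v ≥ ∏_{e ∈ F} t e / 2` (opening with `f = 1`).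
-/

set_option autoImplicit false

open Finset

namespace H82.IC

variable {V E : Type*} [Fintype E] [DecidableEq E]

theorem FE_sum (e : E) (g : Finset E → ℝ) :
    ∑ ω : Finset E, g ω = ∑ ω ∈ (univ.erase e).powerset, (g ω + g (insert e ω)) := by
  have h1 : (univ : Finset (Finset E)) = (insert e (univ.erase e)).powerset := by
    rw [insert_erase (mem_univ e), powerset_univ]
  rw [h1, sum_powerset_insert (notMem_erase e univ), sum_add_distrib]

theorem FE_notMem {e : E} {ω : Finset E} (h : ω ∈ (univ.erase e).powerset) : e ∉ ω :=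
  fun he => notMem_erase e univ (mem_powerset.1 h he)

/-- the product weight without the edge `e` -/
noncomputable def FE_P (t : E → ℝ) (e : E) (ω : Finset E) : ℝ := (∏ x ∈ ω, t x) * ∏ x ∈ ωᶜ.erase e, (1 - t x)

theorem FE_P_nonneg {t : E → ℝ} (ht : T01 t) (e : E) (ω : Finset E) : 0 ≤ FE_P t e ω :=
  mul_nonneg (prod_nonneg (fun x _ => (ht x).1)) (prod_nonneg (fun x _ => sub_nonneg.2 (ht x).2))

theorem FE_w0 (t : E → ℝ) {e : E} {ω : Finset E} (he : e ∉ ω) :
    (∏ x ∈ ω, t x) * ∏ x ∈ ωᶜ, (1 - t x) = (1 - t e) * FE_P t e ω := by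
  unfold FE_P
  rw [← mul_prod_erase ωᶜ (fun x => 1 - t x) (mem_compl.2 he)]
  ring

theorem FE_w1 (t : E → ℝ) {e : E} {ω : Finset E} (he : e ∉ ω) :
    (∏ x ∈ insert e ω, t x) * ∏ x ∈ (insert e ω)ᶜ, (1 - t x) = t e * FE_P t e ω := by
  unfold FE_P
  rw [prod_insert he, compl_insert]
  ring

theorem FE_div (Γ : Gr V E) {t : E → ℝ} (ht : T01 t) {c : ℝ} {f g : Finset E → ℝ}
    (h : c * Γ.fkS t f ≤ Γ.fkS t g) : c * Γ.fkE t f ≤ Γ.fkE t g := by
  unfold Gr.fkE
  rw [← mul_div_assoc]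
  exact div_le_div_of_nonneg_right h (by have := one_le_z Γ ht; linarith)

theorem FE_close1 (Γ : Gr V E) {t : E → ℝ} (ht : T01 t) (e : E) {f : Finset E → ℝ}
    (hf : ∀ ω, 0 ≤ f ω) :
    (1 - t e) / 4 * Γ.fkE t (fun ω => f (ω \ {e})) ≤ Γ.fkE t (fun ω => ind (e ∉ ω) * f ω) := by
  apply FE_div Γ ht
  rw [fkS_eq, fkS_eq, FE_sum e, FE_sum e, mul_sum]
  apply sum_le_sum
  intro ω hω
  have he := FE_notMem hω
  have h1 : ω \ {e} = ω := sdiff_eq_self_of_disjoint (disjoint_singleton_right.2 he)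
  have h2 : insert e ω \ {e} = ω := by
    rw [sdiff_singleton_eq_erase, erase_insert he]
  have h3 : Γ.kap (insert e ω) ≤ 2 * Γ.kap ω := by
    have := kap_le Γ ω {e}
    rw [card_singleton, pow_one, union_singleton] at this
    exact this
  rw [FE_w0 t he, FE_w1 t he, h1, h2, ind_true he, ind_false (by simp : ¬ (e ∉ insert e ω))]
  have hk : 1 ≤ Γ.kap ω := one_le_kap Γ ω
  have hP := FE_P_nonneg ht e ω
  have ht0 := (ht e).1
  have ht1 := (ht e).2
  have hfω := hf ω
  have hs : 0 ≤ 1 - t e := by linarith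
  have hPf : 0 ≤ FE_P t e ω * f ω := mul_nonneg hP hfω
  have key : (1 - t e) / 4 * (Γ.kap ω * (1 - t e) + Γ.kap (insert e ω) * t e) ≤ Γ.kap ω * (1 - t e) := by
    have h4 : Γ.kap ω * (1 - t e) + Γ.kap (insert e ω) * t e ≤ 2 * Γ.kap ω := by nlinarith
    calc _ ≤ (1 - t e) / 4 * (2 * Γ.kap ω) := by gcongr
      _ ≤ _ := by nlinarith
  calc _ = (1 - t e) / 4 * (Γ.kap ω * (1 - t e) + Γ.kap (insert e ω) * t e) * (FE_P t e ω * f ω) := by ring
    _ ≤ Γ.kap ω * (1 - t e) * (FE_P t e ω * f ω) := by gcongr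
    _ = _ := by ring

theorem FE_open1 (Γ : Gr V E) {t : E → ℝ} (ht : T01 t) (e : E) {f : Finset E → ℝ}
    (hf : ∀ ω, 0 ≤ f ω) :
    t e / 2 * Γ.fkE t (fun ω => f (insert e ω)) ≤ Γ.fkE t (fun ω => ind (e ∈ ω) * f ω) := by
  apply FE_div Γ ht
  rw [fkS_eq, fkS_eq, FE_sum e, FE_sum e, mul_sum]
  apply sum_le_sum
  intro ω hω
  have he := FE_notMem hω
  have h2 : insert e (insert e ω) = insert e ω := insert_idem e ω
  have h3 : Γ.kap ω ≤ Γ.kap (insert e ω) := kap_mono Γ (subset_insert e ω)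
  rw [FE_w0 t he, FE_w1 t he, h2, ind_false he, ind_true (mem_insert_self e ω)]
  have hk : 1 ≤ Γ.kap ω := one_le_kap Γ ω
  have hP := FE_P_nonneg ht e ω
  have ht0 := (ht e).1
  have ht1 := (ht e).2
  have hfω := hf (insert e ω)
  have hPf : 0 ≤ FE_P t e ω * f (insert e ω) := mul_nonneg hP hfω
  have key : t e / 2 * (Γ.kap ω * (1 - t e) + Γ.kap (insert e ω) * t e) ≤ Γ.kap (insert e ω) * t e := by
    have h4 : Γ.kap ω * (1 - t e) + Γ.kap (insert e ω) * t e ≤ Γ.kap (insert e ω) := by nlinarith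
    calc _ ≤ t e / 2 * Γ.kap (insert e ω) := by gcongr
      _ ≤ _ := by nlinarith
  calc _ = t e / 2 * (Γ.kap ω * (1 - t e) + Γ.kap (insert e ω) * t e) * (FE_P t e ω * f (insert e ω)) := by ring
    _ ≤ Γ.kap (insert e ω) * t e * (FE_P t e ω * f (insert e ω)) := by gcongr
    _ = _ := by ring

theorem fe_close (Γ : Gr V E) {t : E → ℝ} (ht : T01 t) (F : Finset E) {f : Finset E → ℝ}
    (hf : ∀ ω, 0 ≤ f ω) :
    (∏ e ∈ F, (1 - t e) / 4) * Γ.fkE t (fun ω => f (ω \ F)) ≤
      Γ.fkE t (fun ω => ind (Disjoint ω F) * f ω) := by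
  induction F using Finset.induction_on generalizing f with
  | empty =>
    rw [prod_empty, one_mul]
    apply le_of_eq
    congr 1
    funext ω
    rw [sdiff_empty, ind_true (disjoint_empty_right ω), one_mul]
  | insert e F he ih =>
    rw [prod_insert he]
    have h1 := ih (f := fun ω => f (ω \ {e})) (fun ω => hf _)
    have h2 := FE_close1 Γ ht e (f := fun ω => ind (Disjoint ω F) * f ω)
      (fun ω => mul_nonneg (ind_nonneg _) (hf ω))
    have e1 : (fun ω : Finset E => (fun ω => f (ω \ {e})) (ω \ F)) = (fun ω => f (ω \ insert e F)) := by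
      funext ω
      have : (ω \ F) \ {e} = ω \ insert e F := by
        ext x
        simp only [mem_sdiff, mem_singleton, mem_insert]
        tauto
      simp only
      rw [this]
    have e2 : (fun ω : Finset E => (fun ω => ind (Disjoint ω F) * f ω) (ω \ {e})) =
        (fun ω => ind (Disjoint ω F) * f (ω \ {e})) := by
      funext ω
      have : Disjoint (ω \ {e}) F ↔ Disjoint ω F := by
        rw [disjoint_left, disjoint_left]
        constructor
        · intro h x hx hxF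
          refine h (mem_sdiff.2 ⟨hx, ?_⟩) hxF
          rw [mem_singleton]
          rintro rfl
          exact he hxF
        · intro h x hx
          exact h (mem_sdiff.1 hx).1
      simp only
      rw [this]
    have e3 : (fun ω : Finset E => ind (e ∉ ω) * (fun ω => ind (Disjoint ω F) * f ω) ω) =
        (fun ω => ind (Disjoint ω (insert e F)) * f ω) := by
      funext ω
      simp only
      rw [← mul_assoc, ← ind_and, disjoint_insert_right]
    rw [e1] at h1
    rw [e2, e3] at h2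
    have h0 : 0 ≤ (1 - t e) / 4 := by have := (ht e).2; linarith
    calc _ = (1 - t e) / 4 * ((∏ e ∈ F, (1 - t e) / 4) * Γ.fkE t (fun ω => f (ω \ insert e F))) := by ring
      _ ≤ (1 - t e) / 4 * Γ.fkE t (fun ω => ind (Disjoint ω F) * f (ω \ {e})) := by gcongr
      _ ≤ _ := h2

theorem fe_open (Γ : Gr V E) {t : E → ℝ} (ht : T01 t) (F : Finset E) {f : Finset E → ℝ}
    (hf : ∀ ω, 0 ≤ f ω) :
    (∏ e ∈ F, t e / 2) * Γ.fkE t (fun ω => f (ω ∪ F)) ≤
      Γ.fkE t (fun ω => ind (F ⊆ ω) * f ω) := by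
  induction F using Finset.induction_on generalizing f with
  | empty =>
    rw [prod_empty, one_mul]
    apply le_of_eq
    congr 1
    funext ω
    rw [union_empty, ind_true (empty_subset ω), one_mul]
  | insert e F he ih =>
    rw [prod_insert he]
    have h1 := ih (f := fun ω => f (insert e ω)) (fun ω => hf _)
    have h2 := FE_open1 Γ ht e (f := fun ω => ind (F ⊆ ω) * f ω)
      (fun ω => mul_nonneg (ind_nonneg _) (hf ω))
    have e1 : (fun ω : Finset E => (fun ω => f (insert e ω)) (ω ∪ F)) = (fun ω => f (ω ∪ insert e F)) := by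
      funext ω
      have : insert e (ω ∪ F) = ω ∪ insert e F := by
        ext x
        simp only [mem_union, mem_insert]
        tauto
      simp only
      rw [this]
    have e2 : (fun ω : Finset E => (fun ω => ind (F ⊆ ω) * f ω) (insert e ω)) =
        (fun ω => ind (F ⊆ ω) * f (insert e ω)) := by
      funext ω
      have : F ⊆ insert e ω ↔ F ⊆ ω := subset_insert_iff_of_notMem he
      simp only
      rw [this]
    have e3 : (fun ω : Finset E => ind (e ∈ ω) * (fun ω => ind (F ⊆ ω) * f ω) ω) =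
        (fun ω => ind (insert e F ⊆ ω) * f ω) := by
      funext ω
      simp only
      rw [← mul_assoc, ← ind_and, insert_subset_iff]
    rw [e1] at h1
    rw [e2, e3] at h2
    have h0 : 0 ≤ t e / 2 := by have := (ht e).1; linarith
    calc _ = t e / 2 * ((∏ e ∈ F, t e / 2) * Γ.fkE t (fun ω => f (ω ∪ insert e F))) := by ring
      _ ≤ t e / 2 * Γ.fkE t (fun ω => ind (F ⊆ ω) * f (insert e ω)) := by gcongr
      _ ≤ _ := h2

theorem tp_lower (Γ : Gr V E) {t : E → ℝ} (ht : T01 t) (F : Finset E) {u v : V}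
    (h : Γ.Conn (F : Set E) u v) : (∏ e ∈ F, t e / 2) ≤ Γ.tp t u v := by
  have h1 := fe_open Γ ht F (f := fun _ => 1) (fun _ => zero_le_one)
  rw [fkE_one Γ ht, mul_one] at h1
  refine h1.trans ?_
  rw [← fkE_conn]
  apply fkE_le Γ ht
  intro ω
  rw [mul_one]
  exact ind_mono (fun hF => conn_mono Γ (by exact_mod_cast hF) h)

end H82.IC
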