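import Pool.Agent.H82.IC.FK1

/-!
# HO: monotonicity in the edge parameters (Holley) and FKG

`fkE t f = ∑ ω, μ_t ω * f ω` with `μ_t ω = kap ω (∏_{ω} t)(∏_{ωᶜ} (1-t)) / z t 0 ≥ 0`, `∑ μ_t = 1` (`fkS_eq`, `fkS_one`, `one_le_z`).

* `fkE_holley`: Mathlib's `holley` (Combinatorics/SetFamily/FourFunctions) with `f = μ_t`, `g = μ_{t'}` on the distributive lattice `Finset E`, and
  `μ = F - (inf of F)` or `μ = F + constant` (to be nonnegative; `∑ μ_t = ∑ μ_{t'} = 1` so constants drop).  Lattice condition: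
  `μ_t a * μ_{t'} b ≤ μ_t (a ∩ b) * μ_{t'} (a ∪ b)`: from `kap_mul_le` and edge by edge: writing the products as products over all `e` of
  `if e ∈ a then t e else 1 - t e`, the edge factor on the left is `≤` that on the right: both in: equal; none: equal; `e ∈ a \ b`: `t (1-t') ≤ (1-t) t'`;
  `e ∈ b \ a`: `(1-t) t'` equal.
* `fkE_fkg`: Mathlib's `fkg` with `μ = μ_t` (or `four_functions_theorem_univ`).
-/

set_option autoImplicit false

open Finset

namespace H82.IC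

variable {V E : Type*} [Fintype E] [DecidableEq E]

/-- the product weight of a configuration -/
noncomputable def HO_P (t : E → ℝ) (ω : Finset E) : ℝ := ∏ e, (if e ∈ ω then t e else 1 - t e)

theorem HO_P_eq (t : E → ℝ) (ω : Finset E) :
    (∏ e ∈ ω, t e) * ∏ e ∈ ωᶜ, (1 - t e) = HO_P t ω := by
  unfold HO_P
  rw [← Finset.prod_mul_prod_compl ω (fun e => if e ∈ ω then t e else 1 - t e)]
  congr 1
  · exact Finset.prod_congr rfl fun e he => (if_pos he).symm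
  · exact Finset.prod_congr rfl fun e he => (if_neg (Finset.mem_compl.1 he)).symm

theorem HO_P_nonneg {t : E → ℝ} (ht : T01 t) (ω : Finset E) : 0 ≤ HO_P t ω := by
  unfold HO_P
  refine Finset.prod_nonneg fun e _ => ?_
  have := ht e
  split_ifs
  · exact this.1
  · linarith [this.2]

theorem HO_P_mul_le {t t' : E → ℝ} (ht : T01 t) (ht' : T01 t') (htt : ∀ e, t e ≤ t' e)
    (a b : Finset E) : HO_P t a * HO_P t' b ≤ HO_P t (a ∩ b) * HO_P t' (a ∪ b) := by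
  unfold HO_P
  rw [← Finset.prod_mul_distrib, ← Finset.prod_mul_distrib]
  refine Finset.prod_le_prod (fun e _ => ?_) (fun e _ => ?_)
  · have h1 := ht e
    have h2 := ht' e
    apply mul_nonneg
    · split_ifs
      · exact h1.1
      · linarith [h1.2]
    · split_ifs
      · exact h2.1
      · linarith [h2.2]
  · have h1 := ht e
    have h2 := ht' e
    have h3 := htt e
    by_cases ha : e ∈ a <;> by_cases hb : e ∈ b <;> simp [ha, hb]
    nlinarith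

/-- the unnormalised FK weight -/
noncomputable def HO_m (Γ : Gr V E) (t : E → ℝ) (ω : Finset E) : ℝ := Γ.kap ω * HO_P t ω

theorem HO_kap_nonneg (Γ : Gr V E) (ω : Finset E) : 0 ≤ Γ.kap ω := by
  linarith [one_le_kap Γ ω]

theorem HO_m_nonneg (Γ : Gr V E) {t : E → ℝ} (ht : T01 t) (ω : Finset E) : 0 ≤ HO_m Γ t ω :=
  mul_nonneg (HO_kap_nonneg Γ ω) (HO_P_nonneg ht ω)

theorem HO_m_mul_le (Γ : Gr V E) {t t' : E → ℝ} (ht : T01 t) (ht' : T01 t')
    (htt : ∀ e, t e ≤ t' e) (a b : Finset E) :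
    HO_m Γ t a * HO_m Γ t' b ≤ HO_m Γ t (a ∩ b) * HO_m Γ t' (a ∪ b) := by
  unfold HO_m
  have h1 := kap_mul_le Γ a b
  have h2 := HO_P_mul_le ht ht' htt a b
  have h3 : 0 ≤ HO_P t a * HO_P t' b := mul_nonneg (HO_P_nonneg ht a) (HO_P_nonneg ht' b)
  have h4 : 0 ≤ Γ.kap (a ∩ b) * Γ.kap (a ∪ b) :=
    mul_nonneg (HO_kap_nonneg Γ _) (HO_kap_nonneg Γ _)
  have h5 := mul_le_mul h1 h2 h3 h4
  calc Γ.kap a * HO_P t a * (Γ.kap b * HO_P t' b)
      = Γ.kap a * Γ.kap b * (HO_P t a * HO_P t' b) := by ring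
    _ ≤ Γ.kap (a ∩ b) * Γ.kap (a ∪ b) * (HO_P t (a ∩ b) * HO_P t' (a ∪ b)) := h5
    _ = Γ.kap (a ∩ b) * HO_P t (a ∩ b) * (Γ.kap (a ∪ b) * HO_P t' (a ∪ b)) := by ring

theorem HO_fkS (Γ : Gr V E) (t : E → ℝ) (f : Finset E → ℝ) :
    Γ.fkS t f = ∑ ω : Finset E, HO_m Γ t ω * f ω := by
  rw [fkS_eq]
  refine Finset.sum_congr rfl fun ω _ => ?_
  rw [HO_P_eq]
  rfl

theorem HO_fkE (Γ : Gr V E) (t : E → ℝ) (f : Finset E → ℝ) :
    Γ.fkE t f = ∑ ω : Finset E, f ω * (HO_m Γ t ω / Γ.z t 0) := by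
  unfold Gr.fkE
  rw [HO_fkS, Finset.sum_div]
  refine Finset.sum_congr rfl fun ω _ => ?_
  ring

theorem fkE_holley (Γ : Gr V E) {t t' : E → ℝ} (ht : T01 t) (ht' : T01 t') (htt : ∀ e, t e ≤ t' e)
    {f : Finset E → ℝ} (hf : Monotone f) : Γ.fkE t f ≤ Γ.fkE t' f := by
  have hz : 0 < Γ.z t 0 := by linarith [one_le_z Γ ht]
  have hz' : 0 < Γ.z t' 0 := by linarith [one_le_z Γ ht']
  have hm1 : ∑ ω : Finset E, (HO_m Γ t ω / Γ.z t 0) = 1 := by
    have h := HO_fkE Γ t (fun _ => 1)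
    rw [fkE_one Γ ht] at h
    simpa using h.symm
  have hm2 : ∑ ω : Finset E, (HO_m Γ t' ω / Γ.z t' 0) = 1 := by
    have h := HO_fkE Γ t' (fun _ => 1)
    rw [fkE_one Γ ht'] at h
    simpa using h.symm
  have key := holley (μ := fun ω : Finset E => f ω - f ∅)
    (f := fun ω : Finset E => HO_m Γ t ω / Γ.z t 0)
    (g := fun ω : Finset E => HO_m Γ t' ω / Γ.z t' 0)
    (fun ω => sub_nonneg.mpr (hf (Finset.empty_subset ω)))
    (fun ω => div_nonneg (HO_m_nonneg Γ ht ω) hz.le)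
    (fun ω => div_nonneg (HO_m_nonneg Γ ht' ω) hz'.le)
    (fun a b hab => sub_le_sub_right (hf hab) _)
    (by rw [hm1, hm2])
    (fun a b => by
      show HO_m Γ t a / Γ.z t 0 * (HO_m Γ t' b / Γ.z t' 0) ≤
        HO_m Γ t (a ∩ b) / Γ.z t 0 * (HO_m Γ t' (a ∪ b) / Γ.z t' 0)
      rw [div_mul_div_comm, div_mul_div_comm]
      exact div_le_div_of_nonneg_right (HO_m_mul_le Γ ht ht' htt a b) (by positivity))
  simp only [sub_mul, Finset.sum_sub_distrib] at key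
  rw [← Finset.mul_sum, ← Finset.mul_sum, hm1, hm2] at key
  rw [HO_fkE, HO_fkE]
  linarith

theorem fkE_fkg (Γ : Gr V E) {t : E → ℝ} (ht : T01 t)
    {f g : Finset E → ℝ} (hf0 : ∀ ω, 0 ≤ f ω) (hg0 : ∀ ω, 0 ≤ g ω) (hf : Monotone f)
    (hg : Monotone g) : Γ.fkE t f * Γ.fkE t g ≤ Γ.fkE t (fun ω => f ω * g ω) := by
  have hz : 0 < Γ.z t 0 := by linarith [one_le_z Γ ht]
  have key := fkg (μ := fun ω : Finset E => HO_m Γ t ω) (f := f) (g := g)
    (fun ω => HO_m_nonneg Γ ht ω) hf0 hg0 hf hg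
    (fun a b => HO_m_mul_le Γ ht ht (fun _ => le_rfl) a b)
  have h1 : ∑ ω : Finset E, HO_m Γ t ω = Γ.z t 0 := by
    rw [← fkS_one, HO_fkS]
    simp
  rw [← HO_fkS, ← HO_fkS, h1, ← HO_fkS Γ t (fun ω => f ω * g ω)] at key
  unfold Gr.fkE
  rw [div_mul_div_comm, div_le_div_iff₀ (by positivity) hz]
  nlinarith

theorem tp_mono (Γ : Gr V E) {t t' : E → ℝ} (ht : T01 t) (ht' : T01 t') (htt : ∀ e, t e ≤ t' e)
    (u v : V) : Γ.tp t u v ≤ Γ.tp t' u v := by
  rw [← fkE_conn, ← fkE_conn]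
  refine fkE_holley Γ ht ht' htt fun a b hab => ind_mono fun h => ?_
  exact conn_mono Γ (Finset.coe_subset.mpr hab) h

theorem off_le {t : E → ℝ} (ht : T01 t) (K : Set E) (e : E) : off K t e ≤ t e := by
  unfold off
  split_ifs
  · exact (ht e).1
  · exact le_rfl

end H82.IC
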