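import Pool.Agent.H82.IC.FCT
import Pool.Agent.H82.IC.HO

/-!
# PB: the product bound

`P[u ↔ B, z ↔ B, u not↔ z] ≤ P[u ↔ B] P[z ↔ B]` for FK-Ising on a finite graph, `B` any set of vertices.

Proof.  `trc_sum_cl` at `u`: the left side is the sum over `C ∈ cls u` with `C ∩ B ≠ ∅`, `z ∉ C`, of `fkE t (1[cl ω u = C] 1[z ↔ B])`.
On `cl ω u = C`, `z ∉ C`: `z ↔ b` in `ω` iff `z ↔ b` in `ω \ tch C` (`conn_off`, all edges of `ω` have both or no end in `C` by `cl_end`).  The function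
`f ω = 1[∃ b ∈ B, Conn (ω \ tch C) z b]` depends only on the edges not touching `C`, so by `trc_fact` (with `S = 0`) and `wOut_FK`
`fkS t (1[cl = C] f) = I_C * fkS t' f`, `fkS t (1[cl = C]) = I_C * fkS t' 1 = I_C * z t' 0` with `t' = off (tch C) t`.
So `fkS t (1[cl = C] f) = fkS t (1[cl = C]) * fkE t' f`, and `fkE t' f ≤ fkE t' (1[z ↔ B]) ≤ fkE t (1[z ↔ B])` (`fkE_le`, `fkE_holley`, `off_le`; the event is increasing
by `conn_mono`).  Sum over `C` (dropping the condition `z ∉ C`).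
-/

set_option autoImplicit false

open Finset

namespace H82.IC

variable {V E : Type*} [Fintype E] [DecidableEq E]

/-- the contribution of one cluster -/
theorem PB_term (Γ : Gr V E) {t : E → ℝ} (ht : T01 t) (B : Set V) (u z : V) (C : Set V) :
    Γ.trc (wFK t) 0 (fun ω => ind (Γ.cl (ω : Set E) u = C) *
      ind (∃ b ∈ B, Γ.Conn ((ω : Set E) \ Γ.tch C) z b)) ≤
    Γ.trc (wFK t) 0 (fun ω => ind (Γ.cl (ω : Set E) u = C) * 1) *
      Γ.fkE t (fun ω => ind (∃ b ∈ B, Γ.Conn (ω : Set E) z b)) := by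
  have hw : ∀ (e : E) (a : ZMod 2), a ≠ 0 → wFK t e a false = 0 := by
    intro e a ha
    unfold wFK
    simp [ha]
  have ht' := T01_off ht (Γ.tch C)
  have h1 := trc_fact Γ (wFK t) hw 0 u C (fun ω => ind (∃ b ∈ B, Γ.Conn ((ω : Set E) \ Γ.tch C) z b))
    (by
      intro ω ω' h
      have : ((ω : Set E) \ Γ.tch C) = ((ω' : Set E) \ Γ.tch C) := by
        ext e
        constructor
        · rintro ⟨h2, h3⟩
          exact ⟨(h e h3).1 h2, h3⟩
        · rintro ⟨h2, h3⟩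
          exact ⟨(h e h3).2 h2, h3⟩
      simp only [this])
  have h2 := trc_fact Γ (wFK t) hw 0 u C (fun _ => 1) (fun _ _ _ => rfl)
  rw [Set.indicator_zero', Set.indicator_zero', wOut_FK] at h1 h2
  have h3 : Γ.trc (wFK (off (Γ.tch C) t)) 0 (fun _ => 1) = Γ.z (off (Γ.tch C) t) 0 :=
    fkS_one Γ _
  have hz : 1 ≤ Γ.z (off (Γ.tch C) t) 0 := one_le_z Γ ht'
  have hz0 : Γ.z (off (Γ.tch C) t) 0 ≠ 0 := by linarith
  have h4 : Γ.trc (wFK (off (Γ.tch C) t)) 0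
      (fun ω => ind (∃ b ∈ B, Γ.Conn ((ω : Set E) \ Γ.tch C) z b)) =
      Γ.z (off (Γ.tch C) t) 0 * Γ.fkE (off (Γ.tch C) t)
        (fun ω => ind (∃ b ∈ B, Γ.Conn ((ω : Set E) \ Γ.tch C) z b)) := by
    unfold Gr.fkE
    rw [mul_div_cancel₀ _ hz0]
    rfl
  have h5 : Γ.fkE (off (Γ.tch C) t) (fun ω => ind (∃ b ∈ B, Γ.Conn ((ω : Set E) \ Γ.tch C) z b)) ≤
      Γ.fkE t (fun ω => ind (∃ b ∈ B, Γ.Conn (ω : Set E) z b)) := by
    refine le_trans (fkE_le Γ ht' (g := fun ω => ind (∃ b ∈ B, Γ.Conn (ω : Set E) z b)) ?_) ?_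
    · intro ω
      apply ind_mono
      rintro ⟨b, hb, hc⟩
      exact ⟨b, hb, conn_mono Γ Set.sdiff_subset hc⟩
    · refine fkE_holley Γ ht' ht (off_le ht _) ?_
      intro ω ω' hω
      apply ind_mono
      rintro ⟨b, hb, hc⟩
      exact ⟨b, hb, conn_mono Γ (Finset.coe_subset.2 hω) hc⟩
  have h6 : 0 ≤ Γ.trc (wFK t) 0 (fun ω => ind (Γ.cl (ω : Set E) u = C) * 1) :=
    trc_nonneg Γ (wFK t) (wFK_nonneg ht) 0 (fun ω => mul_nonneg (ind_nonneg _) zero_le_one)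
  rw [h3] at h2
  rw [h1, h4, ← mul_assoc, ← h2]
  exact mul_le_mul_of_nonneg_left h5 h6

theorem product_bound (Γ : Gr V E) {t : E → ℝ} (ht : T01 t) (B : Set V) (u z : V) :
    Γ.fkE t (fun ω => ind ((∃ b ∈ B, Γ.Conn (ω : Set E) u b) ∧ (∃ b ∈ B, Γ.Conn (ω : Set E) z b) ∧
      ¬ Γ.Conn (ω : Set E) u z)) ≤
    Γ.fkE t (fun ω => ind (∃ b ∈ B, Γ.Conn (ω : Set E) u b)) *
      Γ.fkE t (fun ω => ind (∃ b ∈ B, Γ.Conn (ω : Set E) z b)) := by
  classical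
  obtain ⟨q, hq⟩ : ∃ q : ℝ, q = Γ.fkE t (fun ω => ind (∃ b ∈ B, Γ.Conn (ω : Set E) z b)) := ⟨_, rfl⟩
  have hq0 : 0 ≤ q := by
    rw [hq]
    exact fkE_nonneg Γ ht (fun ω => ind_nonneg _)
  have hz : 1 ≤ Γ.z t 0 := one_le_z Γ ht
  have key : Γ.fkS t (fun ω => ind ((∃ b ∈ B, Γ.Conn (ω : Set E) u b) ∧
      (∃ b ∈ B, Γ.Conn (ω : Set E) z b) ∧ ¬ Γ.Conn (ω : Set E) u z)) ≤
      Γ.fkS t (fun ω => ind (∃ b ∈ B, Γ.Conn (ω : Set E) u b)) * q := by
    unfold Gr.fkS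
    rw [trc_sum_cl Γ (wFK t) 0 u (fun ω => ind ((∃ b ∈ B, Γ.Conn (ω : Set E) u b) ∧
      (∃ b ∈ B, Γ.Conn (ω : Set E) z b) ∧ ¬ Γ.Conn (ω : Set E) u z)),
      trc_sum_cl Γ (wFK t) 0 u (fun ω => ind (∃ b ∈ B, Γ.Conn (ω : Set E) u b)), Finset.sum_mul]
    refine Finset.sum_le_sum ?_
    intro C _
    have e1 : (fun ω : Finset E => ind (Γ.cl (ω : Set E) u = C) *
        ind ((∃ b ∈ B, Γ.Conn (ω : Set E) u b) ∧ (∃ b ∈ B, Γ.Conn (ω : Set E) z b) ∧
          ¬ Γ.Conn (ω : Set E) u z)) =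
        fun ω : Finset E => (ind (∃ b ∈ B, b ∈ C) * ind (z ∉ C)) *
          (ind (Γ.cl (ω : Set E) u = C) *
            ind (∃ b ∈ B, Γ.Conn ((ω : Set E) \ Γ.tch C) z b)) := by
      funext ω
      by_cases hC : Γ.cl (ω : Set E) u = C
      · have hm : ∀ v, Γ.Conn (ω : Set E) u v ↔ v ∈ C := by
          intro v
          rw [← hC]
          rfl
        have hends : ∀ e ∈ (ω : Set E), (Γ.s e ∈ C ↔ Γ.r e ∈ C) := by
          intro e he
          rw [← hC]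
          exact cl_end Γ he u
        by_cases hz' : z ∈ C
        · rw [ind_false (p := (∃ b ∈ B, Γ.Conn (ω : Set E) u b) ∧
            (∃ b ∈ B, Γ.Conn (ω : Set E) z b) ∧ ¬ Γ.Conn (ω : Set E) u z)
            (fun h => h.2.2 ((hm z).2 hz')), ind_false (p := z ∉ C) (fun h => h hz')]
          ring
        · have e2 : ((∃ b ∈ B, Γ.Conn (ω : Set E) u b) ∧ (∃ b ∈ B, Γ.Conn (ω : Set E) z b) ∧
              ¬ Γ.Conn (ω : Set E) u z) = ((∃ b ∈ B, b ∈ C) ∧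
              (∃ b ∈ B, Γ.Conn ((ω : Set E) \ Γ.tch C) z b)) := by
            apply propext
            constructor
            · rintro ⟨⟨b, hb, h1⟩, ⟨b', hb', h2⟩, _⟩
              exact ⟨⟨b, hb, (hm b).1 h1⟩, ⟨b', hb', (conn_off Γ hends hz' b').1 h2⟩⟩
            · rintro ⟨⟨b, hb, h1⟩, ⟨b', hb', h2⟩⟩
              exact ⟨⟨b, hb, (hm b).2 h1⟩, ⟨b', hb', (conn_off Γ hends hz' b').2 h2⟩,
                fun h3 => hz' ((hm z).1 h3)⟩
          rw [e2, ind_and, ind_true hC, ind_true (p := z ∉ C) hz']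
          ring
      · rw [ind_false hC]
        ring
    have e3 : (fun ω : Finset E => ind (Γ.cl (ω : Set E) u = C) *
        ind (∃ b ∈ B, Γ.Conn (ω : Set E) u b)) =
        fun ω : Finset E => ind (∃ b ∈ B, b ∈ C) * (ind (Γ.cl (ω : Set E) u = C) * 1) := by
      funext ω
      by_cases hC : Γ.cl (ω : Set E) u = C
      · have hm : ∀ v, Γ.Conn (ω : Set E) u v ↔ v ∈ C := by
          intro v
          rw [← hC]
          rfl
        have e2 : (∃ b ∈ B, Γ.Conn (ω : Set E) u b) = (∃ b ∈ B, b ∈ C) := by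
          apply propext
          constructor
          · rintro ⟨b, hb, h1⟩
            exact ⟨b, hb, (hm b).1 h1⟩
          · rintro ⟨b, hb, h1⟩
            exact ⟨b, hb, (hm b).2 h1⟩
        rw [e2]
        ring
      · rw [ind_false hC]
        ring
    rw [e1, e3, trc_smul, trc_smul]
    have h1 := PB_term Γ ht B u z C
    rw [← hq] at h1
    have h2 : 0 ≤ Γ.trc (wFK t) 0 (fun ω => ind (Γ.cl (ω : Set E) u = C) * 1) * q :=
      mul_nonneg (trc_nonneg Γ (wFK t) (wFK_nonneg ht) 0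
        (fun ω => mul_nonneg (ind_nonneg _) zero_le_one)) hq0
    have h3 : 0 ≤ ind (∃ b ∈ B, b ∈ C) := ind_nonneg _
    have h4 : 0 ≤ ind (z ∉ C) := ind_nonneg _
    have h5 : ind (z ∉ C) ≤ 1 := ind_le_one _
    calc ind (∃ b ∈ B, b ∈ C) * ind (z ∉ C) * _
        ≤ ind (∃ b ∈ B, b ∈ C) * ind (z ∉ C) *
          (Γ.trc (wFK t) 0 (fun ω => ind (Γ.cl (ω : Set E) u = C) * 1) * q) :=
          mul_le_mul_of_nonneg_left h1 (mul_nonneg h3 h4)
      _ ≤ ind (∃ b ∈ B, b ∈ C) * 1 *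
          (Γ.trc (wFK t) 0 (fun ω => ind (Γ.cl (ω : Set E) u = C) * 1) * q) :=
          mul_le_mul_of_nonneg_right (mul_le_mul_of_nonneg_left h5 h3) h2
      _ = _ := by ring
  rw [← hq]
  unfold Gr.fkE
  rw [div_mul_eq_mul_div]
  exact div_le_div_of_nonneg_right key (by linarith)

end H82.IC
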