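import Pool.Agent.H82.IC.DL
import Pool.Agent.H82.IC.PB
import Pool.Agent.H82.IC.FE

/-!
# ADM: conditioning on the edges of `E1`, the admissible case `|A| = 1`

`W` a finite set of vertices, all edges not in `E1` have both ends in `W` (`hE1`), `B` a set of vertices.
`rch ω B z` : `z ↔ B` in `ω`;  `mlt W B ω` : there are two points of `W` connected to `B` in `ω` and not connected to each other in `ω`;
`adm W B ω` : some point of `W` is connected to `B` in `ω` and not `mlt`;  `rep W B ω o` : a point of `W` connected to `B` (if any).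

* `rch_iff`: if `ω ∩ E1 = η` and `u ∈ W` then `rch ω B u ↔ ∃ z ∈ W, Conn ω u z ∧ rch η B z`: (←) `η ⊆ ω`.  (→): take the last vertex of the path from `u` to `b ∈ B` that is
  in `W` (induction on the path, from the `b` side: statement for every vertex `x` of the path: either the rest of the path from `x` to `b` is in `η` or there is a later
  `z ∈ W` on it): the edges after it are not edges outside `E1` (those have both ends in `W`), so they are in `E1`, i.e. in `η`.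
* `rch_adm`: if moreover `adm W B η` then `rch ω B u ↔ Conn ω u (rep W B η o)`.
* `adm_bounds`: by `fkE_dlr`, `fkE t (f 1[rch ω B o']) = ∑_{η ⊆ E1} prE η * fkE (setT E1 η t) (f 1[rch ω B o'])`, and by `fkE_setT_supp` one may use `ω ∩ E1 = η`:
  if `adm η`: `fkE (setT) (f 1[Conn o' (rep η)])`;  if no `z ∈ W` is connected to `B` in `η`: `0`;  otherwise `mlt η`: between `0` and `1`; and
  `∑_{η : mlt η} prE η = fkE t 1[mlt (ω ∩ E1)]` (`fkE_dlr` for this function).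
* `DD_final`: `adm_bounds` for `f = 1[ω ∩ F = ∅]` and `f = 1`, triangle inequality.
* `DD_transfer`: for `adm_B η`: some `z ∈ W` has `rch η B z`, hence `rch η B' z`; so either `adm_{B'} η` and then `rep_B η`, `rep_{B'} η` are both connected to `B'` in `η`,
  hence connected to each other in `η ⊆ ω` and the two terms agree (`fkE_setT_supp`; `tp` via `fkE_conn`); or `mlt_{B'} η`, and the term is `≤ prE η (1 + |c|)`.
* `mlt_rare`: `fe_close` with `F = E1ᶜ` and `f ω = 1[mlt (ω ∩ E1)]`, `(ω \ E1ᶜ) ∩ E1 = ω ∩ E1`; if `ω` is disjoint from `E1ᶜ` then `ω ∩ E1 = ω`, so `mlt ω`, which is contained in the union over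
  `z, z' ∈ W` of the events of `product_bound`.
-/

set_option autoImplicit false

open Finset

namespace H82.IC

section Defs
variable {V E : Type*}

def Gr.rch (Γ : Gr V E) (ω : Set E) (B : Set V) (z : V) : Prop := ∃ b ∈ B, Γ.Conn ω z b

def Gr.mlt (Γ : Gr V E) (W : Finset V) (B : Set V) (ω : Set E) : Prop :=
  ∃ z ∈ W, ∃ z' ∈ W, Γ.rch ω B z ∧ Γ.rch ω B z' ∧ ¬ Γ.Conn ω z z'

def Gr.adm (Γ : Gr V E) (W : Finset V) (B : Set V) (ω : Set E) : Prop :=
  (∃ z ∈ W, Γ.rch ω B z) ∧ ¬ Γ.mlt W B ω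

noncomputable def Gr.rep (Γ : Gr V E) (W : Finset V) (B : Set V) (ω : Set E) (o : V) : V :=
  open Classical in if h : ∃ z ∈ W, Γ.rch ω B z then h.choose else o

end Defs

variable {V E : Type*} [Fintype E] [DecidableEq E]

/-- the admissible `η ⊆ E1`. -/
noncomputable def Gr.admS (Γ : Gr V E) (W : Finset V) (B : Set V) (E1 : Finset E) :
    Finset (Finset E) :=
  open Classical in E1.powerset.filter (fun η => Γ.adm W B (η : Set E))

/-- `M(u)`. -/
noncomputable def Gr.MM (Γ : Gr V E) (t : E → ℝ) (W : Finset V) (B : Set V) (E1 : Finset E) (o u : V) : ℝ :=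
  ∑ η ∈ Γ.admS W B E1, Γ.prE t E1 η * Γ.tp (setT E1 η t) u (Γ.rep W B (η : Set E) o)

/-- `P[|A| ≥ 2]`. -/
noncomputable def Gr.rr (Γ : Gr V E) (t : E → ℝ) (W : Finset V) (B : Set V) (E1 : Finset E) : ℝ :=
  Γ.fkE t (fun ω => ind (Γ.mlt W B ((ω ∩ E1 : Finset E) : Set E)))

/-- the distance `E[1_adm |φ_H[ω_F = 0, o ↔ a] - c φ_H[o ↔ a]|]`. -/
noncomputable def Gr.DD (Γ : Gr V E) (t : E → ℝ) (W : Finset V) (B : Set V) (E1 F : Finset E) (c : ℝ)
    (o : V) : ℝ :=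
  ∑ η ∈ Γ.admS W B E1, Γ.prE t E1 η *
    |Γ.fkE (setT E1 η t) (fun ω => ind (Disjoint ω F) *
        ind (Γ.Conn (ω : Set E) o (Γ.rep W B (η : Set E) o))) -
      c * Γ.tp (setT E1 η t) o (Γ.rep W B (η : Set E) o)|

theorem rch_iff (Γ : Gr V E) (W : Finset V) (B : Set V) {E1 η ω : Finset E}
    (hE1 : ∀ e, e ∉ E1 → Γ.s e ∈ W ∧ Γ.r e ∈ W) (hω : ω ∩ E1 = η) {u : V} (hu : u ∈ W) :
    Γ.rch (ω : Set E) B u ↔ ∃ z ∈ W, Γ.Conn (ω : Set E) u z ∧ Γ.rch (η : Set E) B z := by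
  have hηω : (η : Set E) ⊆ (ω : Set E) := by
    rw [← hω]
    exact Finset.coe_subset.2 Finset.inter_subset_left
  constructor
  · rintro ⟨b, hb, hc⟩
    have key : Γ.Conn (η : Set E) u b ∨ ∃ z ∈ W, Γ.Conn (ω : Set E) u z ∧ Γ.Conn (η : Set E) z b := by
      clear hu
      induction hc using Relation.ReflTransGen.head_induction_on with
      | refl => exact Or.inl (conn_refl Γ _ _)
      | head h1 h2 ih =>
        rename_i x y
        have hxy : Γ.Conn (ω : Set E) x y := Relation.ReflTransGen.single h1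
        rcases ih with ih | ⟨z, hz, ih1, ih2⟩
        · obtain ⟨e, he, h3⟩ := h1
          by_cases he1 : e ∈ E1
          · refine Or.inl (Relation.ReflTransGen.head ⟨e, ?_, h3⟩ ih)
            rw [Finset.mem_coe, ← hω, Finset.mem_inter]
            exact ⟨he, he1⟩
          · obtain ⟨h4, h5⟩ := hE1 e he1
            have hy : y ∈ W := by
              rcases h3 with ⟨-, rfl⟩ | ⟨rfl, -⟩
              · exact h5
              · exact h4
            exact Or.inr ⟨y, hy, hxy, ih⟩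
        · exact Or.inr ⟨z, hz, conn_trans Γ hxy ih1, ih2⟩
    rcases key with h | ⟨z, hz, h1, h2⟩
    · exact ⟨u, hu, conn_refl Γ _ _, b, hb, h⟩
    · exact ⟨z, hz, h1, b, hb, h2⟩
  · rintro ⟨z, -, h1, b, hb, h2⟩
    exact ⟨b, hb, conn_trans Γ h1 (conn_mono Γ hηω h2)⟩

theorem ADM_rep (Γ : Gr V E) (W : Finset V) (B : Set V) (ω : Set E) (o : V)
    (h : ∃ z ∈ W, Γ.rch ω B z) : Γ.rep W B ω o ∈ W ∧ Γ.rch ω B (Γ.rep W B ω o) := by
  have h1 : Γ.rep W B ω o = h.choose := by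
    unfold Gr.rep
    rw [dif_pos h]
  rw [h1]
  exact h.choose_spec

theorem ADM_not_mlt {Γ : Gr V E} {W : Finset V} {B : Set V} {ω : Set E} (h : ¬ Γ.mlt W B ω)
    {z z' : V} (hz : z ∈ W) (hz' : z' ∈ W) (h1 : Γ.rch ω B z) (h2 : Γ.rch ω B z') :
    Γ.Conn ω z z' := by
  by_contra hcon
  exact h ⟨z, hz, z', hz', h1, h2, hcon⟩

theorem rch_adm (Γ : Gr V E) (W : Finset V) (B : Set V) {E1 η ω : Finset E}
    (hE1 : ∀ e, e ∉ E1 → Γ.s e ∈ W ∧ Γ.r e ∈ W) (hω : ω ∩ E1 = η) {u : V} (hu : u ∈ W) (o : V)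
    (ha : Γ.adm W B (η : Set E)) :
    Γ.rch (ω : Set E) B u ↔ Γ.Conn (ω : Set E) u (Γ.rep W B (η : Set E) o) := by
  have hηω : (η : Set E) ⊆ (ω : Set E) := by
    rw [← hω]
    exact Finset.coe_subset.2 Finset.inter_subset_left
  obtain ⟨h1, h2⟩ := ADM_rep Γ W B (η : Set E) o ha.1
  rw [rch_iff Γ W B hE1 hω hu]
  constructor
  · rintro ⟨z, hz, h3, h4⟩
    exact conn_trans Γ h3 (conn_mono Γ hηω (ADM_not_mlt ha.2 hz h1 h4 h2))
  · intro h
    exact ⟨_, h1, h, h2⟩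

theorem ADM_rr (Γ : Gr V E) {t : E → ℝ} (ht : T01 t) (W : Finset V) (B : Set V) (E1 : Finset E) :
    Γ.rr t W B E1 = ∑ η ∈ E1.powerset, Γ.prE t E1 η * ind (Γ.mlt W B (η : Set E)) := by
  unfold Gr.rr
  rw [fkE_dlr Γ ht E1]
  refine Finset.sum_congr rfl fun η hη => ?_
  have h1 := fkE_setT_supp Γ ht (Finset.mem_powerset.1 hη)
    (f := fun ω => ind (Γ.mlt W B ((ω ∩ E1 : Finset E) : Set E)))
    (g := fun _ => ind (Γ.mlt W B (η : Set E))) (fun ω h => by simp only [h])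
  rw [h1, fkE_const Γ (T01_setT ht E1 η)]

theorem ADM_sum (Γ : Gr V E) (W : Finset V) (B : Set V) (E1 : Finset E) (g : Finset E → ℝ) :
    ∑ η ∈ Γ.admS W B E1, g η = ∑ η ∈ E1.powerset, ind (Γ.adm W B (η : Set E)) * g η := by
  classical
  unfold Gr.admS
  rw [Finset.sum_filter]
  refine Finset.sum_congr rfl fun η _ => ?_
  by_cases h : Γ.adm W B (η : Set E)
  · rw [if_pos h, ind_true h, one_mul]
  · rw [if_neg h, ind_false h, zero_mul]

theorem adm_bounds (Γ : Gr V E) {t : E → ℝ} (ht : T01 t) (W : Finset V) (B : Set V) {E1 : Finset E}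
    (hE1 : ∀ e, e ∉ E1 → Γ.s e ∈ W ∧ Γ.r e ∈ W) (o u : V) (hu : u ∈ W)
    (f : Finset E → ℝ) (hf0 : ∀ ω, 0 ≤ f ω) (hf1 : ∀ ω, f ω ≤ 1) :
    (∑ η ∈ Γ.admS W B E1, Γ.prE t E1 η *
      Γ.fkE (setT E1 η t) (fun ω => f ω * ind (Γ.Conn (ω : Set E) u (Γ.rep W B (η : Set E) o)))) ≤
      Γ.fkE t (fun ω => f ω * ind (Γ.rch (ω : Set E) B u)) ∧
    Γ.fkE t (fun ω => f ω * ind (Γ.rch (ω : Set E) B u)) ≤
      (∑ η ∈ Γ.admS W B E1, Γ.prE t E1 η *
      Γ.fkE (setT E1 η t) (fun ω => f ω * ind (Γ.Conn (ω : Set E) u (Γ.rep W B (η : Set E) o)))) +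
      Γ.rr t W B E1 := by
  rw [fkE_dlr Γ ht E1 (fun ω => f ω * ind (Γ.rch (ω : Set E) B u)), ADM_sum, ADM_rr Γ ht]
  have hG0 : ∀ η : Finset E, 0 ≤ Γ.fkE (setT E1 η t) (fun ω => f ω * ind (Γ.rch (ω : Set E) B u)) :=
    fun η => fkE_nonneg Γ (T01_setT ht E1 η) fun ω => mul_nonneg (hf0 ω) (ind_nonneg _)
  have hG1 : ∀ η : Finset E, Γ.fkE (setT E1 η t) (fun ω => f ω * ind (Γ.rch (ω : Set E) B u)) ≤ 1 := by
    intro η
    rw [← fkE_one Γ (T01_setT ht E1 η)]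
    exact fkE_le Γ (T01_setT ht E1 η) fun ω => mul_le_one₀ (hf1 ω) (ind_nonneg _) (ind_le_one _)
  have hadm : ∀ η ∈ E1.powerset, Γ.adm W B (η : Set E) →
      Γ.fkE (setT E1 η t) (fun ω => f ω * ind (Γ.Conn (ω : Set E) u (Γ.rep W B (η : Set E) o))) =
      Γ.fkE (setT E1 η t) (fun ω => f ω * ind (Γ.rch (ω : Set E) B u)) := by
    intro η hη ha
    refine fkE_setT_supp Γ ht (Finset.mem_powerset.1 hη) fun ω hω => ?_
    rw [KA_congr (rch_adm Γ W B hE1 hω hu o ha)]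
  have hzero : ∀ η ∈ E1.powerset, ¬ Γ.adm W B (η : Set E) → ¬ Γ.mlt W B (η : Set E) →
      Γ.fkE (setT E1 η t) (fun ω => f ω * ind (Γ.rch (ω : Set E) B u)) = 0 := by
    intro η hη h1 h2
    rw [← fkE_const Γ (T01_setT ht E1 η) 0]
    refine fkE_setT_supp Γ ht (Finset.mem_powerset.1 hη) fun ω hω => ?_
    rw [ind_false, mul_zero]
    intro h3
    obtain ⟨z, hz, -, h4⟩ := (rch_iff Γ W B hE1 hω hu).1 h3
    exact h1 ⟨⟨z, hz, h4⟩, h2⟩
  constructor
  · refine Finset.sum_le_sum fun η hη => ?_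
    have hP := prE_nonneg Γ ht E1 η
    by_cases ha : Γ.adm W B (η : Set E)
    · rw [ind_true ha, one_mul, hadm η hη ha]
    · rw [ind_false ha, zero_mul]
      exact mul_nonneg hP (hG0 η)
  · rw [← Finset.sum_add_distrib]
    refine Finset.sum_le_sum fun η hη => ?_
    have hP := prE_nonneg Γ ht E1 η
    by_cases ha : Γ.adm W B (η : Set E)
    · rw [ind_true ha, one_mul, hadm η hη ha]
      have := mul_nonneg hP (ind_nonneg (Γ.mlt W B (η : Set E)))
      linarith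
    · rw [ind_false ha, zero_mul, zero_add]
      by_cases hm : Γ.mlt W B (η : Set E)
      · rw [ind_true hm]
        exact mul_le_mul_of_nonneg_left (hG1 η) hP
      · rw [hzero η hη ha hm, ind_false hm]

theorem MM_bounds (Γ : Gr V E) {t : E → ℝ} (ht : T01 t) (W : Finset V) (B : Set V) {E1 : Finset E}
    (hE1 : ∀ e, e ∉ E1 → Γ.s e ∈ W ∧ Γ.r e ∈ W) (o u : V) (hu : u ∈ W) :
    Γ.MM t W B E1 o u ≤ Γ.fkE t (fun ω => ind (Γ.rch (ω : Set E) B u)) ∧
    Γ.fkE t (fun ω => ind (Γ.rch (ω : Set E) B u)) ≤ Γ.MM t W B E1 o u + Γ.rr t W B E1 := by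
  have h := adm_bounds Γ ht W B hE1 o u hu (fun _ => 1) (fun _ => zero_le_one) (fun _ => le_rfl)
  simp only [one_mul, fkE_conn] at h
  exact h

theorem DD_final (Γ : Gr V E) {t : E → ℝ} (ht : T01 t) (W : Finset V) (B : Set V) {E1 : Finset E}
    (hE1 : ∀ e, e ∉ E1 → Γ.s e ∈ W ∧ Γ.r e ∈ W) (F : Finset E) (c : ℝ) (o : V) (ho : o ∈ W) :
    |Γ.fkE t (fun ω => ind (Disjoint ω F) * ind (Γ.rch (ω : Set E) B o)) -
      c * Γ.fkE t (fun ω => ind (Γ.rch (ω : Set E) B o))| ≤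
      Γ.DD t W B E1 F c o + (1 + |c|) * Γ.rr t W B E1 := by
  obtain ⟨a1, a2⟩ := adm_bounds Γ ht W B hE1 o o ho (fun ω => ind (Disjoint ω F))
    (fun _ => ind_nonneg _) (fun _ => ind_le_one _)
  obtain ⟨b1, b2⟩ := MM_bounds Γ ht W B hE1 o o ho
  obtain ⟨X, hX⟩ : ∃ X, X = Γ.fkE t (fun ω => ind (Disjoint ω F) * ind (Γ.rch (ω : Set E) B o)) :=
    ⟨_, rfl⟩
  obtain ⟨Y, hY⟩ : ∃ Y, Y = Γ.fkE t (fun ω => ind (Γ.rch (ω : Set E) B o)) := ⟨_, rfl⟩
  obtain ⟨SX, hSX⟩ : ∃ SX, SX = ∑ η ∈ Γ.admS W B E1, Γ.prE t E1 η *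
      Γ.fkE (setT E1 η t) (fun ω => ind (Disjoint ω F) *
        ind (Γ.Conn (ω : Set E) o (Γ.rep W B (η : Set E) o))) := ⟨_, rfl⟩
  rw [← hX, ← hSX] at a1 a2
  rw [← hY] at b1 b2
  rw [← hX, ← hY]
  have hD : |SX - c * Γ.MM t W B E1 o o| ≤ Γ.DD t W B E1 F c o := by
    have h1 : SX - c * Γ.MM t W B E1 o o = ∑ η ∈ Γ.admS W B E1, Γ.prE t E1 η *
        (Γ.fkE (setT E1 η t) (fun ω => ind (Disjoint ω F) *
          ind (Γ.Conn (ω : Set E) o (Γ.rep W B (η : Set E) o))) -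
        c * Γ.tp (setT E1 η t) o (Γ.rep W B (η : Set E) o)) := by
      rw [hSX]
      unfold Gr.MM
      rw [Finset.mul_sum, ← Finset.sum_sub_distrib]
      refine Finset.sum_congr rfl fun η _ => ?_
      ring
    rw [h1]
    refine le_trans (Finset.abs_sum_le_sum_abs _ _) ?_
    unfold Gr.DD
    refine Finset.sum_le_sum fun η _ => ?_
    rw [abs_mul, abs_of_nonneg (prE_nonneg Γ ht E1 η)]
  have hr : 0 ≤ Γ.rr t W B E1 := by linarith
  have e1 : X - c * Y = (SX - c * Γ.MM t W B E1 o o) + ((X - SX) - c * (Y - Γ.MM t W B E1 o o)) := by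
    ring
  have e2 : |X - SX| ≤ Γ.rr t W B E1 := by
    rw [abs_of_nonneg (by linarith)]
    linarith
  have e3 : |Y - Γ.MM t W B E1 o o| ≤ Γ.rr t W B E1 := by
    rw [abs_of_nonneg (by linarith)]
    linarith
  have e4 : |c * (Y - Γ.MM t W B E1 o o)| ≤ |c| * Γ.rr t W B E1 := by
    rw [abs_mul]
    exact mul_le_mul_of_nonneg_left e3 (abs_nonneg c)
  rw [e1]
  have e5 := abs_add_le (SX - c * Γ.MM t W B E1 o o) ((X - SX) - c * (Y - Γ.MM t W B E1 o o))
  have e6 := abs_sub (X - SX) (c * (Y - Γ.MM t W B E1 o o))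
  linarith

theorem DD_transfer (Γ : Gr V E) {t : E → ℝ} (ht : T01 t) (W : Finset V) (B B' : Set V)
    {E1 : Finset E} (hE1 : ∀ e, e ∉ E1 → Γ.s e ∈ W ∧ Γ.r e ∈ W) (F : Finset E) (c : ℝ) (o : V)
    (ho : o ∈ W)
    (hB : ∀ η ⊆ E1, ∀ z ∈ W, Γ.rch (η : Set E) B z → Γ.rch (η : Set E) B' z) :
    Γ.DD t W B E1 F c o ≤ Γ.DD t W B' E1 F c o + (1 + |c|) * Γ.rr t W B' E1 := by
  have _ := hE1
  have _ := ho
  unfold Gr.DD
  rw [ADM_sum, ADM_sum, ADM_rr Γ ht, Finset.mul_sum, ← Finset.sum_add_distrib]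
  refine Finset.sum_le_sum fun η hη => ?_
  have hη' := Finset.mem_powerset.1 hη
  have hP := prE_nonneg Γ ht E1 η
  have hT := T01_setT ht E1 η
  have hc0 := abs_nonneg c
  by_cases ha : Γ.adm W B (η : Set E)
  · obtain ⟨h1, h2⟩ := ADM_rep Γ W B (η : Set E) o ha.1
    have h3 := hB η hη' _ h1 h2
    by_cases hm : Γ.mlt W B' (η : Set E)
    · rw [ind_true ha, ind_true hm, ind_false (p := Γ.adm W B' (η : Set E)) (fun h => h.2 hm),
        zero_mul, zero_add, one_mul, mul_one, mul_comm (1 + |c|)]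
      refine mul_le_mul_of_nonneg_left ?_ hP
      have k1 : 0 ≤ Γ.fkE (setT E1 η t) (fun ω => ind (Disjoint ω F) *
          ind (Γ.Conn (ω : Set E) o (Γ.rep W B (η : Set E) o))) :=
        fkE_nonneg Γ hT fun ω => mul_nonneg (ind_nonneg _) (ind_nonneg _)
      have k2 : Γ.fkE (setT E1 η t) (fun ω => ind (Disjoint ω F) *
          ind (Γ.Conn (ω : Set E) o (Γ.rep W B (η : Set E) o))) ≤ 1 := by
        rw [← fkE_one Γ hT]
        exact fkE_le Γ hT fun ω => mul_le_one₀ (ind_le_one _) (ind_nonneg _) (ind_le_one _)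
      have k3 := tp_nonneg Γ hT o (Γ.rep W B (η : Set E) o)
      have k4 := tp_le_one Γ hT o (Γ.rep W B (η : Set E) o)
      refine le_trans (abs_sub _ _) ?_
      rw [abs_of_nonneg k1, abs_mul, abs_of_nonneg k3]
      have k5 := mul_le_mul_of_nonneg_left k4 hc0
      linarith
    · have ha' : Γ.adm W B' (η : Set E) := ⟨⟨_, h1, h3⟩, hm⟩
      obtain ⟨h4, h5⟩ := ADM_rep Γ W B' (η : Set E) o ha'.1
      have h6 := ADM_not_mlt hm h1 h4 h3 h5
      have h7 : ∀ ω : Finset E, ω ∩ E1 = η →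
          ind (Γ.Conn (ω : Set E) o (Γ.rep W B (η : Set E) o)) =
          ind (Γ.Conn (ω : Set E) o (Γ.rep W B' (η : Set E) o)) := by
        intro ω hω
        have hηω : (η : Set E) ⊆ (ω : Set E) := by
          rw [← hω]
          exact Finset.coe_subset.2 Finset.inter_subset_left
        have h8 := conn_mono Γ hηω h6
        exact KA_congr ⟨fun h => conn_trans Γ h h8, fun h => conn_trans Γ h (conn_symm Γ h8)⟩
      have h9 := fkE_setT_supp Γ ht hη'
        (f := fun ω => ind (Disjoint ω F) * ind (Γ.Conn (ω : Set E) o (Γ.rep W B (η : Set E) o)))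
        (g := fun ω => ind (Disjoint ω F) * ind (Γ.Conn (ω : Set E) o (Γ.rep W B' (η : Set E) o)))
        (fun ω hω => by simp only [h7 ω hω])
      have h10 := fkE_setT_supp Γ ht hη'
        (f := fun ω => ind (Γ.Conn (ω : Set E) o (Γ.rep W B (η : Set E) o)))
        (g := fun ω => ind (Γ.Conn (ω : Set E) o (Γ.rep W B' (η : Set E) o)))
        (fun ω hω => by simp only [h7 ω hω])
      rw [fkE_conn, fkE_conn] at h10
      rw [ind_true ha, ind_true ha', ind_false hm, h9, h10]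
      simp
  · rw [ind_false ha, zero_mul]
    have k1 := ind_nonneg (Γ.adm W B' (η : Set E))
    have k2 := ind_nonneg (Γ.mlt W B' (η : Set E))
    have k3 := abs_nonneg (Γ.fkE (setT E1 η t) (fun ω => ind (Disjoint ω F) *
        ind (Γ.Conn (ω : Set E) o (Γ.rep W B' (η : Set E) o))) -
        c * Γ.tp (setT E1 η t) o (Γ.rep W B' (η : Set E) o))
    have k4 : 0 ≤ 1 + |c| := by linarith
    exact add_nonneg (mul_nonneg k1 (mul_nonneg hP k3)) (mul_nonneg k4 (mul_nonneg hP k2))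

theorem mlt_rare (Γ : Gr V E) {t : E → ℝ} (ht : T01 t) (W : Finset V) (B : Set V) (E1 : Finset E) :
    (∏ e ∈ E1ᶜ, (1 - t e) / 4) * Γ.rr t W B E1 ≤
      ∑ z ∈ W, ∑ z' ∈ W, Γ.fkE t (fun ω => ind (Γ.rch (ω : Set E) B z)) *
        Γ.fkE t (fun ω => ind (Γ.rch (ω : Set E) B z')) := by
  have h1 := fe_close Γ ht E1ᶜ (f := fun ω => ind (Γ.mlt W B ((ω ∩ E1 : Finset E) : Set E)))
    (fun ω => ind_nonneg _)
  have h2 : (fun ω : Finset E => ind (Γ.mlt W B (((ω \ E1ᶜ) ∩ E1 : Finset E) : Set E))) =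
      fun ω : Finset E => ind (Γ.mlt W B ((ω ∩ E1 : Finset E) : Set E)) := by
    funext ω
    have h3 : (ω \ E1ᶜ) ∩ E1 = ω ∩ E1 := by
      ext e
      simp only [Finset.mem_inter, Finset.mem_sdiff, Finset.mem_compl, not_not]
      tauto
    rw [h3]
  simp only [h2] at h1
  refine le_trans h1 ?_
  have h4 : Γ.fkE t (fun ω => ind (Disjoint ω E1ᶜ) *
      ind (Γ.mlt W B ((ω ∩ E1 : Finset E) : Set E))) ≤
      Γ.fkE t (fun ω => ∑ z ∈ W, ∑ z' ∈ W, ind (Γ.rch (ω : Set E) B z ∧ Γ.rch (ω : Set E) B z' ∧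
        ¬ Γ.Conn (ω : Set E) z z')) := by
    refine fkE_le Γ ht fun ω => ?_
    have hs : 0 ≤ ∑ z ∈ W, ∑ z' ∈ W, ind (Γ.rch (ω : Set E) B z ∧ Γ.rch (ω : Set E) B z' ∧
        ¬ Γ.Conn (ω : Set E) z z') :=
      Finset.sum_nonneg fun _ _ => Finset.sum_nonneg fun _ _ => ind_nonneg _
    by_cases hd : Disjoint ω E1ᶜ
    · have hω : ω ∩ E1 = ω := by
        rw [Finset.inter_eq_left]
        intro e he
        by_contra hne
        exact Finset.disjoint_left.1 hd he (Finset.mem_compl.2 hne)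
      rw [hω, ind_true hd, one_mul]
      by_cases hm : Γ.mlt W B (ω : Set E)
      · rw [ind_true hm]
        obtain ⟨z, hz, z', hz', h5⟩ := hm
        refine le_trans (ind_true h5).symm.le ?_
        refine le_trans ?_ (Finset.single_le_sum (f := fun z => ∑ z' ∈ W,
          ind (Γ.rch (ω : Set E) B z ∧ Γ.rch (ω : Set E) B z' ∧ ¬ Γ.Conn (ω : Set E) z z'))
          (fun _ _ => Finset.sum_nonneg fun _ _ => ind_nonneg _) hz)
        exact Finset.single_le_sum (f := fun z' =>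
          ind (Γ.rch (ω : Set E) B z ∧ Γ.rch (ω : Set E) B z' ∧ ¬ Γ.Conn (ω : Set E) z z'))
          (fun _ _ => ind_nonneg _) hz'
      · rw [ind_false hm]
        exact hs
    · rw [ind_false hd, zero_mul]
      exact hs
  refine le_trans h4 ?_
  rw [fkE_sum Γ t W (fun z ω => ∑ z' ∈ W, ind (Γ.rch (ω : Set E) B z ∧ Γ.rch (ω : Set E) B z' ∧
    ¬ Γ.Conn (ω : Set E) z z'))]
  refine Finset.sum_le_sum fun z _ => ?_
  rw [fkE_sum Γ t W (fun z' ω => ind (Γ.rch (ω : Set E) B z ∧ Γ.rch (ω : Set E) B z' ∧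
    ¬ Γ.Conn (ω : Set E) z z'))]
  refine Finset.sum_le_sum fun z' _ => ?_
  exact product_bound Γ ht B z z'

end H82.IC
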