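import Pool.Agent.H82.IC.G1

/-!
# G2: the shell outside a box is connected (d ≥ 2)

Two points of `∂Λ_n` are connected by edges of `Λ_{n+1}` not in `Λ_n`.
From `x` with `nm x = n`, `|x i| = n`, step to `x' = x ± e_i` with `nm x' = n + 1` (edge in `bE (n+1)`, not in `bE n`; if `n = 0`, `x = y = 0`, trivial).
It remains to connect two points of norm exactly `m = n + 1 ≥ 1` through points of norm exactly `m` (an edge between two points of norm `n + 1` is in `bE (n+1)` and not in `bE n`).
(1) If `|x i| = m`, one can change any other coordinate `j ≠ i` step by step to any value in `[-m, m]` (all points have norm `m` because of coordinate `i`).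
(2) Let `|x i| = m`, `|y j| = m`.  If `i ≠ j`: change coordinate `j` of `x` to `y j`, then (now using coordinate `j`) all others, including `i`, to those of `y`.
(3) If `i = j`: choose `k ≠ i` (`d ≥ 2`), change coordinate `k` of `x` to `m`; call the point `x''`, `|x'' k| = m`, `k ≠ i`; now apply (2) from `x''` (with index `k`) to `y` (index `i`).
-/

set_option autoImplicit false

open Finset

namespace H82.IC

variable {d : ℕ}

theorem G2_nm_le {m : ℕ} {x : Vx d} : nm x ≤ m ↔ ∀ i, |x i| ≤ (m : ℤ) := by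
  rw [← mem_bx, mem_bx_abs]

theorem G2_exists (hd : 1 ≤ d) {m : ℕ} {x : Vx d} (hx : nm x = m) : ∃ i, |x i| = (m : ℤ) := by
  have hne : (univ : Finset (Fin d)).Nonempty := ⟨⟨0, hd⟩, mem_univ _⟩
  obtain ⟨i, -, hi⟩ := exists_mem_eq_sup univ hne (fun i => (x i).natAbs)
  refine ⟨i, ?_⟩
  have h1 : (x i).natAbs = m := by
    rw [← hx]
    exact hi.symm
  rw [← h1, Int.natCast_natAbs]

/-- one step. -/
theorem G2_step {n : ℕ} {x : Vx d} (i : Fin d) (hx : nm x ≤ n + 1)
    (hy : nm (x + Pi.single i 1) ≤ n + 1) (h : nm x = n + 1 ∨ nm (x + Pi.single i 1) = n + 1) :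
    (Zl d).Conn ((bE d (n + 1) : Set (Ed d)) \ bE d n) x (x + Pi.single i 1) := by
  refine Relation.ReflTransGen.single ⟨(x, i), ⟨?_, ?_⟩, Or.inl ⟨rfl, rfl⟩⟩
  · rw [mem_coe, mem_bE]
    exact ⟨hx, hy⟩
  · rw [mem_coe, mem_bE]
    rintro ⟨h1, h2⟩
    have h1' : nm x ≤ n := h1
    have h2' : nm (x + Pi.single i 1) ≤ n := h2
    omega

theorem G2_nm_of {m : ℕ} {x : Vx d} {i : Fin d} (hi : |x i| = (m : ℤ))
    (hx : ∀ k, |x k| ≤ (m : ℤ)) : nm x = m := by
  apply le_antisymm (G2_nm_le.2 hx)
  by_contra hcon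
  push Not at hcon
  have h1 : nm x ≤ m - 1 := by omega
  have h2 := G2_nm_le.1 h1 i
  rw [hi] at h2
  have h3 : m ≤ m - 1 := by exact_mod_cast h2
  omega

theorem G2_upd {m : ℕ} {x : Vx d} {i j : Fin d} (hij : i ≠ j) (hi : |x i| = (m : ℤ))
    (hx : ∀ k, |x k| ≤ (m : ℤ)) {a : ℤ} (ha : |a| ≤ (m : ℤ)) :
    |Function.update x j a i| = (m : ℤ) ∧ ∀ k, |Function.update x j a k| ≤ (m : ℤ) := by
  refine ⟨by rw [Function.update_of_ne hij]; exact hi, fun k => ?_⟩
  by_cases hk : k = j
  · subst hk
    rw [Function.update_self]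
    exact ha
  · rw [Function.update_of_ne hk]
    exact hx k

/-- moving one coordinate upwards. -/
theorem G2_line {n : ℕ} {x : Vx d} {i j : Fin d} (hij : i ≠ j) (hi : |x i| = ((n + 1 : ℕ) : ℤ))
    (hx : ∀ k, |x k| ≤ ((n + 1 : ℕ) : ℤ)) (b c : ℤ) (hbc : b ≤ c)
    (hb : |b| ≤ ((n + 1 : ℕ) : ℤ)) (hc : |c| ≤ ((n + 1 : ℕ) : ℤ)) :
    (Zl d).Conn ((bE d (n + 1) : Set (Ed d)) \ bE d n) (Function.update x j b)
      (Function.update x j c) := by
  revert hc
  induction c, hbc using Int.leInduction with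
  | base => intro _; exact conn_refl _ _ _
  | succ c hbc ih =>
    intro hc
    have hc' : |c| ≤ ((n + 1 : ℕ) : ℤ) := by
      rw [abs_le] at hb hc ⊢
      constructor <;> omega
    refine conn_trans _ (ih hc') ?_
    have he : Function.update x j (c + 1) = Function.update x j c + Pi.single j 1 := by
      funext k
      by_cases hk : k = j
      · subst hk
        simp
      · simp [Function.update_of_ne hk, Pi.single_eq_of_ne hk]
    rw [he]
    have h1 := G2_upd hij hi hx hc'
    have h2 := G2_upd hij hi hx hc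
    rw [he] at h2
    exact G2_step j (G2_nm_of h1.1 h1.2).le (G2_nm_of h2.1 h2.2).le (Or.inl (G2_nm_of h1.1 h1.2))

theorem G2_move {n : ℕ} {x : Vx d} {i j : Fin d} (hij : i ≠ j) (hi : |x i| = ((n + 1 : ℕ) : ℤ))
    (hx : ∀ k, |x k| ≤ ((n + 1 : ℕ) : ℤ)) (a : ℤ) (ha : |a| ≤ ((n + 1 : ℕ) : ℤ)) :
    (Zl d).Conn ((bE d (n + 1) : Set (Ed d)) \ bE d n) x (Function.update x j a) := by
  have h0 : Function.update x j (x j) = x := Function.update_eq_self j x
  rcases le_total (x j) a with h | h
  · have := G2_line hij hi hx (x j) a h (hx j) ha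
    rwa [h0] at this
  · have := G2_line hij hi hx a (x j) h ha (hx j)
    rw [h0] at this
    exact conn_symm _ this

theorem G2_same {n : ℕ} {x y : Vx d} {i : Fin d} (hi : |x i| = ((n + 1 : ℕ) : ℤ))
    (hx : ∀ k, |x k| ≤ ((n + 1 : ℕ) : ℤ)) (hy : ∀ k, |y k| ≤ ((n + 1 : ℕ) : ℤ))
    (hxy : y i = x i) :
    (Zl d).Conn ((bE d (n + 1) : Set (Ed d)) \ bE d n) x y := by
  have key : ∀ s : Finset (Fin d), (Zl d).Conn ((bE d (n + 1) : Set (Ed d)) \ bE d n) x
      (s.piecewise y x) := by
    intro s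
    induction s using Finset.induction_on with
    | empty => rw [piecewise_empty]; exact conn_refl _ _ _
    | insert j s _ ih =>
      rw [piecewise_insert]
      refine conn_trans _ ih ?_
      have hz : ∀ k, |s.piecewise y x k| ≤ ((n + 1 : ℕ) : ℤ) := by
        intro k
        by_cases hk : k ∈ s
        · rw [piecewise_eq_of_mem _ _ _ hk]; exact hy k
        · rw [piecewise_eq_of_notMem _ _ _ hk]; exact hx k
      have hzi : s.piecewise y x i = x i := by
        by_cases hk : i ∈ s
        · rw [piecewise_eq_of_mem _ _ _ hk]; exact hxy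
        · rw [piecewise_eq_of_notMem _ _ _ hk]
      by_cases hji : i = j
      · subst hji
        have : Function.update (s.piecewise y x) i (y i) = s.piecewise y x := by
          rw [hxy, ← hzi]
          exact Function.update_eq_self _ _
        rw [this]
        exact conn_refl _ _ _
      · exact G2_move hji (by rw [hzi]; exact hi) hz (y j) (hy j)
  have h := key univ
  rwa [piecewise_univ] at h

theorem G2_two {n : ℕ} {x y : Vx d} {i j : Fin d} (hij : i ≠ j)
    (hi : |x i| = ((n + 1 : ℕ) : ℤ)) (hj : |y j| = ((n + 1 : ℕ) : ℤ))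
    (hx : ∀ k, |x k| ≤ ((n + 1 : ℕ) : ℤ)) (hy : ∀ k, |y k| ≤ ((n + 1 : ℕ) : ℤ)) :
    (Zl d).Conn ((bE d (n + 1) : Set (Ed d)) \ bE d n) x y := by
  have h1 := G2_move hij hi hx (y j) hj.le
  have h2 := G2_upd hij hi hx (hy j)
  refine conn_trans _ h1 (G2_same (i := j) ?_ h2.2 hy ?_)
  · rw [Function.update_self]; exact hj
  · rw [Function.update_self]

theorem G2_shell (hd : 2 ≤ d) {n : ℕ} {x y : Vx d} (hx : nm x = n + 1) (hy : nm y = n + 1) :
    (Zl d).Conn ((bE d (n + 1) : Set (Ed d)) \ bE d n) x y := by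
  have hd1 : 1 ≤ d := by omega
  obtain ⟨i, hi⟩ := G2_exists hd1 hx
  obtain ⟨j, hj⟩ := G2_exists hd1 hy
  have hx' := G2_nm_le.1 hx.le
  have hy' := G2_nm_le.1 hy.le
  by_cases hij : i = j
  · subst hij
    obtain ⟨k, hk⟩ : ∃ k : Fin d, i ≠ k := by
      by_cases h0 : i = ⟨0, by omega⟩
      · refine ⟨⟨1, by omega⟩, ?_⟩
        rw [h0]
        intro h
        have := congrArg Fin.val h
        simp at this
      · exact ⟨⟨0, by omega⟩, h0⟩
    have ha : |((n + 1 : ℕ) : ℤ)| ≤ ((n + 1 : ℕ) : ℤ) := by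
      rw [abs_of_nonneg (by positivity)]
    have h1 := G2_move hk hi hx' ((n + 1 : ℕ) : ℤ) ha
    have h2 := G2_upd hk hi hx' ha
    refine conn_trans _ h1 (G2_two (i := k) (j := i) hk.symm ?_ hj h2.2 hy')
    rw [Function.update_self, abs_of_nonneg (by positivity)]
  · exact G2_two hij hi hj hx' hy'

/-- one step out of the box. -/
theorem G2_out (hd : 1 ≤ d) {n : ℕ} {x : Vx d} (hx : nm x = n) : ∃ x' : Vx d, nm x' = n + 1 ∧
    (Zl d).Conn ((bE d (n + 1) : Set (Ed d)) \ bE d n) x x' := by
  obtain ⟨i, hi⟩ := G2_exists hd hx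
  have hx' := G2_nm_le.1 hx.le
  rcases abs_eq (by positivity : (0 : ℤ) ≤ n) |>.1 hi with h | h
  · have h1 : nm (x + Pi.single i 1) = n + 1 := by
      apply G2_nm_of (i := i)
      · rw [Pi.add_apply, Pi.single_eq_same, h, abs_of_nonneg (by positivity)]
        push_cast
        ring
      · intro k
        by_cases hk : k = i
        · subst hk
          rw [Pi.add_apply, Pi.single_eq_same, h, abs_of_nonneg (by positivity)]
          push_cast
          exact le_refl _
        · rw [Pi.add_apply, Pi.single_eq_of_ne hk, add_zero]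
          have := hx' k
          push_cast
          omega
    exact ⟨_, h1, G2_step i (by omega) h1.le (Or.inr h1)⟩
  · have h1 : nm (x - Pi.single i 1) = n + 1 := by
      apply G2_nm_of (i := i)
      · rw [Pi.sub_apply, Pi.single_eq_same, h, abs_of_nonpos (by omega)]
        push_cast
        ring
      · intro k
        by_cases hk : k = i
        · subst hk
          rw [Pi.sub_apply, Pi.single_eq_same, h, abs_of_nonpos (by omega)]
          push_cast
          omega
        · rw [Pi.sub_apply, Pi.single_eq_of_ne hk, sub_zero]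
          have := hx' k
          push_cast
          omega
    refine ⟨_, h1, conn_symm _ ?_⟩
    have h2 : x - Pi.single i 1 + Pi.single i 1 = x := sub_add_cancel _ _
    have h3 := G2_step (n := n) (x := x - Pi.single i 1) i h1.le (by rw [h2]; omega) (Or.inl h1)
    rwa [h2] at h3

theorem shell_conn (hd : 2 ≤ d) {n : ℕ} {x y : Vx d} (hx : nm x = n) (hy : nm y = n) :
    (Zl d).Conn ((bE d (n + 1) : Set (Ed d)) \ bE d n) x y := by
  have hd1 : 1 ≤ d := by omega
  obtain ⟨x', hx', h1⟩ := G2_out hd1 hx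
  obtain ⟨y', hy', h2⟩ := G2_out hd1 hy
  exact conn_trans _ h1 (conn_trans _ (G2_shell hd hx' hy') (conn_symm _ h2))

end H82.IC
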