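import Pool.Agent.H82.IC.BR1
import Pool.Agent.H82.IC.G2
import Pool.Agent.H82.IC.HO

/-!
# BR2: free and wired boxes; monotonicity; sandwich
-/

set_option autoImplicit false

open Finset

namespace H82.IC

variable {d : ℕ}

theorem BR2_mem_E1 {m N : ℕ} {e : ↥(bE d N)} : e ∈ E1 d m N ↔ e.1 ∉ bE d m := by
  unfold E1
  rw [Finset.mem_filter]
  exact ⟨fun h => h.2, fun h => ⟨Finset.mem_univ _, h⟩⟩

theorem BR2_mem_sb {E : Type*} {Λ' F : Finset E} {e : ↥Λ'} : e ∈ sb Λ' F ↔ e.1 ∈ F := by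
  classical
  unfold sb
  rw [Finset.mem_filter]
  exact ⟨fun h => h.2, fun h => ⟨Finset.mem_univ _, h⟩⟩

theorem BR2_mem_vl {E : Type*} {Λ : Finset E} {ω : Finset ↥Λ} {e : E} :
    e ∈ vl ω ↔ ∃ h : e ∈ Λ, (⟨e, h⟩ : ↥Λ) ∈ ω := by
  unfold vl
  rw [Finset.mem_map]
  constructor
  · rintro ⟨a, ha, rfl⟩
    exact ⟨a.2, ha⟩
  · rintro ⟨h, he⟩
    exact ⟨⟨e, h⟩, he, rfl⟩

theorem BR2_vl_mono {E : Type*} {Λ : Finset E} {ω ω' : Finset ↥Λ} (h : ω ⊆ ω') : vl ω ⊆ vl ω' := by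
  intro e he
  rw [BR2_mem_vl] at he ⊢
  obtain ⟨h1, h2⟩ := he
  exact ⟨h1, h h2⟩

theorem BR2_sb_sdiff (m N : ℕ) : sb (bE d N) (bE d N \ bE d m) = E1 d m N := by
  ext e
  rw [BR2_mem_sb, BR2_mem_E1, Finset.mem_sdiff]
  exact ⟨fun h => h.2, fun h => ⟨e.2, h⟩⟩

theorem BR2_sb_empty {E : Type*} (Λ' : Finset E) : sb Λ' ∅ = ∅ := by
  ext e
  rw [BR2_mem_sb]
  simp

theorem BR2_E1_self (N : ℕ) : E1 d N N = ∅ := by
  ext e
  rw [BR2_mem_E1]
  simp [e.2]

theorem BR2_setT_empty {E : Type*} (t : E → ℝ) : setT ∅ ∅ t = t := by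
  funext e
  unfold setT
  simp

theorem BR2_setT_le {E : Type*} {t : E → ℝ} (ht : T01 t) {E1 E1' η η' : Finset E}
    (h1 : ∀ e, e ∈ η → e ∈ η') (h2 : ∀ e, e ∈ E1' → e ∈ E1 ∨ e ∈ η') :
    ∀ e, setT E1 η t e ≤ setT E1' η' t e := by
  classical
  intro e
  have := ht e
  unfold setT
  by_cases a : e ∈ η'
  · rw [if_pos a]
    split_ifs
    · exact le_rfl
    · exact zero_le_one
    · exact this.2
  · have b : e ∉ η := fun hb => a (h1 e hb)
    rw [if_neg a, if_neg b]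
    by_cases c : e ∈ E1'
    · have c' : e ∈ E1 := (h2 e c).resolve_right a
      rw [if_pos c, if_pos c']
    · rw [if_neg c]
      split_ifs
      · exact this.1
      · exact le_rfl

theorem BR2_ind_mono {p q : Prop} (h : p → q) : ind p ≤ ind q := by
  unfold ind
  by_cases hp : p
  · rw [if_pos hp, if_pos (h hp)]
  · rw [if_neg hp]
    split_ifs
    · exact zero_le_one
    · exact le_rfl

theorem BR2_ind_nonneg (p : Prop) : 0 ≤ ind p := by
  unfold ind
  split_ifs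
  · exact zero_le_one
  · exact le_rfl

theorem BR2_ind_le_one (p : Prop) : ind p ≤ 1 := by
  unfold ind
  split_ifs
  · exact le_rfl
  · exact zero_le_one

theorem BR2_glue_mono {Λ Λ' : Finset (Ed d)} {ξ ξ' : Cf d} {ω ω' : Finset (Ed d)} (hω : ω ⊆ ω')
    (h : ∀ e, (e ∈ Λ → e ∈ ω → e ∉ Λ' → ξ' e = true) ∧ (e ∉ Λ → ξ e = true → e ∈ Λ' → e ∈ ω') ∧
      (e ∉ Λ → ξ e = true → e ∉ Λ' → ξ' e = true)) :
    ∀ e, glue Λ ξ ω e = true → glue Λ' ξ' ω' e = true := by
  intro e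
  unfold glue
  obtain ⟨h1, h2, h3⟩ := h e
  by_cases a : e ∈ Λ
  · by_cases b : e ∈ Λ'
    · simp only [if_pos a, if_pos b, decide_eq_true_eq]
      exact fun he => hω he
    · simp only [if_pos a, if_neg b, decide_eq_true_eq]
      exact fun he => h1 a he b
  · by_cases b : e ∈ Λ'
    · simp only [if_neg a, if_pos b, decide_eq_true_eq]
      exact fun he => h2 a he b
    · simp only [if_neg a, if_neg b]
      exact fun he => h3 a he b

theorem BR2_f_mono (Λ : Finset (Ed d)) (b : Bool) (N : ℕ) {X : Set (Cf d)} (hX : Inc X) :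
    Monotone (fun ω' : Finset ↥(bE d N) => ind (glue Λ (fun _ => b) (vl ω') ∈ X)) := by
  intro ω ω' h
  apply BR2_ind_mono
  apply hX
  exact BR2_glue_mono (BR2_vl_mono h) (fun e => ⟨fun a _ c => absurd a c, fun a _ c => absurd c a,
    fun _ h _ => h⟩)

theorem phiG_free {β : ℝ} (hβ : 0 ≤ β) (W : Finset (Vx d)) (Λ : Finset (Ed d)) (N : ℕ)
    (hW : ∀ e ∈ Λ, (Zl d).s e ∈ W ∧ (Zl d).r e ∈ W) (hΛ : Λ ⊆ bE d N) (X : Set (Cf d)) :
    phiG β W Λ (fun _ => false) X =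
      (GN d N).fkE (setT (sb (bE d N) (bE d N \ Λ)) ∅ (fun _ => Real.tanh β))
        (fun ω' => ind (glue Λ (fun _ => false) (vl ω') ∈ X)) := by
  have h := bridge hβ W Λ N hW hΛ (fun _ => false) ∅ (Finset.empty_subset _) (by
    intro ω _ e _
    have e1 : (opn (fun _ : Ed d => false) \ (Λ : Set (Ed d))) = ∅ := by
      ext x
      simp [opn]
    rw [e1, Finset.coe_empty]) X
  rw [BR2_sb_empty] at h
  exact h

theorem BR2_hW (m : ℕ) : ∀ e ∈ bE d m, (Zl d).s e ∈ bx d m ∧ (Zl d).r e ∈ bx d m := by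
  intro e he
  rw [mem_bE] at he
  rw [mem_bx, mem_bx]
  exact he

theorem phiB_free {β : ℝ} (hβ : 0 ≤ β) {m N : ℕ} (h : m ≤ N) (X : Set (Cf d)) :
    phiB β m false X = (GN d N).fkE (setT (E1 d m N) ∅ (fun _ => Real.tanh β))
      (fun ω => ind (ext false m N ω ∈ X)) := by
  unfold phiB
  rw [phiG_free hβ (bx d m) (bE d m) N (BR2_hW m) (bE_mono h) X, BR2_sb_sdiff]
  rfl

theorem phiB_self {β : ℝ} (hβ : 0 ≤ β) (N : ℕ) (X : Set (Cf d)) :
    phiB β N false X = (GN d N).fkE (fun _ => Real.tanh β) (fun ω => ind (ext false N N ω ∈ X)) := by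
  rw [phiB_free hβ le_rfl X, BR2_E1_self, BR2_setT_empty]

/-- connection outside `Λ_m` can be replaced by connection in the shell. -/
theorem BR2_shell (hd : 2 ≤ d) {m N : ℕ} (h : m + 1 ≤ N) (ω : Finset (Ed d)) (_hω : ω ⊆ bE d m)
    {x y : Vx d} (hx : nm x ≤ m)
    (hc : (Zl d).Conn ((ω : Set (Ed d)) ∪ (opn (fun _ => true) \ (bE d m : Set (Ed d)))) x y) :
    (nm y ≤ m → (Zl d).Conn ((ω : Set (Ed d)) ∪ ((bE d N \ bE d m : Finset (Ed d)) : Set (Ed d))) x y) ∧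
      (m < nm y → ∀ w : Vx d, nm w = m →
        (Zl d).Conn ((ω : Set (Ed d)) ∪ ((bE d N \ bE d m : Finset (Ed d)) : Set (Ed d))) x w) := by
  have hsh : ((bE d (m + 1) : Set (Ed d)) \ bE d m) ⊆
      (ω : Set (Ed d)) ∪ ((bE d N \ bE d m : Finset (Ed d)) : Set (Ed d)) := by
    intro e he
    right
    rw [Finset.coe_sdiff]
    exact ⟨bE_mono h he.1, he.2⟩
  induction hc with
  | refl =>
    exact ⟨fun _ => conn_refl _ _ _, fun h' => absurd h' (not_lt.2 hx)⟩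
  | @tail v v' _ hv ih =>
    have hstep := nm_step hv
    have hstep' : nm v ≤ nm v' + 1 := nm_step (ω := (ω : Set (Ed d)) ∪ (opn (fun _ => true) \ (bE d m : Set (Ed d)))) (by
      obtain ⟨e, he, h1⟩ := hv
      exact ⟨e, he, h1.symm⟩)
    rcases Nat.lt_or_ge m (nm v) with hv1 | hv1
    · -- outside
      rcases Nat.lt_or_ge m (nm v') with hv2 | hv2
      · exact ⟨fun h' => absurd h' (not_le.2 hv2), fun _ => ih.2 hv1⟩
      · exact ⟨fun _ => ih.2 hv1 v' (by omega), fun h' => absurd h' (not_lt.2 hv2)⟩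
    · rcases Nat.lt_or_ge m (nm v') with hv2 | hv2
      · refine ⟨fun h' => absurd h' (not_le.2 hv2), fun _ w hw => ?_⟩
        exact conn_trans _ (ih.1 hv1) (conn_mono _ hsh (shell_conn hd (by omega) hw))
      · refine ⟨fun _ => ?_, fun h' => absurd h' (not_lt.2 hv2)⟩
        refine conn_trans _ (ih.1 hv1) ?_
        obtain ⟨e, he, h1⟩ := hv
        have heb : e ∈ bE d m := by
          rw [mem_bE]
          rcases h1 with ⟨h2, h3⟩ | ⟨h2, h3⟩
          · rw [h2, h3]; exact ⟨hv1, hv2⟩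
          · rw [h2, h3]; exact ⟨hv2, hv1⟩
        have heω : e ∈ (ω : Set (Ed d)) := by
          rcases he with he | he
          · exact he
          · exact absurd (by exact_mod_cast heb) he.2
        exact Relation.ReflTransGen.single ⟨e, Or.inl heω, h1⟩

theorem phiB_wired (hd : 2 ≤ d) {β : ℝ} (hβ : 0 ≤ β) {m N : ℕ} (h : m + 1 ≤ N) (X : Set (Cf d)) :
    phiB β m true X = (GN d N).fkE (setT (E1 d m N) (E1 d m N) (fun _ => Real.tanh β))
      (fun ω => ind (ext true m N ω ∈ X)) := by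
  unfold phiB
  rw [bridge hβ (bx d m) (bE d m) N (BR2_hW m) (bE_mono (by omega)) (fun _ => true)
    (bE d N \ bE d m) (Finset.Subset.refl _) ?_ X, BR2_sb_sdiff]
  · rfl
  · intro ω hω e he
    rw [mem_bE] at he
    constructor
    · intro hc
      exact (BR2_shell hd h ω hω he.1 hc).1 he.2
    · intro hc
      refine conn_mono _ ?_ hc
      apply Set.union_subset_union_right
      intro x hx
      rw [Finset.coe_sdiff] at hx
      exact ⟨rfl, hx.2⟩

theorem BR2_fkw_nonneg {β : ℝ} (hβ : 0 ≤ β) (W : Finset (Vx d)) (Λ : Finset (Ed d)) (ξ : Cf d)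
    (ω : Finset (Ed d)) : 0 ≤ fkw β W Λ ξ ω := by
  unfold fkw
  have : 0 ≤ Real.exp (2 * β) - 1 := by
    have := Real.one_le_exp (x := 2 * β) (by linarith)
    linarith
  positivity

theorem BR2_den_pos {β : ℝ} (hβ : 0 ≤ β) (W : Finset (Vx d)) (Λ : Finset (Ed d)) (ξ : Cf d) :
    0 < ∑ ω ∈ Λ.powerset, fkw β W Λ ξ ω := by
  apply Finset.sum_pos' (fun ω _ => BR2_fkw_nonneg hβ W Λ ξ ω)
  refine ⟨∅, Finset.empty_mem_powerset Λ, ?_⟩
  unfold fkw
  rw [Finset.card_empty, pow_zero, mul_one]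
  positivity

theorem phiB_nonneg {β : ℝ} (hβ : 0 ≤ β) (n : ℕ) (b : Bool) (X : Set (Cf d)) : 0 ≤ phiB β n b X := by
  unfold phiB phiG
  apply div_nonneg
  · exact Finset.sum_nonneg (fun ω _ => mul_nonneg (BR2_fkw_nonneg hβ _ _ _ _) (BR2_ind_nonneg _))
  · exact (BR2_den_pos hβ _ _ _).le

theorem phiB_le_one {β : ℝ} (hβ : 0 ≤ β) (n : ℕ) (b : Bool) (X : Set (Cf d)) : phiB β n b X ≤ 1 := by
  unfold phiB phiG
  rw [div_le_one (BR2_den_pos hβ _ _ _)]
  exact Finset.sum_le_sum (fun ω _ => mul_le_of_le_one_right (BR2_fkw_nonneg hβ _ _ _ _)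
    (BR2_ind_le_one _))

theorem phiB_mono_set {β : ℝ} (hβ : 0 ≤ β) (n : ℕ) (b : Bool) {X Y : Set (Cf d)} (h : X ⊆ Y) :
    phiB β n b X ≤ phiB β n b Y := by
  unfold phiB phiG
  apply div_le_div_of_nonneg_right _ (BR2_den_pos hβ _ _ _).le
  exact Finset.sum_le_sum (fun ω _ => mul_le_mul_of_nonneg_left (BR2_ind_mono (fun hx => h hx))
    (BR2_fkw_nonneg hβ _ _ _ _))

theorem phiB_union_le {β : ℝ} (hβ : 0 ≤ β) (n : ℕ) (b : Bool) (X Y : Set (Cf d)) :
    phiB β n b (X ∪ Y) ≤ phiB β n b X + phiB β n b Y := by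
  unfold phiB phiG
  rw [← add_div]
  apply div_le_div_of_nonneg_right _ (BR2_den_pos hβ _ _ _).le
  rw [← Finset.sum_add_distrib]
  apply Finset.sum_le_sum
  intro ω _
  rw [← mul_add]
  apply mul_le_mul_of_nonneg_left _ (BR2_fkw_nonneg hβ _ _ _ _)
  unfold ind
  by_cases hX : glue (bE d n) (fun _ => b) ω ∈ X
  · have : glue (bE d n) (fun _ => b) ω ∈ X ∪ Y := Or.inl hX
    rw [if_pos this, if_pos hX]
    have := BR2_ind_nonneg (glue (bE d n) (fun _ => b) ω ∈ Y)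
    unfold ind at this
    linarith
  · by_cases hY : glue (bE d n) (fun _ => b) ω ∈ Y
    · have : glue (bE d n) (fun _ => b) ω ∈ X ∪ Y := Or.inr hY
      rw [if_pos this, if_neg hX, if_pos hY]
      linarith
    · have : ¬ glue (bE d n) (fun _ => b) ω ∈ X ∪ Y := fun h => h.elim hX hY
      rw [if_neg this, if_neg hX, if_neg hY]
      linarith

/-- monotonicity in the volume, free, general regions. -/
theorem phiG_free_mono {β : ℝ} (hβ : 0 ≤ β) (W W' : Finset (Vx d)) (Λ Λ' : Finset (Ed d))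
    (hW : ∀ e ∈ Λ, (Zl d).s e ∈ W ∧ (Zl d).r e ∈ W)
    (hW' : ∀ e ∈ Λ', (Zl d).s e ∈ W' ∧ (Zl d).r e ∈ W') (h : Λ ⊆ Λ') {X : Set (Cf d)} (hX : Inc X) :
    phiG β W Λ (fun _ => false) X ≤ phiG β W' Λ' (fun _ => false) X := by
  obtain ⟨N, hN⟩ := exists_bE Λ'
  rw [phiG_free hβ W Λ N hW (h.trans hN) X, phiG_free hβ W' Λ' N hW' hN X]
  have ht : T01 (fun _ : ↥(bE d N) => Real.tanh β) := T01_tanh β hβ
  refine le_trans (fkE_holley (GN d N) (T01_setT ht _ _) (T01_setT ht _ _) ?_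
    (BR2_f_mono Λ false N hX)) (fkE_le (GN d N) (T01_setT ht _ _) ?_)
  · apply BR2_setT_le ht
    · intro e he; exact he
    · intro e he
      left
      rw [BR2_mem_sb, Finset.mem_sdiff] at he ⊢
      exact ⟨he.1, fun h' => he.2 (h h')⟩
  · intro ω
    apply BR2_ind_mono
    apply hX
    exact BR2_glue_mono (Finset.Subset.refl _) (fun e => ⟨fun a _ c => absurd (h a) c,
      fun _ h' _ => absurd h' (by simp), fun _ h' _ => h'⟩)

theorem phiB_free_mono {β : ℝ} (hβ : 0 ≤ β) {m n : ℕ} (h : m ≤ n) {X : Set (Cf d)} (hX : Inc X) :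
    phiB β m false X ≤ phiB β n false X :=
  phiG_free_mono hβ (bx d m) (bx d n) (bE d m) (bE d n) (BR2_hW m) (BR2_hW n) (bE_mono h) hX

theorem phiB_wired_anti (hd : 2 ≤ d) {β : ℝ} (hβ : 0 ≤ β) {m n : ℕ} (h : m ≤ n) {X : Set (Cf d)}
    (hX : Inc X) : phiB β n true X ≤ phiB β m true X := by
  rw [phiB_wired hd hβ (le_refl (n + 1)) X, phiB_wired hd hβ (show m + 1 ≤ n + 1 by omega) X]
  have ht : T01 (fun _ : ↥(bE d (n + 1)) => Real.tanh β) := T01_tanh β hβ
  have hE : ∀ e, e ∈ E1 d n (n + 1) → e ∈ E1 d m (n + 1) := by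
    intro e he
    rw [BR2_mem_E1] at he ⊢
    exact fun h' => he (bE_mono h h')
  refine le_trans (fkE_holley (GN d (n + 1)) (T01_setT ht _ _) (T01_setT ht _ _) ?_
    (BR2_f_mono (bE d n) true (n + 1) hX)) (fkE_le (GN d (n + 1)) (T01_setT ht _ _) ?_)
  · exact BR2_setT_le ht hE (fun e he => Or.inr he)
  · intro ω
    apply BR2_ind_mono
    apply hX
    exact BR2_glue_mono (Finset.Subset.refl _) (fun e => ⟨fun _ _ _ => rfl,
      fun a _ c => absurd (bE_mono h c) a, fun _ _ _ => rfl⟩)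

theorem phiB_free_le_wired (hd : 2 ≤ d) {β : ℝ} (hβ : 0 ≤ β) (m n : ℕ) {X : Set (Cf d)}
    (hX : Inc X) : phiB β m false X ≤ phiB β n true X := by
  set N := max m n + 1 with hN
  have hm : m ≤ N := le_trans (le_max_left m n) (Nat.le_succ _)
  have hn : n + 1 ≤ N := Nat.succ_le_succ (le_max_right m n)
  rw [phiB_free hβ hm X, phiB_wired hd hβ hn X]
  have ht : T01 (fun _ : ↥(bE d N) => Real.tanh β) := T01_tanh β hβ
  refine le_trans (fkE_holley (GN d N) (t' := setT (E1 d n N) (E1 d n N) (fun _ => Real.tanh β))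
    (T01_setT ht _ _) (T01_setT ht _ _) ?_
    (BR2_f_mono (bE d m) false N hX)) (fkE_le (GN d N) (T01_setT ht _ _) ?_)
  · exact BR2_setT_le ht (fun e he => absurd he (Finset.notMem_empty e)) (fun e he => Or.inr he)
  · intro ω
    apply BR2_ind_mono
    apply hX
    exact BR2_glue_mono (Finset.Subset.refl _) (fun e => ⟨fun _ _ _ => rfl,
      fun _ h' _ => absurd h' (by simp), fun _ _ _ => rfl⟩)

theorem sandwich (hd : 2 ≤ d) {β : ℝ} (hβ : 0 ≤ β) {m N : ℕ} (h : m + 1 ≤ N)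
    (η : Finset ↥(bE d N)) (hη : η ⊆ E1 d m N) {X : Set (Cf d)} (hX : Inc X) :
    phiB β m false X ≤ (GN d N).fkE (setT (E1 d m N) η (fun _ => Real.tanh β))
        (fun ω => ind (ext false N N ω ∈ X)) ∧
      (GN d N).fkE (setT (E1 d m N) η (fun _ => Real.tanh β))
        (fun ω => ind (ext false N N ω ∈ X)) ≤ phiB β m true X := by
  have ht : T01 (fun _ : ↥(bE d N) => Real.tanh β) := T01_tanh β hβ
  rw [phiB_free hβ (show m ≤ N by omega) X, phiB_wired hd hβ h X]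
  constructor
  · refine le_trans (fkE_holley (GN d N) (t' := setT (E1 d m N) η (fun _ => Real.tanh β))
      (T01_setT ht _ _) (T01_setT ht _ _) ?_
      (BR2_f_mono (bE d m) false N hX)) (fkE_le (GN d N) (T01_setT ht _ _) ?_)
    · exact BR2_setT_le ht (fun e he => absurd he (Finset.notMem_empty e)) (fun e he => Or.inl he)
    · intro ω
      apply BR2_ind_mono
      apply hX
      exact BR2_glue_mono (Finset.Subset.refl _) (fun e => ⟨fun a _ c => absurd (bE_mono (show m ≤ N by omega) a) c,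
        fun _ h' _ => absurd h' (by simp), fun _ h' _ => h'⟩)
  · refine le_trans (fkE_holley (GN d N) (t' := setT (E1 d m N) (E1 d m N) (fun _ => Real.tanh β))
      (T01_setT ht _ _) (T01_setT ht _ _) ?_
      (BR2_f_mono (bE d N) false N hX)) (fkE_le (GN d N) (T01_setT ht _ _) ?_)
    · exact BR2_setT_le ht (fun e he => hη he) (fun e he => Or.inl he)
    · intro ω
      apply BR2_ind_mono
      apply hX
      exact BR2_glue_mono (Finset.Subset.refl _) (fun e => ⟨fun _ _ _ => rfl,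
        fun _ h' _ => absurd h' (by simp), fun _ _ _ => rfl⟩)

end H82.IC
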