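import Pool.Agent.H82.IC.AU
import Pool.Agent.H82.IC.BR2

/-!
# AUP: the finite volume measures under automorphisms

`phiG β (gV W) (gE Λ) ξ (act g)⁻¹ X = phiG β W Λ (act g ξ) X`: reindex the sums by `ω' = ω.map gE` (`ω ⊆ Λ`): `act g (glue (gE Λ) ξ ω') = glue Λ (act g ξ) ω`, same cardinality, and
`kx (gV W) (glue (gE Λ) ξ ω') = kx W (act g (glue ...))`: clusters correspond by `gV` (`conn_aut`), so the numbers of distinct clusters are equal.
* `phiB_aut`: `g` with `nm (gV x) = nm x`: `gV (bx n) = bx n`, `gE (bE n) = bE n`.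
* `phiB_shift`: `g` with `nm (gV x) ≤ nm x + k`: `gE (bE n) ⊆ bE (n+k)`; `phiG_free_mono` (the event `(act g)⁻¹ X` is increasing if `X` is).
-/

set_option autoImplicit false

open Finset

namespace H82.IC

variable {d : ℕ}

theorem AUP_glue (g : LAut d) (Λ : Finset (Ed d)) (ξ : Cf d) (ω : Finset (Ed d)) :
    act g (glue (Λ.map g.gE.toEmbedding) ξ (ω.map g.gE.toEmbedding)) = glue Λ (act g ξ) ω := by
  have h1 : ∀ (S : Finset (Ed d)) (e : Ed d), g.gE e ∈ S.map g.gE.toEmbedding ↔ e ∈ S := fun S e =>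
    Finset.mem_map' g.gE.toEmbedding
  funext e
  unfold act glue
  simp only [h1]

theorem AUP_kx (g : LAut d) (W : Finset (Vx d)) (ζ : Cf d) :
    kx (W.map g.gV.toEmbedding) ζ = kx W (act g ζ) := by
  have hcl : ∀ v : Vx d, (Zl d).cl (opn ζ) (g.gV v) = g.gV '' (Zl d).cl (opn (act g ζ)) v := by
    intro v
    ext y
    constructor
    · intro hy
      refine ⟨g.gV.symm y, ?_, g.gV.apply_symm_apply y⟩
      have h1 := (conn_aut g (opn ζ) v (g.gV.symm y)).2 (by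
        rw [g.gV.apply_symm_apply]
        exact hy)
      exact h1
    · rintro ⟨x, hx, rfl⟩
      exact (conn_aut g (opn ζ) v x).1 hx
  unfold kx
  have himg : {C : Set (Vx d) | ∃ v ∈ W.map g.gV.toEmbedding, C = (Zl d).cl (opn ζ) v} =
      (fun C : Set (Vx d) => g.gV '' C) ''
        {C : Set (Vx d) | ∃ v ∈ W, C = (Zl d).cl (opn (act g ζ)) v} := by
    ext C
    constructor
    · rintro ⟨v, hv, rfl⟩
      obtain ⟨w, hw, rfl⟩ := Finset.mem_map.1 hv
      exact ⟨_, ⟨w, hw, rfl⟩, (hcl w).symm⟩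
    · rintro ⟨C', ⟨w, hw, rfl⟩, rfl⟩
      exact ⟨g.gV w, Finset.mem_map.2 ⟨w, hw, rfl⟩, (hcl w).symm⟩
  rw [himg]
  exact Set.ncard_image_of_injective _ (Set.image_injective.2 g.gV.injective)

theorem AUP_fkw (g : LAut d) (β : ℝ) (W : Finset (Vx d)) (Λ : Finset (Ed d)) (ξ : Cf d)
    (ω : Finset (Ed d)) :
    fkw β (W.map g.gV.toEmbedding) (Λ.map g.gE.toEmbedding) ξ (ω.map g.gE.toEmbedding) =
      fkw β W Λ (act g ξ) ω := by
  unfold fkw
  rw [AUP_kx, AUP_glue, Finset.card_map]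

theorem AUP_sum (g : LAut d) (Λ : Finset (Ed d)) (F : Finset (Ed d) → ℝ) :
    ∑ ω ∈ (Λ.map g.gE.toEmbedding).powerset, F ω =
      ∑ ω ∈ Λ.powerset, F (ω.map g.gE.toEmbedding) := by
  symm
  refine Finset.sum_nbij (fun ω => ω.map g.gE.toEmbedding) ?_ ?_ ?_ (fun _ _ => rfl)
  · intro ω hω
    rw [Finset.mem_powerset] at hω ⊢
    exact Finset.map_subset_map.2 hω
  · intro ω _ ω' _ h
    exact Finset.map_injective _ h
  · intro ω hω
    rw [Finset.mem_coe, Finset.mem_powerset, Finset.subset_map_iff] at hω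
    obtain ⟨u, hu, rfl⟩ := hω
    exact ⟨u, Finset.mem_coe.2 (Finset.mem_powerset.2 hu), rfl⟩

theorem phiG_aut (g : LAut d) (β : ℝ) (W : Finset (Vx d)) (Λ : Finset (Ed d)) (ξ : Cf d)
    (X : Set (Cf d)) :
    phiG β (W.map g.gV.toEmbedding) (Λ.map g.gE.toEmbedding) ξ {ω | act g ω ∈ X} =
      phiG β W Λ (act g ξ) X := by
  unfold phiG
  rw [AUP_sum, AUP_sum]
  simp only [AUP_fkw, Set.mem_ofPred_eq, AUP_glue]

theorem phiB_aut (g : LAut d) (hg : ∀ x, nm (g.gV x) = nm x) (β : ℝ) (n : ℕ) (b : Bool)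
    (X : Set (Cf d)) : phiB β n b {ω | act g ω ∈ X} = phiB β n b X := by
  have h1 : (bx d n).map g.gV.toEmbedding = bx d n := by
    ext x
    rw [Finset.mem_map_equiv, mem_bx, mem_bx]
    have h2 := hg (g.gV.symm x)
    rw [g.gV.apply_symm_apply] at h2
    rw [h2]
  have h3 : (bE d n).map g.gE.toEmbedding = bE d n := by
    ext e
    rw [Finset.mem_map_equiv]
    have h4 := aut_bE g hg n (g.gE.symm e)
    rw [g.gE.apply_symm_apply] at h4
    exact h4.symm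
  have h5 := phiG_aut g β (bx d n) (bE d n) (fun _ => b) X
  rw [h1, h3] at h5
  exact h5

theorem phiB_shift (g : LAut d) (k : ℕ) (hg : ∀ x, nm (g.gV x) ≤ nm x + k) {β : ℝ} (hβ : 0 ≤ β)
    (n : ℕ) {X : Set (Cf d)} (hX : Inc X) :
    phiB β n false X ≤ phiB β (n + k) false {ω | act g ω ∈ X} := by
  have h5 := phiG_aut g β (bx d n) (bE d n) (fun _ => false) X
  have h6 : phiB β n false X = phiG β ((bx d n).map g.gV.toEmbedding)
      ((bE d n).map g.gE.toEmbedding) (fun _ => false) {ω | act g ω ∈ X} := h5.symm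
  rw [h6]
  refine phiG_free_mono hβ _ _ _ _ ?_ ?_ ?_ ?_
  · intro e he
    obtain ⟨e0, he0, rfl⟩ := Finset.mem_map.1 he
    have h7 := mem_bE.1 he0
    have h8 : ∀ x : Vx d, nm x ≤ n → g.gV x ∈ (bx d n).map g.gV.toEmbedding := fun x hx =>
      Finset.mem_map.2 ⟨x, mem_bx.2 hx, rfl⟩
    change (Zl d).s (g.gE e0) ∈ _ ∧ (Zl d).r (g.gE e0) ∈ _
    rcases g.ok e0 with ⟨h9, h10⟩ | ⟨h9, h10⟩
    · rw [h9, h10]
      exact ⟨h8 _ h7.1, h8 _ h7.2⟩
    · rw [h9, h10]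
      exact ⟨h8 _ h7.2, h8 _ h7.1⟩
  · intro e he
    have h7 := mem_bE.1 he
    exact ⟨mem_bx.2 h7.1, mem_bx.2 h7.2⟩
  · intro e he
    obtain ⟨e0, he0, rfl⟩ := Finset.mem_map.1 he
    exact aut_bE_le g k hg n he0
  · intro ω ω' h hω
    exact hX _ _ (fun e he => h (g.gE e) he) hω

end H82.IC
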