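import Pool.Agent.H82.IC.BKA
import Pool.Agent.H82.IC.G1

/-!
# BKB: Burton-Keane in a box of the lattice

`til r x = {z | nm (z - x) ≤ r}`.  `Tri S r x` (for a set `S` of open edges): there are `v1 v2 v3 ∈ til r x` whose clusters in `S \ ins (til r x)` are infinite and pairwise not connected in
`S \ ins (til r x)`.
Let `q z = x` if `z ∈ til r x` for the (unique) `x ∈ X`, `q z = z` if `z` is in no tile; `Γ'` the graph on the edges `↥(bE d n)` with ends `q (s e)`, `q (r e)` (contraction of the tiles), `ω'` the finset of the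
edges of `bE n` in `S`.
* Lifting lemma: let `P ⊆ bE n` be a set of edges and let `X' ⊆ X` be such that for every `x ∈ X'` all edges of `ins (til r x)` are in `P`, and no edge of `P` touches a tile `til r x` with `x ∈ X \ X'`.  Then for
  `z, w` not in any tile: `Conn Γ' P (q z) (q w)` implies `Conn (Zl d) P z w` (induction on the path in `Γ'`: if `q (r e) = q (s e')` then `r e = s e'` or both are in one tile `til r x`, `x ∈ X'`, which is
  connected inside by edges of `P`: `box_conn` translated).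
* Conversely `Conn (Zl d) P z w` implies `Conn Γ' P (q z) (q w)` (map the path).
Apply `bk_finite` to `Γ'`, `ω'`, `S := bdry d n`, `D := X`.  Centres are not in `bdry n` (`nm x < n`).  For `x ∈ X` let `v_j` be as in `Tri`; the infinite cluster of `v_j` in `S \ ins (til r x)` leaves `Λ_n`, so
`exit_box` gives `b_j ∈ bdry n` with `v_j ↔ b_j` in `(S \ ins (til r x)) ∩ bE n`.  So `Conn Γ' ω' x b_j` (`q v_j = x`, `q b_j = b_j` since tiles are inside `Λ_{n-1}`).  If `b_1, b_2` were connected in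
`Γ'` by edges of `ω' \ tch' {x}` (= edges of `S ∩ bE n` not touching `til r x`), then by the lifting lemma (`X' = X \ {x}`, tiles are disjoint so the inner edges of the others do not touch `til r x`) they would be
connected in `S ∩ bE n \ tch (til r x) ⊆ S \ ins (til r x)`, and so `v_1 ↔ v_2` there, contradiction.
-/

set_option autoImplicit false

open Finset

namespace H82.IC

variable {d : ℕ}

/-- tile of radius `r` around `x`. -/
def til {d : ℕ} (r : ℕ) (x : Vx d) : Set (Vx d) := {z | nm (z - x) ≤ r}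

/-- three infinite branches at the tile. -/
def Tri {d : ℕ} (S : Set (Ed d)) (r : ℕ) (x : Vx d) : Prop :=
  ∃ v1 ∈ til r x, ∃ v2 ∈ til r x, ∃ v3 ∈ til r x,
    ((Zl d).cl (S \ (Zl d).ins (til r x)) v1).Infinite ∧
    ((Zl d).cl (S \ (Zl d).ins (til r x)) v2).Infinite ∧
    ((Zl d).cl (S \ (Zl d).ins (til r x)) v3).Infinite ∧
    ¬ (Zl d).Conn (S \ (Zl d).ins (til r x)) v1 v2 ∧
    ¬ (Zl d).Conn (S \ (Zl d).ins (til r x)) v1 v3 ∧
    ¬ (Zl d).Conn (S \ (Zl d).ins (til r x)) v2 v3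

theorem BKB_til_self (r : ℕ) (x : Vx d) : x ∈ til r x := by
  change nm (x - x) ≤ r
  rw [sub_self, nm_zero]
  exact Nat.zero_le r

theorem BKB_til_nm {r : ℕ} {x z : Vx d} (h : z ∈ til r x) : nm z ≤ nm x + r := by
  have h1 : nm (z - x) ≤ r := h
  have h2 := nm_add (z - x) x
  rw [sub_add_cancel] at h2
  omega

theorem BKB_tile_conn {r : ℕ} {x a b : Vx d} (ha : a ∈ til r x) (hb : b ∈ til r x) :
    (Zl d).Conn ((Zl d).ins (til r x)) a b := by
  have h1 : (Zl d).Conn (bE d r : Set (Ed d)) (a - x) (b - x) := box_conn ha hb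
  have key : ∀ u v : Vx d, (Zl d).Conn (bE d r : Set (Ed d)) u v →
      (Zl d).Conn ((Zl d).ins (til r x)) (u + x) (v + x) := by
    intro u v h
    induction h with
    | refl => exact Relation.ReflTransGen.refl
    | tail _ h2 ih =>
      refine Relation.ReflTransGen.tail ih ?_
      obtain ⟨e, he, h3⟩ := h2
      have h4 := mem_bE.1 (Finset.mem_coe.1 he)
      have hs : (Zl d).s ((e.1 + x, e.2) : Ed d) = (Zl d).s e + x := rfl
      have hr : (Zl d).r ((e.1 + x, e.2) : Ed d) = (Zl d).r e + x := by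
        change e.1 + x + Pi.single e.2 1 = e.1 + Pi.single e.2 1 + x
        rw [add_right_comm]
      refine ⟨(e.1 + x, e.2), ⟨?_, ?_⟩, ?_⟩
      · rw [hs]
        change nm ((Zl d).s e + x - x) ≤ r
        rw [add_sub_cancel_right]
        exact h4.1
      · rw [hr]
        change nm ((Zl d).r e + x - x) ≤ r
        rw [add_sub_cancel_right]
        exact h4.2
      · rw [hs, hr]
        rcases h3 with ⟨h5, h6⟩ | ⟨h5, h6⟩
        · exact Or.inl ⟨by rw [h5], by rw [h6]⟩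
        · exact Or.inr ⟨by rw [h5], by rw [h6]⟩
  have h2 := key _ _ h1
  rw [sub_add_cancel, sub_add_cancel] at h2
  exact h2

/-- the contraction of the tiles -/
noncomputable def BKB_q (r : ℕ) (X : Finset (Vx d)) (z : Vx d) : Vx d :=
  open Classical in if h : ∃ x, x ∈ X ∧ z ∈ til r x then h.choose else z

theorem BKB_q1 {r : ℕ} {X : Finset (Vx d)}
    (hX2 : ∀ x ∈ X, ∀ y ∈ X, x ≠ y → Disjoint (til r x) (til r y)) {x z : Vx d} (hx : x ∈ X)
    (hz : z ∈ til r x) : BKB_q r X z = x := by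
  have h : ∃ x, x ∈ X ∧ z ∈ til r x := ⟨x, hx, hz⟩
  unfold BKB_q
  rw [dif_pos h]
  obtain ⟨h1, h2⟩ := h.choose_spec
  by_contra hne
  exact Set.disjoint_left.1 (hX2 _ h1 _ hx hne) h2 hz

theorem BKB_q2 {r : ℕ} {X : Finset (Vx d)} {z : Vx d} (hz : ∀ x ∈ X, z ∉ til r x) :
    BKB_q r X z = z := by
  have h : ¬ ∃ x, x ∈ X ∧ z ∈ til r x := by
    rintro ⟨x, hx, h⟩
    exact hz x hx h
  unfold BKB_q
  rw [dif_neg h]

/-- two points with the same image are equal or in the same tile -/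
theorem BKB_q3 {r : ℕ} {X : Finset (Vx d)}
    (hX2 : ∀ x ∈ X, ∀ y ∈ X, x ≠ y → Disjoint (til r x) (til r y)) {a b : Vx d}
    (hab : BKB_q r X a = BKB_q r X b) : a = b ∨ ∃ x ∈ X, a ∈ til r x ∧ b ∈ til r x := by
  by_cases ha : ∃ x ∈ X, a ∈ til r x
  · obtain ⟨x, hx, hax⟩ := ha
    rw [BKB_q1 hX2 hx hax] at hab
    right
    by_cases hb : ∃ y ∈ X, b ∈ til r y
    · obtain ⟨y, hy, hby⟩ := hb
      rw [BKB_q1 hX2 hy hby] at hab
      rw [← hab] at hby
      exact ⟨x, hx, hax, hby⟩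
    · push Not at hb
      rw [BKB_q2 hb] at hab
      exact absurd (hab ▸ BKB_til_self r x) (hb x hx)
  · push Not at ha
    rw [BKB_q2 ha] at hab
    by_cases hb : ∃ y ∈ X, b ∈ til r y
    · obtain ⟨y, hy, hby⟩ := hb
      rw [BKB_q1 hX2 hy hby] at hab
      exact absurd (hab ▸ BKB_til_self r y) (ha y hy)
    · push Not at hb
      rw [BKB_q2 hb] at hab
      exact Or.inl hab

/-- the contracted graph -/
noncomputable def BKB_G (r n : ℕ) (X : Finset (Vx d)) : Gr (Vx d) ↥(bE d n) where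
  s e := BKB_q r X ((Zl d).s e.1)
  r e := BKB_q r X ((Zl d).r e.1)

theorem BKB_map (r n : ℕ) (X : Finset (Vx d)) (P : Set (Ed d)) (ω : Set ↥(bE d n))
    (hP : ∀ e ∈ P, ∃ h : e ∈ bE d n, (⟨e, h⟩ : ↥(bE d n)) ∈ ω) {z w : Vx d}
    (h : (Zl d).Conn P z w) : (BKB_G r n X).Conn ω (BKB_q r X z) (BKB_q r X w) := by
  induction h with
  | refl => exact Relation.ReflTransGen.refl
  | tail _ h2 ih =>
    refine Relation.ReflTransGen.tail ih ?_
    obtain ⟨e, he, h3⟩ := h2
    obtain ⟨h4, h5⟩ := hP e he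
    refine ⟨⟨e, h4⟩, h5, ?_⟩
    rcases h3 with ⟨h6, h7⟩ | ⟨h6, h7⟩
    · exact Or.inl ⟨congrArg (BKB_q r X) h6, congrArg (BKB_q r X) h7⟩
    · exact Or.inr ⟨congrArg (BKB_q r X) h6, congrArg (BKB_q r X) h7⟩

theorem BKB_inf {n : ℕ} {C : Set (Vx d)} (hC : C.Infinite) : ∃ y ∈ C, n ≤ nm y := by
  by_contra hcon
  push Not at hcon
  apply hC
  refine (bx d n).finite_toSet.subset ?_
  intro y hy
  rw [Finset.mem_coe, mem_bx]
  exact (hcon y hy).le

theorem bk_box (hd : 1 ≤ d) (S : Set (Ed d)) (r n : ℕ) (X : Finset (Vx d))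
    (hX1 : ∀ x ∈ X, nm x + r + 1 ≤ n) (hX2 : ∀ x ∈ X, ∀ y ∈ X, x ≠ y → Disjoint (til r x) (til r y))
    (hX3 : ∀ x ∈ X, (Zl d).ins (til r x) ⊆ S) (hX4 : ∀ x ∈ X, Tri S r x) :
    X.card ≤ (bdry d n).card := by
  classical
  have hbt : ∀ b ∈ bdry d n, ∀ x ∈ X, b ∉ til r x := by
    intro b hb x hx hbx
    have h1 := (mem_bdry hd).1 hb
    have h2 := BKB_til_nm hbx
    have h3 := hX1 x hx
    omega
  let ω' : Finset ↥(bE d n) := univ.filter (fun e => e.1 ∈ S)
  have hω' : ∀ e : ↥(bE d n), e ∈ (ω' : Set ↥(bE d n)) ↔ e.1 ∈ S := by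
    intro e
    rw [Finset.mem_coe, Finset.mem_filter]
    exact ⟨fun h => h.2, fun h => ⟨Finset.mem_univ _, h⟩⟩
  -- the lifting lemma
  have lift : ∀ c ∈ X, ∀ b1 ∈ bdry d n, ∀ b2 ∈ bdry d n,
      (BKB_G r n X).Conn ((ω' : Set ↥(bE d n)) \ (BKB_G r n X).tch {c}) b1 b2 →
      (Zl d).Conn (S \ (Zl d).ins (til r c)) b1 b2 := by
    intro c hc b1 hb1 b2 hb2 hconn
    have L : ∀ a b : Vx d, BKB_q r X a = BKB_q r X b → a ∉ til r c →
        (Zl d).Conn (S \ (Zl d).ins (til r c)) a b := by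
      intro a b hab ha
      rcases BKB_q3 hX2 hab with rfl | ⟨x, hx, hax, hbx⟩
      · exact conn_refl _ _ _
      · refine conn_mono _ ?_ (BKB_tile_conn hax hbx)
        intro e he
        refine ⟨hX3 x hx he, ?_⟩
        rintro ⟨h1, -⟩
        have hxc : x ≠ c := by
          rintro rfl
          exact ha hax
        exact Set.disjoint_left.1 (hX2 x hx c hc hxc) he.1 h1
    have key : ∀ v, (BKB_G r n X).Conn ((ω' : Set ↥(bE d n)) \ (BKB_G r n X).tch {c}) b1 v →
        ∃ a, BKB_q r X a = v ∧ a ∉ til r c ∧ (Zl d).Conn (S \ (Zl d).ins (til r c)) b1 a := by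
      intro v hv
      induction hv with
      | refl => exact ⟨b1, BKB_q2 (hbt b1 hb1), hbt b1 hb1 c hc, conn_refl _ _ _⟩
      | tail _ h2 ih =>
        obtain ⟨a, ha1, ha2, ha3⟩ := ih
        obtain ⟨e, ⟨he1, he2⟩, h3⟩ := h2
        have hs : (Zl d).s e.1 ∉ til r c := fun h => he2 (Or.inl (BKB_q1 hX2 hc h))
        have hr : (Zl d).r e.1 ∉ til r c := fun h => he2 (Or.inr (BKB_q1 hX2 hc h))
        have heS : e.1 ∈ S \ (Zl d).ins (til r c) := ⟨(hω' e).1 he1, fun h => hs h.1⟩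
        have hedge := conn_edge (Zl d) heS
        rcases h3 with ⟨h6, h7⟩ | ⟨h6, h7⟩
        · have h8 : BKB_q r X a = BKB_q r X ((Zl d).s e.1) := ha1.trans h6.symm
          exact ⟨(Zl d).r e.1, h7, hr, conn_trans _ ha3 (conn_trans _ (L _ _ h8 ha2) hedge)⟩
        · have h8 : BKB_q r X a = BKB_q r X ((Zl d).r e.1) := ha1.trans h7.symm
          exact ⟨(Zl d).s e.1, h6, hs,
            conn_trans _ ha3 (conn_trans _ (L _ _ h8 ha2) (conn_symm _ hedge))⟩
    obtain ⟨a, ha1, ha2, ha3⟩ := key b2 hconn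
    have h8 : BKB_q r X a = BKB_q r X b2 := by rw [ha1, BKB_q2 (hbt b2 hb2)]
    exact conn_trans _ ha3 (L _ _ h8 ha2)
  -- the exits
  have exits : ∀ c ∈ X, ∀ v ∈ til r c, ((Zl d).cl (S \ (Zl d).ins (til r c)) v).Infinite →
      ∃ b ∈ bdry d n, (BKB_G r n X).Conn (ω' : Set ↥(bE d n)) c b ∧
        (Zl d).Conn (S \ (Zl d).ins (til r c)) v b := by
    intro c hc v hv hinf
    obtain ⟨y, hy, hny⟩ := BKB_inf (n := n) hinf
    have h1 := BKB_til_nm hv
    have h2 := hX1 c hc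
    obtain ⟨b, hb, hvb⟩ := exit_box hd (by omega) hny hy
    refine ⟨b, hb, ?_, conn_mono _ Set.inter_subset_left hvb⟩
    have h3 := BKB_map r n X ((S \ (Zl d).ins (til r c)) ∩ (bE d n : Set (Ed d)))
      (ω' : Set ↥(bE d n)) (fun e he => ⟨he.2, (hω' _).2 he.1.1⟩) hvb
    rw [BKB_q1 hX2 hc hv, BKB_q2 (hbt b hb)] at h3
    exact h3
  refine bk_finite (BKB_G r n X) ω' (bdry d n) X ?_ ?_
  · intro c hc hcb
    exact hbt c hcb c hc (BKB_til_self r c)
  · intro c hc
    obtain ⟨v1, hv1, v2, hv2, v3, hv3, i1, i2, i3, n12, n13, n23⟩ := hX4 c hc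
    obtain ⟨b1, hb1, c1, d1⟩ := exits c hc v1 hv1 i1
    obtain ⟨b2, hb2, c2, d2⟩ := exits c hc v2 hv2 i2
    obtain ⟨b3, hb3, c3, d3⟩ := exits c hc v3 hv3 i3
    refine ⟨b1, hb1, b2, hb2, b3, hb3, c1, c2, c3, ?_, ?_, ?_⟩
    · intro h
      exact n12 (conn_trans _ d1 (conn_trans _ (lift c hc b1 hb1 b2 hb2 h) (conn_symm _ d2)))
    · intro h
      exact n13 (conn_trans _ d1 (conn_trans _ (lift c hc b1 hb1 b3 hb3 h) (conn_symm _ d3)))
    · intro h
      exact n23 (conn_trans _ d2 (conn_trans _ (lift c hc b2 hb2 b3 hb3 h) (conn_symm _ d3)))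

end H82.IC
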