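import Pool.Agent.H82.IC.SW

/-!
# FK1: the FK-Ising sums

`fkS t f = trc (wFK t) 0 f`.
* `fkS_eq`: for fixed `ω`, `∏ e, wFK t e (η e) (e ∈ ω)` is `0` unless the support of `η` is in `ω`, and then it is
  `(∏ e ∈ ω, t e) (∏ e ∈ ωᶜ, (1 - t e))`; so the sum over `η` gives `kap ω`.
* `fkS_one`: `trc_pm1` with `wFK t e a true + wFK t e a false = hp t e a`.
* `trc_FK_src`: the same computation with boundary `S` gives `∑ ω, kapS S ω ...`; with `kapS_src` it is `fkS t (f * ind Conn)`; with `f = 1` and `trc_pm1`: `z t (src u v)`.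
* `fkS_F`: `fkS t (1[ω ∩ F = ∅] 1[u ↔ v]) = trc (wFK t) (src u v) 1[ω ∩ F = ∅]`.  Multiplying by `1[ω ∩ F = ∅]` amounts to replace the weights on `F` by
  `(0,closed) ↦ 1 - t`, everything else `0`, whose sum over `b` is `(1 - t e) * hp (off F t) e a`; conclude by `trc_pm1`-type computation.
* `z_pos`: the term `η = 0` is `1`, all terms are `≥ 0`.
* the `fkE` statements follow by dividing by `z t 0 = fkS t 1 ≥ 1`.
-/

set_option autoImplicit false

open Finset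

namespace H82.IC

variable {V E : Type*} [Fintype E] [DecidableEq E]

theorem FK1_prod (t : E → ℝ) (ω : Finset E) (η : E → ZMod 2) :
    ∏ e, wFK t e (η e) (decide (e ∈ ω)) =
      ind (∀ e, η e ≠ 0 → e ∈ ω) * ((∏ e ∈ ω, t e) * ∏ e ∈ ωᶜ, (1 - t e)) := by
  rw [← Finset.prod_mul_prod_compl ω]
  have h1 : ∏ e ∈ ω, wFK t e (η e) (decide (e ∈ ω)) = ∏ e ∈ ω, t e := by
    refine Finset.prod_congr rfl fun e he => ?_
    simp [wFK, he]
  rw [h1]
  by_cases h : ∀ e, η e ≠ 0 → e ∈ ω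
  · rw [ind_true h, one_mul]
    congr 1
    refine Finset.prod_congr rfl fun e he => ?_
    have he' : e ∉ ω := Finset.mem_compl.1 he
    have h0 : η e = 0 := by
      by_contra hne
      exact he' (h e hne)
    simp [wFK, he', h0]
  · rw [ind_false h, zero_mul]
    push Not at h
    obtain ⟨e, he, heω⟩ := h
    have : ∏ e ∈ ωᶜ, wFK t e (η e) (decide (e ∈ ω)) = 0 := by
      refine Finset.prod_eq_zero (Finset.mem_compl.2 heω) ?_
      simp [wFK, heω, he]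
    rw [this, mul_zero]

theorem FK1_trc (Γ : Gr V E) (t : E → ℝ) (S : V → ZMod 2) (f : Finset E → ℝ) :
    Γ.trc (wFK t) S f =
      ∑ ω : Finset E, Γ.kapS S ω * ((∏ e ∈ ω, t e) * ∏ e ∈ ωᶜ, (1 - t e)) * f ω := by
  unfold Gr.trc
  rw [Finset.sum_comm]
  refine Finset.sum_congr rfl fun ω _ => ?_
  unfold Gr.kapS
  rw [Finset.sum_mul, Finset.sum_mul]
  refine Finset.sum_congr rfl fun η _ => ?_
  rw [FK1_prod, ind_and]
  ring

theorem fkS_eq (Γ : Gr V E) (t : E → ℝ) (f : Finset E → ℝ) :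
    Γ.fkS t f = ∑ ω : Finset E, Γ.kap ω * ((∏ e ∈ ω, t e) * ∏ e ∈ ωᶜ, (1 - t e)) * f ω := by
  unfold Gr.fkS
  rw [FK1_trc]
  rfl

theorem FK1_sumw (t : E → ℝ) (e : E) (a : ZMod 2) :
    wFK t e a true + wFK t e a false = hp t e a := by
  unfold wFK hp
  by_cases h : a = 0 <;> simp [h]

theorem fkS_one (Γ : Gr V E) (t : E → ℝ) : Γ.fkS t (fun _ => 1) = Γ.z t 0 :=
  trc_pm1 Γ (wFK t) (hp t) (FK1_sumw t) 0

theorem trc_FK_src (Γ : Gr V E) (t : E → ℝ) (u v : V) (f : Finset E → ℝ) :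
    Γ.trc (wFK t) (src u v) f = Γ.fkS t (fun ω => f ω * ind (Γ.Conn (ω : Set E) u v)) := by
  rw [FK1_trc, fkS_eq]
  refine Finset.sum_congr rfl fun ω _ => ?_
  rw [kapS_src]
  ring

theorem fkS_conn (Γ : Gr V E) (t : E → ℝ) (u v : V) :
    Γ.fkS t (fun ω => ind (Γ.Conn (ω : Set E) u v)) = Γ.z t (src u v) := by
  have h := trc_FK_src Γ t u v (fun _ => 1)
  simp only [one_mul] at h
  rw [← h]
  exact trc_pm1 Γ (wFK t) (hp t) (FK1_sumw t) (src u v)

theorem fkS_F (Γ : Gr V E) (t : E → ℝ) (F : Finset E) (u v : V) :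
    Γ.fkS t (fun ω => ind (Disjoint ω F) * ind (Γ.Conn (ω : Set E) u v)) =
      (∏ e ∈ F, (1 - t e)) * Γ.z (off (F : Set E) t) (src u v) := by
  rw [← trc_FK_src Γ t u v (fun ω => ind (Disjoint ω F))]
  let w' : E → ZMod 2 → Bool → ℝ := fun e a b =>
    if e ∈ F then (if b = true then 0 else wFK t e a b) else wFK t e a b
  have h1 : Γ.trc (wFK t) (src u v) (fun ω => ind (Disjoint ω F)) =
      Γ.trc w' (src u v) (fun _ => 1) := by
    unfold Gr.trc
    refine Finset.sum_congr rfl fun η _ => Finset.sum_congr rfl fun ω _ => ?_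
    congr 1
    rw [one_mul]
    show ind (Disjoint ω F) * ∏ e, wFK t e (η e) (decide (e ∈ ω)) =
      ∏ e, w' e (η e) (decide (e ∈ ω))
    by_cases hd : Disjoint ω F
    · rw [ind_true hd, one_mul]
      refine Finset.prod_congr rfl fun e _ => ?_
      by_cases heF : e ∈ F
      · have heω : e ∉ ω := fun h => (Finset.disjoint_left.1 hd h) heF
        simp [w', heF, heω]
      · simp [w', heF]
    · rw [ind_false hd, zero_mul]
      rw [Finset.not_disjoint_iff] at hd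
      obtain ⟨e, heω, heF⟩ := hd
      symm
      refine Finset.prod_eq_zero (Finset.mem_univ e) ?_
      simp [w', heF, heω]
  have h2 : Γ.trc w' (src u v) (fun _ => 1) = Γ.zz (fun e a => (if e ∈ F then 1 - t e else 1) *
      hp (off (F : Set E) t) e a) (src u v) := by
    refine trc_pm1 Γ w' _ (fun e a => ?_) _
    by_cases heF : e ∈ F
    · by_cases ha : a = 0 <;> simp [w', heF, ha, wFK, hp, off]
    · by_cases ha : a = 0 <;> simp [w', heF, ha, wFK, hp, off]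
  rw [h1, h2]
  unfold Gr.z Gr.zz
  rw [Finset.mul_sum]
  refine Finset.sum_congr rfl fun η _ => ?_
  rw [Finset.prod_mul_distrib, Finset.prod_ite_mem, Finset.univ_inter]
  ring

theorem FK1_hp_nonneg {t : E → ℝ} (ht : T01 t) (e : E) (a : ZMod 2) : 0 ≤ hp t e a := by
  unfold hp
  split_ifs
  · exact zero_le_one
  · exact (ht e).1

theorem z_nonneg (Γ : Gr V E) {t : E → ℝ} (ht : T01 t) (S : V → ZMod 2) : 0 ≤ Γ.z t S := by
  unfold Gr.z Gr.zz
  exact Finset.sum_nonneg fun η _ => mul_nonneg (ind_nonneg _)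
    (Finset.prod_nonneg fun e _ => FK1_hp_nonneg ht e _)

theorem one_le_z (Γ : Gr V E) {t : E → ℝ} (ht : T01 t) : 1 ≤ Γ.z t 0 := by
  unfold Gr.z Gr.zz
  have h1 : (1 : ℝ) = ind (Γ.bd (0 : E → ZMod 2) = 0) * ∏ e, hp t e ((0 : E → ZMod 2) e) := by
    rw [ind_true (bd_zero Γ), one_mul]
    symm
    refine Finset.prod_eq_one fun e _ => ?_
    simp [hp]
  rw [h1]
  exact Finset.single_le_sum (f := fun η : E → ZMod 2 => ind (Γ.bd η = 0) * ∏ e, hp t e (η e))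
    (fun η _ => mul_nonneg (ind_nonneg _)
      (Finset.prod_nonneg fun e _ => FK1_hp_nonneg ht e _)) (Finset.mem_univ (0 : E → ZMod 2))

theorem T01_off {t : E → ℝ} (ht : T01 t) (K : Set E) : T01 (off K t) := by
  intro e
  unfold off
  split_ifs
  · exact ⟨le_rfl, zero_le_one⟩
  · exact ht e

theorem T01_setT {t : E → ℝ} (ht : T01 t) (E1 η : Finset E) : T01 (setT E1 η t) := by
  intro e
  unfold setT
  split_ifs
  · exact ⟨zero_le_one, le_rfl⟩
  · exact ⟨le_rfl, zero_le_one⟩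
  · exact ht e

theorem wFK_nonneg {t : E → ℝ} (ht : T01 t) (e : E) (a : ZMod 2) (b : Bool) : 0 ≤ wFK t e a b := by
  unfold wFK
  have := ht e
  split_ifs
  · exact this.1
  · linarith [this.2]
  · exact le_rfl

theorem wDT_nonneg {t : E → ℝ} (ht : T01 t) (e : E) (a : ZMod 2 × ZMod 2) (b : Bool) :
    0 ≤ wDT t e a b := by
  unfold wDT
  have := ht e
  split_ifs
  · positivity
  · exact this.1
  · nlinarith [this.1, this.2]
  · exact le_rfl

theorem fkE_one (Γ : Gr V E) {t : E → ℝ} (ht : T01 t) : Γ.fkE t (fun _ => 1) = 1 := by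
  unfold Gr.fkE
  rw [fkS_one]
  exact div_self (by linarith [one_le_z Γ ht])

theorem fkE_smul (Γ : Gr V E) (t : E → ℝ) (c : ℝ) (f : Finset E → ℝ) :
    Γ.fkE t (fun ω => c * f ω) = c * Γ.fkE t f := by
  unfold Gr.fkE Gr.fkS
  rw [trc_smul, mul_div_assoc]

theorem fkE_const (Γ : Gr V E) {t : E → ℝ} (ht : T01 t) (c : ℝ) : Γ.fkE t (fun _ => c) = c := by
  have h := fkE_smul Γ t c (fun _ => 1)
  simp only [mul_one] at h
  rw [h, fkE_one Γ ht, mul_one]

theorem fkE_add (Γ : Gr V E) (t : E → ℝ) (f g : Finset E → ℝ) :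
    Γ.fkE t (fun ω => f ω + g ω) = Γ.fkE t f + Γ.fkE t g := by
  unfold Gr.fkE Gr.fkS
  rw [trc_add, add_div]

theorem fkE_sub (Γ : Gr V E) (t : E → ℝ) (f g : Finset E → ℝ) :
    Γ.fkE t (fun ω => f ω - g ω) = Γ.fkE t f - Γ.fkE t g := by
  unfold Gr.fkE Gr.fkS
  rw [trc_sub, sub_div]

theorem fkE_sum {ι : Type*} (Γ : Gr V E) (t : E → ℝ) (I : Finset ι) (f : ι → Finset E → ℝ) :
    Γ.fkE t (fun ω => ∑ i ∈ I, f i ω) = ∑ i ∈ I, Γ.fkE t (f i) := by
  unfold Gr.fkE Gr.fkS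
  rw [trc_sum, Finset.sum_div]

theorem fkE_le (Γ : Gr V E) {t : E → ℝ} (ht : T01 t) {f g : Finset E → ℝ} (h : ∀ ω, f ω ≤ g ω) :
    Γ.fkE t f ≤ Γ.fkE t g := by
  unfold Gr.fkE Gr.fkS
  exact div_le_div_of_nonneg_right (trc_mono Γ (wFK t) (wFK_nonneg ht) 0 h) (z_nonneg Γ ht 0)

theorem fkE_nonneg (Γ : Gr V E) {t : E → ℝ} (ht : T01 t) {f : Finset E → ℝ} (h : ∀ ω, 0 ≤ f ω) :
    0 ≤ Γ.fkE t f := by
  unfold Gr.fkE Gr.fkS
  exact div_nonneg (trc_nonneg Γ (wFK t) (wFK_nonneg ht) 0 h) (z_nonneg Γ ht 0)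

theorem fkE_conn (Γ : Gr V E) (t : E → ℝ) (u v : V) :
    Γ.fkE t (fun ω => ind (Γ.Conn (ω : Set E) u v)) = Γ.tp t u v := by
  unfold Gr.fkE Gr.tp
  rw [fkS_conn]

theorem tp_nonneg (Γ : Gr V E) {t : E → ℝ} (ht : T01 t) (u v : V) : 0 ≤ Γ.tp t u v :=
  div_nonneg (z_nonneg Γ ht _) (z_nonneg Γ ht _)

theorem tp_le_one (Γ : Gr V E) {t : E → ℝ} (ht : T01 t) (u v : V) : Γ.tp t u v ≤ 1 := by
  rw [← fkE_conn, ← fkE_one Γ ht]
  exact fkE_le Γ ht fun ω => ind_le_one _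

theorem tp_self (Γ : Gr V E) {t : E → ℝ} (ht : T01 t) (u : V) : Γ.tp t u u = 1 := by
  unfold Gr.tp
  rw [src_self]
  exact div_self (by linarith [one_le_z Γ ht])

theorem tp_comm (Γ : Gr V E) (t : E → ℝ) (u v : V) : Γ.tp t u v = Γ.tp t v u := by
  unfold Gr.tp
  rw [src_comm]

end H82.IC
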