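import Pool.Agent.H82.IC.KC
import Pool.Agent.H82.IC.FK1

/-!
# BR1: the problem's finite volume measures are the abstract FK expectations

`t = tanh β ∈ [0,1)`, `e^{2β} - 1 = 2t/(1-t)`.
Left side: sum over `ω ⊆ Λ` of `2^{kx W (glue Λ ξ ω)} (2t/(1-t))^{|ω|} 1[glue ∈ X]`.  `opn (glue Λ ξ ω) = ω ∪ (opn ξ \ Λ)` for `ω ⊆ Λ`, `kx W = kG (Zl d) W (opn ..)` (same definition).
By `kG_bridge` (with `ξ := opn ξ \ Λ`): `2^{k} (2t/(1-t))^{|ω|} = c kap(sb (ω ∪ η)) (t/(1-t))^{|ω|}` and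
 `(t/(1-t))^{|ω|} (1-t)^{|Λ|} = t^{|ω|} (1-t)^{|Λ \ ω|}`.
Right side (`fkS_eq` on `GN d N`, `T = setT (sb (bE N) (bE N \ Λ)) (sb (bE N) η) (fun _ => t)`, numerator and denominator `z T 0 = fkS T 1`): the weight of `ω' : Finset ↥(bE d N)` vanishes unless `ω'` off `Λ` is `η`,
i.e. `vl ω' = ω ∪ η` with `ω = vl ω' ∩ Λ ⊆ Λ`, and then it is `kap ω' * t^{|ω|} (1-t)^{|Λ \ ω|}` (edges of `η` contribute `1`, edges of `bE N \ Λ \ η` contribute `1 - 0 = 1`).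
So the sum over `ω'` is the sum over `ω ⊆ Λ` (bijection `ω ↦ sb (bE N) (ω ∪ η)`), numerators and denominators agree up to the common constant `c (1-t)^{-|Λ|}`.
`glue Λ ξ (vl ω') = glue Λ ξ ω` (only the values on `Λ` matter).
-/

set_option autoImplicit false

open Finset

namespace H82.IC

variable {d : ℕ}

theorem tanh_mem (β : ℝ) (hβ : 0 ≤ β) : 0 ≤ Real.tanh β ∧ Real.tanh β < 1 := by
  refine ⟨?_, Real.tanh_lt_one β⟩
  rw [Real.tanh_eq_sinh_div_cosh]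
  exact div_nonneg (Real.sinh_nonneg_iff.2 hβ) (Real.cosh_pos β).le

theorem T01_tanh {E : Type*} (β : ℝ) (hβ : 0 ≤ β) : T01 (fun _ : E => Real.tanh β) :=
  fun _ => ⟨(tanh_mem β hβ).1, (tanh_mem β hβ).2.le⟩

theorem exp_tanh (β : ℝ) : Real.exp (2 * β) - 1 = 2 * Real.tanh β / (1 - Real.tanh β) := by
  have h1 : 1 - Real.tanh β ≠ 0 := by
    have := Real.tanh_lt_one β
    intro h
    linarith
  rw [eq_div_iff h1, Real.tanh_eq_sinh_div_cosh]
  have hc := (Real.cosh_pos β).ne'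
  have e1 : Real.exp (2 * β) = Real.exp β * Real.exp β := by
    rw [← Real.exp_add]; ring_nf
  have e2 : Real.exp β * Real.exp (-β) = 1 := by
    rw [← Real.exp_add, add_neg_cancel, Real.exp_zero]
  field_simp
  rw [Real.cosh_eq, Real.sinh_eq, e1]
  linear_combination Real.exp β * e2

theorem fkw_pos {β : ℝ} (hβ : 0 < β) (W : Finset (Vx d)) (Λ : Finset (Ed d)) (ξ : Cf d)
    (ω : Finset (Ed d)) : 0 < fkw β W Λ ξ ω := by
  unfold fkw
  have h1 : 0 < Real.exp (2 * β) - 1 := by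
    have : 1 < Real.exp (2 * β) := by
      rw [Real.one_lt_exp_iff]
      linarith
    linarith
  positivity

/-- the open edges of a glued configuration. -/
theorem BR1_opn (Λ : Finset (Ed d)) (ξ : Cf d) (ω : Finset (Ed d)) (hω : ω ⊆ Λ) :
    opn (glue Λ ξ ω) = (ω : Set (Ed d)) ∪ (opn ξ \ Λ) := by
  ext e
  simp only [opn, glue, Set.mem_ofPred_eq, Set.mem_union, Set.mem_sdiff, Finset.mem_coe]
  by_cases he : e ∈ Λ
  · simp [he]
  · have h1 : e ∉ ω := fun h => he (hω h)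
    simp [he, h1]

theorem BR1_glue (Λ : Finset (Ed d)) (ξ : Cf d) (ω ω' : Finset (Ed d))
    (h : ∀ e ∈ Λ, (e ∈ ω ↔ e ∈ ω')) : glue Λ ξ ω = glue Λ ξ ω' := by
  funext e
  unfold glue
  by_cases he : e ∈ Λ
  · simp only [he, if_true]
    exact decide_eq_decide.2 (h e he)
  · simp only [he, if_false]

theorem BR1_mem_sb {E : Type*} (Λ' F : Finset E) (e : ↥Λ') : e ∈ sb Λ' F ↔ e.1 ∈ F := by
  unfold sb
  simp

theorem BR1_mem_vl {E : Type*} {Λ' : Finset E} (ω : Finset ↥Λ') (e : E) :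
    e ∈ vl ω ↔ ∃ h : e ∈ Λ', (⟨e, h⟩ : ↥Λ') ∈ ω := by
  unfold vl
  rw [Finset.mem_map]
  constructor
  · rintro ⟨x, hx, rfl⟩
    exact ⟨x.2, hx⟩
  · rintro ⟨h, hx⟩
    exact ⟨⟨e, h⟩, hx, rfl⟩

/-- the product of the local weights. -/
noncomputable def BR1_P {E : Type*} [Fintype E] [DecidableEq E] (T : E → ℝ) (ω : Finset E) : ℝ :=
  (∏ e ∈ ω, T e) * ∏ e ∈ ωᶜ, (1 - T e)

theorem BR1_P_eq {E : Type*} [Fintype E] [DecidableEq E] (T : E → ℝ) (ω : Finset E) :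
    BR1_P T ω = ∏ e, (if e ∈ ω then T e else 1 - T e) := by
  unfold BR1_P
  rw [← Finset.prod_mul_prod_compl ω (fun e => if e ∈ ω then T e else 1 - T e)]
  congr 1
  · exact Finset.prod_congr rfl fun e he => by rw [if_pos he]
  · exact Finset.prod_congr rfl fun e he => by rw [if_neg (Finset.mem_compl.1 he)]

/-- the local weights for a forced configuration off `Λ`. -/
theorem BR1_P_sb (Λ Λ' η : Finset (Ed d)) (hΛ : Λ ⊆ Λ') (hη : η ⊆ Λ' \ Λ) (t : ℝ)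
    (ω : Finset (Ed d)) (hω : ω ⊆ Λ) :
    BR1_P (setT (sb Λ' (Λ' \ Λ)) (sb Λ' η) (fun _ => t)) (sb Λ' (ω ∪ η)) =
      t ^ ω.card * (1 - t) ^ (Λ \ ω).card := by
  rw [BR1_P_eq]
  let h : Ed d → ℝ := fun x => if x ∈ Λ then (if x ∈ ω then t else 1 - t) else 1
  have h1 : ∏ e : ↥Λ', (if e ∈ sb Λ' (ω ∪ η) then
      setT (sb Λ' (Λ' \ Λ)) (sb Λ' η) (fun _ => t) e else
      1 - setT (sb Λ' (Λ' \ Λ)) (sb Λ' η) (fun _ => t) e) = ∏ e : ↥Λ', h e.1 := by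
    refine Finset.prod_congr rfl fun e _ => ?_
    unfold setT
    simp only [BR1_mem_sb, h, Finset.mem_union, Finset.mem_sdiff]
    by_cases heη : e.1 ∈ η
    · have hx := Finset.mem_sdiff.1 (hη heη)
      simp [heη, hx.2]
    · by_cases heΛ : e.1 ∈ Λ
      · simp [heη, heΛ]
      · have h3 : e.1 ∉ ω := fun h => heΛ (hω h)
        simp [heη, heΛ, h3]
  rw [h1, Finset.prod_coe_sort Λ' h]
  have h2 : ∏ x ∈ Λ', h x = ∏ x ∈ Λ, (if x ∈ ω then t else 1 - t) := by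
    rw [← Finset.prod_subset hΛ (f := h)]
    · exact Finset.prod_congr rfl fun x hx => by simp only [h, if_pos hx]
    · intro x _ hx
      simp only [h, if_neg hx]
  rw [h2, Finset.prod_ite, Finset.prod_const, Finset.prod_const]
  congr 2
  · congr 1
    rw [Finset.filter_mem_eq_inter]
    exact Finset.inter_eq_right.2 hω
  · congr 1
    ext x
    simp

theorem BR1_P_zero (Λ Λ' η : Finset (Ed d)) (t : ℝ)
    (ω' : Finset ↥Λ')
    (hP : BR1_P (setT (sb Λ' (Λ' \ Λ)) (sb Λ' η) (fun _ => t)) ω' ≠ 0) :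
    sb Λ' ((vl ω' ∩ Λ) ∪ η) = ω' := by
  rw [BR1_P_eq, Finset.prod_ne_zero_iff] at hP
  ext e
  have h1 := hP e (Finset.mem_univ e)
  unfold setT at h1
  simp only [BR1_mem_sb, Finset.mem_sdiff] at h1
  rw [BR1_mem_sb, Finset.mem_union, Finset.mem_inter, BR1_mem_vl]
  by_cases heη : e.1 ∈ η
  · have h2 : e ∈ ω' := by
      by_contra h3
      rw [if_neg h3, if_pos heη] at h1
      exact h1 (sub_self _)
    exact ⟨fun _ => h2, fun _ => Or.inr heη⟩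
  · by_cases heΛ : e.1 ∈ Λ
    · constructor
      · rintro (⟨⟨_, h⟩, _⟩ | h)
        · exact h
        · exact absurd h heη
      · intro h
        exact Or.inl ⟨⟨e.2, h⟩, heΛ⟩
    · have h2 : e ∉ ω' := by
        intro h3
        rw [if_pos h3, if_neg heη, if_pos ⟨e.2, heΛ⟩] at h1
        exact h1 rfl
      constructor
      · rintro (⟨_, h⟩ | h)
        · exact absurd h heΛ
        · exact absurd h heη
      · intro h
        exact absurd h h2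

theorem bridge {β : ℝ} (hβ : 0 ≤ β) (W : Finset (Vx d)) (Λ : Finset (Ed d)) (N : ℕ)
    (hW : ∀ e ∈ Λ, (Zl d).s e ∈ W ∧ (Zl d).r e ∈ W) (hΛ : Λ ⊆ bE d N) (ξ : Cf d)
    (η : Finset (Ed d)) (hη : η ⊆ bE d N \ Λ)
    (hc : ∀ ω : Finset (Ed d), ω ⊆ Λ → ∀ e ∈ Λ,
      ((Zl d).Conn ((ω : Set (Ed d)) ∪ (opn ξ \ Λ)) ((Zl d).s e) ((Zl d).r e) ↔
        (Zl d).Conn ((ω : Set (Ed d)) ∪ η) ((Zl d).s e) ((Zl d).r e)))
    (X : Set (Cf d)) :
    phiG β W Λ ξ X =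
      (GN d N).fkE (setT (sb (bE d N) (bE d N \ Λ)) (sb (bE d N) η) (fun _ => Real.tanh β))
        (fun ω' => ind (glue Λ ξ (vl ω') ∈ X)) := by
  set t := Real.tanh β with ht
  obtain ⟨ht0, ht1⟩ := tanh_mem β hβ
  rw [← ht] at ht0 ht1
  have h1t : 0 < 1 - t := by linarith
  set Λ' := bE d N with hΛ'
  set T := setT (sb Λ' (Λ' \ Λ)) (sb Λ' η) (fun _ => t) with hT
  obtain ⟨c, hc0, hcc⟩ := kG_bridge (Zl d) Λ Λ' hΛ W hW (opn ξ \ Λ)
    (fun e he => fun h => he.2 (Finset.mem_coe.2 h)) η hη hc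
  -- the weights agree up to a constant
  have hw : ∀ ω ∈ Λ.powerset, (GN d N).kap (sb Λ' (ω ∪ η)) * BR1_P T (sb Λ' (ω ∪ η)) =
      ((1 - t) ^ Λ.card / c) * fkw β W Λ ξ ω := by
    intro ω hω
    have hωΛ := Finset.mem_powerset.1 hω
    rw [hT, BR1_P_sb Λ Λ' η hΛ hη t ω hωΛ]
    have h2 := hcc ω hωΛ
    have h3 : (2 : ℝ) ^ kx W (glue Λ ξ ω) =
        2 ^ kG (Zl d) W ((ω : Set (Ed d)) ∪ (opn ξ \ Λ)) := by
      unfold kx kG
      rw [BR1_opn Λ ξ ω hωΛ]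
    have h4 : (GN d N).kap (sb Λ' (ω ∪ η)) = ((Zl d).rs Λ').kap (sb Λ' (ω ∪ η)) := rfl
    unfold fkw
    rw [h3, h4, exp_tanh, ← ht]
    have h5 : (1 - t) ^ Λ.card = (1 - t) ^ ω.card * (1 - t) ^ (Λ \ ω).card := by
      rw [← pow_add]
      congr 1
      rw [Finset.card_sdiff_of_subset hωΛ]
      have := Finset.card_le_card hωΛ
      omega
    rw [h5, div_pow, mul_pow]
    have h6 : (1 - t) ^ ω.card ≠ 0 := pow_ne_zero _ h1t.ne'
    field_simp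
    linear_combination (-(t ^ ω.card)) * h2
  have key : ∀ g : Finset (Ed d) → ℝ,
      ∑ ω' : Finset ↥Λ', (GN d N).kap ω' * BR1_P T ω' * g (vl ω' ∩ Λ) =
        ((1 - t) ^ Λ.card / c) * ∑ ω ∈ Λ.powerset, fkw β W Λ ξ ω * g ω := by
    intro g
    have hvs : ∀ ω ∈ Λ.powerset, vl (sb Λ' (ω ∪ η)) ∩ Λ = ω := by
      intro ω hω
      have hωΛ := Finset.mem_powerset.1 hω
      rw [vl_sb]
      ext x
      simp only [Finset.mem_inter, Finset.mem_union]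
      constructor
      · rintro ⟨⟨h1 | h1, _⟩, h2⟩
        · exact h1
        · exact absurd h2 (Finset.mem_sdiff.1 (hη h1)).2
      · intro h
        exact ⟨⟨Or.inl h, hΛ (hωΛ h)⟩, hωΛ h⟩
    have hinj : Set.InjOn (fun ω : Finset (Ed d) => sb Λ' (ω ∪ η))
        (Λ.powerset : Set (Finset (Ed d))) := by
      intro ω hω ω2 hω2 heq
      have h1 := hvs ω (Finset.mem_coe.1 hω)
      have h2 := hvs ω2 (Finset.mem_coe.1 hω2)
      dsimp only at heq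
      rw [← h1, ← h2, heq]
    have h1 : ∑ ω' : Finset ↥Λ', (GN d N).kap ω' * BR1_P T ω' * g (vl ω' ∩ Λ) =
        ∑ ω' ∈ Λ.powerset.image (fun ω : Finset (Ed d) => sb Λ' (ω ∪ η)),
          (GN d N).kap ω' * BR1_P T ω' * g (vl ω' ∩ Λ) := by
      symm
      refine Finset.sum_subset (Finset.subset_univ _) fun ω' _ hω' => ?_
      have h2 : BR1_P T ω' = 0 := by
        by_contra hne
        have h3 := BR1_P_zero Λ Λ' η t ω' hne
        exact hω' (Finset.mem_image.2 ⟨vl ω' ∩ Λ,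
          Finset.mem_powerset.2 Finset.inter_subset_right, h3⟩)
      rw [h2, mul_zero, zero_mul]
    rw [h1, Finset.sum_image hinj, Finset.mul_sum]
    refine Finset.sum_congr rfl fun ω hω => ?_
    rw [hvs ω hω, hw ω hω]
    ring
  have hC : (1 - t) ^ Λ.card / c ≠ 0 := (div_pos (pow_pos h1t _) hc0).ne'
  unfold phiG Gr.fkE
  rw [← fkS_one, fkS_eq, fkS_eq]
  have k1 := key (fun ω => ind (glue Λ ξ ω ∈ X))
  have k2 := key (fun _ => 1)
  have k3 : ∑ ω' : Finset ↥Λ', (GN d N).kap ω' * ((∏ e ∈ ω', T e) * ∏ e ∈ ω'ᶜ, (1 - T e)) *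
      ind (glue Λ ξ (vl ω') ∈ X) = ∑ ω' : Finset ↥Λ', (GN d N).kap ω' * BR1_P T ω' *
        ind (glue Λ ξ (vl ω' ∩ Λ) ∈ X) := by
    refine Finset.sum_congr rfl fun ω' _ => ?_
    rw [BR1_glue Λ ξ (vl ω') (vl ω' ∩ Λ) (fun e he => by simp [he])]
    rfl
  have k4 : ∑ ω' : Finset ↥Λ', (GN d N).kap ω' * ((∏ e ∈ ω', T e) * ∏ e ∈ ω'ᶜ, (1 - T e)) * 1 =
      ∑ ω' : Finset ↥Λ', (GN d N).kap ω' * BR1_P T ω' * 1 := rfl
  rw [k3, k4, k1, k2, mul_div_mul_left _ _ hC]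
  simp only [mul_one]

end H82.IC
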