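import Pool.Agent.H82.IC.INF

/-!
# CB1: dependence on `β`, the critical point

* `phiB_beta_mono`: `phiB_free` / `phiB_wired` represent `phiB β n b X` as `fkE` with parameters `tanh β` (on the edges of `bE n`), `tanh` is monotone, `fkE_holley`.
* `phiB_continuous`: ratio of finite sums of continuous functions of `β` (`fkw`), denominator `> 0` for `β ≥ 0` (the term `ω = ∅` is positive, others `≥ 0`).
* `bcr d = inf {β ≥ 0 : thW d β > 0}`; `bcr_zero`: `thW d β = 0` for `0 ≤ β < bcr d` (`thW ≥ 0`; definition of the infimum, the set is bounded below by `0`); `bcr_pos_after`: the set is nonempty by `theta_pos`, so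
  for every `δ > 0` there is `β ∈ [bcr d, bcr d + δ)` in the set.
-/

set_option autoImplicit false

open Finset Filter Topology

namespace H82.IC

variable {d : ℕ}

/-- the critical point. -/
noncomputable def bcr (d : ℕ) : ℝ := sInf {β : ℝ | 0 ≤ β ∧ 0 < thW d β}

theorem CB1_tanh {a b : ℝ} (h : a ≤ b) : Real.tanh a ≤ Real.tanh b := by
  rw [Real.tanh_eq_sinh_div_cosh, Real.tanh_eq_sinh_div_cosh,
    div_le_div_iff₀ (Real.cosh_pos a) (Real.cosh_pos b)]
  have h1 : 0 ≤ Real.sinh (b - a) := Real.sinh_nonneg_iff.2 (sub_nonneg.2 h)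
  rw [Real.sinh_sub] at h1
  linarith

theorem CB1_setT {E : Type*} {t t' : E → ℝ} (h : ∀ e, t e ≤ t' e) (E1 η : Finset E) (e : E) :
    setT E1 η t e ≤ setT E1 η t' e := by
  unfold setT
  split_ifs
  · exact le_rfl
  · exact le_rfl
  · exact h e

theorem phiB_beta_mono (hd : 2 ≤ d) {β β' : ℝ} (hβ : 0 ≤ β) (h : β ≤ β') (n : ℕ) (b : Bool)
    {X : Set (Cf d)} (hX : Inc X) : phiB β n b X ≤ phiB β' n b X := by
  have hβ' : 0 ≤ β' := hβ.trans h
  cases b with
  | false =>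
    rw [phiB_free hβ (le_refl n) X, phiB_free hβ' (le_refl n) X]
    exact fkE_holley (GN d n) (T01_setT (T01_tanh β hβ) _ _) (T01_setT (T01_tanh β' hβ') _ _)
      (fun e => CB1_setT (fun _ => CB1_tanh h) _ _ e) (BR2_f_mono (bE d n) false n hX)
  | true =>
    rw [phiB_wired hd hβ (le_refl (n + 1)) X, phiB_wired hd hβ' (le_refl (n + 1)) X]
    exact fkE_holley (GN d (n + 1)) (T01_setT (T01_tanh β hβ) _ _)
      (T01_setT (T01_tanh β' hβ') _ _)
      (fun e => CB1_setT (fun _ => CB1_tanh h) _ _ e) (BR2_f_mono (bE d n) true (n + 1) hX)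

theorem CB1_fkw (W : Finset (Vx d)) (Λ : Finset (Ed d)) (ξ : Cf d) (ω : Finset (Ed d)) :
    Continuous (fun β : ℝ => fkw β W Λ ξ ω) := by
  unfold fkw
  exact continuous_const.mul (((Real.continuous_exp.comp (continuous_const.mul continuous_id)).sub
    continuous_const).pow _)

theorem phiB_continuous (n : ℕ) (b : Bool) (X : Set (Cf d)) :
    ContinuousOn (fun β : ℝ => phiB β n b X) (Set.Ici 0) := by
  unfold phiB phiG
  refine ContinuousOn.div ?_ ?_ ?_
  · exact (continuous_finsetSum _ fun ω _ =>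
      (CB1_fkw _ _ _ _).mul continuous_const).continuousOn
  · exact (continuous_finsetSum _ fun ω _ => CB1_fkw _ _ _ _).continuousOn
  · intro β hβ
    exact (BR2_den_pos hβ _ _ _).ne'

theorem thW_mono (hd : 2 ≤ d) {β β' : ℝ} (hβ : 0 ≤ β) (h : β ≤ β') : thW d β ≤ thW d β' := by
  unfold thW
  refine ciInf_mono ⟨0, ?_⟩ fun n => phiB_beta_mono hd hβ h n true (inc_arm n 0)
  rintro _ ⟨n, rfl⟩
  exact phiB_nonneg hβ n true _

theorem bcr_nonneg (d : ℕ) : 0 ≤ bcr d := by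
  unfold bcr
  exact Real.sInf_nonneg fun x hx => hx.1

theorem CB1_bdd (d : ℕ) : BddBelow {β : ℝ | 0 ≤ β ∧ 0 < thW d β} := ⟨0, fun _ hx => hx.1⟩

theorem bcr_zero {β : ℝ} (hβ : 0 ≤ β) (h : β < bcr d) : thW d β = 0 := by
  by_contra hne
  have hpos : 0 < thW d β := lt_of_le_of_ne (thW_nonneg d hβ) (Ne.symm hne)
  exact absurd (csInf_le (CB1_bdd d) ⟨hβ, hpos⟩) (not_le.2 h)

theorem bcr_after (hd : 3 ≤ d) (δ : ℝ) (hδ : 0 < δ) :
    ∃ β, bcr d ≤ β ∧ β < bcr d + δ ∧ 0 < thW d β := by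
  have hne : {β : ℝ | 0 ≤ β ∧ 0 < thW d β}.Nonempty :=
    ⟨((3 : ℝ) * d) ^ 2 + 1, by positivity, theta_pos hd (by linarith)⟩
  obtain ⟨β, hβ, h2⟩ := Real.lt_sInf_add_pos hne hδ
  exact ⟨β, csInf_le (CB1_bdd d) hβ, h2, hβ.2⟩

end H82.IC
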