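import Pool.Agent.H82.IC.G1

/-!
# SC: choice of the scales (pure counting)

`G : ℤ^d → [0,1]` tends to `0` at infinity, is not summable; `fG L = ∑_{x ∈ bx L} G x`: nondecreasing, unbounded, `fG L ≤ (2L+1)^d`.
Construction of `(l t, L t)` by recursion on `t` (each step is an existence statement, then dependent choice; e.g. define the step function by `Classical.choose` from the existence lemma below and
iterate).
STEP: given `L' ≥ 0`, `l' < L'` (previous scale, with `fG l' < fG L'`), choose `l ≥ max (l0, J * L' , ...)` so large that `G x * |bx L'| ≤ δ (fG L' - fG l')` for all `x` with `nm x ≥ l - L'` (`G → 0`: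
only finitely many `x` have `G x > ε`).  Then choose `L > l` with (a) `fG (2L) ≤ 4^(d+1) fG L`, (b) `fG (L + L') ≤ (1+δ) fG L`, (c) `fG l ≤ δ fG L`, (`L ≥ 1`, `fG l < fG L` follows from (c) if `δ < 1`, `fG L > 0`):
 (c) holds for all large `L` as `fG → ∞`.  There are infinitely many `j` with `fG (4^(j+1)) ≤ 4^(d+1) fG (4^j)`: otherwise `fG (4^j) ≥ c 4^((d+1) j)` with `c > 0` for all large `j`, contradicting
 `fG (4^j) ≤ (3 * 4^j)^d`.  Take such a `j` very large, `R = 4^j`; if `fG (L + L') > (1+δ) fG L` for all `L = R, R + L', R + 2L', ..., R + (K-1) L'` (`K = floor (R / L')`, `K L' ≤ R`; if `L' = 0` trivial)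
 then `fG (2R) ≥ (1+δ)^K fG R > 4^(d+1) fG R ≥ fG (4R)` once `(1+δ)^K > 4^(d+1)`, contradiction.  So some such `L ∈ [R, 2R]` has (b), and `fG (2L) ≤ fG (4R) ≤ 4^(d+1) fG R ≤ 4^(d+1) fG L`.
The first scale is chosen with `L' = 0`.
-/

set_option autoImplicit false

open Finset Filter Topology

namespace H82.IC

variable {d : ℕ}

/-- `∑_{x ∈ Λ_L} G x`. -/
noncomputable def fG (G : Vx d → ℝ) (L : ℕ) : ℝ := ∑ x ∈ bx d L, G x

theorem SC_mono {G : Vx d → ℝ} (h0 : ∀ x, 0 ≤ G x) : Monotone (fG G) :=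
  fun _ _ h => Finset.sum_le_sum_of_subset_of_nonneg (bx_mono h) fun x _ _ => h0 x

theorem SC_le {G : Vx d → ℝ} (h1 : ∀ x, G x ≤ 1) (L : ℕ) :
    fG G L ≤ (2 * (L : ℝ) + 1) ^ d := by
  have h : fG G L ≤ ∑ x ∈ bx d L, (1 : ℝ) := Finset.sum_le_sum fun x _ => h1 x
  rw [Finset.sum_const, nsmul_eq_mul, mul_one, card_bx] at h
  push_cast at h
  exact h

theorem SC_unb {G : Vx d → ℝ} (h0 : ∀ x, 0 ≤ G x) (hs : ¬ Summable G) (C : ℝ) :
    ∃ n, C < fG G n := by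
  by_contra hcon
  push Not at hcon
  refine hs (summable_of_sum_le (c := C) h0 fun u => ?_)
  refine le_trans ?_ (hcon (u.sup nm))
  refine Finset.sum_le_sum_of_subset_of_nonneg ?_ fun x _ _ => h0 x
  intro x hx
  rw [mem_bx]
  exact Finset.le_sup hx

theorem SC_far {G : Vx d → ℝ} (hG : Tendsto G cofinite (𝓝 0)) {ε : ℝ} (hε : 0 < ε) :
    ∃ n, ∀ x, n ≤ nm x → G x ≤ ε := by
  have h : ∀ᶠ x in cofinite, G x < ε := hG.eventually (Iio_mem_nhds hε)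
  rw [Filter.eventually_cofinite] at h
  refine ⟨h.toFinset.sup nm + 1, fun x hx => ?_⟩
  by_contra hcon
  push Not at hcon
  have h1 : x ∈ h.toFinset := by
    rw [Set.Finite.mem_toFinset]
    exact not_lt.2 hcon.le
  have h2 := Finset.le_sup (f := nm) h1
  omega

/-- infinitely many good powers of `4`. -/
theorem SC_pow {F : ℕ → ℝ} (hF : Monotone F) (hF1 : ∀ L, F L ≤ (2 * (L : ℝ) + 1) ^ d)
    (hF2 : ∀ C, ∃ n, C < F n) (N : ℕ) :
    ∃ j, N ≤ j ∧ 0 < F (4 ^ j) ∧ F (4 ^ (j + 1)) ≤ 4 ^ (d + 1) * F (4 ^ j) := by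
  obtain ⟨n₀, hn₀⟩ := hF2 0
  by_contra hcon
  push Not at hcon
  obtain ⟨M, hM⟩ : ∃ M, M = max N n₀ := ⟨_, rfl⟩
  have hMN : N ≤ M := by omega
  have hMn : n₀ ≤ M := by omega
  have hpos : ∀ j, M ≤ j → 0 < F (4 ^ j) := by
    intro j hj
    refine lt_of_lt_of_le hn₀ (hF ?_)
    have h1 : j < 4 ^ j := Nat.lt_pow_self (by norm_num)
    omega
  have hind : ∀ i, (4 ^ (d + 1)) ^ i * F (4 ^ M) ≤ F (4 ^ (M + i)) := by
    intro i
    induction i with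
    | zero => simp
    | succ i ih =>
      have h1 := hcon (M + i) (by omega) (hpos _ (by omega))
      calc (4 ^ (d + 1)) ^ (i + 1) * F (4 ^ M) = 4 ^ (d + 1) * ((4 ^ (d + 1)) ^ i * F (4 ^ M)) := by
            rw [pow_succ]; ring
        _ ≤ 4 ^ (d + 1) * F (4 ^ (M + i)) := by
            refine mul_le_mul_of_nonneg_left ih (by positivity)
        _ ≤ F (4 ^ (M + (i + 1))) := h1.le
  have hup : ∀ i, (4 : ℝ) ^ i * F (4 ^ M) ≤ (3 * 4 ^ M) ^ d := by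
    intro i
    have h1 := (hind i).trans (hF1 _)
    push_cast at h1
    have h2 : (2 * (4 : ℝ) ^ (M + i) + 1) ^ d ≤ (3 * 4 ^ (M + i)) ^ d := by
      refine pow_le_pow_left₀ (by positivity) ?_ _
      have h3 : (1 : ℝ) ≤ 4 ^ (M + i) := one_le_pow₀ (by norm_num)
      linarith
    have h3 := h1.trans h2
    have h4 : (3 * (4 : ℝ) ^ (M + i)) ^ d = (3 * 4 ^ M) ^ d * (4 ^ d) ^ i := by
      rw [pow_add, ← mul_assoc, mul_pow, ← pow_mul, ← pow_mul, mul_comm i d]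
    have h5 : ((4 : ℝ) ^ (d + 1)) ^ i * F (4 ^ M) = (4 ^ i * F (4 ^ M)) * (4 ^ d) ^ i := by
      rw [pow_succ, mul_pow]
      ring
    rw [h4, h5] at h3
    exact le_of_mul_le_mul_right h3 (by positivity)
  have hc : 0 < F (4 ^ M) := hpos M le_rfl
  obtain ⟨i, hi⟩ := pow_unbounded_of_one_lt ((3 * (4 : ℝ) ^ M) ^ d / F (4 ^ M))
    (by norm_num : (1 : ℝ) < 4)
  rw [div_lt_iff₀ hc] at hi
  exact absurd (hup i) (not_le.2 hi)

theorem SC_good {F : ℕ → ℝ} (hF : Monotone F) (hF1 : ∀ L, F L ≤ (2 * (L : ℝ) + 1) ^ d)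
    (hF2 : ∀ C, ∃ n, C < F n) {δ : ℝ} (hδ : 0 < δ) (L' N : ℕ) :
    ∃ L, N ≤ L ∧ F (2 * L) ≤ 4 ^ (d + 1) * F L ∧ F (L + L') ≤ (1 + δ) * F L := by
  obtain ⟨K, hK⟩ := pow_unbounded_of_one_lt ((4 : ℝ) ^ (d + 1)) (by linarith : (1 : ℝ) < 1 + δ)
  obtain ⟨j, hj, hpos, hj2⟩ := SC_pow hF hF1 hF2 (N + K * L')
  have hj3 : N + K * L' ≤ 4 ^ j := by
    have h1 : j < 4 ^ j := Nat.lt_pow_self (by norm_num)
    omega
  obtain ⟨R, hR⟩ : ∃ R, R = 4 ^ j := ⟨_, rfl⟩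
  have hR4 : 4 ^ (j + 1) = 4 * R := by rw [hR, pow_succ, mul_comm]
  rw [hR4, ← hR] at hj2
  rw [← hR] at hj3 hpos
  have key : ∃ i, i < K ∧ F (R + i * L' + L') ≤ (1 + δ) * F (R + i * L') := by
    by_contra hcon
    push Not at hcon
    have hind : ∀ i, i ≤ K → (1 + δ) ^ i * F R ≤ F (R + i * L') := by
      intro i
      induction i with
      | zero => intro _; simp
      | succ i ih =>
        intro hi
        have h1 := ih (by omega)
        have h2 := hcon i (by omega)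
        calc (1 + δ) ^ (i + 1) * F R = (1 + δ) * ((1 + δ) ^ i * F R) := by rw [pow_succ]; ring
          _ ≤ (1 + δ) * F (R + i * L') := mul_le_mul_of_nonneg_left h1 (by linarith)
          _ ≤ F (R + i * L' + L') := h2.le
          _ = F (R + (i + 1) * L') := by congr 1; ring
    have h1 := hind K le_rfl
    have h2 : F (R + K * L') ≤ F (4 * R) := hF (by omega)
    have h3 : 4 ^ (d + 1) * F R < (1 + δ) ^ K * F R := mul_lt_mul_of_pos_right hK hpos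
    linarith
  obtain ⟨i, hi, hi2⟩ := key
  have hiK : i * L' ≤ K * L' := Nat.mul_le_mul_right _ hi.le
  refine ⟨R + i * L', by omega, ?_, hi2⟩
  calc F (2 * (R + i * L')) ≤ F (4 * R) := hF (by omega)
    _ ≤ 4 ^ (d + 1) * F R := hj2
    _ ≤ 4 ^ (d + 1) * F (R + i * L') :=
      mul_le_mul_of_nonneg_left (hF (by omega)) (by positivity)

theorem SC_next {G : Vx d → ℝ} (h0 : ∀ x, 0 ≤ G x) (h1 : ∀ x, G x ≤ 1) (hs : ¬ Summable G)
    {δ : ℝ} (hδ : 0 < δ) (l L' : ℕ) :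
    ∃ L, l < L ∧ fG G (2 * L) ≤ 4 ^ (d + 1) * fG G L ∧ fG G l ≤ δ * fG G L ∧ 0 < fG G L ∧
      fG G (L + L') ≤ (1 + δ) * fG G L := by
  obtain ⟨n₁, hn₁⟩ := SC_unb h0 hs (fG G l / δ)
  obtain ⟨n₂, hn₂⟩ := SC_unb h0 hs 0
  obtain ⟨L, hL, hL2, hL3⟩ := SC_good (SC_mono h0) (SC_le h1) (SC_unb h0 hs) hδ L' (l + n₁ + n₂ + 1)
  have e1 : fG G n₁ ≤ fG G L := SC_mono h0 (by omega)
  have e2 : fG G n₂ ≤ fG G L := SC_mono h0 (by omega)
  refine ⟨L, by omega, hL2, ?_, lt_of_lt_of_le hn₂ e2, hL3⟩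
  have h3 := (hn₁.le.trans e1)
  rwa [div_le_iff₀ hδ, mul_comm] at h3

theorem SC_iter {α : Type*} (P : α → Prop) (R : α → α → Prop) (h0 : ∃ p, P p)
    (h : ∀ p, P p → ∃ q, P q ∧ R p q) : ∃ s : ℕ → α, ∀ t, P (s t) ∧ R (s t) (s (t + 1)) := by
  obtain ⟨p₀, hp₀⟩ := h0
  have : Nonempty α := ⟨p₀⟩
  choose! f hf using h
  have h1 : ∀ t, P (f^[t] p₀) := by
    intro t
    induction t with
    | zero => exact hp₀
    | succ t ih =>
      rw [Function.iterate_succ_apply']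
      exact (hf _ ih).1
  refine ⟨fun t => f^[t] p₀, fun t => ⟨h1 t, ?_⟩⟩
  show R (f^[t] p₀) (f^[t + 1] p₀)
  rw [Function.iterate_succ_apply']
  exact (hf _ (h1 t)).2

theorem scales (G : Vx d → ℝ) (h0 : ∀ x, 0 ≤ G x) (h1 : ∀ x, G x ≤ 1)
    (hG : Tendsto G cofinite (𝓝 0)) (hs : ¬ Summable G) (δ : ℝ) (hδ : 0 < δ) (hδ1 : δ < 1)
    (J l0 : ℕ) :
    ∃ l L : ℕ → ℕ, (∀ t, l0 ≤ l t) ∧ (∀ t, l t < L t) ∧ (∀ t, J * L t ≤ l (t + 1)) ∧
      (∀ t, L t ≤ l (t + 1)) ∧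
      (∀ t, fG G (2 * L t) ≤ 4 ^ (d + 1) * fG G (L t)) ∧
      (∀ t, fG G (l t) ≤ δ * fG G (L t)) ∧ (∀ t, 0 < fG G (L t)) ∧
      (∀ t, fG G (L (t + 1) + L t) ≤ (1 + δ) * fG G (L (t + 1))) ∧
      (∀ t x, l (t + 1) ≤ nm x + L t →
        G x * ((bx d (L t)).card : ℝ) ≤ δ * (fG G (L t) - fG G (l t))) := by
  have hit := SC_iter (α := ℕ × ℕ)
    (fun p => l0 ≤ p.1 ∧ p.1 < p.2 ∧ fG G (2 * p.2) ≤ 4 ^ (d + 1) * fG G p.2 ∧
      fG G p.1 ≤ δ * fG G p.2 ∧ 0 < fG G p.2)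
    (fun p q => J * p.2 ≤ q.1 ∧ p.2 ≤ q.1 ∧ fG G (q.2 + p.2) ≤ (1 + δ) * fG G q.2 ∧
      ∀ x, q.1 ≤ nm x + p.2 →
        G x * ((bx d p.2).card : ℝ) ≤ δ * (fG G p.2 - fG G p.1)) ?_ ?_
  · obtain ⟨s, hs⟩ := hit
    exact ⟨fun t => (s t).1, fun t => (s t).2, fun t => (hs t).1.1, fun t => (hs t).1.2.1,
      fun t => (hs t).2.1, fun t => (hs t).2.2.1, fun t => (hs t).1.2.2.1,
      fun t => (hs t).1.2.2.2.1, fun t => (hs t).1.2.2.2.2, fun t => (hs t).2.2.2.1,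
      fun t x hx => (hs t).2.2.2.2 x hx⟩
  · obtain ⟨L, a1, a2, a3, a4, -⟩ := SC_next h0 h1 hs hδ l0 0
    exact ⟨(l0, L), le_rfl, a1, a2, a3, a4⟩
  · rintro ⟨l', L'⟩ ⟨b1, b2, b3, b4, b5⟩
    simp only at b1 b2 b3 b4 b5
    have hlt : 0 < fG G L' - fG G l' := by
      have : δ * fG G L' < fG G L' := by
        calc δ * fG G L' < 1 * fG G L' := mul_lt_mul_of_pos_right hδ1 b5
          _ = fG G L' := one_mul _
      linarith
    have hcard : (0 : ℝ) < ((bx d L').card : ℝ) := by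
      rw [card_bx]
      positivity
    obtain ⟨n, hn⟩ := SC_far hG (div_pos (mul_pos hδ hlt) hcard)
    obtain ⟨L, a1, a2, a3, a4, a5⟩ := SC_next h0 h1 hs hδ (l0 + J * L' + L' + n) L'
    refine ⟨(l0 + J * L' + L' + n, L), ⟨by simp only; omega, a1, a2, a3, a4⟩,
      by simp only; omega, by simp only; omega, a5, ?_⟩
    intro x hx
    simp only at hx ⊢
    have h3 := hn x (by omega)
    rwa [le_div_iff₀ hcard] at h3

end H82.IC
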