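import Pool.Agent.H82.IC.MM3
import Pool.Agent.H82.IC.SC

/-!
# CNE: the cones

`sgn' b = 1` or `-1`.  `cone i ε = {u | (∀ j, 0 ≤ ε_j u_j) ∧ ∑_{j ≠ i} |u_j| ≤ |u_i|}`.
* `cone_le`: if `0 ≤ ε_j x_j` for all `j`, `u ∈ cone i ε`, `∑_j |u_j| ≤ |x_i|` then `G x ≤ G (x - u)`.
  Proof.  By flipping signs (`mono` with `b = -z j`, both ways) assume all `ε_j = 1`, so `x_j ≥ 0`, `u_j ≥ 0`.  Let `y = x - u`.  Starting from `z = x` we go to `y` by moves which do not decrease `G` -- equivalently treat
  the coordinates `j ≠ i` one after the other (induction on a finset `D` of coordinates).  CLAIM: for every finset `D ∌ i`, with `S_D = ∑_{j ∈ D} max(0, u_j - 2 x_j)`: the point `p_D` with coordinates `x_j - u_j` for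
  `j ∈ D ∪ {…}`: define `p_D` by: coordinate `i`: `x_i - u_i + S_{D^c}` where `S_{D^c}` is the sum over the `j ∉ D`, `j ≠ i`; coordinates `j ∈ D`: `x_j - u_j`; coordinates `j ∉ D`, `j ≠ i`: `x_j`.  Then
  `G (p_D) ≤ G (p_{D ∪ {j}})`: going from `p_D` to `p_{D ∪ j}` coordinate `j` changes from `x_j` to `x_j - u_j` and coordinate `i` decreases by `e = max(0, u_j - 2x_j)`: if `e = 0`: `|x_j - u_j| ≤ x_j`, `mono`.  If `e > 0`:
  `transfer` from `i` to `j` with amount `e`: allowed as `e ≤ p_i - x_j` (`p_i ≥ x_i - u_i + e`, since `j ∉ D`, and `x_i - u_i ≥ u_j ≥ x_j`, because `∑|u| ≤ x_i`); it gives coordinate `j` equal to `x_j + e = u_j - x_j`, and `mono`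
  (sign flip) gives `x_j - u_j`.  At `D = ∅`: `p_∅ = update x i (x_i - u_i + S)`, `0 ≤ x_i - u_i + S ≤ x_i` as `S ≤ ∑_{j≠i} u_j ≤ u_i`: `G x ≤ G (p_∅)` by `mono`.  At `D` = all `j ≠ i`: `p_D = y`.
* `cone_mass`: `∑_{u ∈ bx L \ bx l} G u ≤ (d * 2^d * d^d) ∑_{u ∈ (bx L \ bx l) ∩ cone i ε} G u`.  Every `u` has a coordinate `i'` with `|u i'| = nm u` and a sign pattern: map `u` to `u'`: exchange the coordinates `i'` and `i`, apply signs so
  that `ε_j u'_j ≥ 0` (`G` unchanged: `perm`, sign flips), then replace `u'_j` (`j ≠ i`) by `ε_j ⌊|u'_j|/d⌋` (raises `G`, `mono`): the result is in `cone i ε` (`∑_{j≠i} ⌊|u'_j|/d⌋ ≤ ((d-1)/d) nm u ≤ |u'_i|`), has the same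
  `nm`, and each point of the cone has at most `d * 2^d * d^(d-1)` preimages.
-/

set_option autoImplicit false

open Finset Filter Topology

namespace H82.IC

variable {d : ℕ}

/-- sign. -/
def sgz (b : Bool) : ℤ := if b = true then 1 else -1

def cone {d : ℕ} (i : Fin d) (ε : Fin d → Bool) : Set (Vx d) :=
  {u | (∀ j, 0 ≤ sgz (ε j) * u j) ∧ ∑ j ∈ univ.erase i, |u j| ≤ |u i|}

/-- `G` increases if all coordinates decrease in absolute value. -/
theorem CNE_abs {G : Vx d → ℝ} (hG : Mms G) {z y : Vx d} (h : ∀ j, |y j| ≤ |z j|) : G z ≤ G y := by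
  classical
  have key : ∀ D : Finset (Fin d), G z ≤ G (fun j => if j ∈ D then y j else z j) := by
    intro D
    induction D using Finset.induction_on with
    | empty => simp
    | insert a D ha ih =>
      refine ih.trans ?_
      have h1 := hG.mono (fun j => if j ∈ D then y j else z j) a (y a) (by
        simp only [ha, if_false]
        exact h a)
      have h2 : Function.update (fun j => if j ∈ D then y j else z j) a (y a) =
          fun j => if j ∈ insert a D then y j else z j := by
        funext j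
        by_cases hj : j = a
        · subst hj
          simp
        · rw [Function.update_of_ne hj]
          simp [hj]
      rw [h2] at h1
      exact h1
  have h3 := key univ
  simpa using h3

/-- the case of nonnegative coordinates -/
theorem CNE_core {G : Vx d → ℝ} (hG : Mms G) (i : Fin d) (X U : Vx d) (hX : ∀ j, 0 ≤ X j)
    (hU : ∀ j, 0 ≤ U j) (h1 : ∑ j ∈ univ.erase i, U j ≤ U i) (h2 : ∑ j, U j ≤ X i) :
    G X ≤ G (X - U) := by
  classical
  let e : Fin d → ℤ := fun j => max 0 (U j - 2 * X j)
  have he0 : ∀ j, 0 ≤ e j := fun j => le_max_left _ _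
  have heU : ∀ j, e j ≤ U j := fun j => max_le (hU j) (by have := hX j; linarith)
  have hei : ∀ j, U j - 2 * X j ≤ e j := fun j => le_max_right _ _
  have hsum : ∑ j, U j = U i + ∑ j ∈ univ.erase i, U j :=
    (Finset.add_sum_erase univ U (Finset.mem_univ i)).symm
  have hUj : ∀ j, j ≠ i → U j ≤ ∑ j ∈ univ.erase i, U j := fun j hj =>
    Finset.single_le_sum (f := U) (fun k _ => hU k) (Finset.mem_erase.2 ⟨hj, Finset.mem_univ j⟩)
  have hS0 : 0 ≤ ∑ j ∈ univ.erase i, U j := Finset.sum_nonneg fun k _ => hU k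
  let p : Finset (Fin d) → Vx d := fun D l =>
    if l = i then X i - U i + ∑ j ∈ (univ.erase i) \ D, e j
    else if l ∈ D then X l + e l else X l
  have hpi : ∀ D, p D i = X i - U i + ∑ j ∈ (univ.erase i) \ D, e j := fun D => by
    simp only [p, if_true]
  have hpD : ∀ D l, l ≠ i → l ∈ D → p D l = X l + e l := fun D l hl hD => by
    simp only [p, if_neg hl, if_pos hD]
  have hpN : ∀ D l, l ≠ i → l ∉ D → p D l = X l := fun D l hl hD => by
    simp only [p, if_neg hl, if_neg hD]
  have key : ∀ D : Finset (Fin d), i ∉ D → G X ≤ G (p D) := by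
    intro D
    induction D using Finset.induction_on with
    | empty =>
      intro _
      refine CNE_abs hG fun l => ?_
      by_cases hl : l = i
      · subst hl
        rw [hpi, Finset.sdiff_empty, abs_of_nonneg (hX l)]
        have h3 : ∑ j ∈ univ.erase l, e j ≤ ∑ j ∈ univ.erase l, U j :=
          Finset.sum_le_sum fun j _ => heU j
        have h4 : 0 ≤ ∑ j ∈ univ.erase l, e j := Finset.sum_nonneg fun j _ => he0 j
        rw [abs_of_nonneg (by linarith)]
        linarith
      · rw [hpN ∅ l hl (Finset.notMem_empty l)]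
    | insert a D ha ih =>
      intro hi
      have hai : a ≠ i := fun h => hi (h ▸ Finset.mem_insert_self a D)
      have hiD : i ∉ D := fun h => hi (Finset.mem_insert_of_mem h)
      refine (ih hiD).trans ?_
      have hs : (univ.erase i) \ D = insert a ((univ.erase i) \ insert a D) := by
        ext j
        simp only [Finset.mem_sdiff, Finset.mem_erase, Finset.mem_univ, and_true,
          Finset.mem_insert, not_or]
        constructor
        · rintro ⟨h3, h4⟩
          by_cases h5 : j = a
          · exact Or.inl h5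
          · exact Or.inr ⟨h3, h5, h4⟩
        · rintro (h3 | ⟨h3, h4, h5⟩)
          · exact h3 ▸ ⟨hai, ha⟩
          · exact ⟨h3, h5⟩
      have hsp : ∑ j ∈ (univ.erase i) \ D, e j =
          e a + ∑ j ∈ (univ.erase i) \ insert a D, e j := by
        rw [hs, Finset.sum_insert]
        simp
      have hrest : 0 ≤ ∑ j ∈ (univ.erase i) \ insert a D, e j :=
        Finset.sum_nonneg fun j _ => he0 j
      rcases (he0 a).eq_or_lt with h0 | h0
      · have h3 : p (insert a D) = p D := by
          funext l
          by_cases hl : l = i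
          · subst hl
            rw [hpi, hpi, hsp, ← h0, zero_add]
          · by_cases hla : l = a
            · subst hla
              rw [hpD _ l hl (Finset.mem_insert_self l D), hpN D l hl ha, ← h0, add_zero]
            · by_cases hlD : l ∈ D
              · rw [hpD _ l hl (Finset.mem_insert_of_mem hlD), hpD D l hl hlD]
              · rw [hpN D l hl hlD, hpN _ l hl]
                simp [hla, hlD]
        rw [h3]
      · have h4 : e a = U a - 2 * X a := by
          rcases max_choice 0 (U a - 2 * X a) with h5 | h5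
          · exact absurd h5 (ne_of_gt h0)
          · exact h5
        have h5 := hX a
        have h6 := hUj a hai
        have h7 := hG.transfer (p D) i a (e a) (Ne.symm hai) (he0 a) (by
          rw [hpi, hpN D a hai ha, hsp]
          linarith)
        have h8 : Function.update (Function.update (p D) i (p D i - e a)) a (p D a + e a) =
            p (insert a D) := by
          funext l
          by_cases hla : l = a
          · subst hla
            rw [Function.update_self, hpN D l hai ha,
              hpD _ l hai (Finset.mem_insert_self l D)]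
          · rw [Function.update_of_ne hla]
            by_cases hl : l = i
            · subst hl
              rw [Function.update_self, hpi, hpi, hsp]
              ring
            · rw [Function.update_of_ne hl]
              by_cases hlD : l ∈ D
              · rw [hpD _ l hl (Finset.mem_insert_of_mem hlD), hpD D l hl hlD]
              · rw [hpN D l hl hlD, hpN _ l hl]
                simp [hla, hlD]
        rw [h8] at h7
        exact h7
  refine (key (univ.erase i) (Finset.notMem_erase i univ)).trans (CNE_abs hG fun l => ?_)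
  by_cases hl : l = i
  · subst hl
    rw [hpi, Finset.sdiff_self, Finset.sum_empty, add_zero]
    exact le_rfl
  · rw [hpD _ l hl (Finset.mem_erase.2 ⟨hl, Finset.mem_univ l⟩), Pi.sub_apply]
    have h3 := hX l
    have h4 := hU l
    have h5 := he0 l
    have h6 := hei l
    rw [abs_of_nonneg (by linarith : 0 ≤ X l + e l), abs_le]
    constructor <;> linarith

theorem CNE_sgz (b : Bool) : |sgz b| = 1 := by
  cases b <;> simp [sgz]

theorem CNE_sgz2 (b : Bool) (t : ℤ) : sgz b * (sgz b * t) = t := by
  cases b <;> simp [sgz]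

theorem cone_le (G : Vx d → ℝ) (hG : Mms G) (i : Fin d) (ε : Fin d → Bool) (x u : Vx d)
    (hx : ∀ j, 0 ≤ sgz (ε j) * x j) (hu : u ∈ cone i ε) (hxu : ∑ j, |u j| ≤ |x i|) :
    G x ≤ G (x - u) := by
  refine (CNE_abs hG (y := fun j => |x j|) fun j => ?_).trans
    ((CNE_core hG i (fun j => |x j|) (fun j => |u j|) (fun j => abs_nonneg _)
      (fun j => abs_nonneg _) hu.2 hxu).trans (CNE_abs hG fun j => ?_))
  · rw [abs_abs]
  · rw [Pi.sub_apply, Pi.sub_apply]
    have h1 := hx j
    have h2 := hu.1 j
    cases hε : ε j with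
    | false =>
      rw [hε] at h1 h2
      simp only [sgz, Bool.false_eq_true, if_false, neg_mul, one_mul] at h1 h2
      rw [abs_of_nonpos (by linarith : x j ≤ 0), abs_of_nonpos (by linarith : u j ≤ 0),
        ← abs_neg (x j - u j)]
      apply le_of_eq
      congr 1
      ring
    | true =>
      rw [hε] at h1 h2
      simp only [sgz, if_true, one_mul] at h1 h2
      rw [abs_of_nonneg h1, abs_of_nonneg h2]

theorem cone_mass (hd : 2 ≤ d) (G : Vx d → ℝ) (hG : Mms G) (i : Fin d) (ε : Fin d → Bool)
    (l L : ℕ) :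
    open Classical in
    ∑ u ∈ bx d L \ bx d l, G u ≤
      ((d : ℝ) * 2 ^ d * (d : ℝ) ^ d) *
        ∑ u ∈ (bx d L \ bx d l).filter (fun u => u ∈ cone i ε), G u := by
  classical
  have hd0 : 0 < d := by omega
  have hdZ : (0 : ℤ) < d := by exact_mod_cast hd0
  have : Nonempty (Fin d) := ⟨⟨0, hd0⟩⟩
  have hmax : ∀ u : Vx d, ∃ k : Fin d, ∀ j, |u j| ≤ |u k| := fun u =>
    Finite.exists_max fun j => |u j|
  choose m hm using hmax
  let Φ : Vx d → Vx d := fun u j =>
    sgz (ε j) * (if j = i then |u (m u)| else |u (Equiv.swap i (m u) j)| / d)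
  have hΦi : ∀ u, |Φ u i| = |u (m u)| := fun u => by
    simp only [Φ, if_true, abs_mul, CNE_sgz, one_mul, abs_abs]
  have hΦj : ∀ u j, j ≠ i → |Φ u j| = |u (Equiv.swap i (m u) j)| / d := fun u j hj => by
    simp only [Φ, if_neg hj, abs_mul, CNE_sgz, one_mul]
    exact abs_of_nonneg (Int.ediv_nonneg (abs_nonneg _) hdZ.le)
  have hΦle : ∀ u j, |Φ u j| ≤ |u (m u)| := fun u j => by
    by_cases hj : j = i
    · subst hj
      rw [hΦi]
    · rw [hΦj u j hj]
      exact (Int.ediv_le_self _ (abs_nonneg _)).trans (hm u _)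
  have hcone : ∀ u, Φ u ∈ cone i ε := fun u => by
    refine ⟨fun j => ?_, ?_⟩
    · simp only [Φ]
      rw [CNE_sgz2]
      split_ifs
      · exact abs_nonneg _
      · exact Int.ediv_nonneg (abs_nonneg _) hdZ.le
    · rw [hΦi]
      have h1 : ∀ j ∈ univ.erase i, |Φ u j| ≤ |u (m u)| / d := fun j hj => by
        rw [hΦj u j (Finset.ne_of_mem_erase hj)]
        exact Int.ediv_le_ediv hdZ (hm u _)
      refine (Finset.sum_le_card_nsmul _ _ _ h1).trans ?_
      rw [Finset.card_erase_of_mem (Finset.mem_univ i), Finset.card_univ, Fintype.card_fin,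
        nsmul_eq_mul]
      have h2 : (0 : ℤ) ≤ |u (m u)| / d := Int.ediv_nonneg (abs_nonneg _) hdZ.le
      have h3 : ((d - 1 : ℕ) : ℤ) ≤ d := by exact_mod_cast Nat.sub_le d 1
      exact (mul_le_mul_of_nonneg_right h3 h2).trans (Int.mul_ediv_self_le hdZ.ne')
  have hbx : ∀ u n, Φ u ∈ bx d n ↔ u ∈ bx d n := fun u n => by
    rw [mem_bx_abs, mem_bx_abs]
    constructor
    · intro h j
      exact (hm u j).trans ((hΦi u).symm.le.trans (h i))
    · intro h j
      exact (hΦle u j).trans (h _)
  have hGΦ : ∀ u, G u ≤ G (Φ u) := fun u => by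
    have h1 : G u = G (fun j => u (Equiv.swap i (m u) j)) :=
      hG.perm (Equiv.swap i (m u)) _ _ fun j => rfl
    rw [h1]
    refine CNE_abs hG fun j => ?_
    by_cases hj : j = i
    · subst hj
      rw [hΦi, Equiv.swap_apply_left]
    · rw [hΦj u j hj]
      exact Int.ediv_le_self _ (abs_nonneg _)
  -- the number of preimages
  let T : Vx d → Fin d × (Fin d → Bool) × (Fin d → Fin d) := fun u =>
    (m u, fun j => decide (0 ≤ u j), fun j => ⟨(|u j| % d).toNat, by
      have h1 := Int.emod_nonneg |u j| hdZ.ne'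
      have h2 := Int.emod_lt_of_pos |u j| hdZ
      omega⟩)
  have hinj : ∀ u v, Φ u = Φ v → T u = T v → u = v := by
    intro u v h1 h2
    have h3 : m u = m v := congrArg Prod.fst h2
    have h4 : ∀ j, (0 ≤ u j ↔ 0 ≤ v j) := fun j => by
      have h5 : decide (0 ≤ u j) = decide (0 ≤ v j) := congrFun (congrArg (fun t => t.2.1) h2) j
      exact decide_eq_decide.1 h5
    have h5 : ∀ j, |u j| % d = |v j| % d := fun j => by
      have h6 : (⟨(|u j| % d).toNat, _⟩ : Fin d) = ⟨(|v j| % d).toNat, _⟩ :=
        congrFun (congrArg (fun t => t.2.2) h2) j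
      have h7 := congrArg Fin.val h6
      have h8 := Int.emod_nonneg |u j| hdZ.ne'
      have h9 := Int.emod_nonneg |v j| hdZ.ne'
      simp only at h7
      omega
    have h6 : ∀ j, |u j| = |v j| := by
      intro j
      by_cases hj : j = m u
      · have h7 : |Φ u i| = |Φ v i| := by rw [h1]
        rw [hΦi, hΦi, ← h3, ← hj] at h7
        exact h7
      · have h8 : Equiv.swap i (m u) j ≠ i := by
          intro h9
          apply hj
          have h10 := congrArg (Equiv.swap i (m u)) h9
          rw [Equiv.swap_apply_self, Equiv.swap_apply_left] at h10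
          exact h10
        have h7 : |Φ u (Equiv.swap i (m u) j)| = |Φ v (Equiv.swap i (m u) j)| := by rw [h1]
        rw [hΦj u _ h8, hΦj v _ h8, ← h3, Equiv.swap_apply_self] at h7
        have h9 := Int.emod_add_mul_ediv |u j| d
        have h10 := Int.emod_add_mul_ediv |v j| d
        rw [h5 j, h7] at h9
        exact h9.symm.trans h10
    funext j
    rcases abs_eq_abs.1 (h6 j) with h7 | h7
    · exact h7
    · have h8 := h4 j
      by_cases h9 : 0 ≤ u j
      · have h10 := h8.1 h9
        linarith
      · have h10 : ¬ 0 ≤ v j := fun h => h9 (h8.2 h)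
        push Not at h9 h10
        linarith
  set A := bx d L \ bx d l with hA
  set Bs := A.filter (fun u => u ∈ cone i ε) with hB
  have hmaps : ∀ u ∈ A, Φ u ∈ Bs := fun u hu => by
    rw [hA, Finset.mem_sdiff] at hu
    rw [hB, Finset.mem_filter, hA, Finset.mem_sdiff, hbx, hbx]
    exact ⟨hu, hcone u⟩
  have hcard : ∀ w, ((A.filter (fun u => Φ u = w)).card : ℝ) ≤ (d : ℝ) * 2 ^ d * (d : ℝ) ^ d := by
    intro w
    have h1 : (A.filter (fun u => Φ u = w)).card ≤
        (univ : Finset (Fin d × (Fin d → Bool) × (Fin d → Fin d))).card := by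
      refine Finset.card_le_card_of_injOn T (fun _ _ => Finset.mem_coe.2 (Finset.mem_univ _)) ?_
      intro u hu v hv huv
      have h2 := (Finset.mem_filter.1 (Finset.mem_coe.1 hu)).2
      have h3 := (Finset.mem_filter.1 (Finset.mem_coe.1 hv)).2
      exact hinj u v (h2.trans h3.symm) huv
    have h2 : (univ : Finset (Fin d × (Fin d → Bool) × (Fin d → Fin d))).card =
        d * (2 ^ d * d ^ d) := by
      rw [Finset.card_univ]
      simp
    rw [h2] at h1
    have h3 : ((A.filter (fun u => Φ u = w)).card : ℝ) ≤ ((d * (2 ^ d * d ^ d) : ℕ) : ℝ) := by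
      exact_mod_cast h1
    refine h3.trans (le_of_eq ?_)
    push_cast
    ring
  calc ∑ u ∈ A, G u ≤ ∑ u ∈ A, G (Φ u) := Finset.sum_le_sum fun u _ => hGΦ u
    _ = ∑ w ∈ Bs, ∑ u ∈ A.filter (fun u => Φ u = w), G (Φ u) :=
        (Finset.sum_fiberwise_of_maps_to hmaps _).symm
    _ = ∑ w ∈ Bs, ((A.filter (fun u => Φ u = w)).card : ℝ) * G w := by
        refine Finset.sum_congr rfl fun w _ => ?_
        rw [Finset.sum_congr rfl (fun u hu => by rw [(Finset.mem_filter.1 hu).2] :
          ∀ u ∈ A.filter (fun u => Φ u = w), G (Φ u) = G w), Finset.sum_const, nsmul_eq_mul]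
    _ ≤ ∑ w ∈ Bs, ((d : ℝ) * 2 ^ d * (d : ℝ) ^ d) * G w :=
        Finset.sum_le_sum fun w _ => mul_le_mul_of_nonneg_right (hcard w) (hG.nonneg w)
    _ = ((d : ℝ) * 2 ^ d * (d : ℝ) ^ d) * ∑ w ∈ Bs, G w := by rw [Finset.mul_sum]

end H82.IC
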