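import Pool.Agent.H82.IC.BR2

/-!
# DEN: density of open edges and connection probabilities

* `fk_density` (abstract): for an edge `e0` with parameter `t = t e0` (`T01`), `(1 + t) * fkE 1[e0 ∈ ω] = t * (1 + fkE 1[s e0 ↔ r e0])`.
  Proof: `fkS_eq`; group `ω` and `insert e0 ω` (`e0 ∉ ω`): let `u ω` be the product of the other factors times `kap ω`, `i = ind (Conn ω s r) ∈ {0,1}`: the weights are `(1-t) u` and `t u (1 + i)` (`kap_insert`), in
  `insert e0 ω` the ends are connected.  So with `A = ∑ u i`, `B = ∑ u (1 - i)`: `Z = (1-t)(A+B) + t(2A+B) = (1+t) A + B`, `fkS 1[e0 ∈ ω] = t(2A+B)`, `fkS 1[s ↔ r] = (1-t) A + t(2A+B) = (1+t)A + tB`.  Check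
  `(1+t) t (2A+B) = t (Z + (1+t)A + tB)`: right side `= t(2(1+t)A + (1+t)B)`.
* `phiB_density`: through `phiB_self` (free, `e ∈ bE n`) and `phiB_wired` with `N = n + 1` (wired; in `GN d (n+1)` with all `E1` open the connection of `s e`, `r e` is the event `cn (s e) (r e)` for `ext true n (n+1) ω`:
  by the argument of `phiB_wired`, connection in the infinite configuration open outside `Λ_n` of two points of `Λ_n` is the same as connection in the finite graph).
  It may be easier to do the computation directly for `fkw` and `kx` (with `kG_insert`): weights `2^{kx} (2t/(1-t))^{|ω|}`, `kx(insert e ω) = kx(ω) - 1[not s ↔ r]`.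
-/

set_option autoImplicit false

open Finset

namespace H82.IC

theorem DEN_split {V E : Type*} [Fintype E] [DecidableEq E] (Γ : Gr V E) (t : E → ℝ) (e0 : E)
    (f : Finset E → ℝ) :
    Γ.fkS t f = ∑ ω ∈ (univ.erase e0).powerset,
      Γ.kap ω * (∏ e ∈ ω, t e) * (∏ e ∈ (insert e0 ω)ᶜ, (1 - t e)) *
        ((1 - t e0) * f ω + t e0 * (1 + ind (Γ.Conn (ω : Set E) (Γ.s e0) (Γ.r e0))) *
          f (insert e0 ω)) := by
  rw [fkS_eq]
  have h0 : (univ : Finset (Finset E)) = (insert e0 (univ.erase e0)).powerset := by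
    rw [insert_erase (mem_univ e0)]
    exact powerset_univ.symm
  rw [h0, sum_powerset_insert (notMem_erase e0 univ), ← sum_add_distrib]
  refine sum_congr rfl fun ω hω => ?_
  have he : e0 ∉ ω := fun h => notMem_erase e0 univ (mem_powerset.1 hω h)
  have h1 : ωᶜ = insert e0 (insert e0 ω)ᶜ := by
    ext x
    simp only [mem_compl, mem_insert]
    constructor
    · intro hx
      by_cases h : x = e0
      · exact Or.inl h
      · exact Or.inr fun h' => h'.elim h hx
    · rintro (h | h)
      · rw [h]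
        exact he
      · exact fun h' => h (Or.inr h')
  have h2 : e0 ∉ (insert e0 ω)ᶜ := by
    simp
  rw [kap_insert Γ he, prod_insert he, h1, prod_insert h2]
  ring

theorem fk_density {V E : Type*} [Fintype E] [DecidableEq E] (Γ : Gr V E) {t : E → ℝ}
    (ht : T01 t) (e0 : E) :
    (1 + t e0) * Γ.fkE t (fun ω => ind (e0 ∈ ω)) =
      t e0 * (1 + Γ.fkE t (fun ω => ind (Γ.Conn (ω : Set E) (Γ.s e0) (Γ.r e0)))) := by
  have hz := one_le_z Γ ht
  have hz0 : Γ.z t 0 ≠ 0 := by
    intro h
    rw [h] at hz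
    norm_num at hz
  have h1 : (1 + t e0) * Γ.fkS t (fun ω => ind (e0 ∈ ω)) =
      t e0 * (Γ.z t 0 + Γ.fkS t (fun ω => ind (Γ.Conn (ω : Set E) (Γ.s e0) (Γ.r e0)))) := by
    rw [← fkS_one, DEN_split Γ t e0, DEN_split Γ t e0, DEN_split Γ t e0, ← sum_add_distrib,
      mul_sum, mul_sum]
    refine sum_congr rfl fun ω hω => ?_
    have he : e0 ∉ ω := fun h => notMem_erase e0 univ (mem_powerset.1 hω h)
    have h2 : ind (e0 ∈ ω) = 0 := by
      unfold ind
      exact if_neg he
    have h3 : ind (e0 ∈ insert e0 ω) = 1 := by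
      unfold ind
      exact if_pos (mem_insert_self e0 ω)
    have h4 : ind (Γ.Conn ((insert e0 ω : Finset E) : Set E) (Γ.s e0) (Γ.r e0)) = 1 := by
      unfold ind
      exact if_pos (conn_edge Γ (mem_coe.2 (mem_insert_self e0 ω)))
    simp only [h2, h3, h4]
    ring
  unfold Gr.fkE
  field_simp
  linarith

end H82.IC
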