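import Mathlib

/-!
# DICH: the dichotomy (pure real analysis)

`a : ℕ → ℝ` positive, antitone; `l t < L t ≤ l (t+1)`, `2 J L t ≤ l (t+1)`, `(1-ε)^J (d+1) ≤ 1`, `n ≥ l (2T)`.
A scale `t` is good at `n` if `(1-ε) a n ≤ (1/2)(a n + a (n + L t)) + (1/(2d)) (a (n - l t) - a n)`.
If at least `T` of the indices `0..2T-1` are good, take a subset of `T` of them (`Finset.exists_subset_card_eq`).
Otherwise more than `T` are bad, so some bad `t ≥ T`.  Bad at `t`: `(1/(2d)) (a (n - l t) - a n) < (1-ε) a n - (1/2) a n - (1/2) a (n + L t) < (1/2) a n`, so `a (n - l t) < (d+1) a n`.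
Let `La = L (T-1)`; `2 J La ≤ l T ≤ l t ≤ n`.  If for all `j < J`, with `p j = n - l t + (2j+1) La`: `a (p j + La) < (1-ε) a (p j - La)`, then inductively
`a (n - l t + 2 j La) ≤ (1-ε)^j a (n - l t)`, with strict inequality for `j = J ≥ 1`, so `a n ≤ a (n - l t + 2 J La) < (1-ε)^J (d+1) a n ≤ a n`, contradiction (for `J = 0`: `d + 1 ≤ 1` contradicts `d ≥ 1`).
So for some `j`, `n' = p j` satisfies `a (n' + La) ≥ (1-ε) a (n' - La) ≥ (1-ε) a n'`, `n - l t ≤ n' ≤ n` (`(2j+1) La ≤ 2 J La ≤ l t`), `a n' ≤ a (n - l t) ≤ (d+1) a n`, and `n - l (2T) ≤ n'` since `l` is increasing.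
-/

set_option autoImplicit false

namespace H82.IC

theorem dich (d : ℕ) (hd : 1 ≤ d) (a : ℕ → ℝ) (ha : Antitone a) (hpos : ∀ n, 0 < a n) (ε : ℝ)
    (hε : 0 < ε) (hε1 : ε < 1 / 2) (T J : ℕ) (hT : 1 ≤ T) (hJ : (1 - ε) ^ J * ((d : ℝ) + 1) ≤ 1)
    (l L : ℕ → ℕ) (h1 : ∀ t, l t < L t) (h2 : ∀ t, L t ≤ l (t + 1))
    (h3 : ∀ t, 2 * J * L t ≤ l (t + 1)) (n : ℕ) (hn : l (2 * T) ≤ n) :
    (∃ S ⊆ Finset.range (2 * T), S.card = T ∧ ∀ t ∈ S,
      (1 - ε) * a n ≤ (1 / 2) * (a n + a (n + L t)) +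
        (1 / (2 * (d : ℝ))) * (a (n - l t) - a n)) ∨
    ∃ n', n - l (2 * T) ≤ n' ∧ n' ≤ n ∧ a n' ≤ ((d : ℝ) + 1) * a n ∧
      (1 - ε) * a n' ≤ a (n' + L (T - 1)) := by
  classical
  have hlm : StrictMono l := strictMono_nat_of_lt_succ fun t => (h1 t).trans_le (h2 t)
  have hd0 : (0 : ℝ) < d := by exact_mod_cast hd
  set P : ℕ → Prop := fun t => (1 - ε) * a n ≤ (1 / 2) * (a n + a (n + L t)) +
        (1 / (2 * (d : ℝ))) * (a (n - l t) - a n) with hP
  by_cases hg : T ≤ ((Finset.range (2 * T)).filter P).card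
  · left
    obtain ⟨S, hS, hc⟩ := Finset.exists_subset_card_eq hg
    exact ⟨S, hS.trans (Finset.filter_subset _ _), hc, fun t ht =>
      (Finset.mem_filter.1 (hS ht)).2⟩
  · right
    -- a bad index `t ≥ T`
    obtain ⟨t, htT, ht2, hbad⟩ : ∃ t, T ≤ t ∧ t < 2 * T ∧ ¬ P t := by
      by_contra hno
      push Not at hno
      apply hg
      have h4 : Finset.Ico T (2 * T) ⊆ (Finset.range (2 * T)).filter P := by
        intro t ht
        rw [Finset.mem_Ico] at ht
        rw [Finset.mem_filter, Finset.mem_range]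
        exact ⟨ht.2, hno t ht.1 ht.2⟩
      have h5 := Finset.card_le_card h4
      rw [Nat.card_Ico] at h5
      omega
    rw [hP] at hbad
    simp only [not_le] at hbad
    have han := hpos n
    have haL := hpos (n + L t)
    have hm : a (n - l t) < ((d : ℝ) + 1) * a n := by
      have h4 : (1 / (2 * (d : ℝ))) * (a (n - l t) - a n) < 1 / 2 * a n := by
        nlinarith [mul_pos hε han]
      have h5 : (1 / (2 * (d : ℝ))) * (a (n - l t) - a n) * (2 * d) = a (n - l t) - a n := by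
        field_simp
      have h6 := mul_lt_mul_of_pos_right h4 (by positivity : (0 : ℝ) < 2 * d)
      rw [h5] at h6
      nlinarith
    set m := n - l t with hmdef
    have hlt : l t ≤ l (2 * T) := hlm.monotone ht2.le
    have hlT : l T ≤ l t := hlm.monotone htT
    have h2J : 2 * J * L (T - 1) ≤ l T := by
      have h4 := h3 (T - 1)
      rwa [Nat.sub_add_cancel hT] at h4
    have hq : (0 : ℝ) < 1 - ε := by linarith
    obtain ⟨j, hj, hja⟩ : ∃ j, j < J ∧
        (1 - ε) * a (m + 2 * j * L (T - 1)) ≤ a (m + 2 * (j + 1) * L (T - 1)) := by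
      by_contra hno
      push Not at hno
      have hind : ∀ j, j ≤ J → a (m + 2 * j * L (T - 1)) ≤ (1 - ε) ^ j * a m := by
        intro j
        induction j with
        | zero => intro _; simp
        | succ j ih =>
          intro hj
          have h4 := ih (by omega)
          have h5 := hno j (by omega)
          calc a (m + 2 * (j + 1) * L (T - 1)) ≤ (1 - ε) * a (m + 2 * j * L (T - 1)) := h5.le
            _ ≤ (1 - ε) * ((1 - ε) ^ j * a m) := mul_le_mul_of_nonneg_left h4 hq.le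
            _ = (1 - ε) ^ (j + 1) * a m := by ring
      have h4 := hind J le_rfl
      have h5 : a n ≤ a (m + 2 * J * L (T - 1)) := ha (by omega)
      have h6 : (1 - ε) ^ J * a m < (1 - ε) ^ J * (((d : ℝ) + 1) * a n) :=
        mul_lt_mul_of_pos_left hm (pow_pos hq J)
      have h7 : (1 - ε) ^ J * (((d : ℝ) + 1) * a n) ≤ a n := by
        rw [← mul_assoc]
        calc (1 - ε) ^ J * ((d : ℝ) + 1) * a n ≤ 1 * a n :=
              mul_le_mul_of_nonneg_right hJ han.le
          _ = a n := one_mul _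
      linarith
    have h4 : 2 * (j + 1) * L (T - 1) ≤ 2 * J * L (T - 1) :=
      Nat.mul_le_mul_right _ (by omega)
    have h5 : 2 * (j + 1) * L (T - 1) = 2 * j * L (T - 1) + L (T - 1) + L (T - 1) := by ring
    refine ⟨m + (2 * j * L (T - 1) + L (T - 1)), by omega, by omega, ?_, ?_⟩
    · exact (ha (by omega)).trans hm.le
    · rw [h5] at hja
      have h6 : m + (2 * j * L (T - 1) + L (T - 1)) + L (T - 1) =
          m + (2 * j * L (T - 1) + L (T - 1) + L (T - 1)) := by ring
      rw [h6]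
      refine le_trans (mul_le_mul_of_nonneg_left (ha ?_) hq.le) hja
      omega

end H82.IC
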