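import Pool.Agent.H82.IC.FK1

/-!
# DL: conditioning on the edges of `E1` (domain Markov property)

With `fkS_eq`: for `η ⊆ E1` and `setT E1 η t` (`= 1` on `η`, `0` on `E1 \ η`, `t` elsewhere): the weight of `ω` under `setT E1 η t` vanishes unless
`ω ∩ E1 = η` (a factor `0` for `e ∈ ω ∩ E1 \ η`, a factor `1 - 1` for `e ∈ η \ ω`), and if `ω ∩ E1 = η` then
`weight_t ω = (∏_{e ∈ η} t e) (∏_{e ∈ E1 \ η} (1 - t e)) * weight_{setT} ω`.  Summing over `η ⊆ E1` gives `fkS_dlr`.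
`prE t E1 η` is the probability of `ω ∩ E1 = η`.
-/

set_option autoImplicit false

open Finset

namespace H82.IC

variable {V E : Type*} [Fintype E] [DecidableEq E]

/-- probability that `ω ∩ E1 = η`. -/
noncomputable def Gr.prE (Γ : Gr V E) (t : E → ℝ) (E1 η : Finset E) : ℝ :=
  (∏ e ∈ η, t e) * (∏ e ∈ E1 \ η, (1 - t e)) * Γ.z (setT E1 η t) 0 / Γ.z t 0

theorem DL_pos (Γ : Gr V E) {t : E → ℝ} (ht : T01 t) : 0 < Γ.z t 0 := by
  linarith [one_le_z Γ ht]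

theorem prE_nonneg (Γ : Gr V E) {t : E → ℝ} (ht : T01 t) (E1 η : Finset E) :
    0 ≤ Γ.prE t E1 η := by
  unfold Gr.prE
  refine div_nonneg (mul_nonneg (mul_nonneg ?_ ?_) (z_nonneg Γ (T01_setT ht E1 η) 0))
    (z_nonneg Γ ht 0)
  · exact Finset.prod_nonneg fun e _ => (ht e).1
  · refine Finset.prod_nonneg fun e _ => ?_
    linarith [(ht e).2]

theorem DL_w (t : E → ℝ) (ω : Finset E) :
    (∏ e ∈ ω, t e) * ∏ e ∈ ωᶜ, (1 - t e) = ∏ e, (if e ∈ ω then t e else 1 - t e) := by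
  rw [← Finset.prod_mul_prod_compl ω (fun e => if e ∈ ω then t e else 1 - t e)]
  congr 1
  · exact Finset.prod_congr rfl fun e he => (if_pos he).symm
  · exact Finset.prod_congr rfl fun e he => (if_neg (Finset.mem_compl.1 he)).symm

theorem DL_zero {t : E → ℝ} {E1 η ω : Finset E} (hη : η ⊆ E1) (h : ω ∩ E1 ≠ η) :
    (∏ e ∈ ω, setT E1 η t e) * ∏ e ∈ ωᶜ, (1 - setT E1 η t e) = 0 := by
  have hex : ∃ e ∈ E1, ¬ (e ∈ ω ↔ e ∈ η) := by
    by_contra hcon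
    push Not at hcon
    apply h
    ext e
    rw [Finset.mem_inter]
    constructor
    · rintro ⟨h1, h2⟩
      exact (hcon e h2).1 h1
    · intro h1
      exact ⟨(hcon e (hη h1)).2 h1, hη h1⟩
  obtain ⟨e, he, hne⟩ := hex
  by_cases h1 : e ∈ ω
  · have h2 : e ∉ η := fun h3 => hne ⟨fun _ => h3, fun _ => h1⟩
    have h3 : ∏ e ∈ ω, setT E1 η t e = 0 := by
      refine Finset.prod_eq_zero h1 ?_
      unfold setT
      rw [if_neg h2, if_pos he]
    rw [h3, zero_mul]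
  · have h2 : e ∈ η := by
      by_contra h3
      exact hne ⟨fun h4 => absurd h4 h1, fun h4 => absurd h4 h3⟩
    have h3 : ∏ e ∈ ωᶜ, (1 - setT E1 η t e) = 0 := by
      refine Finset.prod_eq_zero (Finset.mem_compl.2 h1) ?_
      unfold setT
      rw [if_pos h2, sub_self]
    rw [h3, mul_zero]

theorem DL_key (t : E → ℝ) {E1 η : Finset E} (hη : η ⊆ E1) (ω : Finset E) :
    ind (ω ∩ E1 = η) * ((∏ e ∈ ω, t e) * ∏ e ∈ ωᶜ, (1 - t e)) =
      ((∏ e ∈ η, t e) * (∏ e ∈ E1 \ η, (1 - t e))) *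
        ((∏ e ∈ ω, setT E1 η t e) * ∏ e ∈ ωᶜ, (1 - setT E1 η t e)) := by
  by_cases h : ω ∩ E1 = η
  · rw [ind_true h, one_mul, DL_w, DL_w]
    have h1 : ∏ e ∈ η, t e = ∏ e, (if e ∈ η then t e else 1) := by
      rw [Finset.prod_ite_mem, Finset.univ_inter]
    have h2 : ∏ e ∈ E1 \ η, (1 - t e) = ∏ e, (if e ∈ E1 \ η then (1 - t e) else 1) := by
      rw [Finset.prod_ite_mem, Finset.univ_inter]
    rw [h1, h2, ← Finset.prod_mul_distrib, ← Finset.prod_mul_distrib]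
    refine Finset.prod_congr rfl fun e _ => ?_
    unfold setT
    by_cases e1 : e ∈ η
    · have e2 : e ∈ ω := by
        rw [← h] at e1
        exact (Finset.mem_inter.1 e1).1
      have e3 : e ∉ E1 \ η := fun h3 => (Finset.mem_sdiff.1 h3).2 e1
      rw [if_pos e2, if_pos e1, if_neg e3, if_pos e2, if_pos e1]
      ring
    · by_cases e2 : e ∈ E1
      · have e3 : e ∉ ω := by
          intro h3
          apply e1
          rw [← h]
          exact Finset.mem_inter.2 ⟨h3, e2⟩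
        have e4 : e ∈ E1 \ η := Finset.mem_sdiff.2 ⟨e2, e1⟩
        rw [if_neg e3, if_neg e1, if_pos e4, if_neg e3, if_neg e1, if_pos e2]
        ring
      · have e4 : e ∉ E1 \ η := fun h3 => e2 (Finset.mem_sdiff.1 h3).1
        rw [if_neg e1, if_neg e4, if_neg e1, if_neg e2]
        ring
  · rw [ind_false h, zero_mul, DL_zero hη h, mul_zero]

theorem DL_fkS (Γ : Gr V E) (t : E → ℝ) {E1 η : Finset E} (hη : η ⊆ E1) (f : Finset E → ℝ) :
    ((∏ e ∈ η, t e) * (∏ e ∈ E1 \ η, (1 - t e))) * Γ.fkS (setT E1 η t) f =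
      Γ.fkS t (fun ω => ind (ω ∩ E1 = η) * f ω) := by
  rw [fkS_eq, fkS_eq, Finset.mul_sum]
  refine Finset.sum_congr rfl fun ω _ => ?_
  have h := DL_key t hη ω
  linear_combination (-(Γ.kap ω * f ω)) * h

theorem prE_eq (Γ : Gr V E) {t : E → ℝ} (ht : T01 t) {E1 η : Finset E} (hη : η ⊆ E1) :
    Γ.prE t E1 η = Γ.fkE t (fun ω => ind (ω ∩ E1 = η)) := by
  unfold Gr.prE Gr.fkE
  rw [← fkS_one Γ (setT E1 η t), DL_fkS Γ t hη]
  simp only [mul_one]

theorem fkE_setT_supp (Γ : Gr V E) {t : E → ℝ} (ht : T01 t) {E1 η : Finset E} (hη : η ⊆ E1)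
    {f g : Finset E → ℝ} (h : ∀ ω, ω ∩ E1 = η → f ω = g ω) :
    Γ.fkE (setT E1 η t) f = Γ.fkE (setT E1 η t) g := by
  unfold Gr.fkE
  congr 1
  rw [fkS_eq, fkS_eq]
  refine Finset.sum_congr rfl fun ω _ => ?_
  by_cases h1 : ω ∩ E1 = η
  · rw [h ω h1]
  · rw [DL_zero hη h1, mul_zero, zero_mul, zero_mul]

theorem DL_ind_sum (E1 ω : Finset E) : ∑ η ∈ E1.powerset, ind (ω ∩ E1 = η) = 1 := by
  rw [Finset.sum_eq_single (ω ∩ E1)]
  · exact ind_true rfl
  · intro η _ hne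
    exact ind_false fun h => hne h.symm
  · intro h
    exact absurd (Finset.mem_powerset.2 Finset.inter_subset_right) h

theorem DL_prod (Γ : Gr V E) {t : E → ℝ} (ht : T01 t) {E1 η : Finset E} (hη : η ⊆ E1)
    (f : Finset E → ℝ) :
    Γ.prE t E1 η * Γ.fkE (setT E1 η t) f = Γ.fkE t (fun ω => ind (ω ∩ E1 = η) * f ω) := by
  unfold Gr.prE Gr.fkE
  rw [← DL_fkS Γ t hη]
  have h1 := DL_pos Γ ht
  have h2 := DL_pos Γ (T01_setT ht E1 η)
  field_simp

theorem fkE_dlr (Γ : Gr V E) {t : E → ℝ} (ht : T01 t) (E1 : Finset E) (f : Finset E → ℝ) :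
    Γ.fkE t f = ∑ η ∈ E1.powerset, Γ.prE t E1 η * Γ.fkE (setT E1 η t) f := by
  have h1 : ∑ η ∈ E1.powerset, Γ.prE t E1 η * Γ.fkE (setT E1 η t) f =
      ∑ η ∈ E1.powerset, Γ.fkE t (fun ω => ind (ω ∩ E1 = η) * f ω) :=
    Finset.sum_congr rfl fun η hη => DL_prod Γ ht (Finset.mem_powerset.1 hη) f
  rw [h1, ← fkE_sum]
  congr 1
  funext ω
  rw [← Finset.sum_mul, DL_ind_sum, one_mul]

theorem prE_sum (Γ : Gr V E) {t : E → ℝ} (ht : T01 t) (E1 : Finset E) :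
    ∑ η ∈ E1.powerset, Γ.prE t E1 η = 1 := by
  have h1 := fkE_dlr Γ ht E1 (fun _ => 1)
  rw [fkE_one Γ ht] at h1
  rw [h1]
  refine Finset.sum_congr rfl fun η _ => ?_
  rw [fkE_one Γ (T01_setT ht E1 η), mul_one]

end H82.IC
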