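import Pool.Agent.H82.IC.FK1

/-!
# DT1: double trace, first identities

`D S T f := trc (wDT t) (pr S T) f`.
* `sg_one`: `wDT t e a true + wDT t e a false = hp t e a.1 * hp t e a.2` (four cases), so `D S T 1 = z S * z T` by `trc_pm2`; divide by `(z 0)^2`.
* `sg_switch`: `trc_switch` with `g e = (c e, c e)`, `c` from `exists_flow` (if `f ω ≠ 0` then `u ↔ v` in `ω`): `wDT t e (a + (1,1)) true = wDT t e a true`
  and `bd g = pr (src u v) (src u v)` (`bd_pr`).
* `sg_supp1`, `sg_supp2`: with boundary `src x y` of the first (second) flow, `x ↔ y` in `ω` for all configurations of nonzero weight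
  (`trc_congr_supp` and `conn_of_flow` applied to the first (second) component; `wDT t e a false = 0` for `a ≠ 0`).
* `sg_supp4`: the same with `conn4_of_flow`.
* `sg_first`: insert `ind (o ↔ y)` (`sg_supp1`), switch with `(u,y)` (`src o y + src u y = src o u`, `0 + src u y`), then under the sources `(src o u, src u y)` both
  connections are automatic: `sg (src o u) (src u y) 1 = tp o u * tp u y`.
-/

set_option autoImplicit false

open Finset

namespace H82.IC

variable {V E : Type*} [Fintype E] [DecidableEq E]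

theorem wDT_closed (t : E → ℝ) (e : E) (a : ZMod 2 × ZMod 2) (ha : a ≠ 0) :
    wDT t e a false = 0 := by
  simp [wDT, ha]

theorem sg_one (Γ : Gr V E) (t : E → ℝ) (S T : V → ZMod 2) :
    Γ.sg t S T (fun _ => 1) = (Γ.z t S / Γ.z t 0) * (Γ.z t T / Γ.z t 0) := by
  have h : ∀ (e : E) (a : ZMod 2 × ZMod 2),
      wDT t e a true + wDT t e a false = hp t e a.1 * hp t e a.2 := by
    intro e a
    obtain ⟨a1, a2⟩ := a
    have h2 : ∀ a : ZMod 2, a = 0 ∨ a = 1 := by decide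
    rcases h2 a1 with rfl | rfl <;> rcases h2 a2 with rfl | rfl
    · simp [wDT, hp]
    · simp [wDT, hp]
    · simp [wDT, hp]
    · simp [wDT, hp]
      ring
  unfold Gr.sg
  rw [trc_pm2 Γ (wDT t) (hp t) (hp t) h S T, sq, div_mul_div_comm]
  rfl

theorem sg_add (Γ : Gr V E) (t : E → ℝ) (S T : V → ZMod 2) (f g : Finset E → ℝ) :
    Γ.sg t S T (fun ω => f ω + g ω) = Γ.sg t S T f + Γ.sg t S T g := by
  unfold Gr.sg
  rw [trc_add, add_div]

theorem sg_sub (Γ : Gr V E) (t : E → ℝ) (S T : V → ZMod 2) (f g : Finset E → ℝ) :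
    Γ.sg t S T (fun ω => f ω - g ω) = Γ.sg t S T f - Γ.sg t S T g := by
  unfold Gr.sg
  rw [trc_sub, sub_div]

theorem sg_smul (Γ : Gr V E) (t : E → ℝ) (S T : V → ZMod 2) (c : ℝ) (f : Finset E → ℝ) :
    Γ.sg t S T (fun ω => c * f ω) = c * Γ.sg t S T f := by
  unfold Gr.sg
  rw [trc_smul, mul_div_assoc]

theorem sg_sum {ι : Type*} (Γ : Gr V E) (t : E → ℝ) (S T : V → ZMod 2) (I : Finset ι)
    (f : ι → Finset E → ℝ) :
    Γ.sg t S T (fun ω => ∑ i ∈ I, f i ω) = ∑ i ∈ I, Γ.sg t S T (f i) := by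
  unfold Gr.sg
  rw [trc_sum, sum_div]

theorem sg_mono (Γ : Gr V E) {t : E → ℝ} (ht : T01 t) (S T : V → ZMod 2)
    {f g : Finset E → ℝ} (h : ∀ ω, f ω ≤ g ω) : Γ.sg t S T f ≤ Γ.sg t S T g := by
  unfold Gr.sg
  exact div_le_div_of_nonneg_right (trc_mono Γ _ (fun e a b => wDT_nonneg ht e a b) _ h)
    (sq_nonneg _)

theorem sg_nonneg (Γ : Gr V E) {t : E → ℝ} (ht : T01 t) (S T : V → ZMod 2)
    {f : Finset E → ℝ} (h : ∀ ω, 0 ≤ f ω) : 0 ≤ Γ.sg t S T f := by
  unfold Gr.sg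
  exact div_nonneg (trc_nonneg Γ _ (fun e a b => wDT_nonneg ht e a b) _ h) (sq_nonneg _)

/-- switching lemma for the double trace. -/
theorem sg_switch (Γ : Gr V E) (t : E → ℝ) (S T : V → ZMod 2) (u v : V) (f : Finset E → ℝ)
    (hf : ∀ ω : Finset E, f ω ≠ 0 → Γ.Conn (ω : Set E) u v) :
    Γ.sg t S T f = Γ.sg t (S + src u v) (T + src u v) f := by
  unfold Gr.sg
  rw [← pr_add]
  congr 1
  refine trc_switch Γ (wDT t) (pr S T) (pr (src u v) (src u v)) f fun ω hω => ?_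
  obtain ⟨c, hc, hcω⟩ := exists_flow Γ (hf ω hω)
  refine ⟨fun e => (c e, c e), ?_, fun e he => ?_⟩
  · rw [bd_pr]
    show pr (Γ.bd c) (Γ.bd c) = _
    rw [hc]
  · have hce : c e ≠ 0 := by
      intro h
      apply he
      show (c e, c e) = 0
      rw [h]
      rfl
    refine ⟨?_, fun a => ?_⟩
    · have := hcω e hce
      exact_mod_cast this
    · have h1 : c e = 1 := by
        have h2 : ∀ a : ZMod 2, a ≠ 0 → a = 1 := by decide
        exact h2 _ hce
      show wDT t e (a + (c e, c e)) true = _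
      rw [h1]
      have h3 : ((a + (1, 1)).1 = (a + (1, 1)).2) = (a.1 = a.2) := by
        refine propext ⟨fun h => ?_, fun h => ?_⟩
        · exact add_right_cancel (b := (1 : ZMod 2)) h
        · show a.1 + 1 = a.2 + 1
          rw [h]
      simp only [wDT, if_true, h3]

theorem DT1_first {Γ : Gr V E} {η : E → ZMod 2 × ZMod 2} {S T : V → ZMod 2}
    (h : Γ.bd η = pr S T) : Γ.bd (fun e => (η e).1) = S ∧ Γ.bd (fun e => (η e).2) = T := by
  rw [bd_pr, pr_inj] at h
  exact h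

omit [Fintype E] [DecidableEq E] in
theorem DT1_s1 {ω : Finset E} {η : E → ZMod 2 × ZMod 2} (h : ∀ e, η e ≠ 0 → e ∈ ω) :
    (∀ e, (fun e => (η e).1) e ≠ 0 → e ∈ (ω : Set E)) ∧
    (∀ e, (fun e => (η e).2) e ≠ 0 → e ∈ (ω : Set E)) := by
  constructor
  · intro e he
    exact Finset.mem_coe.2 (h e fun h0 => he (congrArg Prod.fst h0))
  · intro e he
    exact Finset.mem_coe.2 (h e fun h0 => he (congrArg Prod.snd h0))

theorem sg_supp1 (Γ : Gr V E) (t : E → ℝ) (x y : V) (T : V → ZMod 2) (f g : Finset E → ℝ)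
    (h : ∀ ω : Finset E, Γ.Conn (ω : Set E) x y → f ω = g ω) :
    Γ.sg t (src x y) T f = Γ.sg t (src x y) T g := by
  unfold Gr.sg
  rw [trc_congr_supp Γ (wDT t) (wDT_closed t) _ f g fun ω η h1 h2 => ?_]
  exact h ω (conn_of_flow Γ (DT1_first h1).1 (DT1_s1 h2).1)

theorem sg_supp2 (Γ : Gr V E) (t : E → ℝ) (S : V → ZMod 2) (x y : V) (f g : Finset E → ℝ)
    (h : ∀ ω : Finset E, Γ.Conn (ω : Set E) x y → f ω = g ω) :
    Γ.sg t S (src x y) f = Γ.sg t S (src x y) g := by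
  unfold Gr.sg
  rw [trc_congr_supp Γ (wDT t) (wDT_closed t) _ f g fun ω η h1 h2 => ?_]
  exact h ω (conn_of_flow Γ (DT1_first h1).2 (DT1_s1 h2).2)

theorem sg_supp12 (Γ : Gr V E) (t : E → ℝ) (x y x' y' : V) (f g : Finset E → ℝ)
    (h : ∀ ω : Finset E, Γ.Conn (ω : Set E) x y → Γ.Conn (ω : Set E) x' y' → f ω = g ω) :
    Γ.sg t (src x y) (src x' y') f = Γ.sg t (src x y) (src x' y') g := by
  unfold Gr.sg
  rw [trc_congr_supp Γ (wDT t) (wDT_closed t) _ f g fun ω η h1 h2 => ?_]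
  exact h ω (conn_of_flow Γ (DT1_first h1).1 (DT1_s1 h2).1)
    (conn_of_flow Γ (DT1_first h1).2 (DT1_s1 h2).2)

theorem sg_supp4 (Γ : Gr V E) (t : E → ℝ) (a b c d : V) (T : V → ZMod 2) (f g : Finset E → ℝ)
    (h : ∀ ω : Finset E, (Γ.Conn (ω : Set E) a b ∧ Γ.Conn (ω : Set E) c d) ∨
      (Γ.Conn (ω : Set E) a c ∧ Γ.Conn (ω : Set E) b d) ∨
      (Γ.Conn (ω : Set E) a d ∧ Γ.Conn (ω : Set E) b c) → f ω = g ω) :
    Γ.sg t (src a b + src c d) T f = Γ.sg t (src a b + src c d) T g := by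
  unfold Gr.sg
  rw [trc_congr_supp Γ (wDT t) (wDT_closed t) _ f g fun ω η h1 h2 => ?_]
  exact h ω (conn4_of_flow Γ (DT1_first h1).1 (DT1_s1 h2).1)

/-- first moment identity. -/
theorem sg_first (Γ : Gr V E) (t : E → ℝ) (o y u : V) :
    Γ.sg t (src o y) 0 (fun ω => ind (Γ.Conn (ω : Set E) o u)) = Γ.tp t o u * Γ.tp t u y := by
  have e1 : Γ.sg t (src o y) 0 (fun ω => ind (Γ.Conn (ω : Set E) o u)) =
      Γ.sg t (src o y) 0 (fun ω => ind (Γ.Conn (ω : Set E) o u) * ind (Γ.Conn (ω : Set E) o y)) := by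
    refine sg_supp1 Γ t o y 0 _ _ fun ω h => ?_
    rw [ind_true h, mul_one]
  have e2 := sg_switch Γ t (src o y) 0 u y
    (fun ω => ind (Γ.Conn (ω : Set E) o u) * ind (Γ.Conn (ω : Set E) o y)) (fun ω hω => by
      have h1 : Γ.Conn (ω : Set E) o u := by
        by_contra hc
        exact hω (by rw [ind_false hc, zero_mul])
      have h2 : Γ.Conn (ω : Set E) o y := by
        by_contra hc
        exact hω (by rw [ind_false hc, mul_zero])
      exact conn_trans Γ (conn_symm Γ h1) h2)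
  have e3 : src o y + src u y = src o u := by
    rw [src_comm u y, src_add]
  rw [e3, zero_add] at e2
  rw [e1, e2, sg_supp12 Γ t o u u y _ (fun _ => 1) fun ω h1 h2 => ?_, sg_one]
  · rfl
  · rw [ind_true h1, ind_true (conn_trans Γ h1 h2), mul_one]

end H82.IC
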