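import Pool.Agent.H82.IC.DT1

/-!
# DT2: the four point decomposition

Events (for `ω`): `AL` = `o ↔ y`, `o ↔ u`, `o ↔ v`;  `P1` = `o ↔ y`, `u ↔ v`, not `o ↔ u`;  `P2` = `o ↔ u`, `v ↔ y`, not `o ↔ v`;
`P3` = `o ↔ v`, `u ↔ y`, not `o ↔ u`.  With `sg = Γ.sg t`:
 `a := sg (src o y) (src u v) AL`, `b1 := sg (src o y) (src u v) P1`.
(1) `tp o y * tp u v = sg (src o y) (src u v) 1 = a + b1`   (`sg_supp12`: `1 = AL + P1` when `o ↔ y`, `u ↔ v`).
(2) `tp o u * tp v y = sg (src o u) (src v y) 1 = sg (src o u) (src v y) AL + b2`, `b2 := sg (src o u) (src v y) P2`, and by switching with `(y,u)` (connected on `AL`):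
    `sg (src o y) (src u v) AL = sg (src o u) (src y v) AL` (`src o y + src y u = src o u`, `src u v + src y u = src y v`, `src_comm`, `src_add`).
(3) `tp o v * tp u y = a + b3`, `b3 := sg (src o v) (src u y) P3` (switch with `(y,v)`).
(4) `z (src o y + src u v) / z 0 = sg (src o y + src u v) 0 1 = a + b1 + b2 + b3`: by `sg_supp4` (with a,b,c,d = o,y,u,v) `1 = AL + P1 + P2 + P3` (indicator functions)
    on the relevant configurations, and switching with `(u,v)` on `AL` and on `P1`, with `(v,y)` on `P2` (`src o y + src u v + src v y = src o u`), with `(u,y)` on `P3`.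
Conclusion: `tp o u * tp v y + tp o v * tp u y = 2a + b2 + b3 = z4 + tp o y * tp u v - 2 b1`, where `z4 = z (src o y + src u v)/z 0`.
-/

set_option autoImplicit false

open Finset

namespace H82.IC

variable {V E : Type*} [Fintype E] [DecidableEq E]

/-- all four points connected -/
noncomputable def DT2_AL (Γ : Gr V E) (o y u v : V) (ω : Finset E) : ℝ :=
  ind (Γ.Conn (ω : Set E) o y ∧ Γ.Conn (ω : Set E) o u ∧ Γ.Conn (ω : Set E) o v)

/-- two pairs, not connected to each other -/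
noncomputable def DT2_P (Γ : Gr V E) (a b c d : V) (ω : Finset E) : ℝ :=
  ind (Γ.Conn (ω : Set E) a b ∧ Γ.Conn (ω : Set E) c d ∧ ¬ Γ.Conn (ω : Set E) a c)

theorem DT2_ne {p : Prop} (h : ind p ≠ 0) : p := by
  by_contra hp
  exact h (ind_false hp)

theorem DT2_pair (Γ : Gr V E) (o y u v : V) (ω : Finset E) (h1 : Γ.Conn (ω : Set E) o y)
    (h2 : Γ.Conn (ω : Set E) u v) : (1 : ℝ) = DT2_AL Γ o y u v ω + DT2_P Γ o y u v ω := by
  unfold DT2_AL DT2_P
  by_cases h : Γ.Conn (ω : Set E) o u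
  · rw [ind_true ⟨h1, h, conn_trans Γ h h2⟩, ind_false fun h' => h'.2.2 h, add_zero]
  · rw [ind_false fun h' => h h'.2.1, ind_true ⟨h1, h2, h⟩, zero_add]

theorem DT2_AL_perm1 (Γ : Gr V E) (o y u v : V) : DT2_AL Γ o u v y = DT2_AL Γ o y u v := by
  funext ω
  unfold DT2_AL
  congr 1
  apply propext
  tauto

theorem DT2_AL_perm2 (Γ : Gr V E) (o y u v : V) : DT2_AL Γ o v u y = DT2_AL Γ o y u v := by
  funext ω
  unfold DT2_AL
  congr 1
  apply propext
  tauto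

theorem DT2_four (Γ : Gr V E) (o y u v : V) (ω : Finset E)
    (h : (Γ.Conn (ω : Set E) o y ∧ Γ.Conn (ω : Set E) u v) ∨
      (Γ.Conn (ω : Set E) o u ∧ Γ.Conn (ω : Set E) y v) ∨
      (Γ.Conn (ω : Set E) o v ∧ Γ.Conn (ω : Set E) y u)) :
    (1 : ℝ) = DT2_AL Γ o y u v ω + DT2_P Γ o y u v ω + DT2_P Γ o u v y ω +
      DT2_P Γ o v u y ω := by
  have key : ∀ (A P1 P2 P3 : Prop), (DT2_AL Γ o y u v ω = ind A) → (DT2_P Γ o y u v ω = ind P1) →
      (DT2_P Γ o u v y ω = ind P2) → (DT2_P Γ o v u y ω = ind P3) →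
      ((A ∧ ¬ P1 ∧ ¬ P2 ∧ ¬ P3) ∨ (¬ A ∧ P1 ∧ ¬ P2 ∧ ¬ P3) ∨ (¬ A ∧ ¬ P1 ∧ P2 ∧ ¬ P3) ∨
        (¬ A ∧ ¬ P1 ∧ ¬ P2 ∧ P3)) →
      (1 : ℝ) = DT2_AL Γ o y u v ω + DT2_P Γ o y u v ω + DT2_P Γ o u v y ω +
        DT2_P Γ o v u y ω := by
    intro A P1 P2 P3 hA h1 h2 h3 hh
    rw [hA, h1, h2, h3]
    rcases hh with ⟨g0, g1, g2, g3⟩ | ⟨g0, g1, g2, g3⟩ | ⟨g0, g1, g2, g3⟩ | ⟨g0, g1, g2, g3⟩
    · rw [ind_true g0, ind_false g1, ind_false g2, ind_false g3]
      norm_num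
    · rw [ind_false g0, ind_true g1, ind_false g2, ind_false g3]
      norm_num
    · rw [ind_false g0, ind_false g1, ind_true g2, ind_false g3]
      norm_num
    · rw [ind_false g0, ind_false g1, ind_false g2, ind_true g3]
      norm_num
  refine key _ _ _ _ rfl rfl rfl rfl ?_
  by_cases hA : Γ.Conn (ω : Set E) o y ∧ Γ.Conn (ω : Set E) o u ∧ Γ.Conn (ω : Set E) o v
  · exact Or.inl ⟨hA, fun h' => h'.2.2 hA.2.1, fun h' => h'.2.2 hA.2.2,
      fun h' => h'.2.2 hA.2.1⟩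
  · refine Or.inr ?_
    rcases h with ⟨h1, h2⟩ | ⟨h1, h2⟩ | ⟨h1, h2⟩
    · have h3 : ¬ Γ.Conn (ω : Set E) o u := fun h' => hA ⟨h1, h', conn_trans Γ h' h2⟩
      exact Or.inl ⟨hA, ⟨h1, h2, h3⟩, fun h' => h3 h'.1,
        fun h' => h3 (conn_trans Γ h'.1 (conn_symm Γ h2))⟩
    · have h3 : ¬ Γ.Conn (ω : Set E) o v := fun h' =>
        hA ⟨conn_trans Γ h' (conn_symm Γ h2), h1, h'⟩
      exact Or.inr (Or.inl ⟨hA, fun h' => h'.2.2 h1, ⟨h1, conn_symm Γ h2, h3⟩,
        fun h' => h3 h'.1⟩)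
    · have h3 : ¬ Γ.Conn (ω : Set E) o u := fun h' =>
        hA ⟨conn_trans Γ h' (conn_symm Γ h2), h', h1⟩
      exact Or.inr (Or.inr ⟨hA, fun h' => h3 (conn_trans Γ h'.1 h2), fun h' => h3 h'.1,
        ⟨h1, conn_symm Γ h2, h3⟩⟩)

theorem four_point (Γ : Gr V E) {t : E → ℝ} (ht : T01 t) (o y u v : V) :
    Γ.tp t o u * Γ.tp t v y + Γ.tp t o v * Γ.tp t u y =
      Γ.z t (src o y + src u v) / Γ.z t 0 + Γ.tp t o y * Γ.tp t u v -
        2 * Γ.sg t (src o y) (src u v) (fun ω => ind (¬ Γ.Conn (ω : Set E) o u)) := by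
  have hz : Γ.z t 0 ≠ 0 := by
    have := one_le_z Γ ht
    linarith
  -- (1)
  have e1 : Γ.tp t o y * Γ.tp t u v =
      Γ.sg t (src o y) (src u v) (DT2_AL Γ o y u v) + Γ.sg t (src o y) (src u v) (DT2_P Γ o y u v) := by
    rw [← sg_add]
    have h := sg_one Γ t (src o y) (src u v)
    unfold Gr.tp
    rw [← h]
    exact sg_supp12 Γ t o y u v _ _ fun ω h1 h2 => DT2_pair Γ o y u v ω h1 h2
  have e2 : Γ.tp t o u * Γ.tp t v y =
      Γ.sg t (src o u) (src v y) (DT2_AL Γ o y u v) + Γ.sg t (src o u) (src v y) (DT2_P Γ o u v y) := by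
    rw [← sg_add]
    have h := sg_one Γ t (src o u) (src v y)
    unfold Gr.tp
    rw [← h, ← DT2_AL_perm1]
    exact sg_supp12 Γ t o u v y _ _ fun ω h1 h2 => DT2_pair Γ o u v y ω h1 h2
  have e3 : Γ.tp t o v * Γ.tp t u y =
      Γ.sg t (src o v) (src u y) (DT2_AL Γ o y u v) + Γ.sg t (src o v) (src u y) (DT2_P Γ o v u y) := by
    rw [← sg_add]
    have h := sg_one Γ t (src o v) (src u y)
    unfold Gr.tp
    rw [← h, ← DT2_AL_perm2]
    exact sg_supp12 Γ t o v u y _ _ fun ω h1 h2 => DT2_pair Γ o v u y ω h1 h2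
  have s2 : Γ.sg t (src o y) (src u v) (DT2_AL Γ o y u v) =
      Γ.sg t (src o u) (src v y) (DT2_AL Γ o y u v) := by
    rw [sg_switch Γ t (src o y) (src u v) y u (DT2_AL Γ o y u v) fun ω h => by
      have h' := DT2_ne h
      exact conn_trans Γ (conn_symm Γ h'.1) h'.2.1]
    rw [src_add, add_comm (src u v), src_add, src_comm y v]
  have s3 : Γ.sg t (src o y) (src u v) (DT2_AL Γ o y u v) =
      Γ.sg t (src o v) (src u y) (DT2_AL Γ o y u v) := by
    rw [sg_switch Γ t (src o y) (src u v) y v (DT2_AL Γ o y u v) fun ω h => by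
      have h' := DT2_ne h
      exact conn_trans Γ (conn_symm Γ h'.1) h'.2.2]
    rw [src_add, src_comm y v, src_add]
  -- (4)
  have e4 : Γ.z t (src o y + src u v) / Γ.z t 0 =
      Γ.sg t (src o y + src u v) 0 (DT2_AL Γ o y u v) +
      Γ.sg t (src o y + src u v) 0 (DT2_P Γ o y u v) +
      Γ.sg t (src o y + src u v) 0 (DT2_P Γ o u v y) +
      Γ.sg t (src o y + src u v) 0 (DT2_P Γ o v u y) := by
    rw [← sg_add, ← sg_add, ← sg_add]
    have h := sg_one Γ t (src o y + src u v) 0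
    rw [div_self hz, mul_one] at h
    rw [← h]
    exact sg_supp4 Γ t o y u v 0 _ _ fun ω h => DT2_four Γ o y u v ω h
  have t1 : Γ.sg t (src o y + src u v) 0 (DT2_AL Γ o y u v) =
      Γ.sg t (src o y) (src u v) (DT2_AL Γ o y u v) := by
    rw [sg_switch Γ t (src o y + src u v) 0 u v (DT2_AL Γ o y u v) fun ω h => by
      have h' := DT2_ne h
      exact conn_trans Γ (conn_symm Γ h'.2.1) h'.2.2]
    rw [add_assoc, src_add_self, add_zero, zero_add]
  have t2 : Γ.sg t (src o y + src u v) 0 (DT2_P Γ o y u v) =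
      Γ.sg t (src o y) (src u v) (DT2_P Γ o y u v) := by
    rw [sg_switch Γ t (src o y + src u v) 0 u v (DT2_P Γ o y u v) fun ω h => (DT2_ne h).2.1]
    rw [add_assoc, src_add_self, add_zero, zero_add]
  have t3 : Γ.sg t (src o y + src u v) 0 (DT2_P Γ o u v y) =
      Γ.sg t (src o u) (src v y) (DT2_P Γ o u v y) := by
    rw [sg_switch Γ t (src o y + src u v) 0 v y (DT2_P Γ o u v y) fun ω h => (DT2_ne h).2.1]
    rw [add_assoc, src_add, src_comm u y, src_add, zero_add]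
  have t4 : Γ.sg t (src o y + src u v) 0 (DT2_P Γ o v u y) =
      Γ.sg t (src o v) (src u y) (DT2_P Γ o v u y) := by
    rw [sg_switch Γ t (src o y + src u v) 0 u y (DT2_P Γ o v u y) fun ω h => (DT2_ne h).2.1]
    rw [add_assoc, add_comm (src u v), ← add_assoc, src_comm u y, src_add, src_add, zero_add,
      src_comm y u]
  have e5 : Γ.sg t (src o y) (src u v) (fun ω => ind (¬ Γ.Conn (ω : Set E) o u)) =
      Γ.sg t (src o y) (src u v) (DT2_P Γ o y u v) := by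
    apply sg_supp12
    intro ω h1 h2
    unfold DT2_P
    congr 1
    apply propext
    exact ⟨fun h => ⟨h1, h2, h⟩, fun h => h.2.2⟩
  rw [e5, e4, t1, t2, t3, t4, e1, e2, e3, ← s2, ← s3]
  ring

end H82.IC
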