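import Pool.Agent.H82.IC.SW

/-!
# FCT: factorisation of trace sums on the event that the cluster of `o` equals `C`

`K = Γ.tch C` (edges touching `C`).  `wIn K w` = `w` on `K` and `δ_(0,closed)` off `K`; `wOut K w` = `w` off `K`, `δ_(0,closed)` on `K`.
Let `hw : w e a false = 0` for `a ≠ 0`.  If `f ω` depends only on `ω \ K` then
  `trc w S (1[cl ω o = C] f) = trc (wIn K w) (S|_C) (1[cl ω o = C]) * trc (wOut K w) (S|_{C^c}) f`.

Proof.  RHS = sum over `(η₁, ω₁, η₂, ω₂)` of
 `ind (bd η₁ = S|_C) ind (cl ω₁ o = C) ∏ wIn * ind (bd η₂ = S|_{C^c}) f ω₂ ∏ wOut`; the products vanish unless `η₁ = 0` and closed off `K` (i.e. support of `η₁`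
and `ω₁` contained in `K`), `η₂ = 0` and closed on `K`.  LHS: `(η, ω)` with `η₁ = K.indicator η`, `ω₁ = ω ∩ K`, `η₂ = Kᶜ.indicator η`, `ω₂ = ω \ K`: this is a
bijection between all `(η, ω)` and the quadruples with the support conditions (inverse: `η = η₁ + η₂`, `ω = ω₁ ∪ ω₂`),
`∏ e, w e (η e) (e ∈ ω) = (∏ e, wIn e (η₁ e) (e ∈ ω₁)) (∏ e, wOut e (η₂ e) (e ∈ ω₂))` termwise.
`cl ω o = C ↔ cl ω₁ o = C` by `cl_agree` (both directions: `ω` and `ω ∩ K` agree on the edges touching `C`).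
`f ω = f ω₂`.  If `cl ω o = C` and the weight is nonzero (so support of `η` is contained in `ω`), every edge in the support of `η` has both or no end in `C`
(`cl_end`), so by `bd_cut` `bd η₁ = C.indicator (bd η)`, `bd η₂ = bd η - bd η₁ = Cᶜ.indicator (bd η)`, hence
`bd η = S ↔ bd η₁ = S|_C ∧ bd η₂ = S|_{C^c}`.

* `trc_off_FK`, `trc_off_DT`: for the FK and double trace weights `wOut K (wFK t) = wFK (off K t)`, `wOut K (wDT t) = wDT (off K t)` (funext, cases).
* `trc_sum_cl`: every `ω` has exactly one cluster: the finite set `Γ.cls o` of all possible values of `cl ω o`.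
-/

set_option autoImplicit false

open Finset

namespace H82.IC

variable {V E : Type*} [Fintype E] [DecidableEq E]

/-- all possible clusters of `o`. -/
noncomputable def Gr.cls (Γ : Gr V E) (o : V) : Finset (Set V) :=
  open Classical in (univ : Finset (Finset E)).image (fun ω => Γ.cl (ω : Set E) o)

theorem mem_of_cls (Γ : Gr V E) (o : V) {C : Set V} (hC : C ∈ Γ.cls o) : o ∈ C := by
  classical
  unfold Gr.cls at hC
  obtain ⟨ω, -, hω⟩ := Finset.mem_image.1 hC
  rw [← hω]
  exact mem_cl_self Γ _ o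

theorem FCT_trc {A : Type*} [AddCommGroup A] [Fintype A] (Γ : Gr V E) (w : E → A → Bool → ℝ)
    (S : V → A) (f : Finset E → ℝ) :
    Γ.trc w S f = ∑ p : (E → A) × Finset E,
      ind (Γ.bd p.1 = S) * (f p.2 * ∏ e, w e (p.1 e) (decide (e ∈ p.2))) := by
  unfold Gr.trc
  rw [Fintype.sum_prod_type]

open Classical in
/-- the splitting of a pair -/
noncomputable def FCT_phi {A : Type*} [AddCommGroup A] (K : Set E) (p : (E → A) × Finset E) :
    ((E → A) × Finset E) × ((E → A) × Finset E) :=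
  ((K.indicator p.1, p.2.filter (fun e => e ∈ K)), (Kᶜ.indicator p.1, p.2.filter (fun e => e ∉ K)))

omit [Fintype E] in
theorem FCT_inj {A : Type*} [AddCommGroup A] (K : Set E) :
    Function.Injective (FCT_phi (A := A) (E := E) K) := by
  classical
  rintro ⟨η, ω⟩ ⟨η', ω'⟩ h
  unfold FCT_phi at h
  simp only [Prod.mk.injEq] at h
  obtain ⟨⟨h1, h2⟩, h3, h4⟩ := h
  apply Prod.ext
  · show η = η'
    rw [← Set.indicator_self_add_compl K η, ← Set.indicator_self_add_compl K η', h1, h3]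
  · show ω = ω'
    ext e
    by_cases he : e ∈ K
    · have e1 : e ∈ ω.filter (fun e => e ∈ K) ↔ e ∈ ω'.filter (fun e => e ∈ K) := by rw [h2]
      rw [Finset.mem_filter, Finset.mem_filter] at e1
      tauto
    · have e1 : e ∈ ω.filter (fun e => e ∉ K) ↔ e ∈ ω'.filter (fun e => e ∉ K) := by rw [h4]
      rw [Finset.mem_filter, Finset.mem_filter] at e1
      tauto

theorem FCT_term {A : Type*} [AddCommGroup A] (K : Set E) (w : E → A → Bool → ℝ)
    (p : (E → A) × Finset E) :
    (∏ e, w e (p.1 e) (decide (e ∈ p.2))) =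
      (∏ e, wIn K w e ((FCT_phi K p).1.1 e) (decide (e ∈ (FCT_phi K p).1.2))) *
      ∏ e, wOut K w e ((FCT_phi K p).2.1 e) (decide (e ∈ (FCT_phi K p).2.2)) := by
  classical
  rw [← Finset.prod_mul_distrib]
  refine Finset.prod_congr rfl fun e _ => ?_
  unfold FCT_phi wIn wOut
  by_cases he : e ∈ K
  · simp [he]
  · simp [he]

theorem FCT_out {A : Type*} [AddCommGroup A] (K : Set E) (w : E → A → Bool → ℝ)
    (q : ((E → A) × Finset E) × ((E → A) × Finset E))
    (h1 : (∏ e, wIn K w e (q.1.1 e) (decide (e ∈ q.1.2))) ≠ 0)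
    (h2 : (∏ e, wOut K w e (q.2.1 e) (decide (e ∈ q.2.2))) ≠ 0) :
    ∃ p, FCT_phi K p = q := by
  classical
  obtain ⟨⟨η₁, ω₁⟩, ⟨η₂, ω₂⟩⟩ := q
  rw [Finset.prod_ne_zero_iff] at h1 h2
  have k1 : ∀ e, e ∉ K → η₁ e = 0 ∧ e ∉ ω₁ := by
    intro e he
    have h := h1 e (Finset.mem_univ e)
    unfold wIn at h
    rw [if_neg he] at h
    by_contra hcon
    apply h
    rw [if_neg]
    rintro ⟨ha, hb⟩
    exact hcon ⟨ha, by simpa using hb⟩
  have k2 : ∀ e, e ∈ K → η₂ e = 0 ∧ e ∉ ω₂ := by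
    intro e he
    have h := h2 e (Finset.mem_univ e)
    unfold wOut at h
    rw [if_pos he] at h
    by_contra hcon
    apply h
    rw [if_neg]
    rintro ⟨ha, hb⟩
    exact hcon ⟨ha, by simpa using hb⟩
  refine ⟨(η₁ + η₂, ω₁ ∪ ω₂), ?_⟩
  unfold FCT_phi
  refine Prod.ext (Prod.ext ?_ ?_) (Prod.ext ?_ ?_)
  · funext e
    show K.indicator (η₁ + η₂) e = η₁ e
    by_cases he : e ∈ K
    · rw [Set.indicator_of_mem he, Pi.add_apply, (k2 e he).1, add_zero]
    · rw [Set.indicator_of_notMem he, (k1 e he).1]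
  · ext e
    simp only [Finset.mem_filter, Finset.mem_union]
    by_cases he : e ∈ K
    · have := (k2 e he).2
      tauto
    · have := (k1 e he).2
      tauto
  · funext e
    show Kᶜ.indicator (η₁ + η₂) e = η₂ e
    by_cases he : e ∈ K
    · rw [Set.indicator_of_notMem (show e ∉ Kᶜ from fun h => h he), (k2 e he).1]
    · rw [Set.indicator_of_mem (show e ∈ Kᶜ from he), Pi.add_apply, (k1 e he).1, zero_add]
  · ext e
    simp only [Finset.mem_filter, Finset.mem_union]
    by_cases he : e ∈ K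
    · have := (k2 e he).2
      tauto
    · have := (k1 e he).2
      tauto

omit [Fintype E] in
theorem FCT_cl {A : Type*} [AddCommGroup A] (Γ : Gr V E) (o : V) (C : Set V)
    (p : (E → A) × Finset E) :
    Γ.cl (p.2 : Set E) o = C ↔ Γ.cl ((FCT_phi (Γ.tch C) p).1.2 : Set E) o = C := by
  classical
  have hm : ∀ e, e ∈ Γ.tch C → (e ∈ (p.2 : Set E) ↔ e ∈ ((FCT_phi (Γ.tch C) p).1.2 : Set E)) := by
    intro e he
    unfold FCT_phi
    rw [Finset.mem_coe, Finset.mem_coe, Finset.mem_filter]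
    exact ⟨fun h => ⟨h, he⟩, fun h => h.1⟩
  constructor
  · intro h
    rw [← h]
    rw [← h] at hm
    exact cl_agree Γ hm
  · intro h
    have h2 := cl_agree Γ (ω := ((FCT_phi (Γ.tch C) p).1.2 : Set E)) (ω' := (p.2 : Set E)) (o := o)
      (fun e he => (hm e (by rwa [h] at he)).symm)
    rw [h2, h]

section General
variable {A : Type*} [AddCommGroup A] [Fintype A]

theorem trc_fact (Γ : Gr V E) (w : E → A → Bool → ℝ) (hw : ∀ e a, a ≠ 0 → w e a false = 0)
    (S : V → A) (o : V) (C : Set V) (f : Finset E → ℝ)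
    (hf : ∀ ω ω' : Finset E, (∀ e, e ∉ Γ.tch C → (e ∈ ω ↔ e ∈ ω')) → f ω = f ω') :
    Γ.trc w S (fun ω => ind (Γ.cl (ω : Set E) o = C) * f ω) =
      Γ.trc (wIn (Γ.tch C) w) (C.indicator S) (fun ω => ind (Γ.cl (ω : Set E) o = C)) *
        Γ.trc (wOut (Γ.tch C) w) (Cᶜ.indicator S) f := by
  classical
  rw [FCT_trc, FCT_trc, FCT_trc, Finset.sum_mul_sum, ← Finset.sum_product']
  refine Finset.sum_of_injOn (FCT_phi (Γ.tch C)) ((FCT_inj (Γ.tch C)).injOn)
    (fun _ _ => Finset.mem_coe.2 (Finset.mem_product.2 ⟨Finset.mem_univ _, Finset.mem_univ _⟩)) ?_ ?_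
  · intro q _ hq
    by_contra hne
    have h1 := left_ne_zero_of_mul hne
    have h2 := right_ne_zero_of_mul hne
    have h3 := right_ne_zero_of_mul (right_ne_zero_of_mul h1)
    have h4 := right_ne_zero_of_mul (right_ne_zero_of_mul h2)
    obtain ⟨p, hp⟩ := FCT_out (Γ.tch C) w q h3 h4
    exact hq ⟨p, Finset.mem_coe.2 (Finset.mem_univ p), hp⟩
  · intro p _
    have hcl := FCT_cl Γ o C p
    have hterm := FCT_term (Γ.tch C) w p
    have hf2 : f p.2 = f (FCT_phi (Γ.tch C) p).2.2 := by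
      apply hf
      intro e he
      unfold FCT_phi
      rw [Finset.mem_filter]
      exact ⟨fun h => ⟨h, he⟩, fun h => h.1⟩
    by_cases hC : Γ.cl (p.2 : Set E) o = C
    swap
    · rw [ind_false hC, ind_false (fun h => hC (hcl.2 h))]
      ring
    rw [ind_true hC, ind_true (hcl.1 hC), hf2]
    by_cases hz : (∏ e, w e (p.1 e) (decide (e ∈ p.2))) = 0
    · rw [hz] at hterm
      rw [hz]
      rcases mul_eq_zero.1 hterm.symm with h | h
      · rw [h]
        ring
      · rw [h]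
        ring
    rw [hterm]
    have hsup : ∀ e, p.1 e ≠ 0 → (Γ.s e ∈ C ↔ Γ.r e ∈ C) := by
      intro e he
      have h1 := Finset.prod_ne_zero_iff.1 hz e (Finset.mem_univ e)
      have h2 : e ∈ p.2 := by
        by_contra hne
        apply h1
        rw [decide_eq_false hne]
        exact hw e _ he
      rw [← hC]
      exact cl_end Γ (Finset.mem_coe.2 h2) o
    have hb1 := bd_cut Γ C p.1 hsup
    have hb2 : Γ.bd ((Γ.tch C)ᶜ.indicator p.1) = Cᶜ.indicator (Γ.bd p.1) := by
      have h3 := bd_add Γ ((Γ.tch C).indicator p.1) ((Γ.tch C)ᶜ.indicator p.1)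
      rw [Set.indicator_self_add_compl, hb1] at h3
      have h4 := Set.indicator_self_add_compl C (Γ.bd p.1)
      exact (add_left_cancel (h4.trans h3)).symm
    have hiff : Γ.bd p.1 = S ↔ (Γ.bd (FCT_phi (Γ.tch C) p).1.1 = C.indicator S ∧
        Γ.bd (FCT_phi (Γ.tch C) p).2.1 = Cᶜ.indicator S) := by
      show Γ.bd p.1 = S ↔ (Γ.bd ((Γ.tch C).indicator p.1) = C.indicator S ∧
        Γ.bd ((Γ.tch C)ᶜ.indicator p.1) = Cᶜ.indicator S)
      rw [hb1, hb2]
      constructor
      · intro h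
        rw [h]
        exact ⟨rfl, rfl⟩
      · rintro ⟨h5, h6⟩
        rw [← Set.indicator_self_add_compl C (Γ.bd p.1), h5, h6, Set.indicator_self_add_compl]
    have hind : ind (Γ.bd p.1 = S) = ind (Γ.bd (FCT_phi (Γ.tch C) p).1.1 = C.indicator S) *
        ind (Γ.bd (FCT_phi (Γ.tch C) p).2.1 = Cᶜ.indicator S) := by
      rw [← ind_and]
      exact congrArg ind (propext hiff)
    rw [hind]
    ring

theorem trc_sum_cl (Γ : Gr V E) (w : E → A → Bool → ℝ) (S : V → A) (o : V) (f : Finset E → ℝ) :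
    Γ.trc w S f = ∑ C ∈ Γ.cls o, Γ.trc w S (fun ω => ind (Γ.cl (ω : Set E) o = C) * f ω) := by
  classical
  rw [← trc_sum]
  congr 1
  funext ω
  rw [← Finset.sum_mul]
  have hmem : Γ.cl (ω : Set E) o ∈ Γ.cls o := by
    unfold Gr.cls
    refine Finset.mem_image.2 ⟨(ω : Set E), ?_, rfl⟩
    simp [Finset.bind_def, Finset.pure_def]
  rw [Finset.sum_eq_single (Γ.cl (ω : Set E) o) (fun C _ hne => ind_false (fun h => hne h.symm))
    (fun h => absurd hmem h), ind_true rfl, one_mul]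

end General

theorem wOut_FK (K : Set E) (t : E → ℝ) : wOut K (wFK t) = wFK (off K t) := by
  classical
  funext e a b
  unfold wOut wFK off
  by_cases he : e ∈ K
  · cases b <;> simp [he]
  · simp [he]

theorem wOut_DT (K : Set E) (t : E → ℝ) : wOut K (wDT t) = wDT (off K t) := by
  classical
  funext e a b
  unfold wOut wDT off
  by_cases he : e ∈ K
  · cases b <;> simp [he]
  · simp [he]

end H82.IC
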