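import Pool.Agent.H82.IC.DT1
import Pool.Agent.H82.IC.FCT

/-!
# DT3: exploration of the cluster of `o` in the double trace

For `C ∈ cls o` let `K = tch C`, `t' = off K t`, `th = z t' (src u v) / z t' 0`, `Ps C = sg (src o y) 0 (1[cl ω o = C])`.
Let `I = trc (wIn K (wDT t)) (pr (C.indicator (src o y)) 0) (1[cl ω o = C])`.

Case `y ∈ C`, `u, v ∉ C`: `C.indicator (src o y) = src o y`, `Cᶜ.indicator (src o y) = 0`, `C.indicator (src u v) = 0`, `Cᶜ.indicator (src u v) = src u v`.  By `trc_fact`,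
`wOut_DT`, `sg_one`-type identity `trc (wDT t') (pr S T) 1 = z t' S * z t' T` (`trc_pm2`):
  `trc (wDT t) (pr (src o y) 0) 1[cl = C] = I * (z t' 0)^2`,
  `trc (wDT t) (pr (src o y) (src u v)) 1[cl = C] = I * z t' 0 * z t' (src u v)`,
  `trc (wDT t) (pr (src o y + src u v) (src u v)) 1[cl = C] = I * (z t' (src u v))^2`.
This gives (a) and (b) (for (b): on `u ↔ v`, switch (`sg_switch`): `sg (src o y) 0 (1[cl = C] 1[u ↔ v]) = sg (src o y + src u v) (src u v) (1[cl = C] 1[u ↔ v])`, and then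
`u ↔ v` is automatic (`sg_supp2`)).
Case `y ∉ C`: with sources `src o y` on the first flow `o ↔ y` (`sg_supp1`), so both sides are `0`; for (b) also the left side is `0`.
-/

set_option autoImplicit false

open Finset

namespace H82.IC

variable {V E : Type*} [Fintype E] [DecidableEq E]

theorem DT3_in {C : Set V} {a b : V} (ha : a ∈ C) (hb : b ∈ C) :
    C.indicator (src a b) = src a b := by
  funext x
  by_cases hx : x ∈ C
  · rw [Set.indicator_of_mem hx]
  · rw [Set.indicator_of_notMem hx]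
    have h1 : x ≠ a := fun h => hx (h ▸ ha)
    have h2 : x ≠ b := fun h => hx (h ▸ hb)
    simp [src, h1, h2]

theorem DT3_out {C : Set V} {a b : V} (ha : a ∉ C) (hb : b ∉ C) :
    C.indicator (src a b) = 0 := by
  funext x
  by_cases hx : x ∈ C
  · rw [Set.indicator_of_mem hx]
    have h1 : x ≠ a := fun h => ha (h ▸ hx)
    have h2 : x ≠ b := fun h => hb (h ▸ hx)
    simp [src, h1, h2]
  · rw [Set.indicator_of_notMem hx]
    rfl

theorem DT3_ind0 (C : Set V) : C.indicator (0 : V → ZMod 2) = 0 := Set.indicator_zero' _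

theorem DT3_ind_add (C : Set V) (S T : V → ZMod 2) :
    C.indicator (S + T) = C.indicator S + C.indicator T := Set.indicator_add' _ _ _

omit [Fintype E] [DecidableEq E] in
theorem DT3_w (t : E → ℝ) (e : E) (a : ZMod 2 × ZMod 2) :
    wDT t e a true + wDT t e a false = hp t e a.1 * hp t e a.2 := by
  obtain ⟨a1, a2⟩ := a
  have h2 : ∀ b : ZMod 2, b = 0 ∨ b = 1 := by decide
  rcases h2 a1 with rfl | rfl <;> rcases h2 a2 with rfl | rfl <;> (simp [wDT, hp]; try ring)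

theorem DT3_one (Γ : Gr V E) (t : E → ℝ) (S T : V → ZMod 2) :
    Γ.trc (wDT t) (pr S T) (fun _ => 1) = Γ.z t S * Γ.z t T :=
  trc_pm2 Γ (wDT t) (hp t) (hp t) (DT3_w t) S T

theorem DT3_fact (Γ : Gr V E) (t : E → ℝ) (S T : V → ZMod 2) (o : V) (C : Set V) :
    Γ.trc (wDT t) (pr S T) (fun ω => ind (Γ.cl (ω : Set E) o = C)) =
      Γ.trc (wIn (Γ.tch C) (wDT t)) (pr (C.indicator S) (C.indicator T))
        (fun ω => ind (Γ.cl (ω : Set E) o = C)) *
      (Γ.z (off (Γ.tch C) t) (Cᶜ.indicator S) * Γ.z (off (Γ.tch C) t) (Cᶜ.indicator T)) := by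
  have h := trc_fact Γ (wDT t) (fun e a ha => wDT_closed t e a ha) (pr S T) o C (fun _ => 1)
    (fun _ _ _ => rfl)
  simp only [mul_one] at h
  rw [h, wOut_DT, pr_indicator, pr_indicator, DT3_one]

theorem DT3_zero (Γ : Gr V E) (t : E → ℝ) (S T : V → ZMod 2) :
    Γ.sg t S T (fun _ => 0) = 0 := by
  have h := sg_smul Γ t S T 0 (fun _ => 0)
  simpa using h

theorem DT3_notMem (Γ : Gr V E) (t : E → ℝ) (o y : V) (T : V → ZMod 2) (C : Set V)
    (hy : y ∉ C) (f : Finset E → ℝ) :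
    Γ.sg t (src o y) T (fun ω => ind (Γ.cl (ω : Set E) o = C) * f ω) = 0 := by
  rw [← DT3_zero Γ t (src o y) T]
  refine sg_supp1 Γ t o y T _ _ fun ω hω => ?_
  rw [ind_false, zero_mul]
  intro h
  exact hy (h ▸ hω)

theorem DT3_notMem' (Γ : Gr V E) (t : E → ℝ) (o y : V) (T : V → ZMod 2) (C : Set V)
    (hy : y ∉ C) : Γ.sg t (src o y) T (fun ω => ind (Γ.cl (ω : Set E) o = C)) = 0 := by
  have h := DT3_notMem Γ t o y T C hy (fun _ => 1)
  simp only [mul_one] at h
  exact h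

theorem expl_a (Γ : Gr V E) {t : E → ℝ} (ht : T01 t) (o y u v : V) (C : Set V) (hC : o ∈ C)
    (hu : u ∉ C) (hv : v ∉ C) :
    Γ.sg t (src o y) (src u v) (fun ω => ind (Γ.cl (ω : Set E) o = C)) =
      Γ.sg t (src o y) 0 (fun ω => ind (Γ.cl (ω : Set E) o = C)) *
        Γ.tp (off (Γ.tch C) t) u v := by
  by_cases hy : y ∈ C
  · have hz : Γ.z (off (Γ.tch C) t) 0 ≠ 0 :=
      (zero_lt_one.trans_le (one_le_z Γ (T01_off ht _))).ne'
    have o' : o ∉ Cᶜ := fun h => h hC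
    have y' : y ∉ Cᶜ := fun h => h hy
    unfold Gr.sg Gr.tp
    rw [DT3_fact, DT3_fact, DT3_in hC hy, DT3_out hu hv, DT3_out o' y',
      DT3_in (show u ∈ Cᶜ from hu) (show v ∈ Cᶜ from hv), DT3_ind0, DT3_ind0]
    field_simp
  · rw [DT3_notMem' Γ t o y _ C hy, DT3_notMem' Γ t o y _ C hy, zero_mul]

theorem expl_b (Γ : Gr V E) {t : E → ℝ} (ht : T01 t) (o y u v : V) (C : Set V) (hC : o ∈ C)
    (hu : u ∉ C) (hv : v ∉ C) :
    Γ.sg t (src o y) 0 (fun ω => ind (Γ.cl (ω : Set E) o = C) * ind (Γ.Conn (ω : Set E) u v)) =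
      Γ.sg t (src o y) 0 (fun ω => ind (Γ.cl (ω : Set E) o = C)) *
        (Γ.tp (off (Γ.tch C) t) u v) ^ 2 := by
  by_cases hy : y ∈ C
  · have hz : Γ.z (off (Γ.tch C) t) 0 ≠ 0 :=
      (zero_lt_one.trans_le (one_le_z Γ (T01_off ht _))).ne'
    have o' : o ∉ Cᶜ := fun h => h hC
    have y' : y ∉ Cᶜ := fun h => h hy
    rw [sg_switch Γ t (src o y) 0 u v _ (fun ω hω => by
      by_contra hn
      rw [ind_false hn, mul_zero] at hω
      exact hω rfl), zero_add]
    rw [sg_supp2 Γ t (src o y + src u v) u v _ (fun ω => ind (Γ.cl (ω : Set E) o = C))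
      (fun ω hω => by rw [ind_true hω, mul_one])]
    unfold Gr.sg Gr.tp
    rw [DT3_fact, DT3_fact, DT3_ind_add, DT3_ind_add, DT3_in hC hy, DT3_out hu hv,
      DT3_out o' y',
      DT3_in (show u ∈ Cᶜ from hu) (show v ∈ Cᶜ from hv), DT3_ind0, DT3_ind0,
      add_zero, zero_add]
    field_simp
  · rw [DT3_notMem Γ t o y _ C hy, DT3_notMem' Γ t o y _ C hy, zero_mul]

end H82.IC
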