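import Pool.Agent.H82.IC.DT2
import Pool.Agent.H82.IC.DT3

/-!
# DT4: the tree graph inequality

`T = sg (src o y) 0 (1[o ↔ u] 1[o ↔ v]) ≤ tp u v * (tp o u * tp v y + tp o v * tp u y)`.

Let `Ps C = sg (src o y) 0 1[cl = C]`, `th C = tp (off (tch C) t) u v`, sums over `C ∈ cls o`, `q C = 1[u ∉ C ∧ v ∉ C]`, `ze = tp u v`.
(1) `∑ Ps C = sg (src o y) 0 1 = tp o y` (`trc_sum_cl`, `sg_one`).
(2) `b1 := sg (src o y) (src u v) 1[not o ↔ u] = ∑_C q C * Ps C * th C`: decompose according to `cl ω o = C` (`trc_sum_cl`); `o ↔ u` iff `u ∈ C`; by `sg_supp2` `u ↔ v`, so the terms with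
    exactly one of `u, v` in `C` vanish (if `v ∈ C`, `u ∉ C` the connection `u ↔ v` is impossible); the others are `expl_a`.
(3) `tp u v * z4 = T + ∑_C q C * Ps C * (th C)^2`, `z4 = z (src o y + src u v)/z 0`: `sg (src o y + src u v) (src u v) 1 = z4 * tp u v` (`sg_one`); `u ↔ v` automatic (`sg_supp2`);
    switch with `(u,v)` (`sg_switch`; `src u v + src u v = 0`): `= sg (src o y) 0 1[u ↔ v] = sg (src o y) 0 (1[u ↔ v] 1[o ↔ u]) + sg (src o y) 0 (1[u ↔ v] 1[not o ↔ u])`,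
    the first is `T` (`1[u↔v]1[o↔u] = 1[o↔u]1[o↔v]`), the second is decomposed by clusters and `expl_b` (terms with `u ∈ C` are excluded, terms with `v ∈ C`, `u ∉ C` vanish).
(4) `four_point`: `S := tp o u * tp v y + tp o v * tp u y = z4 + tp o y * ze - 2 b1`.
Hence `ze * S = T + ∑_C Ps C (q C th C^2 + ze^2 - 2 ze q C th C) = T + ∑_C Ps C (ze - q C th C)^2 ≥ T`  (`q^2 = q`, `Ps C ≥ 0`).
-/

set_option autoImplicit false

open Finset

namespace H82.IC

variable {V E : Type*} [Fintype E] [DecidableEq E]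

theorem DT4_true {p : Prop} (h : p) : ind p = 1 := by
  unfold ind
  rw [if_pos h]

theorem DT4_false {p : Prop} (h : ¬ p) : ind p = 0 := by
  unfold ind
  rw [if_neg h]

theorem DT4_zero (Γ : Gr V E) (t : E → ℝ) (S T : V → ZMod 2) (f : Finset E → ℝ)
    (hf : ∀ ω, f ω = 0) : Γ.sg t S T f = 0 := by
  have h1 := sg_smul Γ t S T 0 f
  have h2 : (fun ω : Finset E => 0 * f ω) = f := by
    funext ω
    rw [hf, mul_zero]
  rw [h2, zero_mul] at h1
  exact h1

theorem DT4_sum (Γ : Gr V E) (t : E → ℝ) (S T : V → ZMod 2) (o : V) (f : Finset E → ℝ) :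
    Γ.sg t S T f = ∑ C ∈ Γ.cls o, Γ.sg t S T (fun ω => ind (Γ.cl (ω : Set E) o = C) * f ω) := by
  unfold Gr.sg
  rw [trc_sum_cl Γ (wDT t) (pr S T) o f, Finset.sum_div]

/-- the total mass of the clusters -/
theorem DT4_mass (Γ : Gr V E) {t : E → ℝ} (ht : T01 t) (o y : V) :
    ∑ C ∈ Γ.cls o, Γ.sg t (src o y) 0 (fun ω => ind (Γ.cl (ω : Set E) o = C)) = Γ.tp t o y := by
  have h0 : Γ.z t 0 ≠ 0 := (zero_lt_one.trans_le (one_le_z Γ ht)).ne'
  have h1 := DT4_sum Γ t (src o y) 0 o (fun _ => 1)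
  simp only [mul_one] at h1
  rw [← h1, sg_one, div_self h0, mul_one]
  rfl

theorem DT4_b1 (Γ : Gr V E) {t : E → ℝ} (ht : T01 t) (o y u v : V) :
    Γ.sg t (src o y) (src u v) (fun ω => ind (¬ Γ.Conn (ω : Set E) o u)) =
      ∑ C ∈ Γ.cls o, ind (u ∉ C ∧ v ∉ C) *
        Γ.sg t (src o y) 0 (fun ω => ind (Γ.cl (ω : Set E) o = C)) *
        Γ.tp (off (Γ.tch C) t) u v := by
  rw [DT4_sum Γ t (src o y) (src u v) o]
  refine Finset.sum_congr rfl fun C hC => ?_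
  by_cases hu : u ∈ C
  · rw [DT4_false (fun h : u ∉ C ∧ v ∉ C => h.1 hu), zero_mul, zero_mul]
    refine DT4_zero Γ t _ _ _ fun ω => ?_
    by_cases h : Γ.cl (ω : Set E) o = C
    · rw [← h] at hu
      rw [DT4_false (fun h' : ¬ Γ.Conn (ω : Set E) o u => h' hu), mul_zero]
    · rw [DT4_false h, zero_mul]
  · by_cases hv : v ∈ C
    · rw [DT4_false (fun h : u ∉ C ∧ v ∉ C => h.2 hv), zero_mul, zero_mul]
      rw [sg_supp2 Γ t (src o y) u v _ (fun _ => 0) fun ω huv => ?_]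
      · exact DT4_zero Γ t _ _ _ fun _ => rfl
      by_cases h : Γ.cl (ω : Set E) o = C
      · exfalso
        rw [← h] at hu hv
        exact hu (conn_trans Γ hv (conn_symm Γ huv))
      · rw [DT4_false h, zero_mul]
    · rw [DT4_true (⟨hu, hv⟩ : u ∉ C ∧ v ∉ C), one_mul,
        ← expl_a Γ ht o y u v C (mem_of_cls Γ o hC) hu hv]
      congr 1
      funext ω
      by_cases h : Γ.cl (ω : Set E) o = C
      · rw [← h] at hu
        rw [DT4_true (show ¬ Γ.Conn (ω : Set E) o u from hu), mul_one]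
      · rw [DT4_false h, zero_mul]

theorem DT4_b2 (Γ : Gr V E) {t : E → ℝ} (ht : T01 t) (o y u v : V) :
    Γ.sg t (src o y) 0 (fun ω => ind (Γ.Conn (ω : Set E) u v) * ind (¬ Γ.Conn (ω : Set E) o u)) =
      ∑ C ∈ Γ.cls o, ind (u ∉ C ∧ v ∉ C) *
        Γ.sg t (src o y) 0 (fun ω => ind (Γ.cl (ω : Set E) o = C)) *
        (Γ.tp (off (Γ.tch C) t) u v) ^ 2 := by
  rw [DT4_sum Γ t (src o y) 0 o]
  refine Finset.sum_congr rfl fun C hC => ?_
  by_cases hu : u ∈ C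
  · rw [DT4_false (fun h : u ∉ C ∧ v ∉ C => h.1 hu), zero_mul, zero_mul]
    refine DT4_zero Γ t _ _ _ fun ω => ?_
    by_cases h : Γ.cl (ω : Set E) o = C
    · rw [← h] at hu
      rw [DT4_false (fun h' : ¬ Γ.Conn (ω : Set E) o u => h' hu), mul_zero, mul_zero]
    · rw [DT4_false h, zero_mul]
  · by_cases hv : v ∈ C
    · rw [DT4_false (fun h : u ∉ C ∧ v ∉ C => h.2 hv), zero_mul, zero_mul]
      refine DT4_zero Γ t _ _ _ fun ω => ?_
      by_cases h : Γ.cl (ω : Set E) o = C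
      · rw [← h] at hu hv
        by_cases huv : Γ.Conn (ω : Set E) u v
        · exact absurd (conn_trans Γ hv (conn_symm Γ huv)) hu
        · rw [DT4_false huv, zero_mul, mul_zero]
      · rw [DT4_false h, zero_mul]
    · rw [DT4_true (⟨hu, hv⟩ : u ∉ C ∧ v ∉ C), one_mul,
        ← expl_b Γ ht o y u v C (mem_of_cls Γ o hC) hu hv]
      congr 1
      funext ω
      by_cases h : Γ.cl (ω : Set E) o = C
      · rw [← h] at hu
        rw [DT4_true (show ¬ Γ.Conn (ω : Set E) o u from hu), mul_one]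
      · rw [DT4_false h, zero_mul, zero_mul]

/-- the four point function in terms of the clusters -/
theorem DT4_z4 (Γ : Gr V E) {t : E → ℝ} (ht : T01 t) (o y u v : V) :
    Γ.z t (src o y + src u v) / Γ.z t 0 * Γ.tp t u v =
      Γ.sg t (src o y) 0 (fun ω => ind (Γ.Conn (ω : Set E) o u) * ind (Γ.Conn (ω : Set E) o v)) +
      Γ.sg t (src o y) 0
        (fun ω => ind (Γ.Conn (ω : Set E) u v) * ind (¬ Γ.Conn (ω : Set E) o u)) := by
  have h1 := sg_one Γ t (src o y + src u v) (src u v)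
  rw [Gr.tp, ← h1, sg_supp2 Γ t (src o y + src u v) u v (fun _ => 1)
    (fun ω => ind (Γ.Conn (ω : Set E) u v)) fun ω h => (DT4_true h).symm]
  rw [sg_switch Γ t _ _ u v _ fun ω h => by
    by_contra h'
    exact h (DT4_false h')]
  rw [add_assoc, src_add_self, add_zero, ← sg_add]
  congr 1
  funext ω
  by_cases h1 : Γ.Conn (ω : Set E) o u
  · rw [DT4_true h1, DT4_false (fun h : ¬ Γ.Conn (ω : Set E) o u => h h1), mul_zero, add_zero,
      one_mul]
    by_cases h2 : Γ.Conn (ω : Set E) u v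
    · rw [DT4_true h2, DT4_true (conn_trans Γ h1 h2)]
    · rw [DT4_false h2, DT4_false fun h3 => h2 (conn_trans Γ (conn_symm Γ h1) h3)]
  · rw [DT4_false h1, DT4_true h1, mul_one, zero_mul, zero_add]

theorem tree_graph (Γ : Gr V E) {t : E → ℝ} (ht : T01 t) (o y u v : V) :
    Γ.sg t (src o y) 0 (fun ω => ind (Γ.Conn (ω : Set E) o u) * ind (Γ.Conn (ω : Set E) o v)) ≤
      Γ.tp t u v * (Γ.tp t o u * Γ.tp t v y + Γ.tp t o v * Γ.tp t u y) := by
  have h1 := DT4_mass Γ ht o y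
  have h2 := DT4_b1 Γ ht o y u v
  have h3 := DT4_b2 Γ ht o y u v
  have h4 := DT4_z4 Γ ht o y u v
  have h5 := four_point Γ ht o y u v
  rw [h5, h2]
  rw [h3] at h4
  set ze := Γ.tp t u v
  have key : 0 ≤ ∑ C ∈ Γ.cls o, Γ.sg t (src o y) 0 (fun ω => ind (Γ.cl (ω : Set E) o = C)) *
      (ze - ind (u ∉ C ∧ v ∉ C) * Γ.tp (off (Γ.tch C) t) u v) ^ 2 := by
    refine Finset.sum_nonneg fun C _ => mul_nonneg (sg_nonneg Γ ht _ _ fun ω => ?_) (sq_nonneg _)
    unfold ind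
    split_ifs
    · exact zero_le_one
    · exact le_refl 0
  have e1 : ∑ C ∈ Γ.cls o, Γ.sg t (src o y) 0 (fun ω => ind (Γ.cl (ω : Set E) o = C)) *
      (ze - ind (u ∉ C ∧ v ∉ C) * Γ.tp (off (Γ.tch C) t) u v) ^ 2 =
      ze ^ 2 * (∑ C ∈ Γ.cls o, Γ.sg t (src o y) 0 (fun ω => ind (Γ.cl (ω : Set E) o = C))) -
      2 * ze * (∑ C ∈ Γ.cls o, ind (u ∉ C ∧ v ∉ C) *
        Γ.sg t (src o y) 0 (fun ω => ind (Γ.cl (ω : Set E) o = C)) *
        Γ.tp (off (Γ.tch C) t) u v) +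
      ∑ C ∈ Γ.cls o, ind (u ∉ C ∧ v ∉ C) *
        Γ.sg t (src o y) 0 (fun ω => ind (Γ.cl (ω : Set E) o = C)) *
        (Γ.tp (off (Γ.tch C) t) u v) ^ 2 := by
    rw [Finset.mul_sum, Finset.mul_sum, ← Finset.sum_sub_distrib, ← Finset.sum_add_distrib]
    refine Finset.sum_congr rfl fun C _ => ?_
    by_cases h : u ∉ C ∧ v ∉ C
    · rw [DT4_true h]
      ring
    · rw [DT4_false h]
      ring
  rw [e1, h1] at key
  linarith

end H82.IC
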