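import Mathlib

/-!
# MP_c4c051_pr, project IC: definitions of the abstract (finite graph) part

A graph `Γ : Gr V E` has edges labelled by `E` (finite in all sums), `V` is any type.  An edge configuration is
`ω : Finset E` (the open edges).  Flows are functions `η : E → A` (`A = ZMod 2`, or `ZMod 2 × ZMod 2`).
All definitions use classical decidability inside, except that sums over functions on `E` carry `[DecidableEq E]`.
-/

set_option autoImplicit false

open Finset

namespace H82.IC

/-- A graph: every edge label `e` has two ends `s e`, `r e`. -/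
structure Gr (V E : Type*) where
  s : E → V
  r : E → V

section Basic
variable {V E : Type*}

/-- `x` and `y` are the two ends of an edge of `ω`. -/
def Gr.Adj (Γ : Gr V E) (ω : Set E) (x y : V) : Prop :=
  ∃ e ∈ ω, (Γ.s e = x ∧ Γ.r e = y) ∨ (Γ.s e = y ∧ Γ.r e = x)

/-- `x` and `y` are connected by edges of `ω`. -/
def Gr.Conn (Γ : Gr V E) (ω : Set E) (x y : V) : Prop :=
  Relation.ReflTransGen (Γ.Adj ω) x y

/-- the cluster of `o`. -/
def Gr.cl (Γ : Gr V E) (ω : Set E) (o : V) : Set V := {v | Γ.Conn ω o v}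

/-- the edges with at least one end in `C`. -/
def Gr.tch (Γ : Gr V E) (C : Set V) : Set E := {e | Γ.s e ∈ C ∨ Γ.r e ∈ C}

/-- the edges with both ends in `C`. -/
def Gr.ins (Γ : Gr V E) (C : Set V) : Set E := {e | Γ.s e ∈ C ∧ Γ.r e ∈ C}

/-- real indicator of a proposition. -/
noncomputable def ind (p : Prop) : ℝ := open Classical in if p then 1 else 0

/-- the source set `{u,v}` mod 2 (it is `0` if `u = v`). -/
noncomputable def src (u v : V) : V → ZMod 2 :=
  open Classical in fun x => (if x = u then 1 else 0) + (if x = v then 1 else 0)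

/-- pair of source functions. -/
def pr (S T : V → ZMod 2) : V → ZMod 2 × ZMod 2 := fun x => (S x, T x)

/-- edge parameters in `[0,1]`. -/
def T01 (t : E → ℝ) : Prop := ∀ e, 0 ≤ t e ∧ t e ≤ 1

/-- `t` with the edges of `K` removed (parameter `0`). -/
noncomputable def off (K : Set E) (t : E → ℝ) : E → ℝ :=
  open Classical in fun e => if e ∈ K then 0 else t e

/-- `t` with the edges of `η` forced open (parameter `1`) and the edges of `E1 \ η` removed (parameter `0`). -/
noncomputable def setT (E1 η : Finset E) (t : E → ℝ) : E → ℝ :=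
  open Classical in fun e => if e ∈ η then 1 else if e ∈ E1 then 0 else t e

end Basic

section Flows
variable {V E : Type*} [Fintype E] {A : Type*} [AddCommGroup A]

/-- boundary of a flow. -/
noncomputable def Gr.bd (Γ : Gr V E) (η : E → A) : V → A :=
  open Classical in
  fun x => ∑ e, ((if Γ.s e = x then η e else 0) + (if Γ.r e = x then η e else 0))

end Flows

section Sums
variable {V E : Type*} [Fintype E] [DecidableEq E]

/-- general trace sum: flows `η : E → A` with boundary `S`, configurations `ω`, local weights `w e a b`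
(`a` = value of the flow on `e`, `b = true` iff `e` is open), observable `f ω`. -/
noncomputable def Gr.trc {A : Type*} [AddCommGroup A] [Fintype A] (Γ : Gr V E)
    (w : E → A → Bool → ℝ) (S : V → A) (f : Finset E → ℝ) : ℝ :=
  ∑ η : E → A, ∑ ω : Finset E, ind (Γ.bd η = S) * (f ω * ∏ e, w e (η e) (decide (e ∈ ω)))

/-- flows mod 2 with boundary `S` and product weight. -/
noncomputable def Gr.zz (Γ : Gr V E) (p : E → ZMod 2 → ℝ) (S : V → ZMod 2) : ℝ :=
  ∑ η : E → ZMod 2, ind (Γ.bd η = S) * ∏ e, p e (η e)

/-- high temperature weight. -/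
noncomputable def hp (t : E → ℝ) (e : E) (a : ZMod 2) : ℝ := if a = 0 then 1 else t e

/-- `z_t(S) = ∑_{bd η = S} ∏_{η e = 1} t e`. -/
noncomputable def Gr.z (Γ : Gr V E) (t : E → ℝ) (S : V → ZMod 2) : ℝ := Γ.zz (hp t) S

/-- single trace (FK) local weights. -/
noncomputable def wFK (t : E → ℝ) (e : E) (a : ZMod 2) (b : Bool) : ℝ :=
  if b = true then t e else (if a = 0 then 1 - t e else 0)

/-- double trace local weights. -/
noncomputable def wDT (t : E → ℝ) (e : E) (a : ZMod 2 × ZMod 2) (b : Bool) : ℝ :=
  if b = true then (if a.1 = a.2 then t e ^ 2 else t e) else (if a = 0 then 1 - t e ^ 2 else 0)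

/-- double trace local weights, first flow not allowed on `F` (domination version). -/
noncomputable def wFV (F : Finset E) (t : E → ℝ) (e : E) (a : ZMod 2 × ZMod 2) (b : Bool) : ℝ :=
  if e ∈ F then
    (if a.1 = 0 then
      (if b = true then
        (if a.2 = 0 then Real.sqrt (1 - t e ^ 2) - (1 - t e ^ 2) else t e * Real.sqrt (1 - t e ^ 2))
       else (if a.2 = 0 then 1 - t e ^ 2 else 0))
     else 0)
  else wDT t e a b

/-- mixed double trace local weights: first flow only on `K`. -/
noncomputable def wMX (K : Finset E) (t : E → ℝ) (e : E) (a : ZMod 2 × ZMod 2) (b : Bool) : ℝ :=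
  if e ∈ K then wDT t e a b
  else (if a.1 = 0 then (if b = true then (if a.2 = 0 then 0 else t e) else (if a.2 = 0 then 1 else 0)) else 0)

/-- `w` on the edges of `K`, `δ_(0,closed)` elsewhere. -/
noncomputable def wIn {A : Type*} [AddCommGroup A] (K : Set E) (w : E → A → Bool → ℝ)
    (e : E) (a : A) (b : Bool) : ℝ :=
  open Classical in if e ∈ K then w e a b else (if a = 0 ∧ b = false then 1 else 0)

/-- `w` off the edges of `K`, `δ_(0,closed)` on `K`. -/
noncomputable def wOut {A : Type*} [AddCommGroup A] (K : Set E) (w : E → A → Bool → ℝ)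
    (e : E) (a : A) (b : Bool) : ℝ :=
  open Classical in if e ∈ K then (if a = 0 ∧ b = false then 1 else 0) else w e a b

/-- number of flows mod 2 inside `ω` with boundary `S`. -/
noncomputable def Gr.kapS (Γ : Gr V E) (S : V → ZMod 2) (ω : Finset E) : ℝ :=
  ∑ η : E → ZMod 2, ind (Γ.bd η = S ∧ ∀ e, η e ≠ 0 → e ∈ ω)

/-- number of even subgraphs of `ω`. -/
noncomputable def Gr.kap (Γ : Gr V E) (ω : Finset E) : ℝ := Γ.kapS 0 ω

/-- FK-Ising sum (unnormalised) and expectation. -/
noncomputable def Gr.fkS (Γ : Gr V E) (t : E → ℝ) (f : Finset E → ℝ) : ℝ := Γ.trc (wFK t) 0 f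

noncomputable def Gr.fkE (Γ : Gr V E) (t : E → ℝ) (f : Finset E → ℝ) : ℝ := Γ.fkS t f / Γ.z t 0

/-- two point function `⟨u v⟩_t`. -/
noncomputable def Gr.tp (Γ : Gr V E) (t : E → ℝ) (u v : V) : ℝ := Γ.z t (src u v) / Γ.z t 0

/-- normalised double trace sum. -/
noncomputable def Gr.sg (Γ : Gr V E) (t : E → ℝ) (S T : V → ZMod 2) (f : Finset E → ℝ) : ℝ :=
  Γ.trc (wDT t) (pr S T) f / (Γ.z t 0) ^ 2

/-- normalised double trace sum, `F`-version. -/
noncomputable def Gr.sgF (Γ : Gr V E) (F : Finset E) (t : E → ℝ) (S T : V → ZMod 2)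
    (f : Finset E → ℝ) : ℝ :=
  Γ.trc (wFV F t) (pr S T) f / (Γ.z t 0) ^ 2

/-- ends of the edges of `F`. -/
noncomputable def Gr.vF (Γ : Gr V E) (F : Finset E) : Finset V :=
  open Classical in F.image Γ.s ∪ F.image Γ.r

end Sums

end H82.IC
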