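import Pool.Agent.H82.IC.MAINF

/-!
# HK: FKG and Harnack type bounds for the one arm events, rarity of two classes

* `phiB_fkg`: `fkE_fkg` through `phiB_self` (indicators of increasing events composed with `ext false N N`, which is monotone, are monotone).
* `lim_fkg`: limit of `phiB_fkg` (the intersection of local events is local).
* `harnack_N`: `K1 = max_{z ∈ bx m} 1 / phiB β m false (cnB m 0 z)`, positive since `cnB m 0 z ⊇ up (bE m)` (`box_conn`) and `phiB β m false (up (bE m)) > 0` for `β > 0` (positive weight `fkw_pos`).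
  For `N ≥ m`: `phiB N false (arm n z) * phiB N false (cnB m 0 z) ≤ phiB N false (arm n z ∩ cnB m 0 z) ≤ phiB N false (arm n 0)` and
  `phiB N false (cnB m 0 z) ≥ phiB m false (cnB m 0 z)` (`phiB_free_mono`).
* `harnack_lim`: the limit `N → ∞` for `m ≤ n` (`arm n z` is local: `lcl_arm`).
* `rare`: for `n ≥ m`, by `rrd_le`, `free_le`, `harnack_lim` (for `z`) and `arm_le` + `arm_anti` (for `z'`: `μ (arm n z') ≤ μ (arm (n - m) 0)`):
  `rrd d β m n N ≤ (4/(1-t))^{|bE m|} |bx m|^2 K1 μ(arm n 0) μ(arm (n-m) 0)` and the last factor tends to `0` (`tendsto_arm`, `hp`).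
-/

set_option autoImplicit false

open Finset MeasureTheory Filter Topology

namespace H82.IC

variable {d : ℕ}

private theorem HK_ext_mono (N : ℕ) {ω ω' : Finset ↥(bE d N)} (h : ω ⊆ ω') (e : Ed d)
    (he : ext false N N ω e = true) : ext false N N ω' e = true := by
  unfold ext glue at he ⊢
  by_cases h1 : e ∈ bE d N
  · rw [if_pos h1] at he ⊢
    have h2 : e ∈ vl ω := of_decide_eq_true he
    exact decide_eq_true (Finset.map_subset_map.2 h h2)
  · rw [if_neg h1] at he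
    exact absurd he Bool.false_ne_true

private theorem HK_mono (N : ℕ) {X : Set (Cf d)} (hX : Inc X) :
    Monotone (fun ω : Finset ↥(bE d N) => ind (ext false N N ω ∈ X)) := by
  intro ω ω' h
  exact ind_mono fun hω => hX _ _ (HK_ext_mono N h) hω

private theorem HK_pos {β : ℝ} (hβ : 0 < β) (m : ℕ) :
    0 < phiB β m false (up (bE d m) : Set (Cf d)) := by
  unfold phiB phiG
  have h1 : ∀ ω, 0 < fkw β (bx d m) (bE d m) (fun _ => false) ω := fkw_pos hβ _ _ _
  have hmem : bE d m ∈ (bE d m).powerset := Finset.mem_powerset_self _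
  refine div_pos ?_ (Finset.sum_pos (fun ω _ => h1 ω) ⟨_, hmem⟩)
  refine Finset.sum_pos' (fun ω _ => mul_nonneg (h1 ω).le (ind_nonneg _)) ⟨_, hmem, ?_⟩
  rw [ind_true]
  · rw [mul_one]
    exact h1 _
  · intro e he
    unfold glue
    rw [if_pos he]
    exact decide_eq_true he

theorem phiB_fkg {β : ℝ} (hβ : 0 ≤ β) (N : ℕ) {X Y : Set (Cf d)} (hX : Inc X) (hY : Inc Y) :
    phiB β N false X * phiB β N false Y ≤ phiB β N false (X ∩ Y) := by
  rw [phiB_self hβ N X, phiB_self hβ N Y, phiB_self hβ N (X ∩ Y)]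
  have h := fkE_fkg (GN d N) (T01_tanh β hβ) (f := fun ω => ind (ext false N N ω ∈ X))
    (g := fun ω => ind (ext false N N ω ∈ Y)) (fun _ => ind_nonneg _) (fun _ => ind_nonneg _)
    (HK_mono N hX) (HK_mono N hY)
  have e : (fun ω : Finset ↥(bE d N) => ind (ext false N N ω ∈ X ∩ Y)) =
      fun ω => ind (ext false N N ω ∈ X) * ind (ext false N N ω ∈ Y) := by
    funext ω
    rw [← ind_and]
    rfl
  rw [e]
  exact h

private theorem HK_harnack {β : ℝ} (hβ : 0 < β) (m N : ℕ) (hN : m ≤ N) (n : ℕ) (z : Vx d)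
    (hz : nm z ≤ m) : phiB β N false (arm n z) ≤
      (1 / phiB β m false (up (bE d m) : Set (Cf d))) * phiB β N false (arm n (0 : Vx d)) := by
  have hp := HK_pos (d := d) hβ m
  have h1 : phiB β m false (up (bE d m) : Set (Cf d)) ≤ phiB β N false (cnB m (0 : Vx d) z) := by
    refine le_trans (phiB_mono_set hβ.le m false ?_) (phiB_free_mono hβ.le hN (inc_cnB m 0 z))
    intro ω hω
    refine conn_mono (Zl d) ?_ (box_conn (u := (0 : Vx d)) (v := z) (n := m)
      (by rw [nm_zero]; exact Nat.zero_le _) hz)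
    intro e he
    exact ⟨hω e he, he⟩
  have h2 := phiB_fkg hβ.le N (inc_arm n z) (inc_cnB m (0 : Vx d) z)
  have h3 : phiB β N false (arm n z ∩ cnB m (0 : Vx d) z) ≤ phiB β N false (arm n (0 : Vx d)) := by
    refine phiB_mono_set hβ.le N false ?_
    rintro ω ⟨⟨y, hy, hyc⟩, hc⟩
    exact ⟨y, hy, conn_trans (Zl d) (conn_mono (Zl d) Set.inter_subset_left hc) hyc⟩
  have h4 : phiB β N false (arm n z) * phiB β m false (up (bE d m) : Set (Cf d)) ≤
      phiB β N false (arm n z) * phiB β N false (cnB m (0 : Vx d) z) :=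
    mul_le_mul_of_nonneg_left h1 (phiB_nonneg hβ.le N false _)
  rw [one_div, inv_mul_eq_div, le_div_iff₀ hp]
  linarith

theorem lim_fkg {β : ℝ} (hβ : 0 ≤ β) {μ : Measure (Cf d)} (hμ : IsLim β false μ)
    {X Y : Set (Cf d)} (hX : Inc X) (hY : Inc Y) (hX' : Lcl X) (hY' : Lcl Y) :
    μ.real X * μ.real Y ≤ μ.real (X ∩ Y) := by
  exact le_of_tendsto_of_tendsto' ((hμ.2 X hX').mul (hμ.2 Y hY')) (hμ.2 _ (lcl_inter hX' hY'))
    fun n => phiB_fkg hβ n hX hY

theorem harnack_N (hd : 1 ≤ d) {β : ℝ} (hβ : 0 < β) (m : ℕ) :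
    ∃ K1 : ℝ, 0 < K1 ∧ ∀ N, m ≤ N → ∀ n : ℕ, ∀ z : Vx d, nm z ≤ m →
      phiB β N false (arm n z) ≤ K1 * phiB β N false (arm n (0 : Vx d)) := by
  refine ⟨1 / phiB β m false (up (bE d m) : Set (Cf d)), ?_, ?_⟩
  · have := HK_pos (d := d) hβ m
    positivity
  · intro N hN n z hz
    exact HK_harnack hβ m N hN n z hz

theorem harnack_lim (hd : 1 ≤ d) {β : ℝ} (hβ : 0 < β) {μ : Measure (Cf d)} (hμ : IsLim β false μ)
    (m : ℕ) :
    ∃ K1 : ℝ, 0 < K1 ∧ ∀ n, m ≤ n → ∀ z : Vx d, nm z ≤ m →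
      μ.real (arm n z) ≤ K1 * μ.real (arm n (0 : Vx d)) := by
  obtain ⟨K1, hK1, hK⟩ := harnack_N hd hβ m
  refine ⟨K1, hK1, fun n hn z hz => ?_⟩
  have h1 := hμ.2 _ (lcl_arm hd (hz.trans hn))
  have h2 := hμ.2 _ (lcl_arm hd (n := n) (u := (0 : Vx d)) (by rw [nm_zero]; exact Nat.zero_le _))
  refine le_of_tendsto_of_tendsto h1 (h2.const_mul K1) ?_
  filter_upwards [eventually_ge_atTop m] with N hN
  exact hK N hN n z hz

theorem rare (hd : 1 ≤ d) {β : ℝ} (hβ : 0 < β) {μ : Measure (Cf d)} (hμ : IsLim β false μ)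
    (hp : μ.real (perc d) = 0) (m : ℕ) (ε : ℝ) (hε : 0 < ε) :
    ∃ n0 : ℕ, ∀ n, n0 ≤ n → ∀ N, m ≤ N → rrd d β m n N ≤ ε * μ.real (arm n (0 : Vx d)) := by
  have := hμ.1
  obtain ⟨K1, hK1, hK⟩ := harnack_lim hd hβ hμ m
  have ht : 0 < (1 - Real.tanh β) / 4 := by
    have := Real.tanh_lt_one β
    linarith
  obtain ⟨A, hA, hA0⟩ : ∃ A : ℝ, A = ((1 - Real.tanh β) / 4) ^ (bE d m).card ∧ 0 < A :=
    ⟨_, rfl, pow_pos ht _⟩
  obtain ⟨B, hB, hB0⟩ : ∃ B : ℝ, B = ((bx d m).card : ℝ) * ((bx d m).card : ℝ) ∧ 0 ≤ B :=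
    ⟨_, rfl, by positivity⟩
  have hlim := tendsto_arm hd (μ := μ)
  rw [hp] at hlim
  have hε' : 0 < A * ε / (B * K1 + 1) := by positivity
  obtain ⟨n1, hn1⟩ := eventually_atTop.1 (hlim.eventually (gt_mem_nhds hε'))
  refine ⟨n1 + m, fun n hn N hN => ?_⟩
  have hmn : m ≤ n := by omega
  obtain ⟨-, h2⟩ := rrd_le hβ.le (d := d) (m := m) (n := n) (N := N) hN
  rw [← hA] at h2
  have hsmall : μ.real (arm (n - m) (0 : Vx d)) < A * ε / (B * K1 + 1) := hn1 (n - m) (by omega)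
  have ha0 : 0 ≤ μ.real (arm n (0 : Vx d)) := measureReal_nonneg
  have ha1 : 0 ≤ μ.real (arm (n - m) (0 : Vx d)) := measureReal_nonneg
  have hz1 : ∀ z ∈ bx d m, phiB β N false (arm n z) ≤ K1 * μ.real (arm n (0 : Vx d)) := by
    intro z hz
    have hz' : nm z ≤ m := mem_bx.1 hz
    exact (free_le hβ.le hμ N (inc_arm n z) (lcl_arm hd (hz'.trans hmn))).trans (hK n hmn z hz')
  have hz2 : ∀ z ∈ bx d m, phiB β N false (arm n z) ≤ μ.real (arm (n - m) (0 : Vx d)) := by
    intro z hz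
    have hz' : nm z ≤ m := mem_bx.1 hz
    refine (free_le hβ.le hμ N (inc_arm n z) (lcl_arm hd (hz'.trans hmn))).trans ?_
    refine (arm_le hd hβ.le hμ (hz'.trans hmn)).trans ?_
    exact measureReal_mono (arm_anti hd (by omega) (by rw [nm_zero]; exact Nat.zero_le _))
  have hsum : ∑ z ∈ bx d m, ∑ z' ∈ bx d m, phiB β N false (arm n z) * phiB β N false (arm n z') ≤
      B * ((K1 * μ.real (arm n (0 : Vx d))) * μ.real (arm (n - m) (0 : Vx d))) := by
    calc ∑ z ∈ bx d m, ∑ z' ∈ bx d m, phiB β N false (arm n z) * phiB β N false (arm n z')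
        ≤ ∑ z ∈ bx d m, ∑ z' ∈ bx d m,
          ((K1 * μ.real (arm n (0 : Vx d))) * μ.real (arm (n - m) (0 : Vx d))) := by
          refine Finset.sum_le_sum fun z hz => Finset.sum_le_sum fun z' hz' => ?_
          exact mul_le_mul (hz1 z hz) (hz2 z' hz') (phiB_nonneg hβ.le N false _) (by positivity)
      _ = B * ((K1 * μ.real (arm n (0 : Vx d))) * μ.real (arm (n - m) (0 : Vx d))) := by
          rw [Finset.sum_const, Finset.sum_const, nsmul_eq_mul, nsmul_eq_mul, hB]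
          ring
  have h3 : A * rrd d β m n N ≤
      μ.real (arm n (0 : Vx d)) * ((B * K1) * μ.real (arm (n - m) (0 : Vx d))) := by
    calc _ ≤ _ := h2
      _ ≤ _ := hsum
      _ = _ := by ring
  have h4 : (B * K1) * μ.real (arm (n - m) (0 : Vx d)) ≤ A * ε := by
    have h5 : (B * K1) * μ.real (arm (n - m) (0 : Vx d)) ≤
        (B * K1 + 1) * (A * ε / (B * K1 + 1)) := by
      refine mul_le_mul (by linarith) hsmall.le ha1 (by positivity)
    have h6 : (B * K1 + 1) * (A * ε / (B * K1 + 1)) = A * ε := by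
      have : B * K1 + 1 ≠ 0 := by positivity
      field_simp
    linarith
  have h5 : A * rrd d β m n N ≤ A * (ε * μ.real (arm n (0 : Vx d))) := by
    calc _ ≤ _ := h3
      _ ≤ μ.real (arm n (0 : Vx d)) * (A * ε) := mul_le_mul_of_nonneg_left h4 ha0
      _ = _ := by ring
  exact le_of_mul_le_mul_left h5 hA0

end H82.IC
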