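import Pool.Agent.H82.IC.IV2

/-!
# SYM: the symmetry bound

`ar n = μ (arm n 0)`.  For `k = nm u ≤ n`:  `μ (arm n u) ≥ (1/2) (ar n + ar (n+k)) + (1/(2d)) (ar (n-k) - ar n)`.

Translate: with `g` the translation by `u`, `arm n u = {ω | act g ω ∈ Y}`, `Y = {ω | ∃ y, nm (y + u) ≥ n ∧ 0 ↔ y}` (`act_cn`; a point `b = y + u` of norm `≥ n` connected to `u` gives `arm n u` by
`exit_box`; conversely `nm b = n` for `b ∈ bdry n`).  So `μ (arm n u) = μ Y` (`lim_shift`; `Y` is a countable union of measurable sets).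
Three disjoint measurable subsets of `Y`:
(i) `H = arm (n+k) 0`: `0 ↔ y`, `nm y = n + k`, `nm (y+u) ≥ n`.
(ii) `A \ H`, `A = {∃ i y, 0 ↔ y ∧ |y i| = n ∧ 0 ≤ y i * u i} ∩ arm n 0`: `|y i + u i| ≥ n`.  With `A' = {∃ i y, 0 ↔ y ∧ |y i| = n ∧ y i * u i ≤ 0} ∩ arm n 0`:
  `A ∪ A' = arm n 0`  (`exit`: some `y` with `nm y = n`, `|y i| = n`), and `x ↦ -x` (`exists_ngA`, `lim_aut`) exchanges `A \ H` and `A' \ H` (`H`, `arm n 0` are invariant: `arm n 0` is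
  `{∃ y, nm y ≥ n ∧ 0 ↔ y}`), so `μ (A \ H) = μ (A' \ H) ≥ (1/2) μ (arm n 0 \ H) = (1/2)(ar n - ar (n+k))`.
(iii) `D \ arm n 0`: choose `i0` with `|u i0| = k`, sign `s0 = ±1` with `s0 * u i0 = k`; `D i s = {∃ y, 0 ↔ y ∧ s * y i ≥ n - k}`, `D = D i0 s0`: `s0 (y i0 + u i0) ≥ n`, so `D ⊆ Y`.
  `arm (n-k) 0 = ⋃ over i, s of D i s` (nonneg integer `n - k`: `nm y ≥ n-k` iff some `s * y i ≥ n - k`), and by `ngA` and the transposition of coordinates `pmA (swap i i0)` all `2d` numbers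
  `μ (D i s \ arm n 0)` are equal, so `μ (D \ arm n 0) ≥ (1/(2d)) μ (arm (n-k) 0 \ arm n 0)`.
Sum: `ar (n+k) + (1/2)(ar n - ar (n+k)) + (1/(2d))(ar (n-k) - ar n)`.
* `arm_ge`: (i) alone.
-/

set_option autoImplicit false

open Finset MeasureTheory Filter Topology

namespace H82.IC

variable {d : ℕ}

/-- the event that `0` is connected to a vertex with the property `p`. -/
def SYM_E (p : Vx d → Prop) : Set (Cf d) := {ω | ∃ y, p y ∧ ω ∈ (cn 0 y : Set (Cf d))}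

theorem SYM_E_meas (p : Vx d → Prop) : MeasurableSet (SYM_E p) := by
  have h : SYM_E p = ⋃ y : {y : Vx d // p y}, (cn 0 y.1 : Set (Cf d)) := by
    ext ω
    simp [SYM_E]
  rw [h]
  exact MeasurableSet.iUnion (fun y => meas_cn 0 y.1)

theorem SYM_E_mono {p q : Vx d → Prop} (h : ∀ y, p y → q y) : SYM_E p ⊆ SYM_E q := by
  rintro ω ⟨y, hy, hc⟩
  exact ⟨y, h y hy, hc⟩

theorem SYM_E_act (g : LAut d) (hg0 : g.gV 0 = 0) (p q : Vx d → Prop)
    (h : ∀ y, p y ↔ q (g.gV y)) (ω : Cf d) : act g ω ∈ SYM_E p ↔ ω ∈ SYM_E q := by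
  constructor
  · rintro ⟨y, hy, hc⟩
    refine ⟨g.gV y, (h y).mp hy, ?_⟩
    have := (act_cn g ω 0 y).mp hc
    rwa [hg0] at this
  · rintro ⟨y, hy, hc⟩
    refine ⟨g.gV.symm y, (h _).mpr (by rwa [Equiv.apply_symm_apply]), ?_⟩
    apply (act_cn g ω 0 _).mpr
    rwa [hg0, Equiv.apply_symm_apply]

theorem SYM_arm (hd : 1 ≤ d) {m : ℕ} {u : Vx d} (hu : nm u ≤ m) (ω : Cf d) :
    ω ∈ (arm m u : Set (Cf d)) ↔ ∃ y, m ≤ nm y ∧ ω ∈ (cn u y : Set (Cf d)) := by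
  constructor
  · rintro ⟨y, hy, hc⟩
    exact ⟨y, ((mem_bdry hd).mp hy).ge, hc⟩
  · rintro ⟨y, hy, hc⟩
    obtain ⟨b, hb, hcb⟩ := exit_box hd hu hy hc
    exact ⟨b, hb, conn_mono _ Set.inter_subset_left hcb⟩

theorem SYM_arm0 (hd : 1 ≤ d) (m : ℕ) :
    (arm m (0 : Vx d) : Set (Cf d)) = SYM_E (fun y => m ≤ nm y) := by
  ext ω
  exact SYM_arm hd (by rw [nm_zero]; exact Nat.zero_le _) ω

theorem SYM_le_nm (y : Vx d) (i : Fin d) : |y i| ≤ (nm y : ℤ) := by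
  have h := Finset.le_sup (f := fun i => (y i).natAbs) (Finset.mem_univ i)
  have h' : (y i).natAbs ≤ nm y := h
  rw [Int.abs_eq_natAbs]
  exact_mod_cast h'

theorem SYM_exists_nm (hd : 1 ≤ d) (y : Vx d) : ∃ i, |y i| = (nm y : ℤ) := by
  have hne : (Finset.univ : Finset (Fin d)).Nonempty := ⟨⟨0, hd⟩, Finset.mem_univ _⟩
  obtain ⟨i, _, hi⟩ := Finset.exists_mem_eq_sup Finset.univ hne (fun i => (y i).natAbs)
  refine ⟨i, ?_⟩
  have h' : nm y = (y i).natAbs := hi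
  rw [Int.abs_eq_natAbs, h']

theorem SYM_shift (hd : 1 ≤ d) {β : ℝ} (hβ : 0 ≤ β) {μ : Measure (Cf d)} (hμ : IsLim β false μ)
    (n : ℕ) (u : Vx d) (hu : nm u ≤ n) :
    μ.real (arm n u) = μ.real (SYM_E (fun y => n ≤ nm (y + u))) := by
  obtain ⟨g, hg, _⟩ := exists_trA u
  rw [← lim_shift hβ hμ g u hg _ (SYM_E_meas _)]
  congr 1
  ext ω
  rw [SYM_arm hd hu]
  constructor
  · rintro ⟨y, hy, hc⟩
    refine ⟨y - u, ?_, ?_⟩
    · change n ≤ nm (y - u + u)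
      rwa [sub_add_cancel]
    apply (act_cn g ω 0 _).mpr
    rwa [hg, hg, zero_add, sub_add_cancel]
  · rintro ⟨y, hy, hc⟩
    refine ⟨y + u, hy, ?_⟩
    have := (act_cn g ω 0 _).mp hc
    rwa [hg, hg, zero_add] at this

theorem SYM_H_sub (n : ℕ) (u : Vx d) :
    SYM_E (fun y => n + nm u ≤ nm y) ⊆ SYM_E (fun y => n ≤ nm (y + u)) := by
  apply SYM_E_mono
  intro y hy
  have h := nm_sub (y + u) u
  rw [add_sub_cancel_right] at h
  omega

theorem SYM_neg_half (hd : 1 ≤ d) {β : ℝ} (hβ : 0 ≤ β) {μ : Measure (Cf d)} (hμ : IsLim β false μ)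
    (n k : ℕ) (u : Vx d) :
    (1 / 2) * μ.real (SYM_E (fun y => n ≤ nm y) \ SYM_E (fun y => k ≤ nm y)) ≤
      μ.real (SYM_E (fun y => ∃ i, (n : ℤ) ≤ |y i| ∧ 0 ≤ y i * u i) \
        SYM_E (fun y => k ≤ nm y)) := by
  haveI : IsProbabilityMeasure μ := hμ.1
  obtain ⟨g, hg⟩ := exists_ngA (d := d)
  have hg0 : g.gV 0 = 0 := by rw [hg, neg_zero]
  have hgn : ∀ x, nm (g.gV x) = nm x := fun x => by rw [hg, nm_neg]
  have heq : μ.real (SYM_E (fun y => ∃ i, (n : ℤ) ≤ |y i| ∧ y i * u i ≤ 0) \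
        SYM_E (fun y => k ≤ nm y)) = μ.real (SYM_E (fun y => ∃ i, (n : ℤ) ≤ |y i| ∧
          0 ≤ y i * u i) \ SYM_E (fun y => k ≤ nm y)) := by
    rw [← lim_aut hβ hμ g hgn _ ((SYM_E_meas (fun y => ∃ i, (n : ℤ) ≤ |y i| ∧
      0 ≤ y i * u i)).diff (SYM_E_meas (fun y => k ≤ nm y)))]
    congr 1
    ext ω
    have h1 := SYM_E_act g hg0 (fun y => ∃ i, (n : ℤ) ≤ |y i| ∧ 0 ≤ y i * u i)
      (fun y => ∃ i, (n : ℤ) ≤ |y i| ∧ y i * u i ≤ 0) (by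
        intro y
        simp only [hg, Pi.neg_apply, abs_neg]
        constructor
        · rintro ⟨i, h1, h2⟩
          exact ⟨i, h1, by nlinarith⟩
        · rintro ⟨i, h1, h2⟩
          exact ⟨i, h1, by nlinarith⟩) ω
    have h2 := SYM_E_act g hg0 (fun y => k ≤ nm y) (fun y => k ≤ nm y) (by
        intro y
        rw [hgn]) ω
    rw [Set.mem_sdiff]
    change _ ↔ act g ω ∈ _ ∧ act g ω ∉ _
    rw [h1, h2]
  have hsub : SYM_E (fun y : Vx d => n ≤ nm y) \ SYM_E (fun y => k ≤ nm y) ⊆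
      (SYM_E (fun y => ∃ i, (n : ℤ) ≤ |y i| ∧ 0 ≤ y i * u i) \ SYM_E (fun y => k ≤ nm y)) ∪
      (SYM_E (fun y => ∃ i, (n : ℤ) ≤ |y i| ∧ y i * u i ≤ 0) \ SYM_E (fun y => k ≤ nm y)) := by
    rintro ω ⟨⟨y, hy, hc⟩, h2⟩
    obtain ⟨i, hi⟩ := SYM_exists_nm hd y
    rcases le_total 0 (y i * u i) with h | h
    · left
      exact ⟨⟨y, ⟨i, by rw [hi]; exact_mod_cast hy, h⟩, hc⟩, h2⟩
    · right
      exact ⟨⟨y, ⟨i, by rw [hi]; exact_mod_cast hy, h⟩, hc⟩, h2⟩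
  have h3 : μ.real (SYM_E (fun y : Vx d => n ≤ nm y) \ SYM_E (fun y => k ≤ nm y)) ≤ _ :=
    (measureReal_mono hsub (measure_ne_top μ _)).trans (measureReal_union_le _ _)
  rw [heq] at h3
  linarith

/-- the event that `0` is connected to a point `y` with `s * y i ≥ m`. -/
def SYM_D (m : ℤ) (i : Fin d) (s : ℤ) : Set (Cf d) := SYM_E (fun y => m ≤ s * y i)

theorem SYM_D_neg {β : ℝ} (hβ : 0 ≤ β) {μ : Measure (Cf d)} (hμ : IsLim β false μ)
    (m : ℤ) (k : ℕ) (i : Fin d) (s : ℤ) :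
    μ.real (SYM_D m i (-s) \ SYM_E (fun y => k ≤ nm y)) =
      μ.real (SYM_D m i s \ SYM_E (fun y => k ≤ nm y)) := by
  obtain ⟨g, hg⟩ := exists_ngA (d := d)
  have hg0 : g.gV 0 = 0 := by rw [hg, neg_zero]
  have hgn : ∀ x, nm (g.gV x) = nm x := fun x => by rw [hg, nm_neg]
  have hM : MeasurableSet (SYM_D m i s \ SYM_E (fun y => k ≤ nm y)) :=
    (SYM_E_meas (fun y => m ≤ s * y i)).diff (SYM_E_meas (fun y => k ≤ nm y))
  rw [← lim_aut hβ hμ g hgn _ hM]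
  congr 1
  ext ω
  have h1 : act g ω ∈ SYM_D m i s ↔ ω ∈ SYM_D m i (-s) :=
    SYM_E_act g hg0 (fun y => m ≤ s * y i) (fun y => m ≤ (-s) * y i) (by
      intro y
      simp only [hg, Pi.neg_apply]
      rw [neg_mul_neg]) ω
  have h2 := SYM_E_act g hg0 (fun y => k ≤ nm y) (fun y => k ≤ nm y) (by
      intro y
      rw [hgn]) ω
  rw [Set.mem_sdiff]
  change _ ↔ act g ω ∈ _ ∧ act g ω ∉ _
  rw [h1, h2]

theorem SYM_D_swap {β : ℝ} (hβ : 0 ≤ β) {μ : Measure (Cf d)} (hμ : IsLim β false μ)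
    (m : ℤ) (k : ℕ) (i j : Fin d) (s : ℤ) :
    μ.real (SYM_D m j s \ SYM_E (fun y => k ≤ nm y)) =
      μ.real (SYM_D m i s \ SYM_E (fun y => k ≤ nm y)) := by
  obtain ⟨g, hg⟩ := exists_pmA (Equiv.swap i j)
  have hg0 : g.gV 0 = 0 := by
    ext l
    have := hg 0 (Equiv.swap i j l)
    rw [Equiv.swap_apply_self] at this
    rw [this]
    rfl
  have hgn : ∀ x, nm (g.gV x) = nm x := fun x => nm_perm (Equiv.swap i j) _ _ (hg x)
  have hM : MeasurableSet (SYM_D m i s \ SYM_E (fun y => k ≤ nm y)) :=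
    (SYM_E_meas (fun y => m ≤ s * y i)).diff (SYM_E_meas (fun y => k ≤ nm y))
  rw [← lim_aut hβ hμ g hgn _ hM]
  congr 1
  ext ω
  have h1 : act g ω ∈ SYM_D m i s ↔ ω ∈ SYM_D m j s :=
    SYM_E_act g hg0 (fun y => m ≤ s * y i) (fun y => m ≤ s * y j) (by
      intro y
      have := hg y i
      rw [Equiv.swap_apply_left] at this
      rw [this]) ω
  have h2 := SYM_E_act g hg0 (fun y => k ≤ nm y) (fun y => k ≤ nm y) (by
      intro y
      rw [hgn]) ω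
  rw [Set.mem_sdiff]
  change _ ↔ act g ω ∈ _ ∧ act g ω ∉ _
  rw [h1, h2]

theorem SYM_D_sum (hd : 1 ≤ d) {β : ℝ} (hβ : 0 ≤ β) {μ : Measure (Cf d)} (hμ : IsLim β false μ)
    (m k : ℕ) (i : Fin d) (s : ℤ) (hs : s = 1 ∨ s = -1) :
    (1 / (2 * (d : ℝ))) * μ.real (SYM_E (fun y => m ≤ nm y) \ SYM_E (fun y => k ≤ nm y)) ≤
      μ.real (SYM_D m i s \ SYM_E (fun y => k ≤ nm y)) := by
  haveI : IsProbabilityMeasure μ := hμ.1
  have hall : ∀ j : Fin d, ∀ t : ℤ, (t = 1 ∨ t = -1) →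
      μ.real (SYM_D m j t \ SYM_E (fun y => k ≤ nm y)) =
        μ.real (SYM_D m i s \ SYM_E (fun y => k ≤ nm y)) := by
    intro j t ht
    rw [SYM_D_swap hβ hμ m k i j t]
    rcases hs with hs | hs <;> rcases ht with ht | ht
    · rw [hs, ht]
    · rw [hs, ht, SYM_D_neg hβ hμ]
    · rw [hs, ht, SYM_D_neg hβ hμ]
    · rw [hs, ht]
  have hsub : SYM_E (fun y : Vx d => m ≤ nm y) \ SYM_E (fun y => k ≤ nm y) ⊆
      ⋃ j ∈ (Finset.univ : Finset (Fin d)), ((SYM_D m j 1 \ SYM_E (fun y => k ≤ nm y)) ∪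
        (SYM_D m j (-1) \ SYM_E (fun y => k ≤ nm y))) := by
    rintro ω ⟨⟨y, hy, hc⟩, h2⟩
    obtain ⟨j, hj⟩ := SYM_exists_nm hd y
    have hm : (m : ℤ) ≤ |y j| := by rw [hj]; exact_mod_cast hy
    simp only [Set.mem_iUnion]
    refine ⟨j, Finset.mem_univ _, ?_⟩
    rcases le_total 0 (y j) with h | h
    · left
      refine ⟨⟨y, ?_, hc⟩, h2⟩
      change (m : ℤ) ≤ 1 * y j
      rw [abs_of_nonneg h] at hm
      linarith
    · right
      refine ⟨⟨y, ?_, hc⟩, h2⟩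
      change (m : ℤ) ≤ (-1) * y j
      rw [abs_of_nonpos h] at hm
      linarith
  have h3 : μ.real (SYM_E (fun y : Vx d => m ≤ nm y) \ SYM_E (fun y => k ≤ nm y)) ≤
      ∑ j : Fin d, μ.real ((SYM_D m j 1 \ SYM_E (fun y => k ≤ nm y)) ∪
        (SYM_D m j (-1) \ SYM_E (fun y => k ≤ nm y))) :=
    (measureReal_mono hsub (measure_ne_top μ _)).trans (measureReal_biUnion_finset_le _ _)
  have h4 : ∑ j : Fin d, μ.real ((SYM_D m j 1 \ SYM_E (fun y => k ≤ nm y)) ∪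
        (SYM_D m j (-1) \ SYM_E (fun y => k ≤ nm y))) ≤
      ∑ j : Fin d, 2 * μ.real (SYM_D m i s \ SYM_E (fun y => k ≤ nm y)) := by
    apply Finset.sum_le_sum
    intro j _
    have h5 := measureReal_union_le (μ := μ) (SYM_D (m : ℤ) j 1 \ SYM_E (fun y => k ≤ nm y))
      (SYM_D (m : ℤ) j (-1) \ SYM_E (fun y => k ≤ nm y))
    rw [hall j 1 (Or.inl rfl), hall j (-1) (Or.inr rfl)] at h5
    linarith
  rw [Finset.sum_const, Finset.card_univ, Fintype.card_fin, nsmul_eq_mul] at h4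
  have hd' : (0 : ℝ) < 2 * (d : ℝ) := by
    have : (1 : ℝ) ≤ d := by exact_mod_cast hd
    linarith
  rw [one_div, inv_mul_le_iff₀ hd']
  linarith

theorem sym_bound (hd : 1 ≤ d) {β : ℝ} (hβ : 0 ≤ β) {μ : Measure (Cf d)} (hμ : IsLim β false μ)
    (n : ℕ) (u : Vx d) (hu : nm u ≤ n) :
    (1 / 2) * (μ.real (arm n (0 : Vx d)) + μ.real (arm (n + nm u) (0 : Vx d))) +
      (1 / (2 * (d : ℝ))) * (μ.real (arm (n - nm u) (0 : Vx d)) - μ.real (arm n (0 : Vx d))) ≤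
      μ.real (arm n u) := by
  haveI : IsProbabilityMeasure μ := hμ.1
  rw [SYM_shift hd hβ hμ n u hu, SYM_arm0 hd, SYM_arm0 hd, SYM_arm0 hd]
  obtain ⟨i0, hi0⟩ := SYM_exists_nm hd u
  obtain ⟨s0, hs0, hsu⟩ : ∃ s0 : ℤ, (s0 = 1 ∨ s0 = -1) ∧ s0 * u i0 = (nm u : ℤ) := by
    rcases le_total 0 (u i0) with h | h
    · exact ⟨1, Or.inl rfl, by rw [one_mul, ← hi0, abs_of_nonneg h]⟩
    · exact ⟨-1, Or.inr rfl, by rw [← hi0, abs_of_nonpos h]; ring⟩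
  obtain ⟨H, hH⟩ : ∃ H : Set (Cf d), H = SYM_E (fun y => n + nm u ≤ nm y) := ⟨_, rfl⟩
  obtain ⟨A, hA⟩ : ∃ A : Set (Cf d), A = SYM_E (fun y => ∃ i, (n : ℤ) ≤ |y i| ∧ 0 ≤ y i * u i) :=
    ⟨_, rfl⟩
  obtain ⟨N, hN⟩ : ∃ N : Set (Cf d), N = SYM_E (fun y => n ≤ nm y) := ⟨_, rfl⟩
  obtain ⟨K, hK⟩ : ∃ K : Set (Cf d), K = SYM_E (fun y => n - nm u ≤ nm y) := ⟨_, rfl⟩
  obtain ⟨D, hD⟩ : ∃ D : Set (Cf d), D = SYM_D (n - nm u : ℕ) i0 s0 := ⟨_, rfl⟩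
  obtain ⟨Y, hY⟩ : ∃ Y : Set (Cf d), Y = SYM_E (fun y => n ≤ nm (y + u)) := ⟨_, rfl⟩
  have mH : MeasurableSet H := by rw [hH]; exact SYM_E_meas _
  have mA : MeasurableSet A := by rw [hA]; exact SYM_E_meas _
  have mN : MeasurableSet N := by rw [hN]; exact SYM_E_meas _
  have mK : MeasurableSet K := by rw [hK]; exact SYM_E_meas _
  have mD : MeasurableSet D := by rw [hD]; exact SYM_E_meas _
  have b1 := SYM_neg_half hd hβ hμ n (n + nm u) u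
  have b2 := SYM_D_sum hd hβ hμ (n - nm u) n i0 s0 hs0
  rw [← hH, ← hA, ← hN] at b1
  rw [← hN, ← hK, ← hD] at b2
  have hHN : H ⊆ N := by
    rw [hH, hN]
    exact SYM_E_mono (fun y hy => le_trans (Nat.le_add_right _ _) hy)
  have hNK : N ⊆ K := by
    rw [hN, hK]
    exact SYM_E_mono (fun y hy => le_trans (Nat.sub_le _ _) hy)
  have hAN : A ⊆ N := by
    rw [hA, hN]
    apply SYM_E_mono
    rintro y ⟨i, hi, _⟩
    have := SYM_le_nm y i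
    exact_mod_cast hi.trans this
  have hHY : H ⊆ Y := by
    rw [hH, hY]
    exact SYM_H_sub n u
  have hAY : A ⊆ Y := by
    rw [hA, hY]
    apply SYM_E_mono
    rintro y ⟨i, hi, h2⟩
    have h3 := SYM_le_nm (y + u) i
    have h4 : |y i| ≤ |(y + u) i| := by
      rw [Pi.add_apply]
      exact sq_le_sq.mp (by nlinarith [sq_nonneg (u i)])
    exact_mod_cast (hi.trans h4).trans h3
  have hDY : D ⊆ Y := by
    rw [hD, hY]
    apply SYM_E_mono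
    intro y hy
    have h3 := SYM_le_nm (y + u) i0
    have hy' : ((n - nm u : ℕ) : ℤ) ≤ s0 * y i0 := hy
    rw [Nat.cast_sub hu] at hy'
    have h5 : (n : ℤ) ≤ s0 * (y + u) i0 := by
      rw [Pi.add_apply, mul_add, hsu]
      linarith
    have h6 : s0 * (y + u) i0 ≤ |(y + u) i0| := by
      rcases hs0 with h | h
      · rw [h, one_mul]; exact le_abs_self _
      · rw [h, neg_one_mul]; exact neg_le_abs _
    exact_mod_cast (h5.trans h6).trans h3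
  have c1 : μ.real (N \ H) = μ.real N - μ.real H := measureReal_sdiff hHN mH
  have c2 : μ.real (K \ N) = μ.real K - μ.real N := measureReal_sdiff hNK mN
  have d1 : Disjoint H (A \ H) := Set.disjoint_sdiff_right
  have d2 : Disjoint (H ∪ (A \ H)) (D \ N) := by
    rw [Set.disjoint_left]
    rintro ω (h | h) ⟨_, h'⟩
    · exact h' (hHN h)
    · exact h' (hAN h.1)
  have e1 : μ.real (H ∪ (A \ H)) = μ.real H + μ.real (A \ H) :=
    measureReal_union d1 (mA.diff mH)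
  have e2 : μ.real ((H ∪ (A \ H)) ∪ (D \ N)) = μ.real (H ∪ (A \ H)) + μ.real (D \ N) :=
    measureReal_union d2 (mD.diff mN)
  have e3 : μ.real ((H ∪ (A \ H)) ∪ (D \ N)) ≤ μ.real Y := by
    apply measureReal_mono _ (measure_ne_top μ _)
    rintro ω ((h | h) | h)
    · exact hHY h
    · exact hAY h.1
    · exact hDY h.1
  rw [← hH, ← hN, ← hK, ← hY]
  rw [c1] at b1
  rw [c2] at b2
  linarith

theorem arm_ge (hd : 1 ≤ d) {β : ℝ} (hβ : 0 ≤ β) {μ : Measure (Cf d)} (hμ : IsLim β false μ)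
    (n : ℕ) (u : Vx d) (hu : nm u ≤ n) : μ.real (arm (n + nm u) (0 : Vx d)) ≤ μ.real (arm n u) := by
  haveI : IsProbabilityMeasure μ := hμ.1
  rw [SYM_shift hd hβ hμ n u hu, SYM_arm0 hd]
  exact measureReal_mono (SYM_H_sub n u) (measure_ne_top μ _)

end H82.IC
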