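import Pool.Agent.H82.IC.MIX
import Pool.Agent.H82.IC.HK
import Pool.Agent.H82.IC.SYM
import Pool.Agent.H82.IC.DICH

/-!
# FINA: the main estimate for one `n`

`a n = μ (arm n 0)`.  Let `K1` be from `harnack_N` for some `m1` with `F ⊆ bE m1` (so the points of `enF F` have `nm ≤ m1`), `K = 2 K1`; `mixing` with `κ, K` gives `ρ > 1`, `T`; choose `ε ∈ (0, 1/8)` with
`1 ≤ ρ (1 - 4ε)`, `J` with `(1-ε)^J (d+1) ≤ 1`, apply the rest of `mixing` with `2J`: `l, L, m0`; `m = max m0 m1`; `rare` for `m` and `ε' = min ε (κ/(1+|c|))`: `n0`.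
CLAIM (`good_at`): for `n ≥ n0` (and `n ≥ m`), `S ⊆ range (2T)`, `|S| = T`, if `(1-ε) a n ≤ μ (arm n u)` for all `u` in the annuli of `S`, then for all `N` large enough `DDd d β m n N F c ≤ κ a n`.
Proof: `phiB β N false (arm n u) → μ (arm n u)` for the finitely many `u ∈ bx m` (local events, `lcl_arm`, `m ≤ n`) so for `N ≥ N0`: `phiB N (arm n u) ≥ (1-2ε) a n` for these `u`, and `≥ (1-ε) a n` for `u = 0`; and
`phiB N (arm n 0) ≤ a n` (`free_le`).  `MMd_bounds`: `MMd u ≥ (1-2ε) a n - ε' a n ≥ (1-3ε) a n`, `MMd 0 ≤ a n ≤ ρ MMd u`;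
`MMd z ≤ phiB N (arm n z) ≤ K1 phiB N (arm n 0) ≤ K1 (MMd 0 + ε' a n) ≤ 2 K1 MMd 0` as `MMd 0 ≥ (1-ε-ε') a n ≥ ε' a n`.  `mixing` gives `DDd ≤ κ MMd 0 ≤ κ a n`.
The constants `(m, T, l, L, ε, J, n0)` are packaged in the statement.
-/

set_option autoImplicit false

open Finset MeasureTheory Filter Topology

namespace H82.IC

variable {d : ℕ}

private theorem FINA_mono {l L : ℕ → ℕ} (h1 : ∀ t, l t < L t) (h2 : ∀ t, L t ≤ l (t + 1))
    {s t : ℕ} (h : s ≤ t) : L s ≤ L t :=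
  monotone_nat_of_le_succ (fun n => (h2 n).trans (h1 (n + 1)).le) h

private theorem FINA_enF {F : Finset (Ed d)} {m1 : ℕ} (hF : F ⊆ bE d m1) {z : Vx d}
    (hz : z ∈ enF F) : nm z ≤ m1 := by
  unfold enF at hz
  rw [Finset.mem_union, Finset.mem_image, Finset.mem_image] at hz
  rcases hz with ⟨e, he, rfl⟩ | ⟨e, he, rfl⟩
  · exact (mem_bE.1 (hF he)).1
  · exact (mem_bE.1 (hF he)).2

theorem good_at (hd : 2 ≤ d) {β : ℝ} (hβ : 0 < β) {μ : Measure (Cf d)}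
    (hμ : IsLim β false μ) (hμ' : IsLim β true μ) (hp : μ.real (perc d) = 0)
    (hχ : ¬ Summable (fun x : Vx d => μ.real (cn 0 x))) (F : Finset (Ed d)) (c : ℝ)
    (hc : Tendsto (fun x : Vx d => μ.real (dw F ∩ cn 0 x) / μ.real (cn 0 x)) cofinite (𝓝 c))
    (κ : ℝ) (hκ : 0 < κ) :
    ∃ (m T J n0 : ℕ) (ε : ℝ) (l L : ℕ → ℕ), 1 ≤ T ∧ 0 < ε ∧ ε < 1 / 2 ∧
      (1 - ε) ^ J * ((d : ℝ) + 1) ≤ 1 ∧ F ⊆ bE d m ∧ L (2 * T) ≤ m ∧
      (∀ t, l t < L t) ∧ (∀ t, L t ≤ l (t + 1)) ∧ (∀ t, 2 * J * L t ≤ l (t + 1)) ∧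
      (∀ n, n0 ≤ n → ∀ N, m ≤ N →
        (1 + |c|) * rrd d β m n N ≤ κ * μ.real (arm n (0 : Vx d))) ∧
      ∀ n, n0 ≤ n → ∀ S ⊆ Finset.range (2 * T), S.card = T →
        (∀ t ∈ S, ∀ u : Vx d, l t < nm u → nm u ≤ L t →
          (1 - ε) * μ.real (arm n (0 : Vx d)) ≤ μ.real (arm n u)) →
        ∃ N0, ∀ N, N0 ≤ N → DDd d β m n N F c ≤ κ * μ.real (arm n (0 : Vx d)) := by
  have hd1 : 1 ≤ d := by omega
  have hβ0 : 0 ≤ β := hβ.le
  obtain ⟨m1, hm1⟩ := exists_bE F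
  obtain ⟨K1, hK1, hK1'⟩ := harnack_N hd1 hβ m1
  obtain ⟨ρ, hρ, T, hT, hmix⟩ := mixing hd hβ hμ hμ' hp hχ F c hc κ (2 * K1) hκ (by positivity)
  have hρ0 : 0 < ρ := by linarith
  set ε : ℝ := min (1 / 16) ((ρ - 1) / (4 * ρ)) with hε
  have hε0 : 0 < ε := by
    rw [hε]
    refine lt_min (by norm_num) (div_pos (by linarith) (by linarith))
  have hε1 : ε ≤ 1 / 16 := min_le_left _ _
  have hε2 : 1 ≤ ρ * (1 - 4 * ε) := by
    have h1 : ε ≤ (ρ - 1) / (4 * ρ) := min_le_right _ _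
    rw [le_div_iff₀ (by linarith)] at h1
    nlinarith
  obtain ⟨J, hJ⟩ := exists_pow_lt_of_lt_one (show (0 : ℝ) < 1 / ((d : ℝ) + 1) by positivity)
    (show 1 - ε < 1 by linarith)
  have hJ' : (1 - ε) ^ J * ((d : ℝ) + 1) ≤ 1 := by
    rw [lt_div_iff₀ (by positivity)] at hJ
    exact hJ.le
  obtain ⟨l, L, hlL, hLl, hJL, m0, hm0⟩ := hmix (2 * J)
  set m : ℕ := max m0 m1 with hm
  have hmm0 : m0 ≤ m := le_max_left _ _
  have hmm1 : m1 ≤ m := le_max_right _ _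
  obtain ⟨hFm, hLm, hmain⟩ := hm0 m hmm0
  have hc1 : 0 < 1 + |c| := by positivity
  set ε' : ℝ := min ε (κ / (1 + |c|)) with hε'
  have hε'0 : 0 < ε' := lt_min hε0 (by positivity)
  have hε'1 : ε' ≤ ε := min_le_left _ _
  have hε'2 : ε' * (1 + |c|) ≤ κ := by
    rw [← le_div_iff₀ hc1]
    exact min_le_right _ _
  obtain ⟨n1, hn1⟩ := rare hd1 hβ hμ hp m ε' hε'0
  refine ⟨m, T, J, max n1 m, ε, l, L, hT, hε0, by linarith, hJ', hFm, hLm, hlL, hLl, hJL, ?_, ?_⟩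
  · intro n hn N hN
    have h1 := hn1 n ((le_max_left _ _).trans hn) N hN
    have h2 := (arm_pos hd1 hβ hμ n (0 : Vx d)).le
    calc (1 + |c|) * rrd d β m n N ≤ (1 + |c|) * (ε' * μ.real (arm n (0 : Vx d))) := by gcongr
      _ = (ε' * (1 + |c|)) * μ.real (arm n (0 : Vx d)) := by ring
      _ ≤ κ * μ.real (arm n (0 : Vx d)) := by gcongr
  · intro n hn S hS hST hgood
    have hnn1 : n1 ≤ n := (le_max_left _ _).trans hn
    have hnm : m ≤ n := (le_max_right _ _).trans hn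
    set a : ℝ := μ.real (arm n (0 : Vx d)) with ha
    have ha0 : 0 < a := arm_pos hd1 hβ hμ n (0 : Vx d)
    have hev : ∀ᶠ N in atTop, ∀ u ∈ bx d m, (1 - ε) * a ≤ μ.real (arm n u) →
        (1 - 2 * ε) * a ≤ phiB β N false (arm n u) := by
      rw [Filter.eventually_all_finset]
      intro u hu
      have hu' : nm u ≤ n := (mem_bx.1 hu).trans hnm
      by_cases h : (1 - ε) * a ≤ μ.real (arm n u)
      · have h1 : (1 - 2 * ε) * a < μ.real (arm n u) := by nlinarith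
        filter_upwards [(hμ.2 _ (lcl_arm hd1 hu')).eventually (lt_mem_nhds h1)] with N hN _
        exact hN.le
      · exact Filter.Eventually.of_forall fun N hN => absurd hN h
    obtain ⟨N1, hN1⟩ := Filter.eventually_atTop.1 hev
    refine ⟨max N1 (m + 1), fun N hN => ?_⟩
    have hNN1 : N1 ≤ N := (le_max_left _ _).trans hN
    have hNm : m + 1 ≤ N := (le_max_right _ _).trans hN
    have hNm' : m ≤ N := by omega
    have hph := hN1 N hNN1
    have h0m : nm (0 : Vx d) ≤ m := by rw [nm_zero]; exact Nat.zero_le _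
    have hrr := hn1 n hnn1 N hNm'
    have hrr0 : rrd d β m n N ≤ ε * a := hrr.trans (by gcongr)
    have hlow : ∀ u : Vx d, nm u ≤ m → (1 - ε) * a ≤ μ.real (arm n u) →
        (1 - 3 * ε) * a ≤ MMd d β m n N u := by
      intro u hu hga
      have h1 := hph u (mem_bx.2 hu) hga
      have h2 := (MMd_bounds hβ0 (n := n) hNm' hu).2.2
      linarith
    have hM0 : (1 - 3 * ε) * a ≤ MMd d β m n N 0 := hlow 0 h0m (by nlinarith)
    have hM0a : MMd d β m n N 0 ≤ a :=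
      (MMd_bounds hβ0 (n := n) hNm' h0m).2.1.trans
        (free_le hβ0 hμ N (inc_arm n 0) (lcl_arm hd1 (h0m.trans hnm)))
    have hkey := hmain N hNm n S hS hST ?_ ?_
    · exact hkey.trans (by gcongr)
    · intro t ht u h1 h2
      have ht' : t < 2 * T := Finset.mem_range.1 (hS ht)
      have hum : nm u ≤ m := h2.trans ((FINA_mono hlL hLl ht'.le).trans hLm)
      have h3 := hlow u hum (hgood t ht u h1 h2)
      calc MMd d β m n N 0 ≤ 1 * a := by linarith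
        _ ≤ (ρ * (1 - 4 * ε)) * a := by gcongr
        _ = ρ * ((1 - 4 * ε) * a) := by ring
        _ ≤ ρ * MMd d β m n N u := by
          refine mul_le_mul_of_nonneg_left ?_ hρ0.le
          nlinarith
    · intro z hz
      have hzm1 := FINA_enF hm1 hz
      have h1 := (MMd_bounds hβ0 (n := n) hNm' (hzm1.trans hmm1)).2.1
      have h2 := hK1' N (hmm1.trans hNm') n z hzm1
      have h3 := (MMd_bounds hβ0 (n := n) hNm' h0m).2.2
      have h4 : phiB β N false (arm n (0 : Vx d)) ≤ 2 * MMd d β m n N 0 := by nlinarith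
      calc MMd d β m n N z ≤ K1 * phiB β N false (arm n (0 : Vx d)) := h1.trans h2
        _ ≤ K1 * (2 * MMd d β m n N 0) := by gcongr
        _ = 2 * K1 * MMd d β m n N 0 := by ring

end H82.IC
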