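import Pool.Agent.H82.IC.FINA

/-!
# FINB: the one arm limit for the events `dw F` (stage 1)

Let `a n = μ (arm n 0)`, positive (`arm_pos`), antitone (`arm_anti`).  Given `κ' > 0` let `κ = κ' / (4 (d+1))` and take the constants of `good_at`.  For `n ≥ n0 + l (2T) + m + 1` apply `dich`:
Case 1: `S` good at `n`: for `u` in the annulus `t ∈ S`: `sym_bound` (`nm u ≤ L t ≤ m ≤ n`) with `a (n + nm u) ≥ a (n + L t)`, `a (n - nm u) ≥ a (n - l t)` gives `(1-ε) a n ≤ μ (arm n u)`.  So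
  `DDd m n N ≤ κ a n` for `N` large.
Case 2: `n'` with `n0 ≤ n' ≤ n`, `m ≤ n'`: `S = range T`, for `u` in the annulus `t < T`: `nm u ≤ L t ≤ L (T-1)`, `μ (arm n' u) ≥ a (n' + nm u) ≥ a (n' + L (T-1)) ≥ (1-ε) a n'` (`arm_ge`).  So
  `DDd m n' N ≤ κ a n' ≤ κ (d+1) a n` for `N` large, and `DDd_transfer`: `DDd m n N ≤ DDd m n' N + (1+|c|) rrd m n' N ≤ 2 κ (d+1) a n`.
In both cases for `N` large `|phiB N (dw F ∩ arm n 0) - c phiB N (arm n 0)| ≤ DDd m n N + (1+|c|) rrd m n N ≤ 3 κ (d+1) a n ≤ κ' a n` (`DDd_final`).  `N → ∞` (local events):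
 `|μ (dw F ∩ arm n 0) - c a n| ≤ κ' a n`, i.e. `|μ (dw F ∩ arm n 0)/a n - c| ≤ κ'` for all large `n`.
-/

set_option autoImplicit false

open Finset MeasureTheory Filter Topology

namespace H82.IC

variable {d : ℕ}

theorem one_arm_dw (hd : 2 ≤ d) {β : ℝ} (hβ : 0 < β) {μ : Measure (Cf d)}
    (hμ : IsLim β false μ) (hμ' : IsLim β true μ) (hp : μ.real (perc d) = 0)
    (hχ : ¬ Summable (fun x : Vx d => μ.real (cn 0 x))) (F : Finset (Ed d)) (c : ℝ)
    (hc : Tendsto (fun x : Vx d => μ.real (dw F ∩ cn 0 x) / μ.real (cn 0 x)) cofinite (𝓝 c)) :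
    Tendsto (fun n : ℕ => μ.real (dw F ∩ arm n (0 : Vx d)) / μ.real (arm n (0 : Vx d))) atTop
      (𝓝 c) := by
  have hd1 : 1 ≤ d := by omega
  have : IsProbabilityMeasure μ := hμ.1
  obtain ⟨a, ha_def⟩ : ∃ a : ℕ → ℝ, a = fun n => μ.real (arm n (0 : Vx d)) := ⟨_, rfl⟩
  have hae : ∀ n, μ.real (arm n (0 : Vx d)) = a n := fun n => by rw [ha_def]
  have h00 : ∀ n : ℕ, nm (0 : Vx d) ≤ n := fun n => by rw [nm_zero]; exact Nat.zero_le n
  have ha : Antitone a := by
    intro m n hmn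
    rw [← hae, ← hae]
    exact measureReal_mono (arm_anti hd1 hmn (h00 m))
  have hpos : ∀ n, 0 < a n := by
    intro n
    rw [← hae]
    exact arm_pos hd1 hβ hμ n 0
  have hdpos : (0 : ℝ) < (d : ℝ) + 1 := by positivity
  have hd0 : (0 : ℝ) < (d : ℝ) := by exact_mod_cast hd1
  rw [Metric.tendsto_atTop]
  intro κ' hκ'
  obtain ⟨κ, hκdef⟩ : ∃ κ : ℝ, κ = κ' / (4 * ((d : ℝ) + 1)) := ⟨_, rfl⟩
  have hκ : 0 < κ := by rw [hκdef]; positivity
  obtain ⟨m, T, J, n0, ε, l, L, hT, hε, hε2, hJ, hF, hLm, h1, h2, h3, hr, hD⟩ :=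
    good_at hd hβ hμ hμ' hp hχ F c hc κ hκ
  simp only [hae] at hr hD ⊢
  have hLmono : Monotone L := monotone_nat_of_le_succ fun t => (h2 t).trans (h1 (t + 1)).le
  refine ⟨n0 + l (2 * T) + m + 1, fun n hn => ?_⟩
  have hn0 : n0 ≤ n := by omega
  have hmn : m ≤ n := by omega
  -- the bound for `DDd`
  have key : ∃ N0, ∀ N, N0 ≤ N → m ≤ N →
      DDd d β m n N F c ≤ 2 * κ * ((d : ℝ) + 1) * a n := by
    rcases dich d hd1 a ha hpos ε hε hε2 T J hT hJ l L h1 h2 h3 n (by omega) with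
      ⟨S, hS, hSc, hSg⟩ | ⟨n', hn1, hn2, hn3, hn4⟩
    · obtain ⟨N0, hN0⟩ := hD n hn0 S hS hSc (by
        intro t ht u hu1 hu2
        have ht2 : t < 2 * T := Finset.mem_range.1 (hS ht)
        have hLt : L t ≤ n := ((hLmono ht2.le).trans hLm).trans hmn
        have hb := sym_bound hd1 hβ.le hμ n u (hu2.trans hLt)
        simp only [hae] at hb
        have hg := hSg t ht
        have m1 : a (n + L t) ≤ a (n + nm u) := ha (by omega)
        have m2 : a (n - l t) ≤ a (n - nm u) := ha (by omega)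
        have m3 : (1 / (2 * (d : ℝ))) * (a (n - l t) - a n) ≤
            (1 / (2 * (d : ℝ))) * (a (n - nm u) - a n) :=
          mul_le_mul_of_nonneg_left (by linarith) (by positivity)
        linarith)
      refine ⟨N0, fun N hN _ => (hN0 N hN).trans ?_⟩
      have e1 : κ * a n ≤ 2 * κ * ((d : ℝ) + 1) * a n := by
        refine mul_le_mul_of_nonneg_right ?_ (hpos n).le
        nlinarith
      exact e1
    · have hmn' : m ≤ n' := by omega
      have hn0' : n0 ≤ n' := by omega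
      obtain ⟨N0, hN0⟩ := hD n' hn0' (Finset.range T)
        (Finset.range_subset_range.2 (by omega)) (Finset.card_range T) (by
        intro t ht u hu1 hu2
        have ht2 : t < T := Finset.mem_range.1 ht
        have hLt : L t ≤ L (T - 1) := hLmono (by omega)
        have hLT : L (T - 1) ≤ m := (hLmono (by omega)).trans hLm
        have hb := arm_ge hd1 hβ.le hμ n' u (by omega)
        simp only [hae] at hb
        have m1 : a (n' + L (T - 1)) ≤ a (n' + nm u) := ha (by omega)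
        linarith)
      refine ⟨N0, fun N hN hmN => ?_⟩
      have t1 := DDd_transfer hd1 hβ.le hmN hmn' hn2 hF c
      have t2 := hN0 N hN
      have t3 := hr n' hn0' N hmN
      have t4 : κ * a n' ≤ κ * (((d : ℝ) + 1) * a n) := mul_le_mul_of_nonneg_left hn3 hκ.le
      linarith
  obtain ⟨N0, hN0⟩ := key
  have hlim1 := hμ.2 (dw F ∩ arm n (0 : Vx d)) (lcl_inter (lcl_dw F) (lcl_arm hd1 (h00 n)))
  have hlim2 := hμ.2 (arm n (0 : Vx d)) (lcl_arm hd1 (h00 n))
  rw [hae] at hlim2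
  have hlim := (hlim1.sub (hlim2.const_mul c)).abs
  have hfin : |μ.real (dw F ∩ arm n (0 : Vx d)) - c * a n| ≤ 3 * κ * ((d : ℝ) + 1) * a n := by
    refine le_of_tendsto hlim ?_
    filter_upwards [eventually_ge_atTop (max N0 m)] with N hN
    have hN1 : N0 ≤ N := (le_max_left _ _).trans hN
    have hN2 : m ≤ N := (le_max_right _ _).trans hN
    have t1 := DDd_final (n := n) hβ.le hN2 hF c
    have t2 := hN0 N hN1 hN2
    have t3 := hr n hn0 N hN2
    have t4 : κ * a n ≤ κ * ((d : ℝ) + 1) * a n := by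
      refine mul_le_mul_of_nonneg_right ?_ (hpos n).le
      nlinarith
    linarith
  rw [Real.dist_eq]
  have hane := (hpos n).ne'
  have e : μ.real (dw F ∩ arm n (0 : Vx d)) / a n - c =
      (μ.real (dw F ∩ arm n (0 : Vx d)) - c * a n) / a n := by
    rw [sub_div, mul_div_assoc, div_self hane, mul_one]
  rw [e, abs_div, abs_of_pos (hpos n), div_lt_iff₀ (hpos n)]
  refine hfin.trans_lt ?_
  refine mul_lt_mul_of_pos_right ?_ (hpos n)
  rw [hκdef]
  have : 3 * (κ' / (4 * ((d : ℝ) + 1))) * ((d : ℝ) + 1) = 3 / 4 * κ' := by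
    field_simp
  rw [this]
  linarith

end H82.IC
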