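import Pool.Agent.H82.IC.FINB
import Pool.Agent.H82.IC.IV1

/-!
# GE: from `dw F` to all cylinder events; stage 1 theorem

* `lcl_decomp`: `X` depends on the finite set `F0`: `1_X(ω) = ∑_{η ⊆ F0} 1[η ∈ X'] ∏_{e ∈ η} (1 - 1[ω e = false]) ∏_{e ∈ F0 \ η} 1[ω e = false]`; expand the products
  (`Finset.prod_one_sub_ordered` / `Finset.prod_add`): a linear combination of the indicators of `dw S`, `S ⊆ F0`.  Integrate over `Y`.
* `stage_one`: if all the limits `c_S` for `dw S` along `x → ∞` exist, then by linearity the `x`-limit for `X` is `∑ a_S c_S` (so `= L` by uniqueness of limits; the filter `cofinite` on `ℤ^d`, `d ≥ 1`, is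
  nontrivial), and by `one_arm_dw` the one arm limit is the same.
-/

set_option autoImplicit false

open Finset MeasureTheory Filter Topology

namespace H82.IC

variable {d : ℕ}

/-- Moebius inversion on the finite subsets, recursively. -/
noncomputable def GE_a {α : Type*} [DecidableEq α] (g : Finset α → ℝ) (S : Finset α) : ℝ :=
  g S - ∑ T : {T // T ∈ S.ssubsets}, GE_a g T.1
termination_by S.card
decreasing_by exact Finset.card_lt_card (Finset.mem_ssubsets.mp T.2)

theorem GE_sum {α : Type*} [DecidableEq α] (g : Finset α → ℝ) (D : Finset α) :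
    g D = ∑ S ∈ D.powerset, GE_a g S := by
  have h1 : ∑ S ∈ D.powerset, GE_a g S = GE_a g D + ∑ S ∈ D.ssubsets, GE_a g S :=
    (Finset.add_sum_erase _ _ (Finset.mem_powerset_self D)).symm
  rw [h1, ← Finset.sum_coe_sort D.ssubsets]
  have h2 : GE_a g D = g D - ∑ T : {T // T ∈ D.ssubsets}, GE_a g T.1 := by
    rw [GE_a]
  rw [h2]
  ring

theorem GE_dw_lcl (S : Finset (Ed d)) : Lcl (dw S : Set (Cf d)) :=
  ⟨S, fun ω ω' h => by
    constructor
    · intro hω e he
      rw [← h e he]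
      exact hω e he
    · intro hω e he
      rw [h e he]
      exact hω e he⟩

theorem GE_pt {X : Set (Cf d)} (F0 : Finset (Ed d))
    (hX : ∀ ω ω' : Cf d, (∀ e ∈ F0, ω e = ω' e) → (ω ∈ X ↔ ω' ∈ X)) :
    ∃ a : Finset (Ed d) → ℝ, ∀ ω : Cf d,
      X.indicator (fun _ => (1 : ℝ)) ω = ∑ S ∈ F0.powerset, a S * (dw S).indicator (fun _ => 1) ω := by
  classical
  obtain ⟨g, hg⟩ : ∃ g : Finset (Ed d) → ℝ, g = fun D =>
    X.indicator (fun _ => (1 : ℝ)) (fun e => if e ∈ D then false else true) := ⟨_, rfl⟩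
  refine ⟨GE_a g, fun ω => ?_⟩
  obtain ⟨D, hD⟩ : ∃ D : Finset (Ed d), D = F0.filter (fun e => ω e = false) := ⟨_, rfl⟩
  have h1 : X.indicator (fun _ => (1 : ℝ)) ω = g D := by
    rw [hg]
    show X.indicator (fun _ => (1 : ℝ)) ω =
      X.indicator (fun _ => (1 : ℝ)) (fun e => if e ∈ D then false else true)
    have h2 : ω ∈ X ↔ (fun e => if e ∈ D then false else true) ∈ X := by
      refine hX _ _ fun e he => ?_
      show ω e = if e ∈ D then false else true
      have hmem : e ∈ D ↔ ω e = false := by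
        rw [hD, Finset.mem_filter]
        exact ⟨fun h => h.2, fun h => ⟨he, h⟩⟩
      by_cases h3 : ω e = false
      · rw [if_pos (hmem.mpr h3), h3]
      · rw [if_neg (fun h4 => h3 (hmem.mp h4))]
        exact Bool.eq_true_of_not_eq_false h3
    by_cases h4 : ω ∈ X
    · rw [Set.indicator_of_mem h4, Set.indicator_of_mem (h2.mp h4)]
    · rw [Set.indicator_of_notMem h4, Set.indicator_of_notMem (fun h5 => h4 (h2.mpr h5))]
  rw [h1, GE_sum g D]
  have hsub : D.powerset ⊆ F0.powerset := by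
    rw [hD]
    exact Finset.powerset_mono.mpr (Finset.filter_subset _ _)
  rw [← Finset.sum_subset hsub]
  · refine Finset.sum_congr rfl fun S hS => ?_
    have h5 : ω ∈ dw S := by
      intro e he
      have h6 := Finset.mem_powerset.mp hS he
      rw [hD] at h6
      exact (Finset.mem_filter.mp h6).2
    rw [Set.indicator_of_mem h5, mul_one]
  · intro S hS hS'
    have h5 : ω ∉ dw S := by
      intro h6
      refine hS' (Finset.mem_powerset.mpr fun e he => ?_)
      rw [hD]
      exact Finset.mem_filter.mpr ⟨Finset.mem_powerset.mp hS he, h6 e he⟩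
    rw [Set.indicator_of_notMem h5, mul_zero]

theorem GE_int (μ : Measure (Cf d)) [IsProbabilityMeasure μ] {X Y : Set (Cf d)}
    (hX : MeasurableSet X) :
    μ.real (X ∩ Y) = ∫ ω in Y, X.indicator (fun _ => (1 : ℝ)) ω ∂μ := by
  rw [integral_indicator hX, Measure.restrict_restrict hX, setIntegral_const, smul_eq_mul, mul_one]

theorem lcl_decomp {X : Set (Cf d)} (hX : Lcl X) :
    ∃ (F0 : Finset (Ed d)) (a : Finset (Ed d) → ℝ), ∀ (μ : Measure (Cf d)) [IsProbabilityMeasure μ]
      (Y : Set (Cf d)), MeasurableSet Y →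
      μ.real (X ∩ Y) = ∑ S ∈ F0.powerset, a S * μ.real (dw S ∩ Y) := by
  obtain ⟨F0, hF0⟩ := hX
  obtain ⟨a, ha⟩ := GE_pt F0 hF0
  refine ⟨F0, a, fun μ hμ Y hY => ?_⟩
  have hXm : MeasurableSet X := lcl_measurable ⟨F0, hF0⟩
  rw [GE_int μ hXm]
  simp only [ha]
  have hi : ∀ S : Finset (Ed d), Integrable (fun ω => (dw S).indicator (fun _ => (1 : ℝ)) ω)
      (μ.restrict Y) := fun S =>
    (integrable_const (1 : ℝ)).indicator (lcl_measurable (GE_dw_lcl S))
  rw [integral_finsetSum _ fun S _ => (hi S).const_mul (a S)]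
  refine Finset.sum_congr rfl fun S _ => ?_
  rw [integral_const_mul, GE_int μ (lcl_measurable (GE_dw_lcl S))]

theorem stage_one (hd : 2 ≤ d) {β : ℝ} (hβ : 0 < β) {μ : Measure (Cf d)}
    (hμ : IsLim β false μ) (hμ' : IsLim β true μ) (hp : μ.real (perc d) = 0)
    (hχ : ¬ Summable (fun x : Vx d => μ.real (cn 0 x)))
    (hlim : ∀ F : Finset (Ed d), ∃ c : ℝ,
      Tendsto (fun x : Vx d => μ.real (dw F ∩ cn 0 x) / μ.real (cn 0 x)) cofinite (𝓝 c))
    (X : Set (Cf d)) (hX : Lcl X) :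
    ∃ L : ℝ, Tendsto (fun x : Vx d => μ.real (X ∩ cn 0 x) / μ.real (cn 0 x)) cofinite (𝓝 L) ∧
      Tendsto (fun n : ℕ => μ.real (X ∩ arm n (0 : Vx d)) / μ.real (arm n (0 : Vx d))) atTop
        (𝓝 L) := by
  have hprob := hμ.1
  obtain ⟨F0, a, ha⟩ := lcl_decomp hX
  choose c hc using hlim
  refine ⟨∑ S ∈ F0.powerset, a S * c S, ?_, ?_⟩
  · have h1 : ∀ x : Vx d, μ.real (X ∩ cn 0 x) / μ.real (cn 0 x) =
        ∑ S ∈ F0.powerset, a S * (μ.real (dw S ∩ cn 0 x) / μ.real (cn 0 x)) := by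
      intro x
      rw [ha μ _ (meas_cn 0 x), Finset.sum_div]
      exact Finset.sum_congr rfl fun S _ => mul_div_assoc _ _ _
    simp only [h1]
    exact tendsto_finsetSum _ fun S _ => (hc S).const_mul (a S)
  · have h1 : ∀ n : ℕ, μ.real (X ∩ arm n (0 : Vx d)) / μ.real (arm n (0 : Vx d)) =
        ∑ S ∈ F0.powerset, a S * (μ.real (dw S ∩ arm n (0 : Vx d)) /
          μ.real (arm n (0 : Vx d))) := by
      intro n
      rw [ha μ _ (meas_arm n 0), Finset.sum_div]
      exact Finset.sum_congr rfl fun S _ => mul_div_assoc _ _ _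
    simp only [h1]
    exact tendsto_finsetSum _ fun S _ =>
      (one_arm_dw hd hβ hμ hμ' hp hχ S (c S) (hc S)).const_mul (a S)

end H82.IC
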