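import Pool.Agent.H82.IC.PM1
import Pool.Agent.H82.IC.GE

/-!
# PM2: existence and uniqueness of the free and wired infinite volume measures

* `exists_phiM`: the finite sum of Dirac masses `∑_{ω ⊆ bE n} (fkw/Z) δ_{glue (bE n) b ω}` (all weights `≥ 0`, `Z > 0`).
* `exists_IsLim`: with `ν n` from `exists_phiM` apply `exists_limit`.  Convergence of `phiB β n b X` for cylinder `X`: by `lcl_decomp` (with `Y = univ`) `(ν n).real X = ∑ a_S (ν n).real (dw S)`; and
  `(ν n).real (dw S) = 1 - (ν n).real (dw S)ᶜ`, `(dw S)ᶜ` increasing and local, so `phiB β n b (dw S)ᶜ` is monotone in `n` (`phiB_free_mono`, `phiB_wired_anti`) and bounded, hence converges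
  (`tendsto_atTop_ciSup`, ...).
* `isLim_unique`: both have the same value on `up S` (limits of the same sequence), `measure_ext_up`.
* `lim_le`: limit of `phiB_free_le_wired` (`phiB β n false X ≤ phiB β n true X`).
-/

set_option autoImplicit false

open Finset MeasureTheory Filter Topology

namespace H82.IC

variable {d : ℕ}

theorem PM2_dw_inc (S : Finset (Ed d)) : Inc ((dw S)ᶜ : Set (Cf d)) := by
  intro ω ω' h hω hω'
  apply hω
  intro e he
  have h1 := hω' e he
  cases h2 : ω e with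
  | false => rfl
  | true => rw [h e h2] at h1; exact absurd h1 (by decide)

theorem PM2_conv (hd : 2 ≤ d) {β : ℝ} (hβ : 0 ≤ β) (b : Bool) {X : Set (Cf d)} (hX : Inc X) :
    ∃ a : ℝ, Tendsto (fun n => phiB β n b X) atTop (𝓝 a) := by
  cases b with
  | false =>
    have hm : Monotone (fun n => phiB β n false X) := fun m n h => phiB_free_mono hβ h hX
    exact ⟨_, tendsto_atTop_ciSup hm ⟨1, by
      rintro _ ⟨n, rfl⟩
      exact phiB_le_one hβ n false X⟩⟩
  | true =>
    have hm : Antitone (fun n => phiB β n true X) := fun m n h => phiB_wired_anti hd hβ h hX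
    exact ⟨_, tendsto_atTop_ciInf hm ⟨0, by
      rintro _ ⟨n, rfl⟩
      exact phiB_nonneg hβ n true X⟩⟩

theorem exists_phiM {β : ℝ} (hβ : 0 ≤ β) (n : ℕ) (b : Bool) :
    ∃ ν : Measure (Cf d), IsProbabilityMeasure ν ∧
      ∀ X : Set (Cf d), MeasurableSet X → ν.real X = phiB β n b X := by
  classical
  set Z := ∑ ω ∈ (bE d n).powerset, fkw β (bx d n) (bE d n) (fun _ => b) ω with hZ
  have hZp : 0 < Z := BR2_den_pos hβ _ _ _
  let w : Finset (Ed d) → ℝ := fun ω => fkw β (bx d n) (bE d n) (fun _ => b) ω / Z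
  have hw : ∀ ω, 0 ≤ w ω := fun ω => div_nonneg (BR2_fkw_nonneg hβ _ _ _ _) hZp.le
  let ν : Measure (Cf d) := ∑ ω ∈ (bE d n).powerset,
    ENNReal.ofReal (w ω) • Measure.dirac (glue (bE d n) (fun _ => b) ω)
  have hν : ∀ X : Set (Cf d), MeasurableSet X → ν X =
      ENNReal.ofReal (∑ ω ∈ (bE d n).powerset, w ω * ind (glue (bE d n) (fun _ => b) ω ∈ X)) := by
    intro X hX
    have h1 : ν X = ∑ ω ∈ (bE d n).powerset,
        ENNReal.ofReal (w ω) * (Measure.dirac (glue (bE d n) (fun _ => b) ω)) X := by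
      simp only [ν, Measure.finsetSum_apply, Measure.smul_apply, smul_eq_mul]
    rw [h1, ENNReal.ofReal_sum_of_nonneg fun ω _ => mul_nonneg (hw ω) (BR2_ind_nonneg _)]
    refine Finset.sum_congr rfl fun ω _ => ?_
    rw [ENNReal.ofReal_mul (hw ω), Measure.dirac_apply' _ hX]
    congr 1
    unfold ind
    by_cases h2 : glue (bE d n) (fun _ => b) ω ∈ X
    · rw [if_pos h2, Set.indicator_of_mem h2]
      simp
    · rw [if_neg h2, Set.indicator_of_notMem h2]
      simp
  have hsum : ∀ X : Set (Cf d),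
      ∑ ω ∈ (bE d n).powerset, w ω * ind (glue (bE d n) (fun _ => b) ω ∈ X) = phiB β n b X := by
    intro X
    unfold phiB phiG
    rw [← hZ, Finset.sum_div]
    exact Finset.sum_congr rfl fun ω _ => by simp only [w]; ring
  have hreal : ∀ X : Set (Cf d), MeasurableSet X → ν.real X = phiB β n b X := by
    intro X hX
    rw [measureReal_def, hν X hX, hsum, ENNReal.toReal_ofReal (phiB_nonneg hβ n b X)]
  refine ⟨ν, ⟨?_⟩, hreal⟩
  rw [hν _ MeasurableSet.univ, hsum]
  have h3 : phiB β n b (Set.univ : Set (Cf d)) = 1 := by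
    unfold phiB phiG
    rw [← hZ]
    have h4 : ∑ ω ∈ (bE d n).powerset, fkw β (bx d n) (bE d n) (fun _ => b) ω *
        ind (glue (bE d n) (fun _ => b) ω ∈ (Set.univ : Set (Cf d))) = Z := by
      rw [hZ]
      refine Finset.sum_congr rfl fun ω _ => ?_
      unfold ind
      rw [if_pos (Set.mem_univ _), mul_one]
    rw [h4, div_self hZp.ne']
  rw [h3, ENNReal.ofReal_one]

theorem exists_IsLim (hd : 2 ≤ d) {β : ℝ} (hβ : 0 ≤ β) (b : Bool) :
    ∃ μ : Measure (Cf d), IsLim β b μ := by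
  choose ν hνp hν using fun n => exists_phiM (d := d) hβ n b
  obtain ⟨μ, hμ, hlim⟩ := exists_limit ν hνp fun X hX => by
    obtain ⟨F0, a, ha⟩ := lcl_decomp hX
    have h1 : ∀ S : Finset (Ed d), ∃ c : ℝ, Tendsto (fun n => (ν n).real (dw S)) atTop (𝓝 c) := by
      intro S
      obtain ⟨c, hc⟩ := PM2_conv hd hβ b (PM2_dw_inc (d := d) S)
      refine ⟨1 - c, (tendsto_const_nhds.sub hc).congr fun n => ?_⟩
      have hp := hνp n
      have hm : MeasurableSet (dw S : Set (Cf d)) := lcl_measurable (lcl_dw S)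
      rw [← hν n _ hm.compl, probReal_compl_eq_one_sub hm]
      ring
    choose c hc using h1
    refine ⟨∑ S ∈ F0.powerset, a S * c S, ?_⟩
    have h2 : ∀ n, (ν n).real X = ∑ S ∈ F0.powerset, a S * (ν n).real (dw S) := by
      intro n
      have hp := hνp n
      have h3 := ha (ν n) Set.univ MeasurableSet.univ
      simpa only [Set.inter_univ] using h3
    simp only [h2]
    exact tendsto_finsetSum _ fun S _ => (hc S).const_mul (a S)
  exact ⟨μ, hμ, fun X hX => (hlim X hX).congr fun n => hν n X (lcl_measurable hX)⟩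

theorem isLim_unique {β : ℝ} {b : Bool} {μ ν : Measure (Cf d)} (hμ : IsLim β b μ)
    (hν : IsLim β b ν) : μ = ν := by
  have h1 := hμ.1
  have h2 := hν.1
  exact measure_ext_up μ ν fun S => tendsto_nhds_unique (hμ.2 _ (lcl_up S)) (hν.2 _ (lcl_up S))

theorem lim_le (hd : 2 ≤ d) {β : ℝ} (hβ : 0 ≤ β) {μ0 μ1 : Measure (Cf d)}
    (h0 : IsLim β false μ0) (h1 : IsLim β true μ1) {X : Set (Cf d)} (hX : Inc X) (hl : Lcl X) :
    μ0.real X ≤ μ1.real X := by
  exact le_of_tendsto_of_tendsto' (h0.2 X hl) (h1.2 X hl) fun n => phiB_free_le_wired hd hβ n n hX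

/-- the wired limit is below every wired box. -/
theorem wired_ge (hd : 2 ≤ d) {β : ℝ} (hβ : 0 ≤ β) {μ1 : Measure (Cf d)}
    (h1 : IsLim β true μ1) (n : ℕ) {X : Set (Cf d)} (hX : Inc X) (hl : Lcl X) :
    μ1.real X ≤ phiB β n true X := by
  refine le_of_tendsto (h1.2 X hl) ?_
  filter_upwards [eventually_ge_atTop n] with m hm
  exact phiB_wired_anti hd hβ hm hX

end H82.IC
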