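import Pool.Agent.H82.IC.LX1
import Pool.Agent.H82.IC.PM2

/-!
# LX3: the critical point is positive; infinite susceptibility at the critical point

* `rho_cont`: `β ↦ rho d β l` is continuous on `[0,∞)` (`phiB_continuous`).
* `rho_zero`: `rho d 0 1 = 0`: at `β = 0` all weights with an open edge vanish (`e^0 - 1 = 0`), so `phiB 0 1 false (cn 0 b) = 0` for `b ≠ 0`; the points of `bdry 1` are `≠ 0`.
* `bcr_pos`: by continuity `rho d β 1 < 1` for `0 ≤ β ≤ δ`, so `thW d β = 0` there (`decay`) and by `bcr_after` (points of the set arbitrarily close to `bcr d`) `bcr d ≥ δ > 0`.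
* `rho_ge_one`: if `rho d (bcr d) l < 1` then by continuity `rho d β l < 1` on `[bcr d, bcr d + δ)`, so `thW = 0` there, contradicting `bcr_after`.
* `chi_infinite`: for the free limit `μ` at `bcr d`: for every `l`, `∑_{b ∈ bdry l} μ (cn 0 b) ≥ rho d (bcr d) l ≥ 1` (`free_le_cn` with `S = ∅`), the sets `bdry l` are disjoint (`nm = l`), so the series
  diverges.
* `thW_eq`: `thW d β = μ1 (perc)` for the wired limit `μ1`: `μ1 (arm n 0) ≤ phiB β N true (arm n 0)` for all `N`; `phiB β N true (arm N 0) ≤ phiB β N true (arm n 0)` for `n ≤ N`, so `thW ≤ μ1 (arm n 0)` in the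
  limit `N → ∞`, for all `n`: `thW ≤ μ1 (perc)` (`tendsto_arm`); conversely `μ1 (perc) ≤ μ1 (arm n 0) ≤ phiB β n true (arm n 0)` (`wired_ge`).
-/

set_option autoImplicit false

open Finset Filter Topology MeasureTheory

namespace H82.IC

variable {d : ℕ}

theorem LX3_rho_cont (l : ℕ) : ContinuousOn (fun β : ℝ => rho d β l) (Set.Ici 0) := by
  unfold rho
  exact continuousOn_finset_sum _ fun b _ => phiB_continuous l false (cn (0 : Vx d) b)

theorem LX3_phiB_zero {b : Vx d} (hb : b ≠ 0) (n : ℕ) :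
    phiB 0 n false (cn (0 : Vx d) b) = 0 := by
  unfold phiB phiG
  rw [div_eq_zero_iff]
  left
  refine Finset.sum_eq_zero fun ω _ => ?_
  rcases ω.eq_empty_or_nonempty with rfl | hω
  · have h1 : ¬ (glue (bE d n) (fun _ => false) ∅ ∈ (cn (0 : Vx d) b : Set (Cf d))) := by
      intro h
      have h2 : opn (glue (bE d n) (fun _ => false) (∅ : Finset (Ed d))) = ∅ := by
        ext e
        simp [opn, glue]
      have h3 : (Zl d).Conn (opn (glue (bE d n) (fun _ => false) (∅ : Finset (Ed d)))) 0 b := h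
      rw [h2] at h3
      rcases Relation.ReflTransGen.cases_head h3 with h4 | ⟨c, ⟨e, he, _⟩, _⟩
      · exact hb h4.symm
      · exact he
    rw [ind, if_neg h1, mul_zero]
  · have h1 : fkw 0 (bx d n) (bE d n) (fun _ => false) ω = 0 := by
      unfold fkw
      rw [mul_zero, Real.exp_zero, sub_self, zero_pow (Finset.card_pos.2 hω).ne', mul_zero]
    rw [h1, zero_mul]

theorem LX3_rho_zero (hd : 1 ≤ d) : rho d 0 1 = 0 := by
  unfold rho
  refine Finset.sum_eq_zero fun b hb => LX3_phiB_zero ?_ 1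
  rintro rfl
  rw [mem_bdry hd, nm_zero] at hb
  exact absurd hb (by norm_num)

theorem LX3_near {l : ℕ} {β0 : ℝ} (h0 : 0 ≤ β0) (h : rho d β0 l < 1) :
    ∃ δ : ℝ, 0 < δ ∧ ∀ β, 0 ≤ β → |β - β0| < δ → rho d β l < 1 := by
  have h1 := (LX3_rho_cont (d := d) l) β0 (Set.mem_Ici.2 h0)
  have h2 : ∀ᶠ β in 𝓝[Set.Ici 0] β0, rho d β l < 1 := h1.eventually (gt_mem_nhds h)
  rw [eventually_nhdsWithin_iff, Metric.eventually_nhds_iff] at h2
  obtain ⟨δ, hδ, h3⟩ := h2
  exact ⟨δ, hδ, fun β hβ hβδ => h3 (by rwa [Real.dist_eq]) (Set.mem_Ici.2 hβ)⟩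

theorem bcr_pos (hd : 3 ≤ d) : 0 < bcr d := by
  obtain ⟨δ, hδ, h⟩ := LX3_near (d := d) (l := 1) (β0 := 0) le_rfl
    (by rw [LX3_rho_zero (by omega)]; exact one_pos)
  by_contra hcon
  have h0 : bcr d = 0 := le_antisymm (not_lt.1 hcon) (bcr_nonneg d)
  obtain ⟨β, hβ1, hβ2, hβ3⟩ := bcr_after hd δ hδ
  rw [h0] at hβ1 hβ2
  have h1 := decay (by omega : 2 ≤ d) hβ1 1 (h β hβ1 (by
    rw [sub_zero, abs_of_nonneg hβ1]; linarith))
  exact absurd h1 hβ3.ne'

theorem rho_ge_one (hd : 3 ≤ d) (l : ℕ) : 1 ≤ rho d (bcr d) l := by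
  by_contra hcon
  obtain ⟨δ, hδ, h⟩ := LX3_near (d := d) (l := l) (bcr_nonneg d) (not_le.1 hcon)
  obtain ⟨β, hβ1, hβ2, hβ3⟩ := bcr_after hd δ hδ
  have hβ0 : 0 ≤ β := (bcr_nonneg d).trans hβ1
  have h1 := decay (by omega : 2 ≤ d) hβ0 l (h β hβ0 (by
    rw [abs_of_nonneg (by linarith)]; linarith))
  exact absurd h1 hβ3.ne'

theorem chi_infinite (hd : 3 ≤ d) {μ : Measure (Cf d)} (hμ : IsLim (bcr d) false μ) :
    ¬ Summable (fun x : Vx d => μ.real (cn 0 x)) := by
  classical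
  intro hs
  have h1 : ∀ l : ℕ, 1 ≤ ∑ b ∈ bdry d l, μ.real (cn 0 b) := by
    intro l
    refine (rho_ge_one hd l).trans ?_
    unfold rho
    refine Finset.sum_le_sum fun b _ => ?_
    have h2 := free_le_cn (bcr_nonneg d) hμ l ∅ (0 : Vx d) b
    have h3 : (up (∅ : Finset (Ed d)) : Set (Cf d)) = Set.univ := by
      ext ω
      simp [up]
    rw [h3, Set.inter_univ] at h2
    exact h2
  obtain ⟨s, hs'⟩ := (summable_iff_vanishing_norm.1 hs) 1 one_pos
  obtain ⟨l, hl⟩ : ∃ l : ℕ, ∀ x ∈ s, nm x < l := by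
    refine ⟨s.sup nm + 1, fun x hx => Nat.lt_succ_of_le (Finset.le_sup hx)⟩
  have hdis : Disjoint (bdry d l) s := by
    rw [Finset.disjoint_left]
    intro x hx hxs
    rw [mem_bdry (by omega)] at hx
    exact absurd hx (hl x hxs).ne
  have h2 := hs' (bdry d l) hdis
  rw [Real.norm_eq_abs] at h2
  have h3 := le_abs_self (∑ b ∈ bdry d l, μ.real (cn 0 b))
  linarith [h1 l]

theorem thW_eq (hd : 2 ≤ d) {β : ℝ} (hβ : 0 ≤ β) {μ1 : Measure (Cf d)} (h1 : IsLim β true μ1) :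
    thW d β = μ1.real (perc d) := by
  haveI := h1.1
  have hd1 : 1 ≤ d := by omega
  have hn0 : ∀ n : ℕ, nm (0 : Vx d) ≤ n := fun n => by rw [nm_zero]; exact Nat.zero_le _
  apply le_antisymm
  · refine ge_of_tendsto' (tendsto_arm hd1 (μ := μ1)) fun n => ?_
    have h2 := h1.2 (arm n (0 : Vx d)) (lcl_arm hd1 (hn0 n))
    refine ge_of_tendsto h2 ?_
    filter_upwards [eventually_ge_atTop n] with N hN
    have h3 : thW d β ≤ phiB β N true (arm N (0 : Vx d)) :=
      ciInf_le ⟨0, by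
        rintro x ⟨m, rfl⟩
        exact phiB_nonneg hβ m true _⟩ N
    exact h3.trans (phiB_mono_set hβ N true (arm_anti hd1 hN (hn0 n)))
  · unfold thW
    refine le_ciInf fun n => ?_
    have h2 : μ1.real (perc d) ≤ μ1.real (arm n (0 : Vx d)) := by
      refine measureReal_mono ?_
      rw [perc_eq hd1]
      exact Set.iInter_subset _ n
    exact h2.trans (wired_ge hd hβ h1 n (inc_arm n 0) (lcl_arm hd1 (hn0 n)))

end H82.IC
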