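import Pool.Agent.H82.IC.SC2
import Pool.Agent.H82.IC.CNE

/-!
# VB2: variance sums for the cone weights

`AnK t = (bx (L t) \ bx (l t)) ∩ cone i ε`, `chK t = ∑_{u ∈ AnK t} G u`; with `Cd = d 2^d d^d`: `ch t = fG (L t) - fG (l t) ≤ Cd chK t` (`cone_mass`), `fG (L t) ≤ 2 ch t ≤ 2 Cd chK t` (`δ ≤ 1/2`), `chK t > 0`.
`beK u = ∑_{t < T} 1[u ∈ AnK t]/(T chK t)`, `BK = ⋃_{t<T} AnK t` (disjoint annuli).
* `beK_sum`: `∑ beK u G u = 1`.
* `beK_double`: as `beS_double` in VB: for `s < t`, `u ∈ AnK s`: `∑_{v ∈ AnK t} G (v-u) ≤ chK t + ∑_{v ∈ bx (L t)} |G (v-u) - G v| ≤ chK t + δ fG (L t) ≤ (1 + 2 Cd δ) chK t`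
  (`u ∈ bx (L s) ⊆ bx (L (t-1))`, `shr`); for `s > t`: `G (v - u) |bx (L t)| ≤ δ ch t ≤ δ Cd chK t` (`far`); for `s = t`: `≤ fG (2 L t) ≤ 4^(d+1) fG (L t) ≤ 4^(d+1) 2 Cd chK t`.  Total
  `≤ (1/T²) (T(T-1)/2 (1 + 2 Cd δ + Cd δ) + T 2 Cd 4^(d+1)) ≤ (1/2)(1 + 3 Cd δ) + 2 Cd 4^(d+1)/T`.
-/

set_option autoImplicit false

open Finset Filter Topology

namespace H82.IC

variable {d : ℕ}

noncomputable def AnK (l L : ℕ → ℕ) (i : Fin d) (ε : Fin d → Bool) (t : ℕ) : Finset (Vx d) :=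
  open Classical in (bx d (L t) \ bx d (l t)).filter (fun u => u ∈ cone i ε)

noncomputable def BK (l L : ℕ → ℕ) (i : Fin d) (ε : Fin d → Bool) (T : ℕ) : Finset (Vx d) :=
  open Classical in (Finset.range T).biUnion (AnK l L i ε)

noncomputable def beK (G : Vx d → ℝ) (l L : ℕ → ℕ) (i : Fin d) (ε : Fin d → Bool) (T : ℕ)
    (u : Vx d) : ℝ :=
  open Classical in
  ∑ t ∈ Finset.range T, (if u ∈ AnK l L i ε t then 1 / ((T : ℝ) * ∑ v ∈ AnK l L i ε t, G v) else 0)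

/-- `Cd = d 2^d d^d`. -/
noncomputable def Cd (d : ℕ) : ℝ := (d : ℝ) * 2 ^ d * (d : ℝ) ^ d

theorem VB2_sub (l L : ℕ → ℕ) (i : Fin d) (ε : Fin d → Bool) (t : ℕ) :
    AnK l L i ε t ⊆ An d l L t := by
  classical
  intro u hu
  unfold AnK at hu
  exact (Finset.mem_filter.1 hu).1

theorem VB2_mem (l L : ℕ → ℕ) (i : Fin d) (ε : Fin d → Bool) (t : ℕ) (u : Vx d) :
    u ∈ AnK l L i ε t ↔ u ∈ cone i ε ∧ l t < nm u ∧ nm u ≤ L t := by
  classical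
  unfold AnK
  rw [Finset.mem_filter, and_comm]
  exact and_congr_right fun _ => VB_mem l L t u

theorem mem_BK (l L : ℕ → ℕ) (i : Fin d) (ε : Fin d → Bool) (T : ℕ) (u : Vx d) :
    u ∈ BK l L i ε T ↔ u ∈ cone i ε ∧ ∃ t, t < T ∧ l t < nm u ∧ nm u ≤ L t := by
  unfold BK
  rw [Finset.mem_biUnion]
  constructor
  · rintro ⟨t, ht, hu⟩
    obtain ⟨h1, h2⟩ := (VB2_mem l L i ε t u).1 hu
    exact ⟨h1, t, Finset.mem_range.1 ht, h2⟩
  · rintro ⟨h1, t, ht, h2⟩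
    exact ⟨t, Finset.mem_range.2 ht, (VB2_mem l L i ε t u).2 ⟨h1, h2⟩⟩

theorem VB2_Cd0 (d : ℕ) : 0 ≤ Cd d := by
  unfold Cd
  positivity

theorem VB2_ch (hd : 2 ≤ d) (G : Vx d → ℝ) (hG : Mms G) {δ : ℝ}
    {l L : ℕ → ℕ} (h : Sca2 G δ l L) (i : Fin d) (ε : Fin d → Bool) (t : ℕ) :
    fG G (L t) - fG G (l t) ≤ Cd d * ∑ v ∈ AnK l L i ε t, G v := by
  rw [← VB_An_sum h.toSca t]
  exact cone_mass hd G hG i ε (l t) (L t)

theorem VB2_pos (hd : 2 ≤ d) (G : Vx d → ℝ) (hG : Mms G) {δ : ℝ} (hδ1 : δ ≤ 1 / 2)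
    {l L : ℕ → ℕ} (h : Sca2 G δ l L) (i : Fin d) (ε : Fin d → Bool) (t : ℕ) :
    0 < ∑ v ∈ AnK l L i ε t, G v := by
  have h1 := VB2_ch hd G hG h i ε t
  have h2 := VB_chpos hδ1 h.toSca t
  have h3 : 0 ≤ ∑ v ∈ AnK l L i ε t, G v := Finset.sum_nonneg fun v _ => hG.nonneg v
  rcases h3.lt_or_eq with h4 | h4
  · exact h4
  · rw [← h4, mul_zero] at h1
    linarith

theorem VB2_f (hd : 2 ≤ d) (G : Vx d → ℝ) (hG : Mms G) {δ : ℝ} (hδ1 : δ ≤ 1 / 2)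
    {l L : ℕ → ℕ} (h : Sca2 G δ l L) (i : Fin d) (ε : Fin d → Bool) (t : ℕ) :
    fG G (L t) ≤ 2 * (Cd d * ∑ v ∈ AnK l L i ε t, G v) := by
  have h1 := VB2_ch hd G hG h i ε t
  have h2 := VB_ch h.toSca t
  have h3 := h.pos t
  have h4 : 1 / 2 * fG G (L t) ≤ (1 - δ) * fG G (L t) :=
    mul_le_mul_of_nonneg_right (by linarith) h3.le
  linarith

theorem beK_nonneg (hd : 2 ≤ d) (G : Vx d → ℝ) (hG : Mms G) {δ : ℝ} (hδ : 0 < δ) (hδ1 : δ ≤ 1 / 2)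
    {l L : ℕ → ℕ} (h : Sca2 G δ l L) (i : Fin d) (ε : Fin d → Bool) (T : ℕ) (u : Vx d) :
    0 ≤ beK G l L i ε T u := by
  unfold beK
  refine Finset.sum_nonneg fun t _ => ?_
  split_ifs
  · have := VB2_pos hd G hG hδ1 h i ε t
    positivity
  · exact le_rfl

theorem VB2_sum (A : ℕ → Finset (Vx d)) (T : ℕ) (c : ℕ → ℝ) (F : Vx d → ℝ) :
    ∑ u ∈ (Finset.range T).biUnion A, (∑ t ∈ Finset.range T, (if u ∈ A t then c t else 0)) * F u =
      ∑ t ∈ Finset.range T, c t * ∑ u ∈ A t, F u := by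
  simp_rw [Finset.sum_mul]
  rw [Finset.sum_comm]
  refine Finset.sum_congr rfl fun t ht => ?_
  have hsub : A t ⊆ (Finset.range T).biUnion A := Finset.subset_biUnion_of_mem A ht
  have h1 : ∀ u, (if u ∈ A t then c t else 0) * F u =
      if u ∈ A t then c t * F u else 0 := by
    intro u
    rw [ite_mul, zero_mul]
  rw [Finset.sum_congr rfl fun u _ => h1 u, ← Finset.sum_filter, Finset.mul_sum]
  refine Finset.sum_congr ?_ fun _ _ => rfl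
  ext u
  rw [Finset.mem_filter]
  exact ⟨fun hu => hu.2, fun hu => ⟨hsub hu, hu⟩⟩

theorem VB2_sumK (l L : ℕ → ℕ) (i : Fin d) (ε : Fin d → Bool) (T : ℕ) (c : ℕ → ℝ)
    (F : Vx d → ℝ) :
    ∑ u ∈ BK l L i ε T, (∑ t ∈ Finset.range T, (if u ∈ AnK l L i ε t then c t else 0)) * F u =
      ∑ t ∈ Finset.range T, c t * ∑ u ∈ AnK l L i ε t, F u :=
  VB2_sum (AnK l L i ε) T c F

theorem beK_sum (hd : 2 ≤ d) (G : Vx d → ℝ) (hG : Mms G) {δ : ℝ} (hδ : 0 < δ) (hδ1 : δ ≤ 1 / 2)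
    {l L : ℕ → ℕ} (h : Sca2 G δ l L) (i : Fin d) (ε : Fin d → Bool) (T : ℕ) (hT : 1 ≤ T) :
    ∑ u ∈ BK l L i ε T, beK G l L i ε T u * G u = 1 := by
  have hT' : (0 : ℝ) < (T : ℝ) := by exact_mod_cast hT
  unfold beK
  rw [VB2_sumK]
  have h1 : ∀ t ∈ Finset.range T, 1 / ((T : ℝ) * ∑ v ∈ AnK l L i ε t, G v) *
      ∑ u ∈ AnK l L i ε t, G u = 1 / (T : ℝ) := by
    intro t _
    have := (VB2_pos hd G hG hδ1 h i ε t).ne'
    field_simp
  rw [Finset.sum_congr rfl h1, Finset.sum_const, nsmul_eq_mul, Finset.card_range]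
  field_simp

/-- the factor -/
noncomputable def VB2_k (d : ℕ) (δ : ℝ) (s t : ℕ) : ℝ :=
  if s < t then 1 + 2 * Cd d * δ else if t < s then Cd d * δ else 2 * 4 ^ (d + 1) * Cd d

theorem VB2_bound (hd : 2 ≤ d) (G : Vx d → ℝ) (hG : Mms G) {δ : ℝ} (hδ : 0 < δ) (hδ1 : δ ≤ 1 / 2)
    {l L : ℕ → ℕ} (h : Sca2 G δ l L) (i : Fin d) (ε : Fin d → Bool) (s t : ℕ) {u : Vx d}
    (hu : u ∈ AnK l L i ε s) :
    ∑ v ∈ AnK l L i ε t, G (v - u) ≤ VB2_k d δ s t * ∑ v ∈ AnK l L i ε t, G v := by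
  have hu0 : u ∈ An d l L s := VB2_sub l L i ε s hu
  have hsub : ∑ v ∈ AnK l L i ε t, G (v - u) ≤ ∑ v ∈ An d l L t, G (v - u) :=
    Finset.sum_le_sum_of_subset_of_nonneg (VB2_sub l L i ε t) fun x _ _ => hG.nonneg _
  have hb := VB_bound G hG.nonneg hδ hδ1 h.toSca s t hu0
  have hch := VB2_ch hd G hG h i ε t
  unfold VB_k at hb
  unfold VB2_k
  rcases lt_trichotomy s t with hst | hst | hst
  · rw [if_pos hst]
    obtain ⟨r, rfl⟩ : ∃ r, t = r + 1 := ⟨t - 1, by omega⟩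
    have hur : u ∈ bx d (L r) := by
      have h1 := ((VB_mem l L s u).1 hu0).2
      have h3 : L s ≤ L r := VB_LL h.toSca (by omega)
      exact mem_bx.2 (h1.trans h3)
    have h1 := h.shr r u hur
    have h2 : ∑ v ∈ AnK l L i ε (r + 1), G (v - u) ≤
        ∑ v ∈ AnK l L i ε (r + 1), G v + ∑ v ∈ AnK l L i ε (r + 1), |G (v - u) - G v| := by
      rw [← Finset.sum_add_distrib]
      refine Finset.sum_le_sum fun v _ => ?_
      have := le_abs_self (G (v - u) - G v)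
      linarith
    have h3 : ∑ v ∈ AnK l L i ε (r + 1), |G (v - u) - G v| ≤
        ∑ v ∈ bx d (L (r + 1)), |G (v - u) - G v| := by
      refine Finset.sum_le_sum_of_subset_of_nonneg ?_ fun x _ _ => abs_nonneg _
      exact (VB2_sub l L i ε (r + 1)).trans Finset.sdiff_subset
    have h4 := VB2_f hd G hG hδ1 h i ε (r + 1)
    have h5 := mul_le_mul_of_nonneg_left h4 hδ.le
    linarith
  · subst hst
    rw [if_neg (lt_irrefl _), if_neg (lt_irrefl _)] at hb ⊢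
    have h1 := mul_le_mul_of_nonneg_left hch (by positivity : (0 : ℝ) ≤ 2 * 4 ^ (d + 1))
    linarith
  · rw [if_neg (by omega), if_pos hst] at hb ⊢
    have h1 := mul_le_mul_of_nonneg_left hch hδ.le
    linarith

theorem VB2_ksum {δ : ℝ} (hδ : 0 < δ) (T : ℕ) :
    ∑ s ∈ Finset.range T, ∑ t ∈ Finset.range T, VB2_k d δ s t ≤
      (T : ℝ) ^ 2 * ((1 / 2) * (1 + 3 * Cd d * δ)) + (T : ℝ) * (2 * Cd d * 4 ^ (d + 1)) := by
  have hC := VB2_Cd0 d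
  have hCδ : 0 ≤ Cd d * δ := mul_nonneg hC hδ.le
  have h1 : ∑ s ∈ Finset.range T, ∑ t ∈ Finset.range T, VB2_k d δ s t =
      ∑ s ∈ Finset.range T, ∑ t ∈ Finset.range T, VB2_k d δ t s := Finset.sum_comm
  have h2 : ∑ s ∈ Finset.range T, ∑ t ∈ Finset.range T, VB2_k d δ s t =
      (1 / 2) * ∑ s ∈ Finset.range T, ∑ t ∈ Finset.range T, (VB2_k d δ s t + VB2_k d δ t s) := by
    simp only [Finset.sum_add_distrib]
    rw [← h1]
    ring
  have h3 : ∀ s t : ℕ, VB2_k d δ s t + VB2_k d δ t s ≤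
      (1 + 3 * Cd d * δ) + if s = t then 4 * Cd d * 4 ^ (d + 1) else 0 := by
    intro s t
    unfold VB2_k
    rcases lt_trichotomy s t with h | h | h
    · rw [if_pos h, if_neg (by omega), if_pos h, if_neg h.ne]
      linarith
    · subst h
      rw [if_neg (lt_irrefl _), if_neg (lt_irrefl _), if_pos rfl]
      linarith
    · rw [if_neg (by omega), if_pos h, if_pos h, if_neg h.ne']
      linarith
  rw [h2]
  have h4 : ∑ s ∈ Finset.range T, ∑ t ∈ Finset.range T, (VB2_k d δ s t + VB2_k d δ t s) ≤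
      ∑ s ∈ Finset.range T, ∑ t ∈ Finset.range T, ((1 + 3 * Cd d * δ) +
        if s = t then 4 * Cd d * 4 ^ (d + 1) else 0) :=
    Finset.sum_le_sum fun s _ => Finset.sum_le_sum fun t _ => h3 s t
  have h5 : ∑ s ∈ Finset.range T, ∑ t ∈ Finset.range T, ((1 + 3 * Cd d * δ) +
        if s = t then 4 * Cd d * 4 ^ (d + 1) else 0) =
      (T : ℝ) ^ 2 * (1 + 3 * Cd d * δ) + (T : ℝ) * (4 * Cd d * 4 ^ (d + 1)) := by
    simp only [Finset.sum_add_distrib, Finset.sum_const, nsmul_eq_mul, Finset.sum_ite_eq,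
      Finset.card_range]
    rw [Finset.sum_congr rfl fun s hs => if_pos hs, Finset.sum_const, nsmul_eq_mul,
      Finset.card_range]
    ring
  rw [h5] at h4
  linarith

theorem beK_double (hd : 2 ≤ d) (G : Vx d → ℝ) (hG : Mms G) {δ : ℝ} (hδ : 0 < δ) (hδ1 : δ ≤ 1 / 2)
    {l L : ℕ → ℕ} (h : Sca2 G δ l L) (i : Fin d) (ε : Fin d → Bool) (T : ℕ) (hT : 1 ≤ T) :
    ∑ u ∈ BK l L i ε T, ∑ v ∈ BK l L i ε T,
      beK G l L i ε T u * beK G l L i ε T v * (G (v - u) * G u) ≤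
      (1 / 2) * (1 + 3 * Cd d * δ) + 2 * Cd d * 4 ^ (d + 1) / (T : ℝ) := by
  have hT' : (0 : ℝ) < (T : ℝ) := by exact_mod_cast hT
  obtain ⟨c, hc⟩ : ∃ c : ℕ → ℝ, c = fun t => 1 / ((T : ℝ) * ∑ v ∈ AnK l L i ε t, G v) :=
    ⟨_, rfl⟩
  have hbe : ∀ u, beK G l L i ε T u =
      ∑ t ∈ Finset.range T, (if u ∈ AnK l L i ε t then c t else 0) := by
    intro u
    rw [hc]
    rfl
  have hc0 : ∀ t, 0 ≤ c t := by
    intro t
    rw [hc]
    have := VB2_pos hd G hG hδ1 h i ε t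
    positivity
  have hcc : ∀ t, c t * (∑ v ∈ AnK l L i ε t, G v) = 1 / (T : ℝ) := by
    intro t
    rw [hc]
    have := (VB2_pos hd G hG hδ1 h i ε t).ne'
    field_simp
  have h1 : ∑ u ∈ BK l L i ε T, ∑ v ∈ BK l L i ε T,
      beK G l L i ε T u * beK G l L i ε T v * (G (v - u) * G u) =
      ∑ s ∈ Finset.range T, c s * ∑ u ∈ AnK l L i ε s,
        (G u * ∑ t ∈ Finset.range T, c t * ∑ v ∈ AnK l L i ε t, G (v - u)) := by
    rw [← VB2_sumK]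
    refine Finset.sum_congr rfl fun u _ => ?_
    rw [← VB2_sumK, ← hbe u, Finset.mul_sum, Finset.mul_sum]
    refine Finset.sum_congr rfl fun v _ => ?_
    rw [← hbe v]
    ring
  rw [h1]
  have h2 : ∀ s ∈ Finset.range T, c s * ∑ u ∈ AnK l L i ε s,
      (G u * ∑ t ∈ Finset.range T, c t * ∑ v ∈ AnK l L i ε t, G (v - u)) ≤
      ∑ t ∈ Finset.range T, 1 / (T : ℝ) * (1 / (T : ℝ)) * VB2_k d δ s t := by
    intro s _
    have h3 : ∀ u ∈ AnK l L i ε s,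
        G u * ∑ t ∈ Finset.range T, c t * ∑ v ∈ AnK l L i ε t, G (v - u) ≤
        G u * ∑ t ∈ Finset.range T, 1 / (T : ℝ) * VB2_k d δ s t := by
      intro u hu
      refine mul_le_mul_of_nonneg_left (Finset.sum_le_sum fun t _ => ?_) (hG.nonneg u)
      refine (mul_le_mul_of_nonneg_left (VB2_bound hd G hG hδ hδ1 h i ε s t hu) (hc0 t)).trans
        (le_of_eq ?_)
      rw [← hcc t]
      ring
    refine (mul_le_mul_of_nonneg_left (Finset.sum_le_sum h3) (hc0 s)).trans (le_of_eq ?_)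
    rw [← Finset.sum_mul, ← mul_assoc, hcc, Finset.mul_sum]
    refine Finset.sum_congr rfl fun t _ => by ring
  refine (Finset.sum_le_sum h2).trans ?_
  simp only [← Finset.mul_sum]
  have h5 := VB2_ksum (d := d) (δ := δ) hδ T
  have h6 : 0 ≤ 1 / (T : ℝ) * (1 / (T : ℝ)) := by positivity
  refine (mul_le_mul_of_nonneg_left h5 h6).trans (le_of_eq ?_)
  field_simp

end H82.IC
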