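import Pool.Agent.H82.IC.IK
import Pool.Agent.H82.IC.VB2
import Pool.Agent.H82.IC.HK

/-!
# XL: existence of the two point limit `lim_{x → ∞} μ[dw F | 0 ↔ x]`

`G x = μ (cn 0 x) > 0` (`G_pos`), `Mms G` (`mms_G`), `μ (cn u v) = G (v - u)` (`G_shift`), `Tendsto G cofinite 0`, not summable.  `ra x = μ (dw F ∩ cn 0 x)/G x ∈ [0,1]`.
* `sector_est`: for `κ > 0`, `i`, `ε` there are `c ∈ ℝ` and `R` with `|ra x - c| ≤ κ` for all `x` with `nm x ≥ R`, `0 ≤ sgz (ε j) * x j` for all `j`, `|x i| = nm x`.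
  Proof.  Choose `δ`, `T` with `(1 + 3 Cd δ) + 4 Cd 4^(d+1)/T - 1 ≤ (κ/2)²`, `δ ≤ 1/2` (so that `2 * (beK_double bound) - 2 + 1 ≤ (κ/2)²`), let `K1` with `G (x - z) ≤ K1 G x` for all `x` and `z ∈ enF F` (FKG: `G z G (x - z) ≤ G x`:
  limit of `phiB_fkg` for the increasing events `cn 0 z`, `cn z x`; `K1 = max 1/G z`), `l0` with `2 K1 |enF F| G y ≤ κ/2` for all `y` with `nm y + r ≥ l0` (`r` = max `nm` on `enF F`), scales `exists_sca2` with this `l0`,
  `B = BK l L i ε T`, `R = d * L T + 1`, `c = ∑_{u ∈ B} beK u μ (dw F ∩ cn 0 u)`.  For `x` in the sector with `nm x ≥ R` and `u ∈ B`: `∑ |u_j| ≤ d L T ≤ |x i|`, so `G x ≤ G (x - u)` (`cone_le`); put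
  `α u = beK u * G x / G (x - u) ≤ beK u`.  `inf_key`: left side `|μ (dw F ∩ cn 0 x) - c G x|`.  Right side: `∑∑ α u α v G(v-u)(G u G(x-v) + G v G(x-u)) = G x ∑∑ (α u beK v G(v-u) G u + beK u α v G(v-u) G v) ≤ 2 G x ∑∑ beK u beK v G(v-u) G u`
  (symmetry `G(-y) = G y`), `∑ α u G u G (x-u) = G x ∑ beK u G u = G x`, so the square root is `≤ G x √(2 (beK_double) - 2 + 1) ≤ (κ/2) G x`; second term:
  `2 ∑ α u G u ∑_z G(z-u) G(x-z) ≤ 2 K1 G x ∑ beK u G u ∑_z G (z-u) ≤ (κ/2) G x`.  Divide by `G x`.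
* `x_limit`: let `κ > 0`, take the constants `c(i,ε)` and a common `R`.  Sectors `(i,ε)`, `(j,ε)` share the points `x = n (sgz ε_k)_k`; sectors `(i,ε)`, `(i,ε')` with `ε_i = ε'_i` share `x = n sgz(ε_i) e_i`.  So
  `|c(i,ε) - c(j,ε)| ≤ 2κ`, `|c(i,ε) - c(i,ε')| ≤ 2κ` if `ε_i = ε'_i`; going from `(i,ε)` to `(j,ε')` takes at most 4 such steps (`d ≥ 2`: change all signs except the one of `i`, pass to an index `k ≠ i`, change the sign of
  coordinate `i`, pass to `j`).  Every `x` belongs to a sector.  So `|ra x - ra y| ≤ 10 κ` for all `x, y` with `nm ≥ R`: `ra` is Cauchy along `cofinite` (`{x | nm x < R}` is finite), hence converges.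
-/

set_option autoImplicit false

open Finset MeasureTheory Filter Topology

namespace H82.IC

variable {d : ℕ}

theorem XL_up_empty : (up (∅ : Finset (Ed d)) : Set (Cf d)) = Set.univ := by
  ext ω
  constructor
  · intro _
    trivial
  · intro _ e he
    exact absurd he (Finset.notMem_empty e)

theorem XL_tend (hd : 2 ≤ d) {β : ℝ} (hβ : 0 ≤ β) {μ : Measure (Cf d)} (hμ : IsLim β false μ)
    (x y : Vx d) :
    Tendsto (fun m => phiB β m false (cn x y)) atTop (𝓝 (μ.real (cn x y))) := by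
  have h := free_tendsto hd hβ hμ ∅ x y
  rw [XL_up_empty, Set.inter_univ] at h
  exact h

theorem fkg_cn (hd : 2 ≤ d) {β : ℝ} (hβ : 0 ≤ β) {μ : Measure (Cf d)} (hμ : IsLim β false μ)
    (z x : Vx d) : μ.real (cn 0 z) * μ.real (cn z x) ≤ μ.real (cn 0 x) := by
  refine le_of_tendsto_of_tendsto' ((XL_tend hd hβ hμ 0 z).mul (XL_tend hd hβ hμ z x))
    (XL_tend hd hβ hμ 0 x) fun m => ?_
  refine (phiB_fkg hβ m (inc_cn 0 z) (inc_cn z x)).trans (phiB_mono_set hβ m false ?_)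
  rintro ω ⟨h1, h2⟩
  exact conn_trans (Zl d) h1 h2

/-- elementary facts on the sup norm. -/
theorem XL_le (x : Vx d) (j : Fin d) : |x j| ≤ (nm x : ℤ) := by
  have h := G1_le_nm x j
  rw [Int.abs_eq_natAbs]
  exact_mod_cast h

theorem XL_sum (x : Vx d) (n : ℕ) (h : nm x ≤ n) : ∑ j, |x j| ≤ ((d * n : ℕ) : ℤ) := by
  have h1 : ∑ j : Fin d, |x j| ≤ ∑ j : Fin d, (n : ℤ) := by
    refine Finset.sum_le_sum fun j _ => (XL_le x j).trans ?_
    exact_mod_cast h
  rw [Finset.sum_const, Finset.card_univ, Fintype.card_fin, nsmul_eq_mul] at h1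
  push_cast
  exact h1

theorem XL_main {G m be : Vx d → ℝ} (hG0 : ∀ x, 0 < G x) (hneg : ∀ x, G (-x) = G x)
    (B E : Finset (Vx d)) (hbe : ∀ u, 0 ≤ be u) (κ K1 ε' S : ℝ) (hκ : 0 < κ)
    (hε' : 0 ≤ ε')
    (hsum : ∑ u ∈ B, be u * G u = 1)
    (hdbl : ∑ u ∈ B, ∑ v ∈ B, be u * be v * (G (v - u) * G u) ≤ S)
    (hS : 2 * S - 1 ≤ (κ / 2) ^ 2)
    (hE : 2 * K1 * E.card * ε' ≤ κ / 2)
    (hfar : ∀ u ∈ B, ∀ z ∈ E, G (z - u) ≤ ε')
    (x : Vx d) (hxK : ∀ z ∈ E, G (x - z) ≤ K1 * G x)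
    (hxu : ∀ u ∈ B, G x ≤ G (x - u))
    (key : ∀ α : Vx d → ℝ, (∀ u, 0 ≤ α u) →
      |m x - ∑ u ∈ B, α u * (m u * G (x - u))| ≤
      Real.sqrt (G x * ((∑ u ∈ B, ∑ v ∈ B, α u * α v * (G (v - u) *
        (G u * G (x - v) + G v * G (x - u)))) -
      2 * (∑ u ∈ B, α u * (G u * G (x - u))) + G x)) +
      2 * (∑ u ∈ B, α u * (G u * ∑ z ∈ E, G (z - u) * G (x - z)))) :
    |m x / G x - ∑ u ∈ B, be u * m u| ≤ κ := by
  have hGx := hG0 x
  obtain ⟨α, hα⟩ : ∃ α : Vx d → ℝ, α = fun u => be u * G x / G (x - u) := ⟨_, rfl⟩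
  have hα0 : ∀ u, 0 ≤ α u := by
    intro u
    rw [hα]
    exact div_nonneg (mul_nonneg (hbe u) hGx.le) (hG0 _).le
  have hα1 : ∀ u, α u * G (x - u) = be u * G x := by
    intro u
    rw [hα]
    exact div_mul_cancel₀ _ (hG0 _).ne'
  have hα2 : ∀ u ∈ B, α u ≤ be u := by
    intro u hu
    rw [hα]
    refine (div_le_iff₀ (hG0 _)).2 (mul_le_mul_of_nonneg_left (hxu u hu) (hbe u))
  have h := key α hα0
  have e1 : ∑ u ∈ B, α u * (m u * G (x - u)) = G x * ∑ u ∈ B, be u * m u := by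
    rw [Finset.mul_sum]
    refine Finset.sum_congr rfl fun u _ => ?_
    have := hα1 u
    calc α u * (m u * G (x - u)) = (α u * G (x - u)) * m u := by ring
      _ = _ := by rw [this]; ring
  have e2 : ∑ u ∈ B, α u * (G u * G (x - u)) = G x := by
    calc ∑ u ∈ B, α u * (G u * G (x - u)) = ∑ u ∈ B, G x * (be u * G u) := by
          refine Finset.sum_congr rfl fun u _ => ?_
          have := hα1 u
          calc α u * (G u * G (x - u)) = (α u * G (x - u)) * G u := by ring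
            _ = _ := by rw [this]; ring
      _ = G x := by rw [← Finset.mul_sum, hsum, mul_one]
  have e3 : ∑ u ∈ B, ∑ v ∈ B, α u * α v * (G (v - u) * (G u * G (x - v) + G v * G (x - u))) ≤
      G x * (2 * S) := by
    have s1 : ∑ u ∈ B, ∑ v ∈ B, α u * α v *
        (G (v - u) * (G u * G (x - v) + G v * G (x - u))) ≤
        ∑ u ∈ B, ∑ v ∈ B, (G x * (be u * be v * (G (v - u) * G u)) +
          G x * (be v * be u * (G (u - v) * G v))) := by
      refine Finset.sum_le_sum fun u hu => Finset.sum_le_sum fun v hv => ?_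
      have a1 := hα1 u
      have a2 := hα1 v
      have a3 := hα2 u hu
      have a4 := hα2 v hv
      have a5 : G (u - v) = G (v - u) := by rw [← hneg (v - u), neg_sub]
      rw [a5]
      have b1 : α u * α v * (G (v - u) * (G u * G (x - v) + G v * G (x - u))) =
          α u * ((α v * G (x - v)) * (G (v - u) * G u)) +
          α v * ((α u * G (x - u)) * (G (v - u) * G v)) := by ring
      rw [b1, a1, a2]
      have b2 : α u * (be v * G x * (G (v - u) * G u)) ≤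
          be u * (be v * G x * (G (v - u) * G u)) := by
        refine mul_le_mul_of_nonneg_right a3 ?_
        exact mul_nonneg (mul_nonneg (hbe _) hGx.le) (mul_nonneg (hG0 _).le (hG0 _).le)
      have b3 : α v * (be u * G x * (G (v - u) * G v)) ≤
          be v * (be u * G x * (G (v - u) * G v)) := by
        refine mul_le_mul_of_nonneg_right a4 ?_
        exact mul_nonneg (mul_nonneg (hbe _) hGx.le) (mul_nonneg (hG0 _).le (hG0 _).le)
      linarith
    have s2 : ∑ u ∈ B, ∑ v ∈ B, (G x * (be u * be v * (G (v - u) * G u)) +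
          G x * (be v * be u * (G (u - v) * G v))) =
        G x * ∑ u ∈ B, ∑ v ∈ B, be u * be v * (G (v - u) * G u) +
        G x * ∑ u ∈ B, ∑ v ∈ B, be u * be v * (G (v - u) * G u) := by
      simp only [Finset.sum_add_distrib]
      congr 1
      · rw [Finset.mul_sum]
        exact Finset.sum_congr rfl fun u _ => by rw [Finset.mul_sum]
      · rw [Finset.sum_comm, Finset.mul_sum]
        exact Finset.sum_congr rfl fun u _ => by rw [Finset.mul_sum]
    rw [s2] at s1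
    refine s1.trans ?_
    have := mul_le_mul_of_nonneg_left hdbl hGx.le
    linarith
  have e4 : Real.sqrt (G x * ((∑ u ∈ B, ∑ v ∈ B, α u * α v * (G (v - u) *
        (G u * G (x - v) + G v * G (x - u)))) -
      2 * (∑ u ∈ B, α u * (G u * G (x - u))) + G x)) ≤ G x * (κ / 2) := by
    rw [e2]
    have h0 : 0 ≤ G x * (κ / 2) := mul_nonneg hGx.le (by linarith)
    rw [← Real.sqrt_sq h0]
    refine Real.sqrt_le_sqrt ?_
    have h1 : G x * ((∑ u ∈ B, ∑ v ∈ B, α u * α v * (G (v - u) *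
        (G u * G (x - v) + G v * G (x - u)))) - 2 * G x + G x) ≤
        G x * (G x * (2 * S - 1)) := by
      refine mul_le_mul_of_nonneg_left ?_ hGx.le
      have : G x * (2 * S - 1) = G x * (2 * S) - 2 * G x + G x := by ring
      rw [this]
      linarith
    refine h1.trans ?_
    have h2 : G x * (G x * (2 * S - 1)) ≤ G x * (G x * (κ / 2) ^ 2) :=
      mul_le_mul_of_nonneg_left (mul_le_mul_of_nonneg_left hS hGx.le) hGx.le
    refine h2.trans (le_of_eq (by ring))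
  have e5 : 2 * (∑ u ∈ B, α u * (G u * ∑ z ∈ E, G (z - u) * G (x - z))) ≤ G x * (κ / 2) := by
    have s1 : ∑ u ∈ B, α u * (G u * ∑ z ∈ E, G (z - u) * G (x - z)) ≤
        ∑ u ∈ B, (be u * G u) * ((E.card : ℝ) * (ε' * (K1 * G x))) := by
      refine Finset.sum_le_sum fun u hu => ?_
      have t1 : ∑ z ∈ E, G (z - u) * G (x - z) ≤ (E.card : ℝ) * (ε' * (K1 * G x)) := by
        have := Finset.sum_le_card_nsmul E (fun z => G (z - u) * G (x - z)) (ε' * (K1 * G x))
          (fun z hz => mul_le_mul (hfar u hu z hz) (hxK z hz) (hG0 _).le hε')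
        rw [nsmul_eq_mul] at this
        exact this
      have t0 : 0 ≤ ∑ z ∈ E, G (z - u) * G (x - z) :=
        Finset.sum_nonneg fun z _ => mul_nonneg (hG0 _).le (hG0 _).le
      calc α u * (G u * ∑ z ∈ E, G (z - u) * G (x - z))
          ≤ be u * (G u * ∑ z ∈ E, G (z - u) * G (x - z)) :=
            mul_le_mul_of_nonneg_right (hα2 u hu) (mul_nonneg (hG0 _).le t0)
        _ ≤ be u * (G u * ((E.card : ℝ) * (ε' * (K1 * G x)))) :=
            mul_le_mul_of_nonneg_left (mul_le_mul_of_nonneg_left t1 (hG0 _).le) (hbe u)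
        _ = _ := by ring
    rw [← Finset.sum_mul, hsum, one_mul] at s1
    have s2 : G x * (2 * K1 * E.card * ε') ≤ G x * (κ / 2) :=
      mul_le_mul_of_nonneg_left hE hGx.le
    have s3 : 2 * ((E.card : ℝ) * (ε' * (K1 * G x))) = G x * (2 * K1 * E.card * ε') := by ring
    linarith
  rw [e1] at h
  have h6 : |m x - G x * ∑ u ∈ B, be u * m u| ≤ κ * G x := by
    refine h.trans ?_
    have : κ * G x = G x * (κ / 2) + G x * (κ / 2) := by ring
    rw [this]
    exact add_le_add e4 e5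
  have e7 : m x / G x - ∑ u ∈ B, be u * m u = (m x - G x * ∑ u ∈ B, be u * m u) / G x := by
    field_simp
  rw [e7, abs_div, abs_of_pos hGx]
  exact (div_le_iff₀ hGx).2 h6

theorem XL_choose (d : ℕ) (κ : ℝ) (hκ : 0 < κ) :
    ∃ (δ : ℝ) (T : ℕ), 0 < δ ∧ δ ≤ 1 / 2 ∧ 1 ≤ T ∧
      2 * ((1 / 2) * (1 + 3 * Cd d * δ) + 2 * Cd d * 4 ^ (d + 1) / (T : ℝ)) - 1 ≤
        (κ / 2) ^ 2 := by
  have hC : 0 ≤ Cd d := by
    unfold Cd
    positivity
  obtain ⟨q, hq⟩ : ∃ q : ℝ, q = (κ / 2) ^ 2 / 2 := ⟨_, rfl⟩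
  have hq0 : 0 < q := by rw [hq]; positivity
  have hδ : 0 < min (1 / 2) (q / (3 * Cd d + 1)) := lt_min (by norm_num) (by positivity)
  obtain ⟨T, hT⟩ := exists_nat_ge (4 * Cd d * 4 ^ (d + 1) / q)
  refine ⟨min (1 / 2) (q / (3 * Cd d + 1)), T + 1, hδ, min_le_left _ _, by omega, ?_⟩
  have h1 : 3 * Cd d * min (1 / 2) (q / (3 * Cd d + 1)) ≤ q := by
    have : min (1 / 2) (q / (3 * Cd d + 1)) ≤ q / (3 * Cd d + 1) := min_le_right _ _
    calc 3 * Cd d * min (1 / 2) (q / (3 * Cd d + 1)) ≤ 3 * Cd d * (q / (3 * Cd d + 1)) :=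
          mul_le_mul_of_nonneg_left this (by positivity)
      _ = (3 * Cd d) / (3 * Cd d + 1) * q := by ring
      _ ≤ 1 * q := by
          refine mul_le_mul_of_nonneg_right ?_ hq0.le
          rw [div_le_one (by positivity)]
          linarith
      _ = q := one_mul q
  have h2 : 4 * Cd d * 4 ^ (d + 1) / ((T + 1 : ℕ) : ℝ) ≤ q := by
    rw [div_le_iff₀ hq0] at hT
    rw [div_le_iff₀ (by positivity)]
    push_cast
    linarith
  have h3 : 2 * (2 * Cd d * 4 ^ (d + 1) / ((T + 1 : ℕ) : ℝ)) =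
      4 * Cd d * 4 ^ (d + 1) / ((T + 1 : ℕ) : ℝ) := by ring
  have h4 : (κ / 2) ^ 2 = q + q := by rw [hq]; ring
  rw [h4]
  linarith

theorem sector_est (hd : 2 ≤ d) {β : ℝ} (hβ : 0 < β) {μ : Measure (Cf d)} (hμ : IsLim β false μ)
    (hlim : Tendsto (fun x : Vx d => μ.real (cn 0 x)) cofinite (𝓝 0))
    (hχ : ¬ Summable (fun x : Vx d => μ.real (cn 0 x))) (F : Finset (Ed d))
    (κ : ℝ) (hκ : 0 < κ) (i : Fin d) (ε : Fin d → Bool) :
    ∃ (c : ℝ) (R : ℕ), ∀ x : Vx d, R ≤ nm x → (∀ j, 0 ≤ sgz (ε j) * x j) → |x i| = (nm x : ℤ) →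
      |μ.real (dw F ∩ cn 0 x) / μ.real (cn 0 x) - c| ≤ κ := by
  have := hμ.1
  have hMms := mms_G hd hβ.le hμ
  obtain ⟨δ, T, hδ, hδ1, hT, hS⟩ := XL_choose d κ hκ
  obtain ⟨K1, hK1⟩ : ∃ K1 : ℝ, K1 = ∑ z ∈ enF F, 1 / μ.real (cn 0 z) := ⟨_, rfl⟩
  have hG0 : ∀ z : Vx d, 0 < μ.real (cn 0 z) := fun z => G_pos hβ hμ 0 z
  have hK10 : 0 ≤ K1 := by
    rw [hK1]
    exact Finset.sum_nonneg fun z _ => (div_pos one_pos (hG0 z)).le
  have hK1z : ∀ z ∈ enF F, ∀ x : Vx d, μ.real (cn 0 (x - z)) ≤ K1 * μ.real (cn 0 x) := by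
    intro z hz x
    have h1 := fkg_cn hd hβ.le hμ z x
    rw [G_shift hβ.le hμ z x] at h1
    have h2 : 1 / μ.real (cn 0 z) ≤ K1 := by
      rw [hK1]
      exact Finset.single_le_sum (f := fun z => 1 / μ.real (cn 0 z))
        (fun z _ => (div_pos one_pos (hG0 z)).le) hz
    have h3 : μ.real (cn 0 (x - z)) ≤ 1 / μ.real (cn 0 z) * μ.real (cn 0 x) := by
      rw [one_div, ← div_eq_inv_mul, le_div_iff₀ (hG0 z), mul_comm]
      exact h1
    exact h3.trans (mul_le_mul_of_nonneg_right h2 (hG0 x).le)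
  obtain ⟨ε', hε'⟩ : ∃ ε' : ℝ, ε' = κ / (4 * K1 * (enF F).card + 1) := ⟨_, rfl⟩
  have hden : 0 < 4 * K1 * ((enF F).card : ℝ) + 1 := by positivity
  have hε0 : 0 < ε' := by rw [hε']; exact div_pos hκ hden
  obtain ⟨n, hn⟩ := SC_far hlim hε0
  obtain ⟨r, hr⟩ : ∃ r, r = (enF F).sup nm := ⟨_, rfl⟩
  obtain ⟨l, L, hl0, hsca⟩ := exists_sca2 hd _ hMms hlim hχ δ hδ (by linarith) (n + r)
  refine ⟨∑ u ∈ BK l L i ε T, beK (fun x : Vx d => μ.real (cn 0 x)) l L i ε T u *
    μ.real (dw F ∩ cn 0 u), d * L T + 1, ?_⟩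
  intro x hx hxε hxi
  refine XL_main (G := fun x : Vx d => μ.real (cn 0 x)) (m := fun u => μ.real (dw F ∩ cn 0 u))
    (be := beK (fun x : Vx d => μ.real (cn 0 x)) l L i ε T) hG0 hMms.neg (BK l L i ε T) (enF F)
    (beK_nonneg hd _ hMms hδ hδ1 hsca i ε T) κ K1 ε' _ hκ hε0.le
    (beK_sum hd _ hMms hδ hδ1 hsca i ε T hT) (beK_double hd _ hMms hδ hδ1 hsca i ε T hT) hS
    ?_ ?_ x (fun z hz => hK1z z hz x) ?_ ?_
  · have h1 : 2 * K1 * ((enF F).card : ℝ) * ε' =
        (2 * K1 * ((enF F).card : ℝ)) / (4 * K1 * ((enF F).card : ℝ) + 1) * κ := by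
      rw [hε']
      ring
    rw [h1]
    have h2 : (2 * K1 * ((enF F).card : ℝ)) / (4 * K1 * ((enF F).card : ℝ) + 1) ≤ 1 / 2 := by
      rw [div_le_iff₀ hden]
      linarith
    have h3 := mul_le_mul_of_nonneg_right h2 hκ.le
    linarith
  · intro u hu z hz
    obtain ⟨-, t, -, h2, -⟩ := (mem_BK l L i ε T u).1 hu
    refine hn _ ?_
    have h3 := hl0 t
    have h4 : nm z ≤ r := by rw [hr]; exact Finset.le_sup (f := nm) hz
    have h5 : nm u ≤ nm (z - u) + nm z := by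
      have : u = z - (z - u) := by abel
      calc nm u = nm (z - (z - u)) := by rw [← this]
        _ ≤ nm z + nm (z - u) := nm_sub _ _
        _ = _ := add_comm _ _
    omega
  · intro u hu
    obtain ⟨h1, t, h2, -, h4⟩ := (mem_BK l L i ε T u).1 hu
    refine cone_le _ hMms i ε x u hxε h1 ?_
    have h5 : nm u ≤ L T := h4.trans (VB_LL hsca.toSca h2.le)
    refine (XL_sum u (L T) h5).trans ?_
    rw [hxi]
    have : d * L T ≤ nm x := by omega
    exact_mod_cast this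
  · intro α hα
    have h := inf_key hd hβ.le hμ F x (BK l L i ε T) α hα
    obtain ⟨G, hG⟩ : ∃ G : Vx d → ℝ, G = fun x => μ.real (cn 0 x) := ⟨_, rfl⟩
    have e' : ∀ u v : Vx d, μ.real (cn u v) = G (v - u) := fun u v => by
      rw [hG]
      exact G_shift hβ.le hμ u v
    simp only [e', sub_zero] at h
    rw [hG] at h
    exact h

theorem XL_sgz (b : Bool) : sgz b * sgz b = 1 := by
  unfold sgz
  cases b <;> simp

theorem XL_sgz_abs (b : Bool) : |sgz b| = 1 := by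
  unfold sgz
  cases b <;> simp

theorem XL_nm (x : Vx d) (i : Fin d) (n : ℕ) (hi : |x i| = (n : ℤ)) (h : ∀ j, |x j| ≤ (n : ℤ)) :
    nm x = n := by
  apply le_antisymm
  · rw [← mem_bx, mem_bx_abs]
    exact h
  · have := XL_le x i
    rw [hi] at this
    exact_mod_cast this

theorem XL_lim (hd : 2 ≤ d) (r : Vx d → ℝ)
    (hsec : ∀ κ : ℝ, 0 < κ → ∀ (i : Fin d) (ε : Fin d → Bool), ∃ (c : ℝ) (R : ℕ), ∀ x : Vx d,
      R ≤ nm x → (∀ j, 0 ≤ sgz (ε j) * x j) → |x i| = (nm x : ℤ) → |r x - c| ≤ κ) :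
    ∃ c : ℝ, Tendsto r cofinite (𝓝 c) := by
  have hpos : 0 < d := by omega
  have hmain : ∀ κ : ℝ, 0 < κ → ∃ (c : ℝ) (R : ℕ), ∀ x : Vx d, R ≤ nm x → |r x - c| ≤ 9 * κ := by
    intro κ hκ
    choose c R hcR using hsec κ hκ
    obtain ⟨N, hN⟩ : ∃ N : ℕ, ∀ i ε, R i ε ≤ N := by
      refine ⟨univ.sup (fun p : Fin d × (Fin d → Bool) => R p.1 p.2), fun i ε => ?_⟩
      exact Finset.le_sup (f := fun p : Fin d × (Fin d → Bool) => R p.1 p.2)
        (Finset.mem_univ (i, ε))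
    have s1 : ∀ (i j : Fin d) (ε : Fin d → Bool), |c i ε - c j ε| ≤ 2 * κ := by
      intro i j ε
      obtain ⟨x, hx⟩ : ∃ x : Vx d, x = fun k => (N : ℤ) * sgz (ε k) := ⟨_, rfl⟩
      have hk : ∀ k, |x k| = (N : ℤ) := by
        intro k
        rw [hx]
        show |(N : ℤ) * sgz (ε k)| = _
        rw [abs_mul, XL_sgz_abs, mul_one]
        exact abs_of_nonneg (Nat.cast_nonneg _)
      have hnm : nm x = N := XL_nm x i N (hk i) fun j => (hk j).le
      have hs : ∀ k, 0 ≤ sgz (ε k) * x k := by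
        intro k
        rw [hx]
        show 0 ≤ sgz (ε k) * ((N : ℤ) * sgz (ε k))
        have : sgz (ε k) * ((N : ℤ) * sgz (ε k)) = N * (sgz (ε k) * sgz (ε k)) := by ring
        rw [this, XL_sgz, mul_one]
        exact Nat.cast_nonneg _
      have a1 := hcR i ε x (by rw [hnm]; exact hN i ε) hs (by rw [hk, hnm])
      have a2 := hcR j ε x (by rw [hnm]; exact hN j ε) hs (by rw [hk, hnm])
      rw [abs_le] at a1 a2 ⊢
      constructor <;> linarith [a1.1, a1.2, a2.1, a2.2]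
    have s2 : ∀ (i : Fin d) (ε ε' : Fin d → Bool), ε i = ε' i → |c i ε - c i ε'| ≤ 2 * κ := by
      intro i ε ε' h
      obtain ⟨x, hx⟩ : ∃ x : Vx d, x = Pi.single i ((N : ℤ) * sgz (ε i)) := ⟨_, rfl⟩
      have hi : |x i| = (N : ℤ) := by
        rw [hx, Pi.single_eq_same, abs_mul, XL_sgz_abs, mul_one]
        exact abs_of_nonneg (Nat.cast_nonneg _)
      have hne : ∀ j, j ≠ i → x j = 0 := by
        intro j hj
        rw [hx, Pi.single_eq_of_ne hj]
      have hnm : nm x = N := XL_nm x i N hi fun j => by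
        by_cases hj : j = i
        · rw [hj, hi]
        · rw [hne j hj, abs_zero]
          exact Nat.cast_nonneg _
      have hs : ∀ (η : Fin d → Bool), η i = ε i → ∀ k, 0 ≤ sgz (η k) * x k := by
        intro η hη k
        by_cases hk : k = i
        · rw [hk, hη, hx, Pi.single_eq_same]
          have : sgz (ε i) * ((N : ℤ) * sgz (ε i)) = N * (sgz (ε i) * sgz (ε i)) := by ring
          rw [this, XL_sgz, mul_one]
          exact Nat.cast_nonneg _
        · rw [hne k hk, mul_zero]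
      have a1 := hcR i ε x (by rw [hnm]; exact hN i ε) (hs ε rfl) (by rw [hi, hnm])
      have a2 := hcR i ε' x (by rw [hnm]; exact hN i ε') (hs ε' h.symm) (by rw [hi, hnm])
      rw [abs_le] at a1 a2 ⊢
      constructor <;> linarith [a1.1, a1.2, a2.1, a2.2]
    have s3 : ∀ (i j : Fin d) (ε ε' : Fin d → Bool), |c i ε - c j ε'| ≤ 8 * κ := by
      intro i j ε ε'
      obtain ⟨k, hk⟩ : ∃ k : Fin d, k ≠ i := by
        have : Nontrivial (Fin d) := Fin.nontrivial_iff_two_le.2 hd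
        exact exists_ne i
      obtain ⟨ε1, hε1⟩ : ∃ ε1 : Fin d → Bool, ε1 = Function.update ε' i (ε i) := ⟨_, rfl⟩
      have b1 := s2 i ε ε1 (by rw [hε1, Function.update_self])
      have b2 := s1 i k ε1
      have b3 := s2 k ε1 ε' (by rw [hε1, Function.update_of_ne hk])
      have b4 := s1 k j ε'
      rw [abs_le] at b1 b2 b3 b4 ⊢
      constructor <;> linarith [b1.1, b1.2, b2.1, b2.2, b3.1, b3.2, b4.1, b4.2]
    refine ⟨c ⟨0, hpos⟩ (fun _ => true), N, fun x hx => ?_⟩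
    obtain ⟨i, -, hi⟩ := Finset.exists_mem_eq_sup (univ : Finset (Fin d)) ⟨⟨0, hpos⟩, mem_univ _⟩
      (fun i => (x i).natAbs)
    have hi' : |x i| = (nm x : ℤ) := by
      rw [Int.abs_eq_natAbs]
      have : nm x = (x i).natAbs := hi
      rw [this]
    have h1 := hcR i (fun j => decide (0 ≤ x j)) x ((hN _ _).trans hx) (by
      intro j
      unfold sgz
      by_cases hj : 0 ≤ x j
      · simp [hj]
      · simp [hj]
        omega) hi'
    have h2 := s3 i ⟨0, hpos⟩ (fun j => decide (0 ≤ x j)) (fun _ => true)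
    rw [abs_le] at h1 h2 ⊢
    constructor <;> linarith [h1.1, h1.2, h2.1, h2.2]
  have : Nonempty (Fin d) := ⟨⟨0, hpos⟩⟩
  have : Infinite (Vx d) := by
    unfold Vx
    infer_instance
  have : (cofinite : Filter (Vx d)).NeBot := inferInstance
  have hC : Cauchy (map r cofinite) := by
    rw [Metric.cauchy_iff]
    refine ⟨inferInstance, fun e he => ?_⟩
    obtain ⟨c, R, hR⟩ := hmain (e / 27) (by linarith)
    refine ⟨Metric.closedBall c (e / 3), ?_, ?_⟩
    · rw [Filter.mem_map]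
      have hfin : (↑(bx d R) : Set (Vx d)).Finite := Finset.finite_toSet _
      refine mem_of_superset (mem_cofinite.2 (by rw [compl_compl]; exact hfin) :
        (↑(bx d R) : Set (Vx d))ᶜ ∈ cofinite) ?_
      intro x hx
      have hx1 : x ∉ bx d R := hx
      rw [mem_bx, not_le] at hx1
      have h2 := hR x hx1.le
      show r x ∈ Metric.closedBall c (e / 3)
      rw [Metric.mem_closedBall, Real.dist_eq]
      linarith
    · intro a ha b hb
      rw [Metric.mem_closedBall, Real.dist_eq, abs_le] at ha hb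
      rw [Real.dist_eq, abs_lt]
      constructor <;> linarith [ha.1, ha.2, hb.1, hb.2]
  obtain ⟨c, hc⟩ := CompleteSpace.complete hC
  exact ⟨c, hc⟩

theorem x_limit (hd : 2 ≤ d) {β : ℝ} (hβ : 0 < β) {μ : Measure (Cf d)} (hμ : IsLim β false μ)
    (hlim : Tendsto (fun x : Vx d => μ.real (cn 0 x)) cofinite (𝓝 0))
    (hχ : ¬ Summable (fun x : Vx d => μ.real (cn 0 x))) (F : Finset (Ed d)) :
    ∃ c : ℝ, Tendsto (fun x : Vx d => μ.real (dw F ∩ cn 0 x) / μ.real (cn 0 x)) cofinite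
      (𝓝 c) := by
  exact XL_lim hd _ fun κ hκ i ε => sector_est hd hβ hμ hlim hχ F κ hκ i ε

end H82.IC
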