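import Pool.Agent.H82.IC.UQ
import Pool.Agent.H82.IC.XL
import Pool.Agent.H82.IC.GE
import Pool.Agent.H82.IC.PM2
import Pool.Agent.H82.IC.LX3

/-!
# FINZ: the unconditional theorem

`phi β` = the wired limit for every `β ≥ 0`; `bc = inf {β ≥ 0 : phi β (perc) > 0}`.
* `bc_eq`: `thW d β = (phi β).real (perc d)` for `β ≥ 0` (`thW_eq`), so the two sets are equal and `bc = bcr d`.
* Let `μ = phi (bcr d)`, `μ0` a free limit at `bcr d` (`exists_IsLim`); `free_eq_wired`: `μ0 = μ`; so `IsLim (bcr d) false μ`; `perc_zero`: `μ (perc d) = 0`; `bcr_pos`; `chi_infinite`.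
* `G x = μ (cn 0 x) → 0` along `cofinite`: `G x ≤ μ (arm (nm x) 0)` (`cn_sub_arm`), `tendsto_arm`, and `{x | nm x < n} ⊆ bx n` is finite.
* `x_limit` gives all the limits for `dw F`; `stage_one` gives, for every cylinder `X`, a common limit of the two conditional probabilities.
* `phiInf`: apply `exists_limit` (PM1) to the probability measures `ν n = (μ (arm n 0))⁻¹ • μ.restrict (arm n 0)` (`arm_pos`; `ProbabilityTheory.cond μ (arm n 0)`), `ν n X = μ (X ∩ arm n 0)/μ (arm n 0)`, which converge on all cylinder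
  events; the limit measure has `phiInf X = ` the common limit.
-/

set_option autoImplicit false

open Finset MeasureTheory Filter Topology

namespace H82.IC

variable {d : ℕ}

theorem bc_eq (hd : 3 ≤ d) (phi : ℝ → Measure (Cf d)) (hphi : ∀ β, 0 ≤ β → IsLim β true (phi β)) :
    sInf {β : ℝ | 0 ≤ β ∧ 0 < (phi β).real (perc d)} = bcr d := by
  unfold bcr
  congr 1
  ext β
  constructor
  · rintro ⟨h0, h⟩
    exact ⟨h0, by rw [thW_eq (by omega) h0 (hphi β h0)]; exact h⟩
  · rintro ⟨h0, h⟩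
    exact ⟨h0, by rw [thW_eq (by omega) h0 (hphi β h0)] at h; exact h⟩

theorem FINZ_finite (n : ℕ) : {x : Vx d | nm x < n}.Finite := by
  refine (bx d n).finite_toSet.subset fun x hx => ?_
  have hx' : nm x < n := hx
  exact Finset.mem_coe.2 ((mem_bx).2 hx'.le)

theorem FINZ_G (hd : 1 ≤ d) {μ : Measure (Cf d)} [IsProbabilityMeasure μ]
    (hp : μ.real (perc d) = 0) : Tendsto (fun x : Vx d => μ.real (cn 0 x)) cofinite (𝓝 0) := by
  have harm := tendsto_arm (d := d) hd (μ := μ)
  rw [hp] at harm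
  rw [Metric.tendsto_nhds]
  intro ε hε
  have h1 := (Metric.tendsto_nhds.1 harm) ε hε
  obtain ⟨n, hn⟩ := h1.exists
  have h2 : ∀ᶠ x : Vx d in cofinite, ¬ (nm x < n) := (FINZ_finite (d := d) n).eventually_cofinite_notMem
  filter_upwards [h2] with x hx
  have h3 : μ.real (cn (0 : Vx d) x) ≤ μ.real (arm n (0 : Vx d)) :=
    measureReal_mono (cn_sub_arm hd (by rw [nm_zero]; exact Nat.zero_le _) (not_lt.1 hx))
  rw [Real.dist_eq, sub_zero, abs_of_nonneg measureReal_nonneg] at hn ⊢
  exact lt_of_le_of_lt h3 hn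

theorem FINZ_cond {μ : Measure (Cf d)} [IsProbabilityMeasure μ] {A : Set (Cf d)}
    (hA : MeasurableSet A) (X : Set (Cf d)) :
    (ProbabilityTheory.cond μ A).real X = μ.real (X ∩ A) / μ.real A := by
  rw [measureReal_def, ProbabilityTheory.cond_apply hA, ENNReal.toReal_mul, ENNReal.toReal_inv,
    Set.inter_comm, div_eq_inv_mul]
  rfl

theorem final (hd : 3 ≤ d) {μ : Measure (Cf d)} (hμ : IsLim (bcr d) true μ) :
    0 < bcr d ∧ IsLim (bcr d) false μ ∧ μ.real (perc d) = 0 ∧
    ∃ phiInf : Measure (Cf d), IsProbabilityMeasure phiInf ∧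
      (∀ X : Set (Cf d), Lcl X →
        Tendsto (fun x : Vx d => μ.real (X ∩ cn 0 x) / μ.real (cn 0 x)) cofinite
          (𝓝 (phiInf.real X))) ∧
      (∀ X : Set (Cf d), Lcl X →
        Tendsto (fun n : ℕ => μ.real (X ∩ arm n (0 : Vx d)) / μ.real (arm n (0 : Vx d))) atTop
          (𝓝 (phiInf.real X))) := by
  haveI := hμ.1
  have hd2 : 2 ≤ d := by omega
  have hd1 : 1 ≤ d := by omega
  have hc : 0 < bcr d := bcr_pos hd
  obtain ⟨μ0, h0'⟩ := exists_IsLim (d := d) hd2 hc.le false
  have h0 : IsLim (bcr d) false μ := by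
    have he := free_eq_wired hd h0' hμ
    rw [he] at h0'
    exact h0'
  have hp := perc_zero hd h0
  have hχ := chi_infinite hd h0
  have hG := FINZ_G hd1 hp
  have hs := fun X hX => stage_one hd2 hc h0 hμ hp hχ (x_limit hd2 hc h0 hG hχ) X hX
  have hapos : ∀ n : ℕ, 0 < μ.real (arm n (0 : Vx d)) := fun n => arm_pos hd1 hc h0 n 0
  have hν : ∀ n : ℕ, IsProbabilityMeasure (ProbabilityTheory.cond μ (arm n (0 : Vx d))) := by
    intro n
    refine ProbabilityTheory.cond_isProbabilityMeasure fun h => ?_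
    have h1 := hapos n
    rw [measureReal_def, h] at h1
    simp at h1
  have hr : ∀ (n : ℕ) (X : Set (Cf d)),
      (ProbabilityTheory.cond μ (arm n (0 : Vx d))).real X =
        μ.real (X ∩ arm n (0 : Vx d)) / μ.real (arm n (0 : Vx d)) :=
    fun n X => FINZ_cond (meas_arm n 0) X
  obtain ⟨phiInf, hprob, hlim⟩ := exists_limit
    (fun n => ProbabilityTheory.cond μ (arm n (0 : Vx d))) hν fun X hX => by
      obtain ⟨L, -, hL⟩ := hs X hX
      exact ⟨L, hL.congr fun n => (hr n X).symm⟩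
  refine ⟨hc, h0, hp, phiInf, hprob, fun X hX => ?_, fun X hX => ?_⟩
  · obtain ⟨L, hL1, hL2⟩ := hs X hX
    have h1 := (hlim X hX).congr fun n => hr n X
    rw [tendsto_nhds_unique h1 hL2]
    exact hL1
  · exact (hlim X hX).congr fun n => hr n X

end H82.IC
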