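import Pool.Agent.H82.IC.RP1

/-!
# TOR: the torus `(ZMod n)^d`, `n = 2m`, and its reflections

For the edge `e0 = (x0, i0)` let `c = x0 i0`.  `th x = Function.update x i0 (2c + 1 - x i0)`.  With `y = x i0 - c - 1` the map is `y ↦ -y - 1`, and `(-y-1).val = 2m - 1 - y.val`.
`L = {x | m ≤ (x i0 - c - 1).val}`; so `th x ∈ L ↔ x ∉ L`.
Edges: `ta (x, i) = (th x, i)` for `i ≠ i0` (`os = true`; both ends have the same `i0`-coordinate, so both or none in `L`), `ta (x, i0) = (th x - e_{i0}, i0) = (th (x + e_{i0}), i0)`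
(`os = false`): `s (ta e) = th (r e)`, `r (ta e) = th (s e)`.  `ta (ta e) = e` is immediate.
Crossing: only `i = i0`: from `y` to `y + 1`; exactly one of them in `L` iff `y.val = m - 1` or `y.val = 2m - 1`, i.e. `y = m - 1` or `y = -1`, and in both cases `-y - 1 = y + 1`
(for `y = m-1`: `-m = m` in `ZMod (2m)`), so `r e = th (s e)` and `ta e = e`.
`e0` itself: `y = -1`: `x0 ∈ L` (`val = 2m-1 ≥ m` as `m ≥ 1`), `x0 + e ∉ L` (`val = 0 < m`).
-/

set_option autoImplicit false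

open Finset

namespace H82.IC

abbrev Tv (d n : ℕ) := Fin d → ZMod n
abbrev Te (d n : ℕ) := (Fin d → ZMod n) × Fin d

/-- the torus graph. -/
def Tg (d n : ℕ) : Gr (Tv d n) (Te d n) where
  s e := e.1
  r e := e.1 + Pi.single e.2 1

theorem TOR_val (n : ℕ) [NeZero n] (y : ZMod n) : (-y - 1).val = n - 1 - y.val := by
  have hy := y.val_lt
  have h : ((n - 1 - y.val : ℕ) : ZMod n) = -y - 1 := by
    rw [Nat.cast_sub (by omega), Nat.cast_sub (by omega)]
    simp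
    ring
  rw [← h, ZMod.val_natCast_of_lt (by omega)]

theorem TOR_cross (m : ℕ) (hm : 1 ≤ m) (y : ZMod (2 * m))
    (h : ¬ (m ≤ y.val ↔ m ≤ (y + 1).val)) : y + 1 = -y - 1 := by
  have : NeZero (2 * m) := ⟨by omega⟩
  have hy := y.val_lt
  have h0 : ((2 * m : ℕ) : ZMod (2 * m)) = 0 := ZMod.natCast_self _
  by_cases h1 : y.val + 1 = 2 * m
  · have h2 : y + 1 = 0 := by
      have : ((y.val + 1 : ℕ) : ZMod (2 * m)) = y + 1 := by simp
      rw [← this, h1, h0]
    have h3 : -y - 1 = -(y + 1) := by ring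
    rw [h3, h2, neg_zero]
  · have h2 : (y + 1).val = y.val + 1 := by
      have : ((y.val + 1 : ℕ) : ZMod (2 * m)) = y + 1 := by simp
      rw [← this, ZMod.val_natCast_of_lt (by omega)]
    rw [h2] at h
    have h3 : y.val + 1 = m := by
      by_contra hne
      apply h
      constructor <;> intro h4 <;> omega
    have h4 : ((y.val + 1 : ℕ) : ZMod (2 * m)) = y + 1 := by simp
    rw [h3] at h4
    have h5 : (y + 1) + (y + 1) = 0 := by
      rw [← h4, ← h0]
      push_cast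
      ring
    have h6 : -y - 1 = -(y + 1) := by ring
    rw [h6]
    exact eq_neg_of_add_eq_zero_left h5

/-- the reflection of the vertices -/
def TOR_th {d n : ℕ} (i0 : Fin d) (c : ZMod n) (x : Tv d n) : Tv d n :=
  Function.update x i0 (2 * c + 1 - x i0)

theorem TOR_th_same {d n : ℕ} (i0 : Fin d) (c : ZMod n) (x : Tv d n) :
    TOR_th i0 c x i0 = 2 * c + 1 - x i0 := by simp [TOR_th]

theorem TOR_th_ne {d n : ℕ} (i0 : Fin d) (c : ZMod n) (x : Tv d n) {j : Fin d} (hj : j ≠ i0) :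
    TOR_th i0 c x j = x j := by simp [TOR_th, Function.update_of_ne hj]

theorem TOR_th_th {d n : ℕ} (i0 : Fin d) (c : ZMod n) (x : Tv d n) :
    TOR_th i0 c (TOR_th i0 c x) = x := by
  funext j
  by_cases hj : j = i0
  · subst hj
    rw [TOR_th_same, TOR_th_same]
    ring
  · rw [TOR_th_ne _ _ _ hj, TOR_th_ne _ _ _ hj]

/-- the reflection of the edges -/
def TOR_ta {d n : ℕ} (i0 : Fin d) (c : ZMod n) (e : Te d n) : Te d n :=
  if e.2 = i0 then (TOR_th i0 c e.1 - Pi.single i0 1, i0) else (TOR_th i0 c e.1, e.2)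

theorem TOR_ta_eq {d n : ℕ} (i0 : Fin d) (c : ZMod n) (x : Tv d n) :
    TOR_ta i0 c (x, i0) = (TOR_th i0 c x - Pi.single i0 1, i0) := by simp [TOR_ta]

theorem TOR_ta_ne {d n : ℕ} (i0 : Fin d) (c : ZMod n) (x : Tv d n) {i : Fin d} (hi : i ≠ i0) :
    TOR_ta i0 c (x, i) = (TOR_th i0 c x, i) := by simp [TOR_ta, hi]

theorem TOR_shift {d n : ℕ} (i0 : Fin d) (c : ZMod n) (x : Tv d n) :
    TOR_th i0 c (x + Pi.single i0 1) = TOR_th i0 c x - Pi.single i0 1 := by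
  funext j
  by_cases hj : j = i0
  · subst hj
    rw [TOR_th_same, Pi.sub_apply, TOR_th_same, Pi.add_apply, Pi.single_eq_same]
    ring
  · rw [TOR_th_ne _ _ _ hj, Pi.sub_apply, TOR_th_ne _ _ _ hj, Pi.add_apply,
      Pi.single_eq_of_ne hj]
    ring

theorem TOR_shift' {d n : ℕ} (i0 : Fin d) (c : ZMod n) (x : Tv d n) :
    TOR_th i0 c (x - Pi.single i0 1) = TOR_th i0 c x + Pi.single i0 1 := by
  have h := TOR_shift i0 c (x - Pi.single i0 1)
  rw [sub_add_cancel] at h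
  rw [h, sub_add_cancel]

theorem TOR_shift_ne {d n : ℕ} (i0 : Fin d) (c : ZMod n) (x : Tv d n) {i : Fin d} (hi : i ≠ i0) :
    TOR_th i0 c (x + Pi.single i 1) = TOR_th i0 c x + Pi.single i 1 := by
  funext j
  by_cases hj : j = i0
  · subst hj
    rw [TOR_th_same, Pi.add_apply, Pi.add_apply, TOR_th_same, Pi.single_eq_of_ne (Ne.symm hi)]
    ring
  · rw [TOR_th_ne _ _ _ hj, Pi.add_apply, Pi.add_apply, TOR_th_ne _ _ _ hj]

theorem TOR_ta_ta {d n : ℕ} (i0 : Fin d) (c : ZMod n) (e : Te d n) :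
    TOR_ta i0 c (TOR_ta i0 c e) = e := by
  obtain ⟨x, i⟩ := e
  by_cases hi : i = i0
  · subst hi
    rw [TOR_ta_eq, TOR_ta_eq, TOR_shift', TOR_th_th, add_sub_cancel_right]
  · rw [TOR_ta_ne _ _ _ hi, TOR_ta_ne _ _ _ hi, TOR_th_th]

/-- the half torus -/
def TOR_L {d : ℕ} (m : ℕ) (i0 : Fin d) (c : ZMod (2 * m)) : Set (Tv d (2 * m)) :=
  {x | m ≤ (x i0 - c - 1).val}

theorem TOR_mem {d : ℕ} (m : ℕ) (i0 : Fin d) (c : ZMod (2 * m)) (x : Tv d (2 * m)) :
    x ∈ TOR_L m i0 c ↔ m ≤ (x i0 - c - 1).val := Iff.rfl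

theorem torus_reflections (d m : ℕ) (hm : 1 ≤ m) (e0 : Te d (2 * m)) :
    ∃ R : Rfl (Tg d (2 * m)), ¬ ((Tg d (2 * m)).s e0 ∈ R.L ↔ (Tg d (2 * m)).r e0 ∈ R.L) := by
  obtain ⟨x0, i0⟩ := e0
  have : NeZero (2 * m) := ⟨by omega⟩
  refine ⟨⟨TOR_L m i0 (x0 i0), TOR_th i0 (x0 i0), TOR_ta i0 (x0 i0), fun e => decide (e.2 ≠ i0),
    TOR_th_th i0 _, TOR_ta_ta i0 _, ?_, ?_, ?_, ?_, ?_⟩, ?_⟩
  · rintro ⟨x, i⟩
    by_cases hi : i = i0
    · subst hi
      rw [TOR_ta_eq]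
    · rw [TOR_ta_ne _ _ _ hi]
  · intro x
    rw [TOR_mem, TOR_mem, TOR_th_same]
    have h1 : 2 * x0 i0 + 1 - x i0 - x0 i0 - 1 = -(x i0 - x0 i0 - 1) - 1 := by ring
    rw [h1, TOR_val]
    have h2 := (x i0 - x0 i0 - 1).val_lt
    constructor <;> intro h3 <;> omega
  · rintro ⟨x, i⟩ h
    have hi : i ≠ i0 := by simpa using h
    simp only [Tg]
    rw [TOR_ta_ne _ _ _ hi]
    exact ⟨rfl, (TOR_shift_ne i0 _ x hi).symm⟩
  · rintro ⟨x, i⟩ h
    have hi : i = i0 := by simpa using h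
    subst hi
    simp only [Tg]
    rw [TOR_ta_eq]
    exact ⟨(TOR_shift i _ x).symm, sub_add_cancel _ _⟩
  · rintro ⟨x, i⟩ h
    simp only [Tg] at h ⊢
    by_cases hi : i = i0
    · subst hi
      rw [TOR_mem, TOR_mem, Pi.add_apply, Pi.single_eq_same] at h
      have h1 : x i + 1 - x0 i - 1 = (x i - x0 i - 1) + 1 := by ring
      rw [h1] at h
      have h2 := TOR_cross m hm _ h
      have h3 : x + Pi.single i 1 = TOR_th i (x0 i) x := by
        funext j
        by_cases hj : j = i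
        · subst hj
          rw [TOR_th_same, Pi.add_apply, Pi.single_eq_same]
          linear_combination h2
        · rw [TOR_th_ne _ _ _ hj, Pi.add_apply, Pi.single_eq_of_ne hj, add_zero]
      refine ⟨h3, ?_⟩
      rw [TOR_ta_eq, ← h3, add_sub_cancel_right]
    · exfalso
      apply h
      rw [TOR_mem, TOR_mem, Pi.add_apply, Pi.single_eq_of_ne (Ne.symm hi), add_zero]
  · simp only [Tg]
    rw [TOR_mem, TOR_mem, Pi.add_apply, Pi.single_eq_same]
    have h1 : x0 i0 - x0 i0 - 1 = -(0 : ZMod (2 * m)) - 1 := by ring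
    have h2 : x0 i0 + 1 - x0 i0 - 1 = (0 : ZMod (2 * m)) := by ring
    rw [h1, h2, TOR_val, ZMod.val_zero]
    intro h
    have := h.1 (by omega)
    omega

end H82.IC
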