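import Pool.Agent.H82.IC.SPN
import Pool.Agent.H82.IC.TOR

/-!
# FLW: spreading the uniform law of a box over a box twice as long

Torus `(ZMod n)^d`, `1 ≤ n`.  `tb a = {x | ∀ i, (x i).val < a i}`, `a i ≤ n`, `1 ≤ a i`; `Sa a σ = (∏ a i)^{-1} ∑_{x ∈ tb a} sp (σ x)`.
Let `2 a_i ≤ n`, `a' = Function.update a i (2 a i)`, `w = 1/(2 ∏ a)`.  Field `h`: on the edge `(x, i)` (direction `i`) with `(x k).val < a k` for `k ≠ i` and `j = (x i).val ≤ 2 a i - 2`:
`h = w * min (j+1) (2 a_i - 1 - j)`; `0` on all other edges.  Along a line (fixed other coordinates) `∑_j c_j (σ_j - σ_{j+1}) = ∑_{j < a_i} σ_j - ∑_{a_i ≤ j < 2a_i} σ_j` (`c_j = min(j+1, 2a_i-1-j)`, Abel summation,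
`c_j - c_{j-1} = 1` for `j < a_i`, `-1` for `a_i ≤ j < 2a_i`, `c_{-1} = c_{2a_i - 1} = 0`; the point with coordinate value `j + 1 ≤ 2a_i - 1 < n` is `x + e_i`), so
`∑_e h e (sp σ(s e) - sp σ(r e)) = w (∑_{tb a} sp σ - ∑_{tb a' \ tb a} sp σ) = Sa a σ - Sa a' σ`.
Energy: `∏_{k≠i} a_k` lines, at most `2a_i` edges each, `h ≤ w a_i`: `∑ h² ≤ (∏ a / a_i)(2 a_i)(a_i/(2∏a))² = a_i²/(2 ∏ a)`.
(For the formal proof one may sum over `(x k)_k` with `ZMod.val`, or parametrise `tb a` by `Fintype.piFinset` of ranges; `card (tb a) = ∏ a i`.)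
-/

set_option autoImplicit false

open Finset

namespace H82.IC

/-- box in the torus. -/
noncomputable def tb {d n : ℕ} [NeZero n] (a : Fin d → ℕ) : Finset (Tv d n) :=
  univ.filter (fun x => ∀ i, (x i).val < a i)

/-- box average of the spins. -/
noncomputable def Sa {d n : ℕ} [NeZero n] (a : Fin d → ℕ) (σ : Tv d n → Bool) : ℝ :=
  (∏ i, (a i : ℝ))⁻¹ * ∑ x ∈ tb a, sp (σ x)

theorem FLW_card_lt {n : ℕ} [NeZero n] (m : ℕ) (hm : m ≤ n) :
    (univ.filter (fun z : ZMod n => z.val < m)).card = m := by
  have h : univ.filter (fun z : ZMod n => z.val < m) = (Finset.range m).image (fun k : ℕ => (k : ZMod n)) := by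
    ext z
    simp only [Finset.mem_filter, Finset.mem_univ, true_and, Finset.mem_image, Finset.mem_range]
    constructor
    · intro hz
      exact ⟨z.val, hz, ZMod.natCast_zmod_val z⟩
    · rintro ⟨k, hk, rfl⟩
      rw [ZMod.val_cast_of_lt (lt_of_lt_of_le hk hm)]
      exact hk
  rw [h, Finset.card_image_of_injOn, Finset.card_range]
  intro k hk l hl hkl
  simp only [Finset.coe_range, Set.mem_Iio] at hk hl
  have := congrArg ZMod.val hkl
  simpa only [ZMod.val_cast_of_lt (lt_of_lt_of_le hk hm), ZMod.val_cast_of_lt (lt_of_lt_of_le hl hm)] using this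

theorem card_tb {d n : ℕ} [NeZero n] (a : Fin d → ℕ) (ha : ∀ i, a i ≤ n) :
    (tb a : Finset (Tv d n)).card = ∏ i, a i := by
  have h : (tb a : Finset (Tv d n)) =
      Fintype.piFinset (fun i => univ.filter (fun z : ZMod n => z.val < a i)) := by
    ext x
    simp only [tb, Finset.mem_filter, Finset.mem_univ, true_and, Fintype.mem_piFinset]
  rw [h, Fintype.card_piFinset]
  exact Finset.prod_congr rfl (fun i _ => FLW_card_lt (a i) (ha i))

/-- profile of the flow along a line. -/
noncomputable def FLW_c {n : ℕ} (b : ℕ) (z : ZMod n) : ℝ :=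
  if z.val < b then (z.val : ℝ) + 1 else if z.val + 1 < 2 * b then 2 * (b : ℝ) - 1 - z.val else 0

theorem FLW_val_sub_one {n : ℕ} [NeZero n] (z : ZMod n) (hz : z.val ≠ 0) :
    (z - 1).val + 1 = z.val := by
  have hn : 1 < n := by
    have := ZMod.val_lt z
    omega
  have : Fact (1 < n) := ⟨hn⟩
  have h1 : (1 : ZMod n).val = 1 := ZMod.val_one n
  have h2 : (z - 1).val = z.val - (1 : ZMod n).val := ZMod.val_sub (by rw [h1]; omega)
  rw [h2, h1]
  omega

theorem FLW_c_sub {n : ℕ} [NeZero n] (b : ℕ) (hb : 1 ≤ b) (hbn : 2 * b ≤ n) (z : ZMod n) :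
    FLW_c b z - FLW_c b (z - 1) =
      2 * (if z.val < b then 1 else 0) - (if z.val < 2 * b then 1 else 0) := by
  by_cases hz : z.val = 0
  · have hz0 : z = 0 := (ZMod.val_eq_zero z).mp hz
    have hn : 1 < n := by omega
    have : Fact (1 < n) := ⟨hn⟩
    have h1 : ((0 : ZMod n) - 1).val = n - 1 := by
      rw [zero_sub]
      have h2 : (1 : ZMod n) ≠ 0 := one_ne_zero
      have : NeZero (1 : ZMod n) := ⟨h2⟩
      rw [ZMod.val_neg_of_ne_zero, ZMod.val_one n]
    subst hz0
    have e1 : FLW_c b (0 : ZMod n) = 1 := by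
      rw [FLW_c, if_pos (by rw [ZMod.val_zero]; omega), ZMod.val_zero]
      norm_num
    have e2 : FLW_c b ((0 : ZMod n) - 1) = 0 := by
      rw [FLW_c, h1, if_neg (by omega), if_neg (by omega)]
    rw [e1, e2, ZMod.val_zero, if_pos (by omega), if_pos (by omega)]
    norm_num
  · have h1 := FLW_val_sub_one z hz
    have h2 : ((z - 1).val : ℝ) + 1 = z.val := by exact_mod_cast h1
    rw [FLW_c, FLW_c]
    by_cases c1 : z.val < b
    · rw [if_pos c1, if_pos (by omega : (z - 1).val < b), if_pos c1, if_pos (by omega)]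
      linarith
    · rw [if_neg c1, if_neg c1]
      by_cases c2 : z.val < 2 * b
      · rw [if_pos c2]
        by_cases c3 : z.val = b
        · rw [if_pos (by omega : (z - 1).val < b)]
          have h3 : (z.val : ℝ) = b := by exact_mod_cast c3
          by_cases c4 : z.val + 1 < 2 * b
          · rw [if_pos c4]
            linarith
          · rw [if_neg c4]
            have h4 : b = 1 := by omega
            have h5 : (b : ℝ) = 1 := by exact_mod_cast h4
            linarith
        · rw [if_neg (by omega : ¬ (z - 1).val < b), if_pos (by omega : (z - 1).val + 1 < 2 * b)]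
          by_cases c4 : z.val + 1 < 2 * b
          · rw [if_pos c4]
            linarith
          · rw [if_neg c4]
            have h4 : z.val + 1 = 2 * b := by omega
            have h5 : (z.val : ℝ) + 1 = 2 * b := by exact_mod_cast h4
            linarith
      · rw [if_neg c2, if_neg (by omega : ¬ z.val + 1 < 2 * b), if_neg (by omega : ¬ (z - 1).val < b),
          if_neg (by omega : ¬ (z - 1).val + 1 < 2 * b)]
        norm_num

theorem FLW_c_sq {n : ℕ} [NeZero n] (b : ℕ) (hb : 1 ≤ b) (z : ZMod n) :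
    FLW_c b z ^ 2 ≤ (if z.val < 2 * b then 1 else 0) * (b : ℝ) ^ 2 := by
  rw [FLW_c]
  by_cases c1 : z.val < b
  · rw [if_pos c1, if_pos (by omega), one_mul]
    have h1 : ((z.val : ℝ) + 1) ≤ b := by exact_mod_cast c1
    have h2 : (0 : ℝ) ≤ z.val := Nat.cast_nonneg _
    nlinarith
  · rw [if_neg c1]
    by_cases c2 : z.val + 1 < 2 * b
    · rw [if_pos c2, if_pos (by omega), one_mul]
      have h1 : (b : ℝ) ≤ z.val := by exact_mod_cast (not_lt.mp c1)
      have h2 : (z.val : ℝ) + 1 < 2 * b := by exact_mod_cast c2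
      have h3 : (1 : ℝ) ≤ b := by exact_mod_cast hb
      nlinarith
    · rw [if_neg c2]
      have : (0 : ℝ) ≤ (if z.val < 2 * b then (1 : ℝ) else 0) * (b : ℝ) ^ 2 := by
        apply mul_nonneg
        · split_ifs <;> norm_num
        · positivity
      simpa using this

theorem FLW_sum {d n : ℕ} [NeZero n] (i : Fin d) (g : Tv d n → ℝ) (f : Te d n → ℝ) :
    ∑ e : Te d n, (if e.2 = i then g e.1 else 0) * f e = ∑ x, g x * f (x, i) := by
  rw [Fintype.sum_prod_type]
  apply Finset.sum_congr rfl
  intro x _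
  simp only [ite_mul, zero_mul]
  rw [Finset.sum_ite_eq' Finset.univ i (fun j => g x * f (x, j))]
  simp

theorem FLW_prod_upd {d : ℕ} (a : Fin d → ℕ) (i : Fin d) :
    (∏ k, ((Function.update a i (2 * a i)) k : ℝ)) = 2 * ∏ k, (a k : ℝ) := by
  rw [← Finset.mul_prod_erase Finset.univ _ (Finset.mem_univ i),
    ← Finset.mul_prod_erase Finset.univ (fun k => (a k : ℝ)) (Finset.mem_univ i)]
  have h : ∏ x ∈ Finset.univ.erase i, ((Function.update a i (2 * a i)) x : ℝ) =
      ∏ x ∈ Finset.univ.erase i, (a x : ℝ) := by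
    apply Finset.prod_congr rfl
    intro x hx
    rw [Function.update_of_ne (Finset.ne_of_mem_erase hx)]
  rw [h, Function.update_self]
  push_cast
  ring

theorem flow_step {d n : ℕ} [NeZero n] (a : Fin d → ℕ) (ha : ∀ i, a i ≤ n) (ha1 : ∀ i, 1 ≤ a i)
    (i : Fin d) (hi : 2 * a i ≤ n) :
    ∃ h : Te d n → ℝ,
      (∀ σ : Tv d n → Bool, ∑ e, h e * (sp (σ ((Tg d n).s e)) - sp (σ ((Tg d n).r e))) =
        Sa a σ - Sa (Function.update a i (2 * a i)) σ) ∧
      ∑ e, h e ^ 2 ≤ (a i : ℝ) ^ 2 / (2 * ∏ k, (a k : ℝ)) := by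
  classical
  set P : ℝ := ∏ k, (a k : ℝ) with hP
  have hPpos : 0 < P := Finset.prod_pos (fun k _ => by exact_mod_cast (ha1 k))
  let rest : Tv d n → ℝ := fun x => if (∀ k, k ≠ i → (x k).val < a k) then 1 else 0
  let g : Tv d n → ℝ := fun x => rest x * (1 / (2 * P)) * FLW_c (a i) (x i)
  have hupd : ∀ x : Tv d n, (if x ∈ (tb (Function.update a i (2 * a i)) : Finset (Tv d n)) then (1 : ℝ) else 0) =
      rest x * (if (x i).val < 2 * a i then 1 else 0) := by
    intro x
    have e : x ∈ (tb (Function.update a i (2 * a i)) : Finset (Tv d n)) ↔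
        (∀ k, k ≠ i → (x k).val < a k) ∧ (x i).val < 2 * a i := by
      simp only [tb, Finset.mem_filter, Finset.mem_univ, true_and]
      constructor
      · intro h
        refine ⟨fun k hk => ?_, ?_⟩
        · have := h k
          rwa [Function.update_of_ne hk] at this
        · have := h i
          rwa [Function.update_self] at this
      · rintro ⟨h1, h2⟩ k
        by_cases hk : k = i
        · subst hk
          rw [Function.update_self]
          exact h2
        · rw [Function.update_of_ne hk]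
          exact h1 k hk
    by_cases h1 : (∀ k, k ≠ i → (x k).val < a k)
    · by_cases h2 : (x i).val < 2 * a i
      · rw [if_pos (e.mpr ⟨h1, h2⟩)]
        simp only [rest]
        rw [if_pos h1, if_pos h2, one_mul]
      · rw [if_neg (fun h => h2 (e.mp h).2)]
        simp only [rest]
        rw [if_neg h2, mul_zero]
    · rw [if_neg (fun h => h1 (e.mp h).1)]
      simp only [rest]
      rw [if_neg h1, zero_mul]
  have hbox : ∀ x : Tv d n, (if x ∈ (tb a : Finset (Tv d n)) then (1 : ℝ) else 0) =
      rest x * (if (x i).val < a i then 1 else 0) := by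
    intro x
    have e : x ∈ (tb a : Finset (Tv d n)) ↔
        (∀ k, k ≠ i → (x k).val < a k) ∧ (x i).val < a i := by
      simp only [tb, Finset.mem_filter, Finset.mem_univ, true_and]
      constructor
      · intro h
        exact ⟨fun k _ => h k, h i⟩
      · rintro ⟨h1, h2⟩ k
        by_cases hk : k = i
        · rw [hk]
          exact h2
        · exact h1 k hk
    by_cases h1 : (∀ k, k ≠ i → (x k).val < a k)
    · by_cases h2 : (x i).val < a i
      · rw [if_pos (e.mpr ⟨h1, h2⟩)]
        simp only [rest]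
        rw [if_pos h1, if_pos h2, one_mul]
      · rw [if_neg (fun h => h2 (e.mp h).2)]
        simp only [rest]
        rw [if_neg h2, mul_zero]
    · rw [if_neg (fun h => h1 (e.mp h).1)]
      simp only [rest]
      rw [if_neg h1, zero_mul]
  refine ⟨fun e => if e.2 = i then g e.1 else 0, ?_, ?_⟩
  · intro σ
    have h1 : ∑ e : Te d n, (if e.2 = i then g e.1 else 0) *
        (sp (σ ((Tg d n).s e)) - sp (σ ((Tg d n).r e))) =
        ∑ x, g x * (sp (σ x) - sp (σ (x + Pi.single i 1))) :=
      FLW_sum i g (fun e => sp (σ ((Tg d n).s e)) - sp (σ ((Tg d n).r e)))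
    rw [h1]
    obtain ⟨u, hu⟩ : ∃ u : Tv d n, u = Pi.single i 1 := ⟨_, rfl⟩
    rw [← hu]
    have h2 : ∑ x, g x * (sp (σ x) - sp (σ (x + u))) =
        ∑ x, (g x - g (x - u)) * sp (σ x) := by
      have h3 : ∑ x, g x * sp (σ (x + u)) = ∑ x, g (x - u) * sp (σ x) := by
        rw [← Equiv.sum_comp (Equiv.addRight u)
          (fun x => g (x - u) * sp (σ x))]
        apply Finset.sum_congr rfl
        intro x _
        simp only [Equiv.coe_addRight, add_sub_cancel_right]
      simp only [mul_sub, sub_mul, Finset.sum_sub_distrib]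
      rw [h3]
    rw [h2]
    have h4 : ∀ x : Tv d n, g x - g (x - u) =
        (1 / (2 * P)) * (2 * (if x ∈ (tb a : Finset (Tv d n)) then (1 : ℝ) else 0) -
          (if x ∈ (tb (Function.update a i (2 * a i)) : Finset (Tv d n)) then (1 : ℝ) else 0)) := by
      intro x
      have h5 : rest (x - u) = rest x := by
        have : (∀ k, k ≠ i → ((x - u) k).val < a k) ↔ (∀ k, k ≠ i → (x k).val < a k) := by
          apply forall_congr'
          intro k
          apply imp_congr_right
          intro hk
          rw [Pi.sub_apply, hu, Pi.single_eq_of_ne hk, sub_zero]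
        simp only [rest]
        simp only [this]
      have h6 : (x - u) i = x i - 1 := by
        rw [Pi.sub_apply, hu, Pi.single_eq_same]
      have h7 := FLW_c_sub (a i) (ha1 i) hi (x i)
      rw [hbox, hupd]
      simp only [g]
      rw [h5, h6]
      have h8 : rest x * (1 / (2 * P)) * FLW_c (a i) (x i) -
          rest x * (1 / (2 * P)) * FLW_c (a i) (x i - 1) =
          rest x * (1 / (2 * P)) * (FLW_c (a i) (x i) - FLW_c (a i) (x i - 1)) := by ring
      rw [h8, h7]
      ring
    simp only [h4]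
    rw [Sa, Sa, FLW_prod_upd a i, ← hP]
    have h9 : ∀ (B : Finset (Tv d n)), ∑ x ∈ B, sp (σ x) =
        ∑ x, (if x ∈ B then (1 : ℝ) else 0) * sp (σ x) := by
      intro B
      simp only [ite_mul, one_mul, zero_mul, Finset.sum_ite_mem, Finset.univ_inter]
    rw [h9, h9, Finset.mul_sum, Finset.mul_sum, ← Finset.sum_sub_distrib]
    apply Finset.sum_congr rfl
    intro x _
    field_simp
  · have h1 : ∑ e : Te d n, (if e.2 = i then g e.1 else 0) ^ 2 = ∑ x, g x * g x := by
      rw [← FLW_sum i g (fun e => g e.1)]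
      apply Finset.sum_congr rfl
      intro e _
      by_cases he : e.2 = i
      · simp only [if_pos he]
        ring
      · simp only [if_neg he]
        ring
    rw [h1]
    have h2 : ∀ x : Tv d n, g x * g x ≤ (1 / (2 * P)) ^ 2 * (a i : ℝ) ^ 2 *
        (if x ∈ (tb (Function.update a i (2 * a i)) : Finset (Tv d n)) then (1 : ℝ) else 0) := by
      intro x
      rw [hupd]
      have h3 := FLW_c_sq (a i) (ha1 i) (x i)
      have h4 : rest x * rest x = rest x := by
        simp only [rest]
        split_ifs <;> norm_num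
      have h5 : 0 ≤ rest x := by
        simp only [rest]
        split_ifs <;> norm_num
      have h6 : g x * g x = (rest x * rest x) * (1 / (2 * P)) ^ 2 * FLW_c (a i) (x i) ^ 2 := by
        simp only [g]
        ring
      rw [h6, h4]
      have h7 : 0 ≤ rest x * (1 / (2 * P)) ^ 2 := mul_nonneg h5 (sq_nonneg _)
      calc rest x * (1 / (2 * P)) ^ 2 * FLW_c (a i) (x i) ^ 2
          ≤ rest x * (1 / (2 * P)) ^ 2 * ((if (x i).val < 2 * a i then 1 else 0) * (a i : ℝ) ^ 2) :=
            mul_le_mul_of_nonneg_left h3 h7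
        _ = _ := by ring
    calc ∑ x, g x * g x ≤ ∑ x : Tv d n, (1 / (2 * P)) ^ 2 * (a i : ℝ) ^ 2 *
        (if x ∈ (tb (Function.update a i (2 * a i)) : Finset (Tv d n)) then (1 : ℝ) else 0) :=
          Finset.sum_le_sum (fun x _ => h2 x)
      _ = (1 / (2 * P)) ^ 2 * (a i : ℝ) ^ 2 *
          ((tb (Function.update a i (2 * a i)) : Finset (Tv d n)).card : ℝ) := by
          rw [← Finset.mul_sum, Finset.sum_ite_mem, Finset.univ_inter, Finset.sum_const,
            nsmul_eq_mul, mul_one]
      _ = (1 / (2 * P)) ^ 2 * (a i : ℝ) ^ 2 * (2 * P) := by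
          rw [card_tb, Nat.cast_prod, FLW_prod_upd]
          intro k
          by_cases hk : k = i
          · subst hk
            rw [Function.update_self]
            exact hi
          · rw [Function.update_of_ne hk]
            exact ha k
      _ ≤ (a i : ℝ) ^ 2 / (2 * P) := by
          apply le_of_eq
          field_simp

end H82.IC
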