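import Pool.Agent.H82.IC.RP1

/-!
# RP2: Gaussian domination

If for every edge `e0` there is a reflection `R : Rfl Γ` for which `e0` is a crossing edge, then `Zh h ≤ Zh 0` for all `h : E → ℝ` (`β > 0`).
Proof.  `Zh` is continuous in `h`, positive, and tends to `0` at infinity: if `|h e| ≥ 2 + K` for some `e` then `(σ - σ' + h e)^2 ≥ K^2` and all factors are `≤ 1`, so `Zh h ≤ 2^|V| exp(-(β/2)K^2)`.
So a maximiser exists (`Continuous.exists_forall_ge'` with `cocompact`, or a compact box).  Among the maximisers choose `h` with the smallest number `n(h)` of edges with `h e ≠ 0`.  Suppose `h e0 ≠ 0`, take `R` with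
`e0` crossing.  `rp`: `(Zh h)^2 ≤ Zh (foldL h) Zh (foldR h)`, both factors `≤ Zh h`, `Zh h > 0`, hence both are equal to `Zh h`: `foldL h` and `foldR h` are maximisers.
Let `a` = number of `e` inside `L` with `h e ≠ 0`, `b` = number of `e` inside `Lᶜ` with `h e ≠ 0`, `c ≥ 1` = number of crossing edges with `h e ≠ 0`: `n(h) = a + b + c`, `n(foldL h) = 2a`,
`n(foldR h) = 2b` (`ta` is a bijection between the edges inside `L` and those inside `Lᶜ`: `keep`, `rev`, `th_L`).  `min(2a, 2b) ≤ a + b < n(h)`, contradiction.  So `h = 0`.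
-/

set_option autoImplicit false

open Finset

namespace H82.IC

variable {V E : Type*} [Fintype V] [DecidableEq V] [Fintype E] [DecidableEq E]

theorem RP2_pos (Γ : Gr V E) (β : ℝ) (h : E → ℝ) : 0 < Γ.Zh β h := by
  unfold Gr.Zh
  exact Finset.sum_pos (fun σ _ => Finset.prod_pos fun e _ => Real.exp_pos _)
    ⟨fun _ => true, Finset.mem_univ _⟩

theorem RP2_cont (Γ : Gr V E) (β : ℝ) : Continuous (fun h : E → ℝ => Γ.Zh β h) := by
  unfold Gr.Zh
  fun_prop

theorem RP2_sp_abs (a b : Bool) : |sp a - sp b| ≤ 2 := by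
  cases a <;> cases b <;> simp [sp] <;> norm_num

theorem RP2_decay (Γ : Gr V E) {β : ℝ} (hβ : 0 < β) {K : ℝ} (hK : 0 ≤ K) (h : E → ℝ)
    (e0 : E) (he : 2 + K ≤ |h e0|) :
    Γ.Zh β h ≤ (Fintype.card (V → Bool) : ℝ) * Real.exp (-(β / 2) * K ^ 2) := by
  unfold Gr.Zh
  have hle1 : ∀ (x : ℝ), Real.exp (-(β / 2) * x ^ 2) ≤ 1 := by
    intro x
    rw [Real.exp_le_one_iff]
    nlinarith [sq_nonneg x, mul_nonneg hβ.le (sq_nonneg x)]
  have hterm : ∀ σ : V → Bool,
      ∏ e, Real.exp (-(β / 2) * (sp (σ (Γ.s e)) - sp (σ (Γ.r e)) + h e) ^ 2)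
        ≤ Real.exp (-(β / 2) * K ^ 2) := by
    intro σ
    rw [← Finset.mul_prod_erase Finset.univ _ (Finset.mem_univ e0)]
    have h1 : Real.exp (-(β / 2) * (sp (σ (Γ.s e0)) - sp (σ (Γ.r e0)) + h e0) ^ 2)
        ≤ Real.exp (-(β / 2) * K ^ 2) := by
      apply Real.exp_le_exp.mpr
      have h2 : K ≤ |sp (σ (Γ.s e0)) - sp (σ (Γ.r e0)) + h e0| := by
        have h3 := RP2_sp_abs (σ (Γ.s e0)) (σ (Γ.r e0))
        have h4 : |h e0| ≤ |sp (σ (Γ.s e0)) - sp (σ (Γ.r e0)) + h e0|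
            + |sp (σ (Γ.s e0)) - sp (σ (Γ.r e0))| := by
          have := abs_sub (sp (σ (Γ.s e0)) - sp (σ (Γ.r e0)) + h e0)
            (sp (σ (Γ.s e0)) - sp (σ (Γ.r e0)))
          simpa using this
        linarith
      have h5 : K ^ 2 ≤ (sp (σ (Γ.s e0)) - sp (σ (Γ.r e0)) + h e0) ^ 2 := by
        rw [← sq_abs (sp (σ (Γ.s e0)) - sp (σ (Γ.r e0)) + h e0)]
        exact pow_le_pow_left₀ hK h2 2
      nlinarith
    have h6 : ∏ e ∈ Finset.univ.erase e0,
        Real.exp (-(β / 2) * (sp (σ (Γ.s e)) - sp (σ (Γ.r e)) + h e) ^ 2) ≤ 1 :=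
      Finset.prod_le_one (fun e _ => (Real.exp_pos _).le) (fun e _ => hle1 _)
    have h7 : 0 ≤ ∏ e ∈ Finset.univ.erase e0,
        Real.exp (-(β / 2) * (sp (σ (Γ.s e)) - sp (σ (Γ.r e)) + h e) ^ 2) :=
      Finset.prod_nonneg (fun e _ => (Real.exp_pos _).le)
    calc _ ≤ Real.exp (-(β / 2) * K ^ 2) * 1 :=
          mul_le_mul h1 h6 h7 (Real.exp_pos _).le
      _ = _ := mul_one _
  calc _ ≤ ∑ _σ : V → Bool, Real.exp (-(β / 2) * K ^ 2) :=
        Finset.sum_le_sum fun σ _ => hterm σ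
    _ = _ := by rw [Finset.sum_const, nsmul_eq_mul, Finset.card_univ]

theorem RP2_exists_max (Γ : Gr V E) {β : ℝ} (hβ : 0 < β) :
    ∃ h : E → ℝ, ∀ h' : E → ℝ, Γ.Zh β h' ≤ Γ.Zh β h := by
  apply (RP2_cont Γ β).exists_forall_ge' (0 : E → ℝ)
  set c : ℝ := Γ.Zh β 0 / (Fintype.card (V → Bool) : ℝ) with hc
  have hcard : (0 : ℝ) < (Fintype.card (V → Bool) : ℝ) := by
    exact_mod_cast Fintype.card_pos
  have hcpos : 0 < c := div_pos (RP2_pos Γ β 0) hcard
  set K : ℝ := Real.sqrt (max 0 (-(2 / β) * Real.log c)) with hKdef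
  have hK : 0 ≤ K := Real.sqrt_nonneg _
  have hK2 : -(2 / β) * Real.log c ≤ K ^ 2 := by
    rw [hKdef, Real.sq_sqrt (le_max_left _ _)]
    exact le_max_right _ _
  have hexp : Real.exp (-(β / 2) * K ^ 2) ≤ c := by
    rw [← Real.le_log_iff_exp_le hcpos] 
    have h1 : (β / 2) * (-(2 / β) * Real.log c) ≤ (β / 2) * K ^ 2 :=
      mul_le_mul_of_nonneg_left hK2 (by positivity)
    have h2 : (β / 2) * (-(2 / β) * Real.log c) = - Real.log c := by
      field_simp
    linarith
  have hev : ∀ᶠ h : E → ℝ in Filter.cocompact (E → ℝ), 2 + K ≤ ‖h‖ :=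
    (tendsto_norm_cocompact_atTop (E := E → ℝ)).eventually_ge_atTop (2 + K)
  filter_upwards [hev] with h hh
  have : ∃ e0, 2 + K ≤ |h e0| := by
    by_contra hcon
    push Not at hcon
    have : ‖h‖ < 2 + K := by
      rw [pi_norm_lt_iff (by linarith)]
      intro e
      rw [Real.norm_eq_abs]
      exact hcon e
    linarith
  obtain ⟨e0, he0⟩ := this
  have h3 := RP2_decay Γ hβ hK h e0 he0
  calc Γ.Zh β h ≤ _ := h3
    _ ≤ (Fintype.card (V → Bool) : ℝ) * c := mul_le_mul_of_nonneg_left hexp hcard.le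
    _ = Γ.Zh β 0 := by rw [hc]; field_simp

section
open Classical in
noncomputable def RP2_nz (h : E → ℝ) : ℕ := (Finset.univ.filter (fun e => h e ≠ 0)).card
end

theorem RP2_inL {Γ : Gr V E} (R : Rfl Γ) (e : E) (h1 : Γ.s e ∉ R.L) (h2 : Γ.r e ∉ R.L) :
    Γ.s (R.ta e) ∈ R.L ∧ Γ.r (R.ta e) ∈ R.L := by
  rcases hos : R.os e with _ | _
  · obtain ⟨a, b⟩ := R.rev e hos
    rw [a, b]
    exact ⟨(R.th_L _).mpr h2, (R.th_L _).mpr h1⟩
  · obtain ⟨a, b⟩ := R.keep e hos
    rw [a, b]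
    exact ⟨(R.th_L _).mpr h1, (R.th_L _).mpr h2⟩

theorem RP2_inR {Γ : Gr V E} (R : Rfl Γ) (e : E) (h1 : Γ.s e ∈ R.L) (h2 : Γ.r e ∈ R.L) :
    Γ.s (R.ta e) ∉ R.L ∧ Γ.r (R.ta e) ∉ R.L := by
  rcases hos : R.os e with _ | _
  · obtain ⟨a, b⟩ := R.rev e hos
    rw [a, b, R.th_L, R.th_L]
    exact ⟨not_not.mpr h2, not_not.mpr h1⟩
  · obtain ⟨a, b⟩ := R.keep e hos
    rw [a, b, R.th_L, R.th_L]
    exact ⟨not_not.mpr h1, not_not.mpr h2⟩

theorem RP2_count {Γ : Gr V E} (R : Rfl Γ) (h : E → ℝ) (e0 : E) (he : h e0 ≠ 0)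
    (hc : ¬ (Γ.s e0 ∈ R.L ↔ Γ.r e0 ∈ R.L)) :
    RP2_nz (R.foldL h) < RP2_nz h ∨ RP2_nz (R.foldR h) < RP2_nz h := by
  classical
  set A : Finset E := Finset.univ.filter (fun e => (Γ.s e ∈ R.L ∧ Γ.r e ∈ R.L) ∧ h e ≠ 0) with hA
  set B : Finset E := Finset.univ.filter (fun e => (Γ.s e ∉ R.L ∧ Γ.r e ∉ R.L) ∧ h e ≠ 0) with hB
  set C : Finset E := Finset.univ.filter (fun e => ¬ (Γ.s e ∈ R.L ↔ Γ.r e ∈ R.L) ∧ h e ≠ 0) with hC
  have hL : RP2_nz (R.foldL h) ≤ 2 * A.card := by
    have hsub : Finset.univ.filter (fun e => R.foldL h e ≠ 0) ⊆ A ∪ A.image R.ta := by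
      intro e hmem
      rw [Finset.mem_filter] at hmem
      have hne := hmem.2
      rw [Finset.mem_union]
      unfold Rfl.foldL at hne
      by_cases c1 : Γ.s e ∈ R.L ∧ Γ.r e ∈ R.L
      · left
        rw [if_pos c1] at hne
        rw [hA, Finset.mem_filter]
        exact ⟨Finset.mem_univ _, c1, hne⟩
      · rw [if_neg c1] at hne
        by_cases c2 : Γ.s e ∉ R.L ∧ Γ.r e ∉ R.L
        · right
          rw [if_pos c2] at hne
          have hne' : h (R.ta e) ≠ 0 := by
            intro h0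
            apply hne
            rw [h0]
            simp
          rw [Finset.mem_image]
          refine ⟨R.ta e, ?_, R.ta_ta e⟩
          rw [hA, Finset.mem_filter]
          exact ⟨Finset.mem_univ _, RP2_inL R e c2.1 c2.2, hne'⟩
        · rw [if_neg c2] at hne
          exact absurd rfl hne
    have h1 := Finset.card_le_card hsub
    have h2 := Finset.card_union_le A (A.image R.ta)
    have h3 : (A.image R.ta).card ≤ A.card := Finset.card_image_le
    unfold RP2_nz
    have h4 : (Finset.univ.filter (fun e => R.foldL h e ≠ 0)).card ≤ 2 * A.card := by omega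
    convert h4
  have hR : RP2_nz (R.foldR h) ≤ 2 * B.card := by
    have hsub : Finset.univ.filter (fun e => R.foldR h e ≠ 0) ⊆ B ∪ B.image R.ta := by
      intro e hmem
      rw [Finset.mem_filter] at hmem
      have hne := hmem.2
      rw [Finset.mem_union]
      unfold Rfl.foldR at hne
      by_cases c1 : Γ.s e ∉ R.L ∧ Γ.r e ∉ R.L
      · left
        rw [if_pos c1] at hne
        rw [hB, Finset.mem_filter]
        exact ⟨Finset.mem_univ _, c1, hne⟩
      · rw [if_neg c1] at hne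
        by_cases c2 : Γ.s e ∈ R.L ∧ Γ.r e ∈ R.L
        · right
          rw [if_pos c2] at hne
          have hne' : h (R.ta e) ≠ 0 := by
            intro h0
            apply hne
            rw [h0]
            simp
          rw [Finset.mem_image]
          refine ⟨R.ta e, ?_, R.ta_ta e⟩
          rw [hB, Finset.mem_filter]
          exact ⟨Finset.mem_univ _, RP2_inR R e c2.1 c2.2, hne'⟩
        · rw [if_neg c2] at hne
          exact absurd rfl hne
    have h1 := Finset.card_le_card hsub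
    have h2 := Finset.card_union_le B (B.image R.ta)
    have h3 : (B.image R.ta).card ≤ B.card := Finset.card_image_le
    unfold RP2_nz
    have h4 : (Finset.univ.filter (fun e => R.foldR h e ≠ 0)).card ≤ 2 * B.card := by omega
    convert h4
  have hN : A.card + B.card + C.card ≤ RP2_nz h := by
    have hdAB : Disjoint A B := by
      rw [Finset.disjoint_left]
      intro e h1 h2
      rw [hA, Finset.mem_filter] at h1
      rw [hB, Finset.mem_filter] at h2
      exact h2.2.1.1 h1.2.1.1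
    have hdABC : Disjoint (A ∪ B) C := by
      rw [Finset.disjoint_left]
      intro e h1 h2
      rw [hC, Finset.mem_filter] at h2
      rw [Finset.mem_union] at h1
      rcases h1 with h1 | h1
      · rw [hA, Finset.mem_filter] at h1
        exact h2.2.1 ⟨fun _ => h1.2.1.2, fun _ => h1.2.1.1⟩
      · rw [hB, Finset.mem_filter] at h1
        exact h2.2.1 ⟨fun h => absurd h h1.2.1.1, fun h => absurd h h1.2.1.2⟩
    rw [← Finset.card_union_of_disjoint hdAB, ← Finset.card_union_of_disjoint hdABC]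
    have hsub : (A ∪ B) ∪ C ⊆ Finset.univ.filter (fun e => h e ≠ 0) := by
      intro e hm
      rw [Finset.mem_filter]
      refine ⟨Finset.mem_univ _, ?_⟩
      rw [Finset.mem_union, Finset.mem_union] at hm
      rcases hm with (hm | hm) | hm
      · rw [hA, Finset.mem_filter] at hm
        exact hm.2.2
      · rw [hB, Finset.mem_filter] at hm
        exact hm.2.2
      · rw [hC, Finset.mem_filter] at hm
        exact hm.2.2
    have := Finset.card_le_card hsub
    unfold RP2_nz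
    convert this
  have hCpos : 0 < C.card := by
    rw [Finset.card_pos]
    refine ⟨e0, ?_⟩
    rw [hC, Finset.mem_filter]
    exact ⟨Finset.mem_univ _, hc, he⟩
  omega

theorem RP2_ind (Γ : Gr V E) {β : ℝ} (hβ : 0 < β)
    (hR : ∀ e0 : E, ∃ R : Rfl Γ, ¬ (Γ.s e0 ∈ R.L ↔ Γ.r e0 ∈ R.L)) (n : ℕ) :
    ∀ h : E → ℝ, (∀ h' : E → ℝ, Γ.Zh β h' ≤ Γ.Zh β h) → RP2_nz h = n →
      ∀ h' : E → ℝ, Γ.Zh β h' ≤ Γ.Zh β 0 := by
  induction n using Nat.strong_induction_on with
  | _ n ih =>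
    intro h hmax hn
    by_cases h0 : h = 0
    · rw [← h0]
      exact hmax
    · obtain ⟨e0, he0⟩ : ∃ e0, h e0 ≠ 0 := by
        by_contra hcon
        push Not at hcon
        exact h0 (funext hcon)
      obtain ⟨R, hRc⟩ := hR e0
      have hrp := rp Γ R hβ.le h
      have hpos := RP2_pos Γ β h
      have hposL := RP2_pos Γ β (R.foldL h)
      have hposR := RP2_pos Γ β (R.foldR h)
      have hLle := hmax (R.foldL h)
      have hRle := hmax (R.foldR h)
      have hLeq : Γ.Zh β h ≤ Γ.Zh β (R.foldL h) := by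
        by_contra hlt
        push Not at hlt
        nlinarith
      have hReq : Γ.Zh β h ≤ Γ.Zh β (R.foldR h) := by
        by_contra hlt
        push Not at hlt
        nlinarith
      rcases RP2_count R h e0 he0 hRc with hlt | hlt
      · exact ih _ (hn ▸ hlt) (R.foldL h) (fun h' => (hmax h').trans hLeq) rfl
      · exact ih _ (hn ▸ hlt) (R.foldR h) (fun h' => (hmax h').trans hReq) rfl

theorem gaussian_domination (Γ : Gr V E) {β : ℝ} (hβ : 0 < β)
    (hR : ∀ e0 : E, ∃ R : Rfl Γ, ¬ (Γ.s e0 ∈ R.L ↔ Γ.r e0 ∈ R.L)) (h : E → ℝ) :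
    Γ.Zh β h ≤ Γ.Zh β 0 := by
  obtain ⟨h1, hmax⟩ := RP2_exists_max Γ hβ
  exact RP2_ind Γ hβ hR _ h1 hmax rfl h

end H82.IC
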