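import Pool.Agent.H82.IC.FLW
import Pool.Agent.H82.IC.RP2

/-!
# FLW2: the infrared bound for cube averages on the torus

`n = 2^M`, `M ≥ 1`: `gaussian_domination` applies by `torus_reflections` (`n = 2 * 2^(M-1)`; transport along the equality, or state everything for `2 * m`).
Let `A a = √(IsE ((Sa a)^2))`.  `flow_step`, `infrared`, `isE_minkowski`: `A a ≤ A (update a i (2 a_i)) + √(a_i²/(2 β ∏ a))`.
From the cube of side `2^j` to the cube of side `2^{j+1}` (`j < M`): `d` steps, in each `a_i = 2^j` and all `a_k ∈ {2^j, 2^{j+1}}`, `∏ a ≥ 2^{jd}`, so each error is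
`≤ √(2^{2j - jd}/(2β)) ≤ √(2^{-j}/(2β))` (`d ≥ 3`).  (Induction over the directions: after the directions in a finset `D` of indices, `a = fun k => if k ∈ D then 2^(j+1) else 2^j`.)
Sum over `j' = j, ..., M-1`: `∑ d √(2^{-j'}/(2β)) ≤ d/√(2β) * 2^{-j/2}/(1 - 2^{-1/2}) ≤ 3 d 2^{-j/2}/√β`.  It is convenient to prove by downward induction (or induction on `M - j`)
`A (2^j) ≤ A (2^M) + (d/√(2β)) * ∑_{j' = j}^{M-1} √(2^{-j'})` and to bound the geometric sum by telescoping: `√(2^{-j'}) ≤ (√2/(√2-1)) (√(2^{-j'}) - √(2^{-j'-1}))`.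
-/

set_option autoImplicit false

open Finset

namespace H82.IC

instance neZero_pow2 (M : ℕ) : NeZero (2 ^ M) := ⟨by positivity⟩

theorem FLW2_refl (d n m : ℕ) (hn : n = 2 * m) (hm : 1 ≤ m) (e0 : Te d n) :
    ∃ R : Rfl (Tg d n), ¬ ((Tg d n).s e0 ∈ R.L ↔ (Tg d n).r e0 ∈ R.L) := by
  subst hn
  exact torus_reflections d m hm e0

/-- The square root of the second moment of the box average. -/
noncomputable def FLW2_A (d M : ℕ) (β : ℝ) (a : Fin d → ℕ) : ℝ :=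
  Real.sqrt ((Tg d (2 ^ M)).IsE β (fun σ => (Sa a σ) ^ 2))

theorem FLW2_step {d : ℕ} {β : ℝ} (hβ : 0 < β) (M : ℕ) (hM : 1 ≤ M) (a : Fin d → ℕ)
    (ha : ∀ i, a i ≤ 2 ^ M) (ha1 : ∀ i, 1 ≤ a i) (i : Fin d) (hi : 2 * a i ≤ 2 ^ M) :
    FLW2_A d M β a ≤ FLW2_A d M β (Function.update a i (2 * a i)) +
      Real.sqrt ((a i : ℝ) ^ 2 / (2 * ∏ k, (a k : ℝ)) / β) := by
  obtain ⟨h, h1, h2⟩ := flow_step (n := 2 ^ M) a ha ha1 i hi
  have hGD : ∀ h : Te d (2 ^ M) → ℝ, (Tg d (2 ^ M)).Zh β h ≤ (Tg d (2 ^ M)).Zh β 0 := by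
    intro h
    refine gaussian_domination (Tg d (2 ^ M)) hβ (fun e0 => ?_) h
    refine FLW2_refl d (2 ^ M) (2 ^ (M - 1)) ?_ Nat.one_le_two_pow e0
    rw [← pow_succ']
    congr 1
    omega
  have h3 := infrared (Tg d (2 ^ M)) hβ hGD h
  have h4 := isE_minkowski (Tg d (2 ^ M)) β (Sa (Function.update a i (2 * a i)))
    (fun σ => ∑ e, h e * (sp (σ ((Tg d (2 ^ M)).s e)) - sp (σ ((Tg d (2 ^ M)).r e))))
  have h5 : (fun σ : Tv d (2 ^ M) → Bool => (Sa (Function.update a i (2 * a i)) σ +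
      ∑ e, h e * (sp (σ ((Tg d (2 ^ M)).s e)) - sp (σ ((Tg d (2 ^ M)).r e)))) ^ 2) =
      fun σ => (Sa a σ) ^ 2 := by
    funext σ
    rw [h1]
    ring
  rw [h5] at h4
  refine h4.trans ?_
  refine add_le_add le_rfl (Real.sqrt_le_sqrt (h3.trans ?_))
  exact div_le_div_of_nonneg_right h2 hβ.le

theorem FLW2_dirs {d : ℕ} (hd : 3 ≤ d) {β : ℝ} (hβ : 0 < β) (M j : ℕ) (hj : j + 1 ≤ M)
    (D : Finset (Fin d)) :
    FLW2_A d M β (fun _ => 2 ^ j) ≤
      FLW2_A d M β (fun k => if k ∈ D then 2 ^ (j + 1) else 2 ^ j) +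
        D.card * Real.sqrt ((2 ^ j : ℝ)⁻¹ / β / 2) := by
  have h2j : (2 : ℕ) ^ j ≤ 2 ^ M := Nat.pow_le_pow_right (by norm_num) (by omega)
  have h2j1 : (2 : ℕ) ^ (j + 1) ≤ 2 ^ M := Nat.pow_le_pow_right (by norm_num) hj
  induction D using Finset.induction_on with
  | empty => simp
  | insert i D hi ih =>
    have h1 := FLW2_step hβ M (by omega) (fun k => if k ∈ D then 2 ^ (j + 1) else 2 ^ j)
      (fun k => by
        show (if k ∈ D then 2 ^ (j + 1) else 2 ^ j) ≤ 2 ^ M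
        split_ifs
        · exact h2j1
        · exact h2j)
      (fun k => by
        show 1 ≤ (if k ∈ D then 2 ^ (j + 1) else 2 ^ j)
        split_ifs <;> exact Nat.one_le_two_pow) i
      (by
        show 2 * (if i ∈ D then 2 ^ (j + 1) else 2 ^ j) ≤ 2 ^ M
        rw [if_neg hi, ← pow_succ']
        exact h2j1)
    have h3 : Function.update (fun k => if k ∈ D then 2 ^ (j + 1) else 2 ^ j) i
        (2 * (if i ∈ D then 2 ^ (j + 1) else 2 ^ j)) =
        (fun k => if k ∈ insert i D then 2 ^ (j + 1) else 2 ^ j) := by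
      funext k
      by_cases hk : k = i
      · subst hk
        rw [Function.update_self, if_neg hi, if_pos (Finset.mem_insert_self _ _), ← pow_succ']
      · rw [Function.update_of_ne hk]
        by_cases hkD : k ∈ D
        · rw [if_pos hkD, if_pos (Finset.mem_insert_of_mem hkD)]
        · rw [if_neg hkD, if_neg]
          rw [Finset.mem_insert, not_or]
          exact ⟨hk, hkD⟩
    rw [h3] at h1
    have hp : (0 : ℝ) < 2 ^ j := by positivity
    have h4 : ((2 : ℝ) ^ j) ^ d ≤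
        ∏ k : Fin d, ((if k ∈ D then 2 ^ (j + 1) else 2 ^ j : ℕ) : ℝ) := by
      have h5 : ((2 : ℝ) ^ j) ^ d = ∏ _k : Fin d, (2 : ℝ) ^ j := by
        rw [Finset.prod_const, Finset.card_univ, Fintype.card_fin]
      rw [h5]
      refine Finset.prod_le_prod (fun _ _ => hp.le) (fun k _ => ?_)
      split_ifs
      · push_cast
        exact pow_le_pow_right₀ (by norm_num) (by omega)
      · push_cast
        exact le_rfl
    have h5 : ((2 : ℝ) ^ j) ^ 3 ≤ ((2 : ℝ) ^ j) ^ d :=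
      pow_le_pow_right₀ (one_le_pow₀ (by norm_num)) hd
    have h6 : Real.sqrt (((if i ∈ D then 2 ^ (j + 1) else 2 ^ j : ℕ) : ℝ) ^ 2 /
        (2 * ∏ k : Fin d, ((if k ∈ D then 2 ^ (j + 1) else 2 ^ j : ℕ) : ℝ)) / β) ≤
        Real.sqrt ((2 ^ j : ℝ)⁻¹ / β / 2) := by
      apply Real.sqrt_le_sqrt
      rw [if_neg hi]
      have h7 : (((2 ^ j : ℕ) : ℝ)) = (2 : ℝ) ^ j := by push_cast; rfl
      rw [h7]
      have h8 : ((2 : ℝ) ^ j) ^ 2 /
          (2 * ∏ k : Fin d, ((if k ∈ D then 2 ^ (j + 1) else 2 ^ j : ℕ) : ℝ)) ≤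
          ((2 : ℝ) ^ j) ^ 2 / (2 * ((2 : ℝ) ^ j) ^ 3) := by
        apply div_le_div_of_nonneg_left (by positivity) (by positivity)
        linarith
      have h9 : ((2 : ℝ) ^ j) ^ 2 / (2 * ((2 : ℝ) ^ j) ^ 3) = (2 ^ j : ℝ)⁻¹ / 2 := by
        field_simp
      rw [h9] at h8
      have h10 : (2 ^ j : ℝ)⁻¹ / β / 2 = (2 ^ j : ℝ)⁻¹ / 2 / β := by ring
      rw [h10]
      exact div_le_div_of_nonneg_right h8 hβ.le
    have h7 : FLW2_A d M β (fun k => if k ∈ D then 2 ^ (j + 1) else 2 ^ j) ≤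
        FLW2_A d M β (fun k => if k ∈ insert i D then 2 ^ (j + 1) else 2 ^ j) +
          Real.sqrt ((2 ^ j : ℝ)⁻¹ / β / 2) := h1.trans (add_le_add le_rfl h6)
    rw [Finset.card_insert_of_notMem hi]
    push_cast
    linarith

theorem FLW2_double {d : ℕ} (hd : 3 ≤ d) {β : ℝ} (hβ : 0 < β) (M j : ℕ) (hj : j + 1 ≤ M) :
    FLW2_A d M β (fun _ => 2 ^ j) ≤ FLW2_A d M β (fun _ => 2 ^ (j + 1)) +
      d * Real.sqrt ((2 ^ j : ℝ)⁻¹ / β / 2) := by
  have h := FLW2_dirs hd hβ M j hj Finset.univ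
  simpa using h

theorem torus_infrared {d : ℕ} (hd : 3 ≤ d) {β : ℝ} (hβ : 0 < β) (M j : ℕ) (hj : j ≤ M) :
    Real.sqrt ((Tg d (2 ^ M)).IsE β (fun σ => (Sa (fun _ => 2 ^ j) σ) ^ 2)) ≤
      Real.sqrt ((Tg d (2 ^ M)).IsE β (fun σ => (Sa (fun _ => 2 ^ M) σ) ^ 2)) +
        3 * d * Real.sqrt ((2 ^ j : ℝ)⁻¹ / β) := by
  have key : ∀ k j : ℕ, j + k = M → FLW2_A d M β (fun _ => 2 ^ j) ≤
      FLW2_A d M β (fun _ => 2 ^ M) + 3 * d * Real.sqrt ((2 ^ j : ℝ)⁻¹ / β) := by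
    intro k
    induction k with
    | zero =>
      intro j hj
      have hj' : j = M := by omega
      subst hj'
      have h1 : 0 ≤ 3 * (d : ℝ) * Real.sqrt ((2 ^ j : ℝ)⁻¹ / β) := by positivity
      linarith
    | succ k ih =>
      intro j hj
      have h1 := ih (j + 1) (by omega)
      have h2 := FLW2_double hd hβ M j (by omega)
      obtain ⟨x, hx⟩ : ∃ x, x = (2 ^ j : ℝ)⁻¹ / β := ⟨_, rfl⟩
      have hx0 : 0 ≤ x := by rw [hx]; positivity
      have h3 : (2 ^ (j + 1) : ℝ)⁻¹ / β = x / 2 := by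
        rw [hx, pow_succ, mul_inv]
        ring
      rw [h3] at h1
      rw [← hx] at h2 ⊢
      have h4 : 4 * Real.sqrt (x / 2) ≤ 3 * Real.sqrt x := by
        have h5 : Real.sqrt (16 * (x / 2)) ≤ Real.sqrt (9 * x) :=
          Real.sqrt_le_sqrt (by linarith)
        rw [Real.sqrt_mul (by norm_num), Real.sqrt_mul (by norm_num)] at h5
        have h6 : Real.sqrt 16 = 4 := by
          rw [show (16 : ℝ) = 4 ^ 2 by norm_num]
          exact Real.sqrt_sq (by norm_num)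
        have h7 : Real.sqrt 9 = 3 := by
          rw [show (9 : ℝ) = 3 ^ 2 by norm_num]
          exact Real.sqrt_sq (by norm_num)
        rw [h6, h7] at h5
        exact h5
      have h5 : (d : ℝ) * (4 * Real.sqrt (x / 2)) ≤ d * (3 * Real.sqrt x) :=
        mul_le_mul_of_nonneg_left h4 (Nat.cast_nonneg d)
      nlinarith
  obtain ⟨k, hk⟩ := Nat.exists_eq_add_of_le hj
  exact key k j hk.symm

end H82.IC
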