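import Pool.Agent.H82.IC.DT1

/-!
# FV1: the F-version of the double trace

`F` a finite set of edges, `t e = τ` on `F`, `0 ≤ τ < 1`.
* `wFV_le`: on `F`: `(0,0)` open: `s - s^2 ≤ t^2 = 1 - s^2` (`0 ≤ s ≤ 1`), `(0,1)` open: `t s ≤ t`, closed equal or `0 ≤`; first flow `1`: `0 ≤ wDT` (`wDT_nonneg`); off `F` equal.
* `sgF_le`: `trc_mono_w`.
* `sgF_one`: on `F`: `wFV e a true + wFV e a false = s * hp (off F t) e a.1 * hp t e a.2`: `a.1 = 0`: `a.2 = 0`: `s`, `a.2 = 1`: `s t`; `a.1 = 1`: `0`.  Off `F`: `hp t e a.1 * hp t e a.2`.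
  So by `trc_pm2` (with `p e = (if e ∈ F then s else 1) * hp (off F t) e`), and `∏ e, (if e ∈ F then s else 1) = s^|F|`.
* `sgF_o`, `sgF_uy`: combine with `fkS_F`:  `fkE t (1[ω ∩ F = ∅] 1[o ↔ u]) = (1-τ)^|F| z (off F t) (src o u) / z t 0`, so with `CF = ((1-τ)/s)^|F|`, `s = √(1-τ²) > 0`:
  `CF * sgF (src o u) T 1 = fkE (...) * (z t T / z t 0)`.
* `CF_le_one`: `(1-τ)/√(1-τ²) ≤ 1` as `(1-τ)² ≤ 1 - τ² = (1-τ)(1+τ)`.
* `sgF_switch`: `trc_switch` with `g e = (c e, c e)`, `c` a flow supported in `ω \ F`; on edges not in `F` the weight is `wDT`.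
-/

set_option autoImplicit false

open Finset

namespace H82.IC

variable {V E : Type*} [Fintype E] [DecidableEq E]

theorem FV1_sqrt {x : ℝ} (h : 0 ≤ x ∧ x ≤ 1) :
    0 ≤ Real.sqrt (1 - x ^ 2) ∧ Real.sqrt (1 - x ^ 2) ≤ 1 ∧ 1 - x ^ 2 ≤ Real.sqrt (1 - x ^ 2) := by
  obtain ⟨h0, h1⟩ := h
  have h2 : 0 ≤ 1 - x ^ 2 := by nlinarith
  have h3 : 1 - x ^ 2 ≤ 1 := by nlinarith
  have h4 : Real.sqrt (1 - x ^ 2) ≤ 1 := by
    rw [Real.sqrt_le_left zero_le_one, one_pow]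
    exact h3
  refine ⟨Real.sqrt_nonneg _, h4, ?_⟩
  have h5 := Real.sq_sqrt h2
  have h6 := Real.sqrt_nonneg (1 - x ^ 2)
  nlinarith

theorem wFV_nonneg {t : E → ℝ} (ht : T01 t) (F : Finset E) (e : E) (a : ZMod 2 × ZMod 2) (b : Bool) :
    0 ≤ wFV F t e a b := by
  obtain ⟨h1, h2, h3⟩ := FV1_sqrt (ht e)
  have h0 := (ht e).1
  have h00 := (ht e).2
  unfold wFV
  split_ifs
  · linarith
  · exact mul_nonneg h0 h1
  · nlinarith
  · exact le_rfl
  · exact le_rfl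
  · exact wDT_nonneg ht e a b

theorem wFV_le {t : E → ℝ} (ht : T01 t) (F : Finset E) (e : E) (a : ZMod 2 × ZMod 2) (b : Bool) :
    wFV F t e a b ≤ wDT t e a b := by
  obtain ⟨h1, h2, h3⟩ := FV1_sqrt (ht e)
  have h0 := (ht e).1
  have h00 := (ht e).2
  have hD := wDT_nonneg ht e a b
  unfold wFV
  by_cases hF : e ∈ F
  · rw [if_pos hF]
    by_cases ha : a.1 = 0
    · rw [if_pos ha]
      by_cases hb : b = true
      · rw [if_pos hb]
        unfold wDT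
        rw [if_pos hb]
        by_cases ha2 : a.2 = 0
        · rw [if_pos ha2, if_pos (by rw [ha, ha2])]
          linarith
        · rw [if_neg ha2, if_neg (by
            rw [ha]
            exact fun h => ha2 h.symm)]
          exact mul_le_of_le_one_right h0 h2
      · rw [if_neg hb]
        by_cases ha2 : a.2 = 0
        · rw [if_pos ha2]
          unfold wDT
          rw [if_neg hb, if_pos (Prod.ext ha ha2)]
        · rw [if_neg ha2]
          exact hD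
    · rw [if_neg ha]
      exact hD
  · rw [if_neg hF]

theorem sgF_le (Γ : Gr V E) {t : E → ℝ} (ht : T01 t) (F : Finset E) (S T : V → ZMod 2)
    {f : Finset E → ℝ} (hf : ∀ ω, 0 ≤ f ω) : Γ.sgF F t S T f ≤ Γ.sg t S T f := by
  unfold Gr.sgF Gr.sg
  exact div_le_div_of_nonneg_right
    (trc_mono_w Γ (wFV F t) (wDT t) (wFV_nonneg ht F) (wFV_le ht F) (pr S T) hf) (sq_nonneg _)

theorem FV1_trc_abs (Γ : Gr V E) (w : E → ZMod 2 × ZMod 2 → Bool → ℝ) (hw : ∀ e a b, 0 ≤ w e a b)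
    (S : V → ZMod 2 × ZMod 2) (f : Finset E → ℝ) :
    |Γ.trc w S f| ≤ Γ.trc w S (fun ω => |f ω|) := by
  rw [abs_le]
  constructor
  · have h1 := trc_smul Γ w S (-1) (fun ω => |f ω|)
    have h2 := trc_mono Γ w hw S (f := fun ω => -1 * |f ω|) (g := f) fun ω => by
      have := neg_abs_le (f ω)
      linarith
    linarith
  · exact trc_mono Γ w hw S fun ω => le_abs_self (f ω)

theorem sgF_abs (Γ : Gr V E) {t : E → ℝ} (ht : T01 t) (F : Finset E) (S T : V → ZMod 2)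
    (f : Finset E → ℝ) : |Γ.sgF F t S T f| ≤ Γ.sg t S T (fun ω => |f ω|) := by
  refine le_trans ?_ (sgF_le Γ ht F S T fun ω => abs_nonneg (f ω))
  unfold Gr.sgF
  rw [abs_div, abs_of_nonneg (sq_nonneg (Γ.z t 0))]
  exact div_le_div_of_nonneg_right (FV1_trc_abs Γ _ (wFV_nonneg ht F) _ f) (sq_nonneg _)

theorem sgF_sub (Γ : Gr V E) (F : Finset E) (t : E → ℝ) (S T : V → ZMod 2) (f g : Finset E → ℝ) :
    Γ.sgF F t S T (fun ω => f ω - g ω) = Γ.sgF F t S T f - Γ.sgF F t S T g := by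
  unfold Gr.sgF
  rw [trc_sub, sub_div]

theorem sgF_smul (Γ : Gr V E) (F : Finset E) (t : E → ℝ) (S T : V → ZMod 2) (c : ℝ)
    (f : Finset E → ℝ) : Γ.sgF F t S T (fun ω => c * f ω) = c * Γ.sgF F t S T f := by
  unfold Gr.sgF
  rw [trc_smul, mul_div_assoc]

theorem sgF_sum {ι : Type*} (Γ : Gr V E) (F : Finset E) (t : E → ℝ) (S T : V → ZMod 2) (I : Finset ι)
    (f : ι → Finset E → ℝ) :
    Γ.sgF F t S T (fun ω => ∑ i ∈ I, f i ω) = ∑ i ∈ I, Γ.sgF F t S T (f i) := by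
  unfold Gr.sgF
  rw [trc_sum, Finset.sum_div]

/-- the constant `((1-τ)/√(1-τ²))^|F|`. -/
noncomputable def CF (τ : ℝ) (n : ℕ) : ℝ := ((1 - τ) / Real.sqrt (1 - τ ^ 2)) ^ n

theorem CF_nonneg {τ : ℝ} (h0 : 0 ≤ τ) (h1 : τ < 1) (n : ℕ) : 0 ≤ CF τ n := by
  unfold CF
  exact pow_nonneg (div_nonneg (by linarith) (Real.sqrt_nonneg _)) n

theorem CF_le_one {τ : ℝ} (h0 : 0 ≤ τ) (h1 : τ < 1) (n : ℕ) : CF τ n ≤ 1 := by
  unfold CF
  refine pow_le_one₀ (div_nonneg (by linarith) (Real.sqrt_nonneg _)) ?_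
  refine div_le_one_of_le₀ ?_ (Real.sqrt_nonneg _)
  apply Real.le_sqrt_of_sq_le
  nlinarith

theorem FV1_p (F : Finset E) (t : E → ℝ) (e : E) (a : ZMod 2 × ZMod 2) :
    wFV F t e a true + wFV F t e a false =
      ((if e ∈ F then Real.sqrt (1 - t e ^ 2) else 1) * hp (off (F : Set E) t) e a.1) *
        hp t e a.2 := by
  unfold wFV hp off
  by_cases hF : e ∈ F
  · have hF' : e ∈ (F : Set E) := hF
    rw [if_pos hF, if_pos hF, if_pos hF, if_pos hF']
    by_cases h1 : a.1 = 0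
    · by_cases h2 : a.2 = 0
      · simp [h1, h2]
      · simp [h1, h2]
        ring
    · simp [h1]
  · have hF' : e ∉ (F : Set E) := hF
    rw [if_neg hF, if_neg hF, if_neg hF, if_neg hF']
    unfold wDT
    have h01 : ∀ x : ZMod 2, x = 0 ∨ x = 1 := by decide
    rcases h01 a.1 with h1 | h1 <;> rcases h01 a.2 with h2 | h2
    · have ha : a = 0 := Prod.ext h1 h2
      simp [ha]
    · have ha : a ≠ 0 := fun h => by
        rw [h] at h2
        exact absurd h2 (by decide)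
      simp [h1, h2, ha]
    · have ha : a ≠ 0 := fun h => by
        rw [h] at h1
        exact absurd h1 (by decide)
      simp [h1, h2, ha]
    · have ha : a ≠ 0 := fun h => by
        rw [h] at h1
        exact absurd h1 (by decide)
      simp [h1, h2, ha]
      ring

theorem FV1_zz (Γ : Gr V E) (c : E → ℝ) (p : E → ZMod 2 → ℝ) (S : V → ZMod 2) :
    Γ.zz (fun e a => c e * p e a) S = (∏ e, c e) * Γ.zz p S := by
  unfold Gr.zz
  rw [Finset.mul_sum]
  refine Finset.sum_congr rfl fun η _ => ?_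
  rw [Finset.prod_mul_distrib]
  ring

theorem FV1_trc_one (Γ : Gr V E) (F : Finset E) (t : E → ℝ) (S T : V → ZMod 2) :
    Γ.trc (wFV F t) (pr S T) (fun _ => 1) =
      (∏ e ∈ F, Real.sqrt (1 - t e ^ 2)) * Γ.z (off (F : Set E) t) S * Γ.z t T := by
  rw [trc_pm2 Γ (wFV F t)
    (fun e a => (if e ∈ F then Real.sqrt (1 - t e ^ 2) else 1) * hp (off (F : Set E) t) e a) (hp t)
    (FV1_p F t) S T, FV1_zz]
  unfold Gr.z
  congr 2
  rw [Finset.prod_ite_mem, Finset.univ_inter]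

theorem sgF_one (Γ : Gr V E) {t : E → ℝ} (ht : T01 t) (F : Finset E) {τ : ℝ} (h0 : 0 ≤ τ) (h1 : τ < 1)
    (hF : ∀ e ∈ F, t e = τ) (o u : V) (T : V → ZMod 2) :
    CF τ F.card * Γ.sgF F t (src o u) T (fun _ => 1) =
      Γ.fkE t (fun ω => ind (Disjoint ω F) * ind (Γ.Conn (ω : Set E) o u)) *
        (Γ.z t T / Γ.z t 0) := by
  unfold Gr.sgF Gr.fkE
  rw [FV1_trc_one, fkS_F]
  have hs : 0 < Real.sqrt (1 - τ ^ 2) := Real.sqrt_pos.mpr (by nlinarith)
  have e1 : ∏ e ∈ F, Real.sqrt (1 - t e ^ 2) = Real.sqrt (1 - τ ^ 2) ^ F.card := by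
    rw [Finset.prod_congr rfl fun e he => by rw [hF e he], Finset.prod_const]
  have e2 : ∏ e ∈ F, (1 - t e) = (1 - τ) ^ F.card := by
    rw [Finset.prod_congr rfl fun e he => by rw [hF e he], Finset.prod_const]
  rw [e1, e2]
  unfold CF
  rw [div_pow]
  have hs' := (pow_pos hs F.card).ne'
  field_simp

theorem sgF_switch (Γ : Gr V E) (F : Finset E) (t : E → ℝ) (S T : V → ZMod 2) (u v : V)
    (f : Finset E → ℝ)
    (hf : ∀ ω : Finset E, f ω ≠ 0 → Γ.Conn ((ω : Set E) \ F) u v) :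
    Γ.sgF F t S T f = Γ.sgF F t (S + src u v) (T + src u v) f := by
  unfold Gr.sgF
  rw [← pr_add, trc_switch Γ (wFV F t) (pr S T) (pr (src u v) (src u v)) f]
  intro ω hω
  obtain ⟨c, hc, hs⟩ := exists_flow Γ (hf ω hω)
  refine ⟨fun e => (c e, c e), ?_, fun e he => ?_⟩
  · rw [bd_pr]
    show pr (Γ.bd c) (Γ.bd c) = pr (src u v) (src u v)
    rw [hc]
  · have hce : c e ≠ 0 := fun h => he (by
      simp only [h]
      rfl)
    have h3 := hs e hce
    refine ⟨h3.1, fun a => ?_⟩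
    have h4 : e ∉ F := h3.2
    unfold wFV wDT
    rw [if_neg h4, if_neg h4, if_pos rfl, if_pos rfl]
    simp only [Prod.fst_add, Prod.snd_add, add_left_inj]

end H82.IC
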