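import Pool.Agent.H82.IC.FV1

/-!
# FV2: the event `G u` = `u ↔ a` in `ω \ F`

* `notG_bound`: `sg (src o u) (src u a) 1[not G u] ≤ tp o u * ∑_{z ∈ vF F} tp u z * tp z a`.
  Proof.  Expand `trc (wDT t) (pr (src o u) (src u a)) 1[not G]` as a sum over `η = (η₁, η₂)` and `ω`; for nonzero weight `supp η₂ ⊆ ω`.
  If `u ↔ a` fails in `ω \ F` then it fails in `supp η₂ \ F`, while `u ↔ a` in `supp η₂` (`conn_of_flow`); by `conn_split` (ω := supp η₂, K := F) there is `z ∈ vF F` with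
  `u ↔ z` in `supp η₂`.  So `1[not G] ≤ ∑_{z ∈ vF F} 1[u ↔ z in supp η₂]`.  Summing over `ω` (the marginal is `hp t e a.1 * hp t e a.2`) and over `η₁`:
  `≤ z (src o u) * ∑_z Q z`, `Q z = ∑_{η₂ : bd = src u a} 1[u ↔ z in supp η₂] ∏ hp t e (η₂ e)`.
  And `Q z * z 0 = ∑_{η₂, η' : bd η' = 0} ... = ` (reintroduce `ω`, weight `wDT` with first flow `η₂` and second flow `η'`) `≤ trc (wDT t) (pr (src u a) 0) 1[u ↔ z in ω]`
  (`supp η₂ ⊆ ω`, `conn_mono`) `= (z 0)^2 * tp u z * tp z a` (`sg_first`).  Divide by `(z 0)^2`.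
* `loss_bound`: `sg (src o a) 0 (1[o ↔ u] 1[not G u]) ≤` the same bound: `o ↔ a` is automatic (`sg_supp1`), so `u ↔ a` in `ω` on the event; switch with `(u,a)`
  (`src o a + src u a = src o u`): `= sg (src o u) (src u a) (1[o ↔ u]1[o ↔ a]1[not G u]) ≤ sg (src o u) (src u a) 1[not G u]`.
* `G_sub`: with sources `(src o a, 0)` and `G u`, `o ↔ u` in `ω`.
* `sgF_G`: `sgF (src o a) 0 1[G u] = sgF (src o u) (src u a) 1[G u]` (`sgF_switch`).
-/

set_option autoImplicit false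

open Finset

namespace H82.IC

variable {V E : Type*} [Fintype E] [DecidableEq E]

/-- the sum over one flow with an observable of the flow -/
noncomputable def FV2_Q (Γ : Gr V E) (t : E → ℝ) (S : V → ZMod 2) (G : (E → ZMod 2) → ℝ) : ℝ :=
  ∑ η : E → ZMod 2, ind (Γ.bd η = S) * (G η * ∏ e, hp t e (η e))

theorem FV2_Q_one (Γ : Gr V E) (t : E → ℝ) (S : V → ZMod 2) : FV2_Q Γ t S (fun _ => 1) = Γ.z t S := by
  unfold FV2_Q Gr.z Gr.zz
  simp only [one_mul]

theorem FV2_Q_sum {ι : Type*} (Γ : Gr V E) (t : E → ℝ) (S : V → ZMod 2) (I : Finset ι)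
    (G : ι → (E → ZMod 2) → ℝ) :
    FV2_Q Γ t S (fun η => ∑ i ∈ I, G i η) = ∑ i ∈ I, FV2_Q Γ t S (G i) := by
  unfold FV2_Q
  rw [Finset.sum_comm]
  refine Finset.sum_congr rfl fun η _ => ?_
  rw [Finset.sum_mul, Finset.mul_sum]

theorem FV2_sum_omega (w : E → Bool → ℝ) :
    ∑ ω : Finset E, ∏ e, w e (decide (e ∈ ω)) = ∏ e, (w e true + w e false) := by
  rw [Finset.prod_add, Finset.powerset_univ]
  refine Finset.sum_congr rfl fun ω _ => ?_
  rw [← Finset.prod_mul_prod_compl ω (fun e => w e (decide (e ∈ ω)))]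
  congr 1
  · refine Finset.prod_congr rfl fun e he => ?_
    rw [decide_eq_true he]
  · refine Finset.prod_congr (by rw [Finset.compl_eq_univ_sdiff]) fun e he => ?_
    have he' : e ∉ ω := by
      intro h
      simp [h] at he
    rw [decide_eq_false he']

omit [Fintype E] [DecidableEq E] in
theorem FV2_w (t : E → ℝ) (e : E) (a : ZMod 2 × ZMod 2) :
    wDT t e a true + wDT t e a false = hp t e a.1 * hp t e a.2 := by
  obtain ⟨x, y⟩ := a
  have h2 : ∀ x : ZMod 2, x = 0 ∨ x = 1 := by decide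
  unfold wDT hp
  rcases h2 x with rfl | rfl <;> rcases h2 y with rfl | rfl
  · simp
  · simp
  · simp
  · simp
    ring

theorem FV2_pm (Γ : Gr V E) (t : E → ℝ) (S T : V → ZMod 2) (G₁ G₂ : (E → ZMod 2) → ℝ) :
    ∑ η : E → ZMod 2 × ZMod 2, ∑ ω : Finset E, ind (Γ.bd η = pr S T) *
      ((G₁ (fun e => (η e).1) * G₂ (fun e => (η e).2)) * ∏ e, wDT t e (η e) (decide (e ∈ ω))) =
    FV2_Q Γ t S G₁ * FV2_Q Γ t T G₂ := by
  have h1 : ∀ η : E → ZMod 2 × ZMod 2, ∑ ω : Finset E, ind (Γ.bd η = pr S T) *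
      ((G₁ (fun e => (η e).1) * G₂ (fun e => (η e).2)) * ∏ e, wDT t e (η e) (decide (e ∈ ω))) =
      (ind (Γ.bd (fun e => (η e).1) = S) * (G₁ (fun e => (η e).1) * ∏ e, hp t e ((η e).1))) *
      (ind (Γ.bd (fun e => (η e).2) = T) * (G₂ (fun e => (η e).2) * ∏ e, hp t e ((η e).2))) := by
    intro η
    rw [← Finset.mul_sum, ← Finset.mul_sum, FV2_sum_omega (fun e b => wDT t e (η e) b)]
    have h2 : ∏ e, (wDT t e (η e) true + wDT t e (η e) false) =
        (∏ e, hp t e ((η e).1)) * ∏ e, hp t e ((η e).2) := by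
      rw [← Finset.prod_mul_distrib]
      exact Finset.prod_congr rfl fun e _ => FV2_w t e (η e)
    rw [h2]
    have h3 : ind (Γ.bd η = pr S T) =
        ind (Γ.bd (fun e => (η e).1) = S) * ind (Γ.bd (fun e => (η e).2) = T) := by
      rw [← ind_and, bd_pr Γ η, pr_inj]
    rw [h3]
    ring
  rw [Finset.sum_congr rfl fun η _ => h1 η]
  have h4 := (Equiv.arrowProdEquivProdArrow E (fun _ => ZMod 2) (fun _ => ZMod 2)).sum_comp
    (fun x : (E → ZMod 2) × (E → ZMod 2) =>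
      (ind (Γ.bd x.1 = S) * (G₁ x.1 * ∏ e, hp t e (x.1 e))) *
      (ind (Γ.bd x.2 = T) * (G₂ x.2 * ∏ e, hp t e (x.2 e))))
  refine Eq.trans ?_ (h4.trans ?_)
  · rfl
  · rw [Fintype.sum_prod_type]
    unfold FV2_Q
    rw [Finset.sum_mul_sum]

theorem FV2_prod_nonneg {t : E → ℝ} (ht : T01 t) (η : E → ZMod 2 × ZMod 2) (ω : Finset E) :
    0 ≤ ∏ e, wDT t e (η e) (decide (e ∈ ω)) :=
  Finset.prod_nonneg fun e _ => wDT_nonneg ht e (η e) _

theorem FV2_prod_zero (t : E → ℝ) {η : E → ZMod 2 × ZMod 2} {ω : Finset E} {e : E} (he : η e ≠ 0)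
    (hω : e ∉ ω) : ∏ e, wDT t e (η e) (decide (e ∈ ω)) = 0 := by
  refine Finset.prod_eq_zero (Finset.mem_univ e) ?_
  rw [decide_eq_false hω]
  exact wDT_closed t e (η e) he

/-- the support of a flow -/
def FV2_supp (η : E → ZMod 2) : Set E := {e | η e ≠ 0}

theorem FV2_first (Γ : Gr V E) {t : E → ℝ} (ht : T01 t) (u a z : V) :
    FV2_Q Γ t (src u a) (fun η => ind (Γ.Conn (FV2_supp η) u z)) ≤
      Γ.z t 0 * (Γ.tp t u z * Γ.tp t z a) := by
  have hz := one_le_z Γ ht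
  have hz0 : 0 < Γ.z t 0 := by linarith
  have h1 := sg_first Γ t u a z
  have h2 : FV2_Q Γ t (src u a) (fun η => ind (Γ.Conn (FV2_supp η) u z)) * Γ.z t 0 ≤
      Γ.trc (wDT t) (pr (src u a) 0) (fun ω => ind (Γ.Conn (ω : Set E) u z)) := by
    rw [← FV2_Q_one Γ t 0, ← FV2_pm]
    unfold Gr.trc
    refine Finset.sum_le_sum fun η _ => Finset.sum_le_sum fun ω _ => ?_
    refine mul_le_mul_of_nonneg_left ?_ (ind_nonneg _)
    rw [mul_one]
    by_cases hs : ∀ e, η e ≠ 0 → e ∈ ω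
    · refine mul_le_mul_of_nonneg_right ?_ (FV2_prod_nonneg ht η ω)
      refine ind_mono fun hc => conn_mono Γ ?_ hc
      intro e he
      apply hs
      intro h0
      apply he
      show (η e).1 = 0
      rw [h0]
      rfl
    · push Not at hs
      obtain ⟨e, he, hω⟩ := hs
      rw [FV2_prod_zero t he hω, mul_zero, mul_zero]
  have h3 : Γ.trc (wDT t) (pr (src u a) 0) (fun ω => ind (Γ.Conn (ω : Set E) u z)) =
      Γ.z t 0 ^ 2 * (Γ.tp t u z * Γ.tp t z a) := by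
    rw [← h1]
    unfold Gr.sg
    field_simp
  rw [h3] at h2
  have h4 : FV2_Q Γ t (src u a) (fun η => ind (Γ.Conn (FV2_supp η) u z)) * Γ.z t 0 ≤
      (Γ.z t 0 * (Γ.tp t u z * Γ.tp t z a)) * Γ.z t 0 := by
    calc _ ≤ _ := h2
      _ = _ := by ring
  exact le_of_mul_le_mul_right h4 hz0

theorem notG_bound (Γ : Gr V E) {t : E → ℝ} (ht : T01 t) (F : Finset E) (o a u : V) :
    Γ.sg t (src o u) (src u a) (fun ω => ind (¬ Γ.Conn ((ω : Set E) \ F) u a)) ≤
      Γ.tp t o u * ∑ z ∈ Γ.vF F, Γ.tp t u z * Γ.tp t z a := by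
  classical
  have hz := one_le_z Γ ht
  have hz0 : 0 < Γ.z t 0 := by linarith
  have h1 : Γ.trc (wDT t) (pr (src o u) (src u a))
      (fun ω => ind (¬ Γ.Conn ((ω : Set E) \ F) u a)) ≤
      Γ.z t (src o u) * FV2_Q Γ t (src u a)
        (fun η => ∑ z ∈ Γ.vF F, ind (Γ.Conn (FV2_supp η) u z)) := by
    rw [← FV2_Q_one Γ t (src o u), ← FV2_pm]
    unfold Gr.trc
    refine Finset.sum_le_sum fun η _ => Finset.sum_le_sum fun ω _ => ?_
    by_cases hb : Γ.bd η = pr (src o u) (src u a)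
    swap
    · rw [ind_false hb, zero_mul, zero_mul]
    refine mul_le_mul_of_nonneg_left ?_ (ind_nonneg _)
    rw [one_mul]
    by_cases hs : ∀ e, η e ≠ 0 → e ∈ ω
    · refine mul_le_mul_of_nonneg_right ?_ (FV2_prod_nonneg ht η ω)
      have hnn : ∀ z ∈ Γ.vF F, 0 ≤ ind (Γ.Conn (FV2_supp (fun e => (η e).2)) u z) :=
        fun z _ => ind_nonneg _
      beta_reduce
      by_cases hG : Γ.Conn ((ω : Set E) \ F) u a
      · rw [ind_false (not_not.2 hG)]
        exact Finset.sum_nonneg hnn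
      · rw [ind_true hG]
        have hsub : FV2_supp (fun e => (η e).2) ⊆ (ω : Set E) := by
          intro e he
          apply hs
          intro h0
          apply he
          show (η e).2 = 0
          rw [h0]
          rfl
        have hb2 : Γ.bd (fun e => (η e).2) = src u a := by
          rw [bd_pr Γ η, pr_inj] at hb
          exact hb.2
        have hc : Γ.Conn (FV2_supp (fun e => (η e).2)) u a :=
          conn_of_flow Γ hb2 fun e he => he
        have hnc : ¬ Γ.Conn (FV2_supp (fun e => (η e).2) \ (F : Set E)) u a := fun h =>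
          hG (conn_mono Γ (Set.sdiff_subset_sdiff_left hsub) h)
        obtain ⟨e, ⟨he1, he2⟩, he3⟩ := conn_split Γ hc hnc
        have heF : e ∈ F := he2
        have key : ∃ z ∈ Γ.vF F, Γ.Conn (FV2_supp (fun e => (η e).2)) u z := by
          rcases he3 with h | h
          · refine ⟨Γ.s e, ?_, conn_mono Γ Set.sdiff_subset h⟩
            unfold Gr.vF
            exact Finset.mem_union_left _ (Finset.mem_image_of_mem _ heF)
          · refine ⟨Γ.r e, ?_, conn_mono Γ Set.sdiff_subset h⟩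
            unfold Gr.vF
            exact Finset.mem_union_right _ (Finset.mem_image_of_mem _ heF)
        obtain ⟨z, hzF, hcz⟩ := key
        have := Finset.single_le_sum hnn hzF
        rw [ind_true hcz] at this
        exact this
    · push Not at hs
      obtain ⟨e, he, hω⟩ := hs
      rw [FV2_prod_zero t he hω, mul_zero, mul_zero]
  have hzs := z_nonneg Γ ht (src o u)
  have h2 : FV2_Q Γ t (src u a) (fun η => ∑ z ∈ Γ.vF F, ind (Γ.Conn (FV2_supp η) u z)) ≤
      Γ.z t 0 * ∑ z ∈ Γ.vF F, Γ.tp t u z * Γ.tp t z a := by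
    rw [FV2_Q_sum Γ t (src u a) (Γ.vF F) (fun z η => ind (Γ.Conn (FV2_supp η) u z)), Finset.mul_sum]
    exact Finset.sum_le_sum fun z _ => FV2_first Γ ht u a z
  have h3 := h1.trans (mul_le_mul_of_nonneg_left h2 hzs)
  unfold Gr.sg
  rw [div_le_iff₀ (by positivity)]
  refine h3.trans (le_of_eq ?_)
  have h4 : Γ.tp t o u = Γ.z t (src o u) / Γ.z t 0 := rfl
  rw [h4]
  field_simp

theorem FV2_src (o a u : V) : src o a + src u a = src o u := by
  rw [src_comm u a, src_add]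

theorem loss_bound (Γ : Gr V E) {t : E → ℝ} (ht : T01 t) (F : Finset E) (o a u : V) :
    Γ.sg t (src o a) 0 (fun ω => ind (Γ.Conn (ω : Set E) o u) *
        ind (¬ Γ.Conn ((ω : Set E) \ F) u a)) ≤
      Γ.tp t o u * ∑ z ∈ Γ.vF F, Γ.tp t u z * Γ.tp t z a := by
  have h1 : Γ.sg t (src o a) 0 (fun ω => ind (Γ.Conn (ω : Set E) o u) *
        ind (¬ Γ.Conn ((ω : Set E) \ F) u a)) =
      Γ.sg t (src o a) 0 (fun ω => ind (Γ.Conn (ω : Set E) u a) * (ind (Γ.Conn (ω : Set E) o u) *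
        ind (¬ Γ.Conn ((ω : Set E) \ F) u a))) := by
    refine sg_supp1 Γ t o a 0 _ _ fun ω hω => ?_
    by_cases hu : Γ.Conn (ω : Set E) o u
    · have hua : Γ.Conn (ω : Set E) u a := conn_trans Γ (conn_symm Γ hu) hω
      rw [ind_true hua, one_mul]
    · rw [ind_false hu]; ring
  rw [h1, sg_switch Γ t (src o a) 0 u a, FV2_src, zero_add]
  · refine le_trans (sg_mono Γ ht _ _ fun ω => ?_) (notG_bound Γ ht F o a u)
    have i1 := ind_nonneg (Γ.Conn (ω : Set E) u a)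
    have i2 := ind_le_one (Γ.Conn (ω : Set E) u a)
    have i3 := ind_nonneg (Γ.Conn (ω : Set E) o u)
    have i4 := ind_le_one (Γ.Conn (ω : Set E) o u)
    have i5 := ind_nonneg (¬ Γ.Conn ((ω : Set E) \ F) u a)
    have i6 : ind (Γ.Conn (ω : Set E) u a) * ind (Γ.Conn (ω : Set E) o u) ≤ 1 :=
      mul_le_one₀ i2 i3 i4
    rw [← mul_assoc]
    calc _ ≤ 1 * ind (¬ Γ.Conn ((ω : Set E) \ F) u a) := mul_le_mul_of_nonneg_right i6 i5
      _ = _ := one_mul _
  · intro ω hω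
    by_contra hc
    apply hω
    rw [ind_false hc, zero_mul]

theorem G_sub (Γ : Gr V E) (t : E → ℝ) (F : Finset E) (o a u : V) (f : Finset E → ℝ) :
    Γ.sg t (src o a) 0 (fun ω => f ω * ind (Γ.Conn ((ω : Set E) \ F) u a)) =
      Γ.sg t (src o a) 0 (fun ω => f ω * (ind (Γ.Conn (ω : Set E) o u) -
        ind (Γ.Conn (ω : Set E) o u) * ind (¬ Γ.Conn ((ω : Set E) \ F) u a))) := by
  refine sg_supp1 Γ t o a 0 _ _ fun ω hω => ?_
  by_cases hG : Γ.Conn ((ω : Set E) \ F) u a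
  · have hua : Γ.Conn (ω : Set E) u a := conn_mono Γ Set.sdiff_subset hG
    have hou : Γ.Conn (ω : Set E) o u := conn_trans Γ hω (conn_symm Γ hua)
    rw [ind_true hG, ind_true hou, ind_false (not_not.2 hG)]
    ring
  · rw [ind_false hG, ind_true hG]
    ring

theorem sgF_G (Γ : Gr V E) (F : Finset E) (t : E → ℝ) (o a u : V) :
    Γ.sgF F t (src o a) 0 (fun ω => ind (Γ.Conn ((ω : Set E) \ F) u a)) =
      Γ.sgF F t (src o u) (src u a) (fun ω => ind (Γ.Conn ((ω : Set E) \ F) u a)) := by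
  rw [sgF_switch Γ F t (src o a) 0 u a, FV2_src, zero_add]
  intro ω hω
  by_contra hc
  exact hω (ind_false hc)

end H82.IC
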