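import Pool.Agent.H82.IC.DT1

/-!
# FWA: double trace with the first flow free and the second wired (abstract)

`K` = inside edges; `t1 = τ` on `K`, `0` off `K`; `t2 = τ` on `K`, `1` off `K`.  Local weights `wFW`: on `K`: `wDT τ`; off `K`: first flow must be `0`, edge open, weight `1`.
`PF S T f = trc wFW (pr S T) f / (z t1 0 * z t2 0)`.
* `pf_one`: marginal over `b`: on `K`: `hp τ a.1 * hp τ a.2`; off `K`: `1` if `a.1 = 0` and `0` otherwise `= hp t1 a.1 * hp t2 a.2`; `trc_pm2`.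
* `pf_conn`: `trc_switch` with flows supported in `ω ∩ K`: `PF 0 0 1[x ↔ y in ω ∩ K] = PF (src x y) (src x y) 1[x ↔ y in ω ∩ K]`, and under the sources `(src x y, ·)` the connection in `ω ∩ K` is automatic: the first
  flow is supported in `K` (weight `0` otherwise) and in `ω` (`trc_congr_supp` gives support in `ω`; to have also the support in `K` expand the sum: a nonzero product forces `(η e).1 = 0` off `K`).
* `pf_diff`: `PF 0 (src x y) 1 = tp t2 x y`, `PF 0 (src x y) 1[x ↔ y in ω ∩ K] = PF (src x y) 0 1[x ↔ y in ω ∩ K] = PF (src x y) 0 1 = tp t1 x y` (switch; `src x y + src x y = 0`; `z t2 0 / z t2 0 = 1`).  Subtract.  On the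
  remaining event `x ↔ y` in `ω` (second flow, supported in `ω`) but not in `ω ∩ K`: `conn_split` with `Kᶜ`: there is `e ∉ K` with `x` connected in `ω ∩ K` to an end of `e`.
* `pf_src`: finite energy: `e0 ∈ K`, `f ≥ 0` monotone: `τ(e0)² * PF 0 (src (s e0) (r e0)) f ≤ PF 0 0 f`: map `(η, ω) ↦ (η + (0, 1_{e0}), insert e0 ω)`: for fixed `(η, ω \ e0)` the sum over the state of `e0` of the old
  weight at `e0` is `≤ 1` (`hp hp ≤ 1`), the new weight at `e0` is `wDT τ e0 (a.1, a.2 + 1) true ≥ τ²`, `f ω ≤ f (insert e0 ω)`.  (Group the configurations `ω` by `ω \ {e0}`.)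
* `pf_ins`: `τ(e0)² * PF 0 0 (fun ω => f (insert e0 ω)) ≤ PF 0 0 f` for `f ≥ 0`: the same without changing the flow: `∑_b w(a,b) ≤ 1` and `w(a,true) ≥ τ²`.
-/

set_option autoImplicit false

open Finset

namespace H82.IC

variable {V E : Type*} [Fintype E] [DecidableEq E]

noncomputable def wFW (K : Finset E) (τ : E → ℝ) (e : E) (a : ZMod 2 × ZMod 2) (b : Bool) : ℝ :=
  if e ∈ K then wDT τ e a b else (if a.1 = 0 then (if b = true then 1 else 0) else 0)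

noncomputable def tF (K : Finset E) (τ : E → ℝ) (e : E) : ℝ := if e ∈ K then τ e else 0

noncomputable def tW (K : Finset E) (τ : E → ℝ) (e : E) : ℝ := if e ∈ K then τ e else 1

noncomputable def Gr.PF (Γ : Gr V E) (K : Finset E) (τ : E → ℝ) (S T : V → ZMod 2)
    (f : Finset E → ℝ) : ℝ :=
  Γ.trc (wFW K τ) (pr S T) f / (Γ.z (tF K τ) 0 * Γ.z (tW K τ) 0)

theorem wFW_nonneg {τ : E → ℝ} (hτ : T01 τ) (K : Finset E) (e : E) (a : ZMod 2 × ZMod 2) (b : Bool) :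
    0 ≤ wFW K τ e a b := by
  unfold wFW
  split_ifs
  · exact wDT_nonneg hτ e a b
  · exact zero_le_one
  · exact le_rfl
  · exact le_rfl

theorem FWA_sum (K : Finset E) (τ : E → ℝ) (e : E) (a : ZMod 2 × ZMod 2) :
    wFW K τ e a true + wFW K τ e a false = hp (tF K τ) e a.1 * hp (tW K τ) e a.2 := by
  obtain ⟨a1, a2⟩ := a
  have h2 : ∀ a : ZMod 2, a = 0 ∨ a = 1 := by decide
  by_cases he : e ∈ K
  · rcases h2 a1 with rfl | rfl <;> rcases h2 a2 with rfl | rfl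
    · simp [wFW, wDT, hp, tF, tW, he]
    · simp [wFW, wDT, hp, tF, tW, he]
    · simp [wFW, wDT, hp, tF, tW, he]
    · simp [wFW, wDT, hp, tF, tW, he]
      ring
  · rcases h2 a1 with rfl | rfl <;> rcases h2 a2 with rfl | rfl <;>
      simp [wFW, hp, tF, tW, he]

theorem FWA_01F {τ : E → ℝ} (hτ : T01 τ) (K : Finset E) : T01 (tF K τ) := by
  intro e
  unfold tF
  split_ifs
  · exact hτ e
  · exact ⟨le_rfl, zero_le_one⟩

theorem FWA_01W {τ : E → ℝ} (hτ : T01 τ) (K : Finset E) : T01 (tW K τ) := by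
  intro e
  unfold tW
  split_ifs
  · exact hτ e
  · exact ⟨zero_le_one, le_rfl⟩

theorem FWA_D (Γ : Gr V E) {τ : E → ℝ} (hτ : T01 τ) (K : Finset E) :
    0 ≤ Γ.z (tF K τ) 0 * Γ.z (tW K τ) 0 :=
  mul_nonneg (z_nonneg Γ (FWA_01F hτ K) 0) (z_nonneg Γ (FWA_01W hτ K) 0)

theorem pf_one (Γ : Gr V E) {τ : E → ℝ} (hτ : T01 τ) (K : Finset E) (S T : V → ZMod 2) :
    Γ.PF K τ S T (fun _ => 1) =
      (Γ.z (tF K τ) S / Γ.z (tF K τ) 0) * (Γ.z (tW K τ) T / Γ.z (tW K τ) 0) := by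
  have _ := hτ
  unfold Gr.PF
  rw [trc_pm2 Γ (wFW K τ) (hp (tF K τ)) (hp (tW K τ)) (FWA_sum K τ) S T, div_mul_div_comm]
  rfl

theorem pf_mono (Γ : Gr V E) {τ : E → ℝ} (hτ : T01 τ) (K : Finset E) (S T : V → ZMod 2)
    {f g : Finset E → ℝ} (h : ∀ ω, f ω ≤ g ω) : Γ.PF K τ S T f ≤ Γ.PF K τ S T g := by
  unfold Gr.PF
  exact div_le_div_of_nonneg_right (trc_mono Γ _ (fun e a b => wFW_nonneg hτ K e a b) _ h)
    (FWA_D Γ hτ K)

theorem FWA_switch (Γ : Gr V E) (K : Finset E) (τ : E → ℝ) (S T : V → ZMod 2) (u v : V)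
    (f : Finset E → ℝ) (hf : ∀ ω : Finset E, f ω ≠ 0 → Γ.Conn ((ω : Set E) ∩ K) u v) :
    Γ.PF K τ S T f = Γ.PF K τ (S + src u v) (T + src u v) f := by
  unfold Gr.PF
  rw [← pr_add]
  refine congrArg (fun x => x / (Γ.z (tF K τ) 0 * Γ.z (tW K τ) 0)) ?_
  refine trc_switch Γ (wFW K τ) (pr S T) (pr (src u v) (src u v)) f fun ω hω => ?_
  obtain ⟨c, hc, hcω⟩ := exists_flow Γ (hf ω hω)
  refine ⟨fun e => (c e, c e), ?_, fun e he => ?_⟩
  · rw [bd_pr]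
    show pr (Γ.bd c) (Γ.bd c) = _
    rw [hc]
  · have hce : c e ≠ 0 := by
      intro h
      apply he
      show (c e, c e) = 0
      rw [h]
      rfl
    have h0 := hcω e hce
    have hK : e ∈ K := Finset.mem_coe.1 h0.2
    refine ⟨Finset.mem_coe.1 h0.1, fun a => ?_⟩
    have h1 : c e = 1 := by
      have h2 : ∀ a : ZMod 2, a ≠ 0 → a = 1 := by decide
      exact h2 _ hce
    show wFW K τ e (a + (c e, c e)) true = _
    rw [h1]
    have h3 : ((a + (1, 1)).1 = (a + (1, 1)).2) = (a.1 = a.2) := by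
      refine propext ⟨fun h => ?_, fun h => ?_⟩
      · exact add_right_cancel (b := (1 : ZMod 2)) h
      · show a.1 + 1 = a.2 + 1
        rw [h]
    simp only [wFW, if_pos hK, wDT, if_true, h3]

theorem FWA_closed (K : Finset E) (τ : E → ℝ) (e : E) (a : ZMod 2 × ZMod 2) (ha : a ≠ 0) :
    wFW K τ e a false = 0 := by
  unfold wFW
  by_cases he : e ∈ K
  · rw [if_pos he]
    exact wDT_closed τ e a ha
  · rw [if_neg he]
    simp

theorem FWA_off (K : Finset E) (τ : E → ℝ) (e : E) (he : e ∉ K) (a : ZMod 2 × ZMod 2) (ha : a.1 ≠ 0)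
    (b : Bool) : wFW K τ e a b = 0 := by
  unfold wFW
  rw [if_neg he, if_neg ha]

theorem FWA_supp (Γ : Gr V E) (K : Finset E) (τ : E → ℝ) (S T : V → ZMod 2) (f g : Finset E → ℝ)
    (h : ∀ (ω : Finset E) (η : E → ZMod 2 × ZMod 2), Γ.bd η = pr S T → (∀ e, η e ≠ 0 → e ∈ ω) →
      (∀ e, (η e).1 ≠ 0 → e ∈ K) → f ω = g ω) :
    Γ.PF K τ S T f = Γ.PF K τ S T g := by
  unfold Gr.PF
  refine congrArg (fun x => x / (Γ.z (tF K τ) 0 * Γ.z (tW K τ) 0)) ?_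
  unfold Gr.trc
  refine sum_congr rfl fun η _ => sum_congr rfl fun ω _ => ?_
  by_cases h1 : Γ.bd η = pr S T
  · by_cases h2 : ∀ e, η e ≠ 0 → e ∈ ω
    · by_cases h3 : ∀ e, (η e).1 ≠ 0 → e ∈ K
      · rw [h ω η h1 h2 h3]
      · push Not at h3
        obtain ⟨e, he, heK⟩ := h3
        have h4 : ∏ e, wFW K τ e (η e) (decide (e ∈ ω)) = 0 :=
          prod_eq_zero (mem_univ e) (FWA_off K τ e heK _ he _)
        rw [h4]
        simp
    · push Not at h2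
      obtain ⟨e, he, heω⟩ := h2
      have h3 : ∏ e, wFW K τ e (η e) (decide (e ∈ ω)) = 0 := by
        refine prod_eq_zero (mem_univ e) ?_
        have h4 : decide (e ∈ ω) = false := decide_eq_false heω
        rw [h4, FWA_closed K τ e _ he]
      rw [h3]
      simp
  · rw [ind_false h1, zero_mul, zero_mul]

theorem FWA_conn1 {Γ : Gr V E} {K ω : Finset E} {η : E → ZMod 2 × ZMod 2} {x y : V}
    {T : V → ZMod 2} (h1 : Γ.bd η = pr (src x y) T) (h2 : ∀ e, η e ≠ 0 → e ∈ ω)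
    (h3 : ∀ e, (η e).1 ≠ 0 → e ∈ K) : Γ.Conn ((ω : Set E) ∩ K) x y :=
  conn_of_flow Γ (DT1_first h1).1 fun e he =>
    ⟨(DT1_s1 h2).1 e he, Finset.mem_coe.2 (h3 e he)⟩

theorem FWA_conn2 {Γ : Gr V E} {ω : Finset E} {η : E → ZMod 2 × ZMod 2} {x y : V}
    {S : V → ZMod 2} (h1 : Γ.bd η = pr S (src x y)) (h2 : ∀ e, η e ≠ 0 → e ∈ ω) :
    Γ.Conn (ω : Set E) x y :=
  conn_of_flow Γ (DT1_first h1).2 (DT1_s1 h2).2

theorem pf_conn (Γ : Gr V E) {τ : E → ℝ} (hτ : T01 τ) (K : Finset E) (x y : V) :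
    Γ.PF K τ 0 0 (fun ω => ind (Γ.Conn ((ω : Set E) ∩ K) x y)) =
      Γ.tp (tF K τ) x y * Γ.tp (tW K τ) x y := by
  rw [FWA_switch Γ K τ 0 0 x y _ fun ω hω => ?_, zero_add,
    FWA_supp Γ K τ (src x y) (src x y) _ (fun _ => 1) fun ω η h1 h2 h3 => ?_, pf_one Γ hτ]
  · rfl
  · exact ind_true (FWA_conn1 h1 h2 h3)
  · by_contra hc
    exact hω (ind_false hc)

theorem FWA_sub (Γ : Gr V E) (K : Finset E) (τ : E → ℝ) (S T : V → ZMod 2) (f g : Finset E → ℝ) :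
    Γ.PF K τ S T (fun ω => f ω - g ω) = Γ.PF K τ S T f - Γ.PF K τ S T g := by
  unfold Gr.PF
  rw [trc_sub, sub_div]

theorem pf_diff (Γ : Gr V E) {τ : E → ℝ} (hτ : T01 τ) (K : Finset E) (x y : V) :
    Γ.tp (tW K τ) x y - Γ.tp (tF K τ) x y ≤
      Γ.PF K τ 0 (src x y) (fun ω => ind (∃ e, e ∉ K ∧
        (Γ.Conn ((ω : Set E) ∩ K) x (Γ.s e) ∨ Γ.Conn ((ω : Set E) ∩ K) x (Γ.r e)))) := by
  have hF : Γ.z (tF K τ) 0 / Γ.z (tF K τ) 0 = 1 :=
    div_self (by linarith [one_le_z Γ (FWA_01F hτ K)])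
  have hW : Γ.z (tW K τ) 0 / Γ.z (tW K τ) 0 = 1 :=
    div_self (by linarith [one_le_z Γ (FWA_01W hτ K)])
  have e1 : Γ.PF K τ 0 (src x y) (fun _ => 1) = Γ.tp (tW K τ) x y := by
    rw [pf_one Γ hτ, hF, one_mul]
    rfl
  have e2 : Γ.PF K τ 0 (src x y) (fun ω => ind (Γ.Conn ((ω : Set E) ∩ K) x y)) =
      Γ.tp (tF K τ) x y := by
    rw [FWA_switch Γ K τ 0 (src x y) x y _ fun ω hω => ?_, zero_add, src_add_self,
      FWA_supp Γ K τ (src x y) 0 _ (fun _ => 1) fun ω η h1 h2 h3 => ?_, pf_one Γ hτ, hW, mul_one]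
    · rfl
    · exact ind_true (FWA_conn1 h1 h2 h3)
    · by_contra hc
      exact hω (ind_false hc)
  rw [← e1, ← e2, ← FWA_sub Γ K τ 0 (src x y) (fun _ => 1)
    (fun ω => ind (Γ.Conn ((ω : Set E) ∩ K) x y)),
    FWA_supp Γ K τ 0 (src x y) _ (fun ω => (1 - ind (Γ.Conn ((ω : Set E) ∩ K) x y)) *
      ind (Γ.Conn (ω : Set E) x y)) fun ω η h1 h2 h3 => ?_]
  · refine pf_mono Γ hτ K 0 (src x y) fun ω => ?_
    by_cases h : Γ.Conn (ω : Set E) x y
    · by_cases h' : Γ.Conn ((ω : Set E) ∩ K) x y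
      · rw [ind_true h', sub_self, zero_mul]
        exact ind_nonneg _
      · have hset : (ω : Set E) \ ((K : Set E)ᶜ) = (ω : Set E) ∩ K := by
          rw [Set.sdiff_eq, compl_compl]
        obtain ⟨e, he, h3⟩ := conn_split Γ (K := (K : Set E)ᶜ) h (by rw [hset]; exact h')
        rw [hset] at h3
        rw [ind_false h', ind_true h, ind_true ⟨e, fun h4 => he.2 (Finset.mem_coe.2 h4), h3⟩]
        norm_num
    · rw [ind_false h, mul_zero]
      exact ind_nonneg _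
  · rw [ind_true (FWA_conn2 h1 h2), mul_one]

theorem FWA_split (e0 : E) (F : Finset E → ℝ) :
    ∑ ω, F ω = ∑ ω ∈ (univ.erase e0).powerset, (F ω + F (insert e0 ω)) := by
  rw [sum_add_distrib, ← Finset.sum_powerset_insert (Finset.notMem_erase e0 univ),
    Finset.insert_erase (mem_univ e0), Finset.powerset_univ]

theorem FWA_key (w : E → ZMod 2 × ZMod 2 → Bool → ℝ) (hw : ∀ e a b, 0 ≤ w e a b) (e0 : E)
    (c : ℝ) (hc : 0 ≤ c) (h1 : ∀ a, w e0 a true + w e0 a false ≤ 1) (h2 : ∀ a, c ≤ w e0 a true)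
    {f : Finset E → ℝ} (hf : ∀ ω, 0 ≤ f ω) (g : Finset E → ℝ) (hg : ∀ ω, g ω ≤ f (insert e0 ω))
    (η η' : E → ZMod 2 × ZMod 2) (hη : ∀ e, e ≠ e0 → η' e = η e) :
    c * ∑ ω, g ω * ∏ e, w e (η e) (decide (e ∈ ω)) ≤
      ∑ ω, f ω * ∏ e, w e (η' e) (decide (e ∈ ω)) := by
  rw [FWA_split e0 (fun ω => g ω * ∏ e, w e (η e) (decide (e ∈ ω))),
    FWA_split e0 (fun ω => f ω * ∏ e, w e (η' e) (decide (e ∈ ω))), mul_sum]
  refine sum_le_sum fun ω hω => ?_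
  have he : e0 ∉ ω := fun h => (notMem_erase e0 univ) (mem_powerset.1 hω h)
  set P : ℝ := ∏ e ∈ univ.erase e0, w e (η e) (decide (e ∈ ω)) with hPd
  have hP : 0 ≤ P := prod_nonneg fun e _ => hw _ _ _
  have p1 : ∏ e, w e (η e) (decide (e ∈ ω)) = w e0 (η e0) false * P := by
    rw [← Finset.mul_prod_erase univ _ (mem_univ e0), decide_eq_false he]
  have p2 : ∏ e, w e (η e) (decide (e ∈ insert e0 ω)) = w e0 (η e0) true * P := by
    rw [← Finset.mul_prod_erase univ _ (mem_univ e0), decide_eq_true (mem_insert_self e0 ω)]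
    refine congrArg (fun x => w e0 (η e0) true * x) (prod_congr rfl fun e hee => ?_)
    have h3 : e ≠ e0 := Finset.ne_of_mem_erase hee
    have h4 : decide (e ∈ insert e0 ω) = decide (e ∈ ω) :=
      decide_eq_decide.2 ⟨fun h => Finset.mem_of_mem_insert_of_ne h h3, fun h => mem_insert_of_mem h⟩
    rw [h4]
  have p3 : ∏ e, w e (η' e) (decide (e ∈ insert e0 ω)) = w e0 (η' e0) true * P := by
    rw [← Finset.mul_prod_erase univ _ (mem_univ e0), decide_eq_true (mem_insert_self e0 ω)]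
    refine congrArg (fun x => w e0 (η' e0) true * x) (prod_congr rfl fun e hee => ?_)
    have h3 : e ≠ e0 := Finset.ne_of_mem_erase hee
    have h4 : decide (e ∈ insert e0 ω) = decide (e ∈ ω) :=
      decide_eq_decide.2 ⟨fun h => Finset.mem_of_mem_insert_of_ne h h3, fun h => mem_insert_of_mem h⟩
    rw [h4, hη e h3]
  have p4 : 0 ≤ f ω * ∏ e, w e (η' e) (decide (e ∈ ω)) :=
    mul_nonneg (hf ω) (prod_nonneg fun e _ => hw _ _ _)
  have hg1 : g ω ≤ f (insert e0 ω) := hg ω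
  have hg2 : g (insert e0 ω) ≤ f (insert e0 ω) := by
    have := hg (insert e0 ω)
    rwa [Finset.insert_idem] at this
  show c * (g ω * ∏ e, w e (η e) (decide (e ∈ ω)) +
      g (insert e0 ω) * ∏ e, w e (η e) (decide (e ∈ insert e0 ω))) ≤
    f ω * ∏ e, w e (η' e) (decide (e ∈ ω)) +
      f (insert e0 ω) * ∏ e, w e (η' e) (decide (e ∈ insert e0 ω))
  rw [p1, p2, p3]
  have hG : 0 ≤ f (insert e0 ω) := hf _
  have q1 : g ω * (w e0 (η e0) false * P) ≤ f (insert e0 ω) * (w e0 (η e0) false * P) :=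
    mul_le_mul_of_nonneg_right hg1 (mul_nonneg (hw _ _ _) hP)
  have q2 : g (insert e0 ω) * (w e0 (η e0) true * P) ≤ f (insert e0 ω) * (w e0 (η e0) true * P) :=
    mul_le_mul_of_nonneg_right hg2 (mul_nonneg (hw _ _ _) hP)
  have q3 : (w e0 (η e0) true + w e0 (η e0) false) * (f (insert e0 ω) * P) ≤
      1 * (f (insert e0 ω) * P) := mul_le_mul_of_nonneg_right (h1 _) (mul_nonneg hG hP)
  have q4 : c * (f (insert e0 ω) * P) ≤ w e0 (η' e0) true * (f (insert e0 ω) * P) :=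
    mul_le_mul_of_nonneg_right (h2 _) (mul_nonneg hG hP)
  have q5 : g ω * (w e0 (η e0) false * P) + g (insert e0 ω) * (w e0 (η e0) true * P) ≤
      f (insert e0 ω) * P := by nlinarith [q1, q2, q3]
  have q6 := mul_le_mul_of_nonneg_left q5 hc
  nlinarith [q6, q4, p4]

theorem FWA_trc (Γ : Gr V E) (w : E → ZMod 2 × ZMod 2 → Bool → ℝ) (S : V → ZMod 2 × ZMod 2)
    (f : Finset E → ℝ) :
    Γ.trc w S f = ∑ η : E → ZMod 2 × ZMod 2, ind (Γ.bd η = S) *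
      ∑ ω, f ω * ∏ e, w e (η e) (decide (e ∈ ω)) := by
  unfold Gr.trc
  refine sum_congr rfl fun η _ => ?_
  rw [mul_sum]

theorem FWA_h1 {τ : E → ℝ} (hτ : T01 τ) (K : Finset E) (e : E) (a : ZMod 2 × ZMod 2) :
    wFW K τ e a true + wFW K τ e a false ≤ 1 := by
  rw [FWA_sum]
  have h : ∀ {t : E → ℝ}, T01 t → ∀ (e : E) (b : ZMod 2), 0 ≤ hp t e b ∧ hp t e b ≤ 1 := by
    intro t ht e b
    unfold hp
    split_ifs
    · exact ⟨zero_le_one, le_rfl⟩
    · exact ht e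
  exact mul_le_one₀ (h (FWA_01F hτ K) e a.1).2 (h (FWA_01W hτ K) e a.2).1
    (h (FWA_01W hτ K) e a.2).2

theorem FWA_h2 {τ : E → ℝ} (hτ : T01 τ) (K : Finset E) {e : E} (he : e ∈ K) (a : ZMod 2 × ZMod 2) :
    τ e ^ 2 ≤ wFW K τ e a true := by
  unfold wFW wDT
  rw [if_pos he, if_pos rfl]
  have := hτ e
  split_ifs
  · exact le_rfl
  · nlinarith [this.1, this.2]

theorem pf_src (Γ : Gr V E) {τ : E → ℝ} (hτ : T01 τ) (K : Finset E) {e0 : E} (he : e0 ∈ K)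
    {f : Finset E → ℝ} (hf : ∀ ω, 0 ≤ f ω) (hm : Monotone f) :
    τ e0 ^ 2 * Γ.PF K τ 0 (src (Γ.s e0) (Γ.r e0)) f ≤ Γ.PF K τ 0 0 f := by
  unfold Gr.PF
  rw [← mul_div_assoc]
  refine div_le_div_of_nonneg_right ?_ (FWA_D Γ hτ K)
  rw [FWA_trc, FWA_trc, mul_sum]
  set h : E → ZMod 2 × ZMod 2 := fun e => (0, (Pi.single e0 (1 : ZMod 2) : E → ZMod 2) e) with hh
  have hbd : Γ.bd h = pr 0 (src (Γ.s e0) (Γ.r e0)) := by
    rw [bd_pr]
    have e1 : Γ.bd (fun e => (h e).1) = 0 := bd_zero Γ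
    have e2 : Γ.bd (fun e => (h e).2) = src (Γ.s e0) (Γ.r e0) := KA_bd_single Γ e0
    rw [e1, e2]
  rw [← Equiv.sum_comp (Equiv.addRight h) (fun η : E → ZMod 2 × ZMod 2 =>
    ind (Γ.bd η = pr 0 0) * ∑ ω, f ω * ∏ e, wFW K τ e (η e) (decide (e ∈ ω)))]
  refine sum_le_sum fun η _ => ?_
  have h0 : (Equiv.addRight h) η = η + h := rfl
  have hself : pr 0 (src (Γ.s e0) (Γ.r e0)) + pr 0 (src (Γ.s e0) (Γ.r e0)) =
      (pr 0 0 : V → ZMod 2 × ZMod 2) := by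
    rw [pr_add, src_add_self, add_zero]
  have h1 : ind (Γ.bd ((Equiv.addRight h) η) = pr 0 0) =
      ind (Γ.bd η = pr 0 (src (Γ.s e0) (Γ.r e0))) := by
    rw [h0, bd_add, hbd]
    refine congrArg ind (propext ⟨fun h2 => ?_, fun h2 => ?_⟩)
    · rw [← hself] at h2
      exact add_right_cancel h2
    · rw [h2, hself]
  rw [h1, h0]
  have key := FWA_key (wFW K τ) (fun e a b => wFW_nonneg hτ K e a b) e0 (τ e0 ^ 2) (sq_nonneg _)
    (FWA_h1 hτ K e0) (FWA_h2 hτ K he) hf f (fun ω => hm (Finset.subset_insert e0 ω)) η (η + h)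
    (fun e hee => by
      show η e + h e = η e
      have h2 : h e = 0 := by
        show ((0 : ZMod 2), (Pi.single e0 (1 : ZMod 2) : E → ZMod 2) e) = 0
        rw [Pi.single_eq_of_ne hee]
        rfl
      rw [h2, add_zero])
  have := mul_le_mul_of_nonneg_left key (ind_nonneg (Γ.bd η = pr 0 (src (Γ.s e0) (Γ.r e0))))
  calc τ e0 ^ 2 * (ind (Γ.bd η = pr 0 (src (Γ.s e0) (Γ.r e0))) *
      ∑ ω, f ω * ∏ e, wFW K τ e (η e) (decide (e ∈ ω))) =
      ind (Γ.bd η = pr 0 (src (Γ.s e0) (Γ.r e0))) * (τ e0 ^ 2 *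
      ∑ ω, f ω * ∏ e, wFW K τ e (η e) (decide (e ∈ ω))) := by ring
    _ ≤ _ := this

theorem pf_ins (Γ : Gr V E) {τ : E → ℝ} (hτ : T01 τ) (K : Finset E) {e0 : E} (he : e0 ∈ K)
    {f : Finset E → ℝ} (hf : ∀ ω, 0 ≤ f ω) :
    τ e0 ^ 2 * Γ.PF K τ 0 0 (fun ω => f (insert e0 ω)) ≤ Γ.PF K τ 0 0 f := by
  unfold Gr.PF
  rw [← mul_div_assoc]
  refine div_le_div_of_nonneg_right ?_ (FWA_D Γ hτ K)
  rw [FWA_trc, FWA_trc, mul_sum]
  refine sum_le_sum fun η _ => ?_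
  have key := FWA_key (wFW K τ) (fun e a b => wFW_nonneg hτ K e a b) e0 (τ e0 ^ 2) (sq_nonneg _)
    (FWA_h1 hτ K e0) (FWA_h2 hτ K he) hf (fun ω => f (insert e0 ω)) (fun ω => le_rfl) η η
    (fun e _ => rfl)
  have := mul_le_mul_of_nonneg_left key (ind_nonneg (Γ.bd η = pr 0 0))
  calc τ e0 ^ 2 * (ind (Γ.bd η = pr 0 0) *
      ∑ ω, f (insert e0 ω) * ∏ e, wFW K τ e (η e) (decide (e ∈ ω))) =
      ind (Γ.bd η = pr 0 0) * (τ e0 ^ 2 *
      ∑ ω, f (insert e0 ω) * ∏ e, wFW K τ e (η e) (decide (e ∈ ω))) := by ring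
    _ ≤ _ := this

end H82.IC
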