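import Pool.Agent.H82.IC.LS
import Pool.Agent.H82.IC.DL
import Pool.Agent.H82.IC.AUP
import Pool.Agent.H82.IC.CB1

/-!
# LX1: Lieb-Simon in the wired box and exponential decay

`GW N = GN d (N+1)` with parameters `tw N = setT (E1 d N (N+1)) (E1 d N (N+1)) τ` (`τ = tanh β` on `bE N`, `1` on the shell).
`rho d β l = ∑_{b ∈ bdry l} phiB β l false (cn 0 b)`.
* `ls_wired`: `lieb_simon` with `D = {z | nm (z - x) ≤ l}`, `Dd = (bdry l).map (· + x)`, for `nm x + l ≤ N - 1`, `nm y = N`: `y ∉ D`.  A vertex `z ∈ D` with an edge of the graph to a vertex outside `D`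
  has `nm (z - x) = l`.  `tp (off (ins D)ᶜ tw) x (x + b)`: the edges inside `D` are in `bE N`, so this parameter is `τ` on the translate `Λ` of `bE l` and `0` elsewhere; by `phiG_free` (with
  `W = ` translate of `bx l`, `N+1` for `N`, `X = cn x (x+b)`) it equals `phiG β W Λ false (cn x (x+b))` (`fkE_conn`; connection in `glue Λ false (vl ω)` is connection of `ω ∩ Λ`, and under these
  parameters `ω ⊆ Λ` almost surely), and by `phiG_aut` for the translation by `x` it is `phiB β l false (cn 0 b)`.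
* `decay_iter`: induction on `j`: if `rho ≤ ρ` (`0 ≤ ρ`), `nm x + j * l + 1 ≤ N`, `nm y = N` then `tp x y ≤ ρ^j`.
* `decay`: all points of `∂Λ_N` are connected by the (open) shell, so `phiB β N true (arm N 0) = tp (tw N) 0 y` for any `y` with `nm y = N` (`phiB_wired`, `shell_conn`, `fkE_setT_supp`), hence
  `phiB β N true (arm N 0) ≤ ρ^j` whenever `j l + 1 ≤ N`; if `ρ < 1` this tends to `0` as `N → ∞`: `thW d β = 0`.
-/

set_option autoImplicit false

open Finset Filter Topology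

namespace H82.IC

variable {d : ℕ}

/-- `∑_{b ∈ ∂Λ_l} ⟨0 b⟩_{Λ_l}`, free boundary condition. -/
noncomputable def rho (d : ℕ) (β : ℝ) (l : ℕ) : ℝ := ∑ b ∈ bdry d l, phiB β l false (cn (0 : Vx d) b)

/-- wired parameters. -/
noncomputable def tw (d : ℕ) (β : ℝ) (N : ℕ) : ↥(bE d (N + 1)) → ℝ :=
  setT (E1 d N (N + 1)) (E1 d N (N + 1)) (fun _ => Real.tanh β)

theorem LX1_T01 {β : ℝ} (hβ : 0 ≤ β) (N : ℕ) : T01 (tw d β N) :=
  T01_setT (T01_tanh β hβ) _ _

theorem LX1_inner (_hd : 2 ≤ d) {β : ℝ} (hβ : 0 ≤ β) {l N : ℕ} {x : Vx d}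
    (hx : nm x + l + 1 ≤ N) (b : Vx d) :
    (GN d (N + 1)).tp (off ((GN d (N + 1)).ins {z | nm (z - x) ≤ l})ᶜ (tw d β N)) x (x + b) =
      phiB β l false (cn (0 : Vx d) b) := by
  classical
  obtain ⟨g, hg1, hg2⟩ := exists_trA x
  have h1 := phiG_aut g β (bx d l) (bE d l) (fun _ => false) (cn (0 : Vx d) b)
  have h2 : phiB β l false (cn (0 : Vx d) b) = phiG β ((bx d l).map g.gV.toEmbedding)
      ((bE d l).map g.gE.toEmbedding) (fun _ => false) {ω | act g ω ∈ cn (0 : Vx d) b} := h1.symm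
  have h3 : {ω : Cf d | act g ω ∈ cn (0 : Vx d) b} = cn x (x + b) := by
    ext ω
    show act g ω ∈ cn (0 : Vx d) b ↔ _
    rw [act_cn, hg1, hg1, zero_add, add_comm b x]
  rw [h3] at h2
  obtain ⟨Λ, hΛdef⟩ : ∃ Λ : Finset (Ed d), Λ = (bE d l).map g.gE.toEmbedding := ⟨_, rfl⟩
  obtain ⟨W, hWdef⟩ : ∃ W : Finset (Vx d), W = (bx d l).map g.gV.toEmbedding := ⟨_, rfl⟩
  rw [← hΛdef, ← hWdef] at h2
  have hmem : ∀ e : Ed d, e ∈ Λ ↔ nm ((Zl d).s e - x) ≤ l ∧ nm ((Zl d).r e - x) ≤ l := by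
    intro e
    rw [hΛdef, Finset.mem_map]
    constructor
    · rintro ⟨e0, he0, rfl⟩
      rw [mem_bE] at he0
      have e1 : (Zl d).s (g.gE e0) - x = (Zl d).s e0 := by
        rw [hg2]
        show e0.1 + x - x = e0.1
        rw [add_sub_cancel_right]
      have e2 : (Zl d).r (g.gE e0) - x = (Zl d).r e0 := by
        rw [hg2]
        show e0.1 + x + Pi.single e0.2 1 - x = e0.1 + Pi.single e0.2 1
        abel
      change nm ((Zl d).s (g.gE e0) - x) ≤ l ∧ nm ((Zl d).r (g.gE e0) - x) ≤ l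
      rw [e1, e2]
      exact he0
    · rintro ⟨h4, h5⟩
      refine ⟨(e.1 - x, e.2), ?_, ?_⟩
      · rw [mem_bE]
        refine ⟨h4, ?_⟩
        have e2 : (Zl d).r ((e.1 - x, e.2) : Ed d) = (Zl d).r e - x := by
          show e.1 - x + Pi.single e.2 1 = e.1 + Pi.single e.2 1 - x
          abel
        rw [e2]
        exact h5
      · show g.gE (e.1 - x, e.2) = e
        rw [hg2]
        show (e.1 - x + x, e.2) = e
        rw [sub_add_cancel]
  have hnm : ∀ z : Vx d, nm (z - x) ≤ l → nm z ≤ N := by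
    intro z hz
    have h4 := nm_add (z - x) x
    rw [sub_add_cancel] at h4
    omega
  have hΛN : Λ ⊆ bE d N := by
    intro e he
    rw [hmem] at he
    rw [mem_bE]
    exact ⟨hnm _ he.1, hnm _ he.2⟩
  have hΛ : Λ ⊆ bE d (N + 1) := hΛN.trans (bE_mono (Nat.le_succ N))
  have hW : ∀ e ∈ Λ, (Zl d).s e ∈ W ∧ (Zl d).r e ∈ W := by
    intro e he
    rw [hmem] at he
    rw [hWdef, Finset.mem_map, Finset.mem_map]
    refine ⟨⟨(Zl d).s e - x, mem_bx.2 he.1, ?_⟩, ⟨(Zl d).r e - x, mem_bx.2 he.2, ?_⟩⟩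
    · show g.gV ((Zl d).s e - x) = (Zl d).s e
      rw [hg1, sub_add_cancel]
    · show g.gV ((Zl d).r e - x) = (Zl d).r e
      rw [hg1, sub_add_cancel]
  have h6 := phiG_free hβ W Λ (N + 1) hW hΛ (cn x (x + b))
  rw [h2, h6, ← fkE_conn]
  have h7 : off ((GN d (N + 1)).ins {z | nm (z - x) ≤ l})ᶜ (tw d β N) =
      setT (sb (bE d (N + 1)) (bE d (N + 1) \ Λ)) ∅ (fun _ => Real.tanh β) := by
    funext e
    unfold off tw setT
    by_cases he : e.1 ∈ Λ
    · have a1 : e ∉ ((GN d (N + 1)).ins {z | nm (z - x) ≤ l})ᶜ := by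
        intro h
        exact h ((hmem e.1).1 he)
      have a2 : e ∉ E1 d N (N + 1) := by
        rw [BR2_mem_E1]
        exact fun h => h (hΛN he)
      have a3 : e ∉ sb (bE d (N + 1)) (bE d (N + 1) \ Λ) := by
        rw [BR2_mem_sb, Finset.mem_sdiff]
        exact fun h => h.2 he
      rw [if_neg a1, if_neg a2, if_neg a2, if_neg (Finset.notMem_empty _), if_neg a3]
    · have a1 : e ∈ ((GN d (N + 1)).ins {z | nm (z - x) ≤ l})ᶜ := by
        intro h
        exact he ((hmem e.1).2 h)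
      have a3 : e ∈ sb (bE d (N + 1)) (bE d (N + 1) \ Λ) := by
        rw [BR2_mem_sb, Finset.mem_sdiff]
        exact ⟨e.2, he⟩
      rw [if_pos a1, if_neg (Finset.notMem_empty _), if_pos a3]
  rw [h7]
  apply fkE_setT_supp _ (T01_tanh β hβ) (Finset.empty_subset _)
  intro ω hω
  have h8 : vl ω ⊆ Λ := by
    intro e he
    rw [BR2_mem_vl] at he
    obtain ⟨h9, h10⟩ := he
    by_contra hcon
    have h11 : (⟨e, h9⟩ : ↥(bE d (N + 1))) ∈ ω ∩ sb (bE d (N + 1)) (bE d (N + 1) \ Λ) := by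
      rw [Finset.mem_inter, BR2_mem_sb, Finset.mem_sdiff]
      exact ⟨h10, h9, hcon⟩
    rw [hω] at h11
    exact Finset.notMem_empty _ h11
  have h9 : (glue Λ (fun _ => false) (vl ω) ∈ cn x (x + b)) =
      (GN d (N + 1)).Conn (ω : Set ↥(bE d (N + 1))) x (x + b) := by
    apply propext
    have e1 : opn (fun _ : Ed d => false) = ∅ := by
      ext e
      simp [opn]
    show (Zl d).Conn (opn (glue Λ (fun _ => false) (vl ω))) x (x + b) ↔ _
    rw [BR1_opn Λ _ _ h8, e1, Set.empty_sdiff, Set.union_empty]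
    exact (conn_rs (Zl d) (bE d (N + 1)) ω x (x + b)).symm
  rw [h9]

theorem ls_wired (hd : 2 ≤ d) {β : ℝ} (hβ : 0 ≤ β) {l N : ℕ} {x y : Vx d}
    (hx : nm x + l + 1 ≤ N) (hy : nm y = N) :
    (GN d (N + 1)).tp (tw d β N) x y ≤
      ∑ b ∈ bdry d l, phiB β l false (cn (0 : Vx d) b) * (GN d (N + 1)).tp (tw d β N) (x + b) y := by
  have hd1 : 1 ≤ d := by omega
  have h1 := lieb_simon (GN d (N + 1)) (LX1_T01 (d := d) hβ N) {z | nm (z - x) ≤ l}
    ((bdry d l).map (Equiv.addLeft x).toEmbedding) (o := x) (y := y)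
    (by
      show nm (x - x) ≤ l
      rw [sub_self, nm_zero]
      exact Nat.zero_le _)
    (by
      intro h
      have h2 : nm (y - x) ≤ l := h
      have h4 := nm_add (y - x) x
      rw [sub_add_cancel] at h4
      omega)
    (by
      intro z hz e he
      have hz' : nm (z - x) ≤ l := hz
      have hadj : Zadj ((Zl d).s e.1) ((Zl d).r e.1) := ⟨e.1.2, Or.inl rfl⟩
      have hadj' : Zadj ((Zl d).r e.1) ((Zl d).s e.1) := ⟨e.1.2, Or.inr rfl⟩
      have hsh : ∀ a c : Vx d, Zadj a c → Zadj (a - x) (c - x) := by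
        rintro a c ⟨i, h | h⟩
        · exact ⟨i, Or.inl (by rw [h]; abel)⟩
        · exact ⟨i, Or.inr (by rw [h]; abel)⟩
      have key : ∃ w : Vx d, Zadj z w ∧ ¬ nm (w - x) ≤ l := by
        rcases he with ⟨h2, h3⟩ | ⟨h2, h3⟩
        · refine ⟨(Zl d).r e.1, ?_, h3⟩
          rw [← h2]
          exact hadj
        · refine ⟨(Zl d).s e.1, ?_, h3⟩
          rw [← h2]
          exact hadj'
      obtain ⟨w, hw1, hw2⟩ := key
      have h5 := G1_zadj (hsh _ _ hw1)
      rw [Finset.mem_map]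
      refine ⟨z - x, (mem_bdry hd1).2 (by omega), ?_⟩
      show x + (z - x) = z
      abel)
  rw [Finset.sum_map] at h1
  refine h1.trans (le_of_eq (Finset.sum_congr rfl fun b _ => ?_))
  show (GN d (N + 1)).tp (off ((GN d (N + 1)).ins {z | nm (z - x) ≤ l})ᶜ (tw d β N)) x (x + b) *
      (GN d (N + 1)).tp (tw d β N) (x + b) y = _
  rw [LX1_inner hd hβ hx b]

theorem LX1_rho_nonneg {β : ℝ} (hβ : 0 ≤ β) (l : ℕ) : 0 ≤ rho d β l :=
  Finset.sum_nonneg fun _ _ => phiB_nonneg hβ _ _ _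

theorem decay_iter (hd : 2 ≤ d) {β : ℝ} (hβ : 0 ≤ β) {l N : ℕ} (j : ℕ) {x y : Vx d}
    (hx : nm x + j * l + 1 ≤ N) (hy : nm y = N) :
    (GN d (N + 1)).tp (tw d β N) x y ≤ (rho d β l) ^ j := by
  have hd1 : 1 ≤ d := by omega
  induction j generalizing x with
  | zero =>
    rw [pow_zero]
    exact tp_le_one _ (LX1_T01 hβ N) _ _
  | succ j ih =>
    have e0 : (j + 1) * l = j * l + l := by ring
    rw [e0] at hx
    refine (ls_wired hd hβ (l := l) (by omega) hy).trans ?_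
    rw [pow_succ', rho, Finset.sum_mul]
    refine Finset.sum_le_sum fun b hb => ?_
    have hb' := (mem_bdry hd1).1 hb
    have h1 := nm_add x b
    exact mul_le_mul_of_nonneg_left (ih (by omega)) (phiB_nonneg hβ _ _ _)

theorem LX1_arm (hd : 2 ≤ d) {β : ℝ} (hβ : 0 ≤ β) (N : ℕ) {y : Vx d} (hy : nm y = N) :
    phiB β N true (arm N (0 : Vx d)) = (GN d (N + 1)).tp (tw d β N) 0 y := by
  have hd1 : 1 ≤ d := by omega
  rw [phiB_wired hd hβ (le_refl (N + 1)) (arm N (0 : Vx d)), ← fkE_conn]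
  apply fkE_setT_supp _ (T01_tanh β hβ) (Finset.Subset.refl _)
  intro ω hω
  have hsub : ∀ e : Ed d, e ∈ bE d (N + 1) → e ∉ bE d N → e ∈ vl ω := by
    intro e he1 he2
    rw [BR2_mem_vl]
    refine ⟨he1, ?_⟩
    have h1 : (⟨e, he1⟩ : ↥(bE d (N + 1))) ∈ E1 d N (N + 1) := by
      rw [BR2_mem_E1]
      exact he2
    rw [← hω] at h1
    exact (Finset.mem_inter.1 h1).1
  have h9 : (ext true N (N + 1) ω ∈ arm N (0 : Vx d)) =
      (GN d (N + 1)).Conn (ω : Set ↥(bE d (N + 1))) 0 y := by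
    apply propext
    have h10 : (GN d (N + 1)).Conn (ω : Set ↥(bE d (N + 1))) 0 y ↔
        (Zl d).Conn (vl ω : Set (Ed d)) 0 y := conn_rs (Zl d) (bE d (N + 1)) ω 0 y
    rw [h10]
    constructor
    · rintro ⟨b, hb, hc⟩
      have hb' := (mem_bdry hd1).1 hb
      obtain ⟨b', hb1, hb2⟩ := exit_box hd1 (n := N) (by rw [nm_zero]; exact Nat.zero_le _)
        (by omega) hc
      have hb1' := (mem_bdry hd1).1 hb1
      refine conn_trans _ (conn_mono _ ?_ hb2) (conn_mono _ ?_ (shell_conn hd hb1' hy))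
      · rintro e ⟨he1, he2⟩
        have he3 : e ∈ bE d N := he2
        have he4 : glue (bE d N) (fun _ => true) (vl ω) e = true := he1
        unfold glue at he4
        rw [if_pos he3] at he4
        exact of_decide_eq_true he4
      · rintro e ⟨he1, he2⟩
        exact hsub e he1 he2
    · intro hc
      refine ⟨y, (mem_bdry hd1).2 hy, conn_mono _ ?_ hc⟩
      intro e he
      show glue (bE d N) (fun _ => true) (vl ω) e = true
      unfold glue
      split_ifs
      · exact decide_eq_true he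
      · rfl
  rw [h9]

theorem decay (hd : 2 ≤ d) {β : ℝ} (hβ : 0 ≤ β) (l : ℕ) (h : rho d β l < 1) : thW d β = 0 := by
  have hd1 : 1 ≤ d := by omega
  have h0 := LX1_rho_nonneg (d := d) hβ l
  have h1 : ∀ j : ℕ, thW d β ≤ rho d β l ^ j := by
    intro j
    have h2 : thW d β ≤ phiB β (j * l + 1) true (arm (j * l + 1) (0 : Vx d)) := by
      refine ciInf_le ⟨0, ?_⟩ (j * l + 1)
      rintro _ ⟨n, rfl⟩
      exact phiB_nonneg hβ _ _ _
    obtain ⟨y, hy⟩ : ∃ y : Vx d, nm y = j * l + 1 := by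
      refine ⟨fun _ => ((j * l + 1 : ℕ) : ℤ), ?_⟩
      have hne : (univ : Finset (Fin d)).Nonempty := ⟨⟨0, hd1⟩, mem_univ _⟩
      unfold nm
      rw [Finset.sup_const hne]
      exact Int.natAbs_natCast _
    rw [LX1_arm hd hβ _ hy] at h2
    refine h2.trans (decay_iter hd hβ j ?_ hy)
    rw [nm_zero]
    omega
  have h3 : thW d β ≤ 0 :=
    ge_of_tendsto' (tendsto_pow_atTop_nhds_zero_of_lt_one h0 h) h1
  have h4 : 0 ≤ thW d β := Real.iInf_nonneg fun n => phiB_nonneg hβ _ _ _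
  exact le_antisymm h3 h4

end H82.IC
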