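import Pool.Agent.H82.IC.FWA
import Pool.Agent.H82.IC.DEN
import Pool.Agent.H82.IC.PM2
import Pool.Agent.H82.IC.BKC
import Pool.Agent.H82.IC.LX1

/-!
# FWB: the free/wired double trace in the box `Λ_N`

Graph `GN d (N+1)`, `K = sb (bE (N+1)) (bE N)`, `τ = tanh β` constant; `nuN β N X = PF K τ 0 0 (1[ext false N (N+1) ω ∈ X])`.
`tW K τ = tw d β N` (`setT (E1) (E1) τ`), `tF K τ = setT (E1 d N (N+1)) ∅ τ`.
* `nuN_meas`: `nuN β N` is given by a probability measure: finite sum of Dirac masses (weights `≥ 0`, total `pf_one = 1`).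
* `nuN_cn`: for all `x y`: `nuN (cn x y) ≤ phiB β N false (cn x y)`: connection in `ext false N (N+1) ω` is connection in `ω ∩ K` (`vl`, `conn_rs`); `pf_conn`, `tp (tW) ≤ 1`, and
  `tp (tF) x y = phiB β N false (cn x y)` (`phiB_free` with `m = N`, `N+1`; `fkE_conn`; the edges outside `Λ_N` are closed almost surely).
* `nuN_diff`: for `e ∈ bE N`: `τ² (phiB β N true (up {e}) - phiB β N false (up {e})) ≤ nuN {ω | ∃ b ∈ bdry N, s e ↔ b}`: `fk_density` for `tW` and `tF`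
  (`phiB β N true (up {e}) = fkE tW 1[e ∈ ω]`, `phiB β N false (up {e}) = fkE tF 1[e ∈ ω]` by `phiB_wired`, `phiB_free`):
  `phiB true (up e) - phiB false (up e) = (τ/(1+τ)) (tp tW (s e) (r e) - tp tF (s e) (r e)) ≤ tp tW - tp tF ≤ PF 0 (src ..) (...)` (`pf_diff`), then `pf_src`
  (the function is monotone in `ω`).  The event: an edge `f ∉ K` of `GN (N+1)` with an end `z` connected to `s e` in `ω ∩ K`: `nm z ≤ N` (if `z = s e` clear; otherwise an edge of `bE N` ends at `z`) and `f ∉ bE N` so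
  `nm z = N`: `z ∈ bdry N`.
* `nuN_ins`: for `e ∈ bE N`: `τ² nuN {ω | opE e ω ∈ X} ≤ nuN X`: `pf_ins` with `f ω = 1[ext false N (N+1) ω ∈ X]`, `ext (insert e ω) = opE e (ext ω)`.
-/

set_option autoImplicit false

open Finset MeasureTheory Filter Topology

namespace H82.IC

variable {d : ℕ}

/-- law of the inside configuration. -/
noncomputable def nuN {d : ℕ} (β : ℝ) (N : ℕ) (X : Set (Cf d)) : ℝ :=
  (GN d (N + 1)).PF (sb (bE d (N + 1)) (bE d N)) (fun _ => Real.tanh β) 0 0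
    (fun ω => ind (ext false N (N + 1) ω ∈ X))

theorem FWB_tW (β : ℝ) (N : ℕ) :
    tW (sb (bE d (N + 1)) (bE d N)) (fun _ => Real.tanh β) = tw d β N := by
  funext e
  unfold tW tw setT
  by_cases h : e.1 ∈ bE d N
  · have h1 : e ∈ sb (bE d (N + 1)) (bE d N) := BR2_mem_sb.2 h
    have h2 : e ∉ E1 d N (N + 1) := fun h3 => BR2_mem_E1.1 h3 h
    rw [if_pos h1, if_neg h2, if_neg h2]
  · have h1 : e ∉ sb (bE d (N + 1)) (bE d N) := fun h3 => h (BR2_mem_sb.1 h3)
    have h2 : e ∈ E1 d N (N + 1) := BR2_mem_E1.2 h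
    rw [if_neg h1, if_pos h2]

theorem FWB_tF (β : ℝ) (N : ℕ) :
    tF (sb (bE d (N + 1)) (bE d N)) (fun _ => Real.tanh β) =
      setT (E1 d N (N + 1)) ∅ (fun _ => Real.tanh β) := by
  funext e
  unfold tF setT
  by_cases h : e.1 ∈ bE d N
  · have h1 : e ∈ sb (bE d (N + 1)) (bE d N) := BR2_mem_sb.2 h
    have h2 : e ∉ E1 d N (N + 1) := fun h3 => BR2_mem_E1.1 h3 h
    rw [if_pos h1, if_neg (Finset.notMem_empty _), if_neg h2]
  · have h1 : e ∉ sb (bE d (N + 1)) (bE d N) := fun h3 => h (BR2_mem_sb.1 h3)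
    have h2 : e ∈ E1 d N (N + 1) := BR2_mem_E1.2 h
    rw [if_neg h1, if_neg (Finset.notMem_empty _), if_pos h2]

theorem FWB_opn (N : ℕ) (ω : Finset ↥(bE d (N + 1))) (e : Ed d) :
    e ∈ opn (ext false N (N + 1) ω) ↔ e ∈ bE d N ∧ e ∈ vl ω := by
  show glue (bE d N) (fun _ => false) (vl ω) e = true ↔ _
  unfold glue
  by_cases h : e ∈ bE d N
  · rw [if_pos h, decide_eq_true_iff]
    exact ⟨fun h1 => ⟨h, h1⟩, fun h1 => h1.2⟩
  · rw [if_neg h]
    exact ⟨fun h1 => absurd (show (false : Bool) = true from h1) (by decide),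
      fun h1 => absurd h1.1 h⟩

theorem FWB_conn (N : ℕ) (ω : Finset ↥(bE d (N + 1))) (x y : Vx d) :
    ext false N (N + 1) ω ∈ cn x y ↔
      (GN d (N + 1)).Conn ((ω : Set ↥(bE d (N + 1))) ∩ (sb (bE d (N + 1)) (bE d N) : Finset _)) x y := by
  classical
  rw [← Finset.coe_inter]
  have h1 : (GN d (N + 1)).Conn (((ω ∩ sb (bE d (N + 1)) (bE d N) : Finset _)) :
      Set ↥(bE d (N + 1))) x y ↔
      (Zl d).Conn (vl (ω ∩ sb (bE d (N + 1)) (bE d N)) : Set (Ed d)) x y :=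
    conn_rs (Zl d) (bE d (N + 1)) (ω ∩ sb (bE d (N + 1)) (bE d N)) x y
  have h2 : opn (ext false N (N + 1) ω) =
      (vl (ω ∩ sb (bE d (N + 1)) (bE d N)) : Set (Ed d)) := by
    ext e
    rw [FWB_opn, Finset.mem_coe, BR2_mem_vl, BR2_mem_vl]
    constructor
    · rintro ⟨h3, h4, h5⟩
      exact ⟨h4, Finset.mem_inter.2 ⟨h5, BR2_mem_sb.2 h3⟩⟩
    · rintro ⟨h4, h5⟩
      exact ⟨BR2_mem_sb.1 (Finset.mem_inter.1 h5).2, h4, (Finset.mem_inter.1 h5).1⟩
  rw [h1, ← h2]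
  rfl

/-- the weight of a configuration. -/
noncomputable def FWB_w (d : ℕ) (β : ℝ) (N : ℕ) (ω : Finset ↥(bE d (N + 1))) : ℝ :=
  (∑ η : ↥(bE d (N + 1)) → ZMod 2 × ZMod 2,
    ind ((GN d (N + 1)).bd η = pr 0 0) *
      ∏ e, wFW (sb (bE d (N + 1)) (bE d N)) (fun _ => Real.tanh β) e (η e) (decide (e ∈ ω))) /
    ((GN d (N + 1)).z (tF (sb (bE d (N + 1)) (bE d N)) (fun _ => Real.tanh β)) 0 *
      (GN d (N + 1)).z (tW (sb (bE d (N + 1)) (bE d N)) (fun _ => Real.tanh β)) 0)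

theorem FWB_PF (β : ℝ) (N : ℕ) (f : Finset ↥(bE d (N + 1)) → ℝ) :
    (GN d (N + 1)).PF (sb (bE d (N + 1)) (bE d N)) (fun _ => Real.tanh β) 0 0 f =
      ∑ ω, FWB_w d β N ω * f ω := by
  unfold Gr.PF Gr.trc FWB_w
  rw [Finset.sum_comm, Finset.sum_div]
  refine Finset.sum_congr rfl fun ω _ => ?_
  rw [div_mul_eq_mul_div, Finset.sum_mul]
  congr 1
  refine Finset.sum_congr rfl fun η _ => ?_
  ring

theorem FWB_T01F {β : ℝ} (hβ : 0 ≤ β) (N : ℕ) :
    T01 (tF (sb (bE d (N + 1)) (bE d N)) (fun _ => Real.tanh β)) := by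
  rw [FWB_tF]
  exact T01_setT (T01_tanh β hβ) _ _

theorem FWB_T01W {β : ℝ} (hβ : 0 ≤ β) (N : ℕ) :
    T01 (tW (sb (bE d (N + 1)) (bE d N)) (fun _ => Real.tanh β)) := by
  rw [FWB_tW]
  exact LX1_T01 hβ N

theorem FWB_w_nonneg {β : ℝ} (hβ : 0 ≤ β) (N : ℕ) (ω : Finset ↥(bE d (N + 1))) :
    0 ≤ FWB_w d β N ω := by
  unfold FWB_w
  refine div_nonneg (Finset.sum_nonneg fun η _ => mul_nonneg (ind_nonneg _)
    (Finset.prod_nonneg fun e _ => wFW_nonneg (T01_tanh β hβ) _ _ _ _)) ?_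
  exact mul_nonneg (z_nonneg _ (FWB_T01F hβ N) _) (z_nonneg _ (FWB_T01W hβ N) _)

theorem FWB_total {β : ℝ} (hβ : 0 ≤ β) (N : ℕ) : ∑ ω, FWB_w d β N ω = 1 := by
  have h1 := FWB_PF (d := d) β N (fun _ => 1)
  simp only [mul_one] at h1
  rw [← h1, pf_one _ (T01_tanh β hβ)]
  have e1 : (GN d (N + 1)).z (tF (sb (bE d (N + 1)) (bE d N)) (fun _ => Real.tanh β)) 0 ≠ 0 := by
    have := one_le_z (GN d (N + 1)) (FWB_T01F (d := d) hβ N)
    linarith
  have e2 : (GN d (N + 1)).z (tW (sb (bE d (N + 1)) (bE d N)) (fun _ => Real.tanh β)) 0 ≠ 0 := by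
    have := one_le_z (GN d (N + 1)) (FWB_T01W (d := d) hβ N)
    linarith
  rw [div_self e1, div_self e2, mul_one]

theorem nuN_meas {β : ℝ} (hβ : 0 ≤ β) (N : ℕ) :
    ∃ ν : Measure (Cf d), IsProbabilityMeasure ν ∧
      ∀ X : Set (Cf d), MeasurableSet X → ν.real X = nuN β N X := by
  classical
  let w : Finset ↥(bE d (N + 1)) → ℝ := FWB_w d β N
  have hw : ∀ ω, 0 ≤ w ω := FWB_w_nonneg hβ N
  let ν : Measure (Cf d) := ∑ ω : Finset ↥(bE d (N + 1)),
    ENNReal.ofReal (w ω) • Measure.dirac (ext false N (N + 1) ω)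
  have hν : ∀ X : Set (Cf d), MeasurableSet X → ν X =
      ENNReal.ofReal (∑ ω : Finset ↥(bE d (N + 1)), w ω * ind (ext false N (N + 1) ω ∈ X)) := by
    intro X hX
    have h1 : ν X = ∑ ω : Finset ↥(bE d (N + 1)),
        ENNReal.ofReal (w ω) * (Measure.dirac (ext false N (N + 1) ω)) X := by
      simp only [ν, Measure.finsetSum_apply, Measure.smul_apply, smul_eq_mul]
    rw [h1, ENNReal.ofReal_sum_of_nonneg fun ω _ => mul_nonneg (hw ω) (BR2_ind_nonneg _)]
    refine Finset.sum_congr rfl fun ω _ => ?_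
    rw [ENNReal.ofReal_mul (hw ω), Measure.dirac_apply' _ hX]
    congr 1
    unfold ind
    by_cases h2 : ext false N (N + 1) ω ∈ X
    · rw [if_pos h2, Set.indicator_of_mem h2]
      simp
    · rw [if_neg h2, Set.indicator_of_notMem h2]
      simp
  have hsum : ∀ X : Set (Cf d),
      ∑ ω : Finset ↥(bE d (N + 1)), w ω * ind (ext false N (N + 1) ω ∈ X) = nuN β N X := by
    intro X
    unfold nuN
    rw [FWB_PF]
  have hnn : ∀ X : Set (Cf d), 0 ≤ nuN β N X := by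
    intro X
    rw [← hsum]
    exact Finset.sum_nonneg fun ω _ => mul_nonneg (hw ω) (ind_nonneg _)
  have hreal : ∀ X : Set (Cf d), MeasurableSet X → ν.real X = nuN β N X := by
    intro X hX
    rw [measureReal_def, hν X hX, hsum, ENNReal.toReal_ofReal (hnn X)]
  refine ⟨ν, ⟨?_⟩, hreal⟩
  rw [hν _ MeasurableSet.univ]
  have h3 : ∑ ω : Finset ↥(bE d (N + 1)), w ω *
      ind (ext false N (N + 1) ω ∈ (Set.univ : Set (Cf d))) = 1 := by
    rw [← FWB_total (d := d) hβ N]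
    refine Finset.sum_congr rfl fun ω _ => ?_
    rw [ind_true (Set.mem_univ _), mul_one]
  rw [h3, ENNReal.ofReal_one]

theorem FWB_phiF {β : ℝ} (hβ : 0 ≤ β) (N : ℕ) (x y : Vx d) :
    (GN d (N + 1)).tp (tF (sb (bE d (N + 1)) (bE d N)) (fun _ => Real.tanh β)) x y =
      phiB β N false (cn x y) := by
  classical
  rw [phiB_free hβ (Nat.le_succ N) (cn x y), ← fkE_conn, FWB_tF]
  apply fkE_setT_supp _ (T01_tanh β hβ) (Finset.empty_subset _)
  intro ω hω
  have h1 : (ω : Set ↥(bE d (N + 1))) ∩ (sb (bE d (N + 1)) (bE d N) : Finset _) = ω := by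
    ext e
    constructor
    · exact fun h => h.1
    · intro h
      refine ⟨h, ?_⟩
      by_contra hcon
      have h2 : e ∈ ω ∩ E1 d N (N + 1) :=
        Finset.mem_inter.2 ⟨h, BR2_mem_E1.2 fun h3 => hcon (BR2_mem_sb.2 h3)⟩
      rw [hω] at h2
      exact Finset.notMem_empty _ h2
  have h2 : (ext false N (N + 1) ω ∈ cn x y) =
      (GN d (N + 1)).Conn (ω : Set ↥(bE d (N + 1))) x y := by
    apply propext
    rw [FWB_conn, h1]
  rw [h2]

theorem nuN_cn {β : ℝ} (hβ : 0 ≤ β) (N : ℕ) (x y : Vx d) :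
    nuN β N (cn x y) ≤ phiB β N false (cn x y) := by
  have h1 : nuN β N (cn x y) =
      (GN d (N + 1)).tp (tF (sb (bE d (N + 1)) (bE d N)) (fun _ => Real.tanh β)) x y *
        (GN d (N + 1)).tp (tW (sb (bE d (N + 1)) (bE d N)) (fun _ => Real.tanh β)) x y := by
    rw [← pf_conn _ (T01_tanh β hβ)]
    unfold nuN
    congr 1
    funext ω
    rw [propext (FWB_conn N ω x y)]
  rw [h1, ← FWB_phiF hβ N x y]
  exact mul_le_of_le_one_right (tp_nonneg _ (FWB_T01F hβ N) _ _) (tp_le_one _ (FWB_T01W hβ N) _ _)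

theorem FWB_nm (N : ℕ) (ω : Finset ↥(bE d (N + 1))) {x z : Vx d} (hx : nm x ≤ N)
    (h : ext false N (N + 1) ω ∈ cn x z) : nm z ≤ N := by
  have h' : (Zl d).Conn (opn (ext false N (N + 1) ω)) x z := h
  induction h' with
  | refl => exact hx
  | tail _ hyz ih =>
    obtain ⟨e, he, hor⟩ := hyz
    have h1 := mem_bE.1 ((FWB_opn N ω e).1 he).1
    rcases hor with ⟨_, h3⟩ | ⟨h3, _⟩
    · rw [← h3]; exact h1.2
    · rw [← h3]; exact h1.1

theorem nuN_diff (hd : 2 ≤ d) {β : ℝ} (hβ : 0 ≤ β) (N : ℕ) {e : Ed d} (he : e ∈ bE d N) :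
    Real.tanh β ^ 2 * (phiB β N true (up {e}) - phiB β N false (up {e})) ≤
      nuN β N {ω : Cf d | ∃ b ∈ bdry d N, ω ∈ cn ((Zl d).s e) b} := by
  classical
  have hd1 : 1 ≤ d := by omega
  obtain ⟨e', he'⟩ : ∃ e' : ↥(bE d (N + 1)), e'.1 = e := ⟨⟨e, bE_mono (Nat.le_succ N) he⟩, rfl⟩
  have heK : e' ∈ sb (bE d (N + 1)) (bE d N) := BR2_mem_sb.2 (by rw [he']; exact he)
  have hmem : ∀ (b : Bool) (ω : Finset ↥(bE d (N + 1))),
      (ext b N (N + 1) ω ∈ up {e}) = (e' ∈ ω) := by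
    intro b ω
    apply propext
    have h1 : ext b N (N + 1) ω e = decide (e ∈ vl ω) := by
      unfold ext glue
      rw [if_pos he]
    constructor
    · intro h
      have h2 : ext b N (N + 1) ω e = true := h e (Finset.mem_singleton_self e)
      rw [h1, decide_eq_true_iff, BR2_mem_vl] at h2
      obtain ⟨h3, h4⟩ := h2
      have h5 : e' = ⟨e, h3⟩ := Subtype.ext he'
      rw [h5]
      exact h4
    · intro h f hf
      rw [Finset.mem_singleton] at hf
      rw [hf, h1, decide_eq_true_iff, BR2_mem_vl]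
      exact ⟨bE_mono (Nat.le_succ N) he, by
        have h5 : e' = ⟨e, bE_mono (Nat.le_succ N) he⟩ := Subtype.ext he'
        rw [← h5]
        exact h⟩
  have hτ := tanh_mem β hβ
  have hT : phiB β N true (up {e}) = (GN d (N + 1)).fkE
      (tW (sb (bE d (N + 1)) (bE d N)) (fun _ => Real.tanh β)) (fun ω => ind (e' ∈ ω)) := by
    rw [phiB_wired hd hβ (le_refl (N + 1)) (up {e}), FWB_tW]
    simp only [hmem]
    rfl
  have hF : phiB β N false (up {e}) = (GN d (N + 1)).fkE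
      (tF (sb (bE d (N + 1)) (bE d N)) (fun _ => Real.tanh β)) (fun ω => ind (e' ∈ ω)) := by
    rw [phiB_free hβ (Nat.le_succ N) (up {e}), FWB_tF]
    simp only [hmem]
  have h1 := fk_density (GN d (N + 1)) (FWB_T01W (d := d) hβ N) e'
  have h2 := fk_density (GN d (N + 1)) (FWB_T01F (d := d) hβ N) e'
  have eW : tW (sb (bE d (N + 1)) (bE d N)) (fun _ => Real.tanh β) e' = Real.tanh β := by
    unfold tW
    rw [if_pos heK]
  have eF : tF (sb (bE d (N + 1)) (bE d N)) (fun _ => Real.tanh β) e' = Real.tanh β := by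
    unfold tF
    rw [if_pos heK]
  rw [fkE_conn, eW, ← hT] at h1
  rw [fkE_conn, eF, ← hF] at h2
  have h3 : (GN d (N + 1)).tp (tF (sb (bE d (N + 1)) (bE d N)) (fun _ => Real.tanh β))
        ((GN d (N + 1)).s e') ((GN d (N + 1)).r e') ≤
      (GN d (N + 1)).tp (tW (sb (bE d (N + 1)) (bE d N)) (fun _ => Real.tanh β))
        ((GN d (N + 1)).s e') ((GN d (N + 1)).r e') := by
    apply tp_mono _ (FWB_T01F hβ N) (FWB_T01W hβ N)
    intro f
    unfold tF tW
    split_ifs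
    · exact le_rfl
    · exact zero_le_one
  have h4 : phiB β N true (up {e}) - phiB β N false (up {e}) ≤
      (GN d (N + 1)).tp (tW (sb (bE d (N + 1)) (bE d N)) (fun _ => Real.tanh β))
        ((GN d (N + 1)).s e') ((GN d (N + 1)).r e') -
      (GN d (N + 1)).tp (tF (sb (bE d (N + 1)) (bE d N)) (fun _ => Real.tanh β))
        ((GN d (N + 1)).s e') ((GN d (N + 1)).r e') := by
    have hpos : 0 < 1 + Real.tanh β := by linarith [hτ.1]
    refine le_of_mul_le_mul_left ?_ hpos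
    nlinarith
  have h5 := pf_diff (GN d (N + 1)) (T01_tanh β hβ) (sb (bE d (N + 1)) (bE d N))
    ((GN d (N + 1)).s e') ((GN d (N + 1)).r e')
  have h6 := pf_src (GN d (N + 1)) (T01_tanh β hβ) (sb (bE d (N + 1)) (bE d N)) heK
    (f := fun ω => ind (∃ f, f ∉ sb (bE d (N + 1)) (bE d N) ∧
        ((GN d (N + 1)).Conn ((ω : Set ↥(bE d (N + 1))) ∩ (sb (bE d (N + 1)) (bE d N) : Finset _))
            ((GN d (N + 1)).s e') ((GN d (N + 1)).s f) ∨
          (GN d (N + 1)).Conn ((ω : Set ↥(bE d (N + 1))) ∩ (sb (bE d (N + 1)) (bE d N) : Finset _))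
            ((GN d (N + 1)).s e') ((GN d (N + 1)).r f))))
    (fun ω => ind_nonneg _)
    (by
      intro ω ω' hω
      apply ind_mono
      rintro ⟨f, hf, hc⟩
      have hsub : (ω : Set ↥(bE d (N + 1))) ∩ (sb (bE d (N + 1)) (bE d N) : Finset _) ⊆
          (ω' : Set ↥(bE d (N + 1))) ∩ (sb (bE d (N + 1)) (bE d N) : Finset _) :=
        Set.inter_subset_inter_left _ (Finset.coe_subset.2 hω)
      rcases hc with hc | hc
      · exact ⟨f, hf, Or.inl (conn_mono _ hsub hc)⟩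
      · exact ⟨f, hf, Or.inr (conn_mono _ hsub hc)⟩)
  have h7 : (GN d (N + 1)).PF (sb (bE d (N + 1)) (bE d N)) (fun _ => Real.tanh β) 0 0
      (fun ω => ind (∃ f, f ∉ sb (bE d (N + 1)) (bE d N) ∧
        ((GN d (N + 1)).Conn ((ω : Set ↥(bE d (N + 1))) ∩ (sb (bE d (N + 1)) (bE d N) : Finset _))
            ((GN d (N + 1)).s e') ((GN d (N + 1)).s f) ∨
          (GN d (N + 1)).Conn ((ω : Set ↥(bE d (N + 1))) ∩ (sb (bE d (N + 1)) (bE d N) : Finset _))
            ((GN d (N + 1)).s e') ((GN d (N + 1)).r f)))) ≤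
      nuN β N {ω : Cf d | ∃ b ∈ bdry d N, ω ∈ cn ((Zl d).s e) b} := by
    unfold nuN
    apply pf_mono _ (T01_tanh β hβ)
    intro ω
    apply ind_mono
    rintro ⟨f, hf, hc⟩
    have hs : (GN d (N + 1)).s e' = (Zl d).s e := by
      show (Zl d).s e'.1 = (Zl d).s e
      rw [he']
    have hfN : ¬ (nm ((Zl d).s f.1) ≤ N ∧ nm ((Zl d).r f.1) ≤ N) := by
      intro h
      exact hf (BR2_mem_sb.2 (mem_bE.2 h))
    have hn0 : nm ((Zl d).s e) ≤ N := (mem_bE.1 he).1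
    have hadj : Zadj ((Zl d).s f.1) ((Zl d).r f.1) := ⟨f.1.2, Or.inl rfl⟩
    have hadj' : Zadj ((Zl d).r f.1) ((Zl d).s f.1) := ⟨f.1.2, Or.inr rfl⟩
    rcases hc with hc | hc
    · rw [hs, ← FWB_conn] at hc
      have h8 : nm ((Zl d).s f.1) ≤ N := FWB_nm N ω hn0 hc
      have h9 := G1_zadj hadj
      have h10 : N < nm ((Zl d).r f.1) := by
        by_contra hcon
        exact hfN ⟨h8, not_lt.1 hcon⟩
      exact ⟨(Zl d).s f.1, (mem_bdry hd1).2 (by omega), hc⟩
    · rw [hs, ← FWB_conn] at hc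
      have h8 : nm ((Zl d).r f.1) ≤ N := FWB_nm N ω hn0 hc
      have h9 := G1_zadj hadj'
      have h10 : N < nm ((Zl d).s f.1) := by
        by_contra hcon
        exact hfN ⟨not_lt.1 hcon, h8⟩
      exact ⟨(Zl d).r f.1, (mem_bdry hd1).2 (by omega), hc⟩
  refine le_trans ?_ (h6.trans h7)
  exact mul_le_mul_of_nonneg_left (h4.trans h5) (sq_nonneg _)

theorem nuN_ins {β : ℝ} (hβ : 0 ≤ β) (N : ℕ) {e : Ed d} (he : e ∈ bE d N) (X : Set (Cf d)) :
    Real.tanh β ^ 2 * nuN β N {ω | opE e ω ∈ X} ≤ nuN β N X := by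
  classical
  obtain ⟨e', he'⟩ : ∃ e' : ↥(bE d (N + 1)), e'.1 = e := ⟨⟨e, bE_mono (Nat.le_succ N) he⟩, rfl⟩
  have heK : e' ∈ sb (bE d (N + 1)) (bE d N) := BR2_mem_sb.2 (by rw [he']; exact he)
  have h1 := pf_ins (GN d (N + 1)) (T01_tanh β hβ) (sb (bE d (N + 1)) (bE d N)) heK
    (f := fun ω => ind (ext false N (N + 1) ω ∈ X)) (fun ω => ind_nonneg _)
  refine le_trans (le_of_eq ?_) h1
  unfold nuN
  congr 2
  funext ω
  have h2 : ext false N (N + 1) (insert e' ω) = opE e (ext false N (N + 1) ω) := by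
    funext f
    unfold ext glue opE
    by_cases hfe : f = e
    · rw [hfe, Function.update_self, if_pos he, decide_eq_true_iff, BR2_mem_vl]
      exact ⟨bE_mono (Nat.le_succ N) he, by
        have h5 : e' = ⟨e, bE_mono (Nat.le_succ N) he⟩ := Subtype.ext he'
        rw [← h5]
        exact Finset.mem_insert_self _ _⟩
    · rw [Function.update_of_ne hfe]
      by_cases hf : f ∈ bE d N
      · rw [if_pos hf, if_pos hf]
        apply decide_eq_decide.2
        rw [BR2_mem_vl, BR2_mem_vl]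
        constructor
        · rintro ⟨h3, h4⟩
          refine ⟨h3, (Finset.mem_insert.1 h4).resolve_left ?_⟩
          intro h5
          apply hfe
          rw [← he', ← h5]
        · rintro ⟨h3, h4⟩
          exact ⟨h3, Finset.mem_insert_of_mem h4⟩
      · rw [if_neg hf, if_neg hf]
  show ind (opE e (ext false N (N + 1) ω) ∈ X) = ind (ext false N (N + 1) (insert e' ω) ∈ X)
  rw [h2]

end H82.IC
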