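import Pool.Agent.H82.IC.BKC
import Pool.Agent.H82.IC.IV1
import Mathlib.MeasureTheory.Measure.SeparableMeasure

/-!
# INL: from cylinder events to measurable events

* `ti_of_lcl`: `ν.map (shf a)` and `ν` are probability measures which agree on `up S` (`{shf a ω ∈ up S}` and `up S` are cylinder), so equal by `measure_ext_up`; `shf a` is measurable.
* `ins_of_lcl`: the class of `X` which can be approximated in the measure `ν' + ν` by cylinder events contains all measurable sets (`MeasureDense.of_generateFrom_isSetAlgebra_finite`), and the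
  inequality passes to the limit.
-/

set_option autoImplicit false

open Finset MeasureTheory Filter Topology

namespace H82.IC

variable {d : ℕ}

theorem shf_measurable (a : Vx d) : Measurable (shf a : Cf d → Cf d) :=
  measurable_pi_lambda _ fun e => measurable_pi_apply ((e.1 + a, e.2) : Ed d)

theorem opE_measurable (e : Ed d) : Measurable (opE e : Cf d → Cf d) := by
  classical
  refine measurable_pi_lambda _ fun f => ?_
  by_cases h : f = e
  · subst h
    have h1 : (fun ω : Cf d => opE f ω f) = fun _ => true := by
      funext ω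
      unfold opE
      rw [Function.update_self]
    rw [h1]
    exact measurable_const
  · have h1 : (fun ω : Cf d => opE e ω f) = fun ω => ω f := by
      funext ω
      unfold opE
      rw [Function.update_of_ne h]
    rw [h1]
    exact measurable_pi_apply f

theorem ti_of_lcl (ν : Measure (Cf d)) [IsProbabilityMeasure ν]
    (h : ∀ (a : Vx d) (X : Set (Cf d)), Lcl X → ν.real {ω | shf a ω ∈ X} = ν.real X) : TI ν := by
  intro a X hX
  haveI : IsProbabilityMeasure (ν.map (shf a)) :=
    Measure.isProbabilityMeasure_map (shf_measurable a).aemeasurable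
  have h1 : ν.map (shf a) = ν := by
    refine measure_ext_up _ _ fun S => ?_
    rw [map_measureReal_apply (shf_measurable a) (lcl_measurable (lcl_up S))]
    exact h a (up S) (lcl_up S)
  have h2 : (ν.map (shf a)).real X = ν.real {ω | shf a ω ∈ X} :=
    map_measureReal_apply (shf_measurable a) hX
  rw [← h2, h1]

theorem INL_alg : IsSetAlgebra {X : Set (Cf d) | Lcl X} where
  empty_mem := ⟨∅, fun _ _ _ => Iff.rfl⟩
  compl_mem := fun _ h => lcl_compl h
  union_mem := fun _ _ h h' => lcl_union h h'

theorem INL_gen : (MeasurableSpace.pi : MeasurableSpace (Cf d)) =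
    MeasurableSpace.generateFrom {X : Set (Cf d) | Lcl X} := by
  apply le_antisymm
  · refine iSup_le fun e => ?_
    have hme : @Measurable (Cf d) Bool (MeasurableSpace.generateFrom {X : Set (Cf d) | Lcl X}) ⊤
        (fun ω => ω e) := by
      refine @measurable_to_bool (Cf d) (MeasurableSpace.generateFrom {X : Set (Cf d) | Lcl X}) _ ?_
      apply MeasurableSpace.measurableSet_generateFrom
      refine ⟨{e}, fun ω ω' h => ?_⟩
      show ω e = true ↔ ω' e = true
      rw [h e (Finset.mem_singleton_self e)]
    exact hme.comap_le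
  · refine MeasurableSpace.generateFrom_le ?_
    intro X hX
    exact lcl_measurable hX

theorem ins_of_lcl (ν : Measure (Cf d)) [IsProbabilityMeasure ν] (C : ℝ) (hC : 0 ≤ C)
    (h : ∀ (e : Ed d) (X : Set (Cf d)), Lcl X → ν.real {ω | opE e ω ∈ X} ≤ C * ν.real X) :
    INS ν C := by
  intro e X hX
  set ν' : Measure (Cf d) := ν.map (opE e) with hν'
  haveI : IsProbabilityMeasure ν' :=
    Measure.isProbabilityMeasure_map (opE_measurable e).aemeasurable
  have hap : ∀ Y : Set (Cf d), MeasurableSet Y → ν'.real Y = ν.real {ω | opE e ω ∈ Y} :=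
    fun Y hY => map_measureReal_apply (opE_measurable e) hY
  have hD := Measure.MeasureDense.of_generateFrom_isSetAlgebra_finite (μ := ν' + ν)
    (𝒜 := {X : Set (Cf d) | Lcl X}) INL_alg INL_gen
  rw [← hap X hX]
  refine le_of_forall_pos_le_add fun ε hε => ?_
  obtain ⟨t, ht, hlt⟩ := hD.approx X hX (measure_ne_top _ _) (ε / (C + 1)) (by positivity)
  have ht' : Lcl t := ht
  have htm : MeasurableSet t := lcl_measurable ht'
  have hreal : (ν' + ν).real (symmDiff X t) < ε / (C + 1) := by
    rw [measureReal_def]
    exact (ENNReal.lt_ofReal_iff_toReal_lt (measure_ne_top _ _)).mp hlt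
  have hsum : (ν' + ν).real (symmDiff X t) = ν'.real (symmDiff X t) + ν.real (symmDiff X t) := by
    simp only [measureReal_def, Measure.add_apply]
    exact ENNReal.toReal_add (measure_ne_top _ _) (measure_ne_top _ _)
  rw [hsum] at hreal
  have a1 : ν'.real X ≤ ν'.real t + ν'.real (symmDiff X t) := by
    refine (measureReal_mono (s₂ := t ∪ symmDiff X t) ?_).trans (measureReal_union_le _ _)
    intro ω hω
    by_cases h1 : ω ∈ t
    · exact Or.inl h1
    · exact Or.inr (Or.inl ⟨hω, h1⟩)
  have a2 : ν.real t ≤ ν.real X + ν.real (symmDiff X t) := by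
    refine (measureReal_mono (s₂ := X ∪ symmDiff X t) ?_).trans (measureReal_union_le _ _)
    intro ω hω
    by_cases h1 : ω ∈ X
    · exact Or.inl h1
    · exact Or.inr (Or.inr ⟨hω, h1⟩)
  have a3 : ν'.real t ≤ C * ν.real t := by
    rw [hap t htm]
    exact h e t ht'
  have b1 : 0 ≤ ν'.real (symmDiff X t) := measureReal_nonneg
  have b2 : 0 ≤ ν.real (symmDiff X t) := measureReal_nonneg
  have hC1 : 0 < C + 1 := by linarith
  have hreal2 : (ν'.real (symmDiff X t) + ν.real (symmDiff X t)) * (C + 1) < ε := by
    rwa [lt_div_iff₀ hC1] at hreal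
  have a4 : C * ν.real t ≤ C * (ν.real X + ν.real (symmDiff X t)) :=
    mul_le_mul_of_nonneg_left a2 hC
  nlinarith [mul_nonneg hC b1, mul_nonneg hC b2]

end H82.IC
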