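import Pool.Agent.H82.IC.IV1
import Pool.Agent.H82.IC.AUP

/-!
# IV2: invariance and limits of the infinite volume measure

`μ` with `IsLim β false μ` (`β ≥ 0`).
* `lim_aut`: `g` with `nm (gV x) = nm x`: for every `S`: `phiB β n false {act g ω ∈ up S} = phiB β n false (up S)` (`phiB_aut`), limits: `μ (act g)⁻¹(up S) = μ (up S)`
  (`{ω | act g ω ∈ up S} = up (S.map gE)` is local), so `μ.map (act g) = μ` by `measure_ext_up`.
* `lim_shift`: `g = trA a`: `phiB n false (up S) ≤ phiB (n+k) false (act g)⁻¹(up S)`, limit `n → ∞`: `μ (up S) ≤ μ (up (S.map gE))`; the same for the inverse translation applied to `S.map gE`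
  gives equality.
* `real_aut`: for measurable `X`: `μ.real {ω | act g ω ∈ X} = μ.real X`.
* `G_shift`: `μ (cn x y) = μ (cn 0 (y - x))`;  `arm_shift`: (used in SYM).
* `tendsto_cnB`: `μ (cnB n x y) → μ (cn x y)` (continuity from below); `tendsto_arm`: `μ (arm n 0) → μ (perc)` (continuity from above, `arm_anti`).
* `free_le`: `phiB β m false X ≤ μ X` for increasing cylinder `X` (monotone sequence below its limit); also for `X = cn x y ∩ up S`: for fixed `m`, in the free box measure on `Λ_m` all open edges are in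
  `bE m`, so `cn x y` equals `cnB m x y` there, `phiB m false (cn x y ∩ up S) = phiB m false (cnB m x y ∩ up S) ≤ μ (cnB m x y ∩ up S) ≤ μ (cn x y ∩ up S)`.
* `G_pos`: `μ (cn x y) > 0` if `β > 0`: `μ (cn x y) ≥ phiB β n false (up (bE n)) > 0` (`box_conn`).
-/

set_option autoImplicit false

open Finset MeasureTheory Filter Topology

namespace H82.IC

variable {d : ℕ}

theorem IV2_ext {μ : Measure (Cf d)} [IsProbabilityMeasure μ] (g : LAut d)
    (h : ∀ S : Finset (Ed d), μ.real {ω | act g ω ∈ up S} = μ.real (up S))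
    (X : Set (Cf d)) (hX : MeasurableSet X) : μ.real {ω | act g ω ∈ X} = μ.real X := by
  haveI : IsProbabilityMeasure (μ.map (act g)) :=
    Measure.isProbabilityMeasure_map (act_measurable g).aemeasurable
  have e : μ.map (act g) = μ := by
    refine measure_ext_up _ _ fun S => ?_
    rw [map_measureReal_apply (act_measurable g) (lcl_measurable (lcl_up S))]
    exact h S
  have e2 : (μ.map (act g)).real X = μ.real {ω | act g ω ∈ X} :=
    map_measureReal_apply (act_measurable g) hX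
  rw [← e2, e]

theorem IV2_up (g : LAut d) (S : Finset (Ed d)) :
    {ω : Cf d | act g ω ∈ up S} = up (S.map g.gE.toEmbedding) := by
  ext ω
  exact act_up g ω S

theorem lim_aut {β : ℝ} (hβ : 0 ≤ β) {μ : Measure (Cf d)} (hμ : IsLim β false μ) (g : LAut d)
    (hg : ∀ x, nm (g.gV x) = nm x) (X : Set (Cf d)) (hX : MeasurableSet X) :
    μ.real {ω | act g ω ∈ X} = μ.real X := by
  haveI := hμ.1
  refine IV2_ext g (fun S => ?_) X hX
  have h1 : Lcl {ω : Cf d | act g ω ∈ up S} := by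
    rw [IV2_up]
    exact lcl_up _
  have h2 := hμ.2 _ h1
  have h3 := hμ.2 _ (lcl_up S)
  refine tendsto_nhds_unique h2 (h3.congr fun n => ?_)
  exact (phiB_aut g hg β n false (up S)).symm

theorem IV2_le {β : ℝ} (hβ : 0 ≤ β) {μ : Measure (Cf d)} (hμ : IsLim β false μ) (g : LAut d)
    (a : Vx d) (hg : ∀ x, g.gV x = x + a) (S : Finset (Ed d)) :
    μ.real (up S) ≤ μ.real (up (S.map g.gE.toEmbedding)) := by
  have hk : ∀ x, nm (g.gV x) ≤ nm x + nm a := by
    intro x
    rw [hg]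
    exact nm_add x a
  have h1 := hμ.2 _ (lcl_up S)
  have h2 := (hμ.2 _ (lcl_up (S.map g.gE.toEmbedding))).comp (tendsto_add_atTop_nat (nm a))
  refine le_of_tendsto_of_tendsto' h1 h2 fun n => ?_
  have h3 := phiB_shift g (nm a) hk hβ n (inc_up S)
  rw [IV2_up] at h3
  exact h3

theorem IV2_inv (g : LAut d) : ∃ g' : LAut d, g'.gV = g.gV.symm ∧ g'.gE = g.gE.symm := by
  refine ⟨⟨g.gV.symm, g.gE.symm, fun e => ?_⟩, rfl, rfl⟩
  have h := g.ok (g.gE.symm e)
  rw [Equiv.apply_symm_apply] at h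
  rcases h with ⟨h1, h2⟩ | ⟨h1, h2⟩
  · left
    rw [h1, h2, Equiv.symm_apply_apply, Equiv.symm_apply_apply]
    exact ⟨rfl, rfl⟩
  · right
    rw [h1, h2, Equiv.symm_apply_apply, Equiv.symm_apply_apply]
    exact ⟨rfl, rfl⟩

theorem lim_shift {β : ℝ} (hβ : 0 ≤ β) {μ : Measure (Cf d)} (hμ : IsLim β false μ) (g : LAut d)
    (a : Vx d) (hg : ∀ x, g.gV x = x + a) (X : Set (Cf d)) (hX : MeasurableSet X) :
    μ.real {ω | act g ω ∈ X} = μ.real X := by
  haveI := hμ.1
  refine IV2_ext g (fun S => ?_) X hX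
  rw [IV2_up]
  refine le_antisymm ?_ (IV2_le hβ hμ g a hg S)
  obtain ⟨g', hV, hE⟩ := IV2_inv g
  have hg' : ∀ x, g'.gV x = x + (-a) := by
    intro x
    rw [hV, Equiv.symm_apply_eq, hg]
    abel
  have h1 := IV2_le hβ hμ g' (-a) hg' (S.map g.gE.toEmbedding)
  have h2 : (S.map g.gE.toEmbedding).map g'.gE.toEmbedding = S := by
    rw [hE]
    ext e
    simp
  rw [h2] at h1
  exact h1

theorem G_shift {β : ℝ} (hβ : 0 ≤ β) {μ : Measure (Cf d)} (hμ : IsLim β false μ) (x y : Vx d) :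
    μ.real (cn x y) = μ.real (cn 0 (y - x)) := by
  obtain ⟨g, hg, -⟩ := exists_trA x
  rw [← lim_shift hβ hμ g x hg (cn 0 (y - x)) (meas_cn _ _)]
  have e : {ω : Cf d | act g ω ∈ cn 0 (y - x)} = cn x y := by
    ext ω
    show act g ω ∈ cn 0 (y - x) ↔ _
    rw [act_cn, hg, hg, zero_add, sub_add_cancel]
  rw [e]

theorem G_neg {β : ℝ} (hβ : 0 ≤ β) {μ : Measure (Cf d)} (hμ : IsLim β false μ) (x : Vx d) :
    μ.real (cn 0 (-x)) = μ.real (cn 0 x) := by
  obtain ⟨g, hg⟩ := exists_ngA (d := d)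
  rw [← lim_aut hβ hμ g (fun z => by rw [hg, nm_neg]) (cn 0 x) (meas_cn _ _)]
  have e : {ω : Cf d | act g ω ∈ cn 0 x} = cn 0 (-x) := by
    ext ω
    show act g ω ∈ cn 0 x ↔ _
    rw [act_cn, hg, hg, neg_zero]
  rw [e]

theorem tendsto_cnB {μ : Measure (Cf d)} [IsProbabilityMeasure μ] (S : Finset (Ed d)) (x y : Vx d) :
    Tendsto (fun n => μ.real (cnB n x y ∩ up S)) atTop (𝓝 (μ.real (cn x y ∩ up S))) := by
  have e : (cn x y ∩ up S : Set (Cf d)) = ⋃ n, (cnB n x y ∩ up S) := by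
    rw [cn_eq, Set.iUnion_inter]
  have hm : Monotone (fun n => (cnB n x y ∩ up S : Set (Cf d))) := by
    intro m n h
    exact Set.inter_subset_inter_left _ (cnB_mono h x y)
  have h1 := tendsto_measure_iUnion_atTop (μ := μ) hm
  rw [← e] at h1
  exact (ENNReal.tendsto_toReal (measure_ne_top μ _)).comp h1

theorem tendsto_arm (hd : 1 ≤ d) {μ : Measure (Cf d)} [IsProbabilityMeasure μ] :
    Tendsto (fun n => μ.real (arm n (0 : Vx d))) atTop (𝓝 (μ.real (perc d))) := by
  have hm : Antitone (fun n => (arm n (0 : Vx d) : Set (Cf d))) := by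
    intro m n h
    exact arm_anti hd h (by rw [nm_zero]; exact Nat.zero_le _)
  have h1 := tendsto_measure_iInter_atTop (μ := μ)
    (fun n => (meas_arm n (0 : Vx d)).nullMeasurableSet) hm ⟨0, measure_ne_top μ _⟩
  rw [← perc_eq hd] at h1
  exact (ENNReal.tendsto_toReal (measure_ne_top μ _)).comp h1

theorem free_le {β : ℝ} (hβ : 0 ≤ β) {μ : Measure (Cf d)} (hμ : IsLim β false μ) (m : ℕ)
    {X : Set (Cf d)} (hX : Inc X) (hl : Lcl X) : phiB β m false X ≤ μ.real X := by
  refine ge_of_tendsto (hμ.2 X hl) ?_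
  filter_upwards [eventually_ge_atTop m] with n hn
  exact phiB_free_mono hβ hn hX

theorem IV2_cnB_sub (n : ℕ) (x y : Vx d) : (cnB n x y : Set (Cf d)) ⊆ cn x y := by
  intro ω hω
  exact conn_mono (Zl d) Set.inter_subset_left hω

theorem IV2_glue (m : ℕ) (ω : Finset (Ed d)) :
    opn (glue (bE d m) (fun _ => false) ω) ∩ (bE d m : Set (Ed d)) =
      opn (glue (bE d m) (fun _ => false) ω) := by
  ext e
  constructor
  · exact fun h => h.1
  · intro h
    refine ⟨h, ?_⟩
    by_contra hn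
    have h1 : glue (bE d m) (fun _ => false) ω e = true := h
    rw [Finset.mem_coe] at hn
    unfold glue at h1
    rw [if_neg hn] at h1
    exact Bool.false_ne_true h1

theorem free_le_cn {β : ℝ} (hβ : 0 ≤ β) {μ : Measure (Cf d)} (hμ : IsLim β false μ) (m : ℕ)
    (S : Finset (Ed d)) (x y : Vx d) :
    phiB β m false (cn x y ∩ up S) ≤ μ.real (cn x y ∩ up S) := by
  haveI := hμ.1
  have e : phiB β m false (cn x y ∩ up S) = phiB β m false (cnB m x y ∩ up S) := by
    unfold phiB phiG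
    congr 1
    refine sum_congr rfl fun ω _ => ?_
    congr 2
    apply propext
    refine and_congr ?_ Iff.rfl
    show (Zl d).Conn (opn (glue (bE d m) (fun _ => false) ω)) x y ↔
      (Zl d).Conn (opn (glue (bE d m) (fun _ => false) ω) ∩ (bE d m : Set (Ed d))) x y
    rw [IV2_glue]
  rw [e]
  refine (free_le hβ hμ m (inc_inter (inc_cnB m x y) (inc_up S))
    (lcl_inter (lcl_cnB m x y) (lcl_up S))).trans ?_
  exact measureReal_mono (Set.inter_subset_inter_left _ (IV2_cnB_sub m x y))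

theorem IV2_fkw_pos {β : ℝ} (hβ : 0 < β) (W : Finset (Vx d)) (Λ : Finset (Ed d)) (ξ : Cf d)
    (ω : Finset (Ed d)) : 0 < fkw β W Λ ξ ω := by
  have h1 : 0 < Real.exp (2 * β) - 1 := by
    have := Real.one_lt_exp_iff.2 (show (0 : ℝ) < 2 * β by linarith)
    linarith
  unfold fkw
  positivity

theorem IV2_phiB_pos {β : ℝ} (hβ : 0 < β) (n : ℕ) :
    0 < phiB β n false (up (bE d n)) := by
  unfold phiB phiG
  have h0 : ∀ p : Prop, 0 ≤ ind p := by
    intro p
    unfold ind
    split_ifs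
    · exact zero_le_one
    · exact le_refl _
  refine div_pos ?_ ?_
  · refine sum_pos' (fun ω _ => mul_nonneg (IV2_fkw_pos hβ _ _ _ _).le (h0 _))
      ⟨bE d n, mem_powerset_self _, ?_⟩
    have h1 : ind (glue (bE d n) (fun _ => false) (bE d n) ∈ up (bE d n)) = 1 := by
      unfold ind
      rw [if_pos]
      intro e he
      unfold glue
      rw [if_pos he]
      simp [he]
    rw [h1, mul_one]
    exact IV2_fkw_pos hβ _ _ _ _
  · exact sum_pos (fun ω _ => IV2_fkw_pos hβ _ _ _ _) ⟨bE d n, mem_powerset_self _⟩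

theorem G_pos {β : ℝ} (hβ : 0 < β) {μ : Measure (Cf d)} (hμ : IsLim β false μ) (x y : Vx d) :
    0 < μ.real (cn x y) := by
  haveI := hμ.1
  obtain ⟨n, hn⟩ : ∃ n, n = max (nm x) (nm y) := ⟨_, rfl⟩
  have h1 := IV2_phiB_pos (d := d) hβ n
  have h2 := free_le hβ.le hμ n (inc_up (bE d n)) (lcl_up (bE d n))
  have h3 : (up (bE d n) : Set (Cf d)) ⊆ cn x y := by
    intro ω hω
    have h4 : (bE d n : Set (Ed d)) ⊆ opn ω := fun e he => hω e he
    exact conn_mono (Zl d) h4 (box_conn (by rw [hn]; exact le_max_left _ _)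
      (by rw [hn]; exact le_max_right _ _))
  exact lt_of_lt_of_le h1 (h2.trans (measureReal_mono h3))

theorem arm_pos (hd : 1 ≤ d) {β : ℝ} (hβ : 0 < β) {μ : Measure (Cf d)} (hμ : IsLim β false μ)
    (n : ℕ) (u : Vx d) : 0 < μ.real (arm n u) := by
  haveI := hμ.1
  have hy : nm (fun _ => (n : ℤ) : Vx d) = n := by
    unfold nm
    haveI : Nonempty (Fin d) := ⟨⟨0, hd⟩⟩
    rw [Finset.sup_const univ_nonempty, Int.natAbs_natCast]
  refine lt_of_lt_of_le (G_pos hβ hμ u (fun _ => (n : ℤ))) (measureReal_mono ?_)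
  intro ω hω
  exact ⟨_, (mem_bdry hd).2 hy, hω⟩

end H82.IC
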