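import Pool.Agent.H82.IC.AUP
import Pool.Agent.H82.IC.IV2
import Pool.Agent.H82.IC.PM2

/-!
# WSH: translation invariance of the wired limit

* `conn_wired_core`: for `x, y` with `nm ≤ m`, `S` any set of edges: `x ↔ y` in `S ∪ (bE m)ᶜ` iff `x ↔ y` in `S ∪ (bE (m+1) \ bE m)`, for `S ⊆ bE m` (this is inside the proof of `phiB_wired` in BR2: a path leaves and
  re-enters `Λ_m` through points of norm `m`, which are connected in `bE (m+1) \ bE m` by `shell_conn`).
* `phiG_wired_shift`: `g` = translation by `a`, `nm a ≤ k`, `X` increasing: `phiB β (n+k) true {ω | act g ω ∈ X} ≤ phiB β n true X`.  By `phiG_aut` the right side is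
  `phiG β W Λ true {ω | act g ω ∈ X}` with `W = (bx n).map gV`, `Λ = (bE n).map gE ⊆ bE (n+k)`.  Put `N = n + k + 1`.  `bridge` for `Λ` with `ξ = true`, `η = bE N \ Λ`: the hypothesis `hc`: connection of the ends of an edge of `Λ`
  in `ω ∪ Λᶜ` versus `ω ∪ (bE N \ Λ)`: (←) clear; (→) translate back by `conn_aut` to `bE n`, use `conn_wired_core` (`m = n`), translate: connection in `ω ∪ (gE '' (bE (n+1) \ bE n))`, which is contained in
  `ω ∪ (bE N \ Λ)` (`gE '' bE (n+1) ⊆ bE (n+1+k)`).  So `phiG β W Λ true Y = fkE (GN N) (1 off Λ, τ on Λ) ..`, and `phiB β (n+k) true Y = fkE (GN N) (1 off bE (n+k), τ on bE (n+k)) ..` (`phiB_wired`); since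
  `Λ ⊆ bE (n+k)` the first parameters are larger, and the glued configurations are ordered (`glue Λ true ω ≥ glue (bE (n+k)) true ω`): `fkE_holley` for increasing `Y = {act g ω ∈ X}`.
* `wired_shift`: for `μ` the wired limit and `S` a finset: apply it to `X = up S` (`act_up`), limits `n → ∞`: `μ (up (S.map gE)) ≤ μ (up S)`; the same with the inverse translation: equality.
-/

set_option autoImplicit false

open Finset MeasureTheory Filter Topology

namespace H82.IC

variable {d : ℕ}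

theorem WSH_conn (hd : 2 ≤ d) (g : LAut d) (k : ℕ) (hk : ∀ x, nm (g.gV x) ≤ nm x + k) (n : ℕ)
    (ω : Finset (Ed d)) (hω : ω ⊆ (bE d n).map g.gE.toEmbedding) {x y : Vx d} (hx : nm x ≤ n)
    (hy : nm y ≤ n)
    (h : (Zl d).Conn ((ω : Set (Ed d)) ∪ (opn (fun _ => true) \
      (((bE d n).map g.gE.toEmbedding : Finset (Ed d)) : Set (Ed d)))) (g.gV x) (g.gV y)) :
    (Zl d).Conn ((ω : Set (Ed d)) ∪ ((bE d (n + k + 1) \ (bE d n).map g.gE.toEmbedding :
      Finset (Ed d)) : Set (Ed d))) (g.gV x) (g.gV y) := by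
  classical
  set Λ := (bE d n).map g.gE.toEmbedding with hΛ
  have hmem : ∀ e, g.gE e ∈ Λ ↔ e ∈ bE d n := fun e => Finset.mem_map' g.gE.toEmbedding
  set ω0 := (bE d n).filter (fun e => g.gE e ∈ ω) with hω0
  have h1 := (conn_aut g _ x y).2 h
  have h2 : (Zl d).Conn ((ω0 : Set (Ed d)) ∪ (opn (fun _ => true) \ (bE d n : Set (Ed d)))) x y := by
    refine conn_mono _ ?_ h1
    rintro e (he | he)
    · left
      rw [Finset.mem_coe, hω0, Finset.mem_filter]
      exact ⟨(hmem e).1 (hω he), he⟩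
    · right
      refine ⟨rfl, fun h' => he.2 ?_⟩
      exact Finset.mem_coe.2 ((hmem e).2 (Finset.mem_coe.1 h'))
  have h3 := (BR2_shell hd (le_refl (n + 1)) ω0 (Finset.filter_subset _ _) hx h2).1 hy
  refine (conn_aut g _ x y).1 (conn_mono _ ?_ h3)
  rintro e (he | he)
  · left
    rw [Finset.mem_coe, hω0, Finset.mem_filter] at he
    exact he.2
  · right
    rw [Finset.mem_coe, Finset.mem_sdiff] at he
    rw [Finset.mem_coe, Finset.mem_sdiff]
    refine ⟨?_, fun h' => he.2 ((hmem e).1 h')⟩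
    have h4 := aut_bE_le g k hk (n + 1) he.1
    have h5 : n + 1 + k = n + k + 1 := by omega
    rwa [h5] at h4

theorem phiG_wired_shift (hd : 2 ≤ d) {β : ℝ} (hβ : 0 ≤ β) (g : LAut d) (a : Vx d)
    (hg : ∀ x, g.gV x = x + a) (k : ℕ) (hk : nm a ≤ k) (n : ℕ) {X : Set (Cf d)} (hX : Inc X) :
    phiB β (n + k) true {ω | act g ω ∈ X} ≤ phiB β n true X := by
  have hk' : ∀ x, nm (g.gV x) ≤ nm x + k := by
    intro x
    rw [hg]
    exact (nm_add x a).trans (Nat.add_le_add_left hk _)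
  have h5 := phiG_aut g β (bx d n) (bE d n) (fun _ => true) X
  set W := (bx d n).map g.gV.toEmbedding with hWd
  set Λ := (bE d n).map g.gE.toEmbedding with hΛd
  have h6 : phiB β n true X = phiG β W Λ (fun _ => true) {ω | act g ω ∈ X} := h5.symm
  rw [h6]
  have hΛk : Λ ⊆ bE d (n + k) := by
    intro e he
    obtain ⟨e0, he0, rfl⟩ := Finset.mem_map.1 he
    exact aut_bE_le g k hk' n he0
  have hW : ∀ e ∈ Λ, (Zl d).s e ∈ W ∧ (Zl d).r e ∈ W := by
    intro e he
    obtain ⟨e0, he0, rfl⟩ := Finset.mem_map.1 he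
    have h7 := mem_bE.1 he0
    have h8 : ∀ x : Vx d, nm x ≤ n → g.gV x ∈ W := fun x hx =>
      Finset.mem_map.2 ⟨x, mem_bx.2 hx, rfl⟩
    change (Zl d).s (g.gE e0) ∈ _ ∧ (Zl d).r (g.gE e0) ∈ _
    rcases g.ok e0 with ⟨h9, h10⟩ | ⟨h9, h10⟩
    · rw [h9, h10]
      exact ⟨h8 _ h7.1, h8 _ h7.2⟩
    · rw [h9, h10]
      exact ⟨h8 _ h7.2, h8 _ h7.1⟩
  have hY : Inc {ω : Cf d | act g ω ∈ X} := by
    intro ω ω' h hω
    exact hX _ _ (fun e he => h (g.gE e) he) hω
  have hb := bridge hβ W Λ (n + k + 1) hW (hΛk.trans (bE_mono (Nat.le_succ _))) (fun _ => true)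
    (bE d (n + k + 1) \ Λ) (Finset.Subset.refl _) (by
      intro ω hω e he
      obtain ⟨e0, he0, rfl⟩ := Finset.mem_map.1 he
      have h7 := mem_bE.1 he0
      change (Zl d).Conn _ ((Zl d).s (g.gE e0)) ((Zl d).r (g.gE e0)) ↔
        (Zl d).Conn _ ((Zl d).s (g.gE e0)) ((Zl d).r (g.gE e0))
      constructor
      · intro hc
        rcases g.ok e0 with ⟨h9, h10⟩ | ⟨h9, h10⟩
        · rw [h9, h10] at hc ⊢
          exact WSH_conn hd g k hk' n ω hω h7.1 h7.2 hc
        · rw [h9, h10] at hc ⊢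
          exact WSH_conn hd g k hk' n ω hω h7.2 h7.1 hc
      · intro hc
        refine conn_mono _ ?_ hc
        apply Set.union_subset_union_right
        intro x hx
        rw [Finset.coe_sdiff] at hx
        exact ⟨rfl, hx.2⟩) {ω | act g ω ∈ X}
  rw [hb, phiB_wired hd hβ (le_refl (n + k + 1)) {ω : Cf d | act g ω ∈ X}]
  have ht : T01 (fun _ : ↥(bE d (n + k + 1)) => Real.tanh β) := T01_tanh β hβ
  refine le_trans (fkE_holley (GN d (n + k + 1))
    (t' := setT (sb (bE d (n + k + 1)) (bE d (n + k + 1) \ Λ))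
      (sb (bE d (n + k + 1)) (bE d (n + k + 1) \ Λ)) (fun _ => Real.tanh β))
    (T01_setT ht _ _) (T01_setT ht _ _) ?_
    (BR2_f_mono (bE d (n + k)) true (n + k + 1) hY)) (fkE_le (GN d (n + k + 1)) (T01_setT ht _ _) ?_)
  · refine BR2_setT_le ht (fun e he => ?_) (fun e he => Or.inr he)
    rw [BR2_mem_E1] at he
    rw [BR2_mem_sb, Finset.mem_sdiff]
    exact ⟨e.2, fun h' => he (hΛk h')⟩
  · intro ω
    apply BR2_ind_mono
    apply hY
    exact BR2_glue_mono (Finset.Subset.refl _) (fun e => ⟨fun _ _ _ => rfl,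
      fun a _ c => absurd (hΛk c) a, fun _ _ _ => rfl⟩)

theorem WSH_le (hd : 2 ≤ d) {β : ℝ} (hβ : 0 ≤ β) {μ : Measure (Cf d)} (hμ : IsLim β true μ)
    (e : Ed d) (a : Vx d) : μ.real (up {(e.1 + a, e.2)}) ≤ μ.real (up {e}) := by
  obtain ⟨g, hg, hgE⟩ := exists_trA a
  have h1 := hμ.2 _ (lcl_up {e})
  have h2 := (hμ.2 _ (lcl_up (({e} : Finset (Ed d)).map g.gE.toEmbedding))).comp
    (tendsto_add_atTop_nat (nm a))
  have h0 : ({e} : Finset (Ed d)).map g.gE.toEmbedding = {(e.1 + a, e.2)} := by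
    rw [Finset.map_singleton]
    congr 1
    exact hgE e
  rw [← h0]
  refine le_of_tendsto_of_tendsto' h2 h1 fun n => ?_
  have h3 := phiG_wired_shift hd hβ g a hg (nm a) le_rfl n (inc_up {e})
  rw [IV2_up] at h3
  exact h3

theorem wired_shift (hd : 2 ≤ d) {β : ℝ} (hβ : 0 ≤ β) {μ : Measure (Cf d)} (hμ : IsLim β true μ)
    (e : Ed d) (a : Vx d) : μ.real (up {(e.1 + a, e.2)}) = μ.real (up {e}) := by
  refine le_antisymm (WSH_le hd hβ hμ e a) ?_
  have h := WSH_le hd hβ hμ ((e.1 + a, e.2) : Ed d) (-a)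
  have h1 : ((((e.1 + a, e.2) : Ed d).1 + -a, ((e.1 + a, e.2) : Ed d).2) : Ed d) = e := by
    show ((e.1 + a + -a, e.2) : Ed d) = e
    rw [add_neg_cancel_right]
  rw [h1] at h
  exact h

end H82.IC
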