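import Pool.Agent.H82.IC.FWB
import Pool.Agent.H82.IC.WSH
import Pool.Agent.H82.IC.INL

/-!
# FWC: averaged double trace, infinite volume limit

For `k : ℕ` let `av k X = (1/|bx k|) ∑_{a ∈ bx k} nuN β (2k) {ω | shf a ω ∈ X}`: given by a probability measure (average of images of `nuN_meas`).  `exists_ultra_limit`: `ν` with `av k X → ν X` along the ultrafilter
for all cylinder `X`.  (`hyperfilter ℕ ≤ cofinite`, `= atTop`: everything true for all large `k` may be used.)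
* `TI ν`: for cylinder `X`, `b`: `|av k {shf b ω ∈ X} - av k X| ≤ |bx k Δ (bx k + b)|/|bx k| → 0` (`shf b (shf a ω) = shf (a+b) ω`), so `ν {shf b ω ∈ X} = ν X` for cylinder `X`, hence for all measurable `X`
  (`ti_of_lcl` in INL).
* `INS ν (1/τ²)`: for cylinder `X` and `k` so large that `e + a ∈ bE (2k)` for all `a ∈ bx k`: `opE e (shf a ω) = shf a (opE (e+a) ω)`, `nuN_ins`; limit.  Extension to measurable `X`: `ins_of_lcl` in INL (ignore the rest of this item): the two finite measures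
  `ν.map (opE e)` and `(1/τ²) ν`; for closed `X`: decreasing intersection of the cylinder events `{ω | ∃ ω' ∈ X, ω = ω' on bE n}` (compactness), then inner regularity by closed sets.  (Or: approximate `X` in measure for
  the sum of the two measures by cylinder events.)
* `cn`: for cylinder `cnB r x y`: `nuN β (2k) {shf a ω ∈ cnB r x y} ≤ nuN β (2k) (cn (x+a) (y+a)) ≤ phiB β (2k) false (cn (x+a) (y+a)) ≤ μ0 (cn (x+a) (y+a)) = μ0 (cn x y)` (`free_le_cn` with `S = ∅`, `G_shift`), so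
  `ν (cnB r x y) ≤ μ0 (cn x y)`, and `r → ∞` (`tendsto_cnB` with `S = ∅`).
* `diff`: for an edge `e`, `l ≥ 1`: for `a ∈ bx k`, `k` large: `nuN_diff` for the edge `e + a` in `Λ_{2k}`: `{∃ b ∈ bdry (2k), s e + a ↔ b} ⊆ {shf a ω ∈ arm l (s e)}`-type event: from `s e + a` to norm `2k` the path leaves the box
  of radius `l` around `a` (`l ≥ nm (s e)`, `k ≥ l + ..`), so `shf a ω ∈ arm l (s e)` (`exit_box` for `shf a ω`).  And `phiB β (2k) true (up {e+a}) ≥ μ1 (up {e+a}) = μ1 (up {e})` (`wired_ge`, `wired_shift`), `phiB β (2k) false (up {e+a}) ≤ μ0 (up {e+a})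
  = μ0 (up {e})` (`free_le`, `lim_shift`).  Average over `a` and limit: `τ² (μ1 (up {e}) - μ0 (up {e})) ≤ ν (arm l (s e))` for all `l ≥ nm (s e)`.
-/

set_option autoImplicit false

open Finset MeasureTheory Filter Topology

namespace H82.IC

variable {d : ℕ}

theorem FWC_avg {α : Type} (B : Finset α) (hB : B.Nonempty) (m : α → Measure (Cf d))
    (hm : ∀ a, IsProbabilityMeasure (m a)) :
    ∃ ν : Measure (Cf d), IsProbabilityMeasure ν ∧
      ∀ X : Set (Cf d), ν.real X = (∑ a ∈ B, (m a).real X) / B.card := by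
  have hc : (0 : ℝ) < B.card := by exact_mod_cast hB.card_pos
  let ν : Measure (Cf d) := ∑ a ∈ B, ENNReal.ofReal (1 / (B.card : ℝ)) • m a
  have hν : ∀ X : Set (Cf d), ν X = ENNReal.ofReal ((∑ a ∈ B, (m a).real X) / B.card) := by
    intro X
    have h1 : ν X = ∑ a ∈ B, ENNReal.ofReal (1 / (B.card : ℝ)) * m a X := by
      simp only [ν, Measure.finsetSum_apply, Measure.smul_apply, smul_eq_mul]
    rw [h1, Finset.sum_div, ENNReal.ofReal_sum_of_nonneg fun a _ =>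
      div_nonneg measureReal_nonneg hc.le]
    refine Finset.sum_congr rfl fun a _ => ?_
    have := hm a
    rw [div_eq_mul_one_div ((m a).real X), mul_comm ((m a).real X),
      ENNReal.ofReal_mul (by positivity), ofReal_measureReal]
  have hn : ∀ X : Set (Cf d), 0 ≤ (∑ a ∈ B, (m a).real X) / B.card := fun X =>
    div_nonneg (Finset.sum_nonneg fun a _ => measureReal_nonneg) hc.le
  refine ⟨ν, ⟨?_⟩, fun X => ?_⟩
  · rw [hν]
    have h2 : ∑ a ∈ B, (m a).real Set.univ = B.card := by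
      have h3 : ∀ a ∈ B, (m a).real Set.univ = 1 := fun a _ => by
        have := hm a
        exact probReal_univ
      rw [Finset.sum_congr rfl h3, Finset.sum_const, nsmul_eq_mul, mul_one]
    rw [h2, div_self hc.ne', ENNReal.ofReal_one]
  · rw [measureReal_def, hν, ENNReal.toReal_ofReal (hn X)]

theorem FWC_ne (k : ℕ) : (bx d k).Nonempty := ⟨0, mem_bx.2 (by rw [nm_zero]; exact Nat.zero_le k)⟩

theorem FWC_ex {β : ℝ} (hβ : 0 ≤ β) : ∃ (M Av : ℕ → Measure (Cf d)),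
    (∀ N, IsProbabilityMeasure (M N)) ∧
    (∀ N (X : Set (Cf d)), MeasurableSet X → (M N).real X = nuN β N X) ∧
    (∀ k, IsProbabilityMeasure (Av k)) ∧
    ∀ k (X : Set (Cf d)), MeasurableSet X → (Av k).real X =
      (∑ a ∈ bx d k, (M (2 * k)).real {ω | shf a ω ∈ X}) / ((bx d k).card : ℝ) := by
  choose M hMp hM using fun N => nuN_meas (d := d) hβ N
  have h1 : ∀ k, ∃ ν : Measure (Cf d), IsProbabilityMeasure ν ∧
      ∀ X : Set (Cf d), ν.real X = (∑ a ∈ bx d k, ((M (2 * k)).map (shf a)).real X) /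
        (bx d k).card := fun k => by
    have := hMp (2 * k)
    exact FWC_avg (bx d k) (FWC_ne k) (fun a => (M (2 * k)).map (shf a)) fun a =>
      Measure.isProbabilityMeasure_map (shf_measurable a).aemeasurable
  choose Av hAvp hAv using h1
  refine ⟨M, Av, hMp, hM, hAvp, fun k X hX => ?_⟩
  rw [hAv]
  congr 1
  refine Finset.sum_congr rfl fun a _ => ?_
  exact map_measureReal_apply (shf_measurable a) hX

theorem FWC_shf (a b : Vx d) (ω : Cf d) : shf b (shf a ω) = shf (a + b) ω := by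
  funext e
  show ω (e.1 + b + a, e.2) = ω (e.1 + (a + b), e.2)
  rw [add_assoc, add_comm b a]

theorem FWC_lcl_shf (a : Vx d) {X : Set (Cf d)} (hX : Lcl X) : Lcl {ω | shf a ω ∈ X} := by
  classical
  obtain ⟨F, hF⟩ := hX
  refine ⟨F.image fun e => (e.1 + a, e.2), fun ω ω' h => hF _ _ fun e he => ?_⟩
  exact h _ (Finset.mem_image.2 ⟨e, he, rfl⟩)

theorem FWC_lcl_op (e : Ed d) {X : Set (Cf d)} (hX : Lcl X) : Lcl {ω | opE e ω ∈ X} := by
  obtain ⟨F, hF⟩ := hX
  refine ⟨F, fun ω ω' h => hF _ _ fun f hf => ?_⟩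
  unfold opE
  by_cases h1 : f = e
  · rw [h1, Function.update_self, Function.update_self]
  · rw [Function.update_of_ne h1, Function.update_of_ne h1]
    exact h f hf

theorem FWC_op (e : Ed d) (a : Vx d) (ω : Cf d) :
    opE e (shf a ω) = shf a (opE (e.1 + a, e.2) ω) := by
  funext f
  unfold opE shf
  by_cases h1 : f = e
  · rw [h1, Function.update_self, Function.update_self]
  · rw [Function.update_of_ne h1, Function.update_of_ne]
    intro h2
    apply h1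
    have h3 := congrArg Prod.fst h2
    have h4 := congrArg Prod.snd h2
    exact Prod.ext (add_right_cancel h3) h4

theorem FWC_act (a : Vx d) : ∃ g : LAut d, (∀ x, g.gV x = x + a) ∧
    (∀ e, g.gE e = (e.1 + a, e.2)) ∧ ∀ ω : Cf d, act g ω = shf a ω := by
  obtain ⟨g, h1, h2⟩ := exists_trA a
  refine ⟨g, h1, h2, fun ω => ?_⟩
  funext e
  show ω (g.gE e) = ω (e.1 + a, e.2)
  rw [h2]

theorem FWC_cn (a : Vx d) (ω : Cf d) (x y : Vx d) :
    shf a ω ∈ cn x y ↔ ω ∈ cn (x + a) (y + a) := by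
  obtain ⟨g, h1, h2, h3⟩ := FWC_act a
  rw [← h3, act_cn, h1, h1]

/-! ### translation invariance -/

theorem FWC_sub (C D : Finset (Vx d)) (h : D ⊆ C) (f : Vx d → ℝ) (h1 : ∀ a, f a ≤ 1) :
    ∑ a ∈ C, f a ≤ ∑ a ∈ D, f a + ((C.card : ℝ) - D.card) := by
  classical
  rw [← Finset.sum_sdiff h]
  have h2 : ∑ a ∈ C \ D, f a ≤ ((C \ D).card : ℝ) := by
    refine (Finset.sum_le_card_nsmul _ _ 1 fun a _ => h1 a).trans (le_of_eq ?_)
    rw [nsmul_eq_mul, mul_one]
  have h3 : ((C \ D).card : ℝ) = (C.card : ℝ) - D.card := by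
    rw [Finset.card_sdiff_of_subset h, Nat.cast_sub (Finset.card_le_card h)]
  linarith

theorem FWC_sym (k : ℕ) (b : Vx d) (f : Vx d → ℝ) (h0 : ∀ a, 0 ≤ f a) (h1 : ∀ a, f a ≤ 1) :
    |∑ a ∈ bx d k, f (a + b) - ∑ a ∈ bx d k, f a| ≤
      ((bx d (k + nm b)).card : ℝ) - (bx d k).card := by
  classical
  have e1 : ∑ a ∈ bx d k, f (a + b) = ∑ a ∈ (bx d k).map (addRightEmbedding b), f a := by
    rw [Finset.sum_map]
    rfl
  have s1 : bx d k ⊆ bx d (k + nm b) := bx_mono (Nat.le_add_right _ _)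
  have s2 : (bx d k).map (addRightEmbedding b) ⊆ bx d (k + nm b) := by
    intro x hx
    obtain ⟨a, ha, rfl⟩ := Finset.mem_map.1 hx
    rw [mem_bx] at ha ⊢
    exact (nm_add a b).trans (Nat.add_le_add_right ha _)
  have m1 := Finset.sum_le_sum_of_subset_of_nonneg s1 (f := f) fun a _ _ => h0 a
  have m2 := Finset.sum_le_sum_of_subset_of_nonneg s2 (f := f) fun a _ _ => h0 a
  have m3 := FWC_sub _ _ s1 f h1
  have m4 := FWC_sub _ _ s2 f h1
  rw [Finset.card_map] at m4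
  rw [e1, abs_le]
  constructor <;> linarith

theorem FWC_lim (m : ℕ) : Tendsto (fun k : ℕ =>
    (((bx d (k + m)).card : ℝ) - (bx d k).card) / (bx d k).card) atTop (𝓝 0) := by
  have h1 : Tendsto (fun k : ℕ => 2 * (k : ℝ) + 1) atTop atTop :=
    tendsto_atTop_add_const_right _ _
      (Tendsto.const_mul_atTop two_pos tendsto_natCast_atTop_atTop)
  have h2 : Tendsto (fun k : ℕ => (2 * (m : ℝ)) / (2 * (k : ℝ) + 1)) atTop (𝓝 0) :=
    tendsto_const_nhds.div_atTop h1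
  have h3 : Tendsto (fun k : ℕ => (1 + (2 * (m : ℝ)) / (2 * (k : ℝ) + 1)) ^ d - 1) atTop
      (𝓝 ((1 + 0) ^ d - 1)) := ((tendsto_const_nhds.add h2).pow d).sub tendsto_const_nhds
  rw [add_zero, one_pow, sub_self] at h3
  refine h3.congr fun k => ?_
  have h4 : (0 : ℝ) < 2 * (k : ℝ) + 1 := by positivity
  rw [card_bx, card_bx, sub_div]
  push_cast
  rw [div_self (pow_pos h4 d).ne', ← div_pow]
  congr 2
  field_simp
  ring

theorem FWC_hyp {p : ℕ → Prop} (h : ∀ᶠ k in atTop, p k) : ∀ᶠ k in (hyperfilter ℕ : Filter ℕ), p k := by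
  rw [← Nat.cofinite_eq_atTop] at h
  exact hyperfilter_le_cofinite h

theorem FWC_TI {M Av : ℕ → Measure (Cf d)} (hMp : ∀ N, IsProbabilityMeasure (M N))
    (hAv : ∀ k (X : Set (Cf d)), MeasurableSet X → (Av k).real X =
      (∑ a ∈ bx d k, (M (2 * k)).real {ω | shf a ω ∈ X}) / ((bx d k).card : ℝ))
    {ν : Measure (Cf d)}
    (hlim : ∀ X : Set (Cf d), Lcl X →
      Tendsto (fun n => (Av n).real X) (hyperfilter ℕ) (𝓝 (ν.real X)))
    (b : Vx d) (X : Set (Cf d)) (hX : Lcl X) : ν.real {ω | shf b ω ∈ X} = ν.real X := by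
  have hX' := FWC_lcl_shf b hX
  have h1 := (hlim _ hX').sub (hlim _ hX)
  have h2 : Tendsto (fun k => (Av k).real {ω | shf b ω ∈ X} - (Av k).real X) atTop (𝓝 0) := by
    refine squeeze_zero_norm (fun k => ?_) (FWC_lim (d := d) (nm b))
    rw [Real.norm_eq_abs, hAv k _ (lcl_measurable hX'), hAv k _ (lcl_measurable hX), ← sub_div,
      abs_div, Nat.abs_cast]
    refine div_le_div_of_nonneg_right ?_ (Nat.cast_nonneg _)
    have := hMp (2 * k)
    have h3 := FWC_sym k b (fun a => (M (2 * k)).real {ω | shf a ω ∈ X})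
      (fun a => measureReal_nonneg) (fun a => measureReal_le_one)
    have h4 : ∀ a ∈ bx d k, (M (2 * k)).real {ω | shf a ω ∈ {ω | shf b ω ∈ X}} =
        (M (2 * k)).real {ω | shf (a + b) ω ∈ X} := by
      intro a _
      congr 1
      ext ω
      show shf b (shf a ω) ∈ X ↔ shf (a + b) ω ∈ X
      rw [FWC_shf]
    rw [Finset.sum_congr rfl h4]
    exact h3
  have h3 : Tendsto (fun k => (Av k).real {ω | shf b ω ∈ X} - (Av k).real X)
      (hyperfilter ℕ) (𝓝 0) := by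
    refine h2.mono_left ?_
    rw [← Nat.cofinite_eq_atTop]
    exact hyperfilter_le_cofinite
  exact sub_eq_zero.1 (tendsto_nhds_unique h1 h3)

theorem FWC_avg_le {B : Finset (Vx d)} (hB : B.Nonempty) (f : Vx d → ℝ) (c : ℝ)
    (h : ∀ a ∈ B, f a ≤ c) : (∑ a ∈ B, f a) / (B.card : ℝ) ≤ c := by
  have hc : (0 : ℝ) < B.card := by exact_mod_cast hB.card_pos
  rw [div_le_iff₀ hc]
  refine (Finset.sum_le_card_nsmul _ _ c h).trans (le_of_eq ?_)
  rw [nsmul_eq_mul, mul_comm]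

theorem FWC_avg_ge {B : Finset (Vx d)} (hB : B.Nonempty) (f : Vx d → ℝ) (c : ℝ)
    (h : ∀ a ∈ B, c ≤ f a) : c ≤ (∑ a ∈ B, f a) / (B.card : ℝ) := by
  have hc : (0 : ℝ) < B.card := by exact_mod_cast hB.card_pos
  rw [le_div_iff₀ hc]
  refine le_trans (le_of_eq ?_) (Finset.card_nsmul_le_sum _ _ c h)
  rw [nsmul_eq_mul, mul_comm]

theorem FWC_bE (e : Ed d) : ∀ᶠ k : ℕ in atTop, ∀ a ∈ bx d k,
    ((e.1 + a, e.2) : Ed d) ∈ bE d (2 * k) := by
  filter_upwards [eventually_ge_atTop (max (nm ((Zl d).s e)) (nm ((Zl d).r e)))] with k hk a ha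
  rw [mem_bx] at ha
  rw [mem_bE]
  have h1 := le_trans (le_max_left _ _) hk
  have h2 := le_trans (le_max_right _ _) hk
  refine ⟨?_, ?_⟩
  · have h3 := nm_add e.1 a
    have h4 : nm e.1 ≤ k := h1
    change nm (e.1 + a) ≤ 2 * k
    omega
  · have h3 := nm_add (e.1 + Pi.single e.2 1) a
    have h4 : nm (e.1 + Pi.single e.2 1) ≤ k := h2
    change nm (e.1 + a + Pi.single e.2 1) ≤ 2 * k
    have h5 : e.1 + a + Pi.single e.2 1 = e.1 + Pi.single e.2 1 + a := by abel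
    rw [h5]
    omega

theorem FWC_INS {β : ℝ} (hβ : 0 < β) {M Av : ℕ → Measure (Cf d)}
    (hM : ∀ N (X : Set (Cf d)), MeasurableSet X → (M N).real X = nuN β N X)
    (hAv : ∀ k (X : Set (Cf d)), MeasurableSet X → (Av k).real X =
      (∑ a ∈ bx d k, (M (2 * k)).real {ω | shf a ω ∈ X}) / ((bx d k).card : ℝ))
    {ν : Measure (Cf d)}
    (hlim : ∀ X : Set (Cf d), Lcl X →
      Tendsto (fun n => (Av n).real X) (hyperfilter ℕ) (𝓝 (ν.real X)))
    (e : Ed d) (X : Set (Cf d)) (hX : Lcl X) :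
    ν.real {ω | opE e ω ∈ X} ≤ 1 / Real.tanh β ^ 2 * ν.real X := by
  have hX' := FWC_lcl_op e hX
  have ht : 0 < Real.tanh β := by
    rw [Real.tanh_eq_sinh_div_cosh]
    exact div_pos (Real.sinh_pos_iff.2 hβ) (Real.cosh_pos β)
  have ht2 : 0 < Real.tanh β ^ 2 := pow_pos ht 2
  refine le_of_tendsto_of_tendsto (hlim _ hX') ((hlim _ hX).const_mul _) (FWC_hyp ?_)
  filter_upwards [FWC_bE e] with k hk
  rw [hAv k _ (lcl_measurable hX'), hAv k _ (lcl_measurable hX), ← mul_div_assoc, Finset.mul_sum]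
  refine div_le_div_of_nonneg_right (Finset.sum_le_sum fun a ha => ?_) (Nat.cast_nonneg _)
  have h1 : {ω : Cf d | shf a ω ∈ {ω | opE e ω ∈ X}} =
      {ω | opE (e.1 + a, e.2) ω ∈ {ω | shf a ω ∈ X}} := by
    ext ω
    show opE e (shf a ω) ∈ X ↔ shf a (opE (e.1 + a, e.2) ω) ∈ X
    rw [FWC_op]
  have hm1 : MeasurableSet {ω : Cf d | shf a ω ∈ {ω | opE e ω ∈ X}} :=
    lcl_measurable (FWC_lcl_shf a hX')
  rw [hM _ _ hm1, hM _ _ (lcl_measurable (FWC_lcl_shf a hX)), h1]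
  have h2 := nuN_ins hβ.le (2 * k) (hk a ha) {ω : Cf d | shf a ω ∈ X}
  rw [div_mul_eq_mul_div, one_mul, le_div_iff₀ ht2, mul_comm]
  exact h2

theorem FWC_up0 : (up (∅ : Finset (Ed d)) : Set (Cf d)) = Set.univ := by
  ext ω
  refine ⟨fun _ => Set.mem_univ _, fun _ e he => absurd he (Finset.notMem_empty e)⟩

theorem FWC_cnb {β : ℝ} (hβ : 0 < β) {μ0 : Measure (Cf d)} (h0 : IsLim β false μ0)
    {M Av : ℕ → Measure (Cf d)} (hMp : ∀ N, IsProbabilityMeasure (M N))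
    (hM : ∀ N (X : Set (Cf d)), MeasurableSet X → (M N).real X = nuN β N X)
    (hAv : ∀ k (X : Set (Cf d)), MeasurableSet X → (Av k).real X =
      (∑ a ∈ bx d k, (M (2 * k)).real {ω | shf a ω ∈ X}) / ((bx d k).card : ℝ))
    {ν : Measure (Cf d)} (hν : IsProbabilityMeasure ν)
    (hlim : ∀ X : Set (Cf d), Lcl X →
      Tendsto (fun n => (Av n).real X) (hyperfilter ℕ) (𝓝 (ν.real X)))
    (x y : Vx d) : ν.real (cn x y) ≤ μ0.real (cn x y) := by
  have h1 := tendsto_cnB (μ := ν) ∅ x y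
  rw [FWC_up0, Set.inter_univ] at h1
  refine le_of_tendsto' h1 fun r => ?_
  rw [Set.inter_univ]
  refine le_of_tendsto' (hlim _ (lcl_cnB r x y)) fun k => ?_
  rw [hAv k _ (lcl_measurable (lcl_cnB r x y))]
  refine FWC_avg_le (FWC_ne k) _ _ fun a _ => ?_
  have := hMp (2 * k)
  have h2 : {ω : Cf d | shf a ω ∈ cnB r x y} ⊆ cn (x + a) (y + a) := by
    intro ω hω
    exact (FWC_cn a ω x y).1 (conn_mono _ Set.inter_subset_left hω)
  refine (measureReal_mono h2).trans ?_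
  rw [hM _ _ (meas_cn _ _)]
  refine (nuN_cn hβ.le (2 * k) (x + a) (y + a)).trans ?_
  have h3 := free_le_cn hβ.le h0 (2 * k) ∅ (x + a) (y + a)
  rw [FWC_up0, Set.inter_univ] at h3
  refine h3.trans (le_of_eq ?_)
  rw [G_shift hβ.le h0 (x + a) (y + a), G_shift hβ.le h0 x y, add_sub_add_right_eq_sub]

theorem FWC_up (hd : 2 ≤ d) {β : ℝ} (hβ : 0 < β) {μ0 : Measure (Cf d)} (h0 : IsLim β false μ0)
    (e : Ed d) (a : Vx d) : μ0.real (up {((e.1 + a, e.2) : Ed d)}) = μ0.real (up {e}) := by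
  obtain ⟨g, h1, h2, h3⟩ := FWC_act a
  rw [← lim_shift hβ.le h0 g a h1 (up {e}) (lcl_measurable (lcl_up _))]
  congr 1
  ext ω
  show ω ∈ up {((e.1 + a, e.2) : Ed d)} ↔ act g ω ∈ up {e}
  rw [act_up, Finset.map_singleton]
  have h4 : g.gE.toEmbedding e = (e.1 + a, e.2) := h2 e
  rw [h4]

theorem FWC_diff (hd : 2 ≤ d) {β : ℝ} (hβ : 0 < β) {μ0 μ1 : Measure (Cf d)}
    (h0 : IsLim β false μ0) (h1 : IsLim β true μ1)
    {M Av : ℕ → Measure (Cf d)} (hMp : ∀ N, IsProbabilityMeasure (M N))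
    (hM : ∀ N (X : Set (Cf d)), MeasurableSet X → (M N).real X = nuN β N X)
    (hAv : ∀ k (X : Set (Cf d)), MeasurableSet X → (Av k).real X =
      (∑ a ∈ bx d k, (M (2 * k)).real {ω | shf a ω ∈ X}) / ((bx d k).card : ℝ))
    {ν : Measure (Cf d)}
    (hlim : ∀ X : Set (Cf d), Lcl X →
      Tendsto (fun n => (Av n).real X) (hyperfilter ℕ) (𝓝 (ν.real X)))
    (e : Ed d) (l : ℕ) (hl : nm ((Zl d).s e) ≤ l) :
    Real.tanh β ^ 2 * (μ1.real (up {e}) - μ0.real (up {e})) ≤ ν.real (arm l ((Zl d).s e)) := by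
  have hd1 : 1 ≤ d := by omega
  have hla : Lcl (arm l ((Zl d).s e) : Set (Cf d)) := lcl_arm hd1 hl
  refine ge_of_tendsto (hlim _ hla) (FWC_hyp ?_)
  filter_upwards [FWC_bE e, eventually_ge_atTop l] with k hk hkl
  rw [hAv k _ (lcl_measurable hla)]
  refine FWC_avg_ge (FWC_ne k) _ _ fun a ha => ?_
  have := hMp (2 * k)
  have hs : (arm (2 * k) ((Zl d).s ((e.1 + a, e.2) : Ed d)) : Set (Cf d)) ⊆
      {ω | shf a ω ∈ arm l ((Zl d).s e)} := by
    rintro ω ⟨b, hb, hc⟩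
    rw [mem_bdry hd1] at hb
    have hab : ω ∈ cn ((Zl d).s e + a) (b - a + a) := by
      rw [sub_add_cancel]
      exact hc
    have h5 := (FWC_cn a ω _ _).2 hab
    have h6 : l ≤ nm (b - a) := by
      have h7 := nm_add (b - a) a
      rw [sub_add_cancel, hb] at h7
      rw [mem_bx] at ha
      omega
    obtain ⟨b', hb', hc'⟩ := exit_box hd1 hl h6 h5
    exact ⟨b', hb', conn_mono _ Set.inter_subset_left hc'⟩
  refine le_trans ?_ (measureReal_mono hs)
  rw [hM _ _ (meas_arm _ _)]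
  refine le_trans ?_ (nuN_diff hd hβ.le (2 * k) (hk a ha))
  refine mul_le_mul_of_nonneg_left ?_ (sq_nonneg _)
  have h8 := wired_ge hd hβ.le h1 (2 * k) (inc_up {((e.1 + a, e.2) : Ed d)}) (lcl_up _)
  have h9 := free_le hβ.le h0 (2 * k) (inc_up {((e.1 + a, e.2) : Ed d)}) (lcl_up _)
  rw [wired_shift hd hβ.le h1 e a] at h8
  rw [FWC_up hd hβ h0 e a] at h9
  linarith

theorem exists_nu (hd : 2 ≤ d) {β : ℝ} (hβ : 0 < β) {μ0 μ1 : Measure (Cf d)}
    (h0 : IsLim β false μ0) (h1 : IsLim β true μ1) :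
    ∃ ν : Measure (Cf d), IsProbabilityMeasure ν ∧ TI ν ∧
      INS ν (1 / Real.tanh β ^ 2) ∧ (∀ x y : Vx d, ν.real (cn x y) ≤ μ0.real (cn x y)) ∧
      ∀ (e : Ed d) (l : ℕ), nm ((Zl d).s e) ≤ l →
        Real.tanh β ^ 2 * (μ1.real (up {e}) - μ0.real (up {e})) ≤ ν.real (arm l ((Zl d).s e)) := by
  obtain ⟨M, Av, hMp, hM, hAvp, hAv⟩ := FWC_ex (d := d) hβ.le
  obtain ⟨ν, hν, hlim⟩ := exists_ultra_limit Av hAvp
  refine ⟨ν, hν, ti_of_lcl ν fun b X hX => FWC_TI hMp hAv hlim b X hX,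
    ins_of_lcl ν _ (by positivity) fun e X hX => FWC_INS hβ hM hAv hlim e X hX,
    fun x y => FWC_cnb hβ h0 hMp hM hAv hν hlim x y,
    fun e l hl => FWC_diff hd hβ h0 h1 hMp hM hAv hlim e l hl⟩

end H82.IC
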