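import Mathlib

/-!
# GPD: the Gaussian kernel is positive definite; Cauchy-Schwarz

`exp(-(β/2) ∑ (p e - q e)^2) = exp(-(β/2)|p|^2) exp(-(β/2)|q|^2) exp(β p·q)`, so with `c' i = c i exp(-(β/2)|p i|^2)` it suffices that `∑_{i,j} c' i c' j exp(β p_i·p_j) ≥ 0`.
`exp x = ∑' k, x^k/k!` (`Real.exp_eq_tsum` / `NormedSpace.expSeries`), finite sums commute with the (summable) series, and for each `k`:
`(∑ e, p e q e)^k = ∑_{f : Fin k → C} ∏ j, p (f j) q (f j)` (`Finset.sum_pow'` / `Finset.prod_univ_sum`), so `∑_{i,j} c' i c' j (p_i·p_j)^k = ∑_f (∑_i c' i ∏ j, p i (f j))^2 ≥ 0`.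
`gauss_cs`: apply `gauss_pd` to the index type `ι ⊕ κ`, points `p`, `q`, coefficients `A i`, `-x * B j`: `a - 2 x b + x^2 c ≥ 0` for all real `x` implies `b^2 ≤ a c` (`discrim_le_zero`, or choose `x` by hand).
-/

set_option autoImplicit false

open Finset

namespace H82.IC

theorem GPD_key {ι C : Type*} [Fintype ι] [Fintype C] (p : ι → C → ℝ) (c : ι → ℝ) (k : ℕ) :
    0 ≤ ∑ i, ∑ j, c i * c j * (∑ e, p i e * p j e) ^ k := by
  have h1 : ∑ i, ∑ j, c i * c j * (∑ e, p i e * p j e) ^ k =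
      ∑ f : Fin k → C, (∑ i, c i * ∏ a, p i (f a)) ^ 2 := by
    have h2 : ∀ i j, c i * c j * (∑ e, p i e * p j e) ^ k =
        ∑ f : Fin k → C, (c i * ∏ a, p i (f a)) * (c j * ∏ a, p j (f a)) := by
      intro i j
      rw [Fintype.sum_pow, Finset.mul_sum]
      refine Finset.sum_congr rfl fun f _ => ?_
      rw [Finset.prod_mul_distrib]
      ring
    simp only [h2]
    have h3 : ∀ i, ∑ j, ∑ f : Fin k → C, (c i * ∏ a, p i (f a)) * (c j * ∏ a, p j (f a)) =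
        ∑ f : Fin k → C, ∑ j, (c i * ∏ a, p i (f a)) * (c j * ∏ a, p j (f a)) := fun i =>
      Finset.sum_comm
    simp only [h3]
    rw [Finset.sum_comm]
    refine Finset.sum_congr rfl fun f _ => ?_
    rw [sq, Finset.sum_mul_sum]
  rw [h1]
  exact Finset.sum_nonneg fun f _ => sq_nonneg _

theorem GPD_exp {ι C : Type*} [Fintype ι] [Fintype C] {β : ℝ} (hβ : 0 ≤ β) (p : ι → C → ℝ)
    (c : ι → ℝ) :
    0 ≤ ∑ i, ∑ j, c i * c j * Real.exp (β * ∑ e, p i e * p j e) := by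
  have h1 : HasSum (fun k : ℕ => ∑ i, ∑ j, c i * c j *
      ((β * ∑ e, p i e * p j e) ^ k / (k.factorial : ℝ)))
      (∑ i, ∑ j, c i * c j * Real.exp (β * ∑ e, p i e * p j e)) := by
    refine hasSum_sum fun i _ => hasSum_sum fun j _ => ?_
    have h2 := NormedSpace.expSeries_div_hasSum_exp (β * ∑ e, p i e * p j e)
    rw [← Real.exp_eq_exp_ℝ] at h2
    exact h2.mul_left (c i * c j)
  refine h1.nonneg fun k => ?_
  have h3 : ∑ i, ∑ j, c i * c j * ((β * ∑ e, p i e * p j e) ^ k / (k.factorial : ℝ)) =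
      (β ^ k / (k.factorial : ℝ)) * ∑ i, ∑ j, c i * c j * (∑ e, p i e * p j e) ^ k := by
    rw [Finset.mul_sum]
    refine Finset.sum_congr rfl fun i _ => ?_
    rw [Finset.mul_sum]
    refine Finset.sum_congr rfl fun j _ => ?_
    rw [mul_pow]
    ring
  rw [h3]
  exact mul_nonneg (div_nonneg (pow_nonneg hβ _) (Nat.cast_nonneg _)) (GPD_key p c k)

theorem gauss_pd {ι C : Type*} [Fintype ι] [Fintype C] {β : ℝ} (hβ : 0 ≤ β) (p : ι → C → ℝ)
    (c : ι → ℝ) :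
    0 ≤ ∑ i, ∑ j, c i * c j * Real.exp (-(β / 2) * ∑ e, (p i e - p j e) ^ 2) := by
  have h := GPD_exp hβ p (fun i => c i * Real.exp (-(β / 2) * ∑ e, (p i e) ^ 2))
  refine h.trans (le_of_eq ?_)
  refine Finset.sum_congr rfl fun i _ => Finset.sum_congr rfl fun j _ => ?_
  have h1 : -(β / 2) * ∑ e, (p i e - p j e) ^ 2 = -(β / 2) * ∑ e, (p i e) ^ 2 +
      -(β / 2) * ∑ e, (p j e) ^ 2 + β * ∑ e, p i e * p j e := by
    rw [Finset.mul_sum, Finset.mul_sum, Finset.mul_sum, Finset.mul_sum, ← Finset.sum_add_distrib,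
      ← Finset.sum_add_distrib]
    refine Finset.sum_congr rfl fun e _ => ?_
    ring
  rw [h1, Real.exp_add, Real.exp_add]
  ring

theorem gauss_cs {ι κ C : Type*} [Fintype ι] [Fintype κ] [Fintype C] {β : ℝ} (hβ : 0 ≤ β)
    (p : ι → C → ℝ) (q : κ → C → ℝ) (A : ι → ℝ) (B : κ → ℝ) :
    (∑ i, ∑ j, A i * B j * Real.exp (-(β / 2) * ∑ e, (p i e - q j e) ^ 2)) ^ 2 ≤
      (∑ i, ∑ j, A i * A j * Real.exp (-(β / 2) * ∑ e, (p i e - p j e) ^ 2)) *
        (∑ i, ∑ j, B i * B j * Real.exp (-(β / 2) * ∑ e, (q i e - q j e) ^ 2)) := by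
  obtain ⟨a, ha⟩ : ∃ a, a = ∑ i, ∑ j, A i * A j * Real.exp (-(β / 2) * ∑ e, (p i e - p j e) ^ 2) :=
    ⟨_, rfl⟩
  obtain ⟨b, hb⟩ : ∃ b, b = ∑ i, ∑ j, A i * B j * Real.exp (-(β / 2) * ∑ e, (p i e - q j e) ^ 2) :=
    ⟨_, rfl⟩
  obtain ⟨d, hd⟩ : ∃ d, d = ∑ i, ∑ j, B i * B j * Real.exp (-(β / 2) * ∑ e, (q i e - q j e) ^ 2) :=
    ⟨_, rfl⟩
  have hb' : ∑ j, ∑ i, B j * A i * Real.exp (-(β / 2) * ∑ e, (q j e - p i e) ^ 2) = b := by
    rw [hb, Finset.sum_comm]
    refine Finset.sum_congr rfl fun i _ => Finset.sum_congr rfl fun j _ => ?_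
    have : ∑ e, (q j e - p i e) ^ 2 = ∑ e, (p i e - q j e) ^ 2 :=
      Finset.sum_congr rfl fun e _ => by ring
    rw [this]
    ring
  have key : ∀ x : ℝ, 0 ≤ d * (x * x) + (-2 * b) * x + a := by
    intro x
    have h := gauss_pd hβ (Sum.elim p q) (Sum.elim A (fun j => -x * B j))
    rw [Fintype.sum_sum_type] at h
    simp only [Fintype.sum_sum_type, Sum.elim_inl, Sum.elim_inr, Finset.sum_add_distrib] at h
    have e1 : ∑ i, ∑ j, A i * (-x * B j) * Real.exp (-(β / 2) * ∑ e, (p i e - q j e) ^ 2) =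
        -x * b := by
      rw [hb, Finset.mul_sum]
      refine Finset.sum_congr rfl fun i _ => ?_
      rw [Finset.mul_sum]
      refine Finset.sum_congr rfl fun j _ => ?_
      ring
    have e2 : ∑ j, ∑ i, -x * B j * A i * Real.exp (-(β / 2) * ∑ e, (q j e - p i e) ^ 2) =
        -x * b := by
      rw [← hb', Finset.mul_sum]
      refine Finset.sum_congr rfl fun i _ => ?_
      rw [Finset.mul_sum]
      refine Finset.sum_congr rfl fun j _ => ?_
      ring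
    have e3 : ∑ i, ∑ j, -x * B i * (-x * B j) * Real.exp (-(β / 2) * ∑ e, (q i e - q j e) ^ 2) =
        x * x * d := by
      rw [hd, Finset.mul_sum]
      refine Finset.sum_congr rfl fun i _ => ?_
      rw [Finset.mul_sum]
      refine Finset.sum_congr rfl fun j _ => ?_
      ring
    rw [e1, e2, e3, ← ha] at h
    linarith
  have hdis := discrim_le_zero key
  rw [discrim] at hdis
  rw [← ha, ← hb, ← hd]
  nlinarith

end H82.IC
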