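import Pool.Agent.H82.IC.KEY2

/-!
# KEY3: the key inequality for a random graph

Sum `key_pointwise` over `i ∈ I` with weights `p i ≥ 0`.
* `∑ p i * sg_i |N-1| ≤ √(∑ p i tp_i o a_i) √(∑ p i sg_i (N-1)^2)`: `sg_cs` gives `sg_i|N-1| ≤ √(tp_i o a_i) √(sg_i (N-1)^2)`, then Cauchy-Schwarz for finite sums
  (`Finset.sum_mul_sq_le_sq_mul_sq` / `Real.sum_sqrt_mul_sqrt_le`).
* `∑ p i sg_i (N-1)^2 ≤ VAR` by `sg_NN_sq`, and `tp_i u v ≤ Gp u v` for `u, v ∈ W`, `Gm u ≤ tp_i o u` for `u ∈ B`, all quantities `≥ 0` (`tp_nonneg`), so the sum over `i` turns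
  `tp_i v a_i` into `M v`.
* the other two terms: the same bounds.
-/

set_option autoImplicit false

open Finset

namespace H82.IC

variable {V E ι : Type*} [Fintype E] [DecidableEq E]

/-- The linear functional in the second moment bound. -/
noncomputable def KEY3_L (B : Finset V) (α : V → ℝ) (Gp : V → V → ℝ) (Gm : V → ℝ) (o : V)
    (φ : V → ℝ) : ℝ :=
  (∑ u ∈ B, ∑ v ∈ B, α u * α v * (Gp u v * (Gp o u * φ v + Gp o v * φ u))) -
    2 * (∑ u ∈ B, α u * (Gm u * φ u)) + φ o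

theorem KEY3_sum_comb (B : Finset V) (I : Finset ι) (p : ι → ℝ) (φ : ι → V → ℝ) (k : V → ℝ) :
    ∑ i ∈ I, p i * ∑ u ∈ B, k u * φ i u = ∑ u ∈ B, k u * ∑ i ∈ I, p i * φ i u := by
  simp_rw [Finset.mul_sum]
  rw [Finset.sum_comm]
  refine Finset.sum_congr rfl (fun u _ => Finset.sum_congr rfl (fun i _ => by ring))

theorem KEY3_L_sum (B : Finset V) (α : V → ℝ) (Gp : V → V → ℝ) (Gm : V → ℝ) (o : V)
    (I : Finset ι) (p : ι → ℝ) (φ : ι → V → ℝ) (M : V → ℝ)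
    (hM : ∀ u, M u = ∑ i ∈ I, p i * φ i u) :
    ∑ i ∈ I, p i * KEY3_L B α Gp Gm o (φ i) = KEY3_L B α Gp Gm o M := by
  unfold KEY3_L
  have h1 : ∀ i, (∑ u ∈ B, ∑ v ∈ B, α u * α v * (Gp u v * (Gp o u * φ i v + Gp o v * φ i u))) =
      ∑ v ∈ B, (∑ u ∈ B, α u * α v * Gp u v * Gp o u) * φ i v +
      ∑ u ∈ B, (∑ v ∈ B, α u * α v * Gp u v * Gp o v) * φ i u := by
    intro i
    have e1 : ∑ v ∈ B, (∑ u ∈ B, α u * α v * Gp u v * Gp o u) * φ i v =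
        ∑ u ∈ B, ∑ v ∈ B, α u * α v * Gp u v * Gp o u * φ i v := by
      rw [Finset.sum_comm]
      exact Finset.sum_congr rfl (fun v _ => by rw [Finset.sum_mul])
    have e2 : ∑ u ∈ B, (∑ v ∈ B, α u * α v * Gp u v * Gp o v) * φ i u =
        ∑ u ∈ B, ∑ v ∈ B, α u * α v * Gp u v * Gp o v * φ i u :=
      Finset.sum_congr rfl (fun v _ => by rw [Finset.sum_mul])
    rw [e1, e2, ← Finset.sum_add_distrib]
    refine Finset.sum_congr rfl (fun u _ => ?_)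
    rw [← Finset.sum_add_distrib]
    exact Finset.sum_congr rfl (fun v _ => by ring)
  have h1' : (∑ u ∈ B, ∑ v ∈ B, α u * α v * (Gp u v * (Gp o u * M v + Gp o v * M u))) =
      ∑ v ∈ B, (∑ u ∈ B, α u * α v * Gp u v * Gp o u) * M v +
      ∑ u ∈ B, (∑ v ∈ B, α u * α v * Gp u v * Gp o v) * M u := by
    have e1 : ∑ v ∈ B, (∑ u ∈ B, α u * α v * Gp u v * Gp o u) * M v =
        ∑ u ∈ B, ∑ v ∈ B, α u * α v * Gp u v * Gp o u * M v := by
      rw [Finset.sum_comm]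
      exact Finset.sum_congr rfl (fun v _ => by rw [Finset.sum_mul])
    have e2 : ∑ u ∈ B, (∑ v ∈ B, α u * α v * Gp u v * Gp o v) * M u =
        ∑ u ∈ B, ∑ v ∈ B, α u * α v * Gp u v * Gp o v * M u :=
      Finset.sum_congr rfl (fun v _ => by rw [Finset.sum_mul])
    rw [e1, e2, ← Finset.sum_add_distrib]
    refine Finset.sum_congr rfl (fun u _ => ?_)
    rw [← Finset.sum_add_distrib]
    exact Finset.sum_congr rfl (fun v _ => by ring)
  have h2 : ∀ i, 2 * (∑ u ∈ B, α u * (Gm u * φ i u)) = ∑ u ∈ B, (2 * α u * Gm u) * φ i u := by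
    intro i
    rw [Finset.mul_sum]
    exact Finset.sum_congr rfl (fun u _ => by ring)
  have h2' : 2 * (∑ u ∈ B, α u * (Gm u * M u)) = ∑ u ∈ B, (2 * α u * Gm u) * M u := by
    rw [Finset.mul_sum]
    exact Finset.sum_congr rfl (fun u _ => by ring)
  rw [h1', h2']
  have h3 : ∀ i ∈ I, p i * ((∑ u ∈ B, ∑ v ∈ B, α u * α v *
      (Gp u v * (Gp o u * φ i v + Gp o v * φ i u))) -
      2 * (∑ u ∈ B, α u * (Gm u * φ i u)) + φ i o) =
      (p i * ∑ v ∈ B, (∑ u ∈ B, α u * α v * Gp u v * Gp o u) * φ i v +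
      p i * ∑ u ∈ B, (∑ v ∈ B, α u * α v * Gp u v * Gp o v) * φ i u) -
      p i * (∑ u ∈ B, (2 * α u * Gm u) * φ i u) + p i * φ i o := by
    intro i _
    rw [h1 i, h2 i]
    ring
  rw [Finset.sum_congr rfl h3, Finset.sum_add_distrib, Finset.sum_sub_distrib,
    Finset.sum_add_distrib,
    KEY3_sum_comb B I p φ (fun v => ∑ u ∈ B, α u * α v * Gp u v * Gp o u),
    KEY3_sum_comb B I p φ (fun u => ∑ v ∈ B, α u * α v * Gp u v * Gp o v),
    KEY3_sum_comb B I p φ (fun u => 2 * α u * Gm u)]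
  simp_rw [← hM]

theorem KEY3_cs (I : Finset ι) (p S T W : ι → ℝ) (hp : ∀ i, 0 ≤ p i)
    (hT : ∀ i ∈ I, 0 ≤ T i) (hW : ∀ i ∈ I, 0 ≤ W i) (h : ∀ i ∈ I, (S i) ^ 2 ≤ T i * W i) :
    ∑ i ∈ I, p i * S i ≤ Real.sqrt ((∑ i ∈ I, p i * T i) * (∑ i ∈ I, p i * W i)) := by
  apply Real.le_sqrt_of_sq_le
  have h1 : ∀ i ∈ I, (p i * S i) ^ 2 ≤ (p i * T i) * (p i * W i) := by
    intro i hi
    have := mul_le_mul_of_nonneg_left (h i hi) (mul_nonneg (hp i) (hp i))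
    nlinarith [this]
  exact Finset.sum_sq_le_sum_mul_sum_of_sq_le_mul I
    (fun i hi => mul_nonneg (hp i) (hT i hi)) (fun i hi => mul_nonneg (hp i) (hW i hi)) h1

theorem key_random (Γ : Gr V E) (I : Finset ι) (p : ι → ℝ) (hp : ∀ i, 0 ≤ p i)
    (t : ι → E → ℝ) (ht : ∀ i, T01 (t i)) (a : ι → V)
    (F : Finset E) {τ : ℝ} (h0 : 0 ≤ τ) (h1 : τ < 1) (hF : ∀ i ∈ I, ∀ e ∈ F, t i e = τ)
    (o : V) (B W : Finset V) (hBW : B ⊆ W) (hoW : o ∈ W) (hFW : Γ.vF F ⊆ W)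
    (α : V → ℝ) (hα : ∀ u, 0 ≤ α u) (c : ℝ) (δ : V → ℝ)
    (Gp : V → V → ℝ) (Gm : V → ℝ) (M : V → ℝ)
    (hGp : ∀ i ∈ I, ∀ u ∈ W, ∀ v ∈ W, Γ.tp (t i) u v ≤ Gp u v)
    (hGm : ∀ i ∈ I, ∀ u ∈ B, Gm u ≤ Γ.tp (t i) o u)
    (hM : ∀ u, M u = ∑ i ∈ I, p i * Γ.tp (t i) u (a i))
    (hδ : ∀ i ∈ I, ∀ u ∈ B,
      |Γ.fkE (t i) (fun ω => ind (Disjoint ω F) * ind (Γ.Conn (ω : Set E) o u)) -
        c * Γ.tp (t i) o u| ≤ δ u)
    (VAR : ℝ)
    (hVAR : (∑ u ∈ B, ∑ v ∈ B, α u * α v * (Gp u v * (Gp o u * M v + Gp o v * M u))) -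
      2 * (∑ u ∈ B, α u * (Gm u * M u)) + M o ≤ VAR) :
    ∑ i ∈ I, p i *
      |Γ.fkE (t i) (fun ω => ind (Disjoint ω F) * ind (Γ.Conn (ω : Set E) o (a i))) -
        c * Γ.tp (t i) o (a i)| ≤
      (1 + |c|) * Real.sqrt (M o * VAR) +
      2 * (∑ u ∈ B, α u * (Gp o u * ∑ z ∈ Γ.vF F, Gp u z * M z)) +
      ∑ u ∈ B, α u * (δ u * M u) := by
  classical
  set S : ι → ℝ := fun i => Γ.sg (t i) (src o (a i)) 0 (fun ω => |Γ.NN B α o ω - 1|) with hS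
  set W2 : ι → ℝ := fun i => Γ.sg (t i) (src o (a i)) 0 (fun ω => (Γ.NN B α o ω - 1) ^ 2) with hW2
  have hGp0 : ∀ i ∈ I, ∀ u ∈ W, ∀ v ∈ W, 0 ≤ Gp u v := fun i hi u hu v hv =>
    (tp_nonneg Γ (ht i) u v).trans (hGp i hi u hu v hv)
  -- first part
  have hW2le : ∀ i ∈ I, W2 i ≤ KEY3_L B α Gp Gm o (fun u => Γ.tp (t i) u (a i)) := by
    intro i hi
    refine (sg_NN_sq Γ (ht i) o (a i) B α hα).trans ?_
    unfold KEY3_L
    have c1 : (∑ u ∈ B, ∑ v ∈ B, α u * α v * (Γ.tp (t i) u v *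
        (Γ.tp (t i) o u * Γ.tp (t i) v (a i) + Γ.tp (t i) o v * Γ.tp (t i) u (a i)))) ≤
        ∑ u ∈ B, ∑ v ∈ B, α u * α v * (Gp u v * (Gp o u * Γ.tp (t i) v (a i) +
          Gp o v * Γ.tp (t i) u (a i))) := by
      refine Finset.sum_le_sum (fun u hu => Finset.sum_le_sum (fun v hv => ?_))
      refine mul_le_mul_of_nonneg_left ?_ (mul_nonneg (hα u) (hα v))
      have g1 := hGp i hi u (hBW hu) v (hBW hv)
      have g2 := hGp i hi o hoW u (hBW hu)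
      have g3 := hGp i hi o hoW v (hBW hv)
      have n1 := tp_nonneg Γ (ht i) v (a i)
      have n2 := tp_nonneg Γ (ht i) u (a i)
      have n3 := tp_nonneg Γ (ht i) o u
      have n4 := tp_nonneg Γ (ht i) o v
      have n5 := tp_nonneg Γ (ht i) u v
      refine mul_le_mul g1 (add_le_add (mul_le_mul_of_nonneg_right g2 n1)
        (mul_le_mul_of_nonneg_right g3 n2)) ?_ (n5.trans g1)
      exact add_nonneg (mul_nonneg n3 n1) (mul_nonneg n4 n2)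
    have c2 : ∑ u ∈ B, α u * (Gm u * Γ.tp (t i) u (a i)) ≤
        ∑ u ∈ B, α u * (Γ.tp (t i) o u * Γ.tp (t i) u (a i)) := by
      refine Finset.sum_le_sum (fun u hu => mul_le_mul_of_nonneg_left ?_ (hα u))
      exact mul_le_mul_of_nonneg_right (hGm i hi u hu) (tp_nonneg Γ (ht i) u (a i))
    linarith
  have hW2nn : ∀ i ∈ I, 0 ≤ W2 i := fun i _ => sg_nonneg Γ (ht i) _ _ (fun ω => sq_nonneg _)
  have hsumW : ∑ i ∈ I, p i * W2 i ≤ VAR := by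
    have d1 : ∑ i ∈ I, p i * W2 i ≤
        ∑ i ∈ I, p i * KEY3_L B α Gp Gm o (fun u => Γ.tp (t i) u (a i)) :=
      Finset.sum_le_sum (fun i hi => mul_le_mul_of_nonneg_left (hW2le i hi) (hp i))
    rw [KEY3_L_sum B α Gp Gm o I p (fun i u => Γ.tp (t i) u (a i)) M hM] at d1
    exact d1.trans hVAR
  have hMo : 0 ≤ M o := by
    rw [hM o]
    exact Finset.sum_nonneg (fun i _ => mul_nonneg (hp i) (tp_nonneg Γ (ht i) _ _))
  have hA : ∑ i ∈ I, p i * S i ≤ Real.sqrt (M o * VAR) := by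
    have d2 := KEY3_cs I p S (fun i => Γ.tp (t i) o (a i)) W2 hp
      (fun i _ => tp_nonneg Γ (ht i) _ _) hW2nn
      (fun i _ => sg_cs Γ (ht i) o (a i) (fun ω => Γ.NN B α o ω - 1))
    refine d2.trans (Real.sqrt_le_sqrt ?_)
    rw [← hM o]
    exact mul_le_mul_of_nonneg_left hsumW hMo
  -- second part
  have hB : ∑ i ∈ I, p i * (∑ u ∈ B, α u *
      (Γ.tp (t i) o u * ∑ z ∈ Γ.vF F, Γ.tp (t i) u z * Γ.tp (t i) z (a i))) ≤
      ∑ u ∈ B, α u * (Gp o u * ∑ z ∈ Γ.vF F, Gp u z * M z) := by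
    have d1 : ∀ i ∈ I, p i * (∑ u ∈ B, α u *
        (Γ.tp (t i) o u * ∑ z ∈ Γ.vF F, Γ.tp (t i) u z * Γ.tp (t i) z (a i))) ≤
        p i * (∑ z ∈ Γ.vF F, (∑ u ∈ B, α u * Gp o u * Gp u z) * Γ.tp (t i) z (a i)) := by
      intro i hi
      refine mul_le_mul_of_nonneg_left ?_ (hp i)
      simp_rw [Finset.sum_mul]
      rw [Finset.sum_comm]
      refine Finset.sum_le_sum (fun u hu => ?_)
      rw [Finset.mul_sum, Finset.mul_sum]
      refine Finset.sum_le_sum (fun z hz => ?_)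
      have g1 := hGp i hi o hoW u (hBW hu)
      have g2 := hGp i hi u (hBW hu) z (hFW hz)
      have n1 := tp_nonneg Γ (ht i) z (a i)
      have n2 := tp_nonneg Γ (ht i) o u
      have n3 := tp_nonneg Γ (ht i) u z
      have e1 : Γ.tp (t i) o u * (Γ.tp (t i) u z * Γ.tp (t i) z (a i)) ≤
          Gp o u * (Gp u z * Γ.tp (t i) z (a i)) :=
        mul_le_mul g1 (mul_le_mul_of_nonneg_right g2 n1) (mul_nonneg n3 n1) (n2.trans g1)
      have e2 := mul_le_mul_of_nonneg_left e1 (hα u)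
      linarith [e2]
    refine (Finset.sum_le_sum d1).trans (le_of_eq ?_)
    rw [KEY3_sum_comb]
    simp_rw [← hM, Finset.sum_mul, Finset.mul_sum]
    rw [Finset.sum_comm]
    exact Finset.sum_congr rfl (fun u _ => Finset.sum_congr rfl (fun z _ => by ring))
  -- third part
  have hC : ∑ i ∈ I, p i * (∑ u ∈ B, α u * (δ u * Γ.tp (t i) u (a i))) =
      ∑ u ∈ B, α u * (δ u * M u) := by
    have e1 : ∀ i, ∑ u ∈ B, α u * (δ u * Γ.tp (t i) u (a i)) =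
        ∑ u ∈ B, (α u * δ u) * Γ.tp (t i) u (a i) := fun i =>
      Finset.sum_congr rfl (fun u _ => by ring)
    simp_rw [e1]
    rw [KEY3_sum_comb B I p (fun i u => Γ.tp (t i) u (a i)) (fun u => α u * δ u)]
    exact Finset.sum_congr rfl (fun u _ => by rw [← hM u]; ring)
  have hmain : ∑ i ∈ I, p i *
      |Γ.fkE (t i) (fun ω => ind (Disjoint ω F) * ind (Γ.Conn (ω : Set E) o (a i))) -
        c * Γ.tp (t i) o (a i)| ≤
      ∑ i ∈ I, ((1 + |c|) * (p i * S i) +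
        2 * (p i * (∑ u ∈ B, α u *
          (Γ.tp (t i) o u * ∑ z ∈ Γ.vF F, Γ.tp (t i) u z * Γ.tp (t i) z (a i)))) +
        p i * (∑ u ∈ B, α u * (δ u * Γ.tp (t i) u (a i)))) := by
    refine Finset.sum_le_sum (fun i hi => ?_)
    have k := key_pointwise Γ (ht i) F h0 h1 (hF i hi) o (a i) B α hα c δ (hδ i hi)
    have k2 := mul_le_mul_of_nonneg_left k (hp i)
    refine k2.trans (le_of_eq ?_)
    simp only [hS]
    ring
  refine hmain.trans ?_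
  rw [Finset.sum_add_distrib, Finset.sum_add_distrib, ← Finset.mul_sum, ← Finset.mul_sum, hC]
  have hc : 0 ≤ 1 + |c| := by positivity
  have := mul_le_mul_of_nonneg_left hA hc
  linarith

end H82.IC
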