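import Pool.Agent.H82.IC.ADM
import Pool.Agent.H82.IC.KEY3

/-!
# MAINA: the key inequality for the conditioned graph, in terms of deterministic bounds

Apply `key_random` with `I = admS W B E1`, `p η = prE t E1 η` (`prE_nonneg`), `t η = setT E1 η t`, `a η = rep W B η o`, `M = MM`,
`α u = be u * MM o / MM u` for `u ∈ Bs` (and `0` elsewhere; if `MM o = 0` everything: see below), `be u ≥ 0`.
Hypothesis `hρ : MM o ≤ ρ * MM u` for `u ∈ Bs`.  If `MM o = 0`: then all `prE η * tp o (rep)` are `0` and by `0 ≤ fkE(..) ≤ tp` the left side is `0`.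
If `MM o > 0` then `MM u > 0` for `u ∈ Bs` (`ρ MM u ≥ MM o > 0`, `MM ≥ 0`), `α u * MM u = be u * MM o`, `0 ≤ α u ≤ ρ * be u`.
* `∑_{u,v} α u α v Gp u v (Gp o u MM v + Gp o v MM u) = ∑ α u (be v MM o) Gp u v Gp o u + ∑ (be u MM o) α v Gp u v Gp o v ≤ 2 ρ MM o ∑_{u,v} be u be v Gp u v Gp o u`
   (symmetry `Gp u v = Gp v u`, `Gp ≥ 0`).
* so `VAR := MM o * VV`, `VV = 2 ρ ∑∑ be u be v Gp u v Gp o u - 2 ∑ be u Gm u + 1` is admissible, `√(MM o * VAR) = MM o * √VV` (`VV ≥ 0` is needed only if `MM o > 0`: it follows since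
   `0 ≤ ∑ p sg (N-1)^2 ≤ VAR`; or simply use `Real.sqrt (MM o * (MM o * VV)) ≤ MM o * Real.sqrt VV` which holds for all real `VV` when `MM o ≥ 0`).
* `∑ α u Gp o u ∑_z Gp u z MM z ≤ ρ K MM o ∑ be u Gp o u ∑_z Gp u z`, `∑ α u δ u MM u = MM o ∑ be u δ u`.
-/

set_option autoImplicit false

open Finset

namespace H82.IC

variable {V E : Type*} [Fintype E] [DecidableEq E]

theorem MAINA_adm_sub (Γ : Gr V E) (W : Finset V) (B : Set V) (E1 : Finset E) {η : Finset E}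
    (h : η ∈ Γ.admS W B E1) : η ∈ E1.powerset := by
  classical
  unfold Gr.admS at h
  exact (Finset.mem_filter.1 h).1

theorem MAINA_MM_nonneg (Γ : Gr V E) {t : E → ℝ} (ht : T01 t) (W : Finset V) (B : Set V)
    (E1 : Finset E) (o u : V) : 0 ≤ Γ.MM t W B E1 o u :=
  Finset.sum_nonneg fun η _ => mul_nonneg (prE_nonneg Γ ht E1 η)
    (tp_nonneg Γ (T01_setT ht E1 η) _ _)

/-- the trivial bound -/
theorem MAINA_triv (Γ : Gr V E) {t : E → ℝ} (ht : T01 t) (W : Finset V) (B : Set V)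
    (E1 F : Finset E) (o : V) (c : ℝ) :
    Γ.DD t W B E1 F c o ≤ (1 + |c|) * Γ.MM t W B E1 o o := by
  unfold Gr.DD Gr.MM
  rw [Finset.mul_sum]
  refine Finset.sum_le_sum fun η _ => ?_
  have hs := T01_setT ht E1 η
  set r := Γ.rep W B (η : Set E) o with hr
  have h1 : 0 ≤ Γ.fkE (setT E1 η t) (fun ω => ind (Disjoint ω F) *
      ind (Γ.Conn (ω : Set E) o r)) :=
    fkE_nonneg Γ hs fun ω => mul_nonneg (ind_nonneg _) (ind_nonneg _)
  have h2 : Γ.fkE (setT E1 η t) (fun ω => ind (Disjoint ω F) *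
      ind (Γ.Conn (ω : Set E) o r)) ≤ Γ.tp (setT E1 η t) o r := by
    rw [← fkE_conn]
    exact fkE_le Γ hs fun ω => mul_le_of_le_one_left (ind_nonneg _) (ind_le_one _)
  have h3 := tp_nonneg Γ hs o r
  have h4 : |Γ.fkE (setT E1 η t) (fun ω => ind (Disjoint ω F) *
      ind (Γ.Conn (ω : Set E) o r)) - c * Γ.tp (setT E1 η t) o r| ≤
      (1 + |c|) * Γ.tp (setT E1 η t) o r := by
    refine le_trans (abs_sub _ _) ?_
    rw [abs_of_nonneg h1, abs_mul, abs_of_nonneg h3]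
    linarith
  have h5 := mul_le_mul_of_nonneg_left h4 (prE_nonneg Γ ht E1 η)
  refine h5.trans (le_of_eq ?_)
  ring

/-- the double sum -/
theorem MAINA_double (Bs : Finset V) (be α M : V → ℝ) (Gp : V → V → ℝ) (o : V) (ρ Mo : ℝ)
    (hbe : ∀ u, 0 ≤ be u) (hα0 : ∀ u, 0 ≤ α u) (hMo : 0 ≤ Mo)
    (hαM : ∀ u ∈ Bs, α u * M u = be u * Mo) (hαρ : ∀ u ∈ Bs, α u ≤ ρ * be u)
    (hGs : ∀ u v, Gp u v = Gp v u) (hG0 : ∀ u v, 0 ≤ Gp u v) :
    ∑ u ∈ Bs, ∑ v ∈ Bs, α u * α v * (Gp u v * (Gp o u * M v + Gp o v * M u)) ≤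
      Mo * (2 * ρ * (∑ u ∈ Bs, ∑ v ∈ Bs, be u * be v * (Gp u v * Gp o u))) := by
  have h1 : ∑ u ∈ Bs, ∑ v ∈ Bs, α u * α v * (Gp u v * (Gp o u * M v + Gp o v * M u)) ≤
      ∑ u ∈ Bs, ∑ v ∈ Bs, (Mo * ρ * (be u * be v * (Gp u v * Gp o u)) +
        Mo * ρ * (be u * be v * (Gp u v * Gp o v))) := by
    refine Finset.sum_le_sum fun u hu => Finset.sum_le_sum fun v hv => ?_
    have e : α u * α v * (Gp u v * (Gp o u * M v + Gp o v * M u)) =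
        α u * (α v * M v) * (Gp u v * Gp o u) + (α u * M u) * α v * (Gp u v * Gp o v) := by ring
    rw [e, hαM u hu, hαM v hv]
    have g1 : 0 ≤ Gp u v * Gp o u := mul_nonneg (hG0 _ _) (hG0 _ _)
    have g2 : 0 ≤ Gp u v * Gp o v := mul_nonneg (hG0 _ _) (hG0 _ _)
    have a1 : α u * (be v * Mo) ≤ ρ * be u * (be v * Mo) :=
      mul_le_mul_of_nonneg_right (hαρ u hu) (mul_nonneg (hbe v) hMo)
    have a2 : (be u * Mo) * α v ≤ (be u * Mo) * (ρ * be v) :=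
      mul_le_mul_of_nonneg_left (hαρ v hv) (mul_nonneg (hbe u) hMo)
    have b1 := mul_le_mul_of_nonneg_right a1 g1
    have b2 := mul_le_mul_of_nonneg_right a2 g2
    nlinarith [b1, b2]
  refine h1.trans (le_of_eq ?_)
  simp_rw [Finset.sum_add_distrib]
  have h2 : ∑ u ∈ Bs, ∑ v ∈ Bs, Mo * ρ * (be u * be v * (Gp u v * Gp o v)) =
      ∑ u ∈ Bs, ∑ v ∈ Bs, Mo * ρ * (be u * be v * (Gp u v * Gp o u)) := by
    rw [Finset.sum_comm]
    refine Finset.sum_congr rfl fun u _ => Finset.sum_congr rfl fun v _ => ?_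
    rw [hGs v u]
    ring
  rw [h2]
  simp_rw [← Finset.mul_sum]
  ring

theorem main_abstract (Γ : Gr V E) {t : E → ℝ} (ht : T01 t) (W : Finset V) (B : Set V)
    {E1 : Finset E} (hE1 : ∀ e, e ∉ E1 → Γ.s e ∈ W ∧ Γ.r e ∈ W)
    (F : Finset E) {τ : ℝ} (h0 : 0 ≤ τ) (h1 : τ < 1) (hF : ∀ e ∈ F, e ∉ E1 ∧ t e = τ)
    (o : V) (ho : o ∈ W) (Bs : Finset V) (hBs : Bs ⊆ W) (hFW : Γ.vF F ⊆ W)
    (be : V → ℝ) (hbe : ∀ u, 0 ≤ be u) (c : ℝ) (δ : V → ℝ)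
    (Gp : V → V → ℝ) (Gm : V → ℝ) (hGs : ∀ u v, Gp u v = Gp v u) (hG0 : ∀ u v, 0 ≤ Gp u v)
    (hGp : ∀ η ∈ E1.powerset, ∀ u ∈ W, ∀ v ∈ W, Γ.tp (setT E1 η t) u v ≤ Gp u v)
    (hGm : ∀ η ∈ E1.powerset, ∀ u ∈ Bs, Gm u ≤ Γ.tp (setT E1 η t) o u)
    (hδ : ∀ η ∈ E1.powerset, ∀ u ∈ Bs,
      |Γ.fkE (setT E1 η t) (fun ω => ind (Disjoint ω F) * ind (Γ.Conn (ω : Set E) o u)) -
        c * Γ.tp (setT E1 η t) o u| ≤ δ u)
    (ρ K : ℝ) (hρ0 : 0 ≤ ρ) (hK0 : 0 ≤ K)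
    (hρ : ∀ u ∈ Bs, Γ.MM t W B E1 o o ≤ ρ * Γ.MM t W B E1 o u)
    (hK : ∀ z ∈ Γ.vF F, Γ.MM t W B E1 o z ≤ K * Γ.MM t W B E1 o o) :
    Γ.DD t W B E1 F c o ≤ Γ.MM t W B E1 o o *
      ((1 + |c|) * Real.sqrt (2 * ρ * (∑ u ∈ Bs, ∑ v ∈ Bs, be u * be v * (Gp u v * Gp o u)) -
          2 * (∑ u ∈ Bs, be u * Gm u) + 1) +
        2 * ρ * K * (∑ u ∈ Bs, be u * (Gp o u * ∑ z ∈ Γ.vF F, Gp u z)) +
        ∑ u ∈ Bs, be u * δ u) := by
  classical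
  set Mo := Γ.MM t W B E1 o o with hMo
  have hMo0 : 0 ≤ Mo := MAINA_MM_nonneg Γ ht W B E1 o o
  rcases hMo0.eq_or_lt with hz | hpos
  · have h := MAINA_triv Γ ht W B E1 F o c
    rw [← hMo, ← hz, mul_zero] at h
    rw [← hz, zero_mul]
    exact h
  have hM0 : ∀ u, 0 ≤ Γ.MM t W B E1 o u := fun u => MAINA_MM_nonneg Γ ht W B E1 o u
  have hMpos : ∀ u ∈ Bs, 0 < Γ.MM t W B E1 o u := by
    intro u hu
    rcases (hM0 u).eq_or_lt with h | h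
    · have := hρ u hu
      rw [← h, mul_zero] at this
      exact absurd this (not_le.2 hpos)
    · exact h
  set α : V → ℝ := fun u => if u ∈ Bs then be u * Mo / Γ.MM t W B E1 o u else 0 with hαdef
  have hα0 : ∀ u, 0 ≤ α u := by
    intro u
    simp only [hαdef]
    split_ifs
    · exact div_nonneg (mul_nonneg (hbe u) hMo0) (hM0 u)
    · exact le_refl _
  have hαM : ∀ u ∈ Bs, α u * Γ.MM t W B E1 o u = be u * Mo := by
    intro u hu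
    simp only [hαdef, if_pos hu]
    exact div_mul_cancel₀ _ (hMpos u hu).ne'
  have hαρ : ∀ u ∈ Bs, α u ≤ ρ * be u := by
    intro u hu
    simp only [hαdef, if_pos hu]
    rw [div_le_iff₀ (hMpos u hu)]
    have := mul_le_mul_of_nonneg_left (hρ u hu) (hbe u)
    nlinarith [this]
  set VV : ℝ := 2 * ρ * (∑ u ∈ Bs, ∑ v ∈ Bs, be u * be v * (Gp u v * Gp o u)) -
          2 * (∑ u ∈ Bs, be u * Gm u) + 1 with hVV
  have hlin : ∑ u ∈ Bs, α u * (Gm u * Γ.MM t W B E1 o u) = Mo * ∑ u ∈ Bs, be u * Gm u := by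
    rw [Finset.mul_sum]
    refine Finset.sum_congr rfl fun u hu => ?_
    have h := hαM u hu
    linear_combination (Gm u) * h
  have hVAR : (∑ u ∈ Bs, ∑ v ∈ Bs, α u * α v * (Gp u v *
      (Gp o u * Γ.MM t W B E1 o v + Gp o v * Γ.MM t W B E1 o u))) -
      2 * (∑ u ∈ Bs, α u * (Gm u * Γ.MM t W B E1 o u)) + Γ.MM t W B E1 o o ≤ Mo * VV := by
    have h := MAINA_double Bs be α (fun u => Γ.MM t W B E1 o u) Gp o ρ Mo hbe hα0 hMo0 hαM hαρ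
      hGs hG0
    rw [hlin, ← hMo, hVV]
    nlinarith [h]
  have hsub : ∀ η ∈ Γ.admS W B E1, η ∈ E1.powerset := fun η hη => MAINA_adm_sub Γ W B E1 hη
  have key := key_random Γ (Γ.admS W B E1) (fun η => Γ.prE t E1 η)
    (fun η => prE_nonneg Γ ht E1 η) (fun η => setT E1 η t) (fun η => T01_setT ht E1 η)
    (fun η => Γ.rep W B (η : Set E) o) F h0 h1 (by
      intro η hη e he
      have hη' := Finset.mem_powerset.1 (hsub η hη)
      have h3 := hF e he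
      unfold setT
      rw [if_neg (fun h4 => h3.1 (hη' h4)), if_neg h3.1]
      exact h3.2)
    o Bs W hBs ho hFW α hα0 c δ Gp Gm (fun u => Γ.MM t W B E1 o u)
    (fun η hη u hu v hv => hGp η (hsub η hη) u hu v hv)
    (fun η hη u hu => hGm η (hsub η hη) u hu) (fun u => rfl)
    (fun η hη u hu => hδ η (hsub η hη) u hu) (Mo * VV) hVAR
  have hDD : Γ.DD t W B E1 F c o = ∑ η ∈ Γ.admS W B E1, Γ.prE t E1 η *
      |Γ.fkE (setT E1 η t) (fun ω => ind (Disjoint ω F) *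
        ind (Γ.Conn (ω : Set E) o (Γ.rep W B (η : Set E) o))) -
        c * Γ.tp (setT E1 η t) o (Γ.rep W B (η : Set E) o)| := rfl
  rw [hDD]
  refine key.trans ?_
  have hsq : Real.sqrt (Γ.MM t W B E1 o o * (Mo * VV)) = Mo * Real.sqrt VV := by
    rw [← hMo, ← mul_assoc, Real.sqrt_mul (mul_nonneg hMo0 hMo0), Real.sqrt_mul_self hMo0]
  have h2 : ∑ u ∈ Bs, α u * (Gp o u * ∑ z ∈ Γ.vF F, Gp u z * Γ.MM t W B E1 o z) ≤
      Mo * (ρ * K * (∑ u ∈ Bs, be u * (Gp o u * ∑ z ∈ Γ.vF F, Gp u z))) := by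
    rw [Finset.mul_sum, Finset.mul_sum]
    refine Finset.sum_le_sum fun u hu => ?_
    have a1 : ∑ z ∈ Γ.vF F, Gp u z * Γ.MM t W B E1 o z ≤ (∑ z ∈ Γ.vF F, Gp u z) * (K * Mo) := by
      rw [Finset.sum_mul]
      exact Finset.sum_le_sum fun z hz => mul_le_mul_of_nonneg_left (hK z hz) (hG0 _ _)
    have a2 := mul_le_mul_of_nonneg_left a1 (hG0 o u)
    have a3 : 0 ≤ Gp o u * ((∑ z ∈ Γ.vF F, Gp u z) * (K * Mo)) :=
      mul_nonneg (hG0 _ _) (mul_nonneg (Finset.sum_nonneg fun z _ => hG0 _ _)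
        (mul_nonneg hK0 hMo0))
    calc α u * (Gp o u * ∑ z ∈ Γ.vF F, Gp u z * Γ.MM t W B E1 o z)
        ≤ α u * (Gp o u * ((∑ z ∈ Γ.vF F, Gp u z) * (K * Mo))) :=
          mul_le_mul_of_nonneg_left a2 (hα0 u)
      _ ≤ (ρ * be u) * (Gp o u * ((∑ z ∈ Γ.vF F, Gp u z) * (K * Mo))) :=
          mul_le_mul_of_nonneg_right (hαρ u hu) a3
      _ = Mo * (ρ * K * (be u * (Gp o u * ∑ z ∈ Γ.vF F, Gp u z))) := by ring
  have h3 : ∑ u ∈ Bs, α u * (δ u * Γ.MM t W B E1 o u) = Mo * ∑ u ∈ Bs, be u * δ u := by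
    rw [Finset.mul_sum]
    refine Finset.sum_congr rfl fun u hu => ?_
    have h := hαM u hu
    linear_combination (δ u) * h
  rw [hsq, h3]
  nlinarith [h2]

end H82.IC
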