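import Pool.Agent.H82.IC.UNI
import Pool.Agent.H82.IC.MAINA

/-!
# MAINF: the abstract main inequality in the box `Λ_N`

`main_abstract` with `Γ = GN d N`, constant parameter `τ = tanh β < 1`, `W = bx d m`, `B = bdry d n`, `E1 = E1 d m N` (an edge not in `E1` is in `bE m`: both ends in `bx m`), `F ↦ sb (bE N) F`
(`F ⊆ bE m`), `o = 0`, `Bs ⊆ bx m`, `Gp u v = phiB β m true (cn u v)` (symmetric as `cn u v = cn v u`), `Gm u = phiB β m false (cn 0 u)` (`tp_sandwich`), `δ u` from the hypothesis.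
`vF (sb (bE N) F)` is the set `enF F` of the ends of the edges of `F` (as `F ⊆ bE N`).
`MMd`, `rrd`, `DDd` are abbreviations for the lattice.

* `rrd_le`: `mlt_rare` for the lattice: the product over `E1ᶜ` (the edges in `bE m`; at most `|bE m|` of them, each factor `(1-t)/4 < 1`) is `≥ ((1-t)/4)^{|bE m|}`; and
  `fkE (t) 1[rch ω B z] = phiB β N false (arm n z)` (`phiB_self`, `GN_arm`).
* `MMd_bounds`: `MM_bounds` with `phiB_self` and `GN_arm`.
* `DDd_final`: `DD_final`, with `fkE (1[Disjoint ω F] 1[rch]) = phiB β N false (dw F ∩ arm n 0)` (`GN_dw`, `GN_arm`).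
* `DDd_transfer`: `DD_transfer`: for `n' ≤ n`, `m ≤ n'`: a point of `bx m` connected to `∂Λ_n` is connected to `∂Λ_{n'}` (`exit_box`).
-/

set_option autoImplicit false

open Finset MeasureTheory Filter Topology

namespace H82.IC

variable {d : ℕ}

/-- the ends of the edges of `F`. -/
noncomputable def enF (F : Finset (Ed d)) : Finset (Vx d) :=
  open Classical in F.image (Zl d).s ∪ F.image (Zl d).r

/-- `M(u)` in the box `Λ_N`. -/
noncomputable def MMd (d : ℕ) (β : ℝ) (m n N : ℕ) (u : Vx d) : ℝ :=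
  (GN d N).MM (fun _ => Real.tanh β) (bx d m) (bdry d n : Set (Vx d)) (E1 d m N) 0 u

noncomputable def rrd (d : ℕ) (β : ℝ) (m n N : ℕ) : ℝ :=
  (GN d N).rr (fun _ => Real.tanh β) (bx d m) (bdry d n : Set (Vx d)) (E1 d m N)

noncomputable def DDd (d : ℕ) (β : ℝ) (m n N : ℕ) (F : Finset (Ed d)) (c : ℝ) : ℝ :=
  (GN d N).DD (fun _ => Real.tanh β) (bx d m) (bdry d n : Set (Vx d)) (E1 d m N)
    (sb (bE d N) F) c 0

theorem MAINF_E1 {m N : ℕ} {e : ↥(bE d N)} : e ∉ E1 d m N ↔ e.1 ∈ bE d m := by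
  unfold E1
  simp

theorem MAINF_hE1 (m N : ℕ) (e : ↥(bE d N)) (he : e ∉ E1 d m N) :
    (GN d N).s e ∈ bx d m ∧ (GN d N).r e ∈ bx d m := by
  have h := mem_bE.1 (MAINF_E1.1 he)
  exact ⟨mem_bx.2 h.1, mem_bx.2 h.2⟩

theorem MAINF_arm {β : ℝ} (hβ : 0 ≤ β) (n N : ℕ) (z : Vx d) :
    (GN d N).fkE (fun _ => Real.tanh β)
      (fun ω => ind ((GN d N).rch (ω : Set ↥(bE d N)) (bdry d n : Set (Vx d)) z)) =
      phiB β N false (arm n z) := by
  rw [phiB_self hβ]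
  congr 1
  funext ω
  congr 1
  apply propext
  rw [← GN_arm]
  unfold Gr.rch
  simp only [Finset.mem_coe]

theorem MAINF_tp {β : ℝ} (hβ : 0 ≤ β) (N : ℕ) (E η : Finset ↥(bE d N)) (u v : Vx d) :
    0 ≤ (GN d N).tp (setT E η (fun _ => Real.tanh β)) u v := by
  rw [← fkE_conn]
  exact fkE_nonneg _ (T01_setT (T01_tanh β hβ) E η) fun ω => ind_nonneg _

theorem MAINF_mem_sb {N : ℕ} {F : Finset (Ed d)} {e : ↥(bE d N)} : e ∈ sb (bE d N) F ↔ e.1 ∈ F := by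
  unfold sb
  simp

theorem vF_sb {N : ℕ} {F : Finset (Ed d)} (hF : F ⊆ bE d N) :
    (GN d N).vF (sb (bE d N) F) = enF F := by
  ext v
  unfold Gr.vF enF
  simp only [Finset.mem_union, Finset.mem_image]
  constructor
  · rintro (⟨e, he, rfl⟩ | ⟨e, he, rfl⟩)
    · exact Or.inl ⟨e.1, MAINF_mem_sb.1 he, rfl⟩
    · exact Or.inr ⟨e.1, MAINF_mem_sb.1 he, rfl⟩
  · rintro (⟨e, he, rfl⟩ | ⟨e, he, rfl⟩)
    · exact Or.inl ⟨⟨e, hF he⟩, MAINF_mem_sb.2 he, rfl⟩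
    · exact Or.inr ⟨⟨e, hF he⟩, MAINF_mem_sb.2 he, rfl⟩

theorem MMd_bounds {β : ℝ} (hβ : 0 ≤ β) {m n N : ℕ} (h : m ≤ N) {u : Vx d} (hu : nm u ≤ m) :
    0 ≤ MMd d β m n N u ∧ MMd d β m n N u ≤ phiB β N false (arm n u) ∧
      phiB β N false (arm n u) ≤ MMd d β m n N u + rrd d β m n N := by
  have hT : T01 (fun _ : ↥(bE d N) => Real.tanh β) := T01_tanh β hβ
  have h1 := MM_bounds (GN d N) hT (bx d m) (bdry d n : Set (Vx d)) (MAINF_hE1 m N) 0 u
    (mem_bx.2 hu)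
  rw [MAINF_arm hβ] at h1
  refine ⟨?_, h1.1, h1.2⟩
  unfold MMd Gr.MM
  exact Finset.sum_nonneg fun η _ => mul_nonneg (prE_nonneg _ hT _ _) (MAINF_tp hβ N _ _ _ _)

theorem rrd_le {β : ℝ} (hβ : 0 ≤ β) {m n N : ℕ} (h : m ≤ N) :
    0 ≤ rrd d β m n N ∧
    ((1 - Real.tanh β) / 4) ^ (bE d m).card * rrd d β m n N ≤
      ∑ z ∈ bx d m, ∑ z' ∈ bx d m, phiB β N false (arm n z) * phiB β N false (arm n z') := by
  have hT : T01 (fun _ : ↥(bE d N) => Real.tanh β) := T01_tanh β hβ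
  have h0 : 0 ≤ rrd d β m n N := fkE_nonneg _ hT fun ω => ind_nonneg _
  refine ⟨h0, ?_⟩
  have h1 := mlt_rare (GN d N) hT (bx d m) (bdry d n : Set (Vx d)) (E1 d m N)
  simp only [MAINF_arm hβ, Finset.prod_const] at h1
  refine le_trans (mul_le_mul_of_nonneg_right ?_ h0) h1
  obtain ⟨t0, t1⟩ := tanh_mem β hβ
  apply pow_le_pow_of_le_one
  · apply div_nonneg <;> linarith
  · linarith
  · refine Finset.card_le_card_of_injOn (fun e => e.1) (fun e he => ?_)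
      (fun a _ b _ hab => Subtype.ext hab)
    have he' : e ∈ (E1 d m N)ᶜ := he
    rw [Finset.mem_compl] at he'
    exact MAINF_E1.1 he'

theorem DDd_final {β : ℝ} (hβ : 0 ≤ β) {m n N : ℕ} (h : m ≤ N) {F : Finset (Ed d)}
    (hF : F ⊆ bE d m) (c : ℝ) :
    |phiB β N false (dw F ∩ arm n (0 : Vx d)) - c * phiB β N false (arm n (0 : Vx d))| ≤
      DDd d β m n N F c + (1 + |c|) * rrd d β m n N := by
  have hT : T01 (fun _ : ↥(bE d N) => Real.tanh β) := T01_tanh β hβ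
  have h1 := DD_final (GN d N) hT (bx d m) (bdry d n : Set (Vx d)) (MAINF_hE1 m N)
    (sb (bE d N) F) c 0 (mem_bx.2 (by rw [nm_zero]; exact Nat.zero_le _))
  rw [MAINF_arm hβ] at h1
  have h2 : (GN d N).fkE (fun _ => Real.tanh β) (fun ω => ind (Disjoint ω (sb (bE d N) F)) *
      ind ((GN d N).rch (ω : Set ↥(bE d N)) (bdry d n : Set (Vx d)) 0)) =
      phiB β N false (dw F ∩ arm n (0 : Vx d)) := by
    rw [phiB_self hβ]
    congr 1
    funext ω
    rw [← ind_and]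
    congr 1
    apply propext
    rw [Set.mem_inter_iff, ← GN_arm, ← GN_dw (hF.trans (bE_mono h))]
    unfold Gr.rch
    simp only [Finset.mem_coe]
  rw [h2] at h1
  exact h1

theorem DDd_transfer (hd : 1 ≤ d) {β : ℝ} (hβ : 0 ≤ β) {m n n' N : ℕ} (h : m ≤ N) (hm : m ≤ n')
    (hn : n' ≤ n) {F : Finset (Ed d)} (hF : F ⊆ bE d m) (c : ℝ) :
    DDd d β m n N F c ≤ DDd d β m n' N F c + (1 + |c|) * rrd d β m n' N := by
  have hT : T01 (fun _ : ↥(bE d N) => Real.tanh β) := T01_tanh β hβ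
  refine DD_transfer (GN d N) hT (bx d m) (bdry d n : Set (Vx d)) (bdry d n' : Set (Vx d))
    (MAINF_hE1 m N) (sb (bE d N) F) c 0 (mem_bx.2 (by rw [nm_zero]; exact Nat.zero_le _)) ?_
  rintro η _ z hz ⟨b, hb, hzb⟩
  have hb' : nm b = n := (mem_bdry hd).1 (Finset.mem_coe.1 hb)
  have h1 : (Zl d).Conn (vl η : Set (Ed d)) z b := (conn_rs (Zl d) (bE d N) η z b).1 hzb
  obtain ⟨b', hb1, hb2⟩ := exit_box hd ((mem_bx.1 hz).trans hm) (by rw [hb']; exact hn) h1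
  refine ⟨b', Finset.mem_coe.2 hb1, ?_⟩
  exact (conn_rs (Zl d) (bE d N) η z b').2 (conn_mono (Zl d) Set.inter_subset_left hb2)

theorem DDd_main (hd : 2 ≤ d) {β : ℝ} (hβ : 0 ≤ β) {m n N : ℕ} (h : m + 1 ≤ N)
    {F : Finset (Ed d)} (hF : F ⊆ bE d m) (c : ℝ)
    (Bs : Finset (Vx d)) (hBs : Bs ⊆ bx d m) (be : Vx d → ℝ) (hbe : ∀ u, 0 ≤ be u) (δ : Vx d → ℝ)
    (hδ : ∀ η : Finset ↥(bE d N), η ⊆ E1 d m N → ∀ u ∈ Bs,
      |(GN d N).fkE (setT (E1 d m N) η (fun _ => Real.tanh β))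
        (fun ω => ind (Disjoint ω (sb (bE d N) F)) * ind ((GN d N).Conn (ω : Set ↥(bE d N)) 0 u)) -
        c * (GN d N).tp (setT (E1 d m N) η (fun _ => Real.tanh β)) 0 u| ≤ δ u)
    (ρ K : ℝ) (hρ0 : 0 ≤ ρ) (hK0 : 0 ≤ K)
    (hρ : ∀ u ∈ Bs, MMd d β m n N 0 ≤ ρ * MMd d β m n N u)
    (hK : ∀ z ∈ enF F, MMd d β m n N z ≤ K * MMd d β m n N 0) :
    DDd d β m n N F c ≤ MMd d β m n N 0 *
      ((1 + |c|) * Real.sqrt (2 * ρ * (∑ u ∈ Bs, ∑ v ∈ Bs, be u * be v *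
            (phiB β m true (cn u v) * phiB β m true (cn (0 : Vx d) u))) -
          2 * (∑ u ∈ Bs, be u * phiB β m false (cn (0 : Vx d) u)) + 1) +
        2 * ρ * K * (∑ u ∈ Bs, be u * (phiB β m true (cn (0 : Vx d) u) *
          ∑ z ∈ enF F, phiB β m true (cn u z))) +
        ∑ u ∈ Bs, be u * δ u) := by
  have hT : T01 (fun _ : ↥(bE d N) => Real.tanh β) := T01_tanh β hβ
  obtain ⟨t0, t1⟩ := tanh_mem β hβ
  have hmN : m ≤ N := (Nat.le_succ m).trans h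
  have hFN : F ⊆ bE d N := hF.trans (bE_mono hmN)
  have hv := vF_sb hFN
  have hmain := main_abstract (GN d N) hT (bx d m) (bdry d n : Set (Vx d)) (MAINF_hE1 m N)
    (sb (bE d N) F) t0 t1 (fun e he => ⟨MAINF_E1.2 (hF (MAINF_mem_sb.1 he)), rfl⟩)
    0 (mem_bx.2 (by rw [nm_zero]; exact Nat.zero_le _)) Bs hBs
    (by
      rw [hv]
      intro z hz
      unfold enF at hz
      simp only [Finset.mem_union, Finset.mem_image] at hz
      rcases hz with ⟨e, he, rfl⟩ | ⟨e, he, rfl⟩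
      · exact mem_bx.2 (mem_bE.1 (hF he)).1
      · exact mem_bx.2 (mem_bE.1 (hF he)).2)
    be hbe c δ (fun u v => phiB β m true (cn u v)) (fun u => phiB β m false (cn (0 : Vx d) u))
    (fun u v => by
      have : (cn u v : Set (Cf d)) = cn v u := by
        ext ω
        exact conn_comm (Zl d) (opn ω) u v
      rw [this])
    (fun u v => phiB_nonneg hβ m true _)
    (fun η hη u _ v _ => (tp_sandwich hd hβ h η (Finset.mem_powerset.1 hη) u v).2)
    (fun η hη u _ => (tp_sandwich hd hβ h η (Finset.mem_powerset.1 hη) 0 u).1)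
    (fun η hη u hu => hδ η (Finset.mem_powerset.1 hη) u hu)
    ρ K hρ0 hK0 hρ (fun z hz => hK z (by rw [← hv]; exact hz))
  rw [hv] at hmain
  exact hmain

end H82.IC
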