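import Pool.Agent.H82.IC.KY0
import Pool.Agent.H82.IC.MAINF

/-!
# IK: the key inequality in infinite volume

Apply `key_pointwise0` in `GN d n`, parameters `tanh β` (`< 1`), `o = 0`, `a = x`, `F ↦ sb (bE n) F` (`F ⊆ bE n`), finite set `B`, and let `n → ∞`: `tp u v = phiB β n false (cn u v) → μ (cn u v)` (`phiB_self`, `fkE_conn`, `GN_cn`,
`free_tendsto` with `S = ∅`), and `fkE (1[Disjoint ω (sb F)] 1[0 ↔ u]) = phiB β n false (dw F ∩ cn 0 u) → μ (dw F ∩ cn 0 u)`: `1_{dw F} = ∑_{S ⊆ F} (-1)^{|S|} 1_{up S}` and `free_tendsto` for each `S` (as in the proof of `uni`);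
`vF (sb (bE n) F) = enF F` (`vF_sb`).  All sums are finite, the square root is continuous (`le_of_tendsto_of_tendsto'`).
-/

set_option autoImplicit false

open Finset MeasureTheory Filter Topology

namespace H82.IC

variable {d : ℕ}

theorem IK_cn (hd : 2 ≤ d) {β : ℝ} (hβ : 0 ≤ β) {μ : Measure (Cf d)}
    (hμ : IsLim β false μ) (x y : Vx d) :
    Tendsto (fun n => phiB β n false (cn x y)) atTop (𝓝 (μ.real (cn x y))) := by
  have h := free_tendsto hd hβ hμ ∅ x y
  have hu : (up (∅ : Finset (Ed d)) : Set (Cf d)) = Set.univ := by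
    ext ω
    simp [up]
  simpa only [hu, Set.inter_univ] using h

theorem free_tendsto_dw (hd : 2 ≤ d) {β : ℝ} (hβ : 0 ≤ β) {μ : Measure (Cf d)}
    (hμ : IsLim β false μ) (F : Finset (Ed d)) (x y : Vx d) :
    Tendsto (fun n => phiB β n false (dw F ∩ cn x y)) atTop (𝓝 (μ.real (dw F ∩ cn x y))) := by
  have hprob := hμ.1
  have hmeasX : ∀ S, MeasurableSet (cn x y ∩ up S : Set (Cf d)) := fun S =>
    (meas_cn x y).inter (lcl_measurable (lcl_up S))
  have e2 : μ.real (dw F ∩ cn x y) = ∑ S ∈ F.powerset, (-1 : ℝ) ^ S.card * μ.real (cn x y ∩ up S) := by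
    rw [← UNI_int ((lcl_measurable (lcl_dw F)).inter (meas_cn x y))]
    have h1 : (fun ω : Cf d => ind (ω ∈ (dw F ∩ cn x y : Set (Cf d)))) = fun ω =>
        ∑ S ∈ F.powerset, (-1 : ℝ) ^ S.card * ind (ω ∈ (cn x y ∩ up S : Set (Cf d))) :=
      funext fun ω => UNI_ie F (cn x y) ω
    rw [h1, integral_finsetSum _ (fun S _ => (UNI_integrable (hmeasX S)).const_mul _)]
    refine Finset.sum_congr rfl fun S _ => ?_
    rw [integral_const_mul, UNI_int (hmeasX S)]
  have e1 : ∀ n, phiB β n false (dw F ∩ cn x y) =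
      ∑ S ∈ F.powerset, (-1 : ℝ) ^ S.card * phiB β n false (cn x y ∩ up S) := by
    intro n
    rw [phiB_self hβ]
    have h1 : (fun ω : Finset ↥(bE d n) => ind (ext false n n ω ∈ (dw F ∩ cn x y : Set (Cf d)))) =
        fun ω => ∑ S ∈ F.powerset, (-1 : ℝ) ^ S.card *
          ind (ext false n n ω ∈ (cn x y ∩ up S : Set (Cf d))) :=
      funext fun ω => UNI_ie F (cn x y) (ext false n n ω)
    rw [h1, fkE_sum]
    refine Finset.sum_congr rfl fun S _ => ?_
    rw [fkE_smul, phiB_self hβ]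
  simp only [e1]
  rw [e2]
  exact tendsto_finsetSum _ fun S _ => (free_tendsto hd hβ hμ S x y).const_mul _

theorem IK_fin {β : ℝ} (hβ : 0 ≤ β) (n : ℕ) {F : Finset (Ed d)} (hF : F ⊆ bE d n) (x : Vx d)
    (B : Finset (Vx d)) (α : Vx d → ℝ) (hα : ∀ u, 0 ≤ α u) :
    |phiB β n false (dw F ∩ cn 0 x) -
        ∑ u ∈ B, α u * (phiB β n false (dw F ∩ cn 0 u) * phiB β n false (cn u x))| ≤
      Real.sqrt (phiB β n false (cn 0 x) * ((∑ u ∈ B, ∑ v ∈ B, α u * α v *
        (phiB β n false (cn u v) * (phiB β n false (cn 0 u) * phiB β n false (cn v x) +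
          phiB β n false (cn 0 v) * phiB β n false (cn u x)))) -
      2 * (∑ u ∈ B, α u * (phiB β n false (cn 0 u) * phiB β n false (cn u x))) +
        phiB β n false (cn 0 x))) +
      2 * (∑ u ∈ B, α u * (phiB β n false (cn 0 u) *
        ∑ z ∈ enF F, phiB β n false (cn u z) * phiB β n false (cn z x))) := by
  have hT : T01 (fun _ : ↥(bE d n) => Real.tanh β) := T01_tanh β hβ
  obtain ⟨t0, t1⟩ := tanh_mem β hβ
  have h := key_pointwise0 (GN d n) hT (sb (bE d n) F) t0 t1 (fun _ _ => rfl) 0 x B α hα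
  have htp : ∀ u v, (GN d n).tp (fun _ => Real.tanh β) u v = phiB β n false (cn u v) := by
    intro u v
    rw [← fkE_conn, phiB_self hβ]
    congr 1
    funext ω
    exact UNI_ind_congr (GN_cn n ω u v)
  have hdw : ∀ u, (GN d n).fkE (fun _ => Real.tanh β)
      (fun ω => ind (Disjoint ω (sb (bE d n) F)) *
        ind ((GN d n).Conn (ω : Set ↥(bE d n)) 0 u)) = phiB β n false (dw F ∩ cn 0 u) := by
    intro u
    rw [phiB_self hβ]
    congr 1
    funext ω
    have h1 : ind (ext false n n ω ∈ (dw F ∩ cn 0 u : Set (Cf d))) =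
      ind (ext false n n ω ∈ dw F) * ind (ext false n n ω ∈ cn 0 u) := UNI_ind_and _ _
    rw [h1, UNI_ind_congr (GN_dw hF ω), UNI_ind_congr (GN_cn n ω 0 u)]
  simp only [htp, hdw, vF_sb hF] at h
  exact h

theorem inf_key (hd : 2 ≤ d) {β : ℝ} (hβ : 0 ≤ β) {μ : Measure (Cf d)} (hμ : IsLim β false μ)
    (F : Finset (Ed d)) (x : Vx d) (B : Finset (Vx d)) (α : Vx d → ℝ) (hα : ∀ u, 0 ≤ α u) :
    |μ.real (dw F ∩ cn 0 x) - ∑ u ∈ B, α u * (μ.real (dw F ∩ cn 0 u) * μ.real (cn u x))| ≤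
      Real.sqrt (μ.real (cn 0 x) * ((∑ u ∈ B, ∑ v ∈ B, α u * α v * (μ.real (cn u v) *
        (μ.real (cn 0 u) * μ.real (cn v x) + μ.real (cn 0 v) * μ.real (cn u x)))) -
      2 * (∑ u ∈ B, α u * (μ.real (cn 0 u) * μ.real (cn u x))) + μ.real (cn 0 x))) +
      2 * (∑ u ∈ B, α u * (μ.real (cn 0 u) * ∑ z ∈ enF F, μ.real (cn u z) * μ.real (cn z x))) := by
  obtain ⟨n0, hn0⟩ := exists_bE F
  have hc : ∀ u v, Tendsto (fun n => phiB β n false (cn u v)) atTop (𝓝 (μ.real (cn u v))) :=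
    fun u v => IK_cn hd hβ hμ u v
  have hw : ∀ u, Tendsto (fun n => phiB β n false (dw F ∩ cn 0 u)) atTop
      (𝓝 (μ.real (dw F ∩ cn 0 u))) := fun u => free_tendsto_dw hd hβ hμ F 0 u
  refine le_of_tendsto_of_tendsto (b := atTop)
    (f := fun n => |phiB β n false (dw F ∩ cn 0 x) -
        ∑ u ∈ B, α u * (phiB β n false (dw F ∩ cn 0 u) * phiB β n false (cn u x))|)
    (g := fun n => Real.sqrt (phiB β n false (cn 0 x) * ((∑ u ∈ B, ∑ v ∈ B, α u * α v *
        (phiB β n false (cn u v) * (phiB β n false (cn 0 u) * phiB β n false (cn v x) +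
          phiB β n false (cn 0 v) * phiB β n false (cn u x)))) -
      2 * (∑ u ∈ B, α u * (phiB β n false (cn 0 u) * phiB β n false (cn u x))) +
        phiB β n false (cn 0 x))) +
      2 * (∑ u ∈ B, α u * (phiB β n false (cn 0 u) *
        ∑ z ∈ enF F, phiB β n false (cn u z) * phiB β n false (cn z x)))) ?_ ?_ ?_
  · exact ((hw x).sub (tendsto_finsetSum _ fun u _ => ((hw u).mul (hc u x)).const_mul _)).abs
  · refine Tendsto.add (Tendsto.sqrt ((hc 0 x).mul (Tendsto.add (Tendsto.sub ?_ ?_) (hc 0 x)))) ?_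
    · exact tendsto_finsetSum _ fun u _ => tendsto_finsetSum _ fun v _ =>
        ((hc u v).mul (((hc 0 u).mul (hc v x)).add ((hc 0 v).mul (hc u x)))).const_mul _
    · exact (tendsto_finsetSum _ fun u _ => ((hc 0 u).mul (hc u x)).const_mul _).const_mul _
    · exact (tendsto_finsetSum _ fun u _ => ((hc 0 u).mul (tendsto_finsetSum _ fun z _ =>
        (hc u z).mul (hc z x))).const_mul _).const_mul _
  · filter_upwards [eventually_ge_atTop n0] with n hn
    exact IK_fin hβ n (hn0.trans (bE_mono hn)) x B α hα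

end H82.IC
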