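import Pool.Agent.H82.IC.TZB
import Pool.Agent.H82.IC.FLW2
import Pool.Agent.H82.IC.IV1

/-!
# INF: the infrared bound for the free measures, `d ≥ 3`

`thW d β = inf_n phiB β n true (arm n 0)`.
* `thW_tendsto`: `n ↦ phiB β n true (arm n 0)` is antitone (`arm_anti`, `phiB_wired_anti`, `phiB_mono_set`), bounded below by `0`.
* `cube j = {x : 0 ≤ x i < 2^j}` in `ℤ^d`.  `infrared_free`: if `thW d β = 0`, then for all `R`: `∑_{x,y ∈ cube j ∩ bx R} phiB β R false (cn x y) ≤ (3 d)² 2^{-j}/β * (2^{jd})²`.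
  Proof: for `n = 2^M`, `2R + 2 < n`, `j ≤ M`: `pt n` maps `cube j` bijectively onto `tb (2^j)`, `IsE ((Sa 2^j)²) = 2^{-2jd} ∑_{x,y ∈ cube j} tp (pt x) (pt y)` (`isE_tp`), which is
  `≥ 2^{-2jd} ∑_{x,y ∈ cube j ∩ bx R} phiB β R false (cn x y)` (`torus_ge_free`, the other terms are `≥ 0`).  By `torus_infrared` and `zero_mode`:
  `√(left) ≤ √((2r+1)^d/n^d + phiB β r true (arm r 0)) + 3d √(2^{-j}/β)`; let `M → ∞` (`r` fixed), then `r → ∞` (`thW = 0`).
* `theta_pos`: for `β > (3d)²`: if `thW d β = 0`, apply `infrared_free` with `j = 0`, `R = 0` (cube `{0}`, `phiB β 0 false (cn 0 0) = 1`): `1 ≤ (3d)²/β < 1`, contradiction.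
-/

set_option autoImplicit false

open Finset Filter Topology

namespace H82.IC

variable {d : ℕ}

/-- the wired one arm limit `θ(β)`. -/
noncomputable def thW (d : ℕ) (β : ℝ) : ℝ := ⨅ n : ℕ, phiB β n true (arm n (0 : Vx d))

/-- the cube `[0, 2^j)^d`. -/
noncomputable def cube (d j : ℕ) : Finset (Vx d) :=
  Fintype.piFinset (fun _ => Finset.Ico (0 : ℤ) (2 ^ j))

theorem thW_anti (hd : 2 ≤ d) {β : ℝ} (hβ : 0 ≤ β) :
    Antitone (fun n : ℕ => phiB β n true (arm n (0 : Vx d))) := by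
  intro m n hmn
  refine (phiB_mono_set hβ n true (arm_anti (by omega) hmn ?_)).trans
    (phiB_wired_anti hd hβ hmn (inc_arm m 0))
  rw [nm_zero]
  exact Nat.zero_le m

theorem thW_tendsto (hd : 2 ≤ d) {β : ℝ} (hβ : 0 ≤ β) :
    Tendsto (fun n : ℕ => phiB β n true (arm n (0 : Vx d))) atTop (𝓝 (thW d β)) := by
  refine tendsto_atTop_ciInf (thW_anti hd hβ) ⟨0, ?_⟩
  rintro _ ⟨n, rfl⟩
  exact phiB_nonneg hβ n true _

theorem thW_nonneg (d : ℕ) {β : ℝ} (hβ : 0 ≤ β) : 0 ≤ thW d β := by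
  exact Real.iInf_nonneg fun n => phiB_nonneg hβ n true _

theorem INF_sq (n : ℕ) [NeZero n] (β : ℝ) (a : Fin d → ℕ) :
    (Tg d n).IsE β (fun σ => (Sa a σ) ^ 2) = ((∏ i, (a i : ℝ))⁻¹) ^ 2 *
      ∑ x ∈ (tb a : Finset (Tv d n)), ∑ y ∈ (tb a : Finset (Tv d n)),
        (Tg d n).tp (fun _ => Real.tanh β) x y := by
  have h1 : (fun σ : Tv d n → Bool => (Sa a σ) ^ 2) = fun σ => ((∏ i, (a i : ℝ))⁻¹) ^ 2 *
      ∑ x ∈ (tb a : Finset (Tv d n)), ∑ y ∈ (tb a : Finset (Tv d n)), sp (σ x) * sp (σ y) := by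
    funext σ
    unfold Sa
    rw [mul_pow, sq (∑ x ∈ (tb a : Finset (Tv d n)), sp (σ x)), Finset.sum_mul_sum]
  rw [h1, isE_smul, isE_sum]
  congr 1
  refine Finset.sum_congr rfl fun x _ => ?_
  rw [isE_sum]
  exact Finset.sum_congr rfl fun y _ => isE_tp _ _ _ _

theorem INF_tb (n : ℕ) [NeZero n] (j : ℕ) (hj : 2 ^ j ≤ n) {x : Vx d} (hx : x ∈ cube d j) :
    pt n x ∈ (tb (fun _ => 2 ^ j) : Finset (Tv d n)) := by
  unfold tb
  rw [Finset.mem_filter]
  refine ⟨Finset.mem_univ _, fun i => ?_⟩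
  have h1 := Fintype.mem_piFinset.1 hx i
  rw [Finset.mem_Ico] at h1
  obtain ⟨k, hk⟩ := Int.eq_ofNat_of_zero_le h1.1
  have h2 : k < 2 ^ j := by
    have h3 := h1.2
    rw [hk] at h3
    exact_mod_cast h3
  show (((x i : ℤ) : ZMod n)).val < 2 ^ j
  rw [hk, Int.cast_natCast, ZMod.val_natCast_of_lt (by omega)]
  exact h2

theorem INF_ge (n : ℕ) [NeZero n] {β : ℝ} (hβ : 0 ≤ β) (j R : ℕ) (hj : 2 ^ j ≤ n)
    (hR : 2 * R + 2 < n) :
    ((((2 : ℝ) ^ j) ^ d)⁻¹) ^ 2 * ∑ x ∈ cube d j ∩ bx d R, ∑ y ∈ cube d j ∩ bx d R,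
      phiB β R false (cn x y) ≤ (Tg d n).IsE β (fun σ => (Sa (fun _ => 2 ^ j) σ) ^ 2) := by
  have ht : T01 (fun _ : Te d n => Real.tanh β) := T01_tanh β hβ
  rw [INF_sq]
  have h1 : (∏ _i : Fin d, (((2 ^ j : ℕ)) : ℝ)) = ((2 : ℝ) ^ j) ^ d := by
    rw [Finset.prod_const, Finset.card_univ, Fintype.card_fin]
    push_cast
    rfl
  rw [h1]
  refine mul_le_mul_of_nonneg_left ?_ (by positivity)
  have hinj : Set.InjOn (pt n) ((cube d j ∩ bx d R : Finset (Vx d)) : Set (Vx d)) := by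
    intro x hx y hy hxy
    rw [Finset.mem_coe, Finset.mem_inter, mem_bx] at hx hy
    exact pt_inj (by omega) hx.2 hy.2 hxy
  have hsub : (cube d j ∩ bx d R).image (pt n) ⊆ (tb (fun _ => 2 ^ j) : Finset (Tv d n)) := by
    intro z hz
    obtain ⟨x, hx, rfl⟩ := Finset.mem_image.1 hz
    exact INF_tb n j hj (Finset.mem_inter.1 hx).1
  calc ∑ x ∈ cube d j ∩ bx d R, ∑ y ∈ cube d j ∩ bx d R, phiB β R false (cn x y)
      ≤ ∑ x ∈ cube d j ∩ bx d R, ∑ y ∈ cube d j ∩ bx d R,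
          (Tg d n).tp (fun _ => Real.tanh β) (pt n x) (pt n y) := by
        refine Finset.sum_le_sum fun x hx => Finset.sum_le_sum fun y hy => ?_
        rw [Finset.mem_inter, mem_bx] at hx hy
        exact torus_ge_free hβ n R hR hx.2 hy.2
    _ = ∑ x ∈ (cube d j ∩ bx d R).image (pt n), ∑ y ∈ (cube d j ∩ bx d R).image (pt n),
          (Tg d n).tp (fun _ => Real.tanh β) x y := by
        rw [Finset.sum_image hinj]
        refine Finset.sum_congr rfl fun x _ => ?_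
        rw [Finset.sum_image hinj]
    _ ≤ ∑ x ∈ (tb (fun _ => 2 ^ j) : Finset (Tv d n)),
          ∑ y ∈ (cube d j ∩ bx d R).image (pt n), (Tg d n).tp (fun _ => Real.tanh β) x y :=
        Finset.sum_le_sum_of_subset_of_nonneg hsub fun x _ _ =>
          Finset.sum_nonneg fun y _ => tp_nonneg _ ht _ _
    _ ≤ _ := Finset.sum_le_sum fun x _ =>
        Finset.sum_le_sum_of_subset_of_nonneg hsub fun y _ _ => tp_nonneg _ ht _ _

theorem infrared_free (hd : 3 ≤ d) {β : ℝ} (hβ : 0 < β) (h0 : thW d β = 0) (j R : ℕ) :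
    ∑ x ∈ cube d j ∩ bx d R, ∑ y ∈ cube d j ∩ bx d R, phiB β R false (cn x y) ≤
      (3 * d) ^ 2 * ((2 ^ j : ℝ)⁻¹ / β) * ((2 ^ j : ℝ) ^ d) ^ 2 := by
  obtain ⟨Sg, hSg⟩ : ∃ Sg, Sg = ∑ x ∈ cube d j ∩ bx d R, ∑ y ∈ cube d j ∩ bx d R,
    phiB β R false (cn x y) := ⟨_, rfl⟩
  rw [← hSg]
  obtain ⟨b, hb⟩ : ∃ b, b = 3 * (d : ℝ) * Real.sqrt ((2 ^ j : ℝ)⁻¹ / β) := ⟨_, rfl⟩
  obtain ⟨a, ha⟩ : ∃ a, a = Real.sqrt (((((2 : ℝ) ^ j) ^ d)⁻¹) ^ 2 * Sg) := ⟨_, rfl⟩
  have hall : ∀ r M : ℕ, 2 * (r + 1) + 2 + (2 * R + 2) + j ≤ M →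
      a ≤ Real.sqrt (((2 * r + 1 : ℕ) : ℝ) ^ d / ((2 ^ M : ℕ) : ℝ) ^ d +
        phiB β r true (arm r (0 : Vx d))) + b := by
    intro r M hM
    have h1 : M < 2 ^ M := Nat.lt_pow_self (by norm_num)
    have h2 := torus_infrared hd hβ M j (by omega)
    have h3 := zero_mode (d := d) (by omega) hβ.le (2 ^ M) r (by omega)
    have h4 := INF_ge (d := d) (2 ^ M) hβ.le j R
      (Nat.pow_le_pow_right (by norm_num) (by omega)) (by omega)
    rw [← hSg] at h4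
    rw [ha, hb]
    calc Real.sqrt (((((2 : ℝ) ^ j) ^ d)⁻¹) ^ 2 * Sg) ≤ _ := Real.sqrt_le_sqrt h4
      _ ≤ _ := h2
      _ ≤ _ := by
        have h5 := Real.sqrt_le_sqrt h3
        linarith
  have hr : ∀ r : ℕ, a ≤ Real.sqrt (0 + phiB β r true (arm r (0 : Vx d))) + b := by
    intro r
    refine ge_of_tendsto (x := atTop) (f := fun M : ℕ =>
      Real.sqrt (((2 * r + 1 : ℕ) : ℝ) ^ d / ((2 ^ M : ℕ) : ℝ) ^ d +
        phiB β r true (arm r (0 : Vx d))) + b) ?_ ?_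
    · refine Tendsto.add_const b ?_
      refine (Real.continuous_sqrt.tendsto _).comp (Tendsto.add_const _ ?_)
      refine Tendsto.div_atTop tendsto_const_nhds ?_
      refine (tendsto_pow_atTop (by omega : d ≠ 0)).comp ?_
      exact tendsto_natCast_atTop_atTop.comp (tendsto_pow_atTop_atTop_of_one_lt one_lt_two)
    · filter_upwards [eventually_ge_atTop (2 * (r + 1) + 2 + (2 * R + 2) + j)] with M hM
      exact hall r M hM
  have hfin : a ≤ b := by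
    have h1 : Tendsto (fun r : ℕ => Real.sqrt (0 + phiB β r true (arm r (0 : Vx d))) + b) atTop
        (𝓝 (Real.sqrt (0 + 0) + b)) := by
      refine Tendsto.add_const b ?_
      refine (Real.continuous_sqrt.tendsto _).comp (Tendsto.const_add 0 ?_)
      have h2 := thW_tendsto (d := d) (by omega) hβ.le
      rwa [h0] at h2
    have h3 := ge_of_tendsto' h1 hr
    rwa [add_zero, Real.sqrt_zero, zero_add] at h3
  have hSg0 : 0 ≤ Sg := by
    rw [hSg]
    exact Finset.sum_nonneg fun x _ => Finset.sum_nonneg fun y _ => phiB_nonneg hβ.le _ _ _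
  have ha0 : 0 ≤ a := by
    rw [ha]
    exact Real.sqrt_nonneg _
  have hsq : a ^ 2 ≤ b ^ 2 := pow_le_pow_left₀ ha0 hfin 2
  have hD : (0 : ℝ) < ((2 : ℝ) ^ j) ^ d := by positivity
  rw [ha, hb, Real.sq_sqrt (by positivity), mul_pow, Real.sq_sqrt (by positivity), inv_pow,
    inv_mul_le_iff₀ (by positivity)] at hsq
  calc Sg ≤ _ := hsq
    _ = _ := by ring

theorem theta_pos (hd : 3 ≤ d) {β : ℝ} (hβ : ((3 : ℝ) * d) ^ 2 < β) : 0 < thW d β := by
  have hd3 : (3 : ℝ) ≤ d := by exact_mod_cast hd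
  have hβ0 : 0 < β := lt_of_le_of_lt (by positivity) hβ
  rcases (thW_nonneg d hβ0.le).lt_or_eq with h | h
  · exact h
  exfalso
  have h1 := infrared_free hd hβ0 h.symm 0 0
  have hc : cube d 0 ∩ bx d 0 = {0} := by
    ext x
    rw [Finset.mem_inter, mem_bx, Finset.mem_singleton, Nat.le_zero, nm_eq_zero]
    constructor
    · exact fun h => h.2
    · rintro rfl
      refine ⟨Fintype.mem_piFinset.2 fun i => ?_, rfl⟩
      simp
  rw [hc, Finset.sum_singleton, Finset.sum_singleton] at h1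
  have h2 : phiB β 0 false (cn (0 : Vx d) 0) = 1 := by
    have h3 : (cn (0 : Vx d) 0) = Set.univ := by
      ext ω
      simp only [Set.mem_univ, iff_true]
      exact Relation.ReflTransGen.refl
    rw [h3]
    unfold phiB phiG
    rw [div_eq_one_iff_eq (BR2_den_pos hβ0.le _ _ _).ne']
    refine Finset.sum_congr rfl fun ω _ => ?_
    unfold ind
    rw [if_pos (Set.mem_univ _), mul_one]
  rw [h2, pow_zero, one_pow, one_pow, inv_one, mul_one, mul_one_div, le_div_iff₀ hβ0, one_mul] at h1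
  exact absurd h1 (not_le.2 hβ)

end H82.IC
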