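import Pool.Agent.H82.IC.FK1

/-!
# ISO: transfer of FK expectations between two finite graphs with the same free edges

`j : Λ → E`, `j' : Λ → E'` injective maps of a finite type of edges into the edges of two graphs `Γ`, `Γ'`; `η`, `η'` finsets of edges disjoint from the images of `j`, `j'`.
`ttf j η t0`: parameter `1` on `η`, `t0 a` on `j a`, `0` elsewhere.
Hypothesis `hc`: for all `ω : Finset Λ` and `a ∉ ω`: the two ends of `j a` are connected in `j '' ω ∪ η` iff the two ends of `j' a` are connected in `j' '' ω ∪ η'`.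
* `kap_ratio`: `kap (j '' ω ∪ η) = c * kap' (j' '' ω ∪ η')` for all `ω`, with `c > 0` independent of `ω`: induction on `ω` with `kap_insert` in both graphs (`c` = ratio at `ω = ∅`, `one_le_kap`).
* `fk_iso`: `fkS_eq`: under `ttf j η t0` the weight of `ω'` vanishes unless `ω' = j '' ω ∪ η` for the (unique) `ω = {a | j a ∈ ω'}` (a factor `1 - 1 = 0` if an edge of `η` is closed, a factor `0`
  if an edge outside `η ∪ range j` is open), and it is then `kap(j '' ω ∪ η) ∏_{a ∈ ω} t0 a ∏_{a ∉ ω} (1 - t0 a)`.  So `fkS (f ∘ pull) = ∑_ω kap(..)∏∏ f ω = c *` the same for `Γ'`; take the quotient with `f = 1`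
  (`z t 0 = fkS t 1`).
* `tp_iso`: take `f = indicator of the connection` and use `hc2`: `x ↔ y` in `j '' ω ∪ η` iff `x' ↔ y'` in `j' '' ω ∪ η'`, for all `ω`; together with `fkE_conn` and the support of the measure.
-/

set_option autoImplicit false

open Finset

namespace H82.IC

variable {V V' E E' Λ : Type*} [Fintype E] [DecidableEq E] [Fintype E'] [DecidableEq E']
  [Fintype Λ] [DecidableEq Λ]

/-- parameters: `1` on `η`, `t0` on the image of `j`, `0` elsewhere. -/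
noncomputable def ttf {E Λ : Type*} (j : Λ → E) (η : Finset E) (t0 : Λ → ℝ) (e : E) : ℝ :=
  open Classical in if e ∈ η then 1 else if h : ∃ a, j a = e then t0 h.choose else 0

/-- pull back of a configuration. -/
noncomputable def pul {E Λ : Type*} [Fintype Λ] (j : Λ → E) (ω : Finset E) : Finset Λ :=
  open Classical in univ.filter (fun a => j a ∈ ω)

theorem ISO_coe {E Λ : Type*} [DecidableEq E] (j : Λ → E) (η : Finset E) (ω : Finset Λ) :
    ((ω.image j ∪ η : Finset E) : Set E) = j '' (ω : Set Λ) ∪ (η : Set E) := by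
  rw [Finset.coe_union, Finset.coe_image]

theorem kap_ratio (Γ : Gr V E) (Γ' : Gr V' E') (j : Λ → E) (j' : Λ → E')
    (hj : Function.Injective j) (hj' : Function.Injective j') (η : Finset E) (η' : Finset E')
    (hη : ∀ a, j a ∉ η) (hη' : ∀ a, j' a ∉ η')
    (hc : ∀ (ω : Finset Λ) (a : Λ), a ∉ ω →
      (Γ.Conn (j '' (ω : Set Λ) ∪ (η : Set E)) (Γ.s (j a)) (Γ.r (j a)) ↔
        Γ'.Conn (j' '' (ω : Set Λ) ∪ (η' : Set E')) (Γ'.s (j' a)) (Γ'.r (j' a)))) :
    ∃ c : ℝ, 0 < c ∧ ∀ ω : Finset Λ,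
      Γ.kap (ω.image j ∪ η) = c * Γ'.kap (ω.image j' ∪ η') := by
  have h1 : 0 < Γ.kap η := lt_of_lt_of_le one_pos (one_le_kap Γ η)
  have h2 : 0 < Γ'.kap η' := lt_of_lt_of_le one_pos (one_le_kap Γ' η')
  refine ⟨Γ.kap η / Γ'.kap η', div_pos h1 h2, fun ω => ?_⟩
  induction ω using Finset.induction_on with
  | empty =>
    rw [Finset.image_empty, Finset.image_empty, Finset.empty_union, Finset.empty_union,
      div_mul_cancel₀ _ h2.ne']
  | @insert a ω ha ih =>
    have h3 : j a ∉ ω.image j ∪ η := by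
      rw [Finset.mem_union, Finset.mem_image]
      rintro (⟨b, hb, hba⟩ | h)
      · rw [hj hba] at hb
        exact ha hb
      · exact hη a h
    have h4 : j' a ∉ ω.image j' ∪ η' := by
      rw [Finset.mem_union, Finset.mem_image]
      rintro (⟨b, hb, hba⟩ | h)
      · rw [hj' hba] at hb
        exact ha hb
      · exact hη' a h
    rw [Finset.image_insert, Finset.image_insert, Finset.insert_union, Finset.insert_union,
      kap_insert Γ h3, kap_insert Γ' h4, ih, ISO_coe, ISO_coe, KA_congr (hc ω a ha), mul_assoc]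

theorem ISO_eta {E Λ : Type*} (j : Λ → E) (η : Finset E) (t0 : Λ → ℝ) {e : E} (h : e ∈ η) :
    ttf j η t0 e = 1 := by
  classical
  unfold ttf
  rw [if_pos h]

theorem ISO_j {E Λ : Type*} (j : Λ → E) (hj : Function.Injective j) (η : Finset E) (t0 : Λ → ℝ)
    {a : Λ} (h : j a ∉ η) : ttf j η t0 (j a) = t0 a := by
  classical
  unfold ttf
  have h2 : ∃ b, j b = j a := ⟨a, rfl⟩
  rw [if_neg h, dif_pos h2, hj h2.choose_spec]

theorem ISO_out {E Λ : Type*} (j : Λ → E) (η : Finset E) (t0 : Λ → ℝ) {e : E} (h : e ∉ η)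
    (h2 : ¬ ∃ a, j a = e) : ttf j η t0 e = 0 := by
  classical
  unfold ttf
  rw [if_neg h, dif_neg h2]

theorem ISO_mem_pul {E Λ : Type*} [Fintype Λ] (j : Λ → E) (ω : Finset E) (a : Λ) :
    a ∈ pul j ω ↔ j a ∈ ω := by
  classical
  unfold pul
  rw [Finset.mem_filter]
  exact ⟨fun h => h.2, fun h => ⟨mem_univ _, h⟩⟩

theorem ISO_pul (j : Λ → E) (hj : Function.Injective j) (η : Finset E) (hη : ∀ a, j a ∉ η)
    (ω : Finset Λ) : pul j (ω.image j ∪ η) = ω := by
  ext a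
  rw [ISO_mem_pul, Finset.mem_union, Finset.mem_image]
  constructor
  · rintro (⟨b, hb, hba⟩ | h)
    · rwa [hj hba] at hb
    · exact absurd h (hη a)
  · intro h
    exact Or.inl ⟨a, h, rfl⟩

theorem ISO_fkS (Γ : Gr V E) (j : Λ → E) (hj : Function.Injective j) (η : Finset E)
    (hη : ∀ a, j a ∉ η) (t0 : Λ → ℝ) (F : Finset E → ℝ) :
    Γ.fkS (ttf j η t0) F = ∑ ω : Finset Λ, Γ.kap (ω.image j ∪ η) *
      ((∏ a ∈ ω, t0 a) * ∏ a ∈ ωᶜ, (1 - t0 a)) * F (ω.image j ∪ η) := by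
  rw [fkS_eq]
  symm
  refine Finset.sum_of_injOn (fun ω : Finset Λ => ω.image j ∪ η) ?_ ?_ ?_ ?_
  · intro ω _ ω' _ h
    have h1 : ω.image j ∪ η = ω'.image j ∪ η := h
    rw [← ISO_pul j hj η hη ω, ← ISO_pul j hj η hη ω', h1]
  · intro ω _
    exact Finset.mem_coe.2 (mem_univ _)
  · intro ω' _ hω'
    by_contra hne
    apply hω'
    have h1 : (∏ e ∈ ω', ttf j η t0 e) ≠ 0 := by
      intro h
      apply hne
      rw [h]; ring
    have h2 : (∏ e ∈ ω'ᶜ, (1 - ttf j η t0 e)) ≠ 0 := by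
      intro h
      apply hne
      rw [h]; ring
    rw [Finset.prod_ne_zero_iff] at h1 h2
    refine ⟨pul j ω', Finset.mem_coe.2 (mem_univ _), ?_⟩
    change (pul j ω').image j ∪ η = ω'
    ext e
    rw [Finset.mem_union, Finset.mem_image]
    constructor
    · rintro (⟨a, ha, hae⟩ | h)
      · rw [ISO_mem_pul, hae] at ha
        exact ha
      · by_contra he
        apply h2 e (Finset.mem_compl.2 he)
        rw [ISO_eta j η t0 h, sub_self]
    · intro he
      by_cases h : e ∈ η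
      · exact Or.inr h
      · left
        by_cases h3 : ∃ a, j a = e
        · obtain ⟨a, ha⟩ := h3
          exact ⟨a, by rw [ISO_mem_pul, ha]; exact he, ha⟩
        · exact absurd (ISO_out j η t0 h h3) (h1 e he)
  · intro ω _
    change Γ.kap (ω.image j ∪ η) * ((∏ a ∈ ω, t0 a) * ∏ a ∈ ωᶜ, (1 - t0 a)) *
      F (ω.image j ∪ η) = Γ.kap (ω.image j ∪ η) * ((∏ e ∈ ω.image j ∪ η, ttf j η t0 e) *
        ∏ e ∈ (ω.image j ∪ η)ᶜ, (1 - ttf j η t0 e)) * F (ω.image j ∪ η)
    have hd : Disjoint (ω.image j) η := by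
      rw [Finset.disjoint_left]
      intro e he he'
      obtain ⟨a, _, ha⟩ := Finset.mem_image.1 he
      rw [← ha] at he'
      exact hη a he'
    have h1 : ∏ e ∈ ω.image j ∪ η, ttf j η t0 e = ∏ a ∈ ω, t0 a := by
      rw [Finset.prod_union hd, Finset.prod_image (fun a _ b _ hab => hj hab)]
      have h2 : ∏ e ∈ η, ttf j η t0 e = 1 := Finset.prod_eq_one fun e he => ISO_eta j η t0 he
      rw [h2, mul_one]
      exact Finset.prod_congr rfl fun a _ => ISO_j j hj η t0 (hη a)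
    have h3 : ∏ e ∈ (ω.image j ∪ η)ᶜ, (1 - ttf j η t0 e) = ∏ a ∈ ωᶜ, (1 - t0 a) := by
      have h4 : ∏ e ∈ (ωᶜ).image j, (1 - ttf j η t0 e) =
          ∏ e ∈ (ω.image j ∪ η)ᶜ, (1 - ttf j η t0 e) := by
        refine Finset.prod_subset ?_ ?_
        · intro e he
          obtain ⟨a, ha, hae⟩ := Finset.mem_image.1 he
          rw [Finset.mem_compl] at ha ⊢
          rw [Finset.mem_union, Finset.mem_image]
          rintro (⟨b, hb, hbe⟩ | h)
          · rw [← hae] at hbe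
            rw [hj hbe] at hb
            exact ha hb
          · rw [← hae] at h
            exact hη a h
        · intro e he he'
          rw [Finset.mem_compl, Finset.mem_union, not_or] at he
          have h5 : ¬ ∃ a, j a = e := by
            rintro ⟨a, ha⟩
            by_cases h6 : a ∈ ω
            · exact he.1 (Finset.mem_image.2 ⟨a, h6, ha⟩)
            · exact he' (Finset.mem_image.2 ⟨a, Finset.mem_compl.2 h6, ha⟩)
          rw [ISO_out j η t0 he.2 h5, sub_zero]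
      rw [← h4, Finset.prod_image (fun a _ b _ hab => hj hab)]
      exact Finset.prod_congr rfl fun a _ => by rw [ISO_j j hj η t0 (hη a)]
    rw [h1, h3]

theorem fk_iso (Γ : Gr V E) (Γ' : Gr V' E') (j : Λ → E) (j' : Λ → E')
    (hj : Function.Injective j) (hj' : Function.Injective j') (η : Finset E) (η' : Finset E')
    (hη : ∀ a, j a ∉ η) (hη' : ∀ a, j' a ∉ η')
    (hc : ∀ (ω : Finset Λ) (a : Λ), a ∉ ω →
      (Γ.Conn (j '' (ω : Set Λ) ∪ (η : Set E)) (Γ.s (j a)) (Γ.r (j a)) ↔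
        Γ'.Conn (j' '' (ω : Set Λ) ∪ (η' : Set E')) (Γ'.s (j' a)) (Γ'.r (j' a))))
    (t0 : Λ → ℝ) (ht : T01 t0) (f : Finset Λ → ℝ) :
    Γ.fkE (ttf j η t0) (fun ω => f (pul j ω)) = Γ'.fkE (ttf j' η' t0) (fun ω => f (pul j' ω)) := by
  obtain ⟨c, hc0, hk⟩ := kap_ratio Γ Γ' j j' hj hj' η η' hη hη' hc
  have h1 : ∀ g : Finset Λ → ℝ, Γ.fkS (ttf j η t0) (fun ω => g (pul j ω)) =
      c * Γ'.fkS (ttf j' η' t0) (fun ω => g (pul j' ω)) := by
    intro g
    rw [ISO_fkS Γ j hj η hη, ISO_fkS Γ' j' hj' η' hη', Finset.mul_sum]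
    refine Finset.sum_congr rfl fun ω _ => ?_
    rw [ISO_pul j hj η hη, ISO_pul j' hj' η' hη', hk]
    ring
  have h2 := h1 (fun _ => 1)
  unfold Gr.fkE
  rw [← fkS_one, ← fkS_one, h1, h2, mul_div_mul_left _ _ hc0.ne']

theorem tp_iso (Γ : Gr V E) (Γ' : Gr V' E') (j : Λ → E) (j' : Λ → E')
    (hj : Function.Injective j) (hj' : Function.Injective j') (η : Finset E) (η' : Finset E')
    (hη : ∀ a, j a ∉ η) (hη' : ∀ a, j' a ∉ η')
    (hc : ∀ (ω : Finset Λ) (a : Λ), a ∉ ω →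
      (Γ.Conn (j '' (ω : Set Λ) ∪ (η : Set E)) (Γ.s (j a)) (Γ.r (j a)) ↔
        Γ'.Conn (j' '' (ω : Set Λ) ∪ (η' : Set E')) (Γ'.s (j' a)) (Γ'.r (j' a))))
    (t0 : Λ → ℝ) (ht : T01 t0) (x y : V) (x' y' : V')
    (hc2 : ∀ ω : Finset Λ, (Γ.Conn (j '' (ω : Set Λ) ∪ (η : Set E)) x y ↔
        Γ'.Conn (j' '' (ω : Set Λ) ∪ (η' : Set E')) x' y')) :
    Γ.tp (ttf j η t0) x y = Γ'.tp (ttf j' η' t0) x' y' := by
  obtain ⟨c, hc0, hk⟩ := kap_ratio Γ Γ' j j' hj hj' η η' hη hη' hc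
  have h1 : Γ.fkS (ttf j η t0) (fun ω => ind (Γ.Conn (ω : Set E) x y)) =
      c * Γ'.fkS (ttf j' η' t0) (fun ω => ind (Γ'.Conn (ω : Set E') x' y')) := by
    rw [ISO_fkS Γ j hj η hη, ISO_fkS Γ' j' hj' η' hη', Finset.mul_sum]
    refine Finset.sum_congr rfl fun ω _ => ?_
    rw [hk, ISO_coe, ISO_coe, KA_congr (hc2 ω)]
    ring
  have h2 : Γ.fkS (ttf j η t0) (fun _ => 1) = c * Γ'.fkS (ttf j' η' t0) (fun _ => 1) := by
    rw [ISO_fkS Γ j hj η hη, ISO_fkS Γ' j' hj' η' hη', Finset.mul_sum]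
    refine Finset.sum_congr rfl fun ω _ => ?_
    rw [hk]
    ring
  rw [← fkE_conn, ← fkE_conn]
  unfold Gr.fkE
  rw [← fkS_one, ← fkS_one, h1, h2, mul_div_mul_left _ _ hc0.ne']

end H82.IC
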