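import Pool.Agent.H82.IC.BD

/-!
# KA: the number of even subgraphs

`kapS S ω` = number of flows `η : E → ZMod 2` with `bd η = S` and support in `ω`, `kap ω = kapS 0 ω`.

* `kapS_of_flow`: if `c` is one such flow, `η ↦ η + c` is a bijection from the flows with boundary `S` onto those with boundary `0`.
* `kapS_src`: by `exists_flow` and `conn_of_flow`.
* `kap_insert`: flows supported in `insert e ω` with boundary `0` split according to the value at `e`: value `0`: flows supported in `ω`;
  value `1`: subtract `1_e`: flows supported in `ω` with boundary `src (s e) (r e)`, whose number is `kap ω * ind (Conn ω (s e) (r e))`.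
* `kap_mul_le` (log-supermodular): induction on the finset `ω \ ω'`: write `ω = insert e ω₀`, `e ∉ ω₀`, `e ∉ ω'`:
  `kap ω = kap ω₀ (1 + ind(Conn ω₀ s r))`, `kap (ω ∪ ω') = kap (ω₀ ∪ ω') (1 + ind (Conn (ω₀ ∪ ω') s r))`, `ω ∩ ω' = ω₀ ∩ ω'`.
* `kap_mono`: `kap` is monotone (more flows); `kap_le`: `kap (ω ∪ F) ≤ 2^|F| kap ω` by `kap_insert`.
-/

set_option autoImplicit false

open Finset

namespace H82.IC

variable {V E : Type*} [Fintype E] [DecidableEq E]

theorem ind_true {p : Prop} (h : p) : ind p = 1 := by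
  unfold ind
  rw [if_pos h]

theorem ind_false {p : Prop} (h : ¬ p) : ind p = 0 := by
  unfold ind
  rw [if_neg h]

theorem ind_nonneg (p : Prop) : 0 ≤ ind p := by
  by_cases h : p
  · rw [ind_true h]; norm_num
  · rw [ind_false h]

theorem ind_le_one (p : Prop) : ind p ≤ 1 := by
  by_cases h : p
  · rw [ind_true h]
  · rw [ind_false h]; norm_num

theorem ind_and (p q : Prop) : ind (p ∧ q) = ind p * ind q := by
  by_cases h : p
  · by_cases h' : q
    · rw [ind_true h, ind_true h', ind_true ⟨h, h'⟩, one_mul]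
    · rw [ind_false h', ind_false fun g => h' g.2, mul_zero]
  · rw [ind_false h, ind_false fun g => h g.1, zero_mul]

theorem ind_not (p : Prop) : ind (¬ p) = 1 - ind p := by
  by_cases h : p
  · rw [ind_true h, ind_false (not_not.mpr h), sub_self]
  · rw [ind_false h, ind_true h, sub_zero]

theorem ind_mono {p q : Prop} (h : p → q) : ind p ≤ ind q := by
  by_cases hp : p
  · rw [ind_true hp, ind_true (h hp)]
  · rw [ind_false hp]
    exact ind_nonneg q

theorem ind_mul_self (p : Prop) : ind p * ind p = ind p := by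
  by_cases h : p
  · rw [ind_true h, one_mul]
  · rw [ind_false h, zero_mul]

theorem KA_congr {p q : Prop} (h : p ↔ q) : ind p = ind q := congrArg ind (propext h)

theorem KA_two (S : V → ZMod 2) : S + S = 0 := funext fun _ => CharTwo.add_self_eq_zero _

theorem kapS_of_flow (Γ : Gr V E) (S : V → ZMod 2) (ω : Finset E) (c : E → ZMod 2)
    (hc : Γ.bd c = S) (hs : ∀ e, c e ≠ 0 → e ∈ ω) : Γ.kapS S ω = Γ.kap ω := by
  unfold Gr.kap Gr.kapS
  refine Fintype.sum_equiv (Equiv.addRight c) _ _ fun η => KA_congr ?_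
  rw [Equiv.coe_addRight]
  beta_reduce
  rw [bd_add, hc]
  refine and_congr ?_ ?_
  · constructor
    · rintro rfl
      exact KA_two _
    · intro h
      have h2 : Γ.bd η + S + S = S := by rw [h, zero_add]
      rwa [add_assoc, KA_two, add_zero] at h2
  · have hz : ∀ e, e ∉ ω → c e = 0 := fun e he => by
      by_contra hne
      exact he (hs e hne)
    constructor
    · intro h e he
      by_contra hne
      have h1 : η e = 0 := by
        by_contra h2
        exact hne (h e h2)
      exact he (by rw [Pi.add_apply, h1, hz e hne, add_zero])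
    · intro h e he
      by_contra hne
      exact hne (h e (by rw [Pi.add_apply, hz e hne, add_zero]; exact he))

theorem kapS_src (Γ : Gr V E) (ω : Finset E) (u v : V) :
    Γ.kapS (src u v) ω = Γ.kap ω * ind (Γ.Conn (ω : Set E) u v) := by
  by_cases h : Γ.Conn (ω : Set E) u v
  · obtain ⟨c, hc, hs⟩ := exists_flow Γ h
    rw [ind_true h, mul_one]
    exact kapS_of_flow Γ _ ω c hc fun e he => Finset.mem_coe.mp (hs e he)
  · rw [ind_false h, mul_zero]
    unfold Gr.kapS
    refine Finset.sum_eq_zero fun η _ => ind_false ?_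
    rintro ⟨h1, h2⟩
    exact h (conn_of_flow Γ h1 fun e he => Finset.mem_coe.mpr (h2 e he))

theorem kap_empty (Γ : Gr V E) : Γ.kap ∅ = 1 := by
  unfold Gr.kap Gr.kapS
  rw [Finset.sum_eq_single 0]
  · exact ind_true ⟨bd_zero Γ, fun e he => absurd rfl he⟩
  · intro η _ hη
    refine ind_false ?_
    rintro ⟨_, h2⟩
    refine hη (funext fun e => ?_)
    by_contra h3
    exact absurd (h2 e h3) (Finset.notMem_empty e)
  · intro h
    exact absurd (Finset.mem_univ _) h

theorem one_le_kap (Γ : Gr V E) (ω : Finset E) : 1 ≤ Γ.kap ω := by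
  unfold Gr.kap Gr.kapS
  have h := Finset.single_le_sum (s := Finset.univ)
    (f := fun η : E → ZMod 2 => ind (Γ.bd η = 0 ∧ ∀ e, η e ≠ 0 → e ∈ ω))
    (fun η _ => ind_nonneg _) (Finset.mem_univ 0)
  have h0 : ind (Γ.bd (0 : E → ZMod 2) = 0 ∧ ∀ e, (0 : E → ZMod 2) e ≠ 0 → e ∈ ω) = 1 :=
    ind_true ⟨bd_zero Γ, fun e he => absurd rfl he⟩
  rw [h0] at h
  exact h

theorem KA_bd_single (Γ : Gr V E) (e : E) :
    Γ.bd (Pi.single e (1 : ZMod 2)) = src (Γ.s e) (Γ.r e) := by
  classical
  funext x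
  unfold Gr.bd src
  rw [Finset.sum_eq_single e]
  · rw [Pi.single_eq_same]
    simp only [eq_comm (a := x)]
  · intro e' _ he'
    rw [Pi.single_eq_of_ne he']
    simp
  · intro h
    exact absurd (Finset.mem_univ _) h

theorem KA_zmod (a : ZMod 2) : a = 0 ∨ a = 1 := by
  revert a
  decide

theorem kap_insert (Γ : Gr V E) {ω : Finset E} {e : E} (he : e ∉ ω) :
    Γ.kap (insert e ω) = Γ.kap ω * (1 + ind (Γ.Conn (ω : Set E) (Γ.s e) (Γ.r e))) := by
  rw [mul_add, mul_one, ← kapS_src]
  have h1 : Γ.kap (insert e ω) = ∑ η : E → ZMod 2,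
      (ind (Γ.bd η = 0 ∧ ∀ e', η e' ≠ 0 → e' ∈ ω) +
        ind (Γ.bd η = 0 ∧ η e = 1 ∧ ∀ e', η e' ≠ 0 → e' ∈ insert e ω)) := by
    unfold Gr.kap Gr.kapS
    refine Finset.sum_congr rfl fun η _ => ?_
    rcases KA_zmod (η e) with h0 | h0
    · have e1 : ind (Γ.bd η = 0 ∧ η e = 1 ∧ ∀ e', η e' ≠ 0 → e' ∈ insert e ω) = 0 := by
        refine ind_false ?_
        rintro ⟨_, h2, _⟩
        rw [h0] at h2
        exact absurd h2 (by decide)
      rw [e1, add_zero]
      refine KA_congr (and_congr_right fun _ => ?_)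
      constructor
      · intro h e' he'
        rcases Finset.mem_insert.mp (h e' he') with h2 | h2
        · rw [h2] at he'
          exact absurd h0 he'
        · exact h2
      · intro h e' he'
        exact Finset.mem_insert_of_mem (h e' he')
    · have e1 : ind (Γ.bd η = 0 ∧ ∀ e', η e' ≠ 0 → e' ∈ ω) = 0 := by
        refine ind_false ?_
        rintro ⟨_, h2⟩
        refine he (h2 e ?_)
        rw [h0]
        decide
      rw [e1, zero_add]
      refine KA_congr (and_congr_right fun _ => ?_)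
      constructor
      · intro h
        exact ⟨h0, h⟩
      · intro h
        exact h.2
  rw [h1, Finset.sum_add_distrib]
  unfold Gr.kap
  congr 1
  unfold Gr.kapS
  refine Fintype.sum_equiv (Equiv.addRight (Pi.single e (1 : ZMod 2))) _ _ fun η => KA_congr ?_
  rw [Equiv.coe_addRight]
  beta_reduce
  rw [bd_add, KA_bd_single]
  have hz : ∀ e', e' ≠ e → (η + (Pi.single e (1 : ZMod 2) : E → ZMod 2)) e' = η e' :=
    fun e' h => by rw [Pi.add_apply, Pi.single_eq_of_ne h, add_zero]
  have hz0 : (η + (Pi.single e (1 : ZMod 2) : E → ZMod 2)) e = η e + 1 := by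
    rw [Pi.add_apply, Pi.single_eq_same]
  refine and_congr ?_ ?_
  · constructor
    · intro h
      rw [h, zero_add]
    · intro h
      exact add_eq_right.mp h
  · constructor
    · rintro ⟨h2, h3⟩ e' he'
      by_cases hee : e' = e
      · rw [hee, hz0, h2] at he'
        exact absurd (by decide) he'
      · rw [hz e' hee] at he'
        rcases Finset.mem_insert.mp (h3 e' he') with h4 | h4
        · exact absurd h4 hee
        · exact h4
    · intro h
      constructor
      · rcases KA_zmod (η e) with h0 | h0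
        · refine absurd (h e ?_) he
          rw [hz0, h0]
          decide
        · exact h0
      · intro e' he'
        by_cases hee : e' = e
        · rw [hee]
          exact Finset.mem_insert_self _ _
        · refine Finset.mem_insert_of_mem (h e' ?_)
          rw [hz e' hee]
          exact he'

theorem kap_mono (Γ : Gr V E) {ω ω' : Finset E} (h : ω ⊆ ω') : Γ.kap ω ≤ Γ.kap ω' := by
  unfold Gr.kap Gr.kapS
  exact Finset.sum_le_sum fun η _ => ind_mono fun hp => ⟨hp.1, fun e he => h (hp.2 e he)⟩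

theorem kap_le (Γ : Gr V E) (ω F : Finset E) : Γ.kap (ω ∪ F) ≤ 2 ^ F.card * Γ.kap ω := by
  induction F using Finset.induction_on with
  | empty => simp
  | insert e F he ih =>
    rw [Finset.card_insert_of_notMem he, Finset.union_insert, pow_succ]
    have h0 : 0 ≤ Γ.kap ω := zero_le_one.trans (one_le_kap Γ ω)
    have hp : (0 : ℝ) ≤ 2 ^ F.card * Γ.kap ω := by positivity
    by_cases hm : e ∈ ω ∪ F
    · rw [Finset.insert_eq_self.mpr hm]
      linarith
    · rw [kap_insert Γ hm]
      have h1 := ind_le_one (Γ.Conn ((ω ∪ F : Finset E) : Set E) (Γ.s e) (Γ.r e))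
      have h2 := ind_nonneg (Γ.Conn ((ω ∪ F : Finset E) : Set E) (Γ.s e) (Γ.r e))
      have h3 : 0 ≤ Γ.kap (ω ∪ F) := zero_le_one.trans (one_le_kap Γ _)
      have h4 : Γ.kap (ω ∪ F) * (1 + ind (Γ.Conn ((ω ∪ F : Finset E) : Set E) (Γ.s e) (Γ.r e))) ≤
          Γ.kap (ω ∪ F) * 2 := mul_le_mul_of_nonneg_left (by linarith) h3
      linarith

theorem KA_ind_step (Γ : Gr V E) (I ω' : Finset E) (hI : I ⊆ ω') (D : Finset E)
    (hD : Disjoint D ω') : Γ.kap (I ∪ D) * Γ.kap ω' ≤ Γ.kap I * Γ.kap (ω' ∪ D) := by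
  induction D using Finset.induction_on with
  | empty => simp
  | insert e D he ih =>
    have hd : e ∉ ω' ∧ Disjoint D ω' := by
      rw [Finset.disjoint_insert_left] at hD
      exact hD
    have ih' := ih hd.2
    have h1 : e ∉ I ∪ D := by
      rw [Finset.mem_union, not_or]
      exact ⟨fun h => hd.1 (hI h), he⟩
    have h2 : e ∉ ω' ∪ D := by
      rw [Finset.mem_union, not_or]
      exact ⟨hd.1, he⟩
    rw [Finset.union_insert, Finset.union_insert, kap_insert Γ h1, kap_insert Γ h2]
    have hsub : ((I ∪ D : Finset E) : Set E) ⊆ ((ω' ∪ D : Finset E) : Set E) := by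
      exact_mod_cast Finset.union_subset_union_left hI
    have h3 : ind (Γ.Conn ((I ∪ D : Finset E) : Set E) (Γ.s e) (Γ.r e)) ≤
        ind (Γ.Conn ((ω' ∪ D : Finset E) : Set E) (Γ.s e) (Γ.r e)) :=
      ind_mono fun h => conn_mono Γ hsub h
    have h4 := ind_nonneg (Γ.Conn ((I ∪ D : Finset E) : Set E) (Γ.s e) (Γ.r e))
    have k1 : 0 ≤ Γ.kap I * Γ.kap (ω' ∪ D) := by
      have a1 := one_le_kap Γ I
      have a2 := one_le_kap Γ (ω' ∪ D)
      have : (0 : ℝ) ≤ Γ.kap I := by linarith
      have : (0 : ℝ) ≤ Γ.kap (ω' ∪ D) := by linarith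
      positivity
    calc Γ.kap (I ∪ D) * (1 + ind (Γ.Conn ((I ∪ D : Finset E) : Set E) (Γ.s e) (Γ.r e))) * Γ.kap ω'
        = (Γ.kap (I ∪ D) * Γ.kap ω') *
          (1 + ind (Γ.Conn ((I ∪ D : Finset E) : Set E) (Γ.s e) (Γ.r e))) := by ring
      _ ≤ (Γ.kap I * Γ.kap (ω' ∪ D)) *
          (1 + ind (Γ.Conn ((ω' ∪ D : Finset E) : Set E) (Γ.s e) (Γ.r e))) := by
          refine mul_le_mul ih' (by linarith) (by linarith) k1
      _ = _ := by ring

theorem kap_mul_le (Γ : Gr V E) (ω ω' : Finset E) :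
    Γ.kap ω * Γ.kap ω' ≤ Γ.kap (ω ∩ ω') * Γ.kap (ω ∪ ω') := by
  have h := KA_ind_step Γ (ω ∩ ω') ω' Finset.inter_subset_right (ω \ ω') Finset.sdiff_disjoint
  have h1 : ω ∩ ω' ∪ ω \ ω' = ω := by
    rw [Finset.union_comm]
    exact Finset.sdiff_union_inter ω ω'
  have h2 : ω' ∪ ω \ ω' = ω ∪ ω' := by
    rw [Finset.union_sdiff_self_eq_union, Finset.union_comm]
  rw [h1, h2] at h
  exact h

end H82.IC
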