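import Pool.Agent.H82.IC.DT4

/-!
# KEY1: first and second moment of `N = ∑_{u ∈ B} α u 1[o ↔ u]` under the double trace with sources `(src o a, 0)`

Expand `(N - 1)^2 = ∑_{u,v} α u α v 1[o↔u]1[o↔v] - 2 ∑ α u 1[o↔u] + 1`, use linearity (`sg_sum`, `sg_smul`, ...), `tree_graph` for the double sum (`α ≥ 0`), `sg_first` for the
middle term and `sg_one` (`z (src o a)/z 0 = tp o a`, `z 0 / z 0 = 1` by `one_le_z`) for the last.
`sg_cs`: Cauchy-Schwarz from `trc_cs` divided by `(z 0)^4`.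
-/

set_option autoImplicit false

open Finset

namespace H82.IC

variable {V E : Type*} [Fintype E] [DecidableEq E]

/-- `N ω = ∑_{u ∈ B} α u 1[o ↔ u]`. -/
noncomputable def Gr.NN (Γ : Gr V E) (B : Finset V) (α : V → ℝ) (o : V) (ω : Finset E) : ℝ :=
  ∑ u ∈ B, α u * ind (Γ.Conn (ω : Set E) o u)

theorem sg_mass (Γ : Gr V E) {t : E → ℝ} (ht : T01 t) (o a : V) :
    Γ.sg t (src o a) 0 (fun _ => 1) = Γ.tp t o a := by
  have hz0 : Γ.z t 0 ≠ 0 := by have := one_le_z Γ ht; positivity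
  rw [sg_one, div_self hz0, mul_one]
  rfl

theorem sg_NN (Γ : Gr V E) (t : E → ℝ) (o a : V) (B : Finset V) (α : V → ℝ) :
    Γ.sg t (src o a) 0 (Γ.NN B α o) = ∑ u ∈ B, α u * (Γ.tp t o u * Γ.tp t u a) := by
  have h : Γ.NN B α o = fun ω : Finset E => ∑ u ∈ B, α u * ind (Γ.Conn (ω : Set E) o u) := rfl
  rw [h, sg_sum]
  exact Finset.sum_congr rfl (fun u _ => by rw [sg_smul, sg_first])

theorem sg_NN_sq (Γ : Gr V E) {t : E → ℝ} (ht : T01 t) (o a : V) (B : Finset V) (α : V → ℝ)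
    (hα : ∀ u, 0 ≤ α u) :
    Γ.sg t (src o a) 0 (fun ω => (Γ.NN B α o ω - 1) ^ 2) ≤
      (∑ u ∈ B, ∑ v ∈ B, α u * α v * (Γ.tp t u v *
        (Γ.tp t o u * Γ.tp t v a + Γ.tp t o v * Γ.tp t u a))) -
      2 * (∑ u ∈ B, α u * (Γ.tp t o u * Γ.tp t u a)) + Γ.tp t o a := by
  have hexp : (fun ω => (Γ.NN B α o ω - 1) ^ 2) = fun ω : Finset E =>
      ((∑ u ∈ B, ∑ v ∈ B, (α u * α v) *
        (ind (Γ.Conn (ω : Set E) o u) * ind (Γ.Conn (ω : Set E) o v))) -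
        2 * Γ.NN B α o ω) + 1 := by
    funext ω
    have h1 : (∑ u ∈ B, ∑ v ∈ B, (α u * α v) *
        (ind (Γ.Conn (ω : Set E) o u) * ind (Γ.Conn (ω : Set E) o v))) =
        Γ.NN B α o ω * Γ.NN B α o ω := by
      unfold Gr.NN
      rw [Finset.sum_mul_sum]
      exact Finset.sum_congr rfl (fun u _ => Finset.sum_congr rfl (fun v _ => by ring))
    rw [h1]; ring
  rw [hexp, sg_add, sg_sub, sg_smul, sg_NN, sg_mass Γ ht, sg_sum]
  have h2 : ∑ u ∈ B, Γ.sg t (src o a) 0 (fun ω : Finset E => ∑ v ∈ B, (α u * α v) *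
        (ind (Γ.Conn (ω : Set E) o u) * ind (Γ.Conn (ω : Set E) o v))) ≤
      ∑ u ∈ B, ∑ v ∈ B, α u * α v * (Γ.tp t u v *
        (Γ.tp t o u * Γ.tp t v a + Γ.tp t o v * Γ.tp t u a)) := by
    refine Finset.sum_le_sum (fun u _ => ?_)
    rw [sg_sum]
    refine Finset.sum_le_sum (fun v _ => ?_)
    rw [sg_smul]
    exact mul_le_mul_of_nonneg_left (tree_graph Γ ht o a u v) (mul_nonneg (hα u) (hα v))
  linarith

theorem sg_cs (Γ : Gr V E) {t : E → ℝ} (ht : T01 t) (o a : V) (f : Finset E → ℝ) :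
    (Γ.sg t (src o a) 0 (fun ω => |f ω|)) ^ 2 ≤
      Γ.tp t o a * Γ.sg t (src o a) 0 (fun ω => f ω ^ 2) := by
  have hz := one_le_z Γ ht
  have hz0 : 0 < Γ.z t 0 := by linarith
  rw [← sg_mass Γ ht]
  have h := trc_cs Γ (wDT t) (fun e a b => wDT_nonneg ht e a b) (pr (src o a) 0) f
  unfold Gr.sg
  have hz2 : 0 < (Γ.z t 0) ^ 2 := by positivity
  rw [div_pow, div_mul_div_comm, ← pow_two]
  exact div_le_div_of_nonneg_right h (by positivity)

end H82.IC
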