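import Pool.Agent.H82.IC.FV2
import Pool.Agent.H82.IC.KEY1

/-!
# KEY2: the key inequality on one graph

Let `x = fkE t (1[ω ∩ F = ∅] 1[o ↔ a])`, `N = NN B α o`, `Rr ω = ∑_{u ∈ B} α u 1[o↔u]1[not G u]`, `N' ω = ∑_{u ∈ B} α u 1[G u]`, `G u` = `u ↔ a` in `ω \ F`,
`E u = tp o u * ∑_{z ∈ vF F} tp u z * tp z a`, `K = CF τ |F| ∈ [0,1]`.
(1) `x = K * sgF (src o a) 0 1` (`sgF_one` with `T = 0`, `z 0/z 0 = 1`).
(2) `K * sgF (src o a) 0 (1 - N')` has absolute value `≤ sg (src o a) 0 |1 - N'|` (`sgF_abs`, `CF_le_one`); by `G_sub` (used for the function `|1 - N'|`: on configurations with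
    `o ↔ a`, `1[G u] = 1[o↔u] - 1[o↔u]1[not G u]`, i.e. `N' = N - Rr`; prove it with `sg_supp1`) it is `≤ sg |1 - N| + sg Rr ≤ sg |N - 1| + ∑ α u E u` (`loss_bound`).
(3) `K * sgF (src o a) 0 N' = ∑ α u (K * sgF (src o u) (src u a) 1[G u])` (`sgF_G`) `= ∑ α u (K * sgF (src o u) (src u a) 1 - K * sgF (src o u) (src u a) 1[not G u])`,
    `K * sgF (src o u) (src u a) 1 = fkE t (1[ω ∩ F = ∅]1[o↔u]) * tp u a` (`sgF_one`), and `0 ≤ K * sgF .. 1[not G u] ≤ E u` (`sgF_le`, `notG_bound`).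
(4) `c * tp o a = c * sg (src o a) 0 1 = c * ∑ α u tp o u tp u a - c * sg (src o a) 0 (N - 1)` (`sg_mass`, `sg_NN`).
Subtract: `|x - c tp o a| ≤ (sg|N-1| + ∑ α u E u) + ∑ α u E u + ∑ α u |fkE(1[ω∩F=∅]1[o↔u]) - c tp o u| tp u a + |c| sg |N-1|`.
-/

set_option autoImplicit false

open Finset

namespace H82.IC

variable {V E : Type*} [Fintype E] [DecidableEq E]

theorem KEY2_ind_true {p : Prop} (h : p) : ind p = 1 := by
  unfold ind; simp [h]

theorem KEY2_ind_false {p : Prop} (h : ¬ p) : ind p = 0 := by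
  unfold ind; simp [h]

theorem KEY2_ind_nonneg (p : Prop) : 0 ≤ ind p := by
  unfold ind; split_ifs <;> norm_num

theorem KEY2_ind_not (p : Prop) : ind (¬ p) = 1 - ind p := by
  by_cases h : p
  · rw [KEY2_ind_true h, KEY2_ind_false (not_not.mpr h)]; norm_num
  · rw [KEY2_ind_false h, KEY2_ind_true h]; norm_num

theorem KEY2_abs_sg (Γ : Gr V E) {t : E → ℝ} (ht : T01 t) (S T : V → ZMod 2) (f : Finset E → ℝ) :
    |Γ.sg t S T f| ≤ Γ.sg t S T (fun ω => |f ω|) := by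
  have h1 : Γ.sg t S T f ≤ Γ.sg t S T (fun ω => |f ω|) := sg_mono Γ ht S T (fun ω => le_abs_self _)
  have h2 : Γ.sg t S T (fun ω => (-1) * f ω) ≤ Γ.sg t S T (fun ω => |f ω|) :=
    sg_mono Γ ht S T (fun ω => by rw [neg_one_mul]; exact neg_le_abs _)
  rw [sg_smul] at h2
  rw [abs_le]
  constructor <;> linarith

theorem KEY2_loss (Γ : Gr V E) {t : E → ℝ} (ht : T01 t) (F : Finset E) (o a : V)
    (B : Finset V) (α : V → ℝ) (hα : ∀ u, 0 ≤ α u) :
    Γ.sg t (src o a) 0 (fun ω => |1 - ∑ u ∈ B, α u * ind (Γ.Conn ((ω : Set E) \ F) u a)|) ≤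
      Γ.sg t (src o a) 0 (fun ω => |Γ.NN B α o ω - 1|) +
      ∑ u ∈ B, α u * (Γ.tp t o u * ∑ z ∈ Γ.vF F, Γ.tp t u z * Γ.tp t z a) := by
  have e1 : Γ.sg t (src o a) 0
      (fun ω => |1 - ∑ u ∈ B, α u * ind (Γ.Conn ((ω : Set E) \ F) u a)|) =
      Γ.sg t (src o a) 0 (fun ω => |1 - (Γ.NN B α o ω - ∑ u ∈ B, α u *
        (ind (Γ.Conn (ω : Set E) o u) * ind (¬ Γ.Conn ((ω : Set E) \ F) u a)))|) := by
    apply sg_supp1
    intro ω hoa
    have : ∑ u ∈ B, α u * ind (Γ.Conn ((ω : Set E) \ F) u a) =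
        Γ.NN B α o ω - ∑ u ∈ B, α u *
        (ind (Γ.Conn (ω : Set E) o u) * ind (¬ Γ.Conn ((ω : Set E) \ F) u a)) := by
      unfold Gr.NN
      rw [← Finset.sum_sub_distrib]
      apply Finset.sum_congr rfl
      intro u _
      by_cases hG : Γ.Conn ((ω : Set E) \ F) u a
      · have hou : Γ.Conn (ω : Set E) o u :=
          conn_trans Γ hoa (conn_symm Γ (conn_mono Γ Set.sdiff_subset hG))
        rw [KEY2_ind_true hG, KEY2_ind_true hou, KEY2_ind_false (not_not.mpr hG)]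
        ring
      · rw [KEY2_ind_false hG, KEY2_ind_true hG]
        ring
    simp only [this]
  rw [e1]
  have e2 : Γ.sg t (src o a) 0 (fun ω => |1 - (Γ.NN B α o ω - ∑ u ∈ B, α u *
        (ind (Γ.Conn (ω : Set E) o u) * ind (¬ Γ.Conn ((ω : Set E) \ F) u a)))|) ≤
      Γ.sg t (src o a) 0 (fun ω => |Γ.NN B α o ω - 1| + ∑ u ∈ B, α u *
        (ind (Γ.Conn (ω : Set E) o u) * ind (¬ Γ.Conn ((ω : Set E) \ F) u a))) := by
    apply sg_mono Γ ht
    intro ω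
    have hR : 0 ≤ ∑ u ∈ B, α u *
        (ind (Γ.Conn (ω : Set E) o u) * ind (¬ Γ.Conn ((ω : Set E) \ F) u a)) :=
      Finset.sum_nonneg (fun u _ => mul_nonneg (hα u)
        (mul_nonneg (KEY2_ind_nonneg _) (KEY2_ind_nonneg _)))
    rw [abs_le]
    have h1 := le_abs_self (Γ.NN B α o ω - 1)
    have h2 := neg_le_abs (Γ.NN B α o ω - 1)
    constructor <;> linarith
  refine e2.trans ?_
  rw [sg_add, sg_sum]
  have e3 : ∑ u ∈ B, Γ.sg t (src o a) 0 (fun ω => α u *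
        (ind (Γ.Conn (ω : Set E) o u) * ind (¬ Γ.Conn ((ω : Set E) \ F) u a))) ≤
      ∑ u ∈ B, α u * (Γ.tp t o u * ∑ z ∈ Γ.vF F, Γ.tp t u z * Γ.tp t z a) := by
    apply Finset.sum_le_sum
    intro u _
    rw [sg_smul]
    exact mul_le_mul_of_nonneg_left (loss_bound Γ ht F o a u) (hα u)
  linarith

theorem key_pointwise (Γ : Gr V E) {t : E → ℝ} (ht : T01 t) (F : Finset E) {τ : ℝ} (h0 : 0 ≤ τ)
    (h1 : τ < 1) (hF : ∀ e ∈ F, t e = τ) (o a : V) (B : Finset V) (α : V → ℝ) (hα : ∀ u, 0 ≤ α u)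
    (c : ℝ) (δ : V → ℝ)
    (hδ : ∀ u ∈ B, |Γ.fkE t (fun ω => ind (Disjoint ω F) * ind (Γ.Conn (ω : Set E) o u)) -
      c * Γ.tp t o u| ≤ δ u) :
    |Γ.fkE t (fun ω => ind (Disjoint ω F) * ind (Γ.Conn (ω : Set E) o a)) - c * Γ.tp t o a| ≤
      (1 + |c|) * Γ.sg t (src o a) 0 (fun ω => |Γ.NN B α o ω - 1|) +
      2 * (∑ u ∈ B, α u * (Γ.tp t o u * ∑ z ∈ Γ.vF F, Γ.tp t u z * Γ.tp t z a)) +
      ∑ u ∈ B, α u * (δ u * Γ.tp t u a) := by
  classical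
  set K : ℝ := CF τ F.card with hK
  have hK0 : 0 ≤ K := CF_nonneg h0 h1 _
  have hK1 : K ≤ 1 := CF_le_one h0 h1 _
  have hz0 : Γ.z t 0 ≠ 0 := by have := one_le_z Γ ht; positivity
  set X : V → ℝ := fun u =>
    Γ.fkE t (fun ω => ind (Disjoint ω F) * ind (Γ.Conn (ω : Set E) o u)) with hX
  set Er : V → ℝ := fun u => Γ.tp t o u * ∑ z ∈ Γ.vF F, Γ.tp t u z * Γ.tp t z a with hEr
  set N' : Finset E → ℝ := fun ω => ∑ u ∈ B, α u * ind (Γ.Conn ((ω : Set E) \ F) u a) with hN'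
  set SN : ℝ := Γ.sg t (src o a) 0 (fun ω => |Γ.NN B α o ω - 1|) with hSN
  set R : V → ℝ := fun u =>
    K * Γ.sgF F t (src o u) (src u a) (fun ω => ind (¬ Γ.Conn ((ω : Set E) \ F) u a)) with hR
  -- (1)
  have s1 : X a = K * Γ.sgF F t (src o a) 0 (fun _ => 1) := by
    rw [hK, sgF_one Γ ht F h0 h1 hF o a 0, div_self hz0, mul_one]
  -- (2)
  have s2 : |K * Γ.sgF F t (src o a) 0 (fun ω => 1 - N' ω)| ≤ SN + ∑ u ∈ B, α u * Er u := by
    rw [abs_mul, abs_of_nonneg hK0]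
    have a1 := sgF_abs Γ ht F (src o a) 0 (fun ω => 1 - N' ω)
    have a2 := KEY2_loss Γ ht F o a B α hα
    have a3 : 0 ≤ |Γ.sgF F t (src o a) 0 (fun ω => 1 - N' ω)| := abs_nonneg _
    calc K * |Γ.sgF F t (src o a) 0 (fun ω => 1 - N' ω)|
        ≤ 1 * |Γ.sgF F t (src o a) 0 (fun ω => 1 - N' ω)| :=
          mul_le_mul_of_nonneg_right hK1 a3
      _ = |Γ.sgF F t (src o a) 0 (fun ω => 1 - N' ω)| := one_mul _
      _ ≤ _ := a1.trans a2
  have s2b : K * Γ.sgF F t (src o a) 0 (fun ω => 1 - N' ω) =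
      X a - K * Γ.sgF F t (src o a) 0 N' := by
    rw [sgF_sub, mul_sub, ← s1]
  -- (3)
  have s3 : K * Γ.sgF F t (src o a) 0 N' = ∑ u ∈ B, α u * (X u * Γ.tp t u a - R u) := by
    rw [hN', sgF_sum, Finset.mul_sum]
    apply Finset.sum_congr rfl
    intro u _
    rw [sgF_smul, sgF_G]
    have hG : Γ.sgF F t (src o u) (src u a) (fun ω => ind (Γ.Conn ((ω : Set E) \ F) u a)) =
        Γ.sgF F t (src o u) (src u a) (fun _ => 1) -
        Γ.sgF F t (src o u) (src u a) (fun ω => ind (¬ Γ.Conn ((ω : Set E) \ F) u a)) := by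
      rw [← sgF_sub]
      congr 1
      funext ω
      rw [KEY2_ind_not]; ring
    have hone := sgF_one Γ ht F h0 h1 hF o u (src u a)
    rw [hG]
    have hone' : K * Γ.sgF F t (src o u) (src u a) (fun _ => 1) = X u * Γ.tp t u a := hone
    simp only [hR]
    rw [← hone']
    ring
  have s3b : ∀ u, |R u| ≤ Er u := by
    intro u
    simp only [hR]
    rw [abs_mul, abs_of_nonneg hK0]
    have a1 := sgF_abs Γ ht F (src o u) (src u a)
      (fun ω => ind (¬ Γ.Conn ((ω : Set E) \ F) u a))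
    have a2 : Γ.sg t (src o u) (src u a)
        (fun ω => |ind (¬ Γ.Conn ((ω : Set E) \ F) u a)|) =
        Γ.sg t (src o u) (src u a) (fun ω => ind (¬ Γ.Conn ((ω : Set E) \ F) u a)) := by
      congr 1
      funext ω
      exact abs_of_nonneg (KEY2_ind_nonneg _)
    rw [a2] at a1
    have a3 := notG_bound Γ ht F o a u
    calc K * |Γ.sgF F t (src o u) (src u a) (fun ω => ind (¬ Γ.Conn ((ω : Set E) \ F) u a))|
        ≤ 1 * |Γ.sgF F t (src o u) (src u a)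
            (fun ω => ind (¬ Γ.Conn ((ω : Set E) \ F) u a))| :=
          mul_le_mul_of_nonneg_right hK1 (abs_nonneg _)
      _ = |Γ.sgF F t (src o u) (src u a)
            (fun ω => ind (¬ Γ.Conn ((ω : Set E) \ F) u a))| := one_mul _
      _ ≤ _ := a1.trans a3
  -- (4)
  have s4 : Γ.sg t (src o a) 0 (fun ω => Γ.NN B α o ω - 1) =
      ∑ u ∈ B, α u * (Γ.tp t o u * Γ.tp t u a) - Γ.tp t o a := by
    rw [sg_sub, sg_mass Γ ht, sg_NN]
  have s4b : |Γ.sg t (src o a) 0 (fun ω => Γ.NN B α o ω - 1)| ≤ SN :=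
    KEY2_abs_sg Γ ht _ _ _
  set Q : ℝ := Γ.sg t (src o a) 0 (fun ω => Γ.NN B α o ω - 1) with hQ
  -- assembly
  have key : X a - c * Γ.tp t o a =
      K * Γ.sgF F t (src o a) 0 (fun ω => 1 - N' ω) +
      ∑ u ∈ B, α u * ((X u - c * Γ.tp t o u) * Γ.tp t u a) -
      ∑ u ∈ B, α u * R u + c * Q := by
    rw [s2b, s3, s4, mul_sub, Finset.mul_sum]
    have e1 : ∑ u ∈ B, α u * (X u * Γ.tp t u a - R u) =
        ∑ u ∈ B, α u * (X u * Γ.tp t u a) - ∑ u ∈ B, α u * R u := by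
      rw [← Finset.sum_sub_distrib]
      exact Finset.sum_congr rfl (fun u _ => by ring)
    have e2 : ∑ u ∈ B, α u * ((X u - c * Γ.tp t o u) * Γ.tp t u a) =
        ∑ u ∈ B, α u * (X u * Γ.tp t u a) -
        ∑ u ∈ B, c * (α u * (Γ.tp t o u * Γ.tp t u a)) := by
      rw [← Finset.sum_sub_distrib]
      exact Finset.sum_congr rfl (fun u _ => by ring)
    rw [e1, e2]
    ring
  have b1 : |∑ u ∈ B, α u * ((X u - c * Γ.tp t o u) * Γ.tp t u a)| ≤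
      ∑ u ∈ B, α u * (δ u * Γ.tp t u a) := by
    refine (Finset.abs_sum_le_sum_abs _ _).trans (Finset.sum_le_sum ?_)
    intro u hu
    have ht0 := tp_nonneg Γ ht u a
    rw [abs_mul, abs_of_nonneg (hα u), abs_mul, abs_of_nonneg ht0]
    exact mul_le_mul_of_nonneg_left (mul_le_mul_of_nonneg_right (hδ u hu) ht0) (hα u)
  have b2 : |∑ u ∈ B, α u * R u| ≤ ∑ u ∈ B, α u * Er u := by
    refine (Finset.abs_sum_le_sum_abs _ _).trans (Finset.sum_le_sum ?_)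
    intro u _
    rw [abs_mul, abs_of_nonneg (hα u)]
    exact mul_le_mul_of_nonneg_left (s3b u) (hα u)
  have b3 : |c * Q| ≤ |c| * SN := by
    rw [abs_mul]
    exact mul_le_mul_of_nonneg_left s4b (abs_nonneg c)
  have hfin : |X a - c * Γ.tp t o a| ≤
      (SN + ∑ u ∈ B, α u * Er u) + ∑ u ∈ B, α u * (δ u * Γ.tp t u a) +
      ∑ u ∈ B, α u * Er u + |c| * SN := by
    rw [key]
    have t1 := abs_add_le (K * Γ.sgF F t (src o a) 0 (fun ω => 1 - N' ω) +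
      ∑ u ∈ B, α u * ((X u - c * Γ.tp t o u) * Γ.tp t u a) -
      ∑ u ∈ B, α u * R u) (c * Q)
    have t2 := abs_sub (K * Γ.sgF F t (src o a) 0 (fun ω => 1 - N' ω) +
      ∑ u ∈ B, α u * ((X u - c * Γ.tp t o u) * Γ.tp t u a)) (∑ u ∈ B, α u * R u)
    have t3 := abs_add_le (K * Γ.sgF F t (src o a) 0 (fun ω => 1 - N' ω))
      (∑ u ∈ B, α u * ((X u - c * Γ.tp t o u) * Γ.tp t u a))
    linarith
  calc |X a - c * Γ.tp t o a| ≤ _ := hfin
    _ = (1 + |c|) * SN + 2 * (∑ u ∈ B, α u * Er u) + ∑ u ∈ B, α u * (δ u * Γ.tp t u a) := by ring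

end H82.IC
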