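import Pool.Agent.H82.IC.IV2

/-!
# UNI: uniform convergence in the boundary condition

Hypotheses: `μ` is the free and the wired limit, `μ (perc d) = 0`.
* `arm_le`: for `nm u ≤ n`: `μ (arm n u) ≤ μ (arm (n - nm u) 0)`: on `arm n u` some `y` with `nm y = n` is connected to `u`; translate by `-u` (`lim_shift` with `gV x = x + u`:
  `act g ω ∈ cn 0 (y - u) ↔ ω ∈ cn u y`), `nm (y - u) ≥ n - nm u`, and `exit_box`.
* `wired_tendsto`: `X = cn x y ∩ up S` (increasing).  Lower bound: `phiB m true X ≥ μ X`?  use only: for `r ≥ nm x`, `cnB r x y ∩ up S ⊆ X ⊆ (cnB r x y ∩ up S) ∪ arm r x` (`cn_sub_union`), so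
  `phiB m true (cnB r ∩ up S) ≤ phiB m true X ≤ phiB m true (cnB r ∩ up S) + phiB m true (arm r x)`, both sides converge as `m → ∞` (cylinder events) to `μ (cnB r ∩ up S)` and
  `μ (cnB r ∩ up S) + μ (arm r x)`; let `r → ∞`: `tendsto_cnB`, `arm_le` and `tendsto_arm` with `μ (perc) = 0`.
* `free_tendsto`: `phiB m false (cnB r ∩ up S) ≤ phiB m false X ≤ μ X` (`free_le_cn`), `m → ∞` then `r → ∞`.
* `GN_cn`, `GN_dw`: `(GN d N).Conn ω x y ↔ ext false N N ω ∈ cn x y` (`conn_rs`, `opn (ext false N N ω) = vl ω`); `Disjoint ω (sb (bE N) F) ↔ ext false N N ω ∈ dw F` for `F ⊆ bE N`.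
* `tp_sandwich`: `sandwich` with `X = cn x y` and `fkE_conn`.
* `uni`: `ind (ω ∈ dw F) = ∑_{S ⊆ F} (-1)^{|S|} ind (ω ∈ up S)` (`Finset.prod_one_sub..`/ inclusion-exclusion: `∏_{e ∈ F} (1 - 1[ω e])`), so
  `|fkE_H (1[dw F] 1[cn x y]) - μ (dw F ∩ cn x y)| ≤ ∑_{S ⊆ F} |fkE_H 1[cn x y ∩ up S] - μ (cn x y ∩ up S)|` and both `fkE_H` (by `sandwich`) and `μ` (by `free_le_cn`, and
  `μ X ≤ phiB m true X`, limit of `phiB_free_le_wired`) lie between `phiB m false X` and `phiB m true X`, whose difference tends to `0`.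
-/

set_option autoImplicit false

open Finset MeasureTheory Filter Topology

namespace H82.IC

variable {d : ℕ}

theorem UNI_ind_pos {p : Prop} (h : p) : ind p = 1 := by
  unfold ind
  rw [if_pos h]

theorem UNI_ind_neg {p : Prop} (h : ¬ p) : ind p = 0 := by
  unfold ind
  rw [if_neg h]

theorem UNI_ind_congr {p q : Prop} (h : p ↔ q) : ind p = ind q := by
  rw [propext h]

theorem UNI_ind_and (p q : Prop) : ind (p ∧ q) = ind p * ind q := by
  by_cases hp : p
  · by_cases hq : q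
    · rw [UNI_ind_pos ⟨hp, hq⟩, UNI_ind_pos hp, UNI_ind_pos hq, mul_one]
    · rw [UNI_ind_neg (fun h => hq h.2), UNI_ind_neg hq, mul_zero]
  · rw [UNI_ind_neg (fun h => hp h.1), UNI_ind_neg hp, zero_mul]

theorem arm_le (hd : 1 ≤ d) {β : ℝ} (hβ : 0 ≤ β) {μ : Measure (Cf d)} (hμ : IsLim β false μ)
    {n : ℕ} {u : Vx d} (hu : nm u ≤ n) : μ.real (arm n u) ≤ μ.real (arm (n - nm u) (0 : Vx d)) := by
  have hprob := hμ.1
  obtain ⟨g, hg, -⟩ := exists_trA (d := d) u
  rw [← lim_shift hβ hμ g u hg (arm (n - nm u) (0 : Vx d)) (meas_arm _ _)]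
  refine measureReal_mono ?_
  rintro ω ⟨y, hy, hconn⟩
  have hny : nm y = n := (mem_bdry hd).1 hy
  have h1 : act g ω ∈ cn (0 : Vx d) (y - u) := by
    rw [act_cn, hg, hg, zero_add, sub_add_cancel]
    exact hconn
  have h2 : n - nm u ≤ nm (y - u) := by
    have h3 := nm_add (y - u) u
    rw [sub_add_cancel, hny] at h3
    omega
  exact cn_sub_arm hd (by rw [nm_zero]; exact Nat.zero_le _) h2 h1

theorem UNI_arm_tendsto (hd : 1 ≤ d) {β : ℝ} (hβ : 0 ≤ β) {μ : Measure (Cf d)}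
    (hμ : IsLim β false μ) (hp : μ.real (perc d) = 0) (x : Vx d) :
    Tendsto (fun r => μ.real (arm r x)) atTop (𝓝 0) := by
  have hprob := hμ.1
  have h1 : Tendsto (fun r => μ.real (arm (r - nm x) (0 : Vx d))) atTop (𝓝 0) := by
    have h2 := tendsto_arm hd (μ := μ)
    rw [hp] at h2
    exact h2.comp (tendsto_sub_atTop_nat (nm x))
  refine squeeze_zero' (Eventually.of_forall fun r => measureReal_nonneg) ?_ h1
  filter_upwards [eventually_ge_atTop (nm x)] with r hr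
  exact arm_le hd hβ hμ hr

theorem UNI_lcl (r : ℕ) (S : Finset (Ed d)) (x y : Vx d) : Lcl (cnB r x y ∩ up S) :=
  lcl_inter (lcl_cnB r x y) (lcl_up S)

theorem UNI_sub (r : ℕ) (S : Finset (Ed d)) (x y : Vx d) :
    (cnB r x y ∩ up S : Set (Cf d)) ⊆ cn x y ∩ up S := by
  refine Set.inter_subset_inter_left _ ?_
  rw [cn_eq]
  exact Set.subset_iUnion (fun n => (cnB n x y : Set (Cf d))) r

theorem UNI_inc (S : Finset (Ed d)) (x y : Vx d) : Inc (cn x y ∩ up S) :=
  inc_inter (inc_cn x y) (inc_up S)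

theorem wired_tendsto (hd : 2 ≤ d) {β : ℝ} (hβ : 0 ≤ β) {μ : Measure (Cf d)}
    (hμ : IsLim β false μ) (hμ' : IsLim β true μ) (hp : μ.real (perc d) = 0)
    (S : Finset (Ed d)) (x y : Vx d) :
    Tendsto (fun m => phiB β m true (cn x y ∩ up S)) atTop (𝓝 (μ.real (cn x y ∩ up S))) := by
  have hprob := hμ.1
  have hd1 : 1 ≤ d := by omega
  rw [Metric.tendsto_atTop]
  intro ε hε
  have h1 := tendsto_cnB (μ := μ) S x y
  have h2 := UNI_arm_tendsto hd1 hβ hμ hp x
  obtain ⟨r1, hr1⟩ := (Metric.tendsto_atTop.1 h1) (ε / 4) (by positivity)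
  obtain ⟨r2, hr2⟩ := (Metric.tendsto_atTop.1 h2) (ε / 4) (by positivity)
  obtain ⟨r, hr⟩ : ∃ r, r = max (max r1 r2) (nm x) := ⟨_, rfl⟩
  have hrx : nm x ≤ r := by rw [hr]; exact le_max_right _ _
  have hA := hr1 r (by rw [hr]; exact (le_max_left _ _).trans (le_max_left _ _))
  have hB := hr2 r (by rw [hr]; exact (le_max_right _ _).trans (le_max_left _ _))
  obtain ⟨m1, hm1⟩ := (Metric.tendsto_atTop.1 (hμ'.2 _ (UNI_lcl r S x y))) (ε / 4) (by positivity)
  obtain ⟨m2, hm2⟩ := (Metric.tendsto_atTop.1 (hμ'.2 _ (lcl_arm hd1 hrx))) (ε / 4) (by positivity)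
  refine ⟨max m1 m2, fun m hm => ?_⟩
  have hC := hm1 m ((le_max_left _ _).trans hm)
  have hD := hm2 m ((le_max_right _ _).trans hm)
  rw [Real.dist_eq] at hA hB hC hD ⊢
  have hlow : phiB β m true (cnB r x y ∩ up S) ≤ phiB β m true (cn x y ∩ up S) :=
    phiB_mono_set hβ m true (UNI_sub r S x y)
  have hup : phiB β m true (cn x y ∩ up S) ≤
      phiB β m true (cnB r x y ∩ up S) + phiB β m true (arm r x) := by
    refine le_trans (phiB_mono_set hβ m true ?_) (phiB_union_le hβ m true _ _)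
    rintro ω ⟨h3, h4⟩
    rcases cn_sub_union hd1 hrx h3 with h5 | h5
    · exact Or.inl ⟨h5, h4⟩
    · exact Or.inr h5
  have hmu : μ.real (cnB r x y ∩ up S) ≤ μ.real (cn x y ∩ up S) := measureReal_mono (UNI_sub r S x y)
  rw [abs_lt] at hA hB hC hD ⊢
  constructor <;> linarith

theorem free_tendsto (hd : 2 ≤ d) {β : ℝ} (hβ : 0 ≤ β) {μ : Measure (Cf d)}
    (hμ : IsLim β false μ) (S : Finset (Ed d)) (x y : Vx d) :
    Tendsto (fun m => phiB β m false (cn x y ∩ up S)) atTop (𝓝 (μ.real (cn x y ∩ up S))) := by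
  have hprob := hμ.1
  rw [Metric.tendsto_atTop]
  intro ε hε
  have h1 := tendsto_cnB (μ := μ) S x y
  obtain ⟨r, hr⟩ := (Metric.tendsto_atTop.1 h1) (ε / 2) (by positivity)
  have hA := hr r le_rfl
  obtain ⟨m1, hm1⟩ := (Metric.tendsto_atTop.1 (hμ.2 _ (UNI_lcl r S x y))) (ε / 2) (by positivity)
  refine ⟨m1, fun m hm => ?_⟩
  have hC := hm1 m hm
  rw [Real.dist_eq] at hA hC ⊢
  have hlow : phiB β m false (cnB r x y ∩ up S) ≤ phiB β m false (cn x y ∩ up S) :=
    phiB_mono_set hβ m false (UNI_sub r S x y)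
  have hup := free_le_cn hβ hμ m S x y
  rw [abs_lt] at hA hC ⊢
  constructor <;> linarith

theorem UNI_opn (N : ℕ) (ω : Finset ↥(bE d N)) :
    opn (ext false N N ω) = (vl ω : Set (Ed d)) := by
  ext e
  show (if e ∈ bE d N then decide (e ∈ vl ω) else false) = true ↔ e ∈ (vl ω : Set (Ed d))
  by_cases he : e ∈ bE d N
  · rw [if_pos he, decide_eq_true_iff, Finset.mem_coe]
  · rw [if_neg he]
    constructor
    · intro h
      exact absurd h (by simp)
    · intro h
      exfalso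
      apply he
      rw [Finset.mem_coe] at h
      obtain ⟨f, -, rfl⟩ := Finset.mem_map.1 h
      exact f.2

theorem GN_cn (N : ℕ) (ω : Finset ↥(bE d N)) (x y : Vx d) :
    (GN d N).Conn (ω : Set ↥(bE d N)) x y ↔ ext false N N ω ∈ cn x y := by
  unfold GN
  rw [conn_rs]
  show _ ↔ (Zl d).Conn (opn (ext false N N ω)) x y
  rw [UNI_opn]

theorem UNI_mem_sb {N : ℕ} {F : Finset (Ed d)} {e : ↥(bE d N)} :
    e ∈ sb (bE d N) F ↔ e.1 ∈ F := by
  simp [sb]

theorem GN_dw {N : ℕ} {F : Finset (Ed d)} (hF : F ⊆ bE d N) (ω : Finset ↥(bE d N)) :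
    Disjoint ω (sb (bE d N) F) ↔ ext false N N ω ∈ dw F := by
  rw [Finset.disjoint_left]
  constructor
  · intro h e he
    have h1 : e ∉ opn (ext false N N ω) := by
      rw [UNI_opn, Finset.mem_coe]
      intro h2
      obtain ⟨f, hf, rfl⟩ := Finset.mem_map.1 h2
      exact h hf (UNI_mem_sb.2 he)
    have h3 : ¬ ext false N N ω e = true := h1
    exact Bool.eq_false_iff.2 h3
  · intro h e he hes
    have h1 := h e.1 (UNI_mem_sb.1 hes)
    have h2 : e.1 ∈ opn (ext false N N ω) := by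
      rw [UNI_opn, Finset.mem_coe]
      exact Finset.mem_map.2 ⟨e, he, rfl⟩
    have h3 : ext false N N ω e.1 = true := h2
    rw [h1] at h3
    exact absurd h3 (by simp)

theorem GN_arm {N n : ℕ} (ω : Finset ↥(bE d N)) (x : Vx d) :
    (∃ b ∈ bdry d n, (GN d N).Conn (ω : Set ↥(bE d N)) x b) ↔ ext false N N ω ∈ arm n x := by
  constructor
  · rintro ⟨b, hb, h⟩
    exact ⟨b, hb, (GN_cn N ω x b).1 h⟩
  · rintro ⟨b, hb, h⟩
    exact ⟨b, hb, (GN_cn N ω x b).2 h⟩

theorem tp_sandwich (hd : 2 ≤ d) {β : ℝ} (hβ : 0 ≤ β) {m N : ℕ} (h : m + 1 ≤ N)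
    (η : Finset ↥(bE d N)) (hη : η ⊆ E1 d m N) (x y : Vx d) :
    phiB β m false (cn x y) ≤ (GN d N).tp (setT (E1 d m N) η (fun _ => Real.tanh β)) x y ∧
      (GN d N).tp (setT (E1 d m N) η (fun _ => Real.tanh β)) x y ≤ phiB β m true (cn x y) := by
  have h1 := sandwich hd hβ h η hη (inc_cn x y)
  have h2 : (fun ω : Finset ↥(bE d N) => ind (ext false N N ω ∈ cn x y)) =
      fun ω : Finset ↥(bE d N) => ind ((GN d N).Conn (ω : Set ↥(bE d N)) x y) := by
    funext ω
    exact UNI_ind_congr (GN_cn N ω x y).symm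
  rw [h2, fkE_conn] at h1
  exact h1

/-- inclusion-exclusion -/
theorem UNI_ie (F : Finset (Ed d)) (X : Set (Cf d)) (ω : Cf d) :
    ind (ω ∈ dw F ∩ X) = ∑ S ∈ F.powerset, (-1 : ℝ) ^ S.card * ind (ω ∈ X ∩ up S) := by
  have h1 : ind (ω ∈ dw F) = ∏ e ∈ F, (-(ind (ω e = true)) + 1) := by
    by_cases h : ω ∈ dw F
    · rw [UNI_ind_pos h]
      symm
      refine Finset.prod_eq_one fun e he => ?_
      have h2 : ω e = false := h e he
      rw [UNI_ind_neg (by rw [h2]; simp)]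
      norm_num
    · rw [UNI_ind_neg h]
      have h3 : ∃ e ∈ F, ¬ ω e = false := by
        by_contra hcon
        push Not at hcon
        exact h hcon
      obtain ⟨e, he, hne⟩ := h3
      symm
      refine Finset.prod_eq_zero he ?_
      have h4 : ω e = true := by
        cases hb : ω e
        · exact absurd hb hne
        · rfl
      rw [UNI_ind_pos h4]
      norm_num
  have h2 : ∀ S : Finset (Ed d), ∏ e ∈ S, (-(ind (ω e = true))) = (-1 : ℝ) ^ S.card * ind (ω ∈ up S) := by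
    intro S
    by_cases h : ω ∈ up S
    · rw [UNI_ind_pos h, mul_one]
      have h3 : ∀ e ∈ S, -(ind (ω e = true)) = (-1 : ℝ) := fun e he => by
        rw [UNI_ind_pos (h e he)]
      rw [Finset.prod_congr rfl h3, Finset.prod_const]
    · rw [UNI_ind_neg h, mul_zero]
      have h3 : ∃ e ∈ S, ¬ ω e = true := by
        by_contra hcon
        push Not at hcon
        exact h hcon
      obtain ⟨e, he, hne⟩ := h3
      refine Finset.prod_eq_zero he ?_
      rw [UNI_ind_neg hne, neg_zero]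
  have h3 : ind (ω ∈ dw F ∩ X) = ind (ω ∈ dw F) * ind (ω ∈ X) := UNI_ind_and _ _
  rw [h3, h1, Finset.prod_add, Finset.sum_mul]
  refine Finset.sum_congr rfl fun S _ => ?_
  have h4 : ind (ω ∈ X ∩ up S) = ind (ω ∈ X) * ind (ω ∈ up S) := UNI_ind_and _ _
  rw [Finset.prod_const_one, mul_one, h2, h4]
  ring

theorem UNI_int {μ : Measure (Cf d)} {X : Set (Cf d)} (hX : MeasurableSet X) :
    ∫ ω, ind (ω ∈ X) ∂μ = μ.real X := by
  rw [← integral_indicator_one hX]
  refine integral_congr_ae (Eventually.of_forall fun ω => ?_)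
  show ind (ω ∈ X) = X.indicator 1 ω
  by_cases h : ω ∈ X
  · rw [UNI_ind_pos h, Set.indicator_of_mem h]
    rfl
  · rw [UNI_ind_neg h, Set.indicator_of_notMem h]

theorem UNI_integrable {μ : Measure (Cf d)} [IsProbabilityMeasure μ] {X : Set (Cf d)}
    (hX : MeasurableSet X) : Integrable (fun ω => ind (ω ∈ X)) μ := by
  have h1 : (fun ω => ind (ω ∈ X)) = X.indicator (fun _ => (1 : ℝ)) := by
    funext ω
    by_cases h : ω ∈ X
    · rw [UNI_ind_pos h, Set.indicator_of_mem h]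
    · rw [UNI_ind_neg h, Set.indicator_of_notMem h]
  rw [h1]
  exact (integrable_const _).indicator hX

theorem uni (hd : 2 ≤ d) {β : ℝ} (hβ : 0 ≤ β) {μ : Measure (Cf d)}
    (hμ : IsLim β false μ) (hμ' : IsLim β true μ) (hp : μ.real (perc d) = 0)
    (F : Finset (Ed d)) (x y : Vx d) (ε : ℝ) (hε : 0 < ε) :
    ∃ m0, ∀ m, m0 ≤ m → ∀ N, m + 1 ≤ N → ∀ η : Finset ↥(bE d N), η ⊆ E1 d m N →
      |(GN d N).fkE (setT (E1 d m N) η (fun _ => Real.tanh β))
        (fun ω => ind (Disjoint ω (sb (bE d N) F)) * ind ((GN d N).Conn (ω : Set ↥(bE d N)) x y)) -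
        μ.real (dw F ∩ cn x y)| ≤ ε := by
  have hprob := hμ.1
  obtain ⟨n, hn⟩ := exists_bE F
  have hT : Tendsto (fun m => ∑ S ∈ F.powerset, (phiB β m true (cn x y ∩ up S) -
      phiB β m false (cn x y ∩ up S))) atTop (𝓝 0) := by
    have h1 : Tendsto (fun m => ∑ S ∈ F.powerset, (phiB β m true (cn x y ∩ up S) -
      phiB β m false (cn x y ∩ up S))) atTop
      (𝓝 (∑ S ∈ F.powerset, (μ.real (cn x y ∩ up S) - μ.real (cn x y ∩ up S)))) :=
      tendsto_finsetSum _ fun S _ =>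
        (wired_tendsto hd hβ hμ hμ' hp S x y).sub (free_tendsto hd hβ hμ S x y)
    simpa using h1
  obtain ⟨m1, hm1⟩ := (Metric.tendsto_atTop.1 hT) ε hε
  refine ⟨max m1 n, fun m hm N hN η hη => ?_⟩
  have hmT := hm1 m ((le_max_left _ _).trans hm)
  rw [Real.dist_eq, sub_zero] at hmT
  have hFN : F ⊆ bE d N := hn.trans (bE_mono (by have := (le_max_right m1 n).trans hm; omega))
  obtain ⟨t, ht⟩ : ∃ t : ↥(bE d N) → ℝ, t = setT (E1 d m N) η (fun _ => Real.tanh β) := ⟨_, rfl⟩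
  have hs : ∀ S, phiB β m false (cn x y ∩ up S) ≤
        (GN d N).fkE t (fun ω => ind (ext false N N ω ∈ (cn x y ∩ up S : Set (Cf d)))) ∧
      (GN d N).fkE t (fun ω => ind (ext false N N ω ∈ (cn x y ∩ up S : Set (Cf d)))) ≤
        phiB β m true (cn x y ∩ up S) := by
    intro S
    rw [ht]
    exact sandwich hd hβ hN η hη (UNI_inc S x y)
  have hm' : ∀ S, phiB β m false (cn x y ∩ up S) ≤ μ.real (cn x y ∩ up S) ∧
      μ.real (cn x y ∩ up S) ≤ phiB β m true (cn x y ∩ up S) := by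
    intro S
    refine ⟨free_le_cn hβ hμ m S x y, ?_⟩
    exact le_of_tendsto' (free_tendsto hd hβ hμ S x y)
      fun m' => phiB_free_le_wired hd hβ m' m (UNI_inc S x y)
  rw [← ht]
  have e1 : (fun ω : Finset ↥(bE d N) => ind (Disjoint ω (sb (bE d N) F)) *
      ind ((GN d N).Conn (ω : Set ↥(bE d N)) x y)) =
      fun ω => ∑ S ∈ F.powerset, (-1 : ℝ) ^ S.card *
        ind (ext false N N ω ∈ (cn x y ∩ up S : Set (Cf d))) := by
    funext ω
    rw [← UNI_ie F (cn x y) (ext false N N ω)]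
    have h1 : ind (ext false N N ω ∈ (dw F ∩ cn x y : Set (Cf d))) =
      ind (ext false N N ω ∈ dw F) * ind (ext false N N ω ∈ cn x y) := UNI_ind_and _ _
    rw [h1, UNI_ind_congr (GN_dw hFN ω), UNI_ind_congr (GN_cn N ω x y)]
  have hmeasX : ∀ S, MeasurableSet (cn x y ∩ up S : Set (Cf d)) := fun S =>
    (meas_cn x y).inter (lcl_measurable (lcl_up S))
  have e2 : μ.real (dw F ∩ cn x y) = ∑ S ∈ F.powerset, (-1 : ℝ) ^ S.card * μ.real (cn x y ∩ up S) := by
    rw [← UNI_int ((lcl_measurable (lcl_dw F)).inter (meas_cn x y))]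
    have h1 : (fun ω : Cf d => ind (ω ∈ (dw F ∩ cn x y : Set (Cf d)))) = fun ω =>
        ∑ S ∈ F.powerset, (-1 : ℝ) ^ S.card * ind (ω ∈ (cn x y ∩ up S : Set (Cf d))) :=
      funext fun ω => UNI_ie F (cn x y) ω
    rw [h1, integral_finsetSum _ (fun S _ => (UNI_integrable (hmeasX S)).const_mul _)]
    refine Finset.sum_congr rfl fun S _ => ?_
    rw [integral_const_mul, UNI_int (hmeasX S)]
  rw [e1, e2, fkE_sum, ← Finset.sum_sub_distrib]
  refine le_trans (Finset.abs_sum_le_sum_abs _ _) (le_trans (Finset.sum_le_sum fun S _ => ?_)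
    ((le_abs_self _).trans hmT.le))
  rw [fkE_smul, ← mul_sub, abs_mul, abs_pow, abs_neg, abs_one, one_pow, one_mul]
  rw [abs_le]
  have h1 := hs S
  have h2 := hm' S
  constructor <;> linarith [h1.1, h1.2, h2.1, h2.2]

end H82.IC
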