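import Pool.Agent.H82.IC.KEY2
import Pool.Agent.H82.IC.UNI

/-!
# KY0: the key inequality without conditioning (only `key_pointwise0` in this file)

* `key_pointwise0`: steps (1)-(3) of KEY2 (look at the header and the proof of `key_pointwise` in KEY2.lean): with `x = fkE t (1[ω ∩ F = ∅] 1[o ↔ a])`:
  `|x - ∑_{u ∈ B} α u fkE t (1[ω ∩ F = ∅] 1[o ↔ u]) tp u a| ≤ sg (src o a) 0 |N - 1| + 2 ∑ α u E u`, and `sg |N-1| ≤ √(tp o a * VAR)` by `sg_cs`, `sg_NN_sq`.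
* `inf_key`: apply it in `GN d n`, parameters `tanh β`, `o = 0`, `a = x`, `F ↦ sb (bE n) F` (`F ⊆ bE n`), finite set `B`, and let `n → ∞`: `tp u v = phiB β n false (cn u v) → μ (cn u v)` (`phiB_self`, `fkE_conn`, `GN_cn`,
  `free_tendsto` with `S = ∅`), and `fkE (1[Disjoint ω (sb F)] 1[0 ↔ u]) = phiB β n false (dw F ∩ cn 0 u) → μ (dw F ∩ cn 0 u)`: `1_{dw F} = ∑_{S ⊆ F} (-1)^{|S|} 1_{up S}` and `free_tendsto` for each `S` (as in the proof of `uni`);
  `vF (sb (bE n) F) = enF F` (`vF_sb`).  All sums are finite, the square root is continuous.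
-/

set_option autoImplicit false

open Finset MeasureTheory Filter Topology

namespace H82.IC

theorem key_pointwise0 {V E : Type*} [Fintype E] [DecidableEq E] (Γ : Gr V E) {t : E → ℝ}
    (ht : T01 t) (F : Finset E) {τ : ℝ} (h0 : 0 ≤ τ)
    (h1 : τ < 1) (hF : ∀ e ∈ F, t e = τ) (o a : V) (B : Finset V) (α : V → ℝ) (hα : ∀ u, 0 ≤ α u) :
    |Γ.fkE t (fun ω => ind (Disjoint ω F) * ind (Γ.Conn (ω : Set E) o a)) -
      ∑ u ∈ B, α u * (Γ.fkE t (fun ω => ind (Disjoint ω F) * ind (Γ.Conn (ω : Set E) o u)) *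
        Γ.tp t u a)| ≤
      Real.sqrt (Γ.tp t o a * ((∑ u ∈ B, ∑ v ∈ B, α u * α v * (Γ.tp t u v *
        (Γ.tp t o u * Γ.tp t v a + Γ.tp t o v * Γ.tp t u a))) -
      2 * (∑ u ∈ B, α u * (Γ.tp t o u * Γ.tp t u a)) + Γ.tp t o a)) +
      2 * (∑ u ∈ B, α u * (Γ.tp t o u * ∑ z ∈ Γ.vF F, Γ.tp t u z * Γ.tp t z a)) := by
  classical
  set K : ℝ := CF τ F.card with hK
  have hK0 : 0 ≤ K := CF_nonneg h0 h1 _
  have hK1 : K ≤ 1 := CF_le_one h0 h1 _
  have hz0 : Γ.z t 0 ≠ 0 := by have := one_le_z Γ ht; positivity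
  set X : V → ℝ := fun u =>
    Γ.fkE t (fun ω => ind (Disjoint ω F) * ind (Γ.Conn (ω : Set E) o u)) with hX
  set Er : V → ℝ := fun u => Γ.tp t o u * ∑ z ∈ Γ.vF F, Γ.tp t u z * Γ.tp t z a with hEr
  set N' : Finset E → ℝ := fun ω => ∑ u ∈ B, α u * ind (Γ.Conn ((ω : Set E) \ F) u a) with hN'
  set SN : ℝ := Γ.sg t (src o a) 0 (fun ω => |Γ.NN B α o ω - 1|) with hSN
  set R : V → ℝ := fun u =>
    K * Γ.sgF F t (src o u) (src u a) (fun ω => ind (¬ Γ.Conn ((ω : Set E) \ F) u a)) with hR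
  -- (1)
  have s1 : X a = K * Γ.sgF F t (src o a) 0 (fun _ => 1) := by
    rw [hK, sgF_one Γ ht F h0 h1 hF o a 0, div_self hz0, mul_one]
  -- (2)
  have s2 : |K * Γ.sgF F t (src o a) 0 (fun ω => 1 - N' ω)| ≤ SN + ∑ u ∈ B, α u * Er u := by
    rw [abs_mul, abs_of_nonneg hK0]
    have a1 := sgF_abs Γ ht F (src o a) 0 (fun ω => 1 - N' ω)
    have a2 := KEY2_loss Γ ht F o a B α hα
    have a3 : 0 ≤ |Γ.sgF F t (src o a) 0 (fun ω => 1 - N' ω)| := abs_nonneg _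
    calc K * |Γ.sgF F t (src o a) 0 (fun ω => 1 - N' ω)|
        ≤ 1 * |Γ.sgF F t (src o a) 0 (fun ω => 1 - N' ω)| :=
          mul_le_mul_of_nonneg_right hK1 a3
      _ = |Γ.sgF F t (src o a) 0 (fun ω => 1 - N' ω)| := one_mul _
      _ ≤ _ := a1.trans a2
  have s2b : K * Γ.sgF F t (src o a) 0 (fun ω => 1 - N' ω) =
      X a - K * Γ.sgF F t (src o a) 0 N' := by
    rw [sgF_sub, mul_sub, ← s1]
  -- (3)
  have s3 : K * Γ.sgF F t (src o a) 0 N' = ∑ u ∈ B, α u * (X u * Γ.tp t u a - R u) := by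
    rw [hN', sgF_sum, Finset.mul_sum]
    apply Finset.sum_congr rfl
    intro u _
    rw [sgF_smul, sgF_G]
    have hG : Γ.sgF F t (src o u) (src u a) (fun ω => ind (Γ.Conn ((ω : Set E) \ F) u a)) =
        Γ.sgF F t (src o u) (src u a) (fun _ => 1) -
        Γ.sgF F t (src o u) (src u a) (fun ω => ind (¬ Γ.Conn ((ω : Set E) \ F) u a)) := by
      rw [← sgF_sub]
      congr 1
      funext ω
      rw [KEY2_ind_not]; ring
    have hone := sgF_one Γ ht F h0 h1 hF o u (src u a)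
    rw [hG]
    have hone' : K * Γ.sgF F t (src o u) (src u a) (fun _ => 1) = X u * Γ.tp t u a := hone
    simp only [hR]
    rw [← hone']
    ring
  have s3b : ∀ u, |R u| ≤ Er u := by
    intro u
    simp only [hR]
    rw [abs_mul, abs_of_nonneg hK0]
    have a1 := sgF_abs Γ ht F (src o u) (src u a)
      (fun ω => ind (¬ Γ.Conn ((ω : Set E) \ F) u a))
    have a2 : Γ.sg t (src o u) (src u a)
        (fun ω => |ind (¬ Γ.Conn ((ω : Set E) \ F) u a)|) =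
        Γ.sg t (src o u) (src u a) (fun ω => ind (¬ Γ.Conn ((ω : Set E) \ F) u a)) := by
      congr 1
      funext ω
      exact abs_of_nonneg (KEY2_ind_nonneg _)
    rw [a2] at a1
    have a3 := notG_bound Γ ht F o a u
    calc K * |Γ.sgF F t (src o u) (src u a) (fun ω => ind (¬ Γ.Conn ((ω : Set E) \ F) u a))|
        ≤ 1 * |Γ.sgF F t (src o u) (src u a)
            (fun ω => ind (¬ Γ.Conn ((ω : Set E) \ F) u a))| :=
          mul_le_mul_of_nonneg_right hK1 (abs_nonneg _)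
      _ = |Γ.sgF F t (src o u) (src u a)
            (fun ω => ind (¬ Γ.Conn ((ω : Set E) \ F) u a))| := one_mul _
      _ ≤ _ := a1.trans a3
  -- the variance
  have s5 : SN ≤ Real.sqrt (Γ.tp t o a * ((∑ u ∈ B, ∑ v ∈ B, α u * α v * (Γ.tp t u v *
        (Γ.tp t o u * Γ.tp t v a + Γ.tp t o v * Γ.tp t u a))) -
      2 * (∑ u ∈ B, α u * (Γ.tp t o u * Γ.tp t u a)) + Γ.tp t o a)) := by
    have c1 := sg_cs Γ ht o a (fun ω => Γ.NN B α o ω - 1)
    have c2 := mul_le_mul_of_nonneg_left (sg_NN_sq Γ ht o a B α hα) (tp_nonneg Γ ht o a)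
    exact (le_abs_self _).trans (Real.abs_le_sqrt (c1.trans c2))
  -- assembly
  have key : X a - ∑ u ∈ B, α u * (X u * Γ.tp t u a) =
      K * Γ.sgF F t (src o a) 0 (fun ω => 1 - N' ω) - ∑ u ∈ B, α u * R u := by
    rw [s2b, s3]
    have e1 : ∑ u ∈ B, α u * (X u * Γ.tp t u a - R u) =
        ∑ u ∈ B, α u * (X u * Γ.tp t u a) - ∑ u ∈ B, α u * R u := by
      rw [← Finset.sum_sub_distrib]
      exact Finset.sum_congr rfl (fun u _ => by ring)
    rw [e1]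
    ring
  have b2 : |∑ u ∈ B, α u * R u| ≤ ∑ u ∈ B, α u * Er u := by
    refine (Finset.abs_sum_le_sum_abs _ _).trans (Finset.sum_le_sum ?_)
    intro u _
    rw [abs_mul, abs_of_nonneg (hα u)]
    exact mul_le_mul_of_nonneg_left (s3b u) (hα u)
  have hfin : |X a - ∑ u ∈ B, α u * (X u * Γ.tp t u a)| ≤
      (SN + ∑ u ∈ B, α u * Er u) + ∑ u ∈ B, α u * Er u := by
    rw [key]
    have t2 := abs_sub (K * Γ.sgF F t (src o a) 0 (fun ω => 1 - N' ω)) (∑ u ∈ B, α u * R u)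
    linarith
  calc |X a - ∑ u ∈ B, α u * (X u * Γ.tp t u a)| ≤ _ := hfin
    _ ≤ _ := by linarith

end H82.IC
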