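import Pool.Agent.H82.IC.DT1
import Pool.Agent.H82.IC.HO

/-!
# LS: Lieb-Simon inequality

`D : Set V`, `o ∈ D`, `y ∉ D`, `Dd : Finset V` contains every `x ∈ D` adjacent (in the full graph) to a vertex outside `D`.  `t' = off (ins D)ᶜ t` (only the edges inside `D`).
Then `tp t o y ≤ ∑_{x ∈ Dd} tp t' o x * tp t x y`.

Proof.  Let `K` = the finset of the edges in `ins D`; weights `wMX K t` (first flow only on `K`).  Marginal over `b`: `hp t' e a.1 * hp t e a.2` (on `K`: as for `wDT`; off `K`, `t' e = 0`: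
`a = (0,0)`: `1`; `(0,1)`: `t e`; `a.1 = 1`: `0`).  So `trc (wMX K t) (pr S T) 1 = z t' S * z t T` (`trc_pm2`).
With sources `(0, src o y)`: the second flow has boundary `src o y`, and for nonzero weight its support is in `ω` (`wMX .. a false = 0` for `a ≠ 0`), so `o ↔ y` in `ω` (`conn_of_flow`);
`conn_exit` gives `x ∈ Dd` with `o ↔ x` in `ω ∩ ins D`.  Hence (`trc_congr_supp`, `trc_mono`)
 `z t' 0 * z t (src o y) ≤ ∑_{x ∈ Dd} trc (wMX K t) (pr 0 (src o y)) 1[o ↔ x in ω ∩ ins D]`, and by `trc_switch` (`g e = (c e, c e)`, `c` a flow from `o` to `x` supported in `ω ∩ ins D`;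
 on `K` the weight is `wDT`, invariant under `+ (1,1)` when open) each term equals
 `trc (wMX K t) (pr (src o x) (src o y + src o x)) 1[..] ≤ trc (wMX K t) (pr (src o x) (src x y)) 1 = z t' (src o x) * z t (src x y)`.  Divide by `z t' 0 * z t 0`.
-/

set_option autoImplicit false

open Finset

namespace H82.IC

variable {V E : Type*} [Fintype E] [DecidableEq E]

theorem wMX_nonneg {t : E → ℝ} (ht : T01 t) (K : Finset E) (e : E) (a : ZMod 2 × ZMod 2) (b : Bool) :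
    0 ≤ wMX K t e a b := by
  unfold wMX
  split_ifs
  · exact wDT_nonneg ht e a b
  all_goals first | exact le_rfl | exact (ht e).1 | exact zero_le_one

theorem LS_closed (t : E → ℝ) (K : Finset E) (e : E) (a : ZMod 2 × ZMod 2) (ha : a ≠ 0) :
    wMX K t e a false = 0 := by
  unfold wMX
  split_ifs with h1 h2 h3 h4 h5
  · exact wDT_closed t e a ha
  all_goals first | rfl | (exfalso; exact ha (Prod.ext h2 (by assumption))) | skip
  all_goals simp_all

theorem LS_z2 (a : ZMod 2) : a = 0 ∨ a = 1 := by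
  revert a
  decide

theorem LS_marg (t : E → ℝ) (K : Finset E) (t' : E → ℝ) (h1 : ∀ e ∈ K, t' e = t e)
    (h0 : ∀ e, e ∉ K → t' e = 0) (e : E) (a : ZMod 2 × ZMod 2) :
    wMX K t e a true + wMX K t e a false = hp t' e a.1 * hp t e a.2 := by
  obtain ⟨a1, a2⟩ := a
  unfold wMX hp
  by_cases he : e ∈ K
  · simp only [he, if_true, h1 e he]
    unfold wDT
    rcases LS_z2 a1 with rfl | rfl <;> rcases LS_z2 a2 with rfl | rfl <;> simp <;> ring
  · simp only [he, if_false, h0 e he]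
    rcases LS_z2 a1 with rfl | rfl <;> rcases LS_z2 a2 with rfl | rfl <;> simp

theorem LS_switch (Γ : Gr V E) (t : E → ℝ) (D : Set V) (K : Finset E)
    (hK : ∀ e, e ∈ K ↔ e ∈ Γ.ins D) (o x y : V) :
    Γ.trc (wMX K t) (pr 0 (src o y)) (fun ω => ind (Γ.Conn ((ω : Set E) ∩ Γ.ins D) o x)) =
      Γ.trc (wMX K t) (pr (src o x) (src x y))
        (fun ω => ind (Γ.Conn ((ω : Set E) ∩ Γ.ins D) o x)) := by
  rw [trc_switch Γ (wMX K t) (pr 0 (src o y)) (pr (src o x) (src o x))]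
  · rw [pr_add, zero_add, add_comm (src o y) (src o x), src_comm o x, src_add]
  · intro ω hω
    have hc : Γ.Conn ((ω : Set E) ∩ Γ.ins D) o x := by
      by_contra hcon
      exact hω (ind_false hcon)
    obtain ⟨c, hcb, hcs⟩ := exists_flow Γ hc
    refine ⟨fun e => (c e, c e), ?_, ?_⟩
    · rw [bd_pr]
      have : (fun e => c e) = c := rfl
      simp only [this, hcb]
    · intro e he
      have hce : c e ≠ 0 := by
        intro h0
        apply he
        simp only [h0]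
        rfl
      have hm := hcs e hce
      refine ⟨hm.1, ?_⟩
      intro a
      have heK : e ∈ K := (hK e).2 hm.2
      have h1 : c e = 1 := (LS_z2 (c e)).resolve_left hce
      unfold wMX wDT
      simp only [heK, if_true, h1]
      have : (a + (1, 1) : ZMod 2 × ZMod 2).1 = (a + (1, 1) : ZMod 2 × ZMod 2).2 ↔ a.1 = a.2 := by
        simp
      simp only [this]

theorem LS_main (Γ : Gr V E) {t : E → ℝ} (ht : T01 t) (D : Set V) (Dd : Finset V) {o y : V}
    (ho : o ∈ D) (hy : y ∉ D)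
    (hD : ∀ x ∈ D, ∀ e, (Γ.s e = x ∧ Γ.r e ∉ D ∨ Γ.r e = x ∧ Γ.s e ∉ D) → x ∈ Dd) :
    Γ.z (off (Γ.ins D)ᶜ t) 0 * Γ.z t (src o y) ≤
      ∑ x ∈ Dd, Γ.z (off (Γ.ins D)ᶜ t) (src o x) * Γ.z t (src x y) := by
  classical
  obtain ⟨K, hK⟩ : ∃ K : Finset E, ∀ e, e ∈ K ↔ e ∈ Γ.ins D :=
    ⟨Finset.univ.filter (· ∈ Γ.ins D), fun e => by simp⟩
  have hm : ∀ e a, wMX K t e a true + wMX K t e a false =
      hp (off (Γ.ins D)ᶜ t) e a.1 * hp t e a.2 := by
    apply LS_marg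
    · intro e he
      have := (hK e).1 he
      unfold off
      have hmem : e ∉ (Γ.ins D)ᶜ := fun h => h this
      rw [if_neg hmem]
    · intro e he
      unfold off
      have hmem : e ∈ (Γ.ins D)ᶜ := fun h => he ((hK e).2 h)
      rw [if_pos hmem]
  have hone : ∀ S T : V → ZMod 2, Γ.trc (wMX K t) (pr S T) (fun _ => 1) =
      Γ.z (off (Γ.ins D)ᶜ t) S * Γ.z t T := fun S T => trc_pm2 Γ _ _ _ hm S T
  have hnn : ∀ e a b, 0 ≤ wMX K t e a b := wMX_nonneg ht K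
  rw [← hone]
  have h1 : Γ.trc (wMX K t) (pr 0 (src o y)) (fun _ => 1) =
      Γ.trc (wMX K t) (pr 0 (src o y))
        (fun ω => ind (∃ x ∈ Dd, Γ.Conn ((ω : Set E) ∩ Γ.ins D) o x)) := by
    apply trc_congr_supp Γ _ (LS_closed t K)
    intro ω η hη hs
    rw [ind_true]
    rw [bd_pr, pr_inj] at hη
    have hconn : Γ.Conn (ω : Set E) o y := by
      apply conn_of_flow Γ hη.2
      intro e he
      apply hs
      intro h0
      apply he
      rw [h0]
      rfl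
    obtain ⟨x, hx, y', hy', hadj, hcx⟩ := conn_exit Γ hconn ho hy
    refine ⟨x, ?_, hcx⟩
    obtain ⟨e, -, he⟩ := hadj
    apply hD x hx e
    rcases he with ⟨h1, h2⟩ | ⟨h1, h2⟩
    · exact Or.inl ⟨h1, by rw [h2]; exact hy'⟩
    · exact Or.inr ⟨h2, by rw [h1]; exact hy'⟩
  rw [h1]
  calc Γ.trc (wMX K t) (pr 0 (src o y))
        (fun ω => ind (∃ x ∈ Dd, Γ.Conn ((ω : Set E) ∩ Γ.ins D) o x))
      ≤ Γ.trc (wMX K t) (pr 0 (src o y))
        (fun ω => ∑ x ∈ Dd, ind (Γ.Conn ((ω : Set E) ∩ Γ.ins D) o x)) := by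
        apply trc_mono Γ _ hnn
        intro ω
        by_cases hex : ∃ x ∈ Dd, Γ.Conn ((ω : Set E) ∩ Γ.ins D) o x
        · rw [ind_true hex]
          obtain ⟨x, hx, hcx⟩ := hex
          calc (1 : ℝ) = ind (Γ.Conn ((ω : Set E) ∩ Γ.ins D) o x) := (ind_true hcx).symm
            _ ≤ _ := Finset.single_le_sum
              (f := fun x => ind (Γ.Conn ((ω : Set E) ∩ Γ.ins D) o x))
              (fun i _ => ind_nonneg _) hx
        · rw [ind_false hex]
          exact Finset.sum_nonneg fun i _ => ind_nonneg _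
    _ = ∑ x ∈ Dd, Γ.trc (wMX K t) (pr 0 (src o y))
        (fun ω => ind (Γ.Conn ((ω : Set E) ∩ Γ.ins D) o x)) :=
        trc_sum Γ _ _ Dd (fun x ω => ind (Γ.Conn ((ω : Set E) ∩ Γ.ins D) o x))
    _ ≤ ∑ x ∈ Dd, Γ.z (off (Γ.ins D)ᶜ t) (src o x) * Γ.z t (src x y) := by
        apply Finset.sum_le_sum
        intro x _
        rw [LS_switch Γ t D K hK, ← hone]
        exact trc_mono Γ _ hnn _ fun ω => ind_le_one _

theorem lieb_simon (Γ : Gr V E) {t : E → ℝ} (ht : T01 t) (D : Set V) (Dd : Finset V) {o y : V}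
    (ho : o ∈ D) (hy : y ∉ D)
    (hD : ∀ x ∈ D, ∀ e, (Γ.s e = x ∧ Γ.r e ∉ D ∨ Γ.r e = x ∧ Γ.s e ∉ D) → x ∈ Dd) :
    Γ.tp t o y ≤ ∑ x ∈ Dd, Γ.tp (off (Γ.ins D)ᶜ t) o x * Γ.tp t x y := by
  have h := LS_main Γ ht D Dd ho hy hD
  have z1 : 0 < Γ.z t 0 := lt_of_lt_of_le one_pos (one_le_z Γ ht)
  have z2 : 0 < Γ.z (off (Γ.ins D)ᶜ t) 0 :=
    lt_of_lt_of_le one_pos (one_le_z Γ (T01_off ht _))
  unfold Gr.tp
  have e : ∑ x ∈ Dd, Γ.z (off (Γ.ins D)ᶜ t) (src o x) / Γ.z (off (Γ.ins D)ᶜ t) 0 *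
      (Γ.z t (src x y) / Γ.z t 0) =
      (∑ x ∈ Dd, Γ.z (off (Γ.ins D)ᶜ t) (src o x) * Γ.z t (src x y)) /
        (Γ.z (off (Γ.ins D)ᶜ t) 0 * Γ.z t 0) := by
    rw [Finset.sum_div]
    exact Finset.sum_congr rfl fun x _ => by rw [div_mul_div_comm]
  rw [e, div_le_div_iff₀ z1 (mul_pos z2 z1)]
  calc Γ.z t (src o y) * (Γ.z (off (Γ.ins D)ᶜ t) 0 * Γ.z t 0) =
      (Γ.z (off (Γ.ins D)ᶜ t) 0 * Γ.z t (src o y)) * Γ.z t 0 := by ring
    _ ≤ _ := mul_le_mul_of_nonneg_right h z1.le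

end H82.IC
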