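import Pool.Agent.H82.IC.MIXA

/-!
# MIX: the mixing statement, part B (only `mixing` in this file; `mix_limit` is in MIXA)

Notation: `G x = μ (cn 0 x)`, `0 ≤ G ≤ 1`, `G x ≤ μ (arm (nm x) 0) → 0` (`cn_sub_arm`, `tendsto_arm`, `hp`), `μ (cn u v) = G (v - u)` (`G_shift`), `c` with `μ (dw F ∩ cn 0 x) / G x → c`, `G x > 0` (`G_pos`).

Part A (`mix_limit`): the bracket at the limit.  Let `c1 = 1 + |c|`.  Given `κ > 0`, `K ≥ 0`: choose `ρ > 1`, `δ ∈ (0, 1/2)`, `T ≥ 1` with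
   `2 ρ ((1/2)(1+5δ) + 2*4^(d+1)/T) - 2 + 1 ≤ (κ/(8 c1))²`   (the left side tends to `0` as `ρ → 1, δ → 0, T → ∞`),
 then `l0` so large that for `nm x ≥ l0`: `|μ (dw F ∩ cn 0 x) - c G x| ≤ (κ/8) G x`, and `2 ρ K |enF F| G y ≤ κ/8` for all `y` with `nm y + r ≥ l0` (`r` = max of `nm` on `enF F`), then the scales by
 `scales` (`Sca`).  With `be = beS G l L S`, `Bs = BsS d l L S`, `|S| = T` (`S ⊆ range (2T)`):
   `√(2ρ ∑∑ be u be v G(v-u) G u - 2 ∑ be u G u + 1) ≤ κ/(8 c1)` (`beS_double`, `beS_sum`),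
   `2ρK ∑ be u G u ∑_{z ∈ enF F} G(z-u) ≤ κ/8`, `∑ be u |μ (dw F ∩ cn 0 u) - c G u| ≤ κ/8`.
Part B (`mixing`): for each of the finitely many `S ⊆ range (2T)` the bracket of `DDd_main` with `δ u := |μ (dw F ∩ cn 0 u) - c G u| + (1 + |c|) ε'` converges, as `m → ∞`, to the bracket at the limit
 (+ `(1+|c|) ε' ∑ be u`): finite sums, `wired_tendsto`, `free_tendsto` (with `up ∅ = univ`), continuity of the square root; `hδ` of `DDd_main` for `m ≥ m0`, all `N ≥ m + 1`, `η`: by `uni` for `F` and for `∅`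
 (`dw ∅ = univ`, `fkE_conn`): `|fkE - μ (dw F ∩ cn 0 u)| ≤ ε'`, `|tp - G u| ≤ ε'`.  So for `m ≥ m0` the bracket is `≤ κ`.
-/

set_option autoImplicit false

open Finset MeasureTheory Filter Topology

namespace H82.IC

variable {d : ℕ}

theorem MIX_tprod {μ : Measure (Cf d)} {β : ℝ}
    (hw : ∀ x y : Vx d, Tendsto (fun m => phiB β m true (cn x y)) atTop (𝓝 (μ.real (cn x y))))
    (hf : ∀ x y : Vx d, Tendsto (fun m => phiB β m false (cn x y)) atTop (𝓝 (μ.real (cn x y))))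
    (c1 ρ K : ℝ) (B E : Finset (Vx d)) (be : Vx d → ℝ) :
    Tendsto (fun m => c1 * Real.sqrt (2 * ρ * (∑ u ∈ B, ∑ v ∈ B, be u * be v *
            (phiB β m true (cn u v) * phiB β m true (cn (0 : Vx d) u))) -
          2 * (∑ u ∈ B, be u * phiB β m false (cn (0 : Vx d) u)) + 1) +
        2 * ρ * K * (∑ u ∈ B, be u * (phiB β m true (cn (0 : Vx d) u) *
          ∑ z ∈ E, phiB β m true (cn u z)))) atTop
      (𝓝 (c1 * Real.sqrt (2 * ρ * (∑ u ∈ B, ∑ v ∈ B, be u * be v *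
            (μ.real (cn u v) * μ.real (cn (0 : Vx d) u))) -
          2 * (∑ u ∈ B, be u * μ.real (cn (0 : Vx d) u)) + 1) +
        2 * ρ * K * (∑ u ∈ B, be u * (μ.real (cn (0 : Vx d) u) *
          ∑ z ∈ E, μ.real (cn u z))))) := by
  have h1 : Tendsto (fun m => ∑ u ∈ B, ∑ v ∈ B, be u * be v *
            (phiB β m true (cn u v) * phiB β m true (cn (0 : Vx d) u))) atTop
      (𝓝 (∑ u ∈ B, ∑ v ∈ B, be u * be v *
            (μ.real (cn u v) * μ.real (cn (0 : Vx d) u)))) :=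
    tendsto_finsetSum _ fun u _ => tendsto_finsetSum _ fun v _ =>
      ((hw u v).mul (hw 0 u)).const_mul _
  have h2 : Tendsto (fun m => ∑ u ∈ B, be u * phiB β m false (cn (0 : Vx d) u)) atTop
      (𝓝 (∑ u ∈ B, be u * μ.real (cn (0 : Vx d) u))) :=
    tendsto_finsetSum _ fun u _ => (hf 0 u).const_mul _
  have h3 : Tendsto (fun m => ∑ u ∈ B, be u * (phiB β m true (cn (0 : Vx d) u) *
          ∑ z ∈ E, phiB β m true (cn u z))) atTop
      (𝓝 (∑ u ∈ B, be u * (μ.real (cn (0 : Vx d) u) * ∑ z ∈ E, μ.real (cn u z)))) :=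
    tendsto_finsetSum _ fun u _ =>
      ((hw 0 u).mul (tendsto_finsetSum _ fun z _ => hw u z)).const_mul _
  refine Tendsto.add ?_ (h3.const_mul _)
  refine Tendsto.const_mul _ ?_
  refine (Real.continuous_sqrt.tendsto _).comp ?_
  exact ((h1.const_mul _).sub (h2.const_mul _)).add tendsto_const_nhds

theorem MIX_Lmono {l L : ℕ → ℕ} (h1 : ∀ t, l t < L t) (h2 : ∀ t, L t ≤ l (t + 1)) {s t : ℕ}
    (h : s ≤ t) : L s ≤ L t := by
  have : Monotone L := monotone_nat_of_le_succ fun n => ((h2 n).trans (h1 (n + 1)).le)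
  exact this h

theorem MIX_sub (F : Finset (Ed d)) : ∃ m0, ∀ m, m0 ≤ m → F ⊆ bE d m := by
  obtain ⟨n, hn⟩ := exists_bE F
  exact ⟨n, fun m hm => hn.trans (bE_mono hm)⟩

/-- Part B. -/
theorem mixing (hd : 2 ≤ d) {β : ℝ} (hβ : 0 < β) {μ : Measure (Cf d)}
    (hμ : IsLim β false μ) (hμ' : IsLim β true μ) (hp : μ.real (perc d) = 0)
    (hχ : ¬ Summable (fun x : Vx d => μ.real (cn 0 x))) (F : Finset (Ed d)) (c : ℝ)
    (hc : Tendsto (fun x : Vx d => μ.real (dw F ∩ cn 0 x) / μ.real (cn 0 x)) cofinite (𝓝 c))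
    (κ K : ℝ) (hκ : 0 < κ) (hK : 0 ≤ K) :
    ∃ ρ : ℝ, 1 < ρ ∧ ∃ T : ℕ, 1 ≤ T ∧ ∀ J : ℕ, ∃ l L : ℕ → ℕ,
      (∀ t, l t < L t) ∧ (∀ t, L t ≤ l (t + 1)) ∧ (∀ t, J * L t ≤ l (t + 1)) ∧
      ∃ m0 : ℕ, ∀ m, m0 ≤ m → F ⊆ bE d m ∧ L (2 * T) ≤ m ∧ ∀ N, m + 1 ≤ N → ∀ n : ℕ,
        ∀ S ⊆ Finset.range (2 * T), S.card = T →
        (∀ t ∈ S, ∀ u : Vx d, l t < nm u → nm u ≤ L t → MMd d β m n N 0 ≤ ρ * MMd d β m n N u) →
        (∀ z ∈ enF F, MMd d β m n N z ≤ K * MMd d β m n N 0) →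
        DDd d β m n N F c ≤ κ * MMd d β m n N 0 := by
  classical
  obtain ⟨ρ, hρ, T, hT, hmix⟩ := mix_limit hd hβ hμ hμ' hp hχ F c hc κ K hκ hK
  refine ⟨ρ, hρ, T, hT, fun J => ?_⟩
  obtain ⟨l, L, δ, hδ, hδ1, -, hJ, hS, hbr⟩ := hmix J 0
  refine ⟨l, L, hS.lt, hS.le, hJ, ?_⟩
  have hw : ∀ x y : Vx d, Tendsto (fun m => phiB β m true (cn x y)) atTop (𝓝 (μ.real (cn x y))) := by
    intro x y
    have h := wired_tendsto hd hβ.le hμ hμ' hp ∅ x y
    have hu : (up (∅ : Finset (Ed d)) : Set (Cf d)) = Set.univ := by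
      ext ω; simp [up]
    simpa only [hu, Set.inter_univ] using h
  have hf : ∀ x y : Vx d, Tendsto (fun m => phiB β m false (cn x y)) atTop (𝓝 (μ.real (cn x y))) := by
    intro x y
    have h := free_tendsto hd hβ.le hμ ∅ x y
    have hu : (up (∅ : Finset (Ed d)) : Set (Cf d)) = Set.univ := by
      ext ω; simp [up]
    simpa only [hu, Set.inter_univ] using h
  have hG0 : ∀ x : Vx d, 0 ≤ μ.real (cn 0 x) := fun x => measureReal_nonneg
  have hbe0 : ∀ S u, 0 ≤ beS (fun x : Vx d => μ.real (cn 0 x)) l L S u := fun S u =>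
    beS_nonneg _ hG0 hδ hδ1 hS S u
  set be := beS (fun x : Vx d => μ.real (cn 0 x)) l L with hbe
  have hc1 : 0 < 1 + |c| := by positivity
  -- the family of sets
  set P := Finset.powersetCard T (Finset.range (2 * T)) with hP
  have hPm : ∀ S, S ∈ P ↔ S ⊆ Finset.range (2 * T) ∧ S.card = T := fun S =>
    Finset.mem_powersetCard
  set BB : ℝ := ∑ S ∈ P, ∑ u ∈ BsS d l L S, be S u with hBB
  have hBB0 : 0 ≤ BB := Finset.sum_nonneg fun S _ => Finset.sum_nonneg fun u _ => hbe0 S u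
  have hBS : ∀ S ∈ P, ∑ u ∈ BsS d l L S, be S u ≤ BB := fun S h =>
    Finset.single_le_sum (f := fun S => ∑ u ∈ BsS d l L S, be S u)
      (fun S _ => Finset.sum_nonneg fun u _ => hbe0 S u) h
  set ε : ℝ := κ / (4 * (1 + |c|) * (BB + 1)) with hε
  have hε0 : 0 < ε := by positivity
  have hεB : (1 + |c|) * ε * (BB + 1) = κ / 4 := by
    rw [hε]; field_simp
  -- finite union of the annuli
  set U := P.biUnion (BsS d l L) with hU
  have e1 : ∀ u ∈ U, ∃ m0, ∀ m, m0 ≤ m → ∀ N, m + 1 ≤ N → ∀ η : Finset ↥(bE d N),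
      η ⊆ E1 d m N →
      |(GN d N).fkE (setT (E1 d m N) η (fun _ => Real.tanh β))
        (fun ω => ind (Disjoint ω (sb (bE d N) F)) * ind ((GN d N).Conn (ω : Set ↥(bE d N)) 0 u)) -
        c * (GN d N).tp (setT (E1 d m N) η (fun _ => Real.tanh β)) 0 u| ≤
        |μ.real (dw F ∩ cn 0 u) - c * μ.real (cn (0 : Vx d) u)| + (1 + |c|) * ε := by
    intro u _
    obtain ⟨m1, h1⟩ := uni hd hβ.le hμ hμ' hp F 0 u ε hε0
    obtain ⟨m2, h2⟩ := uni hd hβ.le hμ hμ' hp ∅ 0 u ε hε0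
    refine ⟨max m1 m2, fun m hm N hN η hη => ?_⟩
    have a1 := h1 m ((le_max_left _ _).trans hm) N hN η hη
    have a2 := h2 m ((le_max_right _ _).trans hm) N hN η hη
    have hd0 : (dw (∅ : Finset (Ed d)) : Set (Cf d)) = Set.univ := by
      ext ω; simp [dw]
    have hs0 : sb (bE d N) (∅ : Finset (Ed d)) = ∅ := by
      unfold sb; simp
    rw [hd0, Set.univ_inter, hs0] at a2
    have hfk : (GN d N).fkE (setT (E1 d m N) η (fun _ => Real.tanh β))
        (fun ω => ind (Disjoint ω ∅) * ind ((GN d N).Conn (ω : Set ↥(bE d N)) 0 u)) =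
        (GN d N).tp (setT (E1 d m N) η (fun _ => Real.tanh β)) 0 u := by
      rw [← fkE_conn]
      congr 1
      funext ω
      simp [ind]
    rw [hfk] at a2
    set A := (GN d N).fkE (setT (E1 d m N) η (fun _ => Real.tanh β))
        (fun ω => ind (Disjoint ω (sb (bE d N) F)) * ind ((GN d N).Conn (ω : Set ↥(bE d N)) 0 u))
    set Q := (GN d N).tp (setT (E1 d m N) η (fun _ => Real.tanh β)) 0 u
    have a3 : A - c * Q = (A - μ.real (dw F ∩ cn 0 u)) +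
        (μ.real (dw F ∩ cn 0 u) - c * μ.real (cn (0 : Vx d) u)) +
        (-c) * (Q - μ.real (cn (0 : Vx d) u)) := by ring
    rw [a3]
    refine (abs_add_three _ _ _).trans ?_
    rw [abs_mul, abs_neg]
    have a4 : |c| * |Q - μ.real (cn (0 : Vx d) u)| ≤ |c| * ε :=
      mul_le_mul_of_nonneg_left a2 (abs_nonneg _)
    linarith
  have e1' : ∃ m0, ∀ m, m0 ≤ m → ∀ u ∈ U, ∀ N, m + 1 ≤ N → ∀ η : Finset ↥(bE d N),
      η ⊆ E1 d m N →
      |(GN d N).fkE (setT (E1 d m N) η (fun _ => Real.tanh β))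
        (fun ω => ind (Disjoint ω (sb (bE d N) F)) * ind ((GN d N).Conn (ω : Set ↥(bE d N)) 0 u)) -
        c * (GN d N).tp (setT (E1 d m N) η (fun _ => Real.tanh β)) 0 u| ≤
        |μ.real (dw F ∩ cn 0 u) - c * μ.real (cn (0 : Vx d) u)| + (1 + |c|) * ε := by
    choose! g hg using e1
    exact ⟨U.sup g, fun m hm u hu N hN η hη => hg u hu m ((Finset.le_sup hu).trans hm) N hN η hη⟩
  have e2 : ∀ S ∈ P, ∃ m0, ∀ m, m0 ≤ m →
      (1 + |c|) * Real.sqrt (2 * ρ * (∑ u ∈ BsS d l L S, ∑ v ∈ BsS d l L S, be S u * be S v *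
            (phiB β m true (cn u v) * phiB β m true (cn (0 : Vx d) u))) -
          2 * (∑ u ∈ BsS d l L S, be S u * phiB β m false (cn (0 : Vx d) u)) + 1) +
        2 * ρ * K * (∑ u ∈ BsS d l L S, be S u * (phiB β m true (cn (0 : Vx d) u) *
          ∑ z ∈ enF F, phiB β m true (cn u z))) ≤
      (1 + |c|) * Real.sqrt (2 * ρ * (∑ u ∈ BsS d l L S, ∑ v ∈ BsS d l L S, be S u * be S v *
            (μ.real (cn u v) * μ.real (cn (0 : Vx d) u))) -
          2 * (∑ u ∈ BsS d l L S, be S u * μ.real (cn (0 : Vx d) u)) + 1) +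
        2 * ρ * K * (∑ u ∈ BsS d l L S, be S u * (μ.real (cn (0 : Vx d) u) *
          ∑ z ∈ enF F, μ.real (cn u z))) + κ / 4 := by
    intro S _
    have h := MIX_tprod hw hf (1 + |c|) ρ K (BsS d l L S) (enF F) (be S)
    have h4 : (0 : ℝ) < κ / 4 := by positivity
    have h' := h.eventually (eventually_le_nhds (lt_add_of_pos_right _ h4))
    obtain ⟨m0, hm0⟩ := eventually_atTop.1 h'
    exact ⟨m0, fun m hm => hm0 m hm⟩
  choose! g2 hg2 using e2
  obtain ⟨m1, hm1⟩ := e1'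
  obtain ⟨m3, hm3⟩ := MIX_sub F
  refine ⟨max (max m1 (P.sup g2)) (max m3 (L (2 * T))), fun m hm => ?_⟩
  have hmm1 : m1 ≤ m := ((le_max_left _ _).trans (le_max_left _ _)).trans hm
  have hmm2 : P.sup g2 ≤ m := ((le_max_right _ _).trans (le_max_left _ _)).trans hm
  have hmm3 : m3 ≤ m := ((le_max_left _ _).trans (le_max_right _ _)).trans hm
  have hmm4 : L (2 * T) ≤ m := ((le_max_right _ _).trans (le_max_right _ _)).trans hm
  refine ⟨hm3 m hmm3, hmm4, fun N hN n S hSs hSc hM hKK => ?_⟩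
  have hSP : S ∈ P := (hPm S).2 ⟨hSs, hSc⟩
  have hBs : BsS d l L S ⊆ bx d m := by
    intro u hu
    obtain ⟨t, ht, -, h2⟩ := (mem_BsS l L S u).1 hu
    have h3 : t < 2 * T := Finset.mem_range.1 (hSs ht)
    exact mem_bx.2 (h2.trans ((MIX_Lmono hS.lt hS.le h3.le).trans hmm4))
  have hM0 : 0 ≤ MMd d β m n N 0 := by
    have h0 : nm (0 : Vx d) ≤ m := by simp [nm]
    exact (MMd_bounds hβ.le (n := n) (by omega : m ≤ N) h0).1
  have hmain := DDd_main hd hβ.le (n := n) hN (hm3 m hmm3) c (BsS d l L S) hBs (be S) (hbe0 S)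
    (fun u => |μ.real (dw F ∩ cn 0 u) - c * μ.real (cn (0 : Vx d) u)| + (1 + |c|) * ε)
    (fun η hη u hu => hm1 m hmm1 u (Finset.mem_biUnion.2 ⟨S, hSP, hu⟩) N hN η hη)
    ρ K (by linarith) hK
    (fun u hu => by
      obtain ⟨t, ht, h1, h2⟩ := (mem_BsS l L S u).1 hu
      exact hM t ht u h1 h2) hKK
  refine hmain.trans ?_
  rw [mul_comm κ]
  refine mul_le_mul_of_nonneg_left ?_ hM0
  have b1 := hg2 S hSP m ((Finset.le_sup hSP).trans hmm2)
  have b2 := hbr S hSs hSc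
  have b3 : ∑ u ∈ BsS d l L S, be S u *
      (|μ.real (dw F ∩ cn 0 u) - c * μ.real (cn (0 : Vx d) u)| + (1 + |c|) * ε) =
      ∑ u ∈ BsS d l L S, be S u * |μ.real (dw F ∩ cn 0 u) - c * μ.real (cn (0 : Vx d) u)| +
      (1 + |c|) * ε * ∑ u ∈ BsS d l L S, be S u := by
    rw [Finset.mul_sum, ← Finset.sum_add_distrib]
    exact Finset.sum_congr rfl fun u _ => by ring
  have b4 : (1 + |c|) * ε * ∑ u ∈ BsS d l L S, be S u ≤ κ / 4 := by
    rw [← hεB]
    exact mul_le_mul_of_nonneg_left ((hBS S hSP).trans (by linarith)) (by positivity)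
  rw [b3]
  linarith

end H82.IC
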