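import Pool.Agent.H82.IC.SC

/-!
# VB: the variance sums at the limit

`An t = bx (L t) \ bx (l t)` (annuli, pairwise disjoint since `L t ≤ l (t+1)`), `ch t = fG (L t) - fG (l t) = ∑_{u ∈ An t} G u ≥ (1-δ) fG (L t) > 0`, `S ⊆ ℕ` with `|S| = T ≥ 1`,
`beS u = ∑_{t ∈ S} 1[u ∈ An t] / (T * ch t)`, `Bs = ⋃_{t ∈ S} An t`.
* `beS_sum`: `∑_{u ∈ Bs} beS u * G u = ∑_{t ∈ S} (1/(T ch t)) ∑_{u ∈ An t} G u = 1`.
* `beS_double`: `∑_{u,v ∈ Bs} beS u beS v G(v-u) G u = ∑_{s,t ∈ S} (1/(T² ch s ch t)) ∑_{u ∈ An s} G u ∑_{v ∈ An t} G (v - u)`.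
  `s < t`: for `u ∈ An s`, `v ∈ An t`: `v - u ∈ bx (L t + L s) ⊆ bx (L t + L (t-1))` and `v ↦ v - u` is injective, so the inner sum is `≤ fG (L t + L (t-1)) ≤ (1+δ) fG (L t) ≤ ((1+δ)/(1-δ)) ch t`
   (`L` is increasing); the term is `≤ (1/T²)(1+δ)/(1-δ) ≤ (1/T²)(1+4δ)` for `δ ≤ 1/2`.
  `s > t`: `u ∈ An s`, `v ∈ An t`: `nm (v-u) ≥ nm u - nm v > l s - L t ≥ l (t+1) - L t`, so `G (v-u) |bx (L t)| ≤ δ ch t` (last property), inner sum `≤ δ ch t`; term `≤ δ/T²`.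
  `s = t`: `v - u ∈ bx (2 L t)`: inner sum `≤ fG (2 L t) ≤ 4^(d+1) fG (L t) ≤ 4^(d+1) ch t/(1-δ) ≤ 2 * 4^(d+1) ch t`; term `≤ 2 * 4^(d+1)/T²`.
  There are `T(T-1)/2` pairs with `s < t` and as many with `s > t`: total `≤ (1/2)(1 + 4δ + δ) + 2 * 4^(d+1)/T`.
-/

set_option autoImplicit false

open Finset Filter Topology

namespace H82.IC

variable {d : ℕ}

/-- annulus. -/
noncomputable def An (d : ℕ) (l L : ℕ → ℕ) (t : ℕ) : Finset (Vx d) := bx d (L t) \ bx d (l t)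

noncomputable def BsS (d : ℕ) (l L : ℕ → ℕ) (S : Finset ℕ) : Finset (Vx d) := S.biUnion (An d l L)

noncomputable def beS (G : Vx d → ℝ) (l L : ℕ → ℕ) (S : Finset ℕ) (u : Vx d) : ℝ :=
  ∑ t ∈ S, (if u ∈ An d l L t then 1 / ((S.card : ℝ) * (fG G (L t) - fG G (l t))) else 0)

/-- the conditions on the scales. -/
structure Sca (G : Vx d → ℝ) (δ : ℝ) (l L : ℕ → ℕ) : Prop where
  lt : ∀ t, l t < L t
  le : ∀ t, L t ≤ l (t + 1)
  dbl : ∀ t, fG G (2 * L t) ≤ 4 ^ (d + 1) * fG G (L t)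
  small : ∀ t, fG G (l t) ≤ δ * fG G (L t)
  pos : ∀ t, 0 < fG G (L t)
  reg : ∀ t, fG G (L (t + 1) + L t) ≤ (1 + δ) * fG G (L (t + 1))
  far : ∀ t x, l (t + 1) ≤ nm x + L t →
    G x * ((bx d (L t)).card : ℝ) ≤ δ * (fG G (L t) - fG G (l t))

theorem VB_mem (l L : ℕ → ℕ) (t : ℕ) (u : Vx d) : u ∈ An d l L t ↔ l t < nm u ∧ nm u ≤ L t := by
  unfold An
  rw [Finset.mem_sdiff, mem_bx, mem_bx, not_le, and_comm]

theorem mem_BsS (l L : ℕ → ℕ) (S : Finset ℕ) (u : Vx d) :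
    u ∈ BsS d l L S ↔ ∃ t ∈ S, l t < nm u ∧ nm u ≤ L t := by
  unfold BsS
  rw [Finset.mem_biUnion]
  refine exists_congr fun t => and_congr_right fun _ => VB_mem l L t u

theorem VB_L {G : Vx d → ℝ} {δ : ℝ} {l L : ℕ → ℕ} (h : Sca G δ l L) {s t : ℕ} (hst : s < t) :
    L s ≤ l t := by
  induction t, hst using Nat.le_induction with
  | base => exact h.le s
  | succ t ht ih => exact ih.trans ((h.lt t).le.trans (h.le t))

theorem VB_l {G : Vx d → ℝ} {δ : ℝ} {l L : ℕ → ℕ} (h : Sca G δ l L) {s t : ℕ} (hst : s ≤ t) :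
    l s ≤ l t := by
  rcases Nat.eq_or_lt_of_le hst with h1 | h1
  · rw [h1]
  · exact (h.lt s).le.trans (VB_L h h1)

theorem VB_LL {G : Vx d → ℝ} {δ : ℝ} {l L : ℕ → ℕ} (h : Sca G δ l L) {s t : ℕ} (hst : s ≤ t) :
    L s ≤ L t := by
  rcases Nat.eq_or_lt_of_le hst with h1 | h1
  · rw [h1]
  · exact (VB_L h h1).trans (h.lt t).le

theorem VB_ch {G : Vx d → ℝ} {δ : ℝ} {l L : ℕ → ℕ} (h : Sca G δ l L) (t : ℕ) :
    (1 - δ) * fG G (L t) ≤ fG G (L t) - fG G (l t) := by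
  have := h.small t
  linarith

theorem VB_chpos {G : Vx d → ℝ} {δ : ℝ} (hδ1 : δ ≤ 1 / 2) {l L : ℕ → ℕ} (h : Sca G δ l L) (t : ℕ) :
    0 < fG G (L t) - fG G (l t) :=
  lt_of_lt_of_le (mul_pos (by linarith) (h.pos t)) (VB_ch h t)

theorem VB_An_sum {G : Vx d → ℝ} {δ : ℝ} {l L : ℕ → ℕ} (h : Sca G δ l L) (t : ℕ) :
    ∑ u ∈ An d l L t, G u = fG G (L t) - fG G (l t) := by
  unfold An fG
  rw [← Finset.sum_sdiff (bx_mono (d := d) (h.lt t).le)]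
  ring

theorem VB_sum (l L : ℕ → ℕ) (S : Finset ℕ) (c : ℕ → ℝ) (F : Vx d → ℝ) :
    ∑ u ∈ BsS d l L S, (∑ t ∈ S, (if u ∈ An d l L t then c t else 0)) * F u =
      ∑ t ∈ S, c t * ∑ u ∈ An d l L t, F u := by
  simp_rw [Finset.sum_mul]
  rw [Finset.sum_comm]
  refine Finset.sum_congr rfl fun t ht => ?_
  have hsub : An d l L t ⊆ BsS d l L S := Finset.subset_biUnion_of_mem (An d l L) ht
  have h1 : ∀ u, (if u ∈ An d l L t then c t else 0) * F u =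
      if u ∈ An d l L t then c t * F u else 0 := by
    intro u
    rw [ite_mul, zero_mul]
  rw [Finset.sum_congr rfl fun u _ => h1 u, ← Finset.sum_filter, Finset.mul_sum]
  refine Finset.sum_congr ?_ fun _ _ => rfl
  ext u
  rw [Finset.mem_filter]
  exact ⟨fun hu => hu.2, fun hu => ⟨hsub hu, hu⟩⟩

theorem VB_trans {G : Vx d → ℝ} (h0 : ∀ x, 0 ≤ G x) (A : Finset (Vx d)) (u : Vx d) (n : ℕ)
    (h : ∀ v ∈ A, nm (v - u) ≤ n) : ∑ v ∈ A, G (v - u) ≤ fG G n := by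
  classical
  have h1 : ∑ v ∈ A, G (v - u) = ∑ x ∈ A.image (fun v => v - u), G x := by
    rw [Finset.sum_image]
    intro a _ b _ hab
    exact sub_left_injective hab
  rw [h1]
  unfold fG
  refine Finset.sum_le_sum_of_subset_of_nonneg ?_ fun x _ _ => h0 x
  intro x hx
  obtain ⟨v, hv, rfl⟩ := Finset.mem_image.1 hx
  exact mem_bx.2 (h v hv)

theorem VB_mono {G : Vx d → ℝ} (h0 : ∀ x, 0 ≤ G x) {m n : ℕ} (h : m ≤ n) : fG G m ≤ fG G n :=
  Finset.sum_le_sum_of_subset_of_nonneg (bx_mono h) fun x _ _ => h0 x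

/-- the factor -/
noncomputable def VB_k (d : ℕ) (δ : ℝ) (s t : ℕ) : ℝ :=
  if s < t then 1 + 4 * δ else if t < s then δ else 2 * 4 ^ (d + 1)

theorem VB_k_nonneg {δ : ℝ} (hδ : 0 < δ) (s t : ℕ) : 0 ≤ VB_k d δ s t := by
  unfold VB_k
  split_ifs <;> positivity

theorem VB_bound (G : Vx d → ℝ) (h0 : ∀ x, 0 ≤ G x) {δ : ℝ} (hδ : 0 < δ) (hδ1 : δ ≤ 1 / 2)
    {l L : ℕ → ℕ} (h : Sca G δ l L) (s t : ℕ) {u : Vx d} (hu : u ∈ An d l L s) :
    ∑ v ∈ An d l L t, G (v - u) ≤ VB_k d δ s t * (fG G (L t) - fG G (l t)) := by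
  obtain ⟨hu1, hu2⟩ := (VB_mem l L s u).1 hu
  have hch := VB_ch h t
  have hpos := VB_chpos hδ1 h t
  have hpL := h.pos t
  unfold VB_k
  rcases lt_trichotomy s t with hst | hst | hst
  · rw [if_pos hst]
    obtain ⟨r, rfl⟩ : ∃ r, t = r + 1 := ⟨t - 1, by omega⟩
    have h1 : ∑ v ∈ An d l L (r + 1), G (v - u) ≤ fG G (L (r + 1) + L r) := by
      refine VB_trans h0 _ u _ fun v hv => ?_
      have hv2 := ((VB_mem l L (r + 1) v).1 hv).2
      have h2 := nm_sub v u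
      have h3 : L s ≤ L r := VB_LL h (by omega)
      omega
    have h2 := h.reg r
    have h3 : (1 + δ) * fG G (L (r + 1)) ≤ (1 + 4 * δ) * ((1 - δ) * fG G (L (r + 1))) := by
      have h4 : (1 + δ) ≤ (1 + 4 * δ) * (1 - δ) := by nlinarith
      have h5 := mul_le_mul_of_nonneg_right h4 hpL.le
      linarith
    have h4 := mul_le_mul_of_nonneg_left hch (by linarith : (0 : ℝ) ≤ 1 + 4 * δ)
    linarith
  · subst hst
    rw [if_neg (lt_irrefl _), if_neg (lt_irrefl _)]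
    have h1 : ∑ v ∈ An d l L s, G (v - u) ≤ fG G (2 * L s) := by
      refine VB_trans h0 _ u _ fun v hv => ?_
      have hv2 := ((VB_mem l L s v).1 hv).2
      have h2 := nm_sub v u
      omega
    have h2 := h.dbl s
    have h3 : fG G (L s) ≤ 2 * (fG G (L s) - fG G (l s)) := by
      have h4 : 1 / 2 * fG G (L s) ≤ (1 - δ) * fG G (L s) :=
        mul_le_mul_of_nonneg_right (by linarith) hpL.le
      linarith
    have h4 : (0 : ℝ) ≤ 4 ^ (d + 1) := by positivity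
    have h5 := mul_le_mul_of_nonneg_left h3 h4
    linarith
  · rw [if_neg (by omega), if_pos hst]
    have hb : (0 : ℝ) < ((bx d (L t)).card : ℝ) := by
      have h1 : (0 : Vx d) ∈ bx d (L t) := mem_bx.2 (by rw [nm_zero]; exact Nat.zero_le _)
      exact_mod_cast Finset.card_pos.2 ⟨_, h1⟩
    have h1 : ∀ v ∈ An d l L t, G (v - u) ≤
        δ * (fG G (L t) - fG G (l t)) / ((bx d (L t)).card : ℝ) := by
      intro v hv
      rw [le_div_iff₀ hb]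
      refine h.far t (v - u) ?_
      have hv2 := ((VB_mem l L t v).1 hv).2
      have h2 : l (t + 1) ≤ l s := VB_l h hst
      have h3 : nm u ≤ nm (v - u) + nm v := by
        have h4 := nm_sub v (v - u)
        rw [sub_sub_cancel] at h4
        omega
      omega
    refine (Finset.sum_le_sum h1).trans ?_
    rw [Finset.sum_const, nsmul_eq_mul]
    have h2 : ((An d l L t).card : ℝ) ≤ ((bx d (L t)).card : ℝ) := by
      have h3 : An d l L t ⊆ bx d (L t) := Finset.sdiff_subset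
      exact_mod_cast Finset.card_le_card h3
    have h3 : 0 ≤ δ * (fG G (L t) - fG G (l t)) / ((bx d (L t)).card : ℝ) := by positivity
    refine (mul_le_mul_of_nonneg_right h2 h3).trans (le_of_eq ?_)
    rw [mul_div_cancel₀ _ hb.ne']

theorem VB_ksum {δ : ℝ} (S : Finset ℕ) :
    ∑ s ∈ S, ∑ t ∈ S, VB_k d δ s t ≤
      (S.card : ℝ) ^ 2 * ((1 / 2) * (1 + 5 * δ)) + (S.card : ℝ) * (2 * 4 ^ (d + 1)) +
        (S.card : ℝ) * (|1 + 5 * δ| / 2 - (1 + 5 * δ) / 2) := by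
  have h1 : ∑ s ∈ S, ∑ t ∈ S, VB_k d δ s t = ∑ s ∈ S, ∑ t ∈ S, VB_k d δ t s :=
    Finset.sum_comm
  have h2 : ∑ s ∈ S, ∑ t ∈ S, VB_k d δ s t =
      (1 / 2) * ∑ s ∈ S, ∑ t ∈ S, (VB_k d δ s t + VB_k d δ t s) := by
    simp only [Finset.sum_add_distrib]
    rw [← h1]
    ring
  have h3 : ∀ s t : ℕ, VB_k d δ s t + VB_k d δ t s ≤
      (1 + 5 * δ) + if s = t then 4 * 4 ^ (d + 1) + (|1 + 5 * δ| - (1 + 5 * δ)) else 0 := by
    intro s t
    unfold VB_k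
    rcases lt_trichotomy s t with h | h | h
    · rw [if_pos h, if_neg (by omega), if_pos h, if_neg h.ne]
      linarith
    · subst h
      rw [if_neg (lt_irrefl _), if_neg (lt_irrefl _), if_pos rfl]
      have := abs_nonneg (1 + 5 * δ)
      linarith
    · rw [if_neg (by omega), if_pos h, if_pos h, if_neg h.ne']
      linarith
  rw [h2]
  have h4 : ∑ s ∈ S, ∑ t ∈ S, (VB_k d δ s t + VB_k d δ t s) ≤
      ∑ s ∈ S, ∑ t ∈ S, ((1 + 5 * δ) +
        if s = t then 4 * 4 ^ (d + 1) + (|1 + 5 * δ| - (1 + 5 * δ)) else 0) :=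
    Finset.sum_le_sum fun s _ => Finset.sum_le_sum fun t _ => h3 s t
  have h5 : ∑ s ∈ S, ∑ t ∈ S, ((1 + 5 * δ) +
        if s = t then 4 * 4 ^ (d + 1) + (|1 + 5 * δ| - (1 + 5 * δ)) else 0) =
      (S.card : ℝ) ^ 2 * (1 + 5 * δ) +
        (S.card : ℝ) * (4 * 4 ^ (d + 1) + (|1 + 5 * δ| - (1 + 5 * δ))) := by
    simp only [Finset.sum_add_distrib, Finset.sum_const, nsmul_eq_mul, Finset.sum_ite_eq]
    rw [Finset.sum_congr rfl fun s hs => if_pos hs, Finset.sum_const, nsmul_eq_mul]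
    ring
  rw [h5] at h4
  linarith

theorem beS_nonneg (G : Vx d → ℝ) (h0 : ∀ x, 0 ≤ G x) {δ : ℝ} (hδ : 0 < δ) (hδ1 : δ ≤ 1 / 2)
    {l L : ℕ → ℕ} (h : Sca G δ l L) (S : Finset ℕ) (u : Vx d) : 0 ≤ beS G l L S u := by
  unfold beS
  refine Finset.sum_nonneg fun t _ => ?_
  split_ifs
  · have := VB_chpos hδ1 h t
    positivity
  · exact le_rfl

theorem beS_sum (G : Vx d → ℝ) (h0 : ∀ x, 0 ≤ G x) {δ : ℝ} (hδ : 0 < δ) (hδ1 : δ ≤ 1 / 2)
    {l L : ℕ → ℕ} (h : Sca G δ l L) (S : Finset ℕ) (hS : 1 ≤ S.card) :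
    ∑ u ∈ BsS d l L S, beS G l L S u * G u = 1 := by
  have hT : (0 : ℝ) < (S.card : ℝ) := by exact_mod_cast hS
  unfold beS
  rw [VB_sum]
  have h1 : ∀ t ∈ S, 1 / ((S.card : ℝ) * (fG G (L t) - fG G (l t))) * ∑ u ∈ An d l L t, G u =
      1 / (S.card : ℝ) := by
    intro t _
    rw [VB_An_sum h]
    have := (VB_chpos hδ1 h t).ne'
    field_simp
  rw [Finset.sum_congr rfl h1, Finset.sum_const, nsmul_eq_mul]
  field_simp

theorem beS_double (G : Vx d → ℝ) (h0 : ∀ x, 0 ≤ G x) {δ : ℝ} (hδ : 0 < δ) (hδ1 : δ ≤ 1 / 2)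
    {l L : ℕ → ℕ} (h : Sca G δ l L) (S : Finset ℕ) (hS : 1 ≤ S.card) :
    ∑ u ∈ BsS d l L S, ∑ v ∈ BsS d l L S, beS G l L S u * beS G l L S v * (G (v - u) * G u) ≤
      (1 / 2) * (1 + 5 * δ) + 2 * 4 ^ (d + 1) / (S.card : ℝ) := by
  have hT : (0 : ℝ) < (S.card : ℝ) := by exact_mod_cast hS
  obtain ⟨c, hc⟩ : ∃ c : ℕ → ℝ, c = fun t => 1 / ((S.card : ℝ) * (fG G (L t) - fG G (l t))) :=
    ⟨_, rfl⟩
  have hbe : ∀ u, beS G l L S u = ∑ t ∈ S, (if u ∈ An d l L t then c t else 0) := by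
    intro u
    rw [hc]
    rfl
  have hc0 : ∀ t, 0 ≤ c t := by
    intro t
    rw [hc]
    have := VB_chpos hδ1 h t
    positivity
  have hcc : ∀ t, c t * (fG G (L t) - fG G (l t)) = 1 / (S.card : ℝ) := by
    intro t
    rw [hc]
    have := (VB_chpos hδ1 h t).ne'
    field_simp
  have h1 : ∑ u ∈ BsS d l L S, ∑ v ∈ BsS d l L S,
      beS G l L S u * beS G l L S v * (G (v - u) * G u) =
      ∑ s ∈ S, c s * ∑ u ∈ An d l L s, (G u * ∑ t ∈ S, c t * ∑ v ∈ An d l L t, G (v - u)) := by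
    rw [← VB_sum]
    refine Finset.sum_congr rfl fun u _ => ?_
    rw [← VB_sum, ← hbe u, Finset.mul_sum, Finset.mul_sum]
    refine Finset.sum_congr rfl fun v _ => ?_
    rw [← hbe v]
    ring
  rw [h1]
  have h2 : ∀ s ∈ S, c s * ∑ u ∈ An d l L s, (G u * ∑ t ∈ S, c t * ∑ v ∈ An d l L t, G (v - u)) ≤
      ∑ t ∈ S, 1 / (S.card : ℝ) * (1 / (S.card : ℝ)) * VB_k d δ s t := by
    intro s _
    have h3 : ∀ u ∈ An d l L s, G u * ∑ t ∈ S, c t * ∑ v ∈ An d l L t, G (v - u) ≤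
        G u * ∑ t ∈ S, 1 / (S.card : ℝ) * VB_k d δ s t := by
      intro u hu
      refine mul_le_mul_of_nonneg_left (Finset.sum_le_sum fun t _ => ?_) (h0 u)
      refine (mul_le_mul_of_nonneg_left (VB_bound G h0 hδ hδ1 h s t hu) (hc0 t)).trans
        (le_of_eq ?_)
      rw [← hcc t]
      ring
    refine (mul_le_mul_of_nonneg_left (Finset.sum_le_sum h3) (hc0 s)).trans (le_of_eq ?_)
    rw [← Finset.sum_mul, VB_An_sum h, ← mul_assoc, hcc, Finset.mul_sum]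
    refine Finset.sum_congr rfl fun t _ => by ring
  refine (Finset.sum_le_sum h2).trans ?_
  simp only [← Finset.mul_sum]
  have h5 := VB_ksum (d := d) (δ := δ) S
  rw [abs_of_pos (by linarith : 0 < 1 + 5 * δ)] at h5
  have h6 : 0 ≤ 1 / (S.card : ℝ) * (1 / (S.card : ℝ)) := by positivity
  refine (mul_le_mul_of_nonneg_left h5 h6).trans (le_of_eq ?_)
  field_simp
  ring

end H82.IC
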