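import Pool.Agent.H82.IC.MAINF
import Pool.Agent.H82.IC.VB

/-!
# MIXA: the mixing statement, part A (only `mix_limit` in this file)

Notation: `G x = μ (cn 0 x)`, `0 ≤ G ≤ 1`, `G x ≤ μ (arm (nm x) 0) → 0` (`cn_sub_arm`, `tendsto_arm`, `hp`), `μ (cn u v) = G (v - u)` (`G_shift`), `c` with `μ (dw F ∩ cn 0 x) / G x → c`, `G x > 0` (`G_pos`).

Part A (`mix_limit`): the bracket at the limit.  Let `c1 = 1 + |c|`.  Given `κ > 0`, `K ≥ 0`: choose `ρ > 1`, `δ ∈ (0, 1/2)`, `T ≥ 1` with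
   `2 ρ ((1/2)(1+5δ) + 2*4^(d+1)/T) - 2 + 1 ≤ (κ/(8 c1))²`   (the left side tends to `0` as `ρ → 1, δ → 0, T → ∞`),
 then `l0` so large that for `nm x ≥ l0`: `|μ (dw F ∩ cn 0 x) - c G x| ≤ (κ/8) G x`, and `2 ρ K |enF F| G y ≤ κ/8` for all `y` with `nm y + r ≥ l0` (`r` = max of `nm` on `enF F`), then the scales by
 `scales` (`Sca`).  With `be = beS G l L S`, `Bs = BsS d l L S`, `|S| = T` (`S ⊆ range (2T)`):
   `√(2ρ ∑∑ be u be v G(v-u) G u - 2 ∑ be u G u + 1) ≤ κ/(8 c1)` (`beS_double`, `beS_sum`),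
   `2ρK ∑ be u G u ∑_{z ∈ enF F} G(z-u) ≤ κ/8`, `∑ be u |μ (dw F ∩ cn 0 u) - c G u| ≤ κ/8`.
Part B (`mixing`): for each of the finitely many `S ⊆ range (2T)` the bracket of `DDd_main` with `δ u := |μ (dw F ∩ cn 0 u) - c G u| + (1 + |c|) ε'` converges, as `m → ∞`, to the bracket at the limit
 (+ `(1+|c|) ε' ∑ be u`): finite sums, `wired_tendsto`, `free_tendsto` (with `up ∅ = univ`), continuity of the square root; `hδ` of `DDd_main` for `m ≥ m0`, all `N ≥ m + 1`, `η`: by `uni` for `F` and for `∅`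
 (`dw ∅ = univ`, `fkE_conn`): `|fkE - μ (dw F ∩ cn 0 u)| ≤ ε'`, `|tp - G u| ≤ ε'`.  So for `m ≥ m0` the bracket is `≤ κ`.
-/

set_option autoImplicit false

open Finset MeasureTheory Filter Topology

namespace H82.IC

variable {d : ℕ}

theorem MIXA_cof {P : Vx d → Prop} (h : ∀ᶠ x in cofinite, P x) :
    ∃ l1 : ℕ, ∀ x, l1 ≤ nm x → P x := by
  have hf : {x | ¬ P x}.Finite := h
  refine ⟨hf.toFinset.sup nm + 1, fun x hx => ?_⟩
  by_contra hP
  have h1 : nm x ≤ hf.toFinset.sup nm := Finset.le_sup (f := nm) (hf.mem_toFinset.2 hP)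
  omega

theorem MIXA_G0 (hd : 2 ≤ d) {β : ℝ} {μ : Measure (Cf d)} (hμ : IsLim β false μ)
    (hp : μ.real (perc d) = 0) : Tendsto (fun x : Vx d => μ.real (cn 0 x)) cofinite (𝓝 0) := by
  have hprob := hμ.1
  have h1 := tendsto_arm (d := d) (by omega) (μ := μ)
  rw [hp] at h1
  have h2 : Tendsto (nm : Vx d → ℕ) cofinite atTop := by
    rw [tendsto_atTop]
    intro b
    rw [eventually_cofinite]
    refine (bx d b).finite_toSet.subset ?_
    intro x hx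
    have : ¬ b ≤ nm x := hx
    rw [Finset.mem_coe, mem_bx]
    omega
  refine squeeze_zero (fun x => measureReal_nonneg) (fun x => ?_) (h1.comp h2)
  exact measureReal_mono (cn_sub_arm (by omega) (by rw [nm_zero]; omega) le_rfl)

theorem MIXA_num {e W δ ρ A : ℝ} (he : 0 < e) (he1 : e ≤ 1) (hρ : ρ = 1 + e / 4) (hδ : δ = e / 40)
    (hW : W ≤ e / 32) (hA : A ≤ (1 / 2) * (1 + 5 * δ) + 2 * W) :
    2 * ρ * A - 2 * 1 + 1 ≤ e := by
  have h1 : A ≤ 1 / 2 + e / 8 := by rw [hδ] at hA; linarith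
  have h2 : 0 ≤ 2 * ρ := by rw [hρ]; linarith
  have h3 : 2 * ρ * A ≤ 2 * ρ * (1 / 2 + e / 8) := mul_le_mul_of_nonneg_left h1 h2
  have h4 : 2 * ρ * (1 / 2 + e / 8) = 1 + e / 2 + e * e / 16 := by rw [hρ]; ring
  have h5 : e * e ≤ e := mul_le_of_le_one_right he.le he1
  linarith

/-- Part A. -/
theorem mix_limit (hd : 2 ≤ d) {β : ℝ} (hβ : 0 < β) {μ : Measure (Cf d)}
    (hμ : IsLim β false μ) (hμ' : IsLim β true μ) (hp : μ.real (perc d) = 0)
    (hχ : ¬ Summable (fun x : Vx d => μ.real (cn 0 x))) (F : Finset (Ed d)) (c : ℝ)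
    (hc : Tendsto (fun x : Vx d => μ.real (dw F ∩ cn 0 x) / μ.real (cn 0 x)) cofinite (𝓝 c))
    (κ K : ℝ) (hκ : 0 < κ) (hK : 0 ≤ K) :
    ∃ ρ : ℝ, 1 < ρ ∧ ∃ T : ℕ, 1 ≤ T ∧ ∀ J l0 : ℕ, ∃ l L : ℕ → ℕ, ∃ δ : ℝ, 0 < δ ∧ δ ≤ 1 / 2 ∧
      (∀ t, l0 ≤ l t) ∧ (∀ t, J * L t ≤ l (t + 1)) ∧
      Sca (fun x : Vx d => μ.real (cn 0 x)) δ l L ∧
      ∀ S ⊆ Finset.range (2 * T), S.card = T →
        (1 + |c|) * Real.sqrt (2 * ρ * (∑ u ∈ BsS d l L S, ∑ v ∈ BsS d l L S,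
            beS (fun x : Vx d => μ.real (cn 0 x)) l L S u *
              beS (fun x : Vx d => μ.real (cn 0 x)) l L S v *
            (μ.real (cn u v) * μ.real (cn (0 : Vx d) u))) -
          2 * (∑ u ∈ BsS d l L S, beS (fun x : Vx d => μ.real (cn 0 x)) l L S u *
            μ.real (cn (0 : Vx d) u)) + 1) +
        2 * ρ * K * (∑ u ∈ BsS d l L S, beS (fun x : Vx d => μ.real (cn 0 x)) l L S u *
          (μ.real (cn (0 : Vx d) u) * ∑ z ∈ enF F, μ.real (cn u z))) +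
        ∑ u ∈ BsS d l L S, beS (fun x : Vx d => μ.real (cn 0 x)) l L S u *
          |μ.real (dw F ∩ cn 0 u) - c * μ.real (cn (0 : Vx d) u)| ≤ κ / 2 := by
  have hprob := hμ.1
  have hG0 := MIXA_G0 hd hμ hp
  have hnn : ∀ x : Vx d, 0 ≤ (fun x : Vx d => μ.real (cn 0 x)) x := fun x => measureReal_nonneg
  have hle1 : ∀ x : Vx d, (fun x : Vx d => μ.real (cn 0 x)) x ≤ 1 := fun x => measureReal_le_one
  have hc1 : 0 < 1 + |c| := by positivity
  obtain ⟨e0, he0⟩ : ∃ e0 : ℝ, e0 = (κ / (8 * (1 + |c|))) ^ 2 := ⟨_, rfl⟩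
  have he0pos : 0 < e0 := by rw [he0]; positivity
  obtain ⟨e, he⟩ : ∃ e : ℝ, e = min e0 1 := ⟨_, rfl⟩
  have hepos : 0 < e := by rw [he]; exact lt_min he0pos one_pos
  have hee0 : e ≤ e0 := by rw [he]; exact min_le_left _ _
  have he1 : e ≤ 1 := by rw [he]; exact min_le_right _ _
  obtain ⟨ρ, hρ⟩ : ∃ ρ : ℝ, ρ = 1 + e / 4 := ⟨_, rfl⟩
  obtain ⟨δ, hδ⟩ : ∃ δ : ℝ, δ = e / 40 := ⟨_, rfl⟩
  have hδ0 : 0 < δ := by rw [hδ]; positivity
  have hδ1 : δ ≤ 1 / 2 := by rw [hδ]; linarith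
  have hρ1 : 1 < ρ := by rw [hρ]; linarith
  obtain ⟨T, hT⟩ : ∃ T : ℕ, T = ⌈32 * 4 ^ (d + 1) / e⌉₊ + 1 := ⟨_, rfl⟩
  have hT1 : 1 ≤ T := by rw [hT]; omega
  have hTpos : (0 : ℝ) < T := by exact_mod_cast hT1
  have hTle : 32 * 4 ^ (d + 1) / e ≤ (T : ℝ) := by
    rw [hT]
    push_cast
    linarith [Nat.le_ceil (32 * 4 ^ (d + 1) / e : ℝ)]
  have hW : (4 : ℝ) ^ (d + 1) / T ≤ e / 32 := by
    rw [div_le_iff₀ hepos] at hTle
    rw [div_le_iff₀ hTpos]
    linarith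
  refine ⟨ρ, hρ1, T, hT1, fun J l0 => ?_⟩
  -- the eventual bounds
  obtain ⟨ε, hε⟩ : ∃ ε : ℝ, ε = κ / 8 / (2 * ρ * K * (enF F).card + 1) := ⟨_, rfl⟩
  have hM : 0 ≤ 2 * ρ * K * ((enF F).card : ℝ) := by positivity
  have hεpos : 0 < ε := by rw [hε]; positivity
  have hMε : 2 * ρ * K * ((enF F).card : ℝ) * ε ≤ κ / 8 := by
    rw [hε, ← mul_div_assoc, div_le_iff₀ (by linarith)]
    have : 0 ≤ κ / 8 := by linarith
    nlinarith
  obtain ⟨l1, hl1⟩ := MIXA_cof (hG0.eventually_le_const hεpos)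
  obtain ⟨l2, hl2⟩ := MIXA_cof (Metric.tendsto_nhds.1 hc (κ / 8) (by linarith))
  obtain ⟨r, hr⟩ : ∃ r : ℕ, r = (enF F).sup nm := ⟨_, rfl⟩
  obtain ⟨l, L, a1, a2, a3, a4, a5, a6, a7, a8, a9⟩ := scales (fun x : Vx d => μ.real (cn 0 x))
    hnn hle1 hG0 hχ δ hδ0 (by linarith) J (l0 + (l1 + l2 + r))
  have hSca : Sca (fun x : Vx d => μ.real (cn 0 x)) δ l L := ⟨a2, a4, a5, a6, a7, a8, a9⟩
  refine ⟨l, L, δ, hδ0, hδ1, fun t => le_trans (by omega) (a1 t), a3, hSca, ?_⟩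
  intro S hS hST
  have hS1 : 1 ≤ S.card := by omega
  have hb0 := beS_nonneg (fun x : Vx d => μ.real (cn 0 x)) hnn hδ0 hδ1 hSca S
  have hsum : ∑ u ∈ BsS d l L S, beS (fun x : Vx d => μ.real (cn 0 x)) l L S u *
      μ.real (cn (0 : Vx d) u) = 1 :=
    beS_sum (fun x : Vx d => μ.real (cn 0 x)) hnn hδ0 hδ1 hSca S hS1
  have hdbl : ∑ u ∈ BsS d l L S, ∑ v ∈ BsS d l L S,
      beS (fun x : Vx d => μ.real (cn 0 x)) l L S u *
        beS (fun x : Vx d => μ.real (cn 0 x)) l L S v *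
      (μ.real (cn u v) * μ.real (cn (0 : Vx d) u)) ≤
      (1 / 2) * (1 + 5 * δ) + 2 * (4 ^ (d + 1) / (T : ℝ)) := by
    have h1 := beS_double (fun x : Vx d => μ.real (cn 0 x)) hnn hδ0 hδ1 hSca S hS1
    rw [hST, mul_div_assoc] at h1
    refine le_trans (le_of_eq ?_) h1
    refine sum_congr rfl fun u _ => sum_congr rfl fun v _ => ?_
    rw [G_shift hβ.le hμ u v]
  have hfar : ∀ u ∈ BsS d l L S, l0 + (l1 + l2 + r) ≤ nm u := by
    intro u hu
    obtain ⟨t, -, ht, -⟩ := (mem_BsS l L S u).1 hu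
    exact (a1 t).trans ht.le
  have hterm1 : (1 + |c|) * Real.sqrt (2 * ρ * (∑ u ∈ BsS d l L S, ∑ v ∈ BsS d l L S,
            beS (fun x : Vx d => μ.real (cn 0 x)) l L S u *
              beS (fun x : Vx d => μ.real (cn 0 x)) l L S v *
            (μ.real (cn u v) * μ.real (cn (0 : Vx d) u))) -
          2 * (∑ u ∈ BsS d l L S, beS (fun x : Vx d => μ.real (cn 0 x)) l L S u *
            μ.real (cn (0 : Vx d) u)) + 1) ≤ κ / 8 := by
    rw [hsum]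
    have h2 : (1 + |c|) * (κ / (8 * (1 + |c|))) = κ / 8 := by field_simp
    rw [← h2]
    refine mul_le_mul_of_nonneg_left ?_ hc1.le
    rw [Real.sqrt_le_iff]
    refine ⟨by positivity, ?_⟩
    rw [← he0]
    exact (MIXA_num hepos he1 hρ hδ hW hdbl).trans hee0
  have hterm2 : 2 * ρ * K * (∑ u ∈ BsS d l L S, beS (fun x : Vx d => μ.real (cn 0 x)) l L S u *
          (μ.real (cn (0 : Vx d) u) * ∑ z ∈ enF F, μ.real (cn u z))) ≤ κ / 8 := by
    have h2 : ∑ u ∈ BsS d l L S, beS (fun x : Vx d => μ.real (cn 0 x)) l L S u *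
          (μ.real (cn (0 : Vx d) u) * ∑ z ∈ enF F, μ.real (cn u z)) ≤
        ((enF F).card : ℝ) * ε := by
      have h3 : ∀ u ∈ BsS d l L S, beS (fun x : Vx d => μ.real (cn 0 x)) l L S u *
          (μ.real (cn (0 : Vx d) u) * ∑ z ∈ enF F, μ.real (cn u z)) ≤
          beS (fun x : Vx d => μ.real (cn 0 x)) l L S u * μ.real (cn (0 : Vx d) u) *
            (((enF F).card : ℝ) * ε) := by
        intro u hu
        rw [mul_assoc]
        refine mul_le_mul_of_nonneg_left ?_ (hb0 u)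
        refine mul_le_mul_of_nonneg_left ?_ measureReal_nonneg
        rw [← nsmul_eq_mul]
        refine Finset.sum_le_card_nsmul _ _ _ fun z hz => ?_
        rw [G_shift hβ.le hμ u z]
        apply hl1
        have h4 := hfar u hu
        have h5 : nm z ≤ r := by rw [hr]; exact Finset.le_sup (f := nm) hz
        have h6 : nm u ≤ nm z + nm (z - u) := by
          have h7 := nm_sub z (z - u)
          rwa [sub_sub_cancel] at h7
        omega
      refine (Finset.sum_le_sum h3).trans ?_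
      rw [← Finset.sum_mul, hsum, one_mul]
    have h3 : 0 ≤ 2 * ρ * K := by positivity
    calc _ ≤ 2 * ρ * K * (((enF F).card : ℝ) * ε) := mul_le_mul_of_nonneg_left h2 h3
      _ = 2 * ρ * K * ((enF F).card : ℝ) * ε := by ring
      _ ≤ κ / 8 := hMε
  have hterm3 : ∑ u ∈ BsS d l L S, beS (fun x : Vx d => μ.real (cn 0 x)) l L S u *
          |μ.real (dw F ∩ cn 0 u) - c * μ.real (cn (0 : Vx d) u)| ≤ κ / 8 := by
    have h3 : ∀ u ∈ BsS d l L S, beS (fun x : Vx d => μ.real (cn 0 x)) l L S u *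
          |μ.real (dw F ∩ cn 0 u) - c * μ.real (cn (0 : Vx d) u)| ≤
          beS (fun x : Vx d => μ.real (cn 0 x)) l L S u * μ.real (cn (0 : Vx d) u) * (κ / 8) := by
      intro u hu
      rw [mul_assoc]
      refine mul_le_mul_of_nonneg_left ?_ (hb0 u)
      have h4 := hl2 u (by have := hfar u hu; omega)
      have h5 : 0 < μ.real (cn (0 : Vx d) u) := G_pos hβ hμ 0 u
      rw [Real.dist_eq] at h4
      have h6 : μ.real (dw F ∩ cn 0 u) - c * μ.real (cn (0 : Vx d) u) =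
          μ.real (cn (0 : Vx d) u) * (μ.real (dw F ∩ cn 0 u) / μ.real (cn (0 : Vx d) u) - c) := by
        field_simp
      rw [h6, abs_mul, abs_of_pos h5]
      exact mul_le_mul_of_nonneg_left h4.le h5.le
    refine (Finset.sum_le_sum h3).trans ?_
    rw [← Finset.sum_mul, hsum, one_mul]
  linarith

end H82.IC
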