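import Pool.Agent.H82.IC.SPN

/-!
# MM1: the Messager-Miracle-Sole inequality on a finite graph (Ginibre's proof)

`th` involution of the vertices, `ta` of the edges (compatible), `L` one open side, `th '' L` the other, the remaining vertices are fixed by `th`; an edge joining `L` to the other side joins `a` and `th a`.
`q a = σ a - σ (th a)`, `u a = σ a + σ (th a)` (real spins `sp`), for all `a`.  Since `(σ-σ')² = 2 - 2σσ'`, up to a positive constant `wS β σ = exp(β ∑_e σ(s e)σ(r e)) = exp((β/2) ∑_e (σ(s e)σ(r e) + σ(th (s e))σ(th (r e))))`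
(reindex by `ta`).  For an edge which is not crossing, `a = s e`, `b = r e` are both in `Lb := L ∪ Fix` or `th a, th b` are, and `σ a σ b + σ(th a)σ(th b) = (1/2)(q a q b + u a u b)`, which is unchanged if `a, b` are replaced by
`th a, th b`.  For a crossing edge (`b = th a`) the term is `2 σ a σ (th a)`; let `w0 σ = ∏_{crossing} exp(β σ a σ(th a))`.
CLAIM: for all exponents `m n : V → ℕ` and every finite product `f` of factors `exp(c q a q b)`, `exp(c u a u b)`, `a, b ∈ Lb`, `c ≥ 0`: `∑_σ (∏_{a ∈ Lb} q a ^ m a * u a ^ n a) * f σ * w0 σ ≥ 0`.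
Induction on the number of factors of `f`: `exp(c X) = ∑' k, c^k X^k / k!` (finite sums commute with the series; `hasSum` and `tsum_nonneg`), and `X^k` times the monomial is a monomial.  Base case `f = 1`: if some `m a` is odd
(`a ∈ L`; for `a ∈ Fix`, `q a = 0` and the sum vanishes if `m a > 0`), the involution of the configurations exchanging `σ a` and `σ (th a)` changes the sign of the term (`w0` is invariant): the sum is `0`.  If all `m a` are even and some
`n a` is odd, flip both `σ a` and `σ (th a)` (one spin if `a ∈ Fix`): sign change, the sum is `0`.  If all are even every term is `≥ 0`.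
Apply it with the monomial `q x * q y`, `f` = the product over the non crossing edges: `∑_σ q x q y wS ≥ 0`, i.e. `IsE (q x q y) ≥ 0`, and by the symmetry `σ ↦ σ ∘ th` of `wS`:
`IsE (q x q y) = 2 IsE (σ x σ y) - 2 IsE (σ x σ (th y))`.
-/

set_option autoImplicit false

open Finset

namespace H82.IC

section MM1

theorem MM1_sp_not (b : Bool) : sp (!b) = - sp b := by
  unfold sp
  cases b <;> simp

variable {V : Type*}

/-- differences and sums under the involution. -/
noncomputable def MM1_q (th : V → V) (σ : V → Bool) (a : V) : ℝ := sp (σ a) - sp (σ (th a))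

noncomputable def MM1_u (th : V → V) (σ : V → Bool) (a : V) : ℝ := sp (σ a) + sp (σ (th a))

/-- monomials. -/
noncomputable def MM1_mono (th : V → V) (B : Finset V) (m n : V → ℕ) (σ : V → Bool) : ℝ :=
  ∏ a ∈ B, (MM1_q th σ a ^ m a * MM1_u th σ a ^ n a)

/-- the invariants. -/
def MM1_inv (th : V → V) (σ σ' : V → Bool) : Prop :=
  ∀ s, sp (σ s) * sp (σ (th s)) = sp (σ' s) * sp (σ' (th s))

variable [Fintype V] [DecidableEq V]

theorem MM1_zero (T : (V → Bool) → (V → Bool)) (hT : Function.Involutive T)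
    (G : (V → Bool) → ℝ) (hG : ∀ σ, G (T σ) = - G σ) : ∑ σ, G σ = 0 := by
  have h1 : ∑ σ, G (T σ) = ∑ σ, G σ := Equiv.sum_comp hT.toPerm G
  have h2 : ∑ σ, G (T σ) = - ∑ σ, G σ := by
    rw [← Finset.sum_neg_distrib]
    exact Finset.sum_congr rfl fun σ _ => hG σ
  linarith

/-- positivity class. -/
def MM1_Good (th : V → V) (B : Finset V) (w0 : (V → Bool) → ℝ) (F : (V → Bool) → ℝ) : Prop :=
  ∀ m n : V → ℕ, 0 ≤ ∑ σ, MM1_mono th B m n σ * (F σ * w0 σ)

omit [Fintype V] in
theorem MM1_mono_sign (th : V → V) (B : Finset V) (m n : V → ℕ) {a : V} (ha : a ∈ B)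
    (σ σ' : V → Bool)
    (h1 : ∀ b ∈ B, b ≠ a → MM1_q th σ' b = MM1_q th σ b ∧ MM1_u th σ' b = MM1_u th σ b)
    (h2 : MM1_q th σ' a ^ m a * MM1_u th σ' a ^ n a = -(MM1_q th σ a ^ m a * MM1_u th σ a ^ n a)) :
    MM1_mono th B m n σ' = - MM1_mono th B m n σ := by
  unfold MM1_mono
  rw [← Finset.mul_prod_erase B _ ha, ← Finset.mul_prod_erase B _ ha, h2, neg_mul]
  congr 2
  refine Finset.prod_congr rfl fun b hb => ?_
  obtain ⟨h3, h4⟩ := h1 b (Finset.mem_of_mem_erase hb) (Finset.ne_of_mem_erase hb)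
  rw [h3, h4]

theorem MM1_base (th : V → V) (B : Finset V) (w0 : (V → Bool) → ℝ)
    (hth : ∀ x, th (th x) = x) (hB : ∀ a ∈ B, ∀ b ∈ B, b ≠ a → b ≠ th a)
    (hw : ∀ σ, 0 ≤ w0 σ) (hinv : ∀ σ σ', MM1_inv th σ σ' → w0 σ = w0 σ') :
    MM1_Good th B w0 (fun _ => 1) := by
  intro m n
  have hne : ∀ a ∈ B, ∀ b ∈ B, b ≠ a → b ≠ a ∧ b ≠ th a ∧ th b ≠ a ∧ th b ≠ th a := by
    intro a ha b hb hab
    have h1 := hB a ha b hb hab
    refine ⟨hab, h1, ?_, ?_⟩
    · intro h
      exact h1 (by rw [← h, hth])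
    · intro h
      exact hab (by rw [← hth b, h, hth])
  by_cases hm : ∃ a ∈ B, Odd (m a)
  · obtain ⟨a, ha, hodd⟩ := hm
    apply le_of_eq
    symm
    apply MM1_zero (fun σ s => σ (Equiv.swap a (th a) s))
    · intro σ
      funext s
      show σ (Equiv.swap a (th a) (Equiv.swap a (th a) s)) = σ s
      rw [Equiv.swap_apply_self]
    · intro σ
      have h1 : MM1_mono th B m n (fun s => σ (Equiv.swap a (th a) s)) =
          - MM1_mono th B m n σ := by
        apply MM1_mono_sign th B m n ha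
        · intro b hb hba
          obtain ⟨h3, h4, h5, h6⟩ := hne a ha b hb hba
          unfold MM1_q MM1_u
          simp only [Equiv.swap_apply_of_ne_of_ne h3 h4, Equiv.swap_apply_of_ne_of_ne h5 h6]
          exact ⟨trivial, trivial⟩
        · have h3 : MM1_q th (fun s => σ (Equiv.swap a (th a) s)) a = - MM1_q th σ a := by
            unfold MM1_q
            simp only [Equiv.swap_apply_left, Equiv.swap_apply_right]
            ring
          have h4 : MM1_u th (fun s => σ (Equiv.swap a (th a) s)) a = MM1_u th σ a := by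
            unfold MM1_u
            simp only [Equiv.swap_apply_left, Equiv.swap_apply_right]
            ring
          rw [h3, h4, hodd.neg_pow, neg_mul]
      have h2 : w0 (fun s => σ (Equiv.swap a (th a) s)) = w0 σ := by
        apply hinv
        intro s
        by_cases hsa : s = a
        · rw [hsa]
          simp only [Equiv.swap_apply_left, Equiv.swap_apply_right]
          ring
        · by_cases hst : s = th a
          · rw [hst, hth]
            simp only [Equiv.swap_apply_left, Equiv.swap_apply_right]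
            ring
          · have h5 : th s ≠ a := fun h => hst (by rw [← h, hth])
            have h6 : th s ≠ th a := fun h => hsa (by rw [← hth s, h, hth])
            simp only [Equiv.swap_apply_of_ne_of_ne hsa hst, Equiv.swap_apply_of_ne_of_ne h5 h6]
      show MM1_mono th B m n (fun s => σ (Equiv.swap a (th a) s)) *
        (1 * w0 (fun s => σ (Equiv.swap a (th a) s))) = -(MM1_mono th B m n σ * (1 * w0 σ))
      rw [h1, h2]
      ring
  · by_cases hn : ∃ a ∈ B, Odd (n a)
    · obtain ⟨a, ha, hodd⟩ := hn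
      have hmev : Even (m a) := by
        rw [← Nat.not_odd_iff_even]
        exact fun h => hm ⟨a, ha, h⟩
      apply le_of_eq
      symm
      apply MM1_zero (fun σ s => if s = a ∨ s = th a then !(σ s) else σ s)
      · intro σ
        funext s
        show (if s = a ∨ s = th a then !(if s = a ∨ s = th a then !(σ s) else σ s)
          else (if s = a ∨ s = th a then !(σ s) else σ s)) = σ s
        by_cases hs : s = a ∨ s = th a
        · rw [if_pos hs, if_pos hs, Bool.not_not]
        · rw [if_neg hs, if_neg hs]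
      · intro σ
        have hpa : (a = a ∨ a = th a) := Or.inl rfl
        have hpt : (th a = a ∨ th a = th a) := Or.inr rfl
        have h1 : MM1_mono th B m n (fun s => if s = a ∨ s = th a then !(σ s) else σ s) =
            - MM1_mono th B m n σ := by
          apply MM1_mono_sign th B m n ha
          · intro b hb hba
            obtain ⟨h3, h4, h5, h6⟩ := hne a ha b hb hba
            have g1 : ¬ (b = a ∨ b = th a) := fun h => h.elim h3 h4
            have g2 : ¬ (th b = a ∨ th b = th a) := fun h => h.elim h5 h6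
            unfold MM1_q MM1_u
            simp only [if_neg g1, if_neg g2]
            exact ⟨trivial, trivial⟩
          · have h3 : MM1_q th (fun s => if s = a ∨ s = th a then !(σ s) else σ s) a =
                - MM1_q th σ a := by
              show sp (if a = a ∨ a = th a then !(σ a) else σ a) -
                sp (if th a = a ∨ th a = th a then !(σ (th a)) else σ (th a)) =
                  -(sp (σ a) - sp (σ (th a)))
              rw [if_pos hpa, if_pos hpt, MM1_sp_not, MM1_sp_not]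
              ring
            have h4 : MM1_u th (fun s => if s = a ∨ s = th a then !(σ s) else σ s) a =
                - MM1_u th σ a := by
              show sp (if a = a ∨ a = th a then !(σ a) else σ a) +
                sp (if th a = a ∨ th a = th a then !(σ (th a)) else σ (th a)) =
                  -(sp (σ a) + sp (σ (th a)))
              rw [if_pos hpa, if_pos hpt, MM1_sp_not, MM1_sp_not]
              ring
            rw [h3, h4, hodd.neg_pow, hmev.neg_pow, mul_neg]
        have h2 : w0 (fun s => if s = a ∨ s = th a then !(σ s) else σ s) = w0 σ := by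
          apply hinv
          intro s
          have hiff : (th s = a ∨ th s = th a) ↔ (s = a ∨ s = th a) := by
            constructor
            · rintro (h | h)
              · exact Or.inr (by rw [← h, hth])
              · exact Or.inl (by rw [← hth s, h, hth])
            · rintro (h | h)
              · exact Or.inr (by rw [h])
              · exact Or.inl (by rw [h, hth])
          by_cases hs : s = a ∨ s = th a
          · simp only [if_pos hs, if_pos (hiff.2 hs), MM1_sp_not]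
            ring
          · simp only [if_neg hs, if_neg (fun h => hs (hiff.1 h))]
        show MM1_mono th B m n (fun s => if s = a ∨ s = th a then !(σ s) else σ s) *
          (1 * w0 (fun s => if s = a ∨ s = th a then !(σ s) else σ s)) =
            -(MM1_mono th B m n σ * (1 * w0 σ))
        rw [h1, h2]
        ring
    · refine Finset.sum_nonneg fun σ _ => mul_nonneg ?_ (mul_nonneg zero_le_one (hw σ))
      unfold MM1_mono
      refine Finset.prod_nonneg fun a ha => mul_nonneg ?_ ?_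
      · exact (Nat.not_odd_iff_even.1 fun h => hm ⟨a, ha, h⟩).pow_nonneg _
      · exact (Nat.not_odd_iff_even.1 fun h => hn ⟨a, ha, h⟩).pow_nonneg _

omit [Fintype V] in
theorem MM1_mono_q (th : V → V) (B : Finset V) (m n : V → ℕ) {a : V} (ha : a ∈ B)
    (σ : V → Bool) :
    MM1_mono th B (fun b => m b + if b = a then 1 else 0) n σ =
      MM1_mono th B m n σ * MM1_q th σ a := by
  unfold MM1_mono
  have h1 : ∀ b ∈ B, MM1_q th σ b ^ (m b + if b = a then 1 else 0) * MM1_u th σ b ^ n b =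
      (MM1_q th σ b ^ m b * MM1_u th σ b ^ n b) * (if b = a then MM1_q th σ b else 1) := by
    intro b _
    by_cases h : b = a
    · rw [if_pos h, if_pos h, pow_succ]
      ring
    · rw [if_neg h, if_neg h, add_zero, mul_one]
  rw [Finset.prod_congr rfl h1, Finset.prod_mul_distrib, Finset.prod_ite_eq' B a, if_pos ha]

omit [Fintype V] in
theorem MM1_mono_u (th : V → V) (B : Finset V) (m n : V → ℕ) {a : V} (ha : a ∈ B)
    (σ : V → Bool) :
    MM1_mono th B m (fun b => n b + if b = a then 1 else 0) σ =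
      MM1_mono th B m n σ * MM1_u th σ a := by
  unfold MM1_mono
  have h1 : ∀ b ∈ B, MM1_q th σ b ^ m b * MM1_u th σ b ^ (n b + if b = a then 1 else 0) =
      (MM1_q th σ b ^ m b * MM1_u th σ b ^ n b) * (if b = a then MM1_u th σ b else 1) := by
    intro b _
    by_cases h : b = a
    · rw [if_pos h, if_pos h, pow_succ]
      ring
    · rw [if_neg h, if_neg h, add_zero, mul_one]
  rw [Finset.prod_congr rfl h1, Finset.prod_mul_distrib, Finset.prod_ite_eq' B a, if_pos ha]

variable {th : V → V} {B : Finset V} {w0 : (V → Bool) → ℝ}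

theorem MM1_Good_q {F : (V → Bool) → ℝ} (hF : MM1_Good th B w0 F) {a : V} (ha : a ∈ B) :
    MM1_Good th B w0 (fun σ => MM1_q th σ a * F σ) := by
  intro m n
  have h := hF (fun b => m b + if b = a then 1 else 0) n
  refine le_trans h (le_of_eq (Finset.sum_congr rfl fun σ _ => ?_))
  rw [MM1_mono_q th B m n ha]
  ring

theorem MM1_Good_u {F : (V → Bool) → ℝ} (hF : MM1_Good th B w0 F) {a : V} (ha : a ∈ B) :
    MM1_Good th B w0 (fun σ => MM1_u th σ a * F σ) := by
  intro m n
  have h := hF m (fun b => n b + if b = a then 1 else 0)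
  refine le_trans h (le_of_eq (Finset.sum_congr rfl fun σ _ => ?_))
  rw [MM1_mono_u th B m n ha]
  ring

theorem MM1_Good_add {F G : (V → Bool) → ℝ} (hF : MM1_Good th B w0 F)
    (hG : MM1_Good th B w0 G) : MM1_Good th B w0 (fun σ => F σ + G σ) := by
  intro m n
  have h := add_nonneg (hF m n) (hG m n)
  rw [← Finset.sum_add_distrib] at h
  refine le_trans h (le_of_eq (Finset.sum_congr rfl fun σ _ => ?_))
  ring

theorem MM1_Good_smul {F : (V → Bool) → ℝ} {c : ℝ} (hc : 0 ≤ c) (hF : MM1_Good th B w0 F) :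
    MM1_Good th B w0 (fun σ => c * F σ) := by
  intro m n
  have h := mul_nonneg hc (hF m n)
  rw [Finset.mul_sum] at h
  refine le_trans h (le_of_eq (Finset.sum_congr rfl fun σ _ => ?_))
  ring

theorem MM1_Good_exp {X : (V → Bool) → ℝ}
    (hX : ∀ F, MM1_Good th B w0 F → MM1_Good th B w0 (fun σ => X σ * F σ))
    {F : (V → Bool) → ℝ} (hF : MM1_Good th B w0 F) :
    MM1_Good th B w0 (fun σ => Real.exp (X σ) * F σ) := by
  have h1 : ∀ (k : ℕ) (c : ℝ), 0 ≤ c →
      MM1_Good th B w0 (fun σ => (1 + c * X σ) ^ k * F σ) := by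
    intro k c hc
    induction k with
    | zero =>
      have : (fun σ => (1 + c * X σ) ^ 0 * F σ) = F := by
        funext σ
        rw [pow_zero, one_mul]
      rw [this]
      exact hF
    | succ k ih =>
      have h2 := MM1_Good_add ih (MM1_Good_smul hc (hX _ ih))
      have : (fun σ => (1 + c * X σ) ^ (k + 1) * F σ) =
          fun σ => (1 + c * X σ) ^ k * F σ + c * (X σ * ((1 + c * X σ) ^ k * F σ)) := by
        funext σ
        rw [pow_succ]
        ring
      rw [this]
      exact h2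
  intro m n
  have h2 : Filter.Tendsto (fun k : ℕ => ∑ σ, MM1_mono th B m n σ *
      ((1 + X σ / (k : ℝ)) ^ k * F σ * w0 σ)) Filter.atTop
      (nhds (∑ σ, MM1_mono th B m n σ * (Real.exp (X σ) * F σ * w0 σ))) := by
    refine tendsto_finsetSum _ fun σ _ => ?_
    exact (((Real.tendsto_one_add_div_pow_exp (X σ)).mul_const (F σ)).mul_const (w0 σ)).const_mul _
  refine ge_of_tendsto' h2 fun k => ?_
  have h3 := h1 k ((k : ℝ)⁻¹) (by positivity) m n
  refine le_trans h3 (le_of_eq (Finset.sum_congr rfl fun σ _ => ?_))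
  rw [div_eq_inv_mul]

theorem MM1_Good_prod {ι : Type*} (S : Finset ι) (X : ι → (V → Bool) → ℝ)
    (hX : ∀ i ∈ S, ∀ F, MM1_Good th B w0 F → MM1_Good th B w0 (fun σ => X i σ * F σ))
    (h1 : MM1_Good th B w0 (fun _ => 1)) :
    MM1_Good th B w0 (fun σ => ∏ i ∈ S, Real.exp (X i σ)) := by
  classical
  induction S using Finset.induction_on with
  | empty => simpa using h1
  | insert i S hi ih =>
    have h2 := ih (fun j hj => hX j (Finset.mem_insert_of_mem hj))
    have h3 := MM1_Good_exp (hX i (Finset.mem_insert_self i S)) h2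
    have : (fun σ => ∏ j ∈ insert i S, Real.exp (X j σ)) =
        fun σ => Real.exp (X i σ) * ∏ j ∈ S, Real.exp (X j σ) := by
      funext σ
      rw [Finset.prod_insert hi]
    rw [this]
    exact h3

end MM1

variable {V E : Type*} [Fintype V] [DecidableEq V] [Fintype E] [DecidableEq E]

omit [Fintype V] [DecidableEq V] [DecidableEq E] in
theorem MM1_wS_sum (Γ : Gr V E) (β : ℝ) (σ : V → Bool) :
    Γ.wS β σ = Real.exp (-(β / 2) * ∑ e, (sp (σ (Γ.s e)) - sp (σ (Γ.r e))) ^ 2) := by
  unfold Gr.wS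
  rw [Finset.mul_sum, Real.exp_sum]

omit [Fintype V] [DecidableEq V] [DecidableEq E] in
theorem MM1_sum_th (Γ : Gr V E) (th : V → V) (ta : E → E) (h2 : ∀ e, ta (ta e) = e)
    (h3 : ∀ e, (Γ.s (ta e) = th (Γ.s e) ∧ Γ.r (ta e) = th (Γ.r e)) ∨
      (Γ.s (ta e) = th (Γ.r e) ∧ Γ.r (ta e) = th (Γ.s e))) (σ : V → Bool) :
    ∑ e, (sp (σ (th (Γ.s e))) - sp (σ (th (Γ.r e)))) ^ 2 =
      ∑ e, (sp (σ (Γ.s e)) - sp (σ (Γ.r e))) ^ 2 := by
  have hinv : Function.Involutive ta := h2
  rw [← Equiv.sum_comp hinv.toPerm (fun e => (sp (σ (Γ.s e)) - sp (σ (Γ.r e))) ^ 2)]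
  refine Finset.sum_congr rfl fun e _ => ?_
  show _ = (sp (σ (Γ.s (ta e))) - sp (σ (Γ.r (ta e)))) ^ 2
  rcases h3 e with ⟨h4, h5⟩ | ⟨h4, h5⟩
  · rw [h4, h5]
  · rw [h4, h5]
    ring

omit [Fintype V] [DecidableEq V] [DecidableEq E] in
theorem MM1_wS_th (Γ : Gr V E) (β : ℝ) (th : V → V) (ta : E → E) (h2 : ∀ e, ta (ta e) = e)
    (h3 : ∀ e, (Γ.s (ta e) = th (Γ.s e) ∧ Γ.r (ta e) = th (Γ.r e)) ∨
      (Γ.s (ta e) = th (Γ.r e) ∧ Γ.r (ta e) = th (Γ.s e))) (σ : V → Bool) :
    Γ.wS β (fun x => σ (th x)) = Γ.wS β σ := by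
  rw [MM1_wS_sum, MM1_wS_sum, ← MM1_sum_th Γ th ta h2 h3 σ]

omit [Fintype V] [DecidableEq V] [DecidableEq E] in
theorem MM1_wS_rep (Γ : Gr V E) (β : ℝ) (th : V → V) (ta : E → E) (h2 : ∀ e, ta (ta e) = e)
    (h3 : ∀ e, (Γ.s (ta e) = th (Γ.s e) ∧ Γ.r (ta e) = th (Γ.r e)) ∨
      (Γ.s (ta e) = th (Γ.r e) ∧ Γ.r (ta e) = th (Γ.s e))) (σ : V → Bool) :
    Γ.wS β σ = Real.exp (-(β * Fintype.card E)) *
      ∏ e, Real.exp (β / 4 * (MM1_q th σ (Γ.s e) * MM1_q th σ (Γ.r e) +
        MM1_u th σ (Γ.s e) * MM1_u th σ (Γ.r e))) := by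
  rw [MM1_wS_sum, ← Real.exp_sum, ← Real.exp_add]
  congr 1
  have h4 : ∑ e, (sp (σ (Γ.s e)) - sp (σ (Γ.r e))) ^ 2 =
      (1 / 2) * ∑ e, ((sp (σ (Γ.s e)) - sp (σ (Γ.r e))) ^ 2 +
        (sp (σ (th (Γ.s e))) - sp (σ (th (Γ.r e)))) ^ 2) := by
    rw [Finset.sum_add_distrib, MM1_sum_th Γ th ta h2 h3 σ]
    ring
  have h5 : ∀ e, (sp (σ (Γ.s e)) - sp (σ (Γ.r e))) ^ 2 +
        (sp (σ (th (Γ.s e))) - sp (σ (th (Γ.r e)))) ^ 2 =
      4 - (MM1_q th σ (Γ.s e) * MM1_q th σ (Γ.r e) +
        MM1_u th σ (Γ.s e) * MM1_u th σ (Γ.r e)) := by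
    intro e
    have a1 := SPN_sp_sq (σ (Γ.s e))
    have a2 := SPN_sp_sq (σ (Γ.r e))
    have a3 := SPN_sp_sq (σ (th (Γ.s e)))
    have a4 := SPN_sp_sq (σ (th (Γ.r e)))
    unfold MM1_q MM1_u
    linear_combination a1 + a2 + a3 + a4
  rw [h4, Finset.sum_congr rfl fun e _ => h5 e, Finset.sum_sub_distrib, Finset.sum_const,
    Finset.card_univ, nsmul_eq_mul, ← Finset.mul_sum]
  ring

theorem mms_abstract (Γ : Gr V E) {β : ℝ} (hβ : 0 ≤ β) (th : V → V) (ta : E → E) (L : Set V)
    (h1 : ∀ x, th (th x) = x) (h2 : ∀ e, ta (ta e) = e)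
    (h3 : ∀ e, (Γ.s (ta e) = th (Γ.s e) ∧ Γ.r (ta e) = th (Γ.r e)) ∨
      (Γ.s (ta e) = th (Γ.r e) ∧ Γ.r (ta e) = th (Γ.s e)))
    (h4 : ∀ x, x ∈ L → th x ∉ L) (h5 : ∀ x, x ∈ L ∨ th x ∈ L ∨ th x = x)
    (h6 : ∀ e, (Γ.s e ∈ L ∧ th (Γ.r e) ∈ L) ∨ (Γ.r e ∈ L ∧ th (Γ.s e) ∈ L) →
      Γ.r e = th (Γ.s e))
    {x y : V} (hx : x ∈ L ∨ th x = x) (hy : y ∈ L ∨ th y = y) :
    Γ.IsE β (fun σ => sp (σ x) * sp (σ (th y))) ≤ Γ.IsE β (fun σ => sp (σ x) * sp (σ y)) := by
  classical
  obtain ⟨B, hBdef⟩ : ∃ B : Finset V, ∀ a, a ∈ B ↔ (a ∈ L ∨ th a = a) :=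
    ⟨Finset.univ.filter (fun a => a ∈ L ∨ th a = a), fun a => by simp⟩
  obtain ⟨C, hC⟩ : ∃ C : Finset E, ∀ e, e ∈ C ↔
      ((Γ.s e ∈ L ∧ th (Γ.r e) ∈ L) ∨ (Γ.r e ∈ L ∧ th (Γ.s e) ∈ L)) :=
    ⟨Finset.univ.filter (fun e => (Γ.s e ∈ L ∧ th (Γ.r e) ∈ L) ∨ (Γ.r e ∈ L ∧ th (Γ.s e) ∈ L)),
      fun e => by simp⟩
  let X : E → (V → Bool) → ℝ := fun e σ =>
    β / 4 * (MM1_q th σ (Γ.s e) * MM1_q th σ (Γ.r e) + MM1_u th σ (Γ.s e) * MM1_u th σ (Γ.r e))
  let w0 : (V → Bool) → ℝ := fun σ => ∏ e ∈ C, Real.exp (X e σ)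
  have hB : ∀ a ∈ B, ∀ b ∈ B, b ≠ a → b ≠ th a := by
    intro a ha b hb hab hbt
    rcases (hBdef a).1 ha with haL | haF
    · rcases (hBdef b).1 hb with hbL | hbF
      · rw [hbt] at hbL
        exact h4 a haL hbL
      · apply hab
        rw [hbt, h1] at hbF
        rw [hbt]
        exact hbF.symm
    · exact hab (by rw [hbt, haF])
  have hw0 : ∀ σ, 0 ≤ w0 σ := fun σ => Finset.prod_nonneg fun e _ => (Real.exp_pos _).le
  have hinv : ∀ σ σ', MM1_inv th σ σ' → w0 σ = w0 σ' := by
    intro σ σ' h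
    refine Finset.prod_congr rfl fun e he => ?_
    have hr := h6 e ((hC e).1 he)
    have hs := h (Γ.s e)
    show Real.exp (β / 4 * (MM1_q th σ (Γ.s e) * MM1_q th σ (Γ.r e) +
        MM1_u th σ (Γ.s e) * MM1_u th σ (Γ.r e))) = Real.exp (β / 4 *
        (MM1_q th σ' (Γ.s e) * MM1_q th σ' (Γ.r e) + MM1_u th σ' (Γ.s e) * MM1_u th σ' (Γ.r e)))
    rw [hr]
    unfold MM1_q MM1_u
    rw [h1]
    congr 2
    linear_combination 4 * hs
  have hbase := MM1_base th B w0 h1 hB hw0 hinv
  have hX : ∀ e ∈ Cᶜ, ∀ F, MM1_Good th B w0 F → MM1_Good th B w0 (fun σ => X e σ * F σ) := by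
    intro e he F hF
    have heC : ¬ ((Γ.s e ∈ L ∧ th (Γ.r e) ∈ L) ∨ (Γ.r e ∈ L ∧ th (Γ.s e) ∈ L)) :=
      fun h => (Finset.mem_compl.1 he) ((hC e).2 h)
    have key : ∃ a ∈ B, ∃ b ∈ B, ∀ σ,
        MM1_q th σ (Γ.s e) * MM1_q th σ (Γ.r e) = MM1_q th σ a * MM1_q th σ b ∧
        MM1_u th σ (Γ.s e) * MM1_u th σ (Γ.r e) = MM1_u th σ a * MM1_u th σ b := by
      have hqn : ∀ (σ : V → Bool) a, MM1_q th σ (th a) = - MM1_q th σ a := by
        intro σ a
        unfold MM1_q
        rw [h1]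
        ring
      have hun : ∀ (σ : V → Bool) a, MM1_u th σ (th a) = MM1_u th σ a := by
        intro σ a
        unfold MM1_u
        rw [h1]
        ring
      have hq0 : ∀ (σ : V → Bool) a, th a = a → MM1_q th σ a = 0 := by
        intro σ a ha
        unfold MM1_q
        rw [ha, sub_self]
      by_cases hs : Γ.s e ∈ B
      · by_cases hr : Γ.r e ∈ B
        · exact ⟨_, hs, _, hr, fun σ => ⟨rfl, rfl⟩⟩
        · have hrL : th (Γ.r e) ∈ L := by
            rcases h5 (Γ.r e) with h | h | h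
            · exact absurd ((hBdef _).2 (Or.inl h)) hr
            · exact h
            · exact absurd ((hBdef _).2 (Or.inr h)) hr
          have hsF : th (Γ.s e) = Γ.s e := by
            rcases (hBdef _).1 hs with h | h
            · exact absurd (Or.inl ⟨h, hrL⟩) heC
            · exact h
          refine ⟨Γ.s e, hs, th (Γ.r e), (hBdef _).2 (Or.inl hrL), fun σ => ⟨?_, ?_⟩⟩
          · rw [hq0 σ _ hsF]
            ring
          · rw [hun]
      · have hsL : th (Γ.s e) ∈ L := by
          rcases h5 (Γ.s e) with h | h | h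
          · exact absurd ((hBdef _).2 (Or.inl h)) hs
          · exact h
          · exact absurd ((hBdef _).2 (Or.inr h)) hs
        by_cases hr : Γ.r e ∈ B
        · have hrF : th (Γ.r e) = Γ.r e := by
            rcases (hBdef _).1 hr with h | h
            · exact absurd (Or.inr ⟨h, hsL⟩) heC
            · exact h
          refine ⟨th (Γ.s e), (hBdef _).2 (Or.inl hsL), Γ.r e, hr, fun σ => ⟨?_, ?_⟩⟩
          · rw [hq0 σ _ hrF]
            ring
          · rw [hun]
        · have hrL : th (Γ.r e) ∈ L := by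
            rcases h5 (Γ.r e) with h | h | h
            · exact absurd ((hBdef _).2 (Or.inl h)) hr
            · exact h
            · exact absurd ((hBdef _).2 (Or.inr h)) hr
          refine ⟨th (Γ.s e), (hBdef _).2 (Or.inl hsL), th (Γ.r e), (hBdef _).2 (Or.inl hrL),
            fun σ => ⟨?_, ?_⟩⟩
          · rw [hqn, hqn]
            ring
          · rw [hun, hun]
    obtain ⟨a, ha, b, hb, hab⟩ := key
    have g1 := MM1_Good_q (MM1_Good_q hF hb) ha
    have g2 := MM1_Good_u (MM1_Good_u hF hb) ha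
    have g3 := MM1_Good_smul (c := β / 4) (by positivity) (MM1_Good_add g1 g2)
    have : (fun σ => X e σ * F σ) = fun σ => β / 4 * (MM1_q th σ a * (MM1_q th σ b * F σ) +
        MM1_u th σ a * (MM1_u th σ b * F σ)) := by
      funext σ
      show β / 4 * (MM1_q th σ (Γ.s e) * MM1_q th σ (Γ.r e) +
        MM1_u th σ (Γ.s e) * MM1_u th σ (Γ.r e)) * F σ = _
      rw [(hab σ).1, (hab σ).2]
      ring
    rw [this]
    exact g3
  have hprod := MM1_Good_prod Cᶜ X hX hbase
  have hfin := MM1_Good_q (MM1_Good_q hprod ((hBdef y).2 hy)) ((hBdef x).2 hx)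
    (fun _ => 0) (fun _ => 0)
  have hmono : ∀ σ, MM1_mono th B (fun _ => 0) (fun _ => 0) σ = 1 := by
    intro σ
    unfold MM1_mono
    simp
  have hpos : 0 ≤ ∑ σ, MM1_q th σ x * MM1_q th σ y * Γ.wS β σ := by
    have h7 := mul_nonneg (Real.exp_pos (-(β * Fintype.card E))).le hfin
    rw [Finset.mul_sum] at h7
    refine le_trans h7 (le_of_eq (Finset.sum_congr rfl fun σ _ => ?_))
    rw [hmono, MM1_wS_rep Γ β th ta h2 h3 σ]
    have h8 : ∏ e, Real.exp (β / 4 * (MM1_q th σ (Γ.s e) * MM1_q th σ (Γ.r e) +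
        MM1_u th σ (Γ.s e) * MM1_u th σ (Γ.r e))) =
        (∏ e ∈ Cᶜ, Real.exp (X e σ)) * w0 σ := by
      rw [mul_comm]
      exact (Finset.prod_mul_prod_compl C (fun e => Real.exp (X e σ))).symm
    rw [h8]
    ring
  have hinvth : Function.Involutive th := h1
  have hT : Function.Involutive (fun (σ : V → Bool) (s : V) => σ (th s)) := by
    intro σ
    funext s
    show σ (th (th s)) = σ s
    rw [h1]
  have hsym : ∀ a b : V, ∑ σ, sp (σ (th a)) * sp (σ (th b)) * Γ.wS β σ =
      ∑ σ, sp (σ a) * sp (σ b) * Γ.wS β σ := by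
    intro a b
    rw [← Equiv.sum_comp hT.toPerm (fun σ => sp (σ a) * sp (σ b) * Γ.wS β σ)]
    refine Finset.sum_congr rfl fun σ _ => ?_
    show _ = sp (σ (th a)) * sp (σ (th b)) * Γ.wS β (fun s => σ (th s))
    rw [MM1_wS_th Γ β th ta h2 h3 σ]
  have e1 := hsym x y
  have e2 := hsym x (th y)
  rw [h1 y] at e2
  have hexp : ∑ σ, MM1_q th σ x * MM1_q th σ y * Γ.wS β σ =
      ∑ σ, sp (σ x) * sp (σ y) * Γ.wS β σ - ∑ σ, sp (σ x) * sp (σ (th y)) * Γ.wS β σ -
      ∑ σ, sp (σ (th x)) * sp (σ y) * Γ.wS β σ +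
      ∑ σ, sp (σ (th x)) * sp (σ (th y)) * Γ.wS β σ := by
    rw [← Finset.sum_sub_distrib, ← Finset.sum_sub_distrib, ← Finset.sum_add_distrib]
    refine Finset.sum_congr rfl fun σ _ => ?_
    unfold MM1_q
    ring
  rw [hexp, e1, e2] at hpos
  unfold Gr.IsE
  apply div_le_div_of_nonneg_right _ (SPN_D_pos Γ β).le
  linarith

end H82.IC
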