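import Pool.Agent.H82.IC.MM1
import Pool.Agent.H82.IC.ISO
import Pool.Agent.H82.IC.UNI

/-!
# MM2: MMS for the infinite volume free measure and a lattice reflection

`g : LAut d` an involution (on vertices and edges), `L` one side.  `Λ = bE n ∪ (bE n).image gE`, `W = bx n ∪ (bx n).image gV`: both invariant under `g`, `Λ ⊆ bE (n+k)`.  The graph `Γ` with vertices `↥W`, edges `↥Λ` and the
restrictions of `gV`, `gE` satisfies the hypotheses of `mms_abstract`; `x, y ∈ bx n`.  `isE_tp`: `IsE (σ x σ y) = tp (τ) x y` on `Γ`, and this is `phiG β W Λ false (cn x y)`: `phiG_free` (`N = n + k`) and `tp_iso` / `fkE_conn`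
(`j` : `↥Λ → ↥(bE (n+k))` the inclusion, `η = ∅`, the ends of edges of `Λ` are in `W`; paths correspond).  So `phiG β W Λ false (cn x (gV y)) ≤ phiG β W Λ false (cn x y)`.
By `phiG_free_mono` (`bE n ⊆ Λ ⊆ bE (n+k)`, `cn` increasing) `phiB β n false (cn x z) ≤ phiG β W Λ false (cn x z) ≤ phiB β (n+k) false (cn x z)`, and both bounds tend to `μ (cn x z)` (`free_tendsto` with `S = ∅`,
`up ∅ = univ`).  Let `n → ∞`.
-/

set_option autoImplicit false

open Finset MeasureTheory Filter Topology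

namespace H82.IC

variable {d : ℕ}

/-- the finite graph with vertices `W` and edges `Λ`. -/
def MM2_G (W : Finset (Vx d)) (Λ : Finset (Ed d))
    (hW : ∀ e ∈ Λ, (Zl d).s e ∈ W ∧ (Zl d).r e ∈ W) : Gr ↥W ↥Λ where
  s e := ⟨(Zl d).s e.1, (hW e.1 e.2).1⟩
  r e := ⟨(Zl d).r e.1, (hW e.1 e.2).2⟩

theorem MM2_conn (W : Finset (Vx d)) (Λ : Finset (Ed d))
    (hW : ∀ e ∈ Λ, (Zl d).s e ∈ W ∧ (Zl d).r e ∈ W) (S : Set ↥Λ) (u v : ↥W) :
    (MM2_G W Λ hW).Conn S u v ↔ (Zl d).Conn (Subtype.val '' S) u.1 v.1 := by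
  constructor
  · intro h
    induction h with
    | refl => exact conn_refl _ _ _
    | tail _ hab ih =>
      refine ih.tail ?_
      obtain ⟨e, he, hx⟩ := hab
      refine ⟨e.1, ⟨e, he, rfl⟩, ?_⟩
      rcases hx with ⟨h3, h4⟩ | ⟨h3, h4⟩
      · exact Or.inl ⟨congrArg Subtype.val h3, congrArg Subtype.val h4⟩
      · exact Or.inr ⟨congrArg Subtype.val h3, congrArg Subtype.val h4⟩
  · intro h
    have key : ∀ w, (Zl d).Conn (Subtype.val '' S) u.1 w →
        ∃ hw : w ∈ W, (MM2_G W Λ hW).Conn S u ⟨w, hw⟩ := by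
      intro w hw
      induction hw with
      | refl => exact ⟨u.2, conn_refl _ _ _⟩
      | tail _ hab ih =>
        obtain ⟨ha, ihc⟩ := ih
        obtain ⟨_, ⟨e, he, rfl⟩, hx⟩ := hab
        rcases hx with ⟨h3, h4⟩ | ⟨h3, h4⟩
        · have hb := (hW e.1 e.2).2
          rw [h4] at hb
          exact ⟨hb, ihc.tail ⟨e, he, Or.inl ⟨Subtype.ext h3, Subtype.ext h4⟩⟩⟩
        · have hb := (hW e.1 e.2).1
          rw [h3] at hb
          exact ⟨hb, ihc.tail ⟨e, he, Or.inr ⟨Subtype.ext h3, Subtype.ext h4⟩⟩⟩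
    exact (key v.1 h).2

theorem MM2_mem_pul {E Λ : Type*} [Fintype Λ] (j : Λ → E) (ω : Finset E) (a : Λ) :
    a ∈ pul j ω ↔ j a ∈ ω := by
  unfold pul
  simp only [Finset.mem_filter, Finset.mem_univ, true_and]

theorem MM2_tp {β : ℝ} (hβ : 0 ≤ β) (W : Finset (Vx d)) (Λ : Finset (Ed d))
    (hW : ∀ e ∈ Λ, (Zl d).s e ∈ W ∧ (Zl d).r e ∈ W) (u v : ↥W) :
    (MM2_G W Λ hW).tp (fun _ => Real.tanh β) u v =
      phiG β W Λ (fun _ => false) (cn u.1 v.1) := by
  classical
  obtain ⟨N, hN⟩ := exists_bE Λ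
  rw [phiG_free hβ W Λ N hW hN, ← fkE_conn]
  obtain ⟨j', hj'⟩ : ∃ j' : ↥Λ → ↥(bE d N), ∀ a, (j' a).1 = a.1 :=
    ⟨fun a => ⟨a.1, hN a.2⟩, fun _ => rfl⟩
  have hinj : Function.Injective j' := by
    intro a b hab
    apply Subtype.ext
    rw [← hj' a, ← hj' b, hab]
  have himg : ∀ ω : Set ↥Λ, (Subtype.val '' (j' '' ω) : Set (Ed d)) = Subtype.val '' ω := by
    intro ω
    rw [Set.image_image]
    exact Set.image_congr fun a _ => hj' a
  have hcrs : ∀ (T : Set ↥(bE d N)) (x y : Vx d), (GN d N).Conn T x y ↔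
      (Zl d).Conn (Subtype.val '' T) x y := by
    intro T x y
    have hfin : T.Finite := Set.toFinite T
    have h1 := conn_rs (Zl d) (bE d N) hfin.toFinset x y
    have h2 : ((hfin.toFinset : Finset ↥(bE d N)) : Set ↥(bE d N)) = T := hfin.coe_toFinset
    have h3 : ((vl hfin.toFinset : Finset (Ed d)) : Set (Ed d)) = Subtype.val '' T := by
      unfold vl
      rw [Finset.coe_map, h2]
      rfl
    rw [h2, h3] at h1
    exact h1
  have h := fk_iso (MM2_G W Λ hW) (GN d N) (id : ↥Λ → ↥Λ) j' Function.injective_id hinj ∅ ∅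
    (fun _ => Finset.notMem_empty _) (fun _ => Finset.notMem_empty _)
    (fun ω a _ => by
      rw [Finset.coe_empty, Finset.coe_empty, Set.union_empty, Set.union_empty, Set.image_id,
        MM2_conn, hcrs, himg]
      have e1 : (GN d N).s (j' a) = (Zl d).s a.1 := by
        show (Zl d).s (j' a).1 = _
        rw [hj']
      have e2 : (GN d N).r (j' a) = (Zl d).r a.1 := by
        show (Zl d).r (j' a).1 = _
        rw [hj']
      rw [e1, e2]
      exact Iff.rfl)
    (fun _ => Real.tanh β) (T01_tanh β hβ) (fun ω => ind ((MM2_G W Λ hW).Conn (ω : Set ↥Λ) u v))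
  have h1 : ttf (id : ↥Λ → ↥Λ) ∅ (fun _ => Real.tanh β) = fun _ => Real.tanh β := by
    funext e
    unfold ttf
    rw [if_neg (Finset.notMem_empty _), dif_pos ⟨e, rfl⟩]
  have h2 : ttf j' ∅ (fun _ => Real.tanh β) =
      setT (sb (bE d N) (bE d N \ Λ)) ∅ (fun _ => Real.tanh β) := by
    funext e
    unfold ttf setT
    rw [if_neg (Finset.notMem_empty _), if_neg (Finset.notMem_empty _)]
    by_cases he : e.1 ∈ Λ
    · rw [dif_pos ⟨⟨e.1, he⟩, Subtype.ext (hj' _)⟩, if_neg]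
      rw [BR2_mem_sb, Finset.mem_sdiff]
      exact fun h => h.2 he
    · rw [dif_neg, if_pos]
      · rw [BR2_mem_sb, Finset.mem_sdiff]
        exact ⟨e.2, he⟩
      · rintro ⟨a, ha⟩
        apply he
        rw [← ha, hj']
        exact a.2
  have h3 : ∀ ω : Finset ↥Λ, pul (id : ↥Λ → ↥Λ) ω = ω := by
    intro ω
    ext a
    rw [MM2_mem_pul]
    rfl
  have h4 : ∀ ω' : Finset ↥(bE d N), ind ((MM2_G W Λ hW).Conn ((pul j' ω' : Finset ↥Λ) : Set ↥Λ) u v) =
      ind (glue Λ (fun _ => false) (vl ω') ∈ cn u.1 v.1) := by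
    intro ω'
    congr 1
    rw [MM2_conn]
    show _ = (Zl d).Conn (opn (glue Λ (fun _ => false) (vl ω'))) u.1 v.1
    have h5 : (Subtype.val '' ((pul j' ω' : Finset ↥Λ) : Set ↥Λ) : Set (Ed d)) =
        opn (glue Λ (fun _ => false) (vl ω')) := by
      ext e
      constructor
      · rintro ⟨a, ha, rfl⟩
        have ha' : j' a ∈ ω' := by
          exact (MM2_mem_pul j' ω' a).1 (Finset.mem_coe.1 ha)
        show glue Λ (fun _ => false) (vl ω') a.1 = true
        unfold glue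
        rw [if_pos a.2, decide_eq_true_eq, BR2_mem_vl]
        refine ⟨hN a.2, ?_⟩
        have : (⟨a.1, hN a.2⟩ : ↥(bE d N)) = j' a := Subtype.ext (hj' a).symm
        rw [this]
        exact ha'
      · intro he
        have he' : glue Λ (fun _ => false) (vl ω') e = true := he
        unfold glue at he'
        by_cases heΛ : e ∈ Λ
        · rw [if_pos heΛ, decide_eq_true_eq, BR2_mem_vl] at he'
          obtain ⟨h6, h7⟩ := he'
          refine ⟨⟨e, heΛ⟩, ?_, rfl⟩
          rw [Finset.mem_coe, MM2_mem_pul]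
          have : j' ⟨e, heΛ⟩ = ⟨e, h6⟩ := Subtype.ext (hj' _)
          rw [this]
          exact h7
        · rw [if_neg heΛ] at he'
          exact absurd he' (by simp)
    rw [h5]
  rw [h1, h2] at h
  simp only [h3] at h
  rw [h]
  congr 1
  funext ω'
  exact h4 ω'

theorem mms_lattice (hd : 2 ≤ d) {β : ℝ} (hβ : 0 ≤ β) {μ : Measure (Cf d)} (hμ : IsLim β false μ)
    (g : LAut d) (k : ℕ) (hk : ∀ x, nm (g.gV x) ≤ nm x + k) (h1 : ∀ x, g.gV (g.gV x) = x)
    (h2 : ∀ e, g.gE (g.gE e) = e) (L : Set (Vx d))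
    (h4 : ∀ x, x ∈ L → g.gV x ∉ L) (h5 : ∀ x, x ∈ L ∨ g.gV x ∈ L ∨ g.gV x = x)
    (h6 : ∀ e, ((Zl d).s e ∈ L ∧ g.gV ((Zl d).r e) ∈ L) ∨
      ((Zl d).r e ∈ L ∧ g.gV ((Zl d).s e) ∈ L) → (Zl d).r e = g.gV ((Zl d).s e))
    {x y : Vx d} (hx : x ∈ L ∨ g.gV x = x) (hy : y ∈ L ∨ g.gV y = y) :
    μ.real (cn x (g.gV y)) ≤ μ.real (cn x y) := by
  classical
  have hup : (up (∅ : Finset (Ed d)) : Set (Cf d)) = Set.univ := by
    ext ω
    simp [up]
  have hlim : ∀ z : Vx d, Tendsto (fun m => phiB β m false (cn x z)) atTop (𝓝 (μ.real (cn x z))) := by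
    intro z
    have h := free_tendsto hd hβ hμ ∅ x z
    simp only [hup, Set.inter_univ] at h
    exact h
  have hmain : ∀ n : ℕ, nm x ≤ n → nm y ≤ n →
      phiB β n false (cn x (g.gV y)) ≤ phiB β (n + k) false (cn x y) := by
    intro n hxn hyn
    obtain ⟨Λ, hΛ⟩ : ∃ Λ : Finset (Ed d), Λ = bE d n ∪ (bE d n).image g.gE := ⟨_, rfl⟩
    obtain ⟨W, hWd⟩ : ∃ W : Finset (Vx d), W = bx d n ∪ (bx d n).image g.gV := ⟨_, rfl⟩
    have hWm : ∀ z, z ∈ W ↔ nm z ≤ n ∨ nm (g.gV z) ≤ n := by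
      intro z
      rw [hWd, Finset.mem_union, mem_bx, Finset.mem_image]
      constructor
      · rintro (h | ⟨w, hw, rfl⟩)
        · exact Or.inl h
        · right
          rw [h1]
          exact mem_bx.1 hw
      · rintro (h | h)
        · exact Or.inl h
        · exact Or.inr ⟨g.gV z, mem_bx.2 h, h1 z⟩
    have hΛm : ∀ e, e ∈ Λ ↔ e ∈ bE d n ∨ g.gE e ∈ bE d n := by
      intro e
      rw [hΛ, Finset.mem_union, Finset.mem_image]
      constructor
      · rintro (h | ⟨w, hw, rfl⟩)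
        · exact Or.inl h
        · right
          rw [h2]
          exact hw
      · rintro (h | h)
        · exact Or.inl h
        · exact Or.inr ⟨g.gE e, h, h2 e⟩
    have hW : ∀ e ∈ Λ, (Zl d).s e ∈ W ∧ (Zl d).r e ∈ W := by
      intro e he
      rw [hWm, hWm]
      rcases (hΛm e).1 he with h | h
      · rw [mem_bE] at h
        exact ⟨Or.inl h.1, Or.inl h.2⟩
      · rw [mem_bE] at h
        rcases g.ok e with ⟨h3, h3'⟩ | ⟨h3, h3'⟩
        · rw [h3, h3'] at h
          exact ⟨Or.inr h.1, Or.inr h.2⟩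
        · rw [h3, h3'] at h
          exact ⟨Or.inr h.2, Or.inr h.1⟩
    have hthW : ∀ z ∈ W, g.gV z ∈ W := by
      intro z hz
      rw [hWm] at hz ⊢
      rw [h1]
      exact hz.symm
    have htaΛ : ∀ e ∈ Λ, g.gE e ∈ Λ := by
      intro e he
      rw [hΛm] at he ⊢
      rw [h2]
      exact he.symm
    have hxW : x ∈ W := (hWm x).2 (Or.inl hxn)
    have hyW : y ∈ W := (hWm y).2 (Or.inl hyn)
    have hmms := mms_abstract (MM2_G W Λ hW) hβ (fun z => ⟨g.gV z.1, hthW z.1 z.2⟩)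
      (fun e => ⟨g.gE e.1, htaΛ e.1 e.2⟩) {z : ↥W | z.1 ∈ L}
      (fun z => Subtype.ext (h1 z.1)) (fun e => Subtype.ext (h2 e.1))
      (fun e => by
        rcases g.ok e.1 with ⟨h3, h3'⟩ | ⟨h3, h3'⟩
        · exact Or.inl ⟨Subtype.ext h3, Subtype.ext h3'⟩
        · exact Or.inr ⟨Subtype.ext h3, Subtype.ext h3'⟩)
      (fun z hz => h4 z.1 hz)
      (fun z => by
        rcases h5 z.1 with h | h | h
        · exact Or.inl h
        · exact Or.inr (Or.inl h)
        · exact Or.inr (Or.inr (Subtype.ext h)))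
      (fun e he => Subtype.ext (h6 e.1 he))
      (x := ⟨x, hxW⟩) (y := ⟨y, hyW⟩)
      (hx.imp id fun h => Subtype.ext h) (hy.imp id fun h => Subtype.ext h)
    rw [isE_tp, isE_tp, MM2_tp hβ, MM2_tp hβ] at hmms
    have hsub1 : bE d n ⊆ Λ := fun e he => (hΛm e).2 (Or.inl he)
    have hsub2 : Λ ⊆ bE d (n + k) := by
      intro e he
      rcases (hΛm e).1 he with h | h
      · exact bE_mono (by omega) h
      · have h3 := aut_bE_le g k hk n h
        rwa [h2] at h3
    have l1 : phiB β n false (cn x (g.gV y)) ≤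
        phiG β W Λ (fun _ => false) (cn x (g.gV y)) :=
      phiG_free_mono hβ (bx d n) W (bE d n) Λ (BR2_hW n) hW hsub1 (inc_cn _ _)
    have l2 : phiG β W Λ (fun _ => false) (cn x y) ≤ phiB β (n + k) false (cn x y) :=
      phiG_free_mono hβ W (bx d (n + k)) Λ (bE d (n + k)) hW (BR2_hW (n + k)) hsub2 (inc_cn _ _)
    exact l1.trans (le_trans hmms l2)
  have hlim2 : Tendsto (fun m => phiB β (m + k) false (cn x y)) atTop (𝓝 (μ.real (cn x y))) :=
    (hlim y).comp (tendsto_add_atTop_nat k)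
  refine le_of_tendsto_of_tendsto (hlim (g.gV y)) hlim2 ?_
  filter_upwards [eventually_ge_atTop (max (nm x) (nm y))] with n hn
  exact hmain n (le_trans (le_max_left _ _) hn) (le_trans (le_max_right _ _) hn)

end H82.IC
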