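import Pool.Agent.H82.IC.MM2

/-!
# MM3: monotonicity and transfers for `G x = μ (cn 0 x)`

* `axis reflection`, `i`, `K : ℤ`: `gV x = Function.update x i (K - x i)`, `gE (x, i) = (update x i (K - x i - 1), i)` (reversed), `gE (x, j) = (gV x, j)` for `j ≠ i`; `nm (gV x) ≤ nm x + |K|`;
  `L = {x | 2 x i < K}`; fixed points `2 x i = K`; an edge joining `2 x i < K` and `K < 2 (x i + 1)` has `2 x i + 1 = K`, so `gV x = x + e_i`.  For `0 ≤ K`, `2 y i ≤ K`: `G (gV y) ≤ G y` (`mms_lattice` with `x = 0`).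
  `G_mono`: `|b| ≤ |z i|` implies `G z ≤ G (update z i b)`: if `z i ≥ 0` take `K = z i + b ≥ 0`, `y = update z i b` (`2b ≤ K`, `gV y = z`).  If `z i < 0` use the invariance under the reflection `K = 0`
  (`lim_aut`, or the case `K = 0` of the above for `y` with `y i ≤ 0`: `G (update y i (-y i)) ≤ G y`), so `G z = G (update z i (-z i))`.
* `diagonal reflection`, `i ≠ j`, `K : ℤ`: `gV x` exchanges: new `i`-coordinate `x j + K`, new `j`-coordinate `x i - K`; edges: direction `i` ↔ direction `j` (orientation preserved: `gE (x, i) = (gV x, j)`,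
  `gE (x, j) = (gV x, i)`), other directions kept; `nm (gV x) ≤ nm x + |K|`; `L = {x | x i - x j < K}`; fixed points `x i - x j = K`; `gV` maps `x i - x j` to `2K - (x i - x j)`; no edge joins the two sides strictly
  (the difference changes by at most one).  For `0 ≤ K`, `y i - y j ≤ K`: `G (gV y) ≤ G y`.
  `G_transfer`: `0 ≤ k ≤ z i - z j`: `G z ≤ G z'` with `z' = update (update z i (z i - k)) j (z j + k)`: let `y` have `y i = z j + k`, `y j = z i - k` (other coordinates as `z`), `K = k`:
  `y i - y j = z j - z i + 2k ≤ k`, `gV y = z`; so `G z ≤ G y`, and `G y = G z'` by the transposition of the coordinates `i, j` (`exists_pmA`, `lim_aut`, `nm_perm`).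
* `G_perm`: invariance under permutations of the coordinates.
-/

set_option autoImplicit false

open Finset MeasureTheory Filter Topology

namespace H82.IC

variable {d : ℕ}

/-- the properties of the two point function used in the sequel. -/
structure Mms {d : ℕ} (G : Vx d → ℝ) : Prop where
  nonneg : ∀ x, 0 ≤ G x
  le_one : ∀ x, G x ≤ 1
  mono : ∀ (z : Vx d) (i : Fin d) (b : ℤ), |b| ≤ |z i| → G z ≤ G (Function.update z i b)
  transfer : ∀ (z : Vx d) (i j : Fin d) (k : ℤ), i ≠ j → 0 ≤ k → k ≤ z i - z j →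
    G z ≤ G (Function.update (Function.update z i (z i - k)) j (z j + k))
  perm : ∀ (π : Equiv.Perm (Fin d)) (x y : Vx d), (∀ i, y (π i) = x i) → G y = G x
  neg : ∀ x, G (-x) = G x

/-- axis reflection -/
def MM3_av (i : Fin d) (K : ℤ) (x : Vx d) : Vx d := Function.update x i (K - x i)

theorem MM3_av_same (i : Fin d) (K : ℤ) (x : Vx d) : MM3_av i K x i = K - x i := by
  unfold MM3_av
  rw [Function.update_self]

theorem MM3_av_ne (i : Fin d) (K : ℤ) (x : Vx d) {l : Fin d} (h : l ≠ i) :
    MM3_av i K x l = x l := by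
  unfold MM3_av
  rw [Function.update_of_ne h]

/-- axis reflection of the edges -/
def MM3_ae (i : Fin d) (K : ℤ) (e : Ed d) : Ed d :=
  if e.2 = i then (MM3_av i (K - 1) e.1, e.2) else (MM3_av i K e.1, e.2)

theorem MM3_av_inv (i : Fin d) (K : ℤ) : Function.Involutive (MM3_av (d := d) i K) := by
  intro x
  funext l
  by_cases h : l = i
  · subst h
    rw [MM3_av_same, MM3_av_same]; ring
  · rw [MM3_av_ne i K _ h, MM3_av_ne i K _ h]

theorem MM3_ae_inv (i : Fin d) (K : ℤ) : Function.Involutive (MM3_ae (d := d) i K) := by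
  intro e
  by_cases h : e.2 = i
  · have h1 : MM3_ae i K e = (MM3_av i (K - 1) e.1, e.2) := if_pos h
    rw [h1]
    have h2 : MM3_ae i K (MM3_av i (K - 1) e.1, e.2)
        = (MM3_av i (K - 1) (MM3_av i (K - 1) e.1), e.2) := if_pos h
    rw [h2, MM3_av_inv]
  · have h1 : MM3_ae i K e = (MM3_av i K e.1, e.2) := if_neg h
    rw [h1]
    have h2 : MM3_ae i K (MM3_av i K e.1, e.2)
        = (MM3_av i K (MM3_av i K e.1), e.2) := if_neg h
    rw [h2, MM3_av_inv]

theorem MM3_axis (i : Fin d) (K : ℤ) : ∃ g : LAut d, (∀ x, g.gV x = MM3_av i K x) ∧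
    (∀ e, g.gE (g.gE e) = e) := by
  refine ⟨⟨(MM3_av_inv i K).toPerm, (MM3_ae_inv i K).toPerm, ?_⟩, fun x => rfl,
    fun e => MM3_ae_inv i K e⟩
  intro e
  show ((Zl d).s (MM3_ae i K e) = MM3_av i K ((Zl d).s e) ∧
    (Zl d).r (MM3_ae i K e) = MM3_av i K ((Zl d).r e)) ∨
    ((Zl d).s (MM3_ae i K e) = MM3_av i K ((Zl d).r e) ∧
      (Zl d).r (MM3_ae i K e) = MM3_av i K ((Zl d).s e))
  by_cases h : e.2 = i
  · right
    have h1 : MM3_ae i K e = (MM3_av i (K - 1) e.1, e.2) := if_pos h
    rw [h1]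
    constructor
    · show MM3_av i (K - 1) e.1 = MM3_av i K (e.1 + Pi.single e.2 1)
      rw [h]
      funext l
      by_cases hl : l = i
      · subst hl
        rw [MM3_av_same, MM3_av_same, Pi.add_apply, Pi.single_eq_same]; ring
      · rw [MM3_av_ne i _ _ hl, MM3_av_ne i _ _ hl, Pi.add_apply, Pi.single_eq_of_ne hl, add_zero]
    · show MM3_av i (K - 1) e.1 + Pi.single e.2 1 = MM3_av i K e.1
      rw [h]
      funext l
      by_cases hl : l = i
      · subst hl
        rw [Pi.add_apply, MM3_av_same, MM3_av_same, Pi.single_eq_same]; ring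
      · rw [Pi.add_apply, MM3_av_ne i _ _ hl, MM3_av_ne i _ _ hl, Pi.single_eq_of_ne hl, add_zero]
  · left
    have h1 : MM3_ae i K e = (MM3_av i K e.1, e.2) := if_neg h
    rw [h1]
    constructor
    · rfl
    · show MM3_av i K e.1 + Pi.single e.2 1 = MM3_av i K (e.1 + Pi.single e.2 1)
      funext l
      by_cases hl : l = i
      · subst hl
        have h2 : l ≠ e.2 := fun h3 => h h3.symm
        rw [Pi.add_apply, MM3_av_same, MM3_av_same, Pi.add_apply, Pi.single_eq_of_ne h2,
          add_zero, add_zero]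
      · rw [Pi.add_apply, MM3_av_ne i _ _ hl, MM3_av_ne i _ _ hl, Pi.add_apply]

theorem MM3_av_nm (i : Fin d) (K : ℤ) (x : Vx d) : nm (MM3_av i K x) ≤ nm x + K.natAbs := by
  rw [G1_nm_le]
  intro l
  by_cases h : l = i
  · subst h
    rw [MM3_av_same]
    have h1 := G1_le_nm x l
    omega
  · rw [MM3_av_ne i K x h]
    have h1 := G1_le_nm x l
    omega

theorem MM3_axisref (hd : 2 ≤ d) {β : ℝ} (hβ : 0 ≤ β) {μ : Measure (Cf d)}
    (hμ : IsLim β false μ) (i : Fin d) (K : ℤ) (hK : 0 ≤ K) (y : Vx d) (hy : 2 * y i ≤ K) :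
    μ.real (cn 0 (MM3_av i K y)) ≤ μ.real (cn 0 y) := by
  obtain ⟨g, hg, hE⟩ := MM3_axis (d := d) i K
  have key := mms_lattice hd hβ hμ g K.natAbs (fun x => by rw [hg]; exact MM3_av_nm i K x)
    (fun x => by rw [hg, hg]; exact MM3_av_inv i K x) hE {x | 2 * x i < K} ?_ ?_ ?_
    (x := 0) (y := y) ?_ ?_
  · rwa [hg] at key
  · intro x hx hx'
    rw [hg] at hx'
    simp only [Set.mem_ofPred_eq] at hx hx'
    rw [MM3_av_same] at hx'
    omega
  · intro x
    rw [hg]
    simp only [Set.mem_ofPred_eq]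
    rw [MM3_av_same]
    rcases lt_trichotomy (2 * x i) K with h | h | h
    · left; exact h
    · right; right
      unfold MM3_av
      have h2 : K - x i = x i := by omega
      rw [h2, Function.update_eq_self]
    · right; left; omega
  · rintro ⟨x, l⟩ hor
    have hs : (Zl d).s (x, l) = x := rfl
    have hr : (Zl d).r (x, l) = x + Pi.single l 1 := rfl
    rw [hs, hr] at hor ⊢
    rw [hg, hg] at hor
    rw [hg]
    simp only [Set.mem_ofPred_eq] at hor
    rw [MM3_av_same, MM3_av_same, Pi.add_apply] at hor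
    by_cases hl : l = i
    · subst hl
      rw [Pi.single_eq_same] at hor
      have hK2 : K = 2 * x l + 1 := by omega
      funext m
      by_cases hm : m = l
      · subst hm
        rw [MM3_av_same, Pi.add_apply, Pi.single_eq_same]
        omega
      · rw [MM3_av_ne l _ _ hm, Pi.add_apply, Pi.single_eq_of_ne hm, add_zero]
    · rw [Pi.single_eq_of_ne (Ne.symm hl)] at hor
      exfalso
      omega
  · rcases hK.lt_or_eq with h | h
    · left
      simp only [Set.mem_ofPred_eq, Pi.zero_apply]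
      omega
    · right
      rw [hg]
      funext l
      by_cases hl : l = i
      · subst hl
        rw [MM3_av_same, Pi.zero_apply]
        omega
      · rw [MM3_av_ne i _ _ hl]
  · rcases hy.lt_or_eq with h | h
    · left; exact h
    · right
      rw [hg]
      unfold MM3_av
      have h2 : K - y i = y i := by omega
      rw [h2, Function.update_eq_self]

theorem MM3_aut {β : ℝ} (hβ : 0 ≤ β) {μ : Measure (Cf d)} (hμ : IsLim β false μ) (g : LAut d)
    (hg : ∀ x, nm (g.gV x) = nm x) (h0 : g.gV 0 = 0) (x : Vx d) :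
    μ.real (cn 0 (g.gV x)) = μ.real (cn 0 x) := by
  have h := lim_aut hβ hμ g hg (cn 0 x) (meas_cn _ _)
  have e : {ω : Cf d | act g ω ∈ cn 0 x} = cn 0 (g.gV x) := by
    ext ω
    have h2 := act_cn g ω 0 x
    rw [h0] at h2
    exact h2
  rw [e] at h
  exact h

theorem MM3_refl {β : ℝ} (hβ : 0 ≤ β) {μ : Measure (Cf d)} (hμ : IsLim β false μ) (i : Fin d)
    (z : Vx d) : μ.real (cn 0 (MM3_av i 0 z)) = μ.real (cn 0 z) := by
  obtain ⟨g, hg, hE⟩ := MM3_axis (d := d) i 0
  have h1 := MM3_aut hβ hμ g ?_ ?_ z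
  · rwa [hg] at h1
  · intro x
    rw [hg]
    apply le_antisymm
    · have := MM3_av_nm i 0 x
      simpa using this
    · have := MM3_av_nm i 0 (MM3_av i 0 x)
      rw [MM3_av_inv] at this
      simpa using this
  · rw [hg]
    funext l
    by_cases hl : l = i
    · subst hl
      rw [MM3_av_same, Pi.zero_apply, sub_zero]
    · rw [MM3_av_ne i _ _ hl]

theorem MM3_mono0 (hd : 2 ≤ d) {β : ℝ} (hβ : 0 ≤ β) {μ : Measure (Cf d)}
    (hμ : IsLim β false μ) (z : Vx d) (i : Fin d) (b : ℤ) (hz : 0 ≤ z i) (hb : |b| ≤ z i) :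
    μ.real (cn 0 z) ≤ μ.real (cn 0 (Function.update z i b)) := by
  rw [abs_le] at hb
  have h := MM3_axisref hd hβ hμ i (z i + b) (by omega) (Function.update z i b) (by
    rw [Function.update_self]; omega)
  have e : MM3_av i (z i + b) (Function.update z i b) = z := by
    unfold MM3_av
    rw [Function.update_self, Function.update_idem]
    have h2 : z i + b - b = z i := by ring
    rw [h2, Function.update_eq_self]
  rwa [e] at h

theorem MM3_mono (hd : 2 ≤ d) {β : ℝ} (hβ : 0 ≤ β) {μ : Measure (Cf d)}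
    (hμ : IsLim β false μ) (z : Vx d) (i : Fin d) (b : ℤ) (hb : |b| ≤ |z i|) :
    μ.real (cn 0 z) ≤ μ.real (cn 0 (Function.update z i b)) := by
  rcases le_or_gt 0 (z i) with h | h
  · rw [abs_of_nonneg h] at hb
    exact MM3_mono0 hd hβ hμ z i b h hb
  · rw [abs_of_neg h] at hb
    have h1 := MM3_mono0 hd hβ hμ (MM3_av i 0 z) i b (by rw [MM3_av_same]; omega)
      (by rw [MM3_av_same]; omega)
    rw [MM3_refl hβ hμ i z] at h1
    have e : Function.update (MM3_av i 0 z) i b = Function.update z i b := by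
      unfold MM3_av
      rw [Function.update_idem]
    rwa [e] at h1

/-- diagonal reflection -/
def MM3_dv (i j : Fin d) (K : ℤ) (x : Vx d) : Vx d :=
  Function.update (Function.update x i (x j + K)) j (x i - K)

theorem MM3_dv_j (i j : Fin d) (K : ℤ) (x : Vx d) : MM3_dv i j K x j = x i - K := by
  unfold MM3_dv
  rw [Function.update_self]

theorem MM3_dv_i (i j : Fin d) (hij : i ≠ j) (K : ℤ) (x : Vx d) :
    MM3_dv i j K x i = x j + K := by
  unfold MM3_dv
  rw [Function.update_of_ne hij, Function.update_self]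

theorem MM3_dv_ne (i j : Fin d) (K : ℤ) (x : Vx d) {l : Fin d} (h1 : l ≠ i) (h2 : l ≠ j) :
    MM3_dv i j K x l = x l := by
  unfold MM3_dv
  rw [Function.update_of_ne h2, Function.update_of_ne h1]

theorem MM3_dv_inv (i j : Fin d) (hij : i ≠ j) (K : ℤ) :
    Function.Involutive (MM3_dv (d := d) i j K) := by
  intro x
  funext l
  by_cases h1 : l = i
  · subst h1
    rw [MM3_dv_i l j hij, MM3_dv_j]; ring
  · by_cases h2 : l = j
    · subst h2
      rw [MM3_dv_j, MM3_dv_i i l hij]; ring
    · rw [MM3_dv_ne i j K _ h1 h2, MM3_dv_ne i j K _ h1 h2]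

/-- diagonal reflection of the edges -/
def MM3_de (i j : Fin d) (K : ℤ) (e : Ed d) : Ed d := (MM3_dv i j K e.1, Equiv.swap i j e.2)

theorem MM3_de_inv (i j : Fin d) (hij : i ≠ j) (K : ℤ) :
    Function.Involutive (MM3_de (d := d) i j K) := by
  intro e
  show (MM3_dv i j K (MM3_dv i j K e.1), Equiv.swap i j (Equiv.swap i j e.2)) = e
  rw [MM3_dv_inv i j hij, Equiv.swap_apply_self]

theorem MM3_diag (i j : Fin d) (hij : i ≠ j) (K : ℤ) :
    ∃ g : LAut d, (∀ x, g.gV x = MM3_dv i j K x) ∧ (∀ e, g.gE (g.gE e) = e) := by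
  refine ⟨⟨(MM3_dv_inv i j hij K).toPerm, (MM3_de_inv i j hij K).toPerm, ?_⟩, fun x => rfl,
    fun e => MM3_de_inv i j hij K e⟩
  intro e
  left
  refine ⟨rfl, ?_⟩
  show MM3_dv i j K e.1 + Pi.single (Equiv.swap i j e.2) 1
    = MM3_dv i j K (e.1 + Pi.single e.2 1)
  funext l
  rw [Pi.add_apply]
  by_cases h1 : l = i
  · subst h1
    rw [MM3_dv_i l j hij, MM3_dv_i l j hij, Pi.add_apply]
    by_cases h3 : e.2 = j
    · rw [h3, Equiv.swap_apply_right, Pi.single_eq_same, Pi.single_eq_same]; ring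
    · have h4 : l ≠ Equiv.swap l j e.2 := by
        intro h5
        have h6 := congrArg (Equiv.swap l j) h5
        rw [Equiv.swap_apply_self, Equiv.swap_apply_left] at h6
        exact h3 h6.symm
      rw [Pi.single_eq_of_ne h4, Pi.single_eq_of_ne (Ne.symm h3)]; ring
  · by_cases h2 : l = j
    · subst h2
      rw [MM3_dv_j, MM3_dv_j, Pi.add_apply]
      by_cases h3 : e.2 = i
      · rw [h3, Equiv.swap_apply_left, Pi.single_eq_same, Pi.single_eq_same]; ring
      · have h4 : l ≠ Equiv.swap i l e.2 := by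
          intro h5
          have h6 := congrArg (Equiv.swap i l) h5
          rw [Equiv.swap_apply_self, Equiv.swap_apply_right] at h6
          exact h3 h6.symm
        rw [Pi.single_eq_of_ne h4, Pi.single_eq_of_ne (Ne.symm h3)]; ring
    · rw [MM3_dv_ne i j K _ h1 h2, MM3_dv_ne i j K _ h1 h2, Pi.add_apply]
      congr 1
      by_cases h3 : l = e.2
      · have h4 : Equiv.swap i j e.2 = e.2 := Equiv.swap_apply_of_ne_of_ne
          (by rw [← h3]; exact h1) (by rw [← h3]; exact h2)
        rw [h4]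
      · have h4 : l ≠ Equiv.swap i j e.2 := by
          intro h5
          have h6 := congrArg (Equiv.swap i j) h5
          rw [Equiv.swap_apply_self, Equiv.swap_apply_of_ne_of_ne h1 h2] at h6
          exact h3 h6
        rw [Pi.single_eq_of_ne h4, Pi.single_eq_of_ne h3]

theorem MM3_dv_nm (i j : Fin d) (hij : i ≠ j) (K : ℤ) (x : Vx d) :
    nm (MM3_dv i j K x) ≤ nm x + K.natAbs := by
  rw [G1_nm_le]
  intro l
  have hi := G1_le_nm x i
  have hj := G1_le_nm x j
  have hl := G1_le_nm x l
  by_cases h1 : l = i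
  · subst h1
    rw [MM3_dv_i l j hij]
    omega
  · by_cases h2 : l = j
    · subst h2
      rw [MM3_dv_j]
      omega
    · rw [MM3_dv_ne i j K _ h1 h2]
      omega

theorem MM3_dv_fix (i j : Fin d) (hij : i ≠ j) (K : ℤ) (x : Vx d) (h : x i - x j = K) :
    MM3_dv i j K x = x := by
  funext l
  by_cases h1 : l = i
  · subst h1
    rw [MM3_dv_i l j hij]
    omega
  · by_cases h2 : l = j
    · subst h2
      rw [MM3_dv_j]
      omega
    · rw [MM3_dv_ne i j K _ h1 h2]

theorem MM3_single_diff (i j l : Fin d) (hij : i ≠ j) :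
    -1 ≤ (Pi.single l 1 : Vx d) i - (Pi.single l 1 : Vx d) j ∧
      (Pi.single l 1 : Vx d) i - (Pi.single l 1 : Vx d) j ≤ 1 := by
  rw [Pi.single_apply, Pi.single_apply]
  split_ifs <;> constructor <;> norm_num

theorem MM3_diagref (hd : 2 ≤ d) {β : ℝ} (hβ : 0 ≤ β) {μ : Measure (Cf d)}
    (hμ : IsLim β false μ) (i j : Fin d) (hij : i ≠ j) (K : ℤ) (hK : 0 ≤ K) (y : Vx d)
    (hy : y i - y j ≤ K) :
    μ.real (cn 0 (MM3_dv i j K y)) ≤ μ.real (cn 0 y) := by
  obtain ⟨g, hg, hE⟩ := MM3_diag (d := d) i j hij K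
  have key := mms_lattice hd hβ hμ g K.natAbs
    (fun x => by rw [hg]; exact MM3_dv_nm i j hij K x)
    (fun x => by rw [hg, hg]; exact MM3_dv_inv i j hij K x) hE {x | x i - x j < K} ?_ ?_ ?_
    (x := 0) (y := y) ?_ ?_
  · rwa [hg] at key
  · intro x hx hx'
    rw [hg] at hx'
    simp only [Set.mem_ofPred_eq] at hx hx'
    rw [MM3_dv_i i j hij, MM3_dv_j] at hx'
    omega
  · intro x
    rw [hg]
    simp only [Set.mem_ofPred_eq]
    rw [MM3_dv_i i j hij, MM3_dv_j]
    rcases lt_trichotomy (x i - x j) K with h | h | h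
    · left; exact h
    · right; right
      exact MM3_dv_fix i j hij K x h
    · right; left; omega
  · rintro ⟨x, l⟩ hor
    exfalso
    have hs : (Zl d).s (x, l) = x := rfl
    have hr : (Zl d).r (x, l) = x + Pi.single l 1 := rfl
    rw [hs, hr, hg, hg] at hor
    simp only [Set.mem_ofPred_eq] at hor
    rw [MM3_dv_i i j hij, MM3_dv_j, MM3_dv_i i j hij, MM3_dv_j, Pi.add_apply, Pi.add_apply] at hor
    have h1 := MM3_single_diff i j l hij
    omega
  · rcases hK.lt_or_eq with h | h
    · left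
      simp only [Set.mem_ofPred_eq, Pi.zero_apply]
      omega
    · right
      rw [hg]
      exact MM3_dv_fix i j hij K 0 (by rw [Pi.zero_apply, Pi.zero_apply]; omega)
  · rcases hy.lt_or_eq with h | h
    · left; exact h
    · right
      rw [hg]
      exact MM3_dv_fix i j hij K y h

theorem MM3_perm {β : ℝ} (hβ : 0 ≤ β) {μ : Measure (Cf d)} (hμ : IsLim β false μ)
    (π : Equiv.Perm (Fin d)) (x y : Vx d) (h : ∀ i, y (π i) = x i) :
    μ.real (cn 0 y) = μ.real (cn 0 x) := by
  obtain ⟨g, hg⟩ := exists_pmA π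
  have e1 : ∀ x y : Vx d, (∀ i, y (π i) = x i) → g.gV x = y := by
    intro x y hxy
    funext l
    obtain ⟨i, rfl⟩ := π.surjective l
    rw [hg, hxy]
  have h1 := MM3_aut hβ hμ g (fun x => nm_perm π x _ (fun i => hg x i))
    (e1 0 0 (fun i => rfl)) x
  rwa [e1 x y h] at h1

theorem mms_G (hd : 2 ≤ d) {β : ℝ} (hβ : 0 ≤ β) {μ : Measure (Cf d)} (hμ : IsLim β false μ) :
    Mms (fun x : Vx d => μ.real (cn 0 x)) := by
  have := hμ.1
  refine ⟨fun x => measureReal_nonneg, fun x => measureReal_le_one, ?_, ?_, ?_, ?_⟩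
  · intro z i b hb
    exact MM3_mono hd hβ hμ z i b hb
  · intro z i j k hij hk hk2
    show μ.real (cn 0 z) ≤ μ.real (cn 0 _)
    set y : Vx d := Function.update (Function.update z i (z j + k)) j (z i - k) with hy
    have hyj : y j = z i - k := by rw [hy, Function.update_self]
    have hyi : y i = z j + k := by rw [hy, Function.update_of_ne hij, Function.update_self]
    have h1 := MM3_diagref hd hβ hμ i j hij k hk y (by rw [hyi, hyj]; omega)
    have e1 : MM3_dv i j k y = z := by
      funext l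
      by_cases h1 : l = i
      · subst h1
        rw [MM3_dv_i l j hij, hyj]
        ring
      · by_cases h2 : l = j
        · subst h2
          rw [MM3_dv_j, hyi]
          ring
        · rw [MM3_dv_ne i j k _ h1 h2, hy, Function.update_of_ne h2, Function.update_of_ne h1]
    rw [e1] at h1
    refine h1.trans (le_of_eq ?_)
    symm
    refine MM3_perm hβ hμ (Equiv.swap i j) y _ fun l => ?_
    by_cases h1 : l = i
    · subst h1
      rw [Equiv.swap_apply_left, Function.update_self, hyi]
    · by_cases h2 : l = j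
      · subst h2
        rw [Equiv.swap_apply_right, Function.update_of_ne hij, Function.update_self, hyj]
      · rw [Equiv.swap_apply_of_ne_of_ne h1 h2, Function.update_of_ne h2,
          Function.update_of_ne h1, hy, Function.update_of_ne h2, Function.update_of_ne h1]
  · intro π x y h
    exact MM3_perm hβ hμ π x y h
  · intro x
    obtain ⟨g, hg⟩ := exists_ngA (d := d)
    have h1 := MM3_aut hβ hμ g (fun x => by rw [hg]; exact nm_neg x) (by rw [hg, neg_zero]) x
    rw [hg] at h1
    exact h1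

end H82.IC
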