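import Pool.Agent.H82.IC.IV1

/-!
# PM1: limits of measures along an ultrafilter

`Cf d = Ed d → Bool` is a compact (Tychonoff), metrizable, second countable space with its Borel σ-algebra (`Pi.borelSpace`, `Ed d` countable, `Bool` discrete), so `ProbabilityMeasure (Cf d)` is compact
(`Mathlib/MeasureTheory/Measure/Prokhorov.lean`, instance), hence the ultrafilter `(hyperfilter ℕ).map (fun n => ν n)` converges to some `μ`
(`Ultrafilter.le_nhds_lim` / `isCompact_univ.ultrafilter_le_nhds`).  A cylinder event `X` is clopen (it depends on finitely many discrete coordinates): its frontier is empty, and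
`ProbabilityMeasure.tendsto_measure_of_null_frontier_of_tendsto` (any filter) gives the convergence of `ν n X`; or integrate the continuous indicator function.
-/

set_option autoImplicit false

open Finset MeasureTheory Filter Topology

namespace H82.IC

variable {d : ℕ}

theorem PM1_clopen {X : Set (Cf d)} (h : Lcl X) : IsClopen X := by
  obtain ⟨F, hF⟩ := h
  have hm : Continuous (fun (ω : Cf d) (e : F) => ω e) :=
    continuous_pi fun e => continuous_apply _
  have hX : X = (fun (ω : Cf d) (e : F) => ω e) ⁻¹' ((fun (ω : Cf d) (e : F) => ω e) '' X) := by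
    ext ω
    constructor
    · intro hω
      exact ⟨ω, hω, rfl⟩
    · rintro ⟨ω', hω', h1⟩
      refine (hF ω' ω fun e he => ?_).mp hω'
      exact congrFun h1 ⟨e, he⟩
  rw [hX]
  exact (isClopen_discrete _).preimage hm

theorem exists_ultra_limit (ν : ℕ → Measure (Cf d)) (hν : ∀ n, IsProbabilityMeasure (ν n)) :
    ∃ μ : Measure (Cf d), IsProbabilityMeasure μ ∧
      ∀ X : Set (Cf d), Lcl X → Tendsto (fun n => (ν n).real X) (hyperfilter ℕ) (𝓝 (μ.real X)) := by
  let P : ℕ → ProbabilityMeasure (Cf d) := fun n => ⟨ν n, hν n⟩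
  obtain ⟨μ, -, hμ⟩ := isCompact_univ.ultrafilter_le_nhds ((hyperfilter ℕ).map P) (by simp)
  have hlim : Tendsto P (hyperfilter ℕ) (𝓝 μ) := hμ
  refine ⟨μ, μ.2, fun X hX => ?_⟩
  have h1 := ProbabilityMeasure.tendsto_measure_of_isClopen_of_tendsto hlim (PM1_clopen hX)
  have h2 := (NNReal.tendsto_coe.2 h1)
  exact h2

/-- a sequence that converges along `atTop` converges to the same limit along the ultrafilter, so limits on
all cylinder events identify the measure. -/
theorem exists_limit (ν : ℕ → Measure (Cf d)) (hν : ∀ n, IsProbabilityMeasure (ν n))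
    (h : ∀ X : Set (Cf d), Lcl X → ∃ a : ℝ, Tendsto (fun n => (ν n).real X) atTop (𝓝 a)) :
    ∃ μ : Measure (Cf d), IsProbabilityMeasure μ ∧
      ∀ X : Set (Cf d), Lcl X → Tendsto (fun n => (ν n).real X) atTop (𝓝 (μ.real X)) := by
  obtain ⟨μ, hμ, hlim⟩ := exists_ultra_limit ν hν
  refine ⟨μ, hμ, fun X hX => ?_⟩
  obtain ⟨a, ha⟩ := h X hX
  have h1 : Tendsto (fun n => (ν n).real X) (hyperfilter ℕ) (𝓝 a) := by
    refine ha.mono_left ?_
    rw [← Nat.cofinite_eq_atTop]
    exact hyperfilter_le_cofinite
  rw [tendsto_nhds_unique (hlim X hX) h1]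
  exact ha

end H82.IC
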