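import Pool.Agent.H82.IC.GPD
import Pool.Agent.H82.IC.Defs

/-!
# RP1: reflection positivity for Ising spins with an edge field (abstract graph)

`Zh β h = ∑_σ ∏_e exp(-(β/2) (σ(s e) - σ(r e) + h e)^2)`, `σ : V → Bool`, `sp true = 1`, `sp false = -1`.
`Rfl Γ`: an involution `th` of the vertices exchanging `L` and its complement, an involution `ta` of the edges compatible with `th`: `os e = true`: orientation preserved,
`os e = false`: orientation reversed; every edge has both ends in `L`, or no end in `L`, or it is a crossing edge: exactly one end in `L`, and then `r e = th (s e)` (so `ta e` has the same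
two ends; we also ask `ta e = e` for crossing edges).
`foldL h`: `h` on the edges inside `L`, `± h (ta e)` on the edges inside the complement (sign `+` iff `os e = true`), `0` on the crossing edges.  `foldR h` symmetric.
THEOREM `rp`: `(Zh h)^2 ≤ Zh (foldL h) * Zh (foldR h)`.
Proof.  A configuration `σ : V → Bool` is a pair (`σ` on `L`, `σ` on `Lᶜ`); through `th` identify configurations of `Lᶜ` with configurations `τ` of `L`: so sum over pairs `(σ, τ)` of functions on the subtype `L`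
(value at `x ∈ L`: `σ x`; at `x ∉ L`: `τ (th x)`).  `A σ = ∏_{e inside L} exp(-(β/2)(σ(s e) - σ(r e) + h e)^2)`, `B τ = ∏_{e inside Lᶜ} exp(-(β/2)(τ(th (s e)) - τ(th (r e)) + h e)^2)`,
crossing edge `e` with `s e ∈ L`: factor `exp(-(β/2)(σ(s e) + h e - τ(s e))^2)` (`th (r e) = s e`), crossing with `s e ∉ L`, `r e ∈ L`: `(τ(r e) - σ(r e) + h e)^2 = (σ(r e) - h e - τ(r e))^2`.
So `Zh h = ∑_{σ,τ} A σ B τ exp(-(β/2) ∑_{e crossing} (p σ e - q τ e)^2)` with `p σ e = σ(left end) ± h e`, `q τ e = τ(left end)`; apply `gauss_cs` (`C` = type of the crossing edges):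
`∑_{σ,σ'} A σ A σ' exp(-(β/2) ∑ (p σ e - p σ' e)^2)`: the `h e` cancel, and this is `Zh (foldL h)`: for `σ'` on the complement side the product over the edges `e` inside `Lᶜ` of the folded field is `A σ'`
(reindex by `ta`, which maps the edges inside `Lᶜ` bijectively onto the edges inside `L`; the sign rule makes the factors equal, `(-x)^2 = x^2`).
In the same way `∑ B B exp = Zh (foldR h)` (for `foldR`: on edges inside `L` the field is `± h (ta e)`).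
-/

set_option autoImplicit false

open Finset

namespace H82.IC

/-- spin value. -/
def sp (b : Bool) : ℝ := if b = true then 1 else -1

section
variable {V E : Type*}

/-- reflection data. -/
structure Rfl (Γ : Gr V E) where
  L : Set V
  th : V → V
  ta : E → E
  os : E → Bool
  th_th : ∀ x, th (th x) = x
  ta_ta : ∀ e, ta (ta e) = e
  os_ta : ∀ e, os (ta e) = os e
  th_L : ∀ x, th x ∈ L ↔ x ∉ L
  keep : ∀ e, os e = true → Γ.s (ta e) = th (Γ.s e) ∧ Γ.r (ta e) = th (Γ.r e)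
  rev : ∀ e, os e = false → Γ.s (ta e) = th (Γ.r e) ∧ Γ.r (ta e) = th (Γ.s e)
  cross : ∀ e, ¬ (Γ.s e ∈ L ↔ Γ.r e ∈ L) → Γ.r e = th (Γ.s e) ∧ ta e = e

noncomputable def Rfl.foldL {Γ : Gr V E} (R : Rfl Γ) (h : E → ℝ) : E → ℝ :=
  open Classical in
  fun e => if Γ.s e ∈ R.L ∧ Γ.r e ∈ R.L then h e
    else if Γ.s e ∉ R.L ∧ Γ.r e ∉ R.L then (if R.os e = true then h (R.ta e) else - h (R.ta e))
    else 0

noncomputable def Rfl.foldR {Γ : Gr V E} (R : Rfl Γ) (h : E → ℝ) : E → ℝ :=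
  open Classical in
  fun e => if Γ.s e ∉ R.L ∧ Γ.r e ∉ R.L then h e
    else if Γ.s e ∈ R.L ∧ Γ.r e ∈ R.L then (if R.os e = true then h (R.ta e) else - h (R.ta e))
    else 0

end

variable {V E : Type*} [Fintype V] [DecidableEq V] [Fintype E] [DecidableEq E]

/-- partition function with an edge field. -/
noncomputable def Gr.Zh (Γ : Gr V E) (β : ℝ) (h : E → ℝ) : ℝ :=
  ∑ σ : V → Bool, ∏ e, Real.exp (-(β / 2) * (sp (σ (Γ.s e)) - sp (σ (Γ.r e)) + h e) ^ 2)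

section
variable {V E : Type*} {Γ : Gr V E}

/-- glue two configurations of the left part. -/
noncomputable def RP1_glu (R : Rfl Γ) (σ τ : R.L → Bool) : V → Bool :=
  open Classical in
  fun x => if h : x ∈ R.L then σ ⟨x, h⟩ else τ ⟨R.th x, (R.th_L x).mpr h⟩

theorem RP1_glu_mem (R : Rfl Γ) (σ τ : R.L → Bool) {x : V} (h : x ∈ R.L) :
    RP1_glu R σ τ x = σ ⟨x, h⟩ := by
  rw [RP1_glu, dif_pos h]

theorem RP1_glu_not (R : Rfl Γ) (σ τ : R.L → Bool) {x : V} (h : x ∉ R.L) :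
    RP1_glu R σ τ x = τ ⟨R.th x, (R.th_L x).mpr h⟩ := by
  rw [RP1_glu, dif_neg h]

/-- configurations are pairs of configurations of the left part. -/
noncomputable def RP1_eqv (R : Rfl Γ) : (R.L → Bool) × (R.L → Bool) ≃ (V → Bool) where
  toFun p := RP1_glu R p.1 p.2
  invFun ω := (fun x => ω x.1, fun x => ω (R.th x.1))
  left_inv := by
    rintro ⟨σ, τ⟩
    refine Prod.ext ?_ ?_
    · funext x
      exact RP1_glu_mem R σ τ x.2
    · funext x
      have h : R.th x.1 ∉ R.L := fun h => (R.th_L x.1).mp h x.2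
      change RP1_glu R σ τ (R.th x.1) = τ x
      rw [RP1_glu_not R σ τ h]
      congr 1
      exact Subtype.ext (R.th_th x.1)
  right_inv := by
    intro ω
    funext x
    change RP1_glu R (fun x => ω x.1) (fun x => ω (R.th x.1)) x = ω x
    by_cases h : x ∈ R.L
    · rw [RP1_glu_mem _ _ _ h]
    · rw [RP1_glu_not _ _ _ h]
      change ω (R.th (R.th x)) = ω x
      rw [R.th_th]

/-- spin of the symmetric extension. -/
noncomputable def RP1_S (R : Rfl Γ) (σ : R.L → Bool) (x : V) : ℝ := sp (RP1_glu R σ σ x)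

theorem RP1_S_th (R : Rfl Γ) (σ : R.L → Bool) (x : V) : RP1_S R σ (R.th x) = RP1_S R σ x := by
  unfold RP1_S
  by_cases h : x ∈ R.L
  · have h' : R.th x ∉ R.L := fun h1 => (R.th_L x).mp h1 h
    rw [RP1_glu_mem R σ σ h, RP1_glu_not R σ σ h']
    have : (⟨R.th (R.th x), (R.th_L (R.th x)).mpr h'⟩ : R.L) = ⟨x, h⟩ :=
      Subtype.ext (R.th_th x)
    rw [this]
  · have h' : R.th x ∈ R.L := (R.th_L x).mpr h
    rw [RP1_glu_mem R σ σ h', RP1_glu_not R σ σ h]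

theorem RP1_glu_L (R : Rfl Γ) (σ τ : R.L → Bool) {x : V} (h : x ∈ R.L) :
    sp (RP1_glu R σ τ x) = RP1_S R σ x := by
  unfold RP1_S
  rw [RP1_glu_mem R σ τ h, RP1_glu_mem R σ σ h]

theorem RP1_glu_R (R : Rfl Γ) (σ τ : R.L → Bool) {x : V} (h : x ∉ R.L) :
    sp (RP1_glu R σ τ x) = RP1_S R τ x := by
  unfold RP1_S
  rw [RP1_glu_not R σ τ h, RP1_glu_not R τ τ h]

/-- weight of an edge. -/
noncomputable def RP1_w (R : Rfl Γ) (β : ℝ) (h : E → ℝ) (σ : R.L → Bool) (e : E) : ℝ :=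
  Real.exp (-(β / 2) * (RP1_S R σ (Γ.s e) - RP1_S R σ (Γ.r e) + h e) ^ 2)

/-- left part. -/
noncomputable def RP1_A [Fintype E] (R : Rfl Γ) (β : ℝ) (h : E → ℝ) (σ : R.L → Bool) : ℝ :=
  open Classical in
  ∏ e, if Γ.s e ∈ R.L ∧ Γ.r e ∈ R.L then RP1_w R β h σ e else 1

/-- right part. -/
noncomputable def RP1_B [Fintype E] (R : Rfl Γ) (β : ℝ) (h : E → ℝ) (σ : R.L → Bool) : ℝ :=
  open Classical in
  ∏ e, if Γ.s e ∉ R.L ∧ Γ.r e ∉ R.L then RP1_w R β h σ e else 1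

/-- spin at a crossing edge. -/
noncomputable def RP1_q (R : Rfl Γ) (σ : R.L → Bool) (e : E) : ℝ :=
  open Classical in
  if (Γ.s e ∈ R.L ↔ Γ.r e ∈ R.L) then 0 else RP1_S R σ (Γ.s e)

/-- field at a crossing edge. -/
noncomputable def RP1_c (R : Rfl Γ) (h : E → ℝ) (e : E) : ℝ :=
  open Classical in
  if (Γ.s e ∈ R.L ↔ Γ.r e ∈ R.L) then 0 else if Γ.s e ∈ R.L then h e else - h e

theorem RP1_edge (R : Rfl Γ) (β : ℝ) (h : E → ℝ) (σ τ : R.L → Bool) (e : E) :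
    Real.exp (-(β / 2) * (sp (RP1_glu R σ τ (Γ.s e)) - sp (RP1_glu R σ τ (Γ.r e)) + h e) ^ 2) =
      (open Classical in if Γ.s e ∈ R.L ∧ Γ.r e ∈ R.L then RP1_w R β h σ e else 1) *
      (open Classical in if Γ.s e ∉ R.L ∧ Γ.r e ∉ R.L then RP1_w R β h τ e else 1) *
      Real.exp (-(β / 2) * ((RP1_q R σ e + RP1_c R h e) - RP1_q R τ e) ^ 2) := by
  by_cases hs : Γ.s e ∈ R.L <;> by_cases hr : Γ.r e ∈ R.L
  · rw [if_pos ⟨hs, hr⟩, if_neg (fun h => h.1 hs), RP1_q, RP1_q, RP1_c,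
      if_pos (iff_of_true hs hr), if_pos (iff_of_true hs hr), if_pos (iff_of_true hs hr),
      RP1_glu_L R σ τ hs, RP1_glu_L R σ τ hr, RP1_w]
    simp
  · have hc : ¬ (Γ.s e ∈ R.L ↔ Γ.r e ∈ R.L) := fun h => hr (h.mp hs)
    rw [if_neg (fun h => hr h.2), if_neg (fun h => h.1 hs), RP1_q, RP1_q, RP1_c,
      if_neg hc, if_neg hc, if_neg hc, if_pos hs,
      RP1_glu_L R σ τ hs, RP1_glu_R R σ τ hr, (R.cross e hc).1, RP1_S_th, one_mul, one_mul]
    congr 2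
    ring
  · have hc : ¬ (Γ.s e ∈ R.L ↔ Γ.r e ∈ R.L) := fun h => hs (h.mpr hr)
    rw [if_neg (fun h => hs h.1), if_neg (fun h => h.2 hr), RP1_q, RP1_q, RP1_c,
      if_neg hc, if_neg hc, if_neg hc, if_neg hs,
      RP1_glu_R R σ τ hs, RP1_glu_L R σ τ hr, (R.cross e hc).1, RP1_S_th, one_mul, one_mul]
    congr 2
    ring
  · rw [if_neg (fun h => hs h.1), if_pos ⟨hs, hr⟩, RP1_q, RP1_q, RP1_c,
      if_pos (iff_of_false hs hr), if_pos (iff_of_false hs hr), if_pos (iff_of_false hs hr),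
      RP1_glu_R R σ τ hs, RP1_glu_R R σ τ hr, RP1_w]
    simp

theorem RP1_Zh [Fintype V] [DecidableEq V] [Fintype E] [DecidableEq E] (R : Rfl Γ) (β : ℝ)
    (h : E → ℝ) [Fintype (R.L → Bool)] :
    Γ.Zh β h = ∑ σ : R.L → Bool, ∑ τ : R.L → Bool, RP1_A R β h σ * RP1_B R β h τ *
      Real.exp (-(β / 2) * ∑ e, ((RP1_q R σ e + RP1_c R h e) - RP1_q R τ e) ^ 2) := by
  classical
  rw [Gr.Zh, ← Equiv.sum_comp (RP1_eqv R), Fintype.sum_prod_type]
  apply Finset.sum_congr rfl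
  intro σ _
  apply Finset.sum_congr rfl
  intro τ _
  rw [Finset.mul_sum, Real.exp_sum, RP1_A, RP1_B, ← Finset.prod_mul_distrib,
    ← Finset.prod_mul_distrib]
  apply Finset.prod_congr rfl
  intro e _
  exact RP1_edge R β h σ τ e

theorem RP1_ta_L (R : Rfl Γ) (e : E) :
    (Γ.s (R.ta e) ∉ R.L ∧ Γ.r (R.ta e) ∉ R.L) ↔ (Γ.s e ∈ R.L ∧ Γ.r e ∈ R.L) := by
  cases ho : R.os e
  · obtain ⟨h1, h2⟩ := R.rev e ho
    rw [h1, h2, R.th_L, R.th_L, not_not, not_not]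
    exact and_comm
  · obtain ⟨h1, h2⟩ := R.keep e ho
    rw [h1, h2, R.th_L, R.th_L, not_not, not_not]

theorem RP1_ta_R (R : Rfl Γ) (e : E) :
    (Γ.s (R.ta e) ∈ R.L ∧ Γ.r (R.ta e) ∈ R.L) ↔ (Γ.s e ∉ R.L ∧ Γ.r e ∉ R.L) := by
  cases ho : R.os e
  · obtain ⟨h1, h2⟩ := R.rev e ho
    rw [h1, h2, R.th_L, R.th_L]
    exact and_comm
  · obtain ⟨h1, h2⟩ := R.keep e ho
    rw [h1, h2, R.th_L, R.th_L]

theorem RP1_w_ta (R : Rfl Γ) (β : ℝ) (h h' : E → ℝ) (σ : R.L → Bool) (e : E)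
    (hh : h' (R.ta e) = if R.os e = true then h e else - h e) :
    RP1_w R β h' σ (R.ta e) = RP1_w R β h σ e := by
  rw [RP1_w, RP1_w, hh]
  cases ho : R.os e
  · obtain ⟨h1, h2⟩ := R.rev e ho
    rw [h1, h2, RP1_S_th, RP1_S_th]
    simp only [Bool.false_eq_true, if_false]
    congr 2
    ring
  · obtain ⟨h1, h2⟩ := R.keep e ho
    rw [h1, h2, RP1_S_th, RP1_S_th]
    simp only [if_true]

theorem RP1_foldL_ta (R : Rfl Γ) (h : E → ℝ) (e : E) (he : Γ.s e ∈ R.L ∧ Γ.r e ∈ R.L) :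
    R.foldL h (R.ta e) = if R.os e = true then h e else - h e := by
  have h2 := (RP1_ta_L R e).mpr he
  rw [Rfl.foldL, if_neg (fun h3 => h2.1 h3.1), if_pos h2, R.os_ta, R.ta_ta]

theorem RP1_foldR_ta (R : Rfl Γ) (h : E → ℝ) (e : E) (he : Γ.s e ∉ R.L ∧ Γ.r e ∉ R.L) :
    R.foldR h (R.ta e) = if R.os e = true then h e else - h e := by
  have h2 := (RP1_ta_R R e).mpr he
  rw [Rfl.foldR, if_neg (fun h3 => h3.1 h2.1), if_pos h2, R.os_ta, R.ta_ta]

/-- the involution of the edges. -/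
def RP1_taE (R : Rfl Γ) : E ≃ E := ⟨R.ta, R.ta, R.ta_ta, R.ta_ta⟩

theorem RP1_A_foldL [Fintype E] (R : Rfl Γ) (β : ℝ) (h : E → ℝ) (σ : R.L → Bool) :
    RP1_A R β (R.foldL h) σ = RP1_A R β h σ := by
  rw [RP1_A, RP1_A]
  apply Finset.prod_congr rfl
  intro e _
  split_ifs with h1
  · rw [RP1_w, RP1_w, Rfl.foldL, if_pos h1]
  · rfl

theorem RP1_B_foldL [Fintype E] (R : Rfl Γ) (β : ℝ) (h : E → ℝ) (σ : R.L → Bool) :
    RP1_B R β (R.foldL h) σ = RP1_A R β h σ := by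
  classical
  rw [RP1_A, RP1_B, ← Equiv.prod_comp (RP1_taE R)]
  apply Finset.prod_congr rfl
  intro e _
  change (if Γ.s (R.ta e) ∉ R.L ∧ Γ.r (R.ta e) ∉ R.L then RP1_w R β (R.foldL h) σ (R.ta e)
    else 1) = _
  by_cases h1 : Γ.s e ∈ R.L ∧ Γ.r e ∈ R.L
  · rw [if_pos ((RP1_ta_L R e).mpr h1), if_pos h1, RP1_w_ta R β h _ σ e (RP1_foldL_ta R h e h1)]
  · rw [if_neg (fun h2 => h1 ((RP1_ta_L R e).mp h2)), if_neg h1]

theorem RP1_B_foldR [Fintype E] (R : Rfl Γ) (β : ℝ) (h : E → ℝ) (σ : R.L → Bool) :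
    RP1_B R β (R.foldR h) σ = RP1_B R β h σ := by
  rw [RP1_B, RP1_B]
  apply Finset.prod_congr rfl
  intro e _
  split_ifs with h1
  · rw [RP1_w, RP1_w, Rfl.foldR, if_pos h1]
  · rfl

theorem RP1_A_foldR [Fintype E] (R : Rfl Γ) (β : ℝ) (h : E → ℝ) (σ : R.L → Bool) :
    RP1_A R β (R.foldR h) σ = RP1_B R β h σ := by
  classical
  rw [RP1_A, RP1_B, ← Equiv.prod_comp (RP1_taE R)]
  apply Finset.prod_congr rfl
  intro e _
  change (if Γ.s (R.ta e) ∈ R.L ∧ Γ.r (R.ta e) ∈ R.L then RP1_w R β (R.foldR h) σ (R.ta e)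
    else 1) = _
  by_cases h1 : Γ.s e ∉ R.L ∧ Γ.r e ∉ R.L
  · rw [if_pos ((RP1_ta_R R e).mpr h1), if_pos h1, RP1_w_ta R β h _ σ e (RP1_foldR_ta R h e h1)]
  · rw [if_neg (fun h2 => h1 ((RP1_ta_R R e).mp h2)), if_neg h1]

theorem RP1_c_foldL (R : Rfl Γ) (h : E → ℝ) (e : E) : RP1_c R (R.foldL h) e = 0 := by
  rw [RP1_c]
  split_ifs with h1 h2
  · rfl
  · rw [Rfl.foldL, if_neg (fun h3 => h1 (iff_of_true h3.1 h3.2)),
      if_neg (fun h3 => h1 (iff_of_false h3.1 h3.2))]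
  · rw [Rfl.foldL, if_neg (fun h3 => h1 (iff_of_true h3.1 h3.2)),
      if_neg (fun h3 => h1 (iff_of_false h3.1 h3.2)), neg_zero]

theorem RP1_c_foldR (R : Rfl Γ) (h : E → ℝ) (e : E) : RP1_c R (R.foldR h) e = 0 := by
  rw [RP1_c]
  split_ifs with h1 h2
  · rfl
  · rw [Rfl.foldR, if_neg (fun h3 => h1 (iff_of_false h3.1 h3.2)),
      if_neg (fun h3 => h1 (iff_of_true h3.1 h3.2))]
  · rw [Rfl.foldR, if_neg (fun h3 => h1 (iff_of_false h3.1 h3.2)),
      if_neg (fun h3 => h1 (iff_of_true h3.1 h3.2)), neg_zero]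

end

theorem rp (Γ : Gr V E) (R : Rfl Γ) {β : ℝ} (hβ : 0 ≤ β) (h : E → ℝ) :
    (Γ.Zh β h) ^ 2 ≤ Γ.Zh β (R.foldL h) * Γ.Zh β (R.foldR h) := by
  classical
  have h1 : Γ.Zh β (R.foldL h) = ∑ σ : R.L → Bool, ∑ τ : R.L → Bool,
      RP1_A R β h σ * RP1_A R β h τ * Real.exp (-(β / 2) *
        ∑ e, ((RP1_q R σ e + RP1_c R h e) - (RP1_q R τ e + RP1_c R h e)) ^ 2) := by
    rw [RP1_Zh R β (R.foldL h)]
    apply Finset.sum_congr rfl
    intro σ _
    apply Finset.sum_congr rfl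
    intro τ _
    rw [RP1_A_foldL, RP1_B_foldL]
    congr 3
    apply Finset.sum_congr rfl
    intro e _
    rw [RP1_c_foldL]
    ring
  have h2 : Γ.Zh β (R.foldR h) = ∑ σ : R.L → Bool, ∑ τ : R.L → Bool,
      RP1_B R β h σ * RP1_B R β h τ * Real.exp (-(β / 2) *
        ∑ e, (RP1_q R σ e - RP1_q R τ e) ^ 2) := by
    rw [RP1_Zh R β (R.foldR h)]
    apply Finset.sum_congr rfl
    intro σ _
    apply Finset.sum_congr rfl
    intro τ _
    rw [RP1_A_foldR, RP1_B_foldR]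
    congr 3
    apply Finset.sum_congr rfl
    intro e _
    rw [RP1_c_foldR]
    ring
  rw [RP1_Zh R β h, h1, h2]
  exact gauss_cs hβ (fun σ e => RP1_q R σ e + RP1_c R h e) (fun τ e => RP1_q R τ e)
    (RP1_A R β h) (RP1_B R β h)

end H82.IC
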