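import Pool.Agent.H82.IC.SRG
import Pool.Agent.H82.IC.VB

/-!
# SC2: scales with shift regularity

Same construction as `scales` in SC.lean (copy its step lemma), with the additional requirement `P (L t) (L (t+1))` where `P L' L` is a property which for every `L'` holds for all large `L`
(in each step `L` can be chosen arbitrarily large: the candidates are `L ∈ [R, 2R]` with `R = 4^j` arbitrarily large).
`Sca2`: `Sca` together with `shr`: `∑_{v ∈ bx (L (t+1))} |G (v - u) - G v| ≤ δ fG (L (t+1))` for all `u ∈ bx (L t)`.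
`exists_sca2`: take `P L' L := ∀ u ∈ bx L', ∑_{v ∈ bx L} |G (v-u) - G v| ≤ δ fG L` (`shift_reg` for the finitely many `u ∈ bx L'`).
-/

set_option autoImplicit false

open Finset Filter Topology

namespace H82.IC

variable {d : ℕ}

structure Sca2 {d : ℕ} (G : Vx d → ℝ) (δ : ℝ) (l L : ℕ → ℕ) : Prop extends Sca G δ l L where
  shr : ∀ t, ∀ u ∈ bx d (L t), ∑ v ∈ bx d (L (t + 1)), |G (v - u) - G v| ≤ δ * fG G (L (t + 1))

theorem SC2_thr (hd : 2 ≤ d) (G : Vx d → ℝ) (hG : Mms G) (hs : ¬ Summable G) (δ : ℝ) (hδ : 0 < δ)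
    (L' : ℕ) :
    ∃ N : ℕ, ∀ L, N ≤ L → ∀ u ∈ bx d L', ∑ v ∈ bx d L, |G (v - u) - G v| ≤ δ * fG G L := by
  have h := fun u : Vx d => shift_reg hd G hG hs u δ hδ
  choose N hN using h
  refine ⟨(bx d L').sup N, fun L hL u hu => hN u L ?_⟩
  exact le_trans (Finset.le_sup (f := N) hu) hL

theorem exists_sca2 (hd : 2 ≤ d) (G : Vx d → ℝ) (hG : Mms G) (hlim : Tendsto G cofinite (𝓝 0))
    (hs : ¬ Summable G) (δ : ℝ) (hδ : 0 < δ) (hδ1 : δ < 1) (l0 : ℕ) :
    ∃ l L : ℕ → ℕ, (∀ t, l0 ≤ l t) ∧ Sca2 G δ l L := by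
  have h0 : ∀ x, 0 ≤ G x := hG.nonneg
  have h1 : ∀ x, G x ≤ 1 := hG.le_one
  have hit := SC_iter (α := ℕ × ℕ)
    (fun p => l0 ≤ p.1 ∧ p.1 < p.2 ∧ fG G (2 * p.2) ≤ 4 ^ (d + 1) * fG G p.2 ∧
      fG G p.1 ≤ δ * fG G p.2 ∧ 0 < fG G p.2)
    (fun p q => p.2 ≤ q.1 ∧ fG G (q.2 + p.2) ≤ (1 + δ) * fG G q.2 ∧
      (∀ x, q.1 ≤ nm x + p.2 →
        G x * ((bx d p.2).card : ℝ) ≤ δ * (fG G p.2 - fG G p.1)) ∧
      ∀ u ∈ bx d p.2, ∑ v ∈ bx d q.2, |G (v - u) - G v| ≤ δ * fG G q.2) ?_ ?_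
  · obtain ⟨s, hs⟩ := hit
    refine ⟨fun t => (s t).1, fun t => (s t).2, fun t => (hs t).1.1, ?_⟩
    exact
      { lt := fun t => (hs t).1.2.1
        le := fun t => (hs t).2.1
        dbl := fun t => (hs t).1.2.2.1
        small := fun t => (hs t).1.2.2.2.1
        pos := fun t => (hs t).1.2.2.2.2
        reg := fun t => (hs t).2.2.1
        far := fun t x hx => (hs t).2.2.2.1 x hx
        shr := fun t u hu => (hs t).2.2.2.2 u hu }
  · obtain ⟨L, a1, a2, a3, a4, -⟩ := SC_next h0 h1 hs hδ l0 0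
    exact ⟨(l0, L), le_rfl, a1, a2, a3, a4⟩
  · rintro ⟨l', L'⟩ ⟨b1, b2, b3, b4, b5⟩
    simp only at b1 b2 b3 b4 b5
    have hlt : 0 < fG G L' - fG G l' := by
      have : δ * fG G L' < fG G L' := by
        calc δ * fG G L' < 1 * fG G L' := mul_lt_mul_of_pos_right hδ1 b5
          _ = fG G L' := one_mul _
      linarith
    have hcard : (0 : ℝ) < ((bx d L').card : ℝ) := by
      rw [card_bx]
      positivity
    obtain ⟨n, hn⟩ := SC_far hlim (div_pos (mul_pos hδ hlt) hcard)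
    obtain ⟨N, hN⟩ := SC2_thr hd G hG hs δ hδ L'
    obtain ⟨L, a1, a2, a3, a4, a5⟩ := SC_next h0 h1 hs hδ (l0 + L' + n + N) L'
    refine ⟨(l0 + L' + n + N, L), ⟨by simp only; omega, a1, a2, a3, a4⟩,
      by simp only; omega, a5, ?_, ?_⟩
    · intro x hx
      simp only at hx ⊢
      have h3 := hn x (by omega)
      rwa [le_div_iff₀ hcard] at h3
    · intro u hu
      exact hN L (by omega) u hu

end H82.IC
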