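import Pool.Agent.H82.IC.RP1
import Pool.Agent.H82.IC.FK1

/-!
# SPN: spin representation of the two point function; the infrared bound

`IsE β f = ∑_σ f σ w σ / ∑_σ w σ`, `w σ = ∏_e exp(-(β/2)(σ(s e) - σ(r e))^2) > 0`.
* `isE_tp`: `(σ - σ')^2 = 2 - 2σσ'` for spins, `exp(-β + βσσ') = e^{-β} cosh β (1 + t σσ')`, `t = tanh β` (check for `σσ' = ±1`), so
  `IsE (σ_u σ_v) = ∑_σ σ_u σ_v ∏_e (1 + t σ(s e) σ(r e)) / ∑_σ ∏_e (1 + t ...)`.  Expand `∏_e (1 + x_e) = ∑_{η : E → ZMod 2} ∏_{η e ≠ 0} x_e` (`Finset.prod_one_add` over subsets; identify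
  subsets with `η`), and `∑_σ σ_u σ_v ∏_{η e ≠ 0} σ(s e)σ(r e) = ∏_x (∑_{b} sp(b)^{k(x)})`, `k(x)` = multiplicity, `= 2^|V|` if all multiplicities are even, i.e. iff `bd η = src u v`, and `0` otherwise.
  So the numerator is `2^|V| z t (src u v)` and the denominator `2^|V| z t 0`.
* `infrared`: from `hGD : ∀ h, Zh β h ≤ Zh β 0`.  Let `S σ = ∑_e h e (σ(s e) - σ(r e))`, `H = ∑ h e ^2`.  For `ε > 0`: `Zh (ε h)/Zh 0 = IsE (exp(-β ε S - (β/2) ε² H)) ≤ 1`, by the symmetry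
  `σ ↦ -σ` (`!`): `IsE (exp(-βεS)) = IsE (cosh(βεS)) ≥ 1 + (1/2)β²ε² IsE (S²)` (`Real.one_add_sq_div_two_le_cosh`-type inequality `1 + x²/2 ≤ cosh x`).
  So `1 + (1/2)β²ε² IsE(S²) ≤ exp((β/2)ε² H)` for all `ε > 0`; with `x = ε²`: `(exp((β/2) H x) - 1)/x → (β/2)H` as `x → 0+`, hence `(1/2)β² IsE(S²) ≤ (β/2) H`, i.e. `IsE(S²) ≤ H/β`.
* `isE_sqrt_add` (Minkowski): `√IsE((f+g)²) ≤ √IsE(f²) + √IsE(g²)` (Cauchy-Schwarz for the finite weighted sums).
-/

set_option autoImplicit false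

open Finset

namespace H82.IC

variable {V E : Type*} [Fintype V] [DecidableEq V] [Fintype E] [DecidableEq E]

/-- Ising weight and expectation. -/
noncomputable def Gr.wS (Γ : Gr V E) (β : ℝ) (σ : V → Bool) : ℝ :=
  ∏ e, Real.exp (-(β / 2) * (sp (σ (Γ.s e)) - sp (σ (Γ.r e))) ^ 2)

noncomputable def Gr.IsE (Γ : Gr V E) (β : ℝ) (f : (V → Bool) → ℝ) : ℝ :=
  (∑ σ : V → Bool, f σ * Γ.wS β σ) / ∑ σ : V → Bool, Γ.wS β σ

/-- auxiliary character. -/
noncomputable def SPN_ch (a : ZMod 2) (s : ℝ) : ℝ := if a = 0 then 1 else s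

omit [Fintype V] [DecidableEq V] [DecidableEq E] in
theorem SPN_wS_pos (Γ : Gr V E) (β : ℝ) (σ : V → Bool) : 0 < Γ.wS β σ := by
  unfold Gr.wS
  exact Finset.prod_pos fun e _ => Real.exp_pos _

omit [DecidableEq E] in
theorem SPN_D_pos (Γ : Gr V E) (β : ℝ) : 0 < ∑ σ : V → Bool, Γ.wS β σ :=
  Finset.sum_pos (fun σ _ => SPN_wS_pos Γ β σ) ⟨fun _ => true, Finset.mem_univ _⟩

theorem SPN_sp_sq (b : Bool) : sp b * sp b = 1 := by
  unfold sp
  cases b <;> norm_num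

theorem SPN_sp_or (b : Bool) : sp b = 1 ∨ sp b = -1 := by
  unfold sp
  cases b
  · right; simp
  · left; simp

theorem SPN_zmod2 (a : ZMod 2) : a = 0 ∨ a = 1 := by
  revert a
  decide

theorem SPN_ch_add (a b : ZMod 2) (c : Bool) :
    SPN_ch (a + b) (sp c) = SPN_ch a (sp c) * SPN_ch b (sp c) := by
  have h11 : (1 : ZMod 2) + 1 = 0 := by decide
  have h10 : (1 : ZMod 2) ≠ 0 := by decide
  unfold SPN_ch
  rcases SPN_zmod2 a with rfl | rfl <;> rcases SPN_zmod2 b with rfl | rfl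
  · simp
  · simp
  · simp
  · rw [h11, if_pos rfl, if_neg h10, SPN_sp_sq]

theorem SPN_ch_zero (s : ℝ) : SPN_ch 0 s = 1 := by
  unfold SPN_ch
  rw [if_pos rfl]

theorem SPN_ch_mul (a : ZMod 2) (s r : ℝ) : SPN_ch a (s * r) = SPN_ch a s * SPN_ch a r := by
  unfold SPN_ch
  by_cases h : a = 0
  · simp [h]
  · simp [h]

theorem SPN_ch_sum {ι : Type*} (I : Finset ι) (f : ι → ZMod 2) (c : Bool) :
    SPN_ch (∑ i ∈ I, f i) (sp c) = ∏ i ∈ I, SPN_ch (f i) (sp c) := by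
  classical
  induction I using Finset.induction_on with
  | empty => rw [Finset.sum_empty, Finset.prod_empty, SPN_ch_zero]
  | insert a s ha ih => rw [Finset.sum_insert ha, Finset.prod_insert ha, SPN_ch_add, ih]

theorem SPN_edge (β : ℝ) (a b : Bool) :
    Real.exp (-(β / 2) * (sp a - sp b) ^ 2) =
      (Real.exp (-β) * Real.cosh β) * (1 + Real.tanh β * (sp a * sp b)) := by
  have hc : Real.cosh β ≠ 0 := (Real.cosh_pos β).ne'
  have ht : Real.cosh β * Real.tanh β = Real.sinh β := by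
    rw [Real.tanh_eq_sinh_div_cosh]
    field_simp
  have key : (Real.exp (-β) * Real.cosh β) * (1 + Real.tanh β * (sp a * sp b)) =
      Real.exp (-β) * (Real.cosh β + Real.sinh β * (sp a * sp b)) := by
    rw [← ht]
    ring
  rw [key]
  have hp : Real.exp (-β) * (Real.cosh β + Real.sinh β) = 1 := by
    rw [Real.cosh_add_sinh, ← Real.exp_add]
    simp
  have hm : Real.exp (-β) * (Real.cosh β - Real.sinh β) = Real.exp (-(2 * β)) := by
    rw [Real.cosh_sub_sinh, ← Real.exp_add]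
    congr 1
    ring
  rcases SPN_sp_or a with h1 | h1 <;> rcases SPN_sp_or b with h2 | h2 <;> rw [h1, h2]
  · rw [show (1 : ℝ) * 1 = 1 from by norm_num, mul_one, hp]
    norm_num
  · rw [show (1 : ℝ) * -1 = -1 from by norm_num]
    rw [show Real.cosh β + Real.sinh β * -1 = Real.cosh β - Real.sinh β from by ring, hm]
    congr 1
    ring
  · rw [show (-1 : ℝ) * 1 = -1 from by norm_num]
    rw [show Real.cosh β + Real.sinh β * -1 = Real.cosh β - Real.sinh β from by ring, hm]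
    congr 1
    ring
  · rw [show (-1 : ℝ) * -1 = 1 from by norm_num, mul_one, hp]
    norm_num

theorem SPN_sum2 (f : ZMod 2 → ℝ) : ∑ a : ZMod 2, f a = f 0 + f 1 := Fin.sum_univ_two f

omit [Fintype V] [DecidableEq V] in
theorem SPN_expand (Γ : Gr V E) (β : ℝ) (σ : V → Bool) :
    Γ.wS β σ = (Real.exp (-β) * Real.cosh β) ^ Fintype.card E *
      ∑ η : E → ZMod 2, (∏ e, hp (fun _ : E => Real.tanh β) e (η e)) *
        ∏ e, (SPN_ch (η e) (sp (σ (Γ.s e))) * SPN_ch (η e) (sp (σ (Γ.r e)))) := by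
  have h1 : Γ.wS β σ = ∏ e, ((Real.exp (-β) * Real.cosh β) *
      ∑ a : ZMod 2, hp (fun _ : E => Real.tanh β) e a *
        (SPN_ch a (sp (σ (Γ.s e))) * SPN_ch a (sp (σ (Γ.r e))))) := by
    unfold Gr.wS
    refine Finset.prod_congr rfl fun e _ => ?_
    rw [SPN_edge, SPN_sum2]
    have h10 : (1 : ZMod 2) ≠ 0 := by decide
    unfold hp SPN_ch
    simp [h10]
  rw [h1, Finset.prod_mul_distrib, Finset.prod_const, Finset.card_univ]
  congr 1
  rw [Finset.prod_univ_sum, Fintype.piFinset_univ]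
  refine Finset.sum_congr rfl fun η _ => ?_
  rw [Finset.prod_mul_distrib]

theorem SPN_bd (Γ : Gr V E) (η : E → ZMod 2) (σ : V → Bool) :
    ∏ e, (SPN_ch (η e) (sp (σ (Γ.s e))) * SPN_ch (η e) (sp (σ (Γ.r e)))) =
      ∏ x, SPN_ch (Γ.bd η x) (sp (σ x)) := by
  classical
  have h2 : ∀ x, SPN_ch (Γ.bd η x) (sp (σ x)) =
      ∏ e, (SPN_ch (if Γ.s e = x then η e else 0) (sp (σ x)) *
        SPN_ch (if Γ.r e = x then η e else 0) (sp (σ x))) := by
    intro x
    unfold Gr.bd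
    rw [SPN_ch_sum]
    refine Finset.prod_congr rfl fun e _ => ?_
    rw [SPN_ch_add]
    congr 1
    · congr 1
      by_cases h : Γ.s e = x <;> simp [h]
    · congr 1
      by_cases h : Γ.r e = x <;> simp [h]
  simp_rw [h2]
  rw [Finset.prod_comm]
  refine Finset.prod_congr rfl fun e _ => ?_
  rw [Finset.prod_mul_distrib]
  congr 1
  · rw [Finset.prod_eq_single (Γ.s e)]
    · rw [if_pos rfl]
    · intro x _ hx
      rw [if_neg (fun h => hx h.symm), SPN_ch_zero]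
    · intro h
      exact absurd (Finset.mem_univ _) h
  · rw [Finset.prod_eq_single (Γ.r e)]
    · rw [if_pos rfl]
    · intro x _ hx
      rw [if_neg (fun h => hx h.symm), SPN_ch_zero]
    · intro h
      exact absurd (Finset.mem_univ _) h

theorem SPN_sumb (k : ZMod 2) : ∑ b : Bool, SPN_ch k (sp b) = 2 * ind (k = 0) := by
  rw [Fintype.sum_bool]
  unfold SPN_ch ind sp
  by_cases h : k = 0
  · simp [h]; norm_num
  · simp [h]

omit [DecidableEq V] in
theorem SPN_ind_forall (k : V → ZMod 2) : ∏ x, ind (k x = 0) = ind (k = 0) := by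
  by_cases h : k = 0
  · rw [ind_true h]
    refine Finset.prod_eq_one fun x _ => ?_
    exact ind_true (congrFun h x)
  · rw [ind_false h]
    have h1 : ∃ x, k x ≠ 0 := by
      by_contra hcon
      rw [not_exists] at hcon
      exact h (funext fun x => not_not.1 (hcon x))
    obtain ⟨x, hx⟩ := h1
    exact Finset.prod_eq_zero (Finset.mem_univ x) (ind_false hx)

theorem SPN_sumσ (k : V → ZMod 2) :
    ∑ σ : V → Bool, ∏ x, SPN_ch (k x) (sp (σ x)) = 2 ^ Fintype.card V * ind (k = 0) := by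
  have h1 := Finset.prod_univ_sum (fun _ : V => (univ : Finset Bool))
    (fun x b => SPN_ch (k x) (sp b))
  rw [Fintype.piFinset_univ] at h1
  rw [← h1]
  simp_rw [SPN_sumb]
  rw [Finset.prod_mul_distrib, Finset.prod_const, Finset.card_univ, SPN_ind_forall]

theorem SPN_add_eq_zero (a b : ZMod 2) : a + b = 0 ↔ b = a := by
  revert a b
  decide

theorem SPN_gen (Γ : Gr V E) (β : ℝ) (S : V → ZMod 2) :
    ∑ σ : V → Bool, (∏ x, SPN_ch (S x) (sp (σ x))) * Γ.wS β σ =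
      (Real.exp (-β) * Real.cosh β) ^ Fintype.card E * 2 ^ Fintype.card V *
        Γ.z (fun _ => Real.tanh β) S := by
  simp_rw [SPN_expand, SPN_bd]
  unfold Gr.z Gr.zz
  simp_rw [Finset.mul_sum]
  rw [Finset.sum_comm]
  refine Finset.sum_congr rfl fun η _ => ?_
  have h1 : ∀ σ : V → Bool, (∏ x, SPN_ch (S x) (sp (σ x))) *
      ((Real.exp (-β) * Real.cosh β) ^ Fintype.card E *
        ((∏ e, hp (fun _ : E => Real.tanh β) e (η e)) * ∏ x, SPN_ch (Γ.bd η x) (sp (σ x)))) =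
      ((Real.exp (-β) * Real.cosh β) ^ Fintype.card E *
        (∏ e, hp (fun _ : E => Real.tanh β) e (η e))) *
        ∏ x, SPN_ch (S x + Γ.bd η x) (sp (σ x)) := by
    intro σ
    have h2 : ∏ x, SPN_ch (S x + Γ.bd η x) (sp (σ x)) =
        (∏ x, SPN_ch (S x) (sp (σ x))) * ∏ x, SPN_ch (Γ.bd η x) (sp (σ x)) := by
      rw [← Finset.prod_mul_distrib]
      exact Finset.prod_congr rfl fun x _ => SPN_ch_add _ _ _
    rw [h2]
    ring
  simp_rw [h1]
  rw [← Finset.mul_sum, SPN_sumσ (fun x => S x + Γ.bd η x)]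
  have h3 : ((fun x => S x + Γ.bd η x) = 0) ↔ (Γ.bd η = S) := by
    constructor
    · intro h
      funext x
      exact (SPN_add_eq_zero _ _).1 (congrFun h x)
    · intro h
      funext x
      exact (SPN_add_eq_zero _ _).2 (congrFun h x)
  have h4 : ind ((fun x => S x + Γ.bd η x) = 0) = ind (Γ.bd η = S) := by
    by_cases h : Γ.bd η = S
    · rw [ind_true h, ind_true (h3.2 h)]
    · rw [ind_false h, ind_false (fun h' => h (h3.1 h'))]
  rw [h4]
  ring

theorem SPN_src (u v : V) (σ : V → Bool) :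
    ∏ x, SPN_ch (src u v x) (sp (σ x)) = sp (σ u) * sp (σ v) := by
  classical
  have h10 : (1 : ZMod 2) ≠ 0 := by decide
  have h1 : ∀ x, SPN_ch (src u v x) (sp (σ x)) =
      (if x = u then sp (σ x) else 1) * (if x = v then sp (σ x) else 1) := by
    intro x
    unfold src
    rw [SPN_ch_add]
    congr 1
    · by_cases h : x = u <;> simp [h, SPN_ch]
    · by_cases h : x = v <;> simp [h, SPN_ch]
  simp_rw [h1]
  rw [Finset.prod_mul_distrib, Finset.prod_ite_eq' univ u, Finset.prod_ite_eq' univ v]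
  simp

theorem isE_tp (Γ : Gr V E) (β : ℝ) (u v : V) :
    Γ.IsE β (fun σ => sp (σ u) * sp (σ v)) = Γ.tp (fun _ => Real.tanh β) u v := by
  unfold Gr.IsE Gr.tp
  have h1 := SPN_gen Γ β (src u v)
  have h2 := SPN_gen Γ β 0
  simp_rw [SPN_src] at h1
  have h3 : ∀ σ : V → Bool, ∏ x, SPN_ch ((0 : V → ZMod 2) x) (sp (σ x)) = 1 := by
    intro σ
    refine Finset.prod_eq_one fun x _ => ?_
    rw [Pi.zero_apply, SPN_ch_zero]
  simp_rw [h3, one_mul] at h2
  rw [h1, h2]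
  have hc : (Real.exp (-β) * Real.cosh β) ^ Fintype.card E * 2 ^ Fintype.card V ≠ 0 := by
    have h4 : 0 < Real.exp (-β) * Real.cosh β := mul_pos (Real.exp_pos _) (Real.cosh_pos β)
    positivity
  rw [mul_div_mul_left _ _ hc]

theorem isE_nonneg (Γ : Gr V E) (β : ℝ) {f : (V → Bool) → ℝ} (hf : ∀ σ, 0 ≤ f σ) :
    0 ≤ Γ.IsE β f := by
  unfold Gr.IsE
  exact div_nonneg (Finset.sum_nonneg fun σ _ => mul_nonneg (hf σ) (SPN_wS_pos Γ β σ).le)
    (SPN_D_pos Γ β).le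

theorem isE_sum {ι : Type*} (Γ : Gr V E) (β : ℝ) (I : Finset ι) (f : ι → (V → Bool) → ℝ) :
    Γ.IsE β (fun σ => ∑ i ∈ I, f i σ) = ∑ i ∈ I, Γ.IsE β (f i) := by
  unfold Gr.IsE
  rw [← Finset.sum_div, Finset.sum_comm]
  congr 1
  refine Finset.sum_congr rfl fun σ _ => ?_
  rw [Finset.sum_mul]

theorem isE_smul (Γ : Gr V E) (β : ℝ) (c : ℝ) (f : (V → Bool) → ℝ) :
    Γ.IsE β (fun σ => c * f σ) = c * Γ.IsE β f := by
  unfold Gr.IsE
  rw [← mul_div_assoc, Finset.mul_sum]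
  congr 1
  refine Finset.sum_congr rfl fun σ _ => ?_
  ring

theorem isE_minkowski (Γ : Gr V E) (β : ℝ) (f g : (V → Bool) → ℝ) :
    Real.sqrt (Γ.IsE β (fun σ => (f σ + g σ) ^ 2)) ≤
      Real.sqrt (Γ.IsE β (fun σ => f σ ^ 2)) + Real.sqrt (Γ.IsE β (fun σ => g σ ^ 2)) := by
  have hA : 0 ≤ Γ.IsE β (fun σ => f σ ^ 2) := isE_nonneg Γ β fun σ => sq_nonneg _
  have hB : 0 ≤ Γ.IsE β (fun σ => g σ ^ 2) := isE_nonneg Γ β fun σ => sq_nonneg _
  have hD := SPN_D_pos Γ β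
  have hcs : (Γ.IsE β (fun σ => f σ * g σ)) ^ 2 ≤
      Γ.IsE β (fun σ => f σ ^ 2) * Γ.IsE β (fun σ => g σ ^ 2) := by
    unfold Gr.IsE
    rw [div_pow, div_mul_div_comm, ← sq]
    refine div_le_div_of_nonneg_right ?_ (sq_nonneg _)
    have h1 := Finset.sum_mul_sq_le_sq_mul_sq (univ : Finset (V → Bool))
      (fun σ => f σ * Real.sqrt (Γ.wS β σ)) (fun σ => g σ * Real.sqrt (Γ.wS β σ))
    have e1 : ∀ σ, (f σ * Real.sqrt (Γ.wS β σ)) * (g σ * Real.sqrt (Γ.wS β σ)) =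
        f σ * g σ * Γ.wS β σ := by
      intro σ
      have := Real.mul_self_sqrt (SPN_wS_pos Γ β σ).le
      calc (f σ * Real.sqrt (Γ.wS β σ)) * (g σ * Real.sqrt (Γ.wS β σ)) =
          f σ * g σ * (Real.sqrt (Γ.wS β σ) * Real.sqrt (Γ.wS β σ)) := by ring
        _ = _ := by rw [this]
    have e2 : ∀ (k : (V → Bool) → ℝ) (σ : V → Bool), (k σ * Real.sqrt (Γ.wS β σ)) ^ 2 =
        k σ ^ 2 * Γ.wS β σ := by
      intro k σ
      rw [mul_pow, Real.sq_sqrt (SPN_wS_pos Γ β σ).le]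
    simp_rw [e1, e2] at h1
    exact h1
  have hadd : Γ.IsE β (fun σ => (f σ + g σ) ^ 2) = Γ.IsE β (fun σ => f σ ^ 2) +
      2 * Γ.IsE β (fun σ => f σ * g σ) + Γ.IsE β (fun σ => g σ ^ 2) := by
    unfold Gr.IsE
    rw [← mul_div_assoc, ← add_div, ← add_div, Finset.mul_sum, ← Finset.sum_add_distrib,
      ← Finset.sum_add_distrib]
    congr 1
    refine Finset.sum_congr rfl fun σ _ => ?_
    ring
  have hC : Γ.IsE β (fun σ => f σ * g σ) ≤
      Real.sqrt (Γ.IsE β (fun σ => f σ ^ 2)) * Real.sqrt (Γ.IsE β (fun σ => g σ ^ 2)) := by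
    rw [← Real.sqrt_mul hA]
    exact Real.le_sqrt_of_sq_le hcs
  refine Real.sqrt_le_iff.2 ⟨add_nonneg (Real.sqrt_nonneg _) (Real.sqrt_nonneg _), ?_⟩
  rw [hadd, add_sq, Real.sq_sqrt hA, Real.sq_sqrt hB]
  linarith

theorem SPN_Zh (Γ : Gr V E) (β : ℝ) (h : E → ℝ) (ε : ℝ) :
    Γ.Zh β (fun e => ε * h e) = Real.exp (-(β / 2 * ε ^ 2 * ∑ e, h e ^ 2)) *
      ∑ σ : V → Bool, Γ.wS β σ *
        Real.exp (-(β * ε * ∑ e, h e * (sp (σ (Γ.s e)) - sp (σ (Γ.r e))))) := by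
  unfold Gr.Zh Gr.wS
  rw [Finset.mul_sum]
  refine Finset.sum_congr rfl fun σ _ => ?_
  rw [← Real.exp_sum, ← Real.exp_sum, ← Real.exp_add, ← Real.exp_add]
  congr 1
  rw [Finset.mul_sum, Finset.mul_sum, ← Finset.sum_neg_distrib, ← Finset.sum_neg_distrib,
    ← Finset.sum_add_distrib, ← Finset.sum_add_distrib]
  refine Finset.sum_congr rfl fun e _ => ?_
  ring

theorem SPN_Zh0 (Γ : Gr V E) (β : ℝ) : Γ.Zh β 0 = ∑ σ : V → Bool, Γ.wS β σ := by
  unfold Gr.Zh Gr.wS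
  simp

theorem SPN_cosh (x : ℝ) : 1 + x ^ 2 / 2 ≤ Real.cosh x := by
  have h1 : Real.cosh x = 1 + 2 * Real.sinh (x / 2) ^ 2 := by
    have h2 : Real.cosh x = Real.cosh (2 * (x / 2)) := by
      congr 1
      ring
    rw [h2, Real.cosh_two_mul]
    have h3 := Real.cosh_sq_sub_sinh_sq (x / 2)
    linarith
  have h4 : (x / 2) ^ 2 ≤ Real.sinh (x / 2) ^ 2 := by
    rcases le_total 0 (x / 2) with h | h
    · have h5 := Real.self_le_sinh_iff.2 h
      exact pow_le_pow_left₀ h h5 2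
    · have h5 := Real.sinh_le_self_iff.2 h
      nlinarith
  rw [h1]
  nlinarith

theorem infrared (Γ : Gr V E) {β : ℝ} (hβ : 0 < β) (hGD : ∀ h : E → ℝ, Γ.Zh β h ≤ Γ.Zh β 0)
    (h : E → ℝ) :
    Γ.IsE β (fun σ => (∑ e, h e * (sp (σ (Γ.s e)) - sp (σ (Γ.r e)))) ^ 2) ≤
      (∑ e, h e ^ 2) / β := by
  have hD := SPN_D_pos Γ β
  set D := ∑ σ : V → Bool, Γ.wS β σ with hDdef
  set H := ∑ e, h e ^ 2 with hHdef
  have hH : 0 ≤ H := Finset.sum_nonneg fun e _ => sq_nonneg _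
  let S : (V → Bool) → ℝ := fun σ => ∑ e, h e * (sp (σ (Γ.s e)) - sp (σ (Γ.r e)))
  set Q := ∑ σ : V → Bool, (S σ) ^ 2 * Γ.wS β σ with hQdef
  have hQ : 0 ≤ Q := Finset.sum_nonneg fun σ _ => mul_nonneg (sq_nonneg _) (SPN_wS_pos Γ β σ).le
  have step1 : ∀ ε : ℝ, ∑ σ : V → Bool, Γ.wS β σ * Real.exp (-(β * ε * S σ)) ≤
      D * Real.exp (β / 2 * ε ^ 2 * H) := by
    intro ε
    have h1 := hGD (fun e => ε * h e)
    rw [SPN_Zh, SPN_Zh0, ← hDdef, ← hHdef, Real.exp_neg] at h1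
    have h2 : 0 < Real.exp (β / 2 * ε ^ 2 * H) := Real.exp_pos _
    rw [inv_mul_le_iff₀ h2] at h1
    linarith [h1, mul_comm D (Real.exp (β / 2 * ε ^ 2 * H))]
  have step2 : ∀ ε : ℝ, D + β ^ 2 * ε ^ 2 / 2 * Q ≤ D * Real.exp (β / 2 * ε ^ 2 * H) := by
    intro ε
    have h1 := step1 ε
    have h2 := step1 (-ε)
    rw [neg_sq] at h2
    have h3 : D + β ^ 2 * ε ^ 2 / 2 * Q ≤ ∑ σ : V → Bool, Γ.wS β σ *
        ((Real.exp (-(β * ε * S σ)) + Real.exp (-(β * -ε * S σ))) / 2) := by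
      rw [hDdef, hQdef, Finset.mul_sum, ← Finset.sum_add_distrib]
      refine Finset.sum_le_sum fun σ _ => ?_
      have h4 : 1 + (β * ε * S σ) ^ 2 / 2 ≤ Real.cosh (β * ε * S σ) := SPN_cosh _
      rw [Real.cosh_eq] at h4
      have h5 : -(β * -ε * S σ) = β * ε * S σ := by ring
      rw [h5, add_comm (Real.exp (-(β * ε * S σ)))]
      have h6 := mul_le_mul_of_nonneg_left h4 (SPN_wS_pos Γ β σ).le
      calc _ = Γ.wS β σ * (1 + (β * ε * S σ) ^ 2 / 2) := by ring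
        _ ≤ _ := h6
    have h7 : ∑ σ : V → Bool, Γ.wS β σ *
        ((Real.exp (-(β * ε * S σ)) + Real.exp (-(β * -ε * S σ))) / 2) =
        (∑ σ : V → Bool, Γ.wS β σ * Real.exp (-(β * ε * S σ)) +
          ∑ σ : V → Bool, Γ.wS β σ * Real.exp (-(β * -ε * S σ))) / 2 := by
      rw [← Finset.sum_add_distrib, Finset.sum_div]
      refine Finset.sum_congr rfl fun σ _ => ?_
      ring
    rw [h7] at h3
    linarith
  have step3 : β ^ 2 / 2 * Q ≤ D * (β / 2 * H) := by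
    set K := β / 2 * H with hK
    have hK0 : 0 ≤ K := by positivity
    refine le_of_forall_pos_le_add fun δ hδ => ?_
    set x := min (1 / (K + 1)) (δ / (D * K ^ 2 + 1)) with hx
    have hx0 : 0 < x := by
      refine lt_min (by positivity) (by positivity)
    have hx1 : K * x ≤ 1 := by
      have h1 : x ≤ 1 / (K + 1) := min_le_left _ _
      have h2 : K * x ≤ K * (1 / (K + 1)) := mul_le_mul_of_nonneg_left h1 hK0
      have h3 : K * (1 / (K + 1)) ≤ 1 := by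
        rw [mul_one_div, div_le_one (by linarith)]
        linarith
      linarith
    have hx2 : D * K ^ 2 * x ≤ δ := by
      have h1 : x ≤ δ / (D * K ^ 2 + 1) := min_le_right _ _
      have h2 : D * K ^ 2 * x ≤ D * K ^ 2 * (δ / (D * K ^ 2 + 1)) :=
        mul_le_mul_of_nonneg_left h1 (by positivity)
      have h3 : D * K ^ 2 * (δ / (D * K ^ 2 + 1)) ≤ δ := by
        rw [← mul_div_assoc, div_le_iff₀ (by positivity)]
        nlinarith
      linarith
    have h1 := step2 (Real.sqrt x)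
    rw [Real.sq_sqrt hx0.le] at h1
    have h2 : β / 2 * x * H = K * x := by rw [hK]; ring
    rw [h2] at h1
    have h3 : |K * x| ≤ 1 := by rw [abs_of_nonneg (by positivity)]; exact hx1
    have h4 := (abs_le.1 (Real.abs_exp_sub_one_sub_id_le h3)).2
    have h5 : D * Real.exp (K * x) ≤ D * (1 + K * x + (K * x) ^ 2) :=
      mul_le_mul_of_nonneg_left (by linarith) hD.le
    have h6 : (β ^ 2 / 2 * Q) * x ≤ (D * K + D * K ^ 2 * x) * x := by nlinarith
    have h7 := le_of_mul_le_mul_right h6 hx0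
    linarith
  have hfin : Γ.IsE β (fun σ => (∑ e, h e * (sp (σ (Γ.s e)) - sp (σ (Γ.r e)))) ^ 2) = Q / D := rfl
  rw [hfin, div_le_div_iff₀ hD hβ]
  have h8 : β * (Q * β) ≤ β * (H * D) := by nlinarith
  exact le_of_mul_le_mul_left h8 hβ

end H82.IC
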