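import Pool.Agent.H82.IC.MM3
import Pool.Agent.H82.IC.SC

/-!
# SRG: shift regularity (pure counting from the `Mms` properties)

`fG G L = ∑_{x ∈ bx L} G x`.
* `line`: for `i`, `L`: `∑_{v ∈ bx L} |G (v + e_i) - G v| ≤ 2 ∑_{v ∈ bx L, v i = 0} G v`: sum over lines in direction `i`: `k ↦ G (update v i k)` is even and nonincreasing in `|k|` (`mono`), so the sum over `k ∈ [-L, L]` of
  the absolute increments telescopes to at most `2 G (update v i 0)`.
* `hyper`: for `J ≥ 1`: `∑_{v ∈ bx L, v i = 0} G v ≤ (d/J) fG L + fG (2J)`.  Points with `nm v ≤ 2J` are in `bx (2J)`.  For `v` with `v i = 0`, `nm v > 2J`, let `k` be a coordinate with `|v k| = nm v`, `k ≠ i`, `s = sign (v k)`.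
  For `j = 1..J`: `w = update (update v k (v k - s j)) i j` has `G v ≤ G w` (if `s = 1`: `transfer` from `k` to `i` with amount `j ≤ v k - 0`; if `s = -1` use `mono` to flip the sign of coordinate `k` before and
  after), `w ∈ bx L`.  For fixed `k` and `s` the map `(v, j) ↦ w` is injective (`j = w i`).  The sum over `(v, j)`: `J ∑_{v} G v ≤ ∑_{k} ∑_w G w ≤ d fG L` (for given `k`, the signs `s = ±1` give disjoint images since `w k` has the
  sign `s`: `|v k| > 2J ≥ j`).
* `shift_reg`: for `u : ℤ^d`, `δ > 0`, if `G` is not summable: for all large `L`: `∑_{v ∈ bx L} |G (v - u) - G v| ≤ δ fG L`: write `u` as a sum of `m = ∑ |u i|` unit steps (`± e_i`); each step costs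
  `∑_{v ∈ bx L} |G(v - w - (±e_i)) - G (v - w)| ≤ ∑_{v' ∈ bx (L + m)} |G (v' ∓ e_i) - G v'| ≤ 2 max_i ∑_{v ∈ bx (L+m+1), v i = 0} G v =: 2 H`.  Bound: `H ≤ (d/J) fG (L + m + 1) + fG (2J)`; and `fG (L+m+1) ≤ 3^d fG L`-type bound:
  `fG (2L) ≤ C_d fG L` by monotonicity (`mono`: the map `v ↦ (round toward 0 of v i / 2)` raises `G` and is at most `3^d`-to-one from `bx (2L)` to `bx L`), valid as `L + m + 1 ≤ 2L`.  Choose `J` large, then `L` large (`fG L → ∞`).
-/

set_option autoImplicit false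

open Finset Filter Topology

namespace H82.IC

variable {d : ℕ}

theorem SRG_inj {α β : Type*} (s : Finset α) (t : Finset β) (f : α → β) (g : β → ℝ) (h : α → ℝ)
    (hm : ∀ a ∈ s, f a ∈ t) (hinj : ∀ a ∈ s, ∀ a' ∈ s, f a = f a' → a = a')
    (hg : ∀ b ∈ t, 0 ≤ g b) (hh : ∀ a ∈ s, h a ≤ g (f a)) :
    ∑ a ∈ s, h a ≤ ∑ b ∈ t, g b := by
  classical
  calc ∑ a ∈ s, h a ≤ ∑ a ∈ s, g (f a) := sum_le_sum hh
    _ = ∑ b ∈ s.image f, g b := (sum_image (fun a ha a' ha' e => hinj a ha a' ha' e)).symm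
    _ ≤ ∑ b ∈ t, g b :=
      sum_le_sum_of_subset_of_nonneg (image_subset_iff.2 hm) (fun b hb _ => hg b hb)

theorem SRG_one (g : ℤ → ℝ) (hg : ∀ a b : ℤ, |b| ≤ |a| → g a ≤ g b) (L : ℕ) :
    ∑ k ∈ Icc (-(L : ℤ)) L, |g (k + 1) - g k| = 2 * g 0 - g ((L : ℤ) + 1) - g L := by
  have hev : ∀ a, g (-a) = g a := fun a =>
    le_antisymm (hg _ _ (by simp)) (hg _ _ (by simp))
  have hdec : ∀ a : ℤ, 0 ≤ a → g (a + 1) ≤ g a := by
    intro a ha
    refine hg _ _ ?_
    rw [abs_of_nonneg ha, abs_of_nonneg (by omega)]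
    omega
  induction L with
  | zero =>
    have h0 := hdec 0 le_rfl
    rw [zero_add] at h0
    simp only [Nat.cast_zero, neg_zero, Icc_self, sum_singleton, zero_add]
    rw [abs_of_nonpos (by linarith)]
    ring
  | succ L ih =>
    have h1 : Icc (-((L + 1 : ℕ) : ℤ)) ((L + 1 : ℕ) : ℤ) =
        insert ((L : ℤ) + 1) (insert (-((L : ℤ) + 1)) (Icc (-(L : ℤ)) L)) := by
      ext k
      simp only [mem_insert, mem_Icc]
      push_cast
      omega
    have n1 : ((L : ℤ) + 1) ∉ insert (-((L : ℤ) + 1)) (Icc (-(L : ℤ)) L) := by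
      simp only [mem_insert, mem_Icc]
      omega
    have n2 : (-((L : ℤ) + 1)) ∉ Icc (-(L : ℤ)) L := by
      simp only [mem_Icc]
      omega
    rw [h1, sum_insert n1, sum_insert n2, ih]
    have e1 : |g ((L : ℤ) + 1 + 1) - g ((L : ℤ) + 1)| = g ((L : ℤ) + 1) - g ((L : ℤ) + 1 + 1) := by
      have := hdec ((L : ℤ) + 1) (by omega)
      rw [abs_of_nonpos (by linarith)]
      ring
    have e2 : |g (-((L : ℤ) + 1) + 1) - g (-((L : ℤ) + 1))| = g L - g ((L : ℤ) + 1) := by
      have e3 : -((L : ℤ) + 1) + 1 = -(L : ℤ) := by ring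
      have := hdec (L : ℤ) (by omega)
      rw [e3, hev, hev, abs_of_nonneg (by linarith)]
    rw [e1, e2]
    push_cast
    ring

theorem SRG_line (i : Fin d) (L : ℕ) (f : Vx d → ℝ) :
    ∑ v ∈ bx d L, f v = ∑ w ∈ (bx d L).filter (fun w => w i = 0),
      ∑ k ∈ Icc (-(L : ℤ)) L, f (Function.update w i k) := by
  rw [← sum_product']
  refine sum_nbij' (fun v => (Function.update v i 0, v i))
    (fun p => Function.update p.1 i p.2) ?_ ?_ ?_ ?_ ?_
  · intro v hv
    rw [mem_bx_abs] at hv
    simp only [mem_product, mem_filter, mem_bx_abs, mem_Icc, Function.update_self, and_true]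
    refine ⟨fun j => ?_, abs_le.1 (hv i)⟩
    by_cases hj : j = i
    · subst hj
      simp
    · rw [Function.update_of_ne hj]
      exact hv j
  · rintro ⟨w, k⟩ hp
    simp only [mem_product, mem_filter, mem_bx_abs, mem_Icc] at hp
    rw [mem_bx_abs]
    intro j
    by_cases hj : j = i
    · subst hj
      simp only [Function.update_self]
      exact abs_le.2 hp.2
    · simp only [Function.update_of_ne hj]
      exact hp.1.1 j
  · intro v _
    simp
  · rintro ⟨w, k⟩ hp
    simp only [mem_product, mem_filter] at hp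
    have : Function.update w i 0 = w := by
      rw [← hp.1.2]
      exact Function.update_eq_self i w
    simp [this]
  · intro v _
    simp

/-- sum over the hyperplane -/
noncomputable def SRG_H (G : Vx d → ℝ) (i : Fin d) (L : ℕ) : ℝ :=
  ∑ w ∈ (bx d L).filter (fun w => w i = 0), G w

theorem SRG_shift1 (G : Vx d → ℝ) (hG : Mms G) (i : Fin d) (L : ℕ) :
    ∑ v ∈ bx d L, |G (v + Pi.single i 1) - G v| ≤ 2 * SRG_H G i L := by
  rw [SRG_line i L, SRG_H, mul_sum]
  refine sum_le_sum fun w hw => ?_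
  rw [mem_filter] at hw
  have h0 : Function.update w i 0 = w := by
    rw [← hw.2]
    exact Function.update_eq_self i w
  have h1 : ∀ k : ℤ, Function.update w i k + Pi.single i 1 = Function.update w i (k + 1) := by
    intro k
    ext j
    by_cases hj : j = i
    · subst hj
      simp
    · simp [hj]
  simp_rw [h1]
  have h2 := SRG_one (fun k => G (Function.update w i k)) (by
    intro a b hab
    have := hG.mono (Function.update w i a) i b (by simpa using hab)
    simpa using this) L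
  rw [h2, h0]
  have h3 := hG.nonneg (Function.update w i ((L : ℤ) + 1))
  have h4 := hG.nonneg (Function.update w i (L : ℤ))
  linarith

theorem SRG_tr (G : Vx d → ℝ) (hG : Mms G) (i k : Fin d) (w : Vx d) (j : ℤ) (hki : k ≠ i)
    (hw : w i = 0) (hj : 0 ≤ j) (hk : j ≤ |w k|) :
    G w ≤ G (Function.update (Function.update w k (if 0 < w k then w k - j else w k + j)) i j) := by
  split_ifs with h
  · have h1 := hG.transfer w k i j hki hj (by rw [hw, sub_zero]; rwa [abs_of_pos h] at hk)
    rwa [hw, zero_add] at h1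
  · have h0 : w k ≤ 0 := not_lt.1 h
    rw [abs_of_nonpos h0] at hk
    have h1 : G w ≤ G (Function.update w k (-(w k))) := hG.mono w k _ (by rw [abs_neg])
    have h2 := hG.transfer (Function.update w k (-(w k))) k i j hki hj (by
      rw [Function.update_self, Function.update_of_ne hki.symm, hw, sub_zero]
      exact hk)
    rw [Function.update_self, Function.update_of_ne hki.symm, hw, zero_add,
      Function.update_idem] at h2
    have h3 := hG.mono (Function.update (Function.update w k (-(w k) - j)) i j) k (w k + j) (by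
      rw [Function.update_of_ne hki, Function.update_self]
      have : -(w k) - j = -(w k + j) := by ring
      rw [this, abs_neg])
    have h4 : Function.update (Function.update (Function.update w k (-(w k) - j)) i j) k
        (w k + j) = Function.update (Function.update w k (w k + j)) i j := by
      rw [Function.update_comm hki.symm, Function.update_idem]
    rw [h4] at h3
    exact (h1.trans h2).trans h3

theorem SRG_k (G : Vx d → ℝ) (hG : Mms G) (i k : Fin d) (L J : ℕ) :
    (J : ℝ) * ∑ w ∈ (bx d L).filter (fun w => w i = 0 ∧ 2 * (J : ℤ) < |w k|), G w ≤ fG G L := by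
  have h0 : (J : ℝ) * ∑ w ∈ (bx d L).filter (fun w => w i = 0 ∧ 2 * (J : ℤ) < |w k|), G w =
      ∑ p ∈ ((bx d L).filter (fun w => w i = 0 ∧ 2 * (J : ℤ) < |w k|)) ×ˢ Icc (1 : ℤ) J,
        G p.1 := by
    rw [sum_product, mul_sum]
    refine sum_congr rfl fun w _ => ?_
    show (J : ℝ) * G w = ∑ y ∈ Icc (1 : ℤ) J, G w
    rw [sum_const, Int.card_Icc, nsmul_eq_mul]
    congr 2
    omega
  rw [h0]
  unfold fG
  refine SRG_inj _ _ (fun p => Function.update (Function.update p.1 k
    (if 0 < p.1 k then p.1 k - p.2 else p.1 k + p.2)) i p.2) G _ ?_ ?_ (fun b _ => hG.nonneg b) ?_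
  · rintro ⟨w, j⟩ hp
    simp only [mem_product, mem_filter, mem_bx_abs, mem_Icc] at hp
    obtain ⟨⟨hw, hwi, hwk⟩, hj1, hj2⟩ := hp
    rw [mem_bx_abs]
    intro l
    have hk := hw k
    by_cases hl : l = i
    · subst hl
      simp only [Function.update_self]
      rw [abs_of_nonneg (by omega)]
      omega
    · simp only [Function.update_of_ne hl]
      by_cases hlk : l = k
      · subst hlk
        simp only [Function.update_self]
        rw [abs_le] at hk ⊢
        rcases abs_cases (w l) with ⟨h, h'⟩ | ⟨h, h'⟩ <;> split_ifs <;> constructor <;> omega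
      · simp only [Function.update_of_ne hlk]
        exact hw l
  · rintro ⟨w, j⟩ hp ⟨w', j'⟩ hp' he
    simp only [mem_product, mem_filter, mem_bx_abs, mem_Icc] at hp hp'
    obtain ⟨⟨hw, hwi, hwk⟩, hj1, hj2⟩ := hp
    obtain ⟨⟨hw', hwi', hwk'⟩, hj1', hj2'⟩ := hp'
    simp only at he
    have hki : k ≠ i := by
      rintro rfl
      rw [hwi, abs_zero] at hwk
      omega
    have hjj : j = j' := by
      have := congrFun he i
      simpa using this
    subst hjj
    have hkk : w k = w' k := by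
      have := congrFun he k
      rw [Function.update_of_ne hki, Function.update_of_ne hki, Function.update_self,
        Function.update_self] at this
      rcases abs_cases (w k) with ⟨h, h'⟩ | ⟨h, h'⟩ <;>
        rcases abs_cases (w' k) with ⟨h1, h1'⟩ | ⟨h1, h1'⟩ <;> split_ifs at this <;> omega
    have hww : w = w' := by
      funext l
      by_cases hl : l = i
      · rw [hl, hwi, hwi']
      · by_cases hlk : l = k
        · rw [hlk, hkk]
        · have := congrFun he l
          rwa [Function.update_of_ne hl, Function.update_of_ne hl, Function.update_of_ne hlk,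
            Function.update_of_ne hlk] at this
    rw [hww]
  · rintro ⟨w, j⟩ hp
    simp only [mem_product, mem_filter, mem_bx_abs, mem_Icc] at hp
    obtain ⟨⟨hw, hwi, hwk⟩, hj1, hj2⟩ := hp
    have hki : k ≠ i := by
      rintro rfl
      rw [hwi, abs_zero] at hwk
      omega
    exact SRG_tr G hG i k w j hki hwi (by omega) (by omega)

theorem SRG_hyper (G : Vx d → ℝ) (hG : Mms G) (i : Fin d) (L J : ℕ) (hJ : 0 < J) :
    SRG_H G i L ≤ (d : ℝ) / J * fG G L + fG G (2 * J) := by
  have hJ' : (0 : ℝ) < J := by exact_mod_cast hJ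
  have h1 : ∀ w ∈ (bx d L).filter (fun w => w i = 0), G w ≤
      (if w ∈ bx d (2 * J) then G w else 0) +
        ∑ k : Fin d, (if 2 * (J : ℤ) < |w k| then G w else 0) := by
    intro w _
    by_cases hw : w ∈ bx d (2 * J)
    · rw [if_pos hw]
      have : 0 ≤ ∑ k : Fin d, (if 2 * (J : ℤ) < |w k| then G w else 0) :=
        sum_nonneg fun k _ => by split_ifs; exacts [hG.nonneg w, le_rfl]
      linarith
    · rw [if_neg hw, zero_add]
      rw [mem_bx_abs] at hw
      push Not at hw
      obtain ⟨k, hk⟩ := hw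
      push_cast at hk
      have h2 : (if 2 * (J : ℤ) < |w k| then G w else 0) = G w := if_pos hk
      have h3 := single_le_sum (f := fun k => if 2 * (J : ℤ) < |w k| then G w else 0)
        (fun k _ => by
          show 0 ≤ if 2 * (J : ℤ) < |w k| then G w else 0
          split_ifs
          exacts [hG.nonneg w, le_rfl]) (mem_univ k)
      exact h2.symm.le.trans h3
  unfold SRG_H
  refine (sum_le_sum h1).trans ?_
  rw [sum_add_distrib, sum_comm]
  have h2 : ∑ w ∈ (bx d L).filter (fun w => w i = 0), (if w ∈ bx d (2 * J) then G w else 0) ≤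
      fG G (2 * J) := by
    rw [← sum_filter]
    unfold fG
    refine sum_le_sum_of_subset_of_nonneg ?_ (fun v _ _ => hG.nonneg v)
    intro w hw
    exact (mem_filter.1 hw).2
  have h3 : ∑ k : Fin d, ∑ w ∈ (bx d L).filter (fun w => w i = 0),
      (if 2 * (J : ℤ) < |w k| then G w else 0) ≤ (d : ℝ) / J * fG G L := by
    have h4 : ∀ k ∈ (univ : Finset (Fin d)), ∑ w ∈ (bx d L).filter (fun w => w i = 0),
        (if 2 * (J : ℤ) < |w k| then G w else 0) ≤ fG G L / J := by
      intro k _
      rw [← sum_filter, filter_filter, le_div_iff₀' hJ']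
      exact SRG_k G hG i k L J
    refine (sum_le_sum h4).trans ?_
    rw [sum_const, card_univ, Fintype.card_fin, nsmul_eq_mul]
    apply le_of_eq
    ring
  linarith

theorem SRG_mono_all (G : Vx d → ℝ) (hG : Mms G) (z w : Vx d) (h : ∀ i, |w i| ≤ |z i|) :
    G z ≤ G w := by
  classical
  have key : ∀ s : Finset (Fin d), G z ≤ G (fun i => if i ∈ s then w i else z i) := by
    intro s
    induction s using Finset.induction_on with
    | empty => simp
    | insert a s ha ih =>
      refine ih.trans ?_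
      have h1 := hG.mono (fun i => if i ∈ s then w i else z i) a (w a) (by
        simp only [if_neg ha]
        exact h a)
      refine h1.trans_eq ?_
      congr 1
      funext j
      by_cases hj : j = a
      · subst hj
        simp
      · rw [Function.update_of_ne hj]
        simp [hj]
  have := key univ
  simpa using this

theorem SRG_clamp (G : Vx d → ℝ) (hG : Mms G) (L M : ℕ) :
    fG G (L + M) ≤ ((bx d M).card : ℝ) * fG G L := by
  have h0 : ((bx d M).card : ℝ) * fG G L = ∑ p ∈ (bx d L) ×ˢ (bx d M), G p.1 := by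
    rw [sum_product]
    simp only [sum_const, nsmul_eq_mul]
    rw [← mul_sum]
    rfl
  rw [h0]
  have hc : ∀ v ∈ bx d (L + M), ∀ i, |max (-(L : ℤ)) (min L (v i))| ≤ L ∧
      |v i - max (-(L : ℤ)) (min L (v i))| ≤ M ∧ |max (-(L : ℤ)) (min L (v i))| ≤ |v i| := by
    intro v hv i
    rw [mem_bx_abs] at hv
    have h1 := hv i
    push_cast at h1
    rw [abs_le] at h1
    refine ⟨?_, ?_, ?_⟩
    · rw [abs_le]; omega
    · rw [abs_le]; omega
    · rcases abs_cases (v i) with ⟨h, h'⟩ | ⟨h, h'⟩ <;> rw [h, abs_le] <;> omega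
  refine SRG_inj _ _ (fun v => (fun i => max (-(L : ℤ)) (min L (v i)),
    fun i => v i - max (-(L : ℤ)) (min L (v i)))) (fun p => G p.1) _ ?_ ?_
    (fun b _ => hG.nonneg b.1) ?_
  · intro v hv
    rw [mem_product, mem_bx_abs, mem_bx_abs]
    exact ⟨fun i => (hc v hv i).1, fun i => (hc v hv i).2.1⟩
  · intro v _ v' _ he
    have e1 := congrArg Prod.fst he
    have e2 := congrArg Prod.snd he
    funext i
    have e3 := congrFun e1 i
    have e4 := congrFun e2 i
    simp only at e3 e4
    rw [e3] at e4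
    linarith
  · intro v hv
    exact SRG_mono_all G hG v _ (fun i => (hc v hv i).2.2)

/-- shift regularity in direction `u` -/
def SRG_P (G : Vx d → ℝ) (u : Vx d) : Prop :=
  ∀ δ : ℝ, 0 < δ → ∃ L0 : ℕ, ∀ L, L0 ≤ L → ∑ v ∈ bx d L, |G (v - u) - G v| ≤ δ * fG G L

theorem SRG_move (F : Vx d → ℝ) (hF : ∀ v, 0 ≤ F v) (u : Vx d) (L : ℕ) :
    ∑ v ∈ bx d L, F (v - u) ≤ ∑ v ∈ bx d (L + nm u), F v := by
  refine SRG_inj _ _ (fun v => v - u) F _ ?_ ?_ (fun b _ => hF b) (fun a _ => le_rfl)
  · intro v hv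
    rw [mem_bx] at hv ⊢
    exact (nm_sub v u).trans (by omega)
  · intro v _ v' _ he
    exact sub_left_injective he

theorem SRG_card_pos (M : ℕ) : (0 : ℝ) < (bx d M).card := by
  rw [card_bx]
  positivity

theorem SRG_fG_nonneg {G : Vx d → ℝ} (hG : Mms G) (L : ℕ) : 0 ≤ fG G L :=
  sum_nonneg fun v _ => hG.nonneg v

theorem SRG_P_far {G : Vx d → ℝ} (hG : Mms G) {u : Vx d} (h : SRG_P G u) (M : ℕ) (δ : ℝ)
    (hδ : 0 < δ) : ∃ L0 : ℕ, ∀ L, L0 ≤ L →
      ∑ v ∈ bx d (L + M), |G (v - u) - G v| ≤ δ * fG G L := by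
  obtain ⟨L0, hL0⟩ := h (δ / (bx d M).card) (div_pos hδ (SRG_card_pos M))
  refine ⟨L0, fun L hL => ?_⟩
  have h1 := hL0 (L + M) (by omega)
  have h2 := SRG_clamp G hG L M
  have hc := SRG_card_pos (d := d) M
  refine h1.trans ?_
  calc δ / (bx d M).card * fG G (L + M) ≤ δ / (bx d M).card * ((bx d M).card * fG G L) :=
        mul_le_mul_of_nonneg_left h2 (by positivity)
    _ = δ * fG G L := by field_simp

theorem SRG_P_add {G : Vx d → ℝ} (hG : Mms G) {u u' : Vx d} (h : SRG_P G u) (h' : SRG_P G u') :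
    SRG_P G (u + u') := by
  intro δ hδ
  obtain ⟨L1, hL1⟩ := h (δ / 2) (by positivity)
  obtain ⟨L2, hL2⟩ := SRG_P_far hG h' (nm u) (δ / 2) (by positivity)
  refine ⟨max L1 L2, fun L hL => ?_⟩
  have h1 := hL1 L (by omega)
  have h2 := hL2 L (by omega)
  have h3 := SRG_move (fun v => |G (v - u') - G v|) (fun v => abs_nonneg _) u L
  have h4 : ∑ v ∈ bx d L, |G (v - (u + u')) - G v| ≤
      ∑ v ∈ bx d L, |G (v - u - u') - G (v - u)| + ∑ v ∈ bx d L, |G (v - u) - G v| := by
    rw [← sum_add_distrib]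
    refine sum_le_sum fun v _ => ?_
    rw [← sub_sub]
    exact abs_sub_le _ _ _
  linarith

theorem SRG_P_neg {G : Vx d → ℝ} (hG : Mms G) {u : Vx d} (h : SRG_P G u) : SRG_P G (-u) := by
  intro δ hδ
  obtain ⟨L0, hL0⟩ := SRG_P_far hG h (nm (-u)) δ hδ
  refine ⟨L0, fun L hL => ?_⟩
  refine le_trans ?_ (hL0 L hL)
  refine le_trans (le_of_eq ?_) (SRG_move (fun v => |G (v - u) - G v|) (fun v => abs_nonneg _)
    (-u) L)
  refine sum_congr rfl fun v _ => ?_
  rw [sub_neg_eq_add, add_sub_cancel_right, abs_sub_comm]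

theorem SRG_P_single {G : Vx d → ℝ} (hG : Mms G) (hs : ¬ Summable G) (i : Fin d) :
    SRG_P G (-(Pi.single i 1)) := by
  intro δ hδ
  obtain ⟨J, hJ⟩ := exists_nat_gt (4 * d / δ)
  have hJ0 : (0 : ℝ) < J + 1 := by positivity
  obtain ⟨n, hn⟩ := SC_unb hG.nonneg hs (4 * fG G (2 * (J + 1)) / δ)
  refine ⟨n, fun L hL => ?_⟩
  have h1 := SRG_shift1 G hG i L
  have h2 := SRG_hyper G hG i L (J + 1) (Nat.succ_pos J)
  have h3 : fG G n ≤ fG G L := SC_mono hG.nonneg hL
  have h4 : 4 * fG G (2 * (J + 1)) < δ * fG G L := by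
    rw [div_lt_iff₀ hδ] at hn
    nlinarith
  have h5 : (d : ℝ) / ((J + 1 : ℕ) : ℝ) ≤ δ / 4 := by
    push_cast
    rw [div_lt_iff₀ hδ] at hJ
    rw [div_le_iff₀ hJ0]
    nlinarith
  have h6 := mul_le_mul_of_nonneg_right h5 (SRG_fG_nonneg hG L)
  have h7 : ∑ v ∈ bx d L, |G (v - -(Pi.single i 1)) - G v| =
      ∑ v ∈ bx d L, |G (v + Pi.single i 1) - G v| := by
    refine sum_congr rfl fun v _ => ?_
    rw [sub_neg_eq_add]
  rw [h7]
  linarith

theorem shift_reg (hd : 2 ≤ d) (G : Vx d → ℝ) (hG : Mms G) (hs : ¬ Summable G) (u : Vx d) (δ : ℝ)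
    (hδ : 0 < δ) :
    ∃ L0 : ℕ, ∀ L, L0 ≤ L → ∑ v ∈ bx d L, |G (v - u) - G v| ≤ δ * fG G L := by
  have hzero : SRG_P G 0 := by
    intro δ hδ
    refine ⟨0, fun L _ => ?_⟩
    simp only [sub_zero, sub_self, abs_zero, sum_const_zero]
    exact mul_nonneg hδ.le (SRG_fG_nonneg hG L)
  obtain ⟨A, hA⟩ : ∃ A : AddSubgroup (Vx d), ∀ x, x ∈ A ↔ SRG_P G x :=
    ⟨{ carrier := {x | SRG_P G x}
       zero_mem' := hzero
       add_mem' := fun ha hb => SRG_P_add hG ha hb
       neg_mem' := fun ha => SRG_P_neg hG ha }, fun x => Iff.rfl⟩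
  have h1 : ∀ i : Fin d, (Pi.single i 1 : Vx d) ∈ A := by
    intro i
    have h := (hA _).2 (SRG_P_single hG hs i)
    have h' := A.neg_mem h
    rwa [neg_neg] at h'
  have h2 : u ∈ A := by
    rw [← univ_sum_single u]
    refine sum_mem fun i _ => ?_
    have h3 : (Pi.single i (u i) : Vx d) = u i • (Pi.single i 1 : Vx d) := by
      rw [← Pi.single_smul, smul_eq_mul, mul_one]
    rw [h3]
    exact A.zsmul_mem (h1 i) _
  exact (hA u).1 h2 δ hδ

end H82.IC
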