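import Pool.Agent.H82.IC.KA

/-!
# SW: general facts on trace sums `Γ.trc w S f`

* `trc_switch`: exchange the sums, fix `ω`; if `f ω = 0` both inner sums vanish; otherwise with `g` from the hypothesis the map
  `η ↦ η + g` is a bijection (`Equiv.addRight g`) with `bd (η + g) = bd η + R`, and the products agree: on an edge with `g e = 0` nothing changes,
  on an edge with `g e ≠ 0` we have `e ∈ ω`, so `decide = true` and the weight is invariant.
* `trc_congr_supp`: the weight `∏ e, w e (η e) (decide (e ∈ ω))` vanishes unless the support of `η` is contained in `ω`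
  (hypothesis `hw : ∀ e a, a ≠ 0 → w e a false = 0`), so only such pairs `(η, ω)` matter.
* `trc_pm` (marginal over `ω`): `∑ ω : Finset E, ∏ e, w e (η e) (decide (e ∈ ω)) = ∏ e, (w e (η e) true + w e (η e) false)`
  (`Finset.prod_add` or the bijection of `Finset E` with functions `E → Bool` and `Finset.prod_univ_sum`).
* `trc_pm2`: for pairs, the sum over `η : E → ZMod 2 × ZMod 2` is a double sum (`Equiv` between functions to a product and pairs of functions), `bd_pr`.
* linearity, monotonicity: termwise.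
-/

set_option autoImplicit false

open Finset

namespace H82.IC

variable {V E : Type*} [Fintype E] [DecidableEq E]

section General
variable {A : Type*} [AddCommGroup A] [Fintype A]

theorem trc_add (Γ : Gr V E) (w : E → A → Bool → ℝ) (S : V → A) (f g : Finset E → ℝ) :
    Γ.trc w S (fun ω => f ω + g ω) = Γ.trc w S f + Γ.trc w S g := by
  unfold Gr.trc
  simp only [add_mul, mul_add, sum_add_distrib]

theorem trc_sub (Γ : Gr V E) (w : E → A → Bool → ℝ) (S : V → A) (f g : Finset E → ℝ) :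
    Γ.trc w S (fun ω => f ω - g ω) = Γ.trc w S f - Γ.trc w S g := by
  unfold Gr.trc
  simp only [sub_mul, mul_sub, sum_sub_distrib]

theorem trc_smul (Γ : Gr V E) (w : E → A → Bool → ℝ) (S : V → A) (c : ℝ) (f : Finset E → ℝ) :
    Γ.trc w S (fun ω => c * f ω) = c * Γ.trc w S f := by
  unfold Gr.trc
  simp only [mul_sum]
  refine sum_congr rfl fun η _ => sum_congr rfl fun ω _ => ?_
  ring

theorem trc_sum {ι : Type*} (Γ : Gr V E) (w : E → A → Bool → ℝ) (S : V → A) (I : Finset ι)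
    (f : ι → Finset E → ℝ) :
    Γ.trc w S (fun ω => ∑ i ∈ I, f i ω) = ∑ i ∈ I, Γ.trc w S (f i) := by
  classical
  induction I using Finset.induction_on with
  | empty =>
    simp [Gr.trc]
  | insert a I ha ih =>
    simp only [Finset.sum_insert ha]
    rw [trc_add, ih]

theorem trc_mono (Γ : Gr V E) (w : E → A → Bool → ℝ) (hw : ∀ e a b, 0 ≤ w e a b) (S : V → A)
    {f g : Finset E → ℝ} (h : ∀ ω, f ω ≤ g ω) : Γ.trc w S f ≤ Γ.trc w S g := by
  unfold Gr.trc
  refine sum_le_sum fun η _ => sum_le_sum fun ω _ => ?_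
  exact mul_le_mul_of_nonneg_left
    (mul_le_mul_of_nonneg_right (h ω) (prod_nonneg fun e _ => hw _ _ _)) (ind_nonneg _)

theorem trc_nonneg (Γ : Gr V E) (w : E → A → Bool → ℝ) (hw : ∀ e a b, 0 ≤ w e a b) (S : V → A)
    {f : Finset E → ℝ} (h : ∀ ω, 0 ≤ f ω) : 0 ≤ Γ.trc w S f := by
  unfold Gr.trc
  exact sum_nonneg fun η _ => sum_nonneg fun ω _ =>
    mul_nonneg (ind_nonneg _) (mul_nonneg (h ω) (prod_nonneg fun e _ => hw _ _ _))

/-- domination of the weights. -/
theorem trc_mono_w (Γ : Gr V E) (w w' : E → A → Bool → ℝ) (hw : ∀ e a b, 0 ≤ w e a b)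
    (hww : ∀ e a b, w e a b ≤ w' e a b) (S : V → A)
    {f : Finset E → ℝ} (h : ∀ ω, 0 ≤ f ω) : Γ.trc w S f ≤ Γ.trc w' S f := by
  unfold Gr.trc
  refine sum_le_sum fun η _ => sum_le_sum fun ω _ => ?_
  exact mul_le_mul_of_nonneg_left
    (mul_le_mul_of_nonneg_left (prod_le_prod (fun e _ => hw _ _ _) fun e _ => hww _ _ _) (h ω))
    (ind_nonneg _)

/-- Cauchy-Schwarz. -/
theorem trc_cs (Γ : Gr V E) (w : E → A → Bool → ℝ) (hw : ∀ e a b, 0 ≤ w e a b) (S : V → A)
    (f : Finset E → ℝ) :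
    (Γ.trc w S (fun ω => |f ω|)) ^ 2 ≤ Γ.trc w S (fun _ => 1) * Γ.trc w S (fun ω => f ω ^ 2) := by
  unfold Gr.trc
  rw [← Fintype.sum_prod_type' (f := fun (η : E → A) (ω : Finset E) =>
      ind (Γ.bd η = S) * (|f ω| * ∏ e, w e (η e) (decide (e ∈ ω)))),
    ← Fintype.sum_prod_type' (f := fun (η : E → A) (ω : Finset E) =>
      ind (Γ.bd η = S) * (1 * ∏ e, w e (η e) (decide (e ∈ ω)))),
    ← Fintype.sum_prod_type' (f := fun (η : E → A) (ω : Finset E) =>
      ind (Γ.bd η = S) * (f ω ^ 2 * ∏ e, w e (η e) (decide (e ∈ ω))))]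
  refine Finset.sum_sq_le_sum_mul_sum_of_sq_eq_mul _ (fun q _ => ?_) (fun q _ => ?_) fun q _ => ?_
  · exact mul_nonneg (ind_nonneg _) (mul_nonneg zero_le_one (prod_nonneg fun e _ => hw _ _ _))
  · exact mul_nonneg (ind_nonneg _) (mul_nonneg (sq_nonneg _) (prod_nonneg fun e _ => hw _ _ _))
  · rw [mul_pow, mul_pow, sq_abs]
    ring

/-- general switching lemma. -/
theorem trc_switch (Γ : Gr V E) (w : E → A → Bool → ℝ) (S R : V → A) (f : Finset E → ℝ)
    (h : ∀ ω, f ω ≠ 0 → ∃ g : E → A, Γ.bd g = R ∧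
      ∀ e, g e ≠ 0 → e ∈ ω ∧ ∀ a, w e (a + g e) true = w e a true) :
    Γ.trc w S f = Γ.trc w (S + R) f := by
  unfold Gr.trc
  rw [sum_comm, sum_comm (γ := E → A)]
  refine sum_congr rfl fun ω _ => ?_
  by_cases hf : f ω = 0
  · simp [hf]
  · obtain ⟨g, hg, hge⟩ := h ω hf
    refine Fintype.sum_equiv (Equiv.addRight g) _ _ fun η => ?_
    have h0 : (Equiv.addRight g) η = η + g := rfl
    rw [h0, bd_add, hg]
    have h1 : (Γ.bd η + R = S + R) = (Γ.bd η = S) := propext (add_left_inj R)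
    rw [h1]
    congr 2
    refine prod_congr rfl fun e _ => ?_
    by_cases hge0 : g e = 0
    · rw [Pi.add_apply, hge0, add_zero]
    · obtain ⟨h2, h3⟩ := hge e hge0
      have h4 : decide (e ∈ ω) = true := decide_eq_true h2
      rw [h4, Pi.add_apply, h3]

/-- only `ω` containing the support of a flow with boundary `S` matter. -/
theorem trc_congr_supp (Γ : Gr V E) (w : E → A → Bool → ℝ)
    (hw : ∀ e a, a ≠ 0 → w e a false = 0) (S : V → A) (f g : Finset E → ℝ)
    (h : ∀ (ω : Finset E) (η : E → A), Γ.bd η = S → (∀ e, η e ≠ 0 → e ∈ ω) → f ω = g ω) :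
    Γ.trc w S f = Γ.trc w S g := by
  unfold Gr.trc
  refine sum_congr rfl fun η _ => sum_congr rfl fun ω _ => ?_
  by_cases h1 : Γ.bd η = S
  · by_cases h2 : ∀ e, η e ≠ 0 → e ∈ ω
    · rw [h ω η h1 h2]
    · push Not at h2
      obtain ⟨e, he, heω⟩ := h2
      have h3 : ∏ e, w e (η e) (decide (e ∈ ω)) = 0 := by
        refine prod_eq_zero (mem_univ e) ?_
        have h4 : decide (e ∈ ω) = false := decide_eq_false heω
        rw [h4, hw e _ he]
      rw [h3]
      simp
  · rw [ind_false h1, zero_mul, zero_mul]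

theorem trc_pm (Γ : Gr V E) (w : E → A → Bool → ℝ) (S : V → A) :
    Γ.trc w S (fun _ => 1) =
      ∑ η : E → A, ind (Γ.bd η = S) * ∏ e, (w e (η e) true + w e (η e) false) := by
  unfold Gr.trc
  refine sum_congr rfl fun η _ => ?_
  rw [← mul_sum]
  congr 1
  rw [Finset.prod_add, Finset.powerset_univ]
  refine sum_congr rfl fun ω _ => ?_
  rw [one_mul, ← Finset.prod_mul_prod_compl ω, ← Finset.compl_eq_univ_sdiff]
  congr 1
  · refine prod_congr rfl fun e he => ?_
    have h4 : decide (e ∈ ω) = true := decide_eq_true he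
    rw [h4]
  · refine prod_congr rfl fun e he => ?_
    have h4 : decide (e ∈ ω) = false := decide_eq_false (Finset.mem_compl.1 he)
    rw [h4]

end General

theorem trc_pm1 (Γ : Gr V E) (w : E → ZMod 2 → Bool → ℝ) (p : E → ZMod 2 → ℝ)
    (h : ∀ e a, w e a true + w e a false = p e a) (S : V → ZMod 2) :
    Γ.trc w S (fun _ => 1) = Γ.zz p S := by
  rw [trc_pm]
  unfold Gr.zz
  simp only [h]

theorem trc_pm2 (Γ : Gr V E) (w : E → ZMod 2 × ZMod 2 → Bool → ℝ) (p q : E → ZMod 2 → ℝ)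
    (h : ∀ e a, w e a true + w e a false = p e a.1 * q e a.2) (S T : V → ZMod 2) :
    Γ.trc w (pr S T) (fun _ => 1) = Γ.zz p S * Γ.zz q T := by
  rw [trc_pm]
  unfold Gr.zz
  rw [Fintype.sum_mul_sum, ← Fintype.sum_prod_type' (f := fun (i j : E → ZMod 2) =>
    (ind (Γ.bd i = S) * ∏ e, p e (i e)) * (ind (Γ.bd j = T) * ∏ e, q e (j e)))]
  refine Fintype.sum_equiv (Equiv.arrowProdEquivProdArrow E (fun _ => ZMod 2) (fun _ => ZMod 2)) _ _
    fun η => ?_
  have h1 : (Γ.bd η = pr S T) = (Γ.bd (fun e => (η e).1) = S ∧ Γ.bd (fun e => (η e).2) = T) := by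
    rw [bd_pr, pr_inj]
  rw [h1, ind_and]
  simp only [h, Finset.prod_mul_distrib]
  show _ = (ind (Γ.bd (fun e => (η e).1) = S) * ∏ e, p e (η e).1) *
    (ind (Γ.bd (fun e => (η e).2) = T) * ∏ e, q e (η e).2)
  ring

end H82.IC
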