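import Pool.Agent.H82.IC.FLW
import Pool.Agent.H82.IC.ISO
import Pool.Agent.H82.IC.BR2

/-!
# TZA: boxes embedded in the torus, lower bound

`pt n : ℤ^d → (ZMod n)^d` the reduction, `pe n : Ed d → Te d n`, `(x, i) ↦ (pt x, i)`.  It maps ends to ends: `s (pe e) = pt (s e)`, `r (pe e) = pt (r e)`.
* `pt_inj`: `2R < n`: `pt` is injective on `bx R` (coordinates in `[-R,R]`); `pe_inj`: `pe` is injective on `bE R`.
* `torus_ge_free`: `phiB β R false (cn x y) ≤ tp_torus (pt x) (pt y)` for `x, y ∈ bx R`: `Λ = ↥(bE d R)`, `j = pe ∘ val` into the torus, `η = ∅`, and `Γ' = GN d R`, `j' = id`, `η' = ∅`: a path in `j '' ω` between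
  images of points of `bx R` lifts step by step (`pt` is injective on `bx R`, which contains the ends of all edges of `ω`), so `hc`, `hc2` hold (for `x = y` trivial); `tp_iso` gives
  `tp_torus (ttf j ∅ τ) (pt x) (pt y) = tp_{GN R} (τ) x y = phiB β R false (cn x y)` (`phiB_self`, `fkE_conn`, connection in `ext false R R ω`; cf. `conn_rs`), and `ttf j ∅ τ ≤ τ` pointwise, `tp_mono`.
-/

set_option autoImplicit false

open Finset

namespace H82.IC

variable {d : ℕ}

/-- reduction mod `n`. -/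
def pt {d : ℕ} (n : ℕ) (x : Vx d) : Tv d n := fun i => ((x i : ℤ) : ZMod n)

def pe {d : ℕ} (n : ℕ) (e : Ed d) : Te d n := (pt n e.1, e.2)

theorem pe_s (n : ℕ) (e : Ed d) : (Tg d n).s (pe n e) = pt n ((Zl d).s e) := rfl

theorem pe_r (n : ℕ) (e : Ed d) : (Tg d n).r (pe n e) = pt n ((Zl d).r e) := by
  funext i
  change pt n e.1 i + (Pi.single e.2 (1 : ZMod n) : Tv d n) i =
    (((e.1 + Pi.single e.2 (1 : ℤ) : Vx d) i : ℤ) : ZMod n)
  rw [Pi.add_apply, Int.cast_add]
  congr 1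
  by_cases h : i = e.2
  · rw [h, Pi.single_eq_same, Pi.single_eq_same, Int.cast_one]
  · rw [Pi.single_eq_of_ne h, Pi.single_eq_of_ne h, Int.cast_zero]

theorem pt_inj {n R : ℕ} (h : 2 * R < n) {x y : Vx d} (hx : nm x ≤ R) (hy : nm y ≤ R)
    (hxy : pt n x = pt n y) : x = y := by
  funext i
  have h1 : ((x i : ℤ) : ZMod n) = ((y i : ℤ) : ZMod n) := congrFun hxy i
  rw [ZMod.intCast_eq_intCast_iff_dvd_sub] at h1
  have h2 := (G1_le_nm x i).trans hx
  have h3 := (G1_le_nm y i).trans hy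
  have h4 : |y i - x i| < (n : ℤ) := by
    rw [abs_lt]
    omega
  have h5 := Int.eq_zero_of_abs_lt_dvd h1 h4
  omega

theorem pe_inj {n R : ℕ} (h : 2 * R < n) {e f : Ed d} (he : e ∈ bE d R) (hf : f ∈ bE d R)
    (hef : pe n e = pe n f) : e = f := by
  have h1 : pt n e.1 = pt n f.1 := congrArg Prod.fst hef
  have h2 : (pe n e).2 = (pe n f).2 := congrArg Prod.snd hef
  exact Prod.ext (pt_inj h (mem_bE.1 he).1 (mem_bE.1 hf).1 h1) h2

theorem TZA_conn {n R : ℕ} (h : 2 * R < n) (ω : Finset ↥(bE d R)) {x y : Vx d} (hx : nm x ≤ R)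
    (hy : nm y ≤ R) :
    (Tg d n).Conn ((fun a : ↥(bE d R) => pe n a.1) '' (ω : Set ↥(bE d R))) (pt n x) (pt n y) ↔
      (GN d R).Conn (ω : Set ↥(bE d R)) x y := by
  constructor
  · intro hc
    have key : ∀ v, (Tg d n).Conn ((fun a : ↥(bE d R) => pe n a.1) '' (ω : Set ↥(bE d R)))
        (pt n x) v → ∃ b, nm b ≤ R ∧ v = pt n b ∧ (GN d R).Conn (ω : Set ↥(bE d R)) x b := by
      intro v hv
      induction hv with
      | refl => exact ⟨x, hx, rfl, Relation.ReflTransGen.refl⟩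
      | tail _ h2 ih =>
        obtain ⟨b, hb, rfl, hxb⟩ := ih
        obtain ⟨e', ⟨e, he, rfl⟩, h3⟩ := h2
        have h4 := mem_bE.1 e.2
        rcases h3 with ⟨h5, h6⟩ | ⟨h5, h6⟩
        · rw [pe_s] at h5
          rw [pe_r] at h6
          have h7 := pt_inj h h4.1 hb h5
          exact ⟨_, h4.2, h6.symm, Relation.ReflTransGen.tail hxb ⟨e, he, Or.inl ⟨h7, rfl⟩⟩⟩
        · rw [pe_s] at h5
          rw [pe_r] at h6
          have h7 := pt_inj h h4.2 hb h6
          exact ⟨_, h4.1, h5.symm, Relation.ReflTransGen.tail hxb ⟨e, he, Or.inr ⟨rfl, h7⟩⟩⟩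
    obtain ⟨b, hb, h1, h2⟩ := key _ hc
    rw [pt_inj h hy hb h1]
    exact h2
  · intro hc
    clear hy
    induction hc with
    | refl => exact Relation.ReflTransGen.refl
    | tail _ h2 ih =>
      refine Relation.ReflTransGen.tail ih ?_
      obtain ⟨e, he, h3⟩ := h2
      refine ⟨pe n e.1, ⟨e, he, rfl⟩, ?_⟩
      rw [pe_s, pe_r]
      rcases h3 with ⟨h5, h6⟩ | ⟨h5, h6⟩
      · exact Or.inl ⟨congrArg (pt n) h5, congrArg (pt n) h6⟩
      · exact Or.inr ⟨congrArg (pt n) h5, congrArg (pt n) h6⟩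

theorem TZA_cn (N : ℕ) (ω : Finset ↥(bE d N)) (x y : Vx d) :
    (GN d N).Conn (ω : Set ↥(bE d N)) x y ↔ ext false N N ω ∈ cn x y := by
  have h1 : opn (ext false N N ω) = (vl ω : Set (Ed d)) := by
    ext e
    show (if e ∈ bE d N then decide (e ∈ vl ω) else false) = true ↔ e ∈ (vl ω : Set (Ed d))
    by_cases he : e ∈ bE d N
    · rw [if_pos he, decide_eq_true_iff, Finset.mem_coe]
    · rw [if_neg he]
      constructor
      · intro h
        exact absurd h (by simp)
      · intro h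
        exfalso
        apply he
        rw [Finset.mem_coe] at h
        obtain ⟨f, -, rfl⟩ := Finset.mem_map.1 h
        exact f.2
  unfold GN
  rw [conn_rs]
  show _ ↔ (Zl d).Conn (opn (ext false N N ω)) x y
  rw [h1]

theorem torus_ge_free {β : ℝ} (hβ : 0 ≤ β) (n R : ℕ) [NeZero n] (hR : 2 * R + 2 < n) {x y : Vx d}
    (hx : nm x ≤ R) (hy : nm y ≤ R) :
    phiB β R false (cn x y) ≤ (Tg d n).tp (fun _ => Real.tanh β) (pt n x) (pt n y) := by
  have hR' : 2 * R < n := by omega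
  have ht : T01 (fun _ : ↥(bE d R) => Real.tanh β) := T01_tanh β hβ
  have h1 := tp_iso (Tg d n) (GN d R) (fun a : ↥(bE d R) => pe n a.1) id
    (fun a b hab => Subtype.ext (pe_inj hR' a.2 b.2 hab)) Function.injective_id ∅ ∅
    (fun _ => Finset.notMem_empty _) (fun _ => Finset.notMem_empty _) (by
      intro ω a _
      rw [Finset.coe_empty, Finset.coe_empty, Set.union_empty, Set.union_empty, Set.image_id,
        pe_s, pe_r]
      exact TZA_conn hR' ω (mem_bE.1 a.2).1 (mem_bE.1 a.2).2) (fun _ => Real.tanh β) ht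
    (pt n x) (pt n y) x y (by
      intro ω
      rw [Finset.coe_empty, Finset.coe_empty, Set.union_empty, Set.union_empty, Set.image_id]
      exact TZA_conn hR' ω hx hy)
  have h2 : ttf (id : ↥(bE d R) → ↥(bE d R)) ∅ (fun _ => Real.tanh β) =
      fun _ : ↥(bE d R) => Real.tanh β := by
    funext e
    unfold ttf
    rw [if_neg (Finset.notMem_empty _), dif_pos ⟨e, rfl⟩]
  rw [h2] at h1
  have h3 : phiB β R false (cn x y) = (GN d R).tp (fun _ => Real.tanh β) x y := by
    rw [phiB_self hβ, ← fkE_conn]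
    congr 1
    funext ω
    exact KA_congr (TZA_cn R ω x y).symm
  rw [h3, ← h1]
  have hle : ∀ e, ttf (fun a : ↥(bE d R) => pe n a.1) ∅ (fun _ => Real.tanh β) e ≤
      Real.tanh β ∧ 0 ≤ ttf (fun a : ↥(bE d R) => pe n a.1) ∅ (fun _ => Real.tanh β) e := by
    intro e
    unfold ttf
    rw [if_neg (Finset.notMem_empty _)]
    split_ifs
    · exact ⟨le_rfl, (tanh_mem β hβ).1⟩
    · exact ⟨(tanh_mem β hβ).1, le_rfl⟩
  exact tp_mono (Tg d n) (fun e => ⟨(hle e).2, (hle e).1.trans (tanh_mem β hβ).2.le⟩)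
    (T01_tanh β hβ) (fun e => (hle e).1) _ _

end H82.IC
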