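import Pool.Agent.H82.IC.TZC

/-!
# TZB: the zero mode

`IsE ((Sa (n,...,n))²) = n^{-2d} ∑_{x,y} tp x y` (`isE_tp`, expand the square; `tb (n,..,n) = univ`).  Translation: `tp x y = tp 0 (y - x)` for the torus with constant parameters (`tp_iso` with `Λ = Te d n`,
`j = id`, `j' e = (e.1 - x, e.2)`, `η = η' = ∅`; a translation maps paths to paths).  So `∑_y tp x y = ∑_y tp 0 y` and it suffices that `∑_y tp 0 y ≤ (2r+1)^d + n^d phiB β r true (arm r 0)`:
`tp 0 y ≤ 1` for `y ∈ pt '' bx r` (at most `(2r+1)^d` points, `card_bx`), and for `y ∉ pt '' bx r`: `tp 0 y = fkE 1[0 ↔ y] ≤ fkE 1[AR] ≤ phiB β r true (arm r 0)` (`torus_arm`): a path from `pt 0` to `y`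
leaves `pt '' bx r`; take the first edge used which is not in `pe '' bE r`: up to it the path lifts to `bx r` and its last vertex `pt b`, `b ∈ bx r`, is in the boundary (an edge of the torus not in `pe '' bE r`
with an end `pt b`, `b ∈ bx r`, has `nm b = r`); if all edges are in `pe '' bE r`, then `y ∈ pt '' bx r`, contradiction.
-/

set_option autoImplicit false

open Finset

namespace H82.IC

variable {d : ℕ}

theorem TZB_conn {n : ℕ} (x : Tv d n) (ω : Set (Te d n)) (u v : Tv d n)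
    (h : (Tg d n).Conn ω u v) :
    (Tg d n).Conn ((fun e : Te d n => (e.1 - x, e.2)) '' ω) (u - x) (v - x) := by
  refine Relation.ReflTransGen.lift (fun u => u - x) ?_ _ _ h
  rintro a b ⟨e, he, hab⟩
  refine ⟨(e.1 - x, e.2), ⟨e, he, rfl⟩, ?_⟩
  have h1 : (Tg d n).s (e.1 - x, e.2) = (Tg d n).s e - x := rfl
  have h2 : (Tg d n).r (e.1 - x, e.2) = (Tg d n).r e - x := by
    show e.1 - x + Pi.single e.2 1 = e.1 + Pi.single e.2 1 - x
    abel
  rw [h1, h2]
  rcases hab with ⟨h3, h4⟩ | ⟨h3, h4⟩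
  · left
    rw [h3, h4]
    exact ⟨rfl, rfl⟩
  · right
    rw [h3, h4]
    exact ⟨rfl, rfl⟩

theorem TZB_conn_iff {n : ℕ} (x : Tv d n) (ω : Set (Te d n)) (u v : Tv d n) :
    (Tg d n).Conn ω u v ↔
      (Tg d n).Conn ((fun e : Te d n => (e.1 - x, e.2)) '' ω) (u - x) (v - x) := by
  refine ⟨TZB_conn x ω u v, fun h => ?_⟩
  have h1 := TZB_conn (-x) _ _ _ h
  rw [Set.image_image] at h1
  simpa using h1

theorem TZB_shift {β : ℝ} (hβ : 0 ≤ β) (n : ℕ) [NeZero n] (x y : Tv d n) :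
    (Tg d n).tp (fun _ => Real.tanh β) x y = (Tg d n).tp (fun _ => Real.tanh β) 0 (y - x) := by
  have hinj : Function.Injective (fun e : Te d n => ((e.1 - x, e.2) : Te d n)) := by
    rintro ⟨a, i⟩ ⟨b, j⟩ h
    simp only [Prod.mk.injEq, sub_left_inj] at h
    exact Prod.ext h.1 h.2
  have hc : ∀ (ω : Finset (Te d n)) (u v : Tv d n),
      ((Tg d n).Conn (id '' (ω : Set (Te d n)) ∪ ((∅ : Finset (Te d n)) : Set (Te d n))) u v ↔
        (Tg d n).Conn ((fun e : Te d n => ((e.1 - x, e.2) : Te d n)) '' (ω : Set (Te d n)) ∪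
          ((∅ : Finset (Te d n)) : Set (Te d n))) (u - x) (v - x)) := by
    intro ω u v
    rw [Finset.coe_empty, Set.union_empty, Set.union_empty, Set.image_id]
    exact TZB_conn_iff x _ u v
  have h1 := tp_iso (Tg d n) (Tg d n) (id : Te d n → Te d n)
    (fun e : Te d n => ((e.1 - x, e.2) : Te d n)) Function.injective_id hinj ∅ ∅
    (fun _ => Finset.notMem_empty _) (fun _ => Finset.notMem_empty _)
    (fun ω a _ => by
      have h2 := hc ω ((Tg d n).s a) ((Tg d n).r a)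
      have h3 : (Tg d n).r (a.1 - x, a.2) = (Tg d n).r a - x := by
        show a.1 - x + Pi.single a.2 1 = a.1 + Pi.single a.2 1 - x
        abel
      rw [h3]
      exact h2)
    (fun _ => Real.tanh β) (T01_tanh β hβ) x y (x - x) (y - x) (fun ω => hc ω x y)
  have h2 : ttf (id : Te d n → Te d n) ∅ (fun _ => Real.tanh β) = fun _ => Real.tanh β := by
    funext e
    unfold ttf
    rw [if_neg (Finset.notMem_empty _), dif_pos ⟨e, rfl⟩]
  have h3 : ttf (fun e : Te d n => ((e.1 - x, e.2) : Te d n)) ∅ (fun _ => Real.tanh β) =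
      fun _ => Real.tanh β := by
    funext e
    unfold ttf
    rw [if_neg (Finset.notMem_empty _), dif_pos ⟨(e.1 + x, e.2), by simp⟩]
  rw [h2, h3, sub_self] at h1
  exact h1

/-- a path from the origin leaves the box or stays in it -/
theorem TZB_path (hd : 1 ≤ d) (n r : ℕ) (ω : Set (Te d n)) (y : Tv d n)
    (h : (Tg d n).Conn ω (pt n 0) y) :
    (∃ b ∈ bdry d r, (Tg d n).Conn (ω ∩ pe n '' (bE d r : Set (Ed d))) (pt n 0) (pt n b)) ∨
      ∃ x : Vx d, nm x ≤ r ∧ y = pt n x ∧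
        (Tg d n).Conn (ω ∩ pe n '' (bE d r : Set (Ed d))) (pt n 0) (pt n x) := by
  induction h with
  | refl =>
    right
    exact ⟨0, by rw [nm_zero]; omega, rfl, Relation.ReflTransGen.refl⟩
  | tail _ hyz ih =>
    rename_i y z
    rcases ih with ih | ⟨x, hx, hyx, hconn⟩
    · exact Or.inl ih
    obtain ⟨e, heω, he⟩ := hyz
    rcases he with ⟨h1, h2⟩ | ⟨h1, h2⟩
    · -- the lattice edge at `x`
      obtain ⟨f, hf⟩ : ∃ f : Ed d, f = (x, e.2) := ⟨_, rfl⟩
      have hfs : (Zl d).s f = x := by rw [hf]; rfl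
      have hpe : pe n f = e := by
        rw [hf]
        refine Prod.ext ?_ rfl
        show pt n x = e.1
        rw [← hyx, ← h1]
        rfl
      have hadj : (Zl d).Adj Set.univ x ((Zl d).r f) := ⟨f, trivial, Or.inl ⟨hfs, rfl⟩⟩
      have hnm := nm_step hadj
      by_cases hfE : f ∈ bE d r
      · right
        refine ⟨(Zl d).r f, (mem_bE.1 hfE).2, ?_, ?_⟩
        · rw [← h2, ← hpe, pe_r]
        · refine Relation.ReflTransGen.tail hconn ⟨e, ⟨heω, ⟨f, hfE, hpe⟩⟩, Or.inl ⟨?_, ?_⟩⟩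
          · rw [h1, hyx]
          · rw [← pe_r, hpe]
      · left
        have hr' : ¬ nm ((Zl d).r f) ≤ r := fun h3 => hfE (mem_bE.2 ⟨by rw [hfs]; exact hx, h3⟩)
        exact ⟨x, (mem_bdry hd).2 (by omega), hconn⟩
    · obtain ⟨f, hf⟩ : ∃ f : Ed d, f = (x - Pi.single e.2 1, e.2) := ⟨_, rfl⟩
      have hfr : (Zl d).r f = x := by
        rw [hf]
        show x - Pi.single e.2 1 + Pi.single e.2 1 = x
        abel
      have hpe : pe n f = e := by
        have h3 := pe_r n f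
        rw [hfr, ← hyx, ← h2] at h3
        have h4 : (pe n f).2 = e.2 := by rw [hf]; rfl
        have h5 : (pe n f).1 + Pi.single (pe n f).2 1 = e.1 + Pi.single e.2 1 := h3
        rw [h4] at h5
        exact Prod.ext (add_right_cancel h5) h4
      have hadj : (Zl d).Adj Set.univ x ((Zl d).s f) := ⟨f, trivial, Or.inr ⟨rfl, hfr⟩⟩
      have hnm := nm_step hadj
      by_cases hfE : f ∈ bE d r
      · right
        refine ⟨(Zl d).s f, (mem_bE.1 hfE).1, ?_, ?_⟩
        · rw [← h1, ← hpe, pe_s]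
        · refine Relation.ReflTransGen.tail hconn ⟨e, ⟨heω, ⟨f, hfE, hpe⟩⟩, Or.inr ⟨?_, ?_⟩⟩
          · rw [← pe_s, hpe]
          · rw [h2, hyx]
      · left
        have hr' : ¬ nm ((Zl d).s f) ≤ r := fun h3 => hfE (mem_bE.2 ⟨h3, by rw [hfr]; exact hx⟩)
        exact ⟨x, (mem_bdry hd).2 (by omega), hconn⟩

theorem zero_mode (hd : 2 ≤ d) {β : ℝ} (hβ : 0 ≤ β) (n r : ℕ) [NeZero n] (hr : 2 * (r + 1) + 2 < n) :
    (Tg d n).IsE β (fun σ => (Sa (fun _ => n) σ) ^ 2) ≤
      ((2 * r + 1 : ℕ) : ℝ) ^ d / (n : ℝ) ^ d + phiB β r true (arm r (0 : Vx d)) := by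
  classical
  have hT : T01 (fun _ : Te d n => Real.tanh β) := T01_tanh β hβ
  have harm := torus_arm hd hβ n r hr
  obtain ⟨P, hP⟩ : ∃ P : ℝ, P = phiB β r true (arm r (0 : Vx d)) := ⟨_, rfl⟩
  rw [← hP] at harm ⊢
  have hP0 : 0 ≤ P := (fkE_nonneg (Tg d n) hT (fun ω => ind_nonneg _)).trans harm
  have hn : (0 : ℝ) < n := by
    have := NeZero.ne n
    exact_mod_cast Nat.pos_of_ne_zero this
  have hnd : (0 : ℝ) < (n : ℝ) ^ d := by positivity
  -- points outside the box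
  have hout : ∀ z : Tv d n, z ∉ (bx d r).image (pt n) →
      (Tg d n).tp (fun _ => Real.tanh β) 0 z ≤ P := by
    intro z hz
    rw [← fkE_conn]
    refine le_trans (fkE_le (Tg d n) hT fun ω => ind_mono ?_) harm
    intro hconn
    have h0 : (0 : Tv d n) = pt n (0 : Vx d) := by
      funext i
      simp [pt]
    rw [h0] at hconn
    rcases TZB_path (by omega) n r _ z hconn with h1 | ⟨x, hx, hzx, -⟩
    · exact h1
    · exact absurd (Finset.mem_image.2 ⟨x, mem_bx.2 hx, hzx.symm⟩) hz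
  have hsum0 : ∑ z : Tv d n, (Tg d n).tp (fun _ => Real.tanh β) 0 z ≤
      ((2 * r + 1 : ℕ) : ℝ) ^ d + (n : ℝ) ^ d * P := by
    have h1 : ∀ z : Tv d n, (Tg d n).tp (fun _ => Real.tanh β) 0 z ≤
        (if z ∈ (bx d r).image (pt n) then 1 else 0) + P := by
      intro z
      by_cases hz : z ∈ (bx d r).image (pt n)
      · rw [if_pos hz]
        linarith [tp_le_one (Tg d n) hT (0 : Tv d n) z]
      · rw [if_neg hz, zero_add]
        exact hout z hz
    refine (Finset.sum_le_sum fun z _ => h1 z).trans ?_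
    rw [Finset.sum_add_distrib, Finset.sum_const, Finset.card_univ, Fintype.card_fun, ZMod.card,
      Fintype.card_fin, nsmul_eq_mul, Nat.cast_pow]
    have h2 : ∑ z : Tv d n, (if z ∈ (bx d r).image (pt n) then (1 : ℝ) else 0) =
        ((bx d r).image (pt n)).card := by
      rw [Finset.sum_ite_mem, Finset.univ_inter, Finset.sum_const, nsmul_eq_mul, mul_one]
    rw [h2]
    have h3 : (((bx d r).image (pt n)).card : ℝ) ≤ ((2 * r + 1 : ℕ) : ℝ) ^ d := by
      rw [← Nat.cast_pow, ← card_bx]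
      exact_mod_cast Finset.card_image_le
    linarith
  have hsumx : ∀ x : Tv d n, ∑ y : Tv d n, (Tg d n).tp (fun _ => Real.tanh β) x y ≤
      ((2 * r + 1 : ℕ) : ℝ) ^ d + (n : ℝ) ^ d * P := by
    intro x
    refine le_trans (le_of_eq ?_) hsum0
    rw [← Equiv.sum_comp (Equiv.subRight x) (fun z => (Tg d n).tp (fun _ => Real.tanh β) 0 z)]
    exact Finset.sum_congr rfl fun y _ => TZB_shift hβ n x y
  have htb : (tb (fun _ : Fin d => n) : Finset (Tv d n)) = Finset.univ := by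
    ext x
    simp [tb, ZMod.val_lt]
  have hE : (Tg d n).IsE β (fun σ => (Sa (fun _ => n) σ) ^ 2) =
      ((n : ℝ) ^ d)⁻¹ ^ 2 * ∑ x : Tv d n, ∑ y : Tv d n,
        (Tg d n).tp (fun _ => Real.tanh β) x y := by
    have h1 : (fun σ : Tv d n → Bool => (Sa (fun _ => n) σ) ^ 2) = fun σ =>
        ((n : ℝ) ^ d)⁻¹ ^ 2 * ∑ x : Tv d n, ∑ y : Tv d n, sp (σ x) * sp (σ y) := by
      funext σ
      unfold Sa
      rw [htb, mul_pow, Finset.prod_const, Finset.card_univ, Fintype.card_fin, sq (∑ x, sp (σ x)),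
        Finset.sum_mul_sum]
    rw [h1, isE_smul, isE_sum]
    congr 1
    refine Finset.sum_congr rfl fun x _ => ?_
    rw [isE_sum]
    exact Finset.sum_congr rfl fun y _ => isE_tp _ _ _ _
  rw [hE]
  have h4 : ∑ x : Tv d n, ∑ y : Tv d n, (Tg d n).tp (fun _ => Real.tanh β) x y ≤
      (n : ℝ) ^ d * (((2 * r + 1 : ℕ) : ℝ) ^ d + (n : ℝ) ^ d * P) := by
    refine (Finset.sum_le_sum fun x _ => hsumx x).trans (le_of_eq ?_)
    rw [Finset.sum_const, Finset.card_univ, Fintype.card_fun, ZMod.card, Fintype.card_fin,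
      nsmul_eq_mul, Nat.cast_pow]
  calc _ ≤ ((n : ℝ) ^ d)⁻¹ ^ 2 * ((n : ℝ) ^ d * (((2 * r + 1 : ℕ) : ℝ) ^ d + (n : ℝ) ^ d * P)) :=
        mul_le_mul_of_nonneg_left h4 (by positivity)
    _ = _ := by field_simp

end H82.IC
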