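import Pool.Agent.H82.IC.UQA
import Pool.Agent.H82.IC.INL
import Pool.Agent.H82.IC.BKD

/-!
# UQB: only `ins_free` and `perc_zero` in this file

* `infrared_crit`: `β = bcr d > 0`.  For every `R`: the inequality of `infrared_free` holds for all `0 < β < bcr d` (`bcr_zero`), both sides are continuous in `β` (`phiB_continuous`), so it holds at `bcr d`.  Let `R → ∞`
  (`free_tendsto` with `S = ∅`; `cube d j ⊆ bx R` for large `R`): `∑_{x,y ∈ cube j} μ0 (cn x y) ≤ (3d)² (2^{-j}/bcr d) |cube j|²` (`|cube d j| = 2^{jd}`).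
* `avg_zero`: so hypothesis `hA` of `bk_main` holds for `μ0` (and for `ν` of `exists_nu` since `ν (cn x y) ≤ μ0 (cn x y)`), with `Q = cube d j`, `j` large.
* `no_perc_nu`: `bk_main` for `ν`: `ν (perc d) = 0`, so `ν (arm l 0) → 0` (`tendsto_arm`), and for an edge `e`: `ν (arm l (s e)) ≤ ν (arm (l - nm (s e)) 0)` by `TI` (as in `arm_le`), `→ 0`: `μ1 (up {e}) ≤ μ0 (up {e})`;
  with `lim_le`: equality for every edge.
* `free_eq_wired`: for a finset `S`: the function `∑_{e ∈ S} 1[ω e] - 1[up S]` is `∑_{j=1}^{|S|-1} 1[at least j edges of S open]`, a sum of indicators of increasing cylinder events, so by `lim_le` its `μ0`-expectation is `≤` its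
  `μ1`-expectation; as the densities agree, `μ1 (up S) ≤ μ0 (up S)`; with `lim_le` equality; `measure_ext_up`.
* `perc_zero`: `bk_main` for `μ0` itself: `TI μ0` by `lim_shift` (`exists_trA`: `act g = shf a`), `INS μ0 (2/τ)`: by `fe_open` for the single edge in every box: `(τ/2) phiB β n false {opE e ω ∈ X} ≤ phiB β n false X`
  for `e ∈ bE n`, limit for cylinder `X`, and extension to measurable `X` as in FWC.
-/

set_option autoImplicit false

open Finset MeasureTheory Filter Topology

namespace H82.IC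

variable {d : ℕ}

theorem UQB_insc {β : ℝ} (hβ : 0 ≤ β) (n : ℕ) {e : Ed d} (he : e ∈ bE d n) (X : Set (Cf d)) :
    Real.tanh β / 2 * phiB β n false {ω | opE e ω ∈ X} ≤ phiB β n false X := by
  have ht : T01 (fun _ : ↥(bE d n) => Real.tanh β) := T01_tanh β hβ
  rw [phiB_self hβ, phiB_self hβ]
  have h1 := fe_open (GN d n) ht {⟨e, he⟩} (f := fun ω => ind (ext false n n ω ∈ X))
    (fun ω => ind_nonneg _)
  rw [Finset.prod_singleton] at h1
  have e1 : (fun ω : Finset ↥(bE d n) => ind (ext false n n ω ∈ {ω | opE e ω ∈ X})) =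
      (fun ω => ind (ext false n n (ω ∪ {⟨e, he⟩}) ∈ X)) := by
    funext ω
    have : ext false n n (ω ∪ {⟨e, he⟩}) = opE e (ext false n n ω) := by
      funext f
      unfold opE
      by_cases hf : f = e
      · subst hf
        rw [Function.update_self]
        unfold ext glue
        rw [if_pos he]
        unfold vl
        simp [he]
      · rw [Function.update_of_ne hf]
        unfold ext glue
        by_cases hfm : f ∈ bE d n
        · rw [if_pos hfm, if_pos hfm]
          unfold vl
          simp [hf, hfm]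
        · rw [if_neg hfm, if_neg hfm]
    rw [this]
    rfl
  rw [e1]
  refine h1.trans (fkE_le _ ht ?_)
  intro ω
  have := ind_le_one (({⟨e, he⟩} : Finset ↥(bE d n)) ⊆ ω)
  have h3 := ind_nonneg (ext false n n ω ∈ X)
  nlinarith

theorem UQB_mem {e : Ed d} {n : ℕ} (h : nm e.1 + 1 ≤ n) : e ∈ bE d n := by
  rw [mem_bE]
  refine ⟨?_, ?_⟩
  · change nm e.1 ≤ n
    omega
  · change nm (e.1 + Pi.single e.2 1) ≤ n
    refine le_trans ?_ h
    unfold nm
    refine Finset.sup_le fun i _ => ?_
    have h1 : (e.1 i).natAbs ≤ univ.sup (fun i => (e.1 i).natAbs) :=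
      Finset.le_sup (f := fun i => (e.1 i).natAbs) (Finset.mem_univ i)
    rw [Pi.add_apply, Pi.single_apply]
    split_ifs <;> omega

theorem UQB_lcl {X : Set (Cf d)} (hX : Lcl X) (e : Ed d) : Lcl {ω : Cf d | opE e ω ∈ X} := by
  obtain ⟨F, hF⟩ := hX
  refine ⟨F, fun ω ω' h => ?_⟩
  apply hF
  intro f hf
  unfold opE
  by_cases hfe : f = e
  · rw [hfe, Function.update_self, Function.update_self]
  · rw [Function.update_of_ne hfe, Function.update_of_ne hfe]
    exact h f hf

theorem ins_free (hd : 2 ≤ d) {β : ℝ} (hβ : 0 < β) {μ0 : Measure (Cf d)} (h0 : IsLim β false μ0) :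
    TI μ0 ∧ INS μ0 (2 / Real.tanh β) := by
  haveI := h0.1
  have hτ : 0 < Real.tanh β := by
    rw [Real.tanh_eq_sinh_div_cosh]
    exact div_pos (Real.sinh_pos_iff.2 hβ) (Real.cosh_pos β)
  refine ⟨?_, ?_⟩
  · intro a X hX
    obtain ⟨g, hg, hgE⟩ := exists_trA a
    have h1 := lim_shift hβ.le h0 g a hg X hX
    rw [← h1]
    congr 1
    ext ω
    have : act g ω = shf a ω := by
      funext e
      change ω (g.gE e) = ω (e.1 + a, e.2)
      rw [hgE]
    change shf a ω ∈ X ↔ act g ω ∈ X
    rw [this]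
  · refine ins_of_lcl μ0 _ (by positivity) ?_
    intro e X hX
    have hlim : Tendsto (fun n => Real.tanh β / 2 * phiB β n false {ω | opE e ω ∈ X}) atTop
        (𝓝 (Real.tanh β / 2 * μ0.real {ω | opE e ω ∈ X})) :=
      (h0.2 _ (UQB_lcl hX e)).const_mul _
    have h2 : Real.tanh β / 2 * μ0.real {ω | opE e ω ∈ X} ≤ μ0.real X := by
      refine le_of_tendsto_of_tendsto hlim (h0.2 X hX) ?_
      filter_upwards [eventually_ge_atTop (nm e.1 + 1)] with n hn
      exact UQB_insc hβ.le n (UQB_mem hn) X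
    rw [div_mul_eq_mul_div, le_div_iff₀ hτ]
    linarith

theorem perc_zero (hd : 3 ≤ d) {μ0 : Measure (Cf d)} (h0 : IsLim (bcr d) false μ0) :
    μ0.real (perc d) = 0 := by
  haveI := h0.1
  have hβ := bcr_pos hd
  have hτ : 0 < Real.tanh (bcr d) := by
    rw [Real.tanh_eq_sinh_div_cosh]
    exact div_pos (Real.sinh_pos_iff.2 hβ) (Real.cosh_pos _)
  obtain ⟨h1, h2⟩ := ins_free (by omega) hβ h0
  exact bk_main (by omega) μ0 h1 _ (by positivity) h2 (avg_zero hd h0)

end H82.IC
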