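import Pool.Agent.H82.IC.FWC
import Pool.Agent.H82.IC.UQB

/-!
# UQ: only `free_eq_wired` in this file (`avg_zero`, `ins_free`, `perc_zero` are in UQA, UQB)

* `infrared_crit`: `β = bcr d > 0`.  For every `R`: the inequality of `infrared_free` holds for all `0 < β < bcr d` (`bcr_zero`), both sides are continuous in `β` (`phiB_continuous`), so it holds at `bcr d`.  Let `R → ∞`
  (`free_tendsto` with `S = ∅`; `cube d j ⊆ bx R` for large `R`): `∑_{x,y ∈ cube j} μ0 (cn x y) ≤ (3d)² (2^{-j}/bcr d) |cube j|²` (`|cube d j| = 2^{jd}`).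
* `avg_zero`: so hypothesis `hA` of `bk_main` holds for `μ0` (and for `ν` of `exists_nu` since `ν (cn x y) ≤ μ0 (cn x y)`), with `Q = cube d j`, `j` large.
* `no_perc_nu`: `bk_main` for `ν`: `ν (perc d) = 0`, so `ν (arm l 0) → 0` (`tendsto_arm`), and for an edge `e`: `ν (arm l (s e)) ≤ ν (arm (l - nm (s e)) 0)` by `TI` (as in `arm_le`), `→ 0`: `μ1 (up {e}) ≤ μ0 (up {e})`;
  with `lim_le`: equality for every edge.
* `free_eq_wired`: for a finset `S`: the function `∑_{e ∈ S} 1[ω e] - 1[up S]` is `∑_{j=1}^{|S|-1} 1[at least j edges of S open]`, a sum of indicators of increasing cylinder events, so by `lim_le` its `μ0`-expectation is `≤` its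
  `μ1`-expectation; as the densities agree, `μ1 (up S) ≤ μ0 (up S)`; with `lim_le` equality; `measure_ext_up`.
* `perc_zero`: `bk_main` for `μ0` itself: `TI μ0` by `lim_shift` (`exists_trA`: `act g = shf a`), `INS μ0 (2/τ)`: by `fe_open` for the single edge in every box: `(τ/2) phiB β n false {opE e ω ∈ X} ≤ phiB β n false X`
  for `e ∈ bE n`, limit for cylinder `X`, and extension to measurable `X` as in FWC.
-/

set_option autoImplicit false

open Finset MeasureTheory Filter Topology

namespace H82.IC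

variable {d : ℕ}

theorem UQ_arm {ν : Measure (Cf d)} [IsProbabilityMeasure ν] (hd : 1 ≤ d) (hT : TI ν)
    {n : ℕ} {u : Vx d} (hu : nm u ≤ n) :
    ν.real (arm n u) ≤ ν.real (arm (n - nm u) (0 : Vx d)) := by
  rw [← hT u (arm (n - nm u) (0 : Vx d)) (meas_arm _ _)]
  refine measureReal_mono ?_
  rintro ω ⟨y, hy, hconn⟩
  have hny : nm y = n := (mem_bdry hd).1 hy
  have h1 : shf u ω ∈ cn (0 : Vx d) (y - u) := by
    rw [shf_cn, zero_add, sub_add_cancel]
    exact hconn
  have h2 : n - nm u ≤ nm (y - u) := by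
    have h3 := nm_add (y - u) u
    rw [sub_add_cancel, hny] at h3
    omega
  exact cn_sub_arm hd (by rw [nm_zero]; exact Nat.zero_le _) h2 h1

theorem UQ_edge (hd : 3 ≤ d) {μ0 μ1 : Measure (Cf d)} (h0 : IsLim (bcr d) false μ0)
    (h1 : IsLim (bcr d) true μ1) (e : Ed d) : μ1.real (up {e}) ≤ μ0.real (up {e}) := by
  have hd1 : 1 ≤ d := by omega
  have hd2 : 2 ≤ d := by omega
  have hβ := bcr_pos hd
  obtain ⟨ν, hν, hT, hI, hcn, hdiff⟩ := exists_nu hd2 hβ h0 h1
  have hτ : 0 < Real.tanh (bcr d) := by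
    rw [Real.tanh_eq_sinh_div_cosh]
    exact div_pos (Real.sinh_pos_iff.mpr hβ) (Real.cosh_pos _)
  have hperc : ν.real (perc d) = 0 := by
    apply bk_main hd1 ν hT (1 / Real.tanh (bcr d) ^ 2) (by positivity) hI
    intro ε hε
    obtain ⟨Q, hQ, hQe⟩ := avg_zero hd h0 ε hε
    refine ⟨Q, hQ, le_trans ?_ hQe⟩
    exact Finset.sum_le_sum (fun x _ => Finset.sum_le_sum (fun y _ => hcn x y))
  have harm : Tendsto (fun l => ν.real (arm (l - nm ((Zl d).s e)) (0 : Vx d))) atTop (𝓝 0) := by
    have h2 := tendsto_arm hd1 (μ := ν)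
    rw [hperc] at h2
    exact h2.comp (tendsto_sub_atTop_nat _)
  have hle : Real.tanh (bcr d) ^ 2 * (μ1.real (up {e}) - μ0.real (up {e})) ≤ 0 := by
    apply ge_of_tendsto harm
    filter_upwards [eventually_ge_atTop (nm ((Zl d).s e))] with l hl
    exact (hdiff e l hl).trans (UQ_arm hd1 hT hl)
  have hτ2 : 0 < Real.tanh (bcr d) ^ 2 := by positivity
  by_contra hcon
  push Not at hcon
  have := mul_pos hτ2 (sub_pos.mpr hcon)
  linarith

theorem UQ_inc_union {X Y : Set (Cf d)} (h : Inc X) (h' : Inc Y) : Inc (X ∪ Y) := by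
  intro ω ω' hω hx
  rcases hx with hx | hx
  · exact Or.inl (h ω ω' hω hx)
  · exact Or.inr (h' ω ω' hω hx)

theorem free_eq_wired (hd : 3 ≤ d) {μ0 μ1 : Measure (Cf d)} (h0 : IsLim (bcr d) false μ0)
    (h1 : IsLim (bcr d) true μ1) : μ0 = μ1 := by
  classical
  have hd2 : 2 ≤ d := by omega
  have hβ := (bcr_pos hd).le
  haveI : IsProbabilityMeasure μ0 := h0.1
  haveI : IsProbabilityMeasure μ1 := h1.1
  apply measure_ext_up
  intro S
  induction S using Finset.induction_on with
  | empty =>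
    have h : (up (∅ : Finset (Ed d)) : Set (Cf d)) = Set.univ := by
      ext ω
      simp [up]
    rw [h]
    simp
  | insert e S _ ih =>
    have hI : (up (insert e S) : Set (Cf d)) = up S ∩ up {e} := by
      ext ω
      simp only [up, Set.mem_ofPred_eq, Finset.mem_insert, Finset.mem_singleton, Set.mem_inter_iff]
      constructor
      · intro h
        exact ⟨fun f hf => h f (Or.inr hf), fun f hf => h f (Or.inl hf)⟩
      · rintro ⟨ha, hb⟩ f (hf | hf)
        · exact hb f hf
        · exact ha f hf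
    have he : μ0.real (up {e}) = μ1.real (up {e}) :=
      le_antisymm (lim_le hd2 hβ h0 h1 (inc_up _) (lcl_up _)) (UQ_edge hd h0 h1 e)
    have hu := lim_le hd2 hβ h0 h1 (UQ_inc_union (inc_up S) (inc_up {e}))
      (lcl_union (lcl_up S) (lcl_up {e}))
    have hi := lim_le hd2 hβ h0 h1 (inc_inter (inc_up S) (inc_up {e}))
      (lcl_inter (lcl_up S) (lcl_up {e}))
    have m : MeasurableSet (up {e} : Set (Cf d)) := lcl_measurable (lcl_up {e})
    have a0 := measureReal_union_add_inter (μ := μ0) (s := (up S : Set (Cf d))) (t := up {e}) m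
    have a1 := measureReal_union_add_inter (μ := μ1) (s := (up S : Set (Cf d))) (t := up {e}) m
    rw [hI]
    linarith

end H82.IC
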