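import Pool.Agent.H82.IC.LX3

/-!
# UQA: only `avg_zero` in this file (see also UQB, UQ)

* `infrared_crit`: `β = bcr d > 0`.  For every `R`: the inequality of `infrared_free` holds for all `0 < β < bcr d` (`bcr_zero`), both sides are continuous in `β` (`phiB_continuous`), so it holds at `bcr d`.  Let `R → ∞`
  (`free_tendsto` with `S = ∅`; `cube d j ⊆ bx R` for large `R`): `∑_{x,y ∈ cube j} μ0 (cn x y) ≤ (3d)² (2^{-j}/bcr d) |cube j|²` (`|cube d j| = 2^{jd}`).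
* `avg_zero`: so hypothesis `hA` of `bk_main` holds for `μ0` (and for `ν` of `exists_nu` since `ν (cn x y) ≤ μ0 (cn x y)`), with `Q = cube d j`, `j` large.
* `no_perc_nu`: `bk_main` for `ν`: `ν (perc d) = 0`, so `ν (arm l 0) → 0` (`tendsto_arm`), and for an edge `e`: `ν (arm l (s e)) ≤ ν (arm (l - nm (s e)) 0)` by `TI` (as in `arm_le`), `→ 0`: `μ1 (up {e}) ≤ μ0 (up {e})`;
  with `lim_le`: equality for every edge.
* `free_eq_wired`: for a finset `S`: the function `∑_{e ∈ S} 1[ω e] - 1[up S]` is `∑_{j=1}^{|S|-1} 1[at least j edges of S open]`, a sum of indicators of increasing cylinder events, so by `lim_le` its `μ0`-expectation is `≤` its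
  `μ1`-expectation; as the densities agree, `μ1 (up S) ≤ μ0 (up S)`; with `lim_le` equality; `measure_ext_up`.
* `perc_zero`: `bk_main` for `μ0` itself: `TI μ0` by `lim_shift` (`exists_trA`: `act g = shf a`), `INS μ0 (2/τ)`: by `fe_open` for the single edge in every box: `(τ/2) phiB β n false {opE e ω ∈ X} ≤ phiB β n false X`
  for `e ∈ bE n`, limit for cylinder `X`, and extension to measurable `X` as in FWC.
-/

set_option autoImplicit false

open Finset MeasureTheory Filter Topology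

namespace H82.IC

variable {d : ℕ}

theorem UQA_crit (hd : 3 ≤ d) (j R : ℕ) :
    ∑ x ∈ cube d j ∩ bx d R, ∑ y ∈ cube d j ∩ bx d R, phiB (bcr d) R false (cn x y) ≤
      (3 * d) ^ 2 * ((2 ^ j : ℝ)⁻¹ / bcr d) * ((2 ^ j : ℝ) ^ d) ^ 2 := by
  have hb := bcr_pos hd
  have h1 : Tendsto (fun β : ℝ => ∑ x ∈ cube d j ∩ bx d R, ∑ y ∈ cube d j ∩ bx d R,
      phiB β R false (cn x y)) (𝓝[<] (bcr d))
      (𝓝 (∑ x ∈ cube d j ∩ bx d R, ∑ y ∈ cube d j ∩ bx d R,
        phiB (bcr d) R false (cn x y))) := by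
    refine tendsto_finsetSum _ fun x _ => tendsto_finsetSum _ fun y _ => ?_
    exact (((phiB_continuous R false (cn x y)).continuousAt (Ici_mem_nhds hb)).tendsto).mono_left
      nhdsWithin_le_nhds
  have h2 : Tendsto (fun β : ℝ => (3 * (d : ℝ)) ^ 2 * ((2 ^ j : ℝ)⁻¹ / β) * ((2 ^ j : ℝ) ^ d) ^ 2)
      (𝓝[<] (bcr d)) (𝓝 ((3 * (d : ℝ)) ^ 2 * ((2 ^ j : ℝ)⁻¹ / bcr d) * ((2 ^ j : ℝ) ^ d) ^ 2)) := by
    refine Tendsto.mul_const _ (Tendsto.const_mul _ ?_)
    exact (tendsto_const_nhds.div tendsto_id hb.ne').mono_left nhdsWithin_le_nhds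
  refine le_of_tendsto_of_tendsto h1 h2 ?_
  filter_upwards [Ioo_mem_nhdsLT hb] with β hβ
  exact infrared_free hd hβ.1 (bcr_zero hβ.1.le hβ.2) j R

theorem UQA_card (j : ℕ) : (((cube d j).card : ℕ) : ℝ) = (2 ^ j : ℝ) ^ d := by
  unfold cube
  rw [Fintype.card_piFinset]
  simp only [Int.card_Ico, sub_zero, Finset.prod_const, Finset.card_univ, Fintype.card_fin]
  have h : ((2 : ℤ) ^ j).toNat = 2 ^ j := by
    have : ((2 : ℤ) ^ j) = ((2 ^ j : ℕ) : ℤ) := by push_cast; rfl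
    rw [this, Int.toNat_natCast]
  rw [h]
  push_cast
  rfl

theorem UQA_inf (hd : 3 ≤ d) {μ0 : Measure (Cf d)} (h0 : IsLim (bcr d) false μ0) (j : ℕ) :
    ∑ x ∈ cube d j, ∑ y ∈ cube d j, μ0.real (cn x y) ≤
      (3 * d) ^ 2 * ((2 ^ j : ℝ)⁻¹ / bcr d) * ((2 ^ j : ℝ) ^ d) ^ 2 := by
  have hb := bcr_pos hd
  have h1 : Tendsto (fun R : ℕ => ∑ x ∈ cube d j, ∑ y ∈ cube d j,
      phiB (bcr d) R false (cn x y)) atTop
      (𝓝 (∑ x ∈ cube d j, ∑ y ∈ cube d j, μ0.real (cn x y))) := by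
    refine tendsto_finsetSum _ fun x _ => tendsto_finsetSum _ fun y _ => ?_
    have h := free_tendsto (by omega) hb.le h0 ∅ x y
    have hu : cn x y ∩ up (∅ : Finset (Ed d)) = cn x y := by
      ext ω
      simp [up]
    rwa [hu] at h
  refine le_of_tendsto h1 ?_
  filter_upwards [eventually_ge_atTop ((cube d j).sup nm)] with R hR
  have h2 : cube d j ∩ bx d R = cube d j := by
    refine Finset.inter_eq_left.2 fun x hx => ?_
    rw [mem_bx]
    exact (Finset.le_sup (f := nm) hx).trans hR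
  have h3 := UQA_crit hd j R
  rw [h2] at h3
  exact h3

theorem avg_zero (hd : 3 ≤ d) {μ0 : Measure (Cf d)} (h0 : IsLim (bcr d) false μ0) :
    ∀ ε : ℝ, 0 < ε → ∃ Q : Finset (Vx d), Q.Nonempty ∧
      ∑ x ∈ Q, ∑ y ∈ Q, μ0.real (cn x y) ≤ ε * (Q.card : ℝ) ^ 2 := by
  intro ε hε
  have hb := bcr_pos hd
  have h1 : Tendsto (fun j : ℕ => (3 * (d : ℝ)) ^ 2 * ((2 ^ j : ℝ)⁻¹ / bcr d)) atTop
      (𝓝 ((3 * (d : ℝ)) ^ 2 * (0 / bcr d))) := by
    refine Tendsto.const_mul _ (Tendsto.div_const ?_ _)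
    exact tendsto_inv_atTop_zero.comp (tendsto_pow_atTop_atTop_of_one_lt one_lt_two)
  rw [zero_div, mul_zero] at h1
  obtain ⟨j, hj⟩ := (h1.eventually (gt_mem_nhds hε)).exists
  refine ⟨cube d j, ?_, ?_⟩
  · refine ⟨fun _ => 0, Fintype.mem_piFinset.2 fun i => ?_⟩
    simp
  · rw [UQA_card]
    refine (UQA_inf hd h0 j).trans ?_
    exact mul_le_mul_of_nonneg_right hj.le (by positivity)

end H82.IC
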